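import Pool.Agent.Lib.MP_5932b0_an.AR.Defs

section

/-!
# A1: trace of operators of `ℝ^n`

Use `LinearMap.trace_mul_comm`, `LinearMap.trace_smulRight`, `LinearMap.trace_one`,
and the formula `tr A = ∑ i, ⟨A e_i, e_i⟩` for the standard orthonormal basis
(`LinearMap.trace_eq_sum_inner` or `trace_eq_matrix_trace`).
-/

noncomputable section

open MeasureTheory Metric Set Filter Topology

namespace Allard

variable {n : ℕ}

theorem tr_add (A B : Op n) : tr (A + B) = tr A + tr B := by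
  unfold tr
  rw [ContinuousLinearMap.toLinearMap_add, map_add]

theorem tr_sub (A B : Op n) : tr (A - B) = tr A - tr B := by
  unfold tr
  rw [ContinuousLinearMap.toLinearMap_sub, map_sub]

theorem tr_neg (A : Op n) : tr (-A) = - tr A := by
  unfold tr
  rw [ContinuousLinearMap.toLinearMap_neg, map_neg]

theorem tr_smul (c : ℝ) (A : Op n) : tr (c • A) = c * tr A := by
  unfold tr
  rw [ContinuousLinearMap.toLinearMap_smul, map_smul, smul_eq_mul]

theorem tr_mul_comm (A B : Op n) : tr (A * B) = tr (B * A) := by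
  unfold tr
  exact LinearMap.trace_mul_comm ℝ (A : E n →ₗ[ℝ] E n) (B : E n →ₗ[ℝ] E n)

theorem tr_one : tr (1 : Op n) = n := by
  unfold tr
  have h : ((1 : Op n) : E n →ₗ[ℝ] E n) = 1 := rfl
  rw [h, LinearMap.trace_one, finrank_euclideanSpace, Fintype.card_fin]

/-- Trace in the standard orthonormal basis. -/
theorem tr_eq_sum (A : Op n) :
    tr A = ∑ i, inner ℝ (A (EuclideanSpace.basisFun (Fin n) ℝ i))
      (EuclideanSpace.basisFun (Fin n) ℝ i) := by
  unfold tr
  rw [LinearMap.trace_eq_sum_inner _ (EuclideanSpace.basisFun (Fin n) ℝ)]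
  refine Finset.sum_congr rfl fun i _ => ?_
  rw [real_inner_comm]
  rfl

theorem inner_tp (A : Op n) (x y : E n) : inner ℝ (tp A x) y = inner ℝ x (A y) :=
  ContinuousLinearMap.adjoint_inner_left A y x

theorem tr_tp (A : Op n) : tr (tp A) = tr A := by
  rw [tr_eq_sum, tr_eq_sum]
  refine Finset.sum_congr rfl fun i _ => ?_
  rw [inner_tp, real_inner_comm]

theorem tr_mul_smulRight (A : Op n) (φ : E n →L[ℝ] ℝ) (u : E n) :
    tr (A * φ.smulRight u) = φ (A u) := by
  rw [tr_mul_comm]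
  unfold tr
  have h : ((φ.smulRight u * A : Op n) : E n →ₗ[ℝ] E n) =
      ((φ : E n →ₗ[ℝ] ℝ) ∘ₗ (A : E n →ₗ[ℝ] E n)).smulRight u := by
    ext x
    rfl
  rw [h, LinearMap.trace_smulRight]
  rfl

theorem tr_mul_rk (A : Op n) (u w : E n) : tr (A * rk u w) = inner ℝ w (A u) := by
  unfold rk
  rw [tr_mul_smulRight]
  rfl

theorem abs_tr_le (A : Op n) : |tr A| ≤ n * ‖A‖ := by
  rw [tr_eq_sum]
  refine (Finset.abs_sum_le_sum_abs _ _).trans ?_
  have h : ∀ i ∈ (Finset.univ : Finset (Fin n)),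
      |inner ℝ (A (EuclideanSpace.basisFun (Fin n) ℝ i)) (EuclideanSpace.basisFun (Fin n) ℝ i)|
        ≤ ‖A‖ := by
    intro i _
    refine (abs_real_inner_le_norm _ _).trans ?_
    have h1 : ‖EuclideanSpace.basisFun (Fin n) ℝ i‖ = 1 :=
      (EuclideanSpace.basisFun (Fin n) ℝ).orthonormal.1 i
    have h2 := A.le_opNorm (EuclideanSpace.basisFun (Fin n) ℝ i)
    rw [h1, mul_one] at h2 ⊢
    exact h2
  refine (Finset.sum_le_card_nsmul _ _ _ h).trans ?_
  rw [Finset.card_univ, Fintype.card_fin, nsmul_eq_mul]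

theorem continuous_tr : Continuous (tr : Op n → ℝ) := by
  have h : (tr : Op n → ℝ) = fun A => ∑ i, inner ℝ (A (EuclideanSpace.basisFun (Fin n) ℝ i))
      (EuclideanSpace.basisFun (Fin n) ℝ i) := funext tr_eq_sum
  rw [h]
  refine continuous_finsetSum _ fun i _ => ?_
  refine Continuous.inner ?_ continuous_const
  exact (ContinuousLinearMap.apply ℝ (E n) (EuclideanSpace.basisFun (Fin n) ℝ i)).continuous

/-- Monotonicity of the trace on quadratic forms. -/
theorem tr_le_of_form (A B : Op n) (h : ∀ x, inner ℝ (A x) x ≤ inner ℝ (B x) x) :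
    tr A ≤ tr B := by
  rw [tr_eq_sum, tr_eq_sum]
  exact Finset.sum_le_sum fun i _ => h _

theorem tp_mul (A B : Op n) : tp (A * B) = tp B * tp A :=
  ContinuousLinearMap.adjoint_comp A B

theorem tp_tp (A : Op n) : tp (tp A) = A :=
  ContinuousLinearMap.adjoint_adjoint A

theorem tp_one : tp (1 : Op n) = 1 := by
  refine ContinuousLinearMap.ext fun x => ?_
  refine ext_inner_right ℝ fun y => ?_
  rw [inner_tp]
  rfl

theorem tp_add (A B : Op n) : tp (A + B) = tp A + tp B :=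
  map_add _ A B

theorem tp_sub (A B : Op n) : tp (A - B) = tp A - tp B :=
  map_sub _ A B

theorem tp_smul (c : ℝ) (A : Op n) : tp (c • A) = c • tp A := by
  unfold tp
  rw [map_smulₛₗ]
  rfl

theorem norm_tp (A : Op n) : ‖tp A‖ = ‖A‖ :=
  LinearIsometryEquiv.norm_map _ A

end Allard
end
end

section

/-!
# B2: elementary properties of kernels and the comparison of two centres

`Ker.cmp_centre`: let `ρ = ‖x - z‖/(1-2e)`.  If `ρ ≥ 1`, the left side is `0`.  Otherwise
`‖x‖ ≤ ‖x - z‖ + e = ρ (1-2e) + e ≤ 1 - (1-2e)(1-ρ)`, so by monotonicity and `cmp` (`l = 1-2e`)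
`η ‖x‖ ≥ η (1 - (1-2e)(1-ρ)) ≥ (1-2e)³ η ρ`.

`Ker.lip`: `η` is `C²`, constant outside `[0,1]`, so `η'` is bounded.

`Ker.measurable_kr` etc: continuity.
-/

noncomputable section

open MeasureTheory Metric Set Filter Topology

namespace Allard

variable {τ : ℝ} {η : ℝ → ℝ} {n m : ℕ}

theorem Ker.nonneg (h : Ker τ η) (t : ℝ) : 0 ≤ η t := by
  have h1 := h.anti (le_max_left t 1)
  rwa [h.zero _ (le_max_right t 1)] at h1

theorem Ker.le_one (h : Ker τ η) (t : ℝ) : η t ≤ 1 := by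
  have h1 := h.anti (min_le_left t (1 - τ))
  rwa [h.one _ (min_le_right t (1 - τ))] at h1

theorem Ker.cont (h : Ker τ η) : Continuous η := h.smooth.continuous

theorem Ker.one_half (h : Ker τ η) {t : ℝ} (ht : t ≤ 1 / 2) : η t = 1 := by
  have := h.tle
  exact h.one t (by linarith)

theorem Ker.lip (h : Ker τ η) : ∃ c : ℝ, 0 < c ∧ ∀ s t, |η s - η t| ≤ c * |s - t| := by
  have hc : Continuous (deriv η) := h.smooth.continuous_deriv (by norm_num)
  have hs : HasCompactSupport (deriv η) := by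
    refine HasCompactSupport.intro (K := Set.Icc (1 / 2 : ℝ) 1) isCompact_Icc fun t ht => ?_
    rw [Set.mem_Icc, not_and_or, not_le, not_le] at ht
    rcases ht with ht | ht
    · have h1 : η =ᶠ[𝓝 t] fun _ => (1 : ℝ) := by
        filter_upwards [Iio_mem_nhds ht] with x hx
        exact h.one_half (le_of_lt hx)
      rw [h1.deriv_eq, deriv_const]
    · have h1 : η =ᶠ[𝓝 t] fun _ => (0 : ℝ) := by
        filter_upwards [Ioi_mem_nhds ht] with x hx
        exact h.zero x (le_of_lt hx)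
      rw [h1.deriv_eq, deriv_const]
  obtain ⟨C, hC⟩ := hc.bounded_above_of_compact_support hs
  refine ⟨|C| + 1, by positivity, fun s t => ?_⟩
  have h1 := Convex.norm_image_sub_le_of_norm_deriv_le (𝕜 := ℝ) (f := η) (s := Set.univ)
    (C := |C| + 1) (x := t) (y := s) (fun x _ => (h.smooth.differentiable (by norm_num)) x)
    (fun x _ => (hC x).trans ((le_abs_self C).trans (by linarith))) convex_univ
    (Set.mem_univ _) (Set.mem_univ _)
  rwa [Real.norm_eq_abs, Real.norm_eq_abs] at h1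

theorem Ker.cmp_centre (h : Ker τ η) (x z : E n) {e : ℝ} (he : 0 ≤ e) (he' : e ≤ 1 / 4)
    (hz : ‖z‖ ≤ e) : (1 - 2 * e) ^ 3 * η (‖x - z‖ / (1 - 2 * e)) ≤ η ‖x‖ := by
  have hl : 0 < 1 - 2 * e := by linarith
  set ρ := ‖x - z‖ / (1 - 2 * e) with hρ
  rcases le_total 1 ρ with h1 | h1
  · rw [h.zero ρ h1, mul_zero]
    exact h.nonneg _
  · refine (h.cmp ρ (1 - 2 * e) h1 hl.le (by linarith)).trans (h.anti ?_)
    have h2 : ‖x - z‖ = ρ * (1 - 2 * e) := by
      rw [hρ, div_mul_cancel₀ _ hl.ne']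
    have h3 : ‖x‖ ≤ ‖x - z‖ + ‖z‖ := by
      have := norm_add_le (x - z) z
      rwa [sub_add_cancel] at this
    nlinarith

theorem Kr_nonneg (h : Ker τ η) {r : ℝ} (hr : 0 < r) (t : ℝ) : 0 ≤ Kr m η r t := by
  unfold Kr
  have := h.nonneg (t / r)
  positivity

theorem Kr_le (h : Ker τ η) {r : ℝ} (hr : 0 < r) (t : ℝ) : Kr m η r t ≤ (r ^ m)⁻¹ := by
  unfold Kr
  exact mul_le_of_le_one_right (by positivity) (h.le_one _)

theorem Kr_eq_zero (h : Ker τ η) {r t : ℝ} (hr : 0 < r) (ht : r ≤ t) : Kr m η r t = 0 := by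
  unfold Kr
  rw [h.zero _ ((one_le_div hr).2 ht), mul_zero]

theorem Kr_eq (h : Ker τ η) {r t : ℝ} (hr : 0 < r) (ht : t ≤ (1 - τ) * r) :
    Kr m η r t = (r ^ m)⁻¹ := by
  unfold Kr
  rw [h.one _ ((div_le_iff₀ hr).2 ht), mul_one]

theorem continuous_Kr (h : Ker τ η) (r : ℝ) : Continuous (Kr m η r) := by
  unfold Kr
  exact continuous_const.mul (h.cont.comp (continuous_id.div_const r))

theorem om_pos : 0 < om m := by
  unfold om
  rw [Measure.real]
  exact ENNReal.toReal_pos (Metric.measure_ball_pos volume 0 one_pos).ne' measure_ball_lt_top.ne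

/-- Second order Taylor estimate for the kernel `x ↦ η ‖x‖`, uniformly. `D x` is its derivative. -/
theorem Ker.taylor (h : Ker τ η) : ∃ c : ℝ, 0 < c ∧ ∃ D : E n → (E n →L[ℝ] ℝ),
    Continuous D ∧ (∀ x, ‖D x‖ ≤ c) ∧ (∀ x, 1 ≤ ‖x‖ → D x = 0) ∧
    ∀ x p, |η ‖x - p‖ - η ‖x‖ + D x p| ≤ c * ‖p‖ ^ 2 := by
  set φ : E n → ℝ := fun x => η ‖x‖ with hφdef
  have hφ : ContDiff ℝ 2 φ := by
    rw [contDiff_iff_contDiffAt]
    intro x
    by_cases hx : ‖x‖ < 1 / 2
    · have h1 : φ =ᶠ[𝓝 x] fun _ => (1 : ℝ) := by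
        have h2 : {y : E n | ‖y‖ < 1 / 2} ∈ 𝓝 x :=
          (isOpen_lt continuous_norm continuous_const).mem_nhds hx
        filter_upwards [h2] with y hy
        exact h.one_half (le_of_lt hy)
      exact contDiffAt_const.congr_of_eventuallyEq h1
    · have hx0 : x ≠ 0 := by
        rintro rfl
        apply hx
        rw [norm_zero]
        norm_num
      exact h.smooth.contDiffAt.comp x (contDiffAt_norm ℝ hx0)
  have hcs : HasCompactSupport φ := by
    refine HasCompactSupport.intro (K := closedBall 0 1) (isCompact_closedBall 0 1) fun x hx => ?_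
    rw [mem_closedBall, dist_zero_right, not_le] at hx
    exact h.zero _ hx.le
  have hD : ContDiff ℝ 1 (fderiv ℝ φ) := hφ.fderiv_right (by norm_num)
  have hDs : HasCompactSupport (fderiv ℝ φ) := hcs.fderiv ℝ
  obtain ⟨K, hK⟩ := hD.continuous.bounded_above_of_compact_support hDs
  obtain ⟨C, hC⟩ := hD.lipschitzWith_of_hasCompactSupport hDs (by norm_num)
  refine ⟨|K| + C + 1, by positivity, fderiv ℝ φ, hD.continuous, fun x => ?_, fun x hx => ?_,
    fun x p => ?_⟩
  · have h1 := hK x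
    have h2 := le_abs_self K
    have h3 : (0 : ℝ) ≤ C := C.2
    linarith
  · have h1 : IsLocalMin φ x := by
      refine Filter.Eventually.of_forall fun y => ?_
      rw [hφdef]
      simp only
      rw [h.zero _ hx]
      exact h.nonneg _
    exact h1.fderiv_eq_zero
  · have h1 : ‖φ (x - p) - φ x - (fderiv ℝ φ x) ((x - p) - x)‖ ≤ (C * ‖p‖) * ‖(x - p) - x‖ := by
      refine Convex.norm_image_sub_le_of_norm_fderiv_le' (𝕜 := ℝ) (s := closedBall x ‖p‖)
        (fun y _ => (hφ.differentiable (by norm_num)) y) (fun y hy => ?_)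
        (convex_closedBall x ‖p‖) (mem_closedBall_self (norm_nonneg _)) ?_
      · have h2 := hC.dist_le_mul y x
        rw [dist_eq_norm] at h2
        refine h2.trans (mul_le_mul_of_nonneg_left (mem_closedBall.1 hy) C.2)
      · rw [mem_closedBall, dist_eq_norm, sub_sub_cancel_left, norm_neg]
    have h2 : (x - p) - x = -p := by abel
    rw [h2, map_neg, sub_neg_eq_add, norm_neg, Real.norm_eq_abs] at h1
    have h3 : 0 ≤ |K| + 1 := by positivity
    have h4 : 0 ≤ ‖p‖ ^ 2 := by positivity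
    calc |η ‖x - p‖ - η ‖x‖ + (fderiv ℝ φ x) p| ≤ (C * ‖p‖) * ‖p‖ := h1
      _ = C * ‖p‖ ^ 2 := by ring
      _ ≤ (|K| + C + 1) * ‖p‖ ^ 2 := by nlinarith

end Allard
end
end

section

/-!
# B1: the kernel

Smoothstep `s(x) = x³ (10 - 15 x + 6 x²)` for `0 ≤ x ≤ 1`, `0` for `x ≤ 0`, `1` for `x ≥ 1`:
`s' = 30 x² (1-x)² ≥ 0`, `s'' = 60 x (1-x)(1-2x)`, so `s` is `C²` and monotone.  `η t = s((1-t)/τ)`.
For `0 ≤ l ≤ 1`, `x ≥ 0`: `s(l x) ≥ l³ s(x)` (`10 - 15 y + 6 y²` is decreasing on `[0,1]`;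
for `x ≥ 1 ≥ l x`, `s (l x) ≥ s l ≥ l³ s 1`), which is `cmp` with `x = (1-t)/τ`:
`(1 - (1 - l (1-t)))/τ = l x`.

(Suggestion for `C²`: `s(x) = ∫_0^x 30 c(u)² (1 - c(u))² du` with `c(u) = max 0 (min u 1)`?  or glue
with `ContDiff` of piecewise functions: the second derivative `60 x₊...` is continuous.  Another
convenient form: with `p(x) = max x 0 ^ 3` (which is `C²`) write `s` as a combination
`10 p₃(x) - ...`; any `C²` function with the listed properties is fine.)

Alternative kernel allowed: any `η` with `Ker τ η`.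
-/

noncomputable section

open MeasureTheory Metric Set Filter Topology

namespace Allard

/-- truncated powers -/
private theorem b1_deriv (k : ℕ) (x : ℝ) :
    HasDerivAt (fun x : ℝ => max x 0 ^ (k + 2)) ((k + 2 : ℝ) * max x 0 ^ (k + 1)) x := by
  rcases lt_trichotomy x 0 with hx | hx | hx
  · have h1 : (fun x : ℝ => max x 0 ^ (k + 2)) =ᶠ[𝓝 x] fun _ => 0 := by
      filter_upwards [gt_mem_nhds hx] with y hy
      rw [max_eq_right hy.le, zero_pow (by omega)]
    rw [max_eq_right hx.le, zero_pow (by omega), mul_zero]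
    exact (hasDerivAt_const x (0 : ℝ)).congr_of_eventuallyEq h1
  · subst hx
    rw [max_self, zero_pow (by omega), mul_zero, hasDerivAt_iff_tendsto_slope_zero]
    have hc : Continuous fun t : ℝ => max t 0 ^ (k + 1) := by fun_prop
    have h1 : Tendsto (fun t : ℝ => max t 0 ^ (k + 1)) (𝓝[≠] 0) (𝓝 0) := by
      have h2 := hc.tendsto 0
      rw [max_self, zero_pow (by omega)] at h2
      exact h2.mono_left nhdsWithin_le_nhds
    refine h1.congr' ?_
    filter_upwards [self_mem_nhdsWithin] with t ht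
    have ht' : t ≠ 0 := ht
    rw [zero_add, max_self, zero_pow (by omega), sub_zero, smul_eq_mul]
    rcases le_total t 0 with h3 | h3
    · rw [max_eq_right h3, zero_pow (by omega), zero_pow (by omega), mul_zero]
    · rw [max_eq_left h3, pow_succ' t (k + 1), inv_mul_cancel_left₀ ht']
  · have h1 : (fun x : ℝ => max x 0 ^ (k + 2)) =ᶠ[𝓝 x] fun x => x ^ (k + 2) := by
      filter_upwards [lt_mem_nhds hx] with y hy
      rw [max_eq_left hy.le]
    rw [max_eq_left hx.le]
    have h2 := hasDerivAt_pow (k + 2) x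
    have h3 : k + 2 - 1 = k + 1 := by omega
    rw [h3] at h2
    push_cast at h2
    exact h2.congr_of_eventuallyEq h1

private theorem b1_cd1 (k : ℕ) : ContDiff ℝ 1 (fun x : ℝ => max x 0 ^ (k + 2)) := by
  rw [contDiff_one_iff_deriv]
  refine ⟨fun x => (b1_deriv k x).differentiableAt, ?_⟩
  have h1 : deriv (fun x : ℝ => max x 0 ^ (k + 2)) = fun x => (k + 2 : ℝ) * max x 0 ^ (k + 1) :=
    funext fun x => (b1_deriv k x).deriv
  rw [h1]
  fun_prop

private theorem b1_cd2 (k : ℕ) : ContDiff ℝ 2 (fun x : ℝ => max x 0 ^ (k + 3)) := by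
  have h0 : (2 : WithTop ℕ∞) = 1 + 1 := by norm_num
  rw [h0, contDiff_succ_iff_deriv]
  refine ⟨fun x => (b1_deriv (k + 1) x).differentiableAt, by simp, ?_⟩
  have h1 : deriv (fun x : ℝ => max x 0 ^ (k + 3)) =
      fun x => (((k + 1 : ℕ) : ℝ) + 2) * max x 0 ^ (k + 2) :=
    funext fun x => (b1_deriv (k + 1) x).deriv
  rw [h1]
  exact contDiff_const.mul (b1_cd1 k)

/-- the smoothstep function -/
private def b1_s (x : ℝ) : ℝ :=
  10 * max x 0 ^ 3 - 15 * max x 0 ^ 4 + 6 * max x 0 ^ 5 -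
    (10 * max (x - 1) 0 ^ 3 + 15 * max (x - 1) 0 ^ 4 + 6 * max (x - 1) 0 ^ 5)

private theorem b1_smooth : ContDiff ℝ 2 b1_s := by
  have h3 := b1_cd2 0
  have h4 := b1_cd2 1
  have h5 := b1_cd2 2
  have hs : ContDiff ℝ 2 fun x : ℝ => x - 1 := contDiff_id.sub contDiff_const
  have g3 := h3.comp hs
  have g4 := h4.comp hs
  have g5 := h5.comp hs
  exact (((contDiff_const.mul h3).sub (contDiff_const.mul h4)).add (contDiff_const.mul h5)).sub
    (((contDiff_const.mul g3).add (contDiff_const.mul g4)).add (contDiff_const.mul g5))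

private theorem b1_zero {x : ℝ} (hx : x ≤ 0) : b1_s x = 0 := by
  unfold b1_s
  rw [max_eq_right hx, max_eq_right (by linarith : x - 1 ≤ 0)]
  norm_num

private theorem b1_mid {x : ℝ} (h0 : 0 ≤ x) (h1 : x ≤ 1) :
    b1_s x = x ^ 3 * (10 - 15 * x + 6 * x ^ 2) := by
  unfold b1_s
  rw [max_eq_left h0, max_eq_right (by linarith : x - 1 ≤ 0)]
  ring

private theorem b1_one {x : ℝ} (hx : 1 ≤ x) : b1_s x = 1 := by
  unfold b1_s
  rw [max_eq_left (by linarith : (0 : ℝ) ≤ x), max_eq_left (by linarith : 0 ≤ x - 1)]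
  ring

private theorem b1_monoOn : MonotoneOn (fun x : ℝ => x ^ 3 * (10 - 15 * x + 6 * x ^ 2))
    (Icc 0 1) := by
  have hd : ∀ x : ℝ, HasDerivAt (fun x : ℝ => x ^ 3 * (10 - 15 * x + 6 * x ^ 2))
      (30 * x ^ 2 * (1 - x) ^ 2) x := by
    intro x
    have e1 : (fun x : ℝ => x ^ 3 * (10 - 15 * x + 6 * x ^ 2)) =
        fun x => 10 * x ^ 3 - 15 * x ^ 4 + 6 * x ^ 5 := by
      funext x
      ring
    rw [e1]
    have h1 := (((hasDerivAt_pow 3 x).const_mul 10).sub ((hasDerivAt_pow 4 x).const_mul 15)).add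
      ((hasDerivAt_pow 5 x).const_mul 6)
    refine h1.congr_deriv ?_
    push_cast
    ring
  refine monotoneOn_of_deriv_nonneg (convex_Icc 0 1)
    (fun x _ => (hd x).continuousAt.continuousWithinAt)
    (fun x _ => (hd x).differentiableAt.differentiableWithinAt) fun x _ => ?_
  rw [(hd x).deriv]
  positivity

private theorem b1_mono : Monotone b1_s := by
  intro x y hxy
  rcases le_total x 0 with h1 | h1
  · rw [b1_zero h1]
    rcases le_total y 0 with h2 | h2
    · rw [b1_zero h2]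
    · rcases le_total y 1 with h3 | h3
      · rw [b1_mid h2 h3]
        have h4 : 0 ≤ 10 - 15 * y + 6 * y ^ 2 := by nlinarith
        positivity
      · rw [b1_one h3]
        norm_num
  · rcases le_total y 1 with h2 | h2
    · rw [b1_mid h1 (hxy.trans h2), b1_mid (h1.trans hxy) h2]
      exact b1_monoOn ⟨h1, hxy.trans h2⟩ ⟨h1.trans hxy, h2⟩ hxy
    · rw [b1_one h2]
      rcases le_total x 1 with h3 | h3
      · rw [b1_mid h1 h3]
        have h4 := b1_monoOn ⟨h1, h3⟩ (right_mem_Icc.2 zero_le_one) h3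
        norm_num at h4
        exact h4
      · rw [b1_one h3]

private theorem b1_cmp {x l : ℝ} (hx : 0 ≤ x) (hl0 : 0 ≤ l) (hl1 : l ≤ 1) :
    l ^ 3 * b1_s x ≤ b1_s (l * x) := by
  have hlx : 0 ≤ l * x := mul_nonneg hl0 hx
  have hlxx : l * x ≤ x := mul_le_of_le_one_left hx hl1
  have hl3 : 0 ≤ l ^ 3 := pow_nonneg hl0 3
  rcases le_total x 1 with h1 | h1
  · rw [b1_mid hx h1, b1_mid hlx (hlxx.trans h1)]
    have h2 : 10 - 15 * x + 6 * x ^ 2 ≤ 10 - 15 * (l * x) + 6 * (l * x) ^ 2 := by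
      nlinarith [mul_nonneg (sub_nonneg.2 hlxx) (by linarith : 0 ≤ 15 - 6 * (x + l * x))]
    calc l ^ 3 * (x ^ 3 * (10 - 15 * x + 6 * x ^ 2)) =
        (l * x) ^ 3 * (10 - 15 * x + 6 * x ^ 2) := by ring
      _ ≤ _ := mul_le_mul_of_nonneg_left h2 (pow_nonneg hlx 3)
  · rw [b1_one h1, mul_one]
    rcases le_total (l * x) 1 with h2 | h2
    · rw [b1_mid hlx h2]
      have h3 : 1 ≤ 10 - 15 * (l * x) + 6 * (l * x) ^ 2 := by
        nlinarith [mul_nonneg (sub_nonneg.2 h2) (by linarith : 0 ≤ 3 - 2 * (l * x))]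
      have h4 : l ≤ l * x := le_mul_of_one_le_right hl0 h1
      calc l ^ 3 ≤ (l * x) ^ 3 := pow_le_pow_left₀ hl0 h4 3
        _ = (l * x) ^ 3 * 1 := (mul_one _).symm
        _ ≤ _ := mul_le_mul_of_nonneg_left h3 (pow_nonneg hlx 3)
    · rw [b1_one h2]
      exact pow_le_one₀ hl0 hl1

theorem exists_ker (τ : ℝ) (h0 : 0 < τ) (h1 : τ ≤ 1 / 2) : ∃ η : ℝ → ℝ, Ker τ η := by
  refine ⟨fun t => b1_s ((1 - t) / τ), h0, h1, ?_, ?_, ?_, ?_, ?_⟩
  · intro s t hst
    exact b1_mono (div_le_div_of_nonneg_right (by linarith) h0.le)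
  · exact b1_smooth.comp ((contDiff_const.sub contDiff_id).div_const τ)
  · intro t ht
    exact b1_one ((one_le_div h0).2 (by linarith))
  · intro t ht
    exact b1_zero (div_nonpos_of_nonpos_of_nonneg (by linarith) h0.le)
  · intro t l ht hl0 hl1
    have h2 := b1_cmp (x := (1 - t) / τ) (div_nonneg (by linarith) h0.le) hl0 hl1
    have h3 : (1 - (1 - l * (1 - t))) / τ = l * ((1 - t) / τ) := by ring
    show l ^ 3 * b1_s ((1 - t) / τ) ≤ b1_s ((1 - (1 - l * (1 - t))) / τ)
    rw [h3]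
    exact h2

end Allard
end
end
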