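import Pool.Agent.Lib.MP_5932b0_an.AR.B4
import Pool.Agent.Lib.MP_5932b0_an.AR.B1

section

section

/-!
# C2a: measurability, integrability

All functions are bounded and measurable on a finite measure space.  Measurability in the centre
`y` follows from joint measurability and `Measurable.lintegral_prod_right'` /
`StronglyMeasurable.integral_prod_right`.
-/

noncomputable section

open MeasureTheory Metric Set Filter Topology

namespace Allard

variable {n m : ℕ} {δ : ℝ} {S : Stress n m δ} {α Λ : ℝ} {U : Set (E n)} {τ : ℝ} {η : ℝ → ℝ}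

theorem Sys.integrable_bdd (V : Sys S α Λ U) {f : E n → ℝ} (hf : Measurable f) {c : ℝ}
    (hc : ∀ z, |f z| ≤ c) : Integrable f V.μ :=
  Integrable.of_bound hf.aestronglyMeasurable c (Eventually.of_forall fun z => hc z)

theorem Sys.measurable_ga (V : Sys S α Λ U) (y : E n) :
    Measurable (fun z => ga (V.P z) (z - y)) := by
  have h1 : Measurable fun z : E n => z - y := by fun_prop
  have h2 : Measurable fun z : E n => ((V.P z, z - y) : Op n × E n) := V.mP.prodMk h1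
  have h3 : Measurable fun x : Op n × E n => ga x.1 x.2 := Allard.measurable_ga
  have h4 := h3.comp h2
  simpa only [Function.comp_def] using h4

theorem Sys.measurable_ga₂ (V : Sys S α Λ U) :
    Measurable (fun x : E n × E n => ga (V.P x.2) (x.2 - x.1)) := by
  have h1 : Measurable fun x : E n × E n => x.2 - x.1 := by fun_prop
  have h0 : Measurable fun x : E n × E n => V.P x.2 := V.mP.comp measurable_snd
  have h2 : Measurable fun x : E n × E n => ((V.P x.2, x.2 - x.1) : Op n × E n) := h0.prodMk h1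
  have h3 : Measurable fun x : Op n × E n => ga x.1 x.2 := Allard.measurable_ga
  have h4 := h3.comp h2
  simpa only [Function.comp_def] using h4

theorem Sys.measurable_ψ (V : Sys S α Λ U) : Measurable (fun z => S.ψ (V.P z)) :=
  S.cψ.measurable.comp V.mP

private theorem C2a_gen (V : Sys S α Λ U) (A : Set (E n × E n)) (hA : MeasurableSet A)
    (F : E n × E n → ℝ) (hF : Measurable F) :
    Measurable fun y => ∫ z in Prod.mk y ⁻¹' A, F (y, z) ∂V.μ := by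
  have h1 : (fun y => ∫ z in Prod.mk y ⁻¹' A, F (y, z) ∂V.μ) =
      fun y => ∫ z, A.indicator F (y, z) ∂V.μ := by
    funext y
    rw [← integral_indicator (measurable_prodMk_left hA)]
    rfl
  rw [h1]
  exact (hF.indicator hA).stronglyMeasurable.integral_prod_right'.measurable

private theorem C2a_dist : Measurable fun p : E n × E n => ‖p.2 - p.1‖ := by fun_prop

private theorem C2a_ann (ρ : ℝ) :
    MeasurableSet {p : E n × E n | ρ / 2 ≤ ‖p.2 - p.1‖ ∧ ‖p.2 - p.1‖ < ρ} :=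
  (measurableSet_le measurable_const C2a_dist).inter (measurableSet_lt C2a_dist measurable_const)

private theorem C2a_bl (ρ : ℝ) : MeasurableSet {p : E n × E n | dist p.2 p.1 < ρ} :=
  measurableSet_lt (by fun_prop) measurable_const

theorem Sys.measurable_ball (V : Sys S α Λ U) (r : ℝ) :
    Measurable (fun y => V.μ.real (ball y r)) := by
  have h1 : Measurable fun y => V.μ (Prod.mk y ⁻¹' {p : E n × E n | dist p.2 p.1 < r}) :=
    measurable_measure_prodMk_left (C2a_bl r)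
  exact h1.ennreal_toReal

theorem Sys.measurable_I (V : Sys S α Λ U) (h : Ker τ η) (r : ℝ) :
    Measurable (fun y => V.I η (V.P y) y r) := by
  have h1 : Measurable fun p : E n × E n =>
      Kr m η r (gn (S.G (V.P p.1)) (p.2 - p.1)) * S.ψ (V.P p.2) :=
    ((continuous_Kr h r).measurable.comp (S.measurable_gn.comp
      ((V.mP.comp measurable_fst).prodMk (measurable_snd.sub measurable_fst)))).mul
      (V.measurable_ψ.comp measurable_snd)
  exact h1.stronglyMeasurable.integral_prod_right'.measurable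

theorem Sys.measurable_gg (V : Sys S α Λ U) (ρ : ℝ) : Measurable (fun y => V.gg ρ y) :=
  (C2a_gen V _ (C2a_ann ρ) _ V.measurable_ga₂).const_mul _

theorem Sys.measurable_ls (V : Sys S α Λ U) (ρ : ℝ) : Measurable (fun y => V.ls ρ y) := by
  have h1 : Measurable fun p : E n × E n => ‖V.P p.2 - V.P p.1‖ ^ 2 :=
    (((V.mP.comp measurable_snd).sub (V.mP.comp measurable_fst)).norm).pow_const 2
  exact (C2a_gen V _ (C2a_ann ρ) _ h1).const_mul _

theorem Sys.measurable_lq (V : Sys S α Λ U) (Q : Op n) (ρ : ℝ) :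
    Measurable (fun y => V.lq Q ρ y) := by
  have h1 : Measurable fun p : E n × E n => ‖V.P p.2 - Q‖ ^ 2 :=
    (((V.mP.comp measurable_snd).sub measurable_const).norm).pow_const 2
  exact (C2a_gen V _ (C2a_bl ρ) _ h1).const_mul _

theorem Sys.measurable_hh (V : Sys S α Λ U) (ρ : ℝ) : Measurable (fun y => V.hh ρ y) := by
  have h1 : Measurable fun p : E n × E n => ‖V.H p.2‖ := (V.mH.comp measurable_snd).norm
  exact (C2a_gen V _ (C2a_bl ρ) _ h1).const_mul _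

end Allard
end
end

section

/-!
# C2: trivial bounds

All functions are bounded and measurable on a finite measure space.  Measurability in the centre
`y` follows from joint measurability and `Measurable.lintegral_prod_right'` /
`StronglyMeasurable.integral_prod_right`.
-/

noncomputable section

open MeasureTheory Metric Set Filter Topology

namespace Allard

variable {n m : ℕ} {δ : ℝ} {S : Stress n m δ} {α Λ : ℝ} {U : Set (E n)} {τ : ℝ} {η : ℝ → ℝ}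

theorem Sys.gg_nonneg (V : Sys S α Λ U) {ρ : ℝ} (hρ : 0 < ρ) (y : E n) : 0 ≤ V.gg ρ y := by
  unfold Sys.gg
  exact mul_nonneg (by positivity) (integral_nonneg fun z => ga_nonneg _)

private theorem C2_ann (V : Sys S α Λ U) {ρ : ℝ} (y : E n) (f : E n → ℝ) (c : ℝ) (hc : 0 ≤ c)
    (hf : ∀ z, |f z| ≤ c) :
    ∫ z in {z | ρ / 2 ≤ ‖z - y‖ ∧ ‖z - y‖ < ρ}, f z ∂V.μ ≤ c * V.μ.real (ball y ρ) := by
  have h1 : ‖∫ z in {z | ρ / 2 ≤ ‖z - y‖ ∧ ‖z - y‖ < ρ}, f z ∂V.μ‖ ≤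
      c * V.μ.real {z | ρ / 2 ≤ ‖z - y‖ ∧ ‖z - y‖ < ρ} :=
    norm_setIntegral_le_of_norm_le_const (measure_lt_top _ _) fun z _ => hf z
  have h2 : V.μ.real {z | ρ / 2 ≤ ‖z - y‖ ∧ ‖z - y‖ < ρ} ≤ V.μ.real (ball y ρ) := by
    refine measureReal_mono ?_
    intro z hz
    rw [mem_ball, dist_eq_norm]
    exact hz.2
  exact (le_abs_self _).trans (h1.trans (mul_le_mul_of_nonneg_left h2 hc))

theorem Sys.gg_le (V : Sys S α Λ U) {ρ : ℝ} (hρ : 0 < ρ) (y : E n) :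
    V.gg ρ y ≤ (ρ ^ m)⁻¹ * V.μ.real (ball y ρ) := by
  unfold Sys.gg
  refine mul_le_mul_of_nonneg_left ?_ (by positivity)
  have h1 := C2_ann V (ρ := ρ) y (fun z => ga (V.P z) (z - y)) 1 zero_le_one (fun z => by
    rw [abs_of_nonneg (ga_nonneg _)]
    exact ga_le_one (V.hP z) _)
  rwa [one_mul] at h1

theorem Sys.ls_nonneg (V : Sys S α Λ U) {ρ : ℝ} (hρ : 0 < ρ) (y : E n) : 0 ≤ V.ls ρ y := by
  unfold Sys.ls
  exact mul_nonneg (by positivity) (integral_nonneg fun z => by positivity)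

theorem Sys.ls_le (V : Sys S α Λ U) {ρ : ℝ} (hρ : 0 < ρ) (y : E n) :
    V.ls ρ y ≤ 4 * ((ρ ^ m)⁻¹ * V.μ.real (ball y ρ)) := by
  unfold Sys.ls
  have h1 := C2_ann V (ρ := ρ) y (fun z => ‖V.P z - V.P y‖ ^ 2) 4 (by norm_num) (fun z => by
    rw [abs_of_nonneg (by positivity)]
    have h2 := (V.hP z).norm_sub_le (V.hP y)
    have h3 := norm_nonneg (V.P z - V.P y)
    nlinarith)
  have h2 : 0 ≤ (ρ ^ m)⁻¹ := by positivity
  have h3 := mul_le_mul_of_nonneg_left h1 h2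
  linarith

theorem Sys.lq_nonneg (V : Sys S α Λ U) (Q : Op n) {ρ : ℝ} (hρ : 0 < ρ) (y : E n) :
    0 ≤ V.lq Q ρ y := by
  unfold Sys.lq
  exact mul_nonneg (by positivity) (integral_nonneg fun z => by positivity)

theorem Sys.hh_nonneg (V : Sys S α Λ U) {ρ : ℝ} (hρ : 0 < ρ) (y : E n) : 0 ≤ V.hh ρ y := by
  unfold Sys.hh
  exact mul_nonneg (by positivity) (integral_nonneg fun z => norm_nonneg _)

theorem Sys.hh_le (V : Sys S α Λ U) {ρ : ℝ} (hρ : 0 < ρ) (y : E n) :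
    V.hh ρ y ≤ Λ * ρ ^ α * (1 + (ρ ^ m)⁻¹ * V.μ.real (ball y ρ)) := by
  unfold Sys.hh
  have hb := V.hb ((ball y ρ).indicator fun _ => 1) (measurable_const.indicator measurableSet_ball)
    (fun z => indicator_nonneg (fun _ _ => zero_le_one) z)
    (fun z => indicator_le_self' (fun _ _ => zero_le_one) z) ρ hρ
  have e1 : ∫ z, (ball y ρ).indicator (fun _ => (1 : ℝ)) z ∂V.μ = V.μ.real (ball y ρ) := by
    rw [integral_indicator measurableSet_ball]
    simp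
  have e2 : ∫ z, (ball y ρ).indicator (fun _ => (1 : ℝ)) z * ‖V.H z‖ ∂V.μ =
      ∫ z in ball y ρ, ‖V.H z‖ ∂V.μ := by
    rw [← integral_indicator measurableSet_ball]
    refine integral_congr_ae (Eventually.of_forall fun z => ?_)
    by_cases hz : z ∈ ball y ρ
    · simp only [indicator_of_mem hz, one_mul]
    · simp only [indicator_of_notMem hz, zero_mul]
  rw [e1, e2] at hb
  have hp : 0 < ρ ^ m := by positivity
  have h2 := mul_le_mul_of_nonneg_left hb (inv_nonneg.2 hp.le)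
  have e3 : (ρ ^ m)⁻¹ * (Λ * ρ ^ α * (ρ ^ m + V.μ.real (ball y ρ))) =
      Λ * ρ ^ α * (1 + (ρ ^ m)⁻¹ * V.μ.real (ball y ρ)) := by
    field_simp
  rw [e3] at h2
  refine le_trans (le_of_eq ?_) h2
  ring

private theorem C2_ψ (V : Sys S α Λ U) (z : E n) : 1 - δ ≤ S.ψ (V.P z) ∧ S.ψ (V.P z) ≤ 1 + δ := by
  have h1 := abs_le.1 (S.bψ _ (V.hP z))
  constructor <;> linarith [h1.1, h1.2]

private theorem C2_mK (S : Stress n m δ) (h : Ker τ η) (Q : Op n) (y : E n) (r : ℝ) :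
    Measurable fun z : E n => Kr m η r (gn (S.G Q) (z - y)) := by
  have h1 : Measurable fun z : E n => z - y := by fun_prop
  have h2 : Measurable fun z : E n => ((Q, z - y) : Op n × E n) := measurable_const.prodMk h1
  have h3 : Measurable fun x : Op n × E n => gn (S.G x.1) x.2 := S.measurable_gn
  have h4 := h3.comp h2
  simp only [Function.comp_def] at h4
  exact (continuous_Kr h r).measurable.comp h4

private theorem C2_iK (V : Sys S α Λ U) (h : Ker τ η) (Q : Op n) (y : E n) {r : ℝ} (hr : 0 < r) :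
    Integrable (fun z : E n => Kr m η r (gn (S.G Q) (z - y))) V.μ := by
  refine V.integrable_bdd (C2_mK S h Q y r) (c := (r ^ m)⁻¹) fun z => ?_
  rw [abs_of_nonneg (Kr_nonneg h hr _)]
  exact Kr_le h hr _

private theorem C2_iKψ (V : Sys S α Λ U) (h : Ker τ η) (hδ' : δ ≤ d0 n) (Q : Op n)
    (y : E n) {r : ℝ} (hr : 0 < r) :
    Integrable (fun z : E n => Kr m η r (gn (S.G Q) (z - y)) * S.ψ (V.P z)) V.μ := by
  refine V.integrable_bdd ((C2_mK S h Q y r).mul V.measurable_ψ) (c := (r ^ m)⁻¹ * (1 + δ))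
    fun z => ?_
  have h1 := C2_ψ V z
  have h2 : d0 n ≤ 1 / 100 := d0_le
  have h0 : 0 ≤ S.ψ (V.P z) := by linarith [h1.1]
  rw [abs_of_nonneg (mul_nonneg (Kr_nonneg h hr _) h0)]
  exact mul_le_mul (Kr_le h hr _) h1.2 h0 (by positivity)

theorem Sys.I_nonneg (V : Sys S α Λ U) (h : Ker τ η) (hδ : 0 ≤ δ) (hδ' : δ ≤ d0 n)
    (Q : Op n) (y : E n) {r : ℝ} (hr : 0 < r) : 0 ≤ V.I η Q y r := by
  unfold Sys.I
  refine integral_nonneg fun z => mul_nonneg (Kr_nonneg h hr _) ?_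
  have h1 := C2_ψ V z
  have h2 : d0 n ≤ 1 / 100 := d0_le
  linarith [h1.1]

/-- Upper bound of the kernel mass by the mass of a ball. -/
theorem Sys.I_le (V : Sys S α Λ U) (h : Ker τ η) (hδ : 0 ≤ δ) (hδ' : δ ≤ d0 n)
    {Q : Op n} (hQ : Pr n m Q) (y : E n) {r : ℝ} (hr : 0 < r) :
    V.I η Q y r ≤ (1 + δ) * ((r ^ m)⁻¹ * V.μ.real (ball y (r / (1 - 3 * δ)))) := by
  unfold Sys.I
  have h2 : d0 n ≤ 1 / 100 := d0_le
  have e1 : (1 + δ) * ((r ^ m)⁻¹ * V.μ.real (ball y (r / (1 - 3 * δ)))) =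
      ∫ z, (ball y (r / (1 - 3 * δ))).indicator (fun _ => (1 + δ) * (r ^ m)⁻¹) z ∂V.μ := by
    rw [integral_indicator measurableSet_ball, setIntegral_const, smul_eq_mul]
    ring
  rw [e1]
  refine integral_mono (C2_iKψ V h hδ' Q y hr)
    (V.integrable_bdd (measurable_const.indicator measurableSet_ball) (c := (1 + δ) * (r ^ m)⁻¹)
      fun z => ?_) fun z => ?_
  · rw [abs_of_nonneg (indicator_nonneg (fun _ _ => by positivity) z)]
    exact indicator_le_self' (fun _ _ => by positivity) z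
  · have h1 := C2_ψ V z
    have h0 : 0 ≤ S.ψ (V.P z) := by linarith [h1.1]
    by_cases hz : z ∈ ball y (r / (1 - 3 * δ))
    · simp only [indicator_of_mem hz]
      rw [mul_comm (1 + δ)]
      exact mul_le_mul (Kr_le h hr _) h1.2 h0 (by positivity)
    · simp only [indicator_of_notMem hz]
      rw [mem_ball, dist_eq_norm, not_lt, div_le_iff₀ (by linarith)] at hz
      have h3 := S.le_gn hδ hδ' hQ (z - y)
      rw [Kr_eq_zero h hr (by linarith), zero_mul]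

/-- Lower bound of the kernel mass by the mass of a ball. -/
theorem Sys.le_I (V : Sys S α Λ U) (h : Ker τ η) (hδ : 0 ≤ δ) (hδ' : δ ≤ d0 n)
    {Q : Op n} (hQ : Pr n m Q) (y : E n) {r : ℝ} (hr : 0 < r) :
    (1 - δ) * ((r ^ m)⁻¹ * V.μ.real (ball y ((1 - τ) * r / (1 + 3 * δ)))) ≤ V.I η Q y r := by
  unfold Sys.I
  have h2 : d0 n ≤ 1 / 100 := d0_le
  have e1 : (1 - δ) * ((r ^ m)⁻¹ * V.μ.real (ball y ((1 - τ) * r / (1 + 3 * δ)))) =
      ∫ z, (ball y ((1 - τ) * r / (1 + 3 * δ))).indicator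
        (fun _ => (1 - δ) * (r ^ m)⁻¹) z ∂V.μ := by
    rw [integral_indicator measurableSet_ball, setIntegral_const, smul_eq_mul]
    ring
  have hc : 0 ≤ (1 - δ) * (r ^ m)⁻¹ := mul_nonneg (by linarith) (by positivity)
  rw [e1]
  refine integral_mono
    (V.integrable_bdd (measurable_const.indicator measurableSet_ball) (c := (1 - δ) * (r ^ m)⁻¹)
      fun z => ?_) (C2_iKψ V h hδ' Q y hr) fun z => ?_
  · rw [abs_of_nonneg (indicator_nonneg (fun _ _ => hc) z)]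
    exact indicator_le_self' (fun _ _ => hc) z
  · have h1 := C2_ψ V z
    have h0 : 0 ≤ S.ψ (V.P z) := by linarith [h1.1]
    by_cases hz : z ∈ ball y ((1 - τ) * r / (1 + 3 * δ))
    · simp only [indicator_of_mem hz]
      rw [mem_ball, dist_eq_norm, lt_div_iff₀ (by linarith)] at hz
      have h3 := S.gn_le hδ hδ' hQ (z - y)
      rw [Kr_eq h hr (by linarith), mul_comm (1 - δ)]
      exact mul_le_mul_of_nonneg_left h1.1 (by positivity)
    · simp only [indicator_of_notMem hz]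
      exact mul_nonneg (Kr_nonneg h hr _) h0

/-- The kernel mass without the weight `ψ`. -/
theorem Sys.kr_le_I (V : Sys S α Λ U) (h : Ker τ η) (hδ : 0 ≤ δ) (hδ' : δ ≤ d0 n)
    {Q : Op n} (hQ : Pr n m Q) (y : E n) {r : ℝ} (hr : 0 < r) :
    ∫ z, Kr m η r (gn (S.G Q) (z - y)) ∂V.μ ≤ 2 * V.I η Q y r := by
  unfold Sys.I
  have h2 : d0 n ≤ 1 / 100 := d0_le
  rw [← integral_const_mul]
  refine integral_mono (C2_iK V h Q y hr) ((C2_iKψ V h hδ' Q y hr).const_mul 2) fun z => ?_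
  have h1 := C2_ψ V z
  have h3 : 0 ≤ Kr m η r (gn (S.G Q) (z - y)) := Kr_nonneg h hr _
  have h4 : 1 / 2 ≤ S.ψ (V.P z) := by linarith [h1.1]
  simp only
  nlinarith [mul_le_mul_of_nonneg_left h4 h3]

end Allard
end
end
end

section

/-!
# A4: algebra for the Caccioppoli inequality, strip form, expansions at `Q`

`M Q P = B P (1 + W)(1 - Q)`, `W = -(ψ Q)⁻¹ C Q`, `W = Q W (1-Q)`.

* `M Q Q = 0`: `B Q (1+W)(1-Q) = ψ Q Q W (1-Q) + C Q (1-Q) + C Q W (1 - Q) = - C Q + C Q + 0`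
  (`Q (1-Q) = 0`, `C Q W = C Q (1-Q) Q W = 0`).  So `‖M Q P‖ ≤ ‖B P - B Q‖ ‖1+W‖ ≤ 3 ‖P-Q‖`.
* `tr (M Q P) = ψ P tilt P Q + ψ P tr (P W (1-Q)) + tr (C P (1-Q)) + tr (C P W (1-Q))`.
  With `A := (1-Q) P`, `‖A‖ ≤ ‖P-Q‖`:
  `tr (P W (1-Q)) = tr ((1-Q) P W) = tr (A W) = -(ψ Q)⁻¹ tr (A C Q)`,
  `tr (C P (1-Q)) = tr ((1-Q) P C P (1-P)(1-Q)) = tr (A C P (1-P)) - tr (A C P (1-P) Q)`
  `= tr (A C P) - tr (A C P (1-P) Q)`, `‖(1-P) Q‖ ≤ ‖P-Q‖`,
  `tr (C P W (1-Q)) = tr ((1-Q) P C P (1-P) Q W)`, so it is `≤ n ‖P-Q‖² δ 2δ` in absolute value.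
  Sum: `|tr (M Q P) - ψ P tilt P Q| ≤ |1 - ψ P/ψ Q| |tr (A C Q)| + |tr (A (C P - C Q))| + ...`
  `≤ 5 n δ ‖P-Q‖² ≤ 10 n δ tilt P Q`, and `δ ≤ 1/(100(n+1))`.
* strip: `tr (P V) = tr P - tr (P (1-V)) ≥ m - tr (1-V) = m - (m-1)`;
  `tr (P (1-V)) ≤ tr (1-V)` since `tr (P (1-V)) = tr ((1-V) P (1-V))` has form `‖P (1-V) x‖² ≤`
  `‖(1-V) x‖²`.
* expansions: `Q P Q = Q - Q (1-P) Q`, `Q (1-P) Q = ((1-P) Q)ᵀ ((1-P) Q)`,
  `C P Q = C P (1-P) Q`, `(1-Q) C P Q = ((1-Q) P) C P ((1-P) Q)`.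
-/

noncomputable section

open MeasureTheory Metric Set Filter Topology

namespace Allard

variable {n m : ℕ} {δ : ℝ} (S : Stress n m δ) {P Q : Op n}

private theorem a4_sm (c : ℝ) (A B : Op n) : (c • A) * B = c • (A * B) :=
  ContinuousLinearMap.ext fun _ => rfl

private theorem a4_ms (c : ℝ) (A B : Op n) : A * (c • B) = c • (A * B) :=
  ContinuousLinearMap.ext fun x => A.map_smul c (B x)

private theorem a4_sz (c : ℝ) : c • (0 : Op n) = 0 :=
  ContinuousLinearMap.ext fun _ => smul_zero c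

private theorem a4_ss (a b : ℝ) (A : Op n) : (a - b) • A = a • A - b • A :=
  ContinuousLinearMap.ext fun x => sub_smul a b (A x)

private theorem a4_mulC (hQ : Pr n m Q) : Q * S.C Q = S.C Q := by
  have h := S.form Q hQ
  calc Q * S.C Q = Q * (Q * S.C Q * (1 - Q)) := by rw [← h]
    _ = (Q * Q) * S.C Q * (1 - Q) := by simp only [mul_assoc]
    _ = Q * S.C Q * (1 - Q) := by rw [hQ.idem]
    _ = S.C Q := h.symm

private theorem a4_Cmul (hQ : Pr n m Q) : S.C Q * (1 - Q) = S.C Q := by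
  have h := S.form Q hQ
  calc S.C Q * (1 - Q) = (Q * S.C Q * (1 - Q)) * (1 - Q) := by rw [← h]
    _ = Q * S.C Q * ((1 - Q) * (1 - Q)) := by simp only [mul_assoc]
    _ = Q * S.C Q * (1 - Q) := by rw [hQ.perp_idem]
    _ = S.C Q := h.symm

private theorem a4_Cmul0 (hQ : Pr n m Q) : S.C Q * S.C Q = 0 := by
  calc S.C Q * S.C Q = (S.C Q * (1 - Q)) * (Q * S.C Q) := by rw [a4_Cmul S hQ, a4_mulC S hQ]
    _ = S.C Q * ((1 - Q) * Q) * S.C Q := by simp only [mul_assoc]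
    _ = 0 := by rw [hQ.perp_mul, mul_zero, zero_mul]

private theorem a4_M (hQ : Pr n m Q) :
    S.M Q P = S.B P * ((1 - Q) - (S.ψ Q)⁻¹ • S.C Q) := by
  unfold Stress.M
  rw [mul_assoc, sub_mul, one_mul, a4_sm, a4_Cmul S hQ]

private theorem a4_nd : (n : ℝ) * d0 n ≤ 1 / 100 := by
  unfold d0
  have h : (0 : ℝ) ≤ n := Nat.cast_nonneg n
  rw [mul_one_div, div_le_div_iff₀ (by positivity) (by norm_num)]
  linarith

private theorem a4_psi (hδ' : δ ≤ d0 n) (hQ : Pr n m Q) :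
    99 / 100 ≤ S.ψ Q ∧ S.ψ Q ≤ 101 / 100 := by
  have h1 := S.bψ Q hQ
  have h2 : d0 n ≤ 1 / 100 := d0_le
  rw [abs_le] at h1
  constructor <;> linarith [h1.1, h1.2]

private theorem a4_inv (hδ' : δ ≤ d0 n) (hQ : Pr n m Q) :
    0 < (S.ψ Q)⁻¹ ∧ (S.ψ Q)⁻¹ ≤ 2 := by
  obtain ⟨h1, h2⟩ := a4_psi S hδ' hQ
  refine ⟨inv_pos.2 (by linarith), ?_⟩
  rw [inv_le_comm₀ (by linarith) (by norm_num)]
  linarith

theorem Stress.M_norm_le (hδ : 0 ≤ δ) (hδ' : δ ≤ d0 n) (hP : Pr n m P) (hQ : Pr n m Q) :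
    ‖S.M Q P‖ ≤ 3 * ‖P - Q‖ := by
  obtain ⟨hψ1, hψ2⟩ := a4_psi S hδ' hQ
  obtain ⟨hi0, hi2⟩ := a4_inv S hδ' hQ
  have hd : δ ≤ 1 / 100 := hδ'.trans d0_le
  have hz : S.B Q * ((1 - Q) - (S.ψ Q)⁻¹ • S.C Q) = 0 := by
    unfold Stress.B
    have hψ0 : S.ψ Q ≠ 0 := by linarith
    rw [add_mul, mul_sub (S.ψ Q • Q) (1 - Q), mul_sub (S.C Q) (1 - Q), a4_sm, a4_sm, a4_ms, a4_ms,
      hQ.mul_perp, a4_Cmul S hQ, a4_mulC S hQ, a4_Cmul0 S hQ, smul_smul, mul_inv_cancel₀ hψ0,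
      one_smul, a4_sz, a4_sz, sub_zero, zero_sub, neg_add_cancel]
  have he : S.M Q P = (S.B P - S.B Q) * ((1 - Q) - (S.ψ Q)⁻¹ • S.C Q) := by
    rw [sub_mul, hz, sub_zero, a4_M S hQ]
  have h1 : ‖(1 - Q) - (S.ψ Q)⁻¹ • S.C Q‖ ≤ 3 / 2 := by
    refine (norm_sub_le _ _).trans ?_
    rw [norm_smul, Real.norm_of_nonneg hi0.le]
    have h2 := hQ.perp_norm_le
    have h3 : (S.ψ Q)⁻¹ * ‖S.C Q‖ ≤ 2 * (1 / 100) :=
      mul_le_mul hi2 ((S.bC Q hQ).trans hd) (norm_nonneg _) (by norm_num)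
    linarith
  rw [he]
  calc ‖(S.B P - S.B Q) * ((1 - Q) - (S.ψ Q)⁻¹ • S.C Q)‖
      ≤ ‖S.B P - S.B Q‖ * ‖(1 - Q) - (S.ψ Q)⁻¹ • S.C Q‖ := norm_mul_le _ _
    _ ≤ (2 * ‖P - Q‖) * (3 / 2) := by
        refine mul_le_mul (S.B_sub_norm_le hδ hδ' hP hQ) h1 (norm_nonneg _) (by positivity)
    _ = 3 * ‖P - Q‖ := by ring

private theorem a4_perp' (hP : Pr n m P) (hQ : Pr n m Q) : ‖(1 - P) * Q‖ ≤ ‖P - Q‖ := by
  rw [norm_sub_rev]
  exact perp_mul_norm_le hQ hP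

private theorem a4_trle {A B : Op n} {a b : ℝ} (hA : ‖A‖ ≤ a) (hB : ‖B‖ ≤ b) :
    |tr (A * B)| ≤ n * (a * b) := by
  refine (abs_tr_le _).trans ?_
  refine mul_le_mul_of_nonneg_left ?_ (Nat.cast_nonneg n)
  exact (norm_mul_le _ _).trans (mul_le_mul hA hB (norm_nonneg _) ((norm_nonneg _).trans hA))

theorem Stress.M_tr (hδ : 0 ≤ δ) (hδ' : δ ≤ d0 n) (hP : Pr n m P) (hQ : Pr n m Q) :
    1 / 2 * tilt P Q ≤ tr (S.M Q P) := by
  obtain ⟨hψ1, hψ2⟩ := a4_psi S hδ' hP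
  obtain ⟨hψ1', hψ2'⟩ := a4_psi S hδ' hQ
  obtain ⟨hi0, hi2⟩ := a4_inv S hδ' hQ
  have hd : δ ≤ 1 / 100 := hδ'.trans d0_le
  have hn0 : (0 : ℝ) ≤ n := Nat.cast_nonneg n
  have hnd : n * δ ≤ 1 / 100 := (mul_le_mul_of_nonneg_left hδ' hn0).trans a4_nd
  set D : ℝ := ‖P - Q‖ with hD
  have hD0 : 0 ≤ D := norm_nonneg _
  set r : ℝ := (S.ψ Q)⁻¹ with hr
  -- the three traces
  have hA : ‖(1 - Q) * P‖ ≤ D := perp_mul_norm_le hP hQ
  have e1 : tr (P * S.C Q) = tr ((1 - Q) * P * S.C Q) := by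
    conv_lhs => rw [← a4_Cmul S hQ, ← mul_assoc, tr_mul_comm, ← mul_assoc]
  have e2 : tr (S.C P * (1 - Q)) = tr ((1 - Q) * P * S.C P) := by
    rw [tr_mul_comm, mul_assoc, a4_mulC S hP]
  have e3 : tr (S.C P * S.C Q) = tr ((1 - Q) * P * (S.C P * (((1 - P) * Q) * S.C Q))) := by
    have h1 : S.C P * S.C Q = (P * (S.C P * (((1 - P) * Q) * S.C Q))) * (1 - Q) := by
      calc S.C P * S.C Q = (P * (S.C P * (1 - P))) * (Q * (S.C Q * (1 - Q))) := by
            rw [a4_Cmul S hP, a4_mulC S hP, a4_Cmul S hQ, a4_mulC S hQ]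
        _ = _ := by simp only [mul_assoc]
    rw [h1, tr_mul_comm, ← mul_assoc]
  have hM : tr (S.M Q P) = S.ψ P * tilt P Q - S.ψ P * r * tr ((1 - Q) * P * S.C Q) +
      tr ((1 - Q) * P * S.C P) - r * tr (S.C P * S.C Q) := by
    rw [a4_M S hQ]
    unfold Stress.B tilt
    rw [add_mul, mul_sub (S.ψ P • P) (1 - Q), mul_sub (S.C P) (1 - Q), a4_sm, a4_sm, a4_ms, a4_ms,
      tr_add, tr_sub, tr_sub, tr_smul, tr_smul, tr_smul, tr_smul, e1, e2]
    ring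
  have h1 : |tr ((1 - Q) * P * S.C Q)| ≤ n * (D * δ) := a4_trle hA (S.bC Q hQ)
  have h2 : |tr ((1 - Q) * P * S.C P) - tr ((1 - Q) * P * S.C Q)| ≤ n * (D * (δ * D)) := by
    rw [← tr_sub, ← mul_sub]
    exact a4_trle hA (S.lC P Q hP hQ)
  have h3 : |tr (S.C P * S.C Q)| ≤ n * (D * (δ * (D * δ))) := by
    rw [e3]
    refine a4_trle hA ?_
    refine (norm_mul_le _ _).trans (mul_le_mul (S.bC P hP) ?_ (norm_nonneg _) hδ)
    exact (norm_mul_le _ _).trans (mul_le_mul (a4_perp' hP hQ) (S.bC Q hQ) (norm_nonneg _) hD0)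
  have h4 : |1 - S.ψ P * r| ≤ 2 * (δ * D) := by
    have h5 : 1 - S.ψ P * r = (S.ψ Q - S.ψ P) * r := by
      rw [sub_mul, hr, mul_inv_cancel₀ (by linarith)]
    rw [h5, abs_mul, abs_of_pos hi0, abs_sub_comm]
    calc |S.ψ P - S.ψ Q| * r ≤ (δ * D) * 2 :=
          mul_le_mul (S.lψ P Q hP hQ) hi2 hi0.le (by positivity)
      _ = _ := by ring
  have h5 : |(1 - S.ψ P * r) * tr ((1 - Q) * P * S.C Q)| ≤ 2 * (δ * D) * (n * (D * δ)) := by
    rw [abs_mul]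
    exact mul_le_mul h4 h1 (abs_nonneg _) (by positivity)
  have h6 : |r * tr (S.C P * S.C Q)| ≤ 2 * (n * (D * (δ * (D * δ)))) := by
    rw [abs_mul, abs_of_pos hi0]
    exact mul_le_mul hi2 h3 (abs_nonneg _) (by norm_num)
  have h7 : D ^ 2 ≤ 2 * tilt P Q := sq_norm_le_tilt hP hQ
  have h8 : 0 ≤ tilt P Q := tilt_nonneg hP hQ
  have hX : n * δ * D ^ 2 ≤ 1 / 100 * (2 * tilt P Q) :=
    mul_le_mul hnd h7 (by positivity) (by norm_num)
  have hX0 : 0 ≤ n * δ * D ^ 2 := by positivity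
  have h9 : n * δ * D ^ 2 * δ ≤ n * δ * D ^ 2 * (1 / 100) := mul_le_mul_of_nonneg_left hd hX0
  have h10 : 99 / 100 * tilt P Q ≤ S.ψ P * tilt P Q := mul_le_mul_of_nonneg_right hψ1 h8
  have h2' := neg_le_of_abs_le h2
  have h5' := neg_le_of_abs_le h5
  have h6' := le_of_abs_le h6
  have k2 : n * (D * (δ * D)) = n * δ * D ^ 2 := by ring
  have k5 : 2 * (δ * D) * (n * (D * δ)) = 2 * (n * δ * D ^ 2 * δ) := by ring
  have k6 : 2 * (n * (D * (δ * (D * δ)))) = 2 * (n * δ * D ^ 2 * δ) := by ring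
  rw [k2] at h2'
  rw [k5] at h5'
  rw [k6] at h6'
  rw [hM]
  nlinarith [h2', h5', h6', h9, h10, hX, h8]

theorem Stress.strip (hδ : 0 ≤ δ) (hδ' : δ ≤ d0 n) (hP : Pr n m P) (hm : 1 ≤ m)
    {V : Op n} (hV1 : V * V = V) (hV2 : tp V = V) (hV3 : tr V = n - m + 1) :
    9 / 10 ≤ tr (S.B P * V) := by
  obtain ⟨hψ1, hψ2⟩ := a4_psi S hδ' hP
  have hn0 : (0 : ℝ) ≤ n := Nat.cast_nonneg n
  have hnd : n * δ ≤ 1 / 100 := (mul_le_mul_of_nonneg_left hδ' hn0).trans a4_nd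
  -- `U = 1 - V`
  have hUU : (1 - V) * (1 - V) = 1 - V := by
    rw [mul_sub, mul_one, sub_mul, one_mul, hV1, sub_self, sub_zero]
  have hUt : tp (1 - V) = 1 - V := by rw [tp_sub, tp_one, hV2]
  have hsq : ∀ {W : Op n}, W * W = W → tp W = W → ∀ x, inner ℝ (W x) x = ‖W x‖ ^ 2 := by
    intro W hW1 hW2 x
    have h1 : inner ℝ (W x) x = inner ℝ (W (W x)) x := by
      have h0 : W (W x) = W x := by
        have : (W * W) x = W x := by rw [hW1]
        exact this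
      rw [h0]
    have h2 : inner ℝ (W (W x)) x = inner ℝ (W x) (W x) := by
      conv_lhs => rw [show W (W x) = (tp W) (W x) by rw [hW2]]
      exact inner_tp W (W x) x
    rw [h1, h2, real_inner_self_eq_norm_sq]
  have hVn : ‖V‖ ≤ 1 := by
    refine ContinuousLinearMap.opNorm_le_bound _ zero_le_one fun x => ?_
    rw [one_mul]
    have h1 := hsq hV1 hV2 x
    have h2 := real_inner_le_norm (V x) x
    rcases (norm_nonneg (V x)).eq_or_lt with h0 | h0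
    · rw [← h0]
      exact norm_nonneg x
    · rw [h1, sq] at h2
      exact le_of_mul_le_mul_left h2 h0
  have h1 : tr (P * (1 - V)) ≤ tr (1 - V) := by
    have h2 : tr (P * (1 - V)) = tr ((1 - V) * (P * (1 - V))) := by
      rw [tr_mul_comm (1 - V) (P * (1 - V)), mul_assoc, hUU]
    rw [h2]
    refine tr_le_of_form _ _ fun x => ?_
    have h3 : inner ℝ (((1 - V) * (P * (1 - V))) x) x = inner ℝ (P ((1 - V) x)) ((1 - V) x) := by
      have h4 : ((1 - V) * (P * (1 - V))) x = (tp (1 - V)) (P ((1 - V) x)) := by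
        rw [hUt]
        rfl
      rw [h4]
      exact inner_tp (1 - V) (P ((1 - V) x)) x
    rw [h3, ← hP.norm_sq, hsq hUU hUt]
    exact pow_le_pow_left₀ (norm_nonneg _) (hP.norm_apply_le _) 2
  have h2 : 1 ≤ tr (P * V) := by
    have h3 : tr (P * (1 - V)) = m - tr (P * V) := by
      rw [mul_sub, mul_one, tr_sub, hP.trp]
    have h4 : tr (1 - V) = n - (n - m + 1) := by rw [tr_sub, tr_one, hV3]
    rw [h3, h4] at h1
    linarith
  have h3 : |tr (S.C P * V)| ≤ n * (δ * 1) := a4_trle (S.bC P hP) hVn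
  have h4 : tr (S.B P * V) = S.ψ P * tr (P * V) + tr (S.C P * V) := by
    unfold Stress.B
    rw [add_mul, a4_sm, tr_add, tr_smul]
  have h5 := neg_le_of_abs_le h3
  have h6 : 99 / 100 * 1 ≤ S.ψ P * tr (P * V) := mul_le_mul hψ1 h2 zero_le_one (by linarith)
  rw [h4]
  linarith

private theorem a4_CPQ (hP : Pr n m P) : S.C P * Q = S.C P * ((1 - P) * Q) := by
  rw [← mul_assoc, a4_Cmul S hP]

private theorem a4_exp3 (hδ : 0 ≤ δ) (hP : Pr n m P) (hQ : Pr n m Q) :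
    ‖(1 - Q) * S.C P * Q‖ ≤ δ * ‖P - Q‖ ^ 2 := by
  have h1 : (1 - Q) * S.C P * Q = (1 - Q) * P * (S.C P * ((1 - P) * Q)) := by
    rw [mul_assoc, a4_CPQ S hP, mul_assoc (1 - Q) P, ← mul_assoc P (S.C P), a4_mulC S hP]
  rw [h1]
  calc ‖(1 - Q) * P * (S.C P * ((1 - P) * Q))‖
      ≤ ‖P - Q‖ * (δ * ‖P - Q‖) := by
        refine (norm_mul_le _ _).trans (mul_le_mul (perp_mul_norm_le hP hQ) ?_ (norm_nonneg _)
          (norm_nonneg _))
        exact (norm_mul_le _ _).trans (mul_le_mul (S.bC P hP) (a4_perp' hP hQ) (norm_nonneg _) hδ)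
    _ = _ := by ring

theorem Stress.exp1 (hδ : 0 ≤ δ) (hδ' : δ ≤ d0 n) (hP : Pr n m P) (hQ : Pr n m Q) :
    ‖Q * S.B P * Q - S.ψ Q • Q‖ ≤ 2 * (δ * ‖P - Q‖ + ‖P - Q‖ ^ 2) := by
  obtain ⟨hψ1, hψ2⟩ := a4_psi S hδ' hP
  set D : ℝ := ‖P - Q‖ with hD
  have hD0 : 0 ≤ D := norm_nonneg _
  have h1 : Q * S.B P * Q - S.ψ Q • Q = (S.ψ P - S.ψ Q) • Q - S.ψ P • (Q * ((1 - P) * Q)) +
      Q * (S.C P * ((1 - P) * Q)) := by
    have h2 : Q * ((1 - P) * Q) = Q - Q * (P * Q) := by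
      rw [sub_mul, one_mul, mul_sub, hQ.idem]
    rw [h2, ← a4_CPQ S hP]
    unfold Stress.B
    rw [mul_add, add_mul, a4_ms, a4_sm, smul_sub, a4_ss, mul_assoc, mul_assoc]
    abel
  have hq : ‖Q‖ ≤ 1 := hQ.norm_le
  have h3 : ‖(S.ψ P - S.ψ Q) • Q‖ ≤ δ * D := by
    rw [norm_smul, Real.norm_eq_abs]
    calc |S.ψ P - S.ψ Q| * ‖Q‖ ≤ (δ * D) * 1 :=
          mul_le_mul (S.lψ P Q hP hQ) hq (norm_nonneg _) (by positivity)
      _ = _ := mul_one _
  have h4 : ‖Q * ((1 - P) * Q)‖ ≤ D ^ 2 := by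
    have h5 : Q * ((1 - P) * Q) = tp ((1 - P) * Q) * ((1 - P) * Q) := by
      rw [tp_mul, hQ.symm, hP.perp_symm, mul_assoc, ← mul_assoc (1 - P) (1 - P), hP.perp_idem]
    rw [h5, sq]
    refine (norm_mul_le _ _).trans ?_
    rw [norm_tp]
    exact mul_le_mul (a4_perp' hP hQ) (a4_perp' hP hQ) (norm_nonneg _) hD0
  have h5 : ‖S.ψ P • (Q * ((1 - P) * Q))‖ ≤ 101 / 100 * D ^ 2 := by
    rw [norm_smul, Real.norm_of_nonneg (by linarith)]
    exact mul_le_mul hψ2 h4 (norm_nonneg _) (by norm_num)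
  have h6 : ‖Q * (S.C P * ((1 - P) * Q))‖ ≤ 1 * (δ * D) := by
    refine (norm_mul_le _ _).trans (mul_le_mul hq ?_ (norm_nonneg _) zero_le_one)
    exact (norm_mul_le _ _).trans (mul_le_mul (S.bC P hP) (a4_perp' hP hQ) (norm_nonneg _) hδ)
  rw [h1]
  refine (norm_add_le _ _).trans ?_
  have h7 := norm_sub_le ((S.ψ P - S.ψ Q) • Q) (S.ψ P • (Q * ((1 - P) * Q)))
  have h8 : 0 ≤ D ^ 2 := sq_nonneg D
  linarith

theorem Stress.exp2 (hδ : 0 ≤ δ) (hδ' : δ ≤ d0 n) (hP : Pr n m P) (hQ : Pr n m Q) :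
    ‖(1 - Q) * S.B P * Q‖ ≤ 2 * ‖P - Q‖ := by
  obtain ⟨hψ1, hψ2⟩ := a4_psi S hδ' hP
  have hd : δ ≤ 1 / 100 := hδ'.trans d0_le
  set D : ℝ := ‖P - Q‖ with hD
  have hD0 : 0 ≤ D := norm_nonneg _
  have hD2 : D ≤ 2 := hP.norm_sub_le hQ
  have h1 : (1 - Q) * S.B P * Q = S.ψ P • ((1 - Q) * P * Q) + (1 - Q) * S.C P * Q := by
    unfold Stress.B
    rw [mul_add, add_mul, a4_ms, a4_sm]
  have h2 : ‖(1 - Q) * P * Q‖ ≤ D * 1 :=
    (norm_mul_le _ _).trans (mul_le_mul (perp_mul_norm_le hP hQ) hQ.norm_le (norm_nonneg _) hD0)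
  have h3 : ‖S.ψ P • ((1 - Q) * P * Q)‖ ≤ 101 / 100 * (D * 1) := by
    rw [norm_smul, Real.norm_of_nonneg (by linarith)]
    exact mul_le_mul hψ2 h2 (norm_nonneg _) (by norm_num)
  have h4 := a4_exp3 S hδ hP hQ
  have h5 : δ * D ^ 2 ≤ 1 / 100 * (2 * D) := by
    refine mul_le_mul hd ?_ (sq_nonneg D) (by norm_num)
    rw [sq]
    exact mul_le_mul_of_nonneg_right hD2 hD0
  rw [h1]
  refine (norm_add_le _ _).trans ?_
  rw [← hD] at h4
  linarith

theorem Stress.exp3 (hδ : 0 ≤ δ) (hδ' : δ ≤ d0 n) (hP : Pr n m P) (hQ : Pr n m Q) :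
    ‖(1 - Q) * S.C P * Q‖ ≤ δ * ‖P - Q‖ ^ 2 := a4_exp3 S hδ hP hQ

end Allard
end
end
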