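import Pool.Agent.Lib.MP_5932b0_an.AR.W5a

/-!
# Measurability of the local averages
-/

noncomputable section

open MeasureTheory Metric Set Filter Topology

namespace Allard

variable {n m : ℕ} {δ : ℝ} {S : Stress n m δ} {α Λ : ℝ} {U : Set (E n)}

private theorem av_sm {F : Type*} [NormedAddCommGroup F] [NormedSpace ℝ F] {n : ℕ}
    (μ : Measure (E n)) [IsFiniteMeasure μ] (r : ℝ) (f : E n → F) (hf : StronglyMeasurable f) :
    StronglyMeasurable (fun y : E n => ∫ z in ball y r, f (z - y) ∂μ) := by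
  have h1 : ∀ y : E n, ∫ z in ball y r, f (z - y) ∂μ =
      ∫ z, (ball (0 : E n) r).indicator f (z - y) ∂μ := by
    intro y
    rw [← integral_indicator measurableSet_ball]
    congr 1
    funext z
    by_cases hz : z ∈ ball y r
    · have h2 : z - y ∈ ball (0 : E n) r := by
        rw [mem_ball_zero_iff]
        rwa [mem_ball_iff_norm] at hz
      rw [Set.indicator_of_mem hz, Set.indicator_of_mem h2]
    · have h2 : z - y ∉ ball (0 : E n) r := by
        rw [mem_ball_zero_iff]
        rwa [mem_ball_iff_norm] at hz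
      rw [Set.indicator_of_notMem hz, Set.indicator_of_notMem h2]
  simp_rw [h1]
  refine StronglyMeasurable.integral_prod_right (f := fun y z =>
    (ball (0 : E n) r).indicator f (z - y)) ?_
  exact (hf.indicator measurableSet_ball).comp_measurable (measurable_snd.sub measurable_fst)

theorem Sys.stronglyMeasurable_av (V : Sys S α Λ U) {τ : ℝ} {η : ℝ → ℝ} (h : Ker τ η)
    (Q : Op n) (r : ℝ) : StronglyMeasurable (fun y => V.av η Q y r) := by
  have hη : Continuous η := h.smooth.continuous
  have hk : Continuous (fun x : E n => Kr m η r ‖Q x‖) := by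
    unfold Kr
    exact continuous_const.mul (hη.comp ((Q.continuous.norm).div_const _))
  have h1 := av_sm V.μ (2 * r) (fun x => Kr m η r ‖Q x‖) hk.stronglyMeasurable
  have h2 := av_sm V.μ (2 * r) (fun x => Kr m η r ‖Q x‖ • (1 - Q) x)
      (hk.smul (1 - Q).continuous).stronglyMeasurable
  exact (h1.measurable.inv).stronglyMeasurable.smul h2

/-- Trivial bound of the local average. -/
theorem Sys.norm_av_le (V : Sys S α Λ U) {τ : ℝ} {η : ℝ → ℝ} (h : Ker τ η)
    {Q : Op n} (hQ : Pr n m Q) {r : ℝ} (hr : 0 < r) (y : E n) :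
    ‖V.av η Q y r‖ ≤ 2 * r := by
  have hη : Continuous η := h.smooth.continuous
  have hk : Continuous (fun z : E n => Kr m η r ‖Q (z - y)‖) := by
    unfold Kr
    exact continuous_const.mul (hη.comp (((Q.continuous.comp
      (continuous_id.sub continuous_const)).norm).div_const _))
  have hk0 : ∀ z : E n, 0 ≤ Kr m η r ‖Q (z - y)‖ := fun z => Kr_nonneg h hr _
  have hkb : ∀ z : E n, Kr m η r ‖Q (z - y)‖ ≤ (r ^ m)⁻¹ := fun z => Kr_le h hr _
  have hki : Integrable (fun z : E n => Kr m η r ‖Q (z - y)‖) V.μ := by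
    refine Integrable.of_bound hk.aestronglyMeasurable ((r ^ m)⁻¹) ?_
    exact Eventually.of_forall fun z => by
      rw [Real.norm_eq_abs, abs_of_nonneg (hk0 z)]; exact hkb z
  set M : ℝ := ∫ z in ball y (2 * r), Kr m η r ‖Q (z - y)‖ ∂V.μ with hM
  have hM0 : 0 ≤ M := integral_nonneg fun z => hk0 z
  have hb : ‖∫ z in ball y (2 * r), Kr m η r ‖Q (z - y)‖ • (1 - Q) (z - y) ∂V.μ‖ ≤
      M * (2 * r) := by
    rw [hM, ← integral_mul_const]
    refine norm_integral_le_of_norm_le (hki.integrableOn.mul_const _) ?_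
    refine (ae_restrict_iff' measurableSet_ball).2 (Eventually.of_forall fun z hz => ?_)
    rw [norm_smul, Real.norm_eq_abs, abs_of_nonneg (hk0 z)]
    refine mul_le_mul_of_nonneg_left ?_ (hk0 z)
    rw [mem_ball_iff_norm] at hz
    have h1 : ‖(1 - Q) (z - y)‖ ≤ ‖z - y‖ := hQ.perp_norm_apply_le _
    linarith
  unfold Sys.av
  rw [← hM, norm_smul, norm_inv, Real.norm_eq_abs, abs_of_nonneg hM0]
  rcases hM0.eq_or_lt with h0 | h0
  · rw [← h0, inv_zero, zero_mul]; positivity
  · rw [inv_mul_le_iff₀ h0]; exact hb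

theorem Sys.integrableOn_av (V : Sys S α Λ U) {τ : ℝ} {η : ℝ → ℝ} (h : Ker τ η)
    {Q : Op n} (hQ : Pr n m Q) {r : ℝ} (hr : 0 < r) (A : Set (E n)) :
    IntegrableOn (fun y => ‖V.av η Q y r‖ ^ 2) A V.μ := by
  refine Integrable.integrableOn ?_
  refine Integrable.of_bound
    ((V.stronglyMeasurable_av h Q r).norm.measurable.pow_const 2).aestronglyMeasurable
    ((2 * r) ^ 2) (Eventually.of_forall fun y => ?_)
  rw [Real.norm_eq_abs, abs_of_nonneg (by positivity)]
  exact pow_le_pow_left₀ (norm_nonneg _) (V.norm_av_le h hQ hr y) 2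

end Allard
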