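import Pool.Agent.Lib.MP_5932b0_an.ST.H1
import Pool.Agent.Lib.MP_5932b0_an.AR.B1

section

/-!
# A3: the adapted metric and the monotonicity form

Let `S` be a stress, `0 ≤ δ ≤ d0 n`, `Q` in `Pr n m`, `K := (ψ Q)⁻¹ (C Q + C Qᵀ)`, `G Q = 1 + K`,
`‖K‖ ≤ 2δ/(1-δ) ≤ 3δ`.

`F Q P z = ⟨G z, (ψ P - B P) z⟩ / gn(z)²`.  As `ψ P - B P = ψ P (1-P) - C P`, `C P = C P (1-P)`,
with `τ := (1-P) z`:
`⟨G z, (ψ P - B P) z⟩ = ⟨G z, ψ P τ - C P τ⟩ = ⟨(ψ P - C Pᵀ) G z, τ⟩ = ψ P ‖τ‖² + ⟨R z, τ⟩`,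
`R := ψ P K - C Pᵀ - C Pᵀ K` (operator, using `⟨z, τ⟩ = ‖τ‖²`).
Write `z = Q z + (1-Q) z`.  `‖R‖ ≤ 5δ`, `‖(1-Q) z‖ ≤ ‖τ‖ + ‖P-Q‖ ‖z‖`.
For `P = Q`, `R (Q z) = 0`: `C Q (Q z) = 0` so `ψ Q K (Q z) = C Qᵀ Q z`, and
`C Qᵀ K (Q z) = (ψ Q)⁻¹ C Qᵀ C Qᵀ Q z = 0` since `C Qᵀ = (1-Q) C Qᵀ Q`.
Hence `‖R (Q z)‖ ≤ 2δ ‖P-Q‖ ‖z‖`, `‖R z‖ ≤ 5δ ‖τ‖ + 7δ ‖P-Q‖ ‖z‖`, and
`|⟨R z, τ⟩| ≤ 5δ ‖τ‖² + ‖τ‖²/4 + 49 δ² ‖P-Q‖² ‖z‖²`.
-/

noncomputable section

open MeasureTheory Metric Set Filter Topology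

namespace Allard

variable {n m : ℕ} {δ : ℝ} (S : Stress n m δ) {P Q : Op n}

theorem d0_pos : 0 < d0 n := by
  unfold d0
  positivity

theorem d0_le : d0 n ≤ 1 / 100 := by
  unfold d0
  have h : (0 : ℝ) ≤ n := Nat.cast_nonneg n
  apply div_le_div_of_nonneg_left (by norm_num) (by norm_num)
  linarith

theorem smulMul (c : ℝ) (A B : Op n) : (c • A) * B = c • (A * B) := by
  ext x
  rfl

theorem mulSmul (c : ℝ) (A B : Op n) : A * (c • B) = c • (A * B) := by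
  refine ContinuousLinearMap.ext fun x => ?_
  exact map_smul A c (B x)

theorem tr_zero' : tr (0 : Op n) = 0 := by
  have := tr_sub (0 : Op n) 0
  simpa using this

theorem tp_zero' : tp (0 : Op n) = 0 := by
  have := tp_sub (0 : Op n) 0
  simpa using this

include S in
theorem Stress.psi_bd (hδ : 0 ≤ δ) (hδ' : δ ≤ d0 n) (hP : Pr n m P) :
    99 / 100 ≤ S.ψ P ∧ S.ψ P ≤ 101 / 100 ∧ |S.ψ P| ≤ 1 + δ ∧ δ ≤ 1 / 100 := by
  have h1 := S.bψ P hP
  have h2 : δ ≤ 1 / 100 := hδ'.trans d0_le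
  have h3 := abs_le.1 h1
  refine ⟨by linarith, by linarith, ?_, h2⟩
  rw [abs_le]
  constructor <;> linarith

theorem Stress.B_norm_le (hδ : 0 ≤ δ) (hδ' : δ ≤ d0 n) (hP : Pr n m P) :
    ‖S.B P‖ ≤ 1 + 2 * δ := by
  obtain ⟨h1, h2, h3, h4⟩ := S.psi_bd hδ hδ' hP
  unfold Stress.B
  calc ‖S.ψ P • P + S.C P‖ ≤ ‖S.ψ P • P‖ + ‖S.C P‖ := norm_add_le _ _
    _ ≤ |S.ψ P| * ‖P‖ + δ := by
        rw [norm_smul, Real.norm_eq_abs]
        exact add_le_add le_rfl (S.bC P hP)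
    _ ≤ (1 + δ) * 1 + δ := by
        have := mul_le_mul h3 hP.norm_le (norm_nonneg P) (by linarith)
        linarith
    _ = 1 + 2 * δ := by ring

theorem Stress.B_sub_norm_le (hδ : 0 ≤ δ) (hδ' : δ ≤ d0 n) (hP : Pr n m P) (hQ : Pr n m Q) :
    ‖S.B P - S.B Q‖ ≤ 2 * ‖P - Q‖ := by
  obtain ⟨h1, h2, h3, h4⟩ := S.psi_bd hδ hδ' hP
  have e : S.B P - S.B Q = S.ψ P • (P - Q) + (S.ψ P - S.ψ Q) • Q + (S.C P - S.C Q) := by
    unfold Stress.B
    module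
  have n0 : 0 ≤ ‖P - Q‖ := norm_nonneg _
  have a1 : ‖S.ψ P • (P - Q)‖ ≤ (1 + δ) * ‖P - Q‖ := by
    rw [norm_smul, Real.norm_eq_abs]
    exact mul_le_mul_of_nonneg_right h3 n0
  have a2 : ‖(S.ψ P - S.ψ Q) • Q‖ ≤ δ * ‖P - Q‖ := by
    rw [norm_smul, Real.norm_eq_abs]
    have := mul_le_mul (S.lψ P Q hP hQ) hQ.norm_le (norm_nonneg Q) (by positivity)
    linarith
  have a3 := S.lC P Q hP hQ
  have a4 : δ * ‖P - Q‖ ≤ 1 / 100 * ‖P - Q‖ := mul_le_mul_of_nonneg_right h4 n0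
  rw [e]
  calc _ ≤ ‖S.ψ P • (P - Q)‖ + ‖(S.ψ P - S.ψ Q) • Q‖ + ‖S.C P - S.C Q‖ := norm_add₃_le
    _ ≤ (1 + δ) * ‖P - Q‖ + δ * ‖P - Q‖ + δ * ‖P - Q‖ := by linarith
    _ ≤ 2 * ‖P - Q‖ := by nlinarith

include S in
theorem Stress.C_perp (hP : Pr n m P) : S.C P * (1 - P) = S.C P := by
  have h := S.form P hP
  calc S.C P * (1 - P) = P * S.C P * (1 - P) * (1 - P) := by rw [← h]
    _ = P * S.C P * ((1 - P) * (1 - P)) := by rw [mul_assoc (P * S.C P)]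
    _ = S.C P := by rw [hP.perp_idem, ← h]

include S in
theorem Stress.C_self (hP : Pr n m P) : S.C P * P = 0 := by
  calc S.C P * P = S.C P * (1 - P) * P := by rw [S.C_perp hP]
    _ = 0 := by rw [mul_assoc, hP.perp_mul, mul_zero]

include S in
theorem Stress.self_C (hP : Pr n m P) : P * S.C P = S.C P := by
  have h := S.form P hP
  calc P * S.C P = P * (P * S.C P * (1 - P)) := by rw [← h]
    _ = P * P * S.C P * (1 - P) := by simp only [mul_assoc]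
    _ = S.C P := by rw [hP.idem, ← h]

include S in
theorem Stress.C_mul_C (hP : Pr n m P) : S.C P * S.C P = 0 := by
  calc S.C P * S.C P = S.C P * (P * S.C P) := by rw [S.self_C hP]
    _ = 0 := by rw [← mul_assoc, S.C_self hP, zero_mul]

theorem Stress.tr_B (hP : Pr n m P) : tr (S.B P) = m * S.ψ P := by
  unfold Stress.B
  rw [tr_add, tr_smul, hP.trp]
  have h : tr (S.C P) = 0 := by
    rw [← S.self_C hP, tr_mul_comm, S.C_self hP]
    exact tr_zero'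
  rw [h]
  ring

/-- `G Q` is symmetric. -/
theorem Stress.G_symm : tp (S.G Q) = S.G Q := by
  unfold Stress.G
  rw [tp_add, tp_one, tp_smul, tp_add, tp_tp, add_comm (tp (S.C Q))]

theorem Stress.G_sub_one_le (hδ : 0 ≤ δ) (hδ' : δ ≤ d0 n) (hQ : Pr n m Q) :
    ‖S.G Q - 1‖ ≤ 3 * δ := by
  obtain ⟨h1, h2, h3, h4⟩ := S.psi_bd hδ hδ' hQ
  have e : S.G Q - 1 = (S.ψ Q)⁻¹ • (S.C Q + tp (S.C Q)) := by
    unfold Stress.G
    abel
  rw [e, norm_smul, Real.norm_eq_abs, abs_inv, abs_of_pos (by linarith : 0 < S.ψ Q)]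
  have a1 : ‖S.C Q + tp (S.C Q)‖ ≤ 2 * δ := by
    calc ‖S.C Q + tp (S.C Q)‖ ≤ ‖S.C Q‖ + ‖tp (S.C Q)‖ := norm_add_le _ _
      _ = ‖S.C Q‖ + ‖S.C Q‖ := by rw [norm_tp]
      _ ≤ 2 * δ := by linarith [S.bC Q hQ]
  have a2 : (S.ψ Q)⁻¹ ≤ 3 / 2 := by
    rw [inv_le_comm₀ (by linarith) (by norm_num)]
    linarith
  calc (S.ψ Q)⁻¹ * ‖S.C Q + tp (S.C Q)‖ ≤ 3 / 2 * (2 * δ) :=
        mul_le_mul a2 a1 (norm_nonneg _) (by norm_num)
    _ = 3 * δ := by ring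

include S in
theorem Stress.form_bd (hδ : 0 ≤ δ) (hδ' : δ ≤ d0 n) (hQ : Pr n m Q) (z : E n) :
    |inner ℝ (S.G Q z) z - ‖z‖ ^ 2| ≤ 3 * δ * ‖z‖ ^ 2 := by
  have e : inner ℝ (S.G Q z) z - ‖z‖ ^ 2 = inner ℝ ((S.G Q - 1) z) z := by
    rw [sub_apply, inner_sub_left, one_apply_eq_self,
      real_inner_self_eq_norm_sq]
  rw [e]
  calc |inner ℝ ((S.G Q - 1) z) z| ≤ ‖(S.G Q - 1) z‖ * ‖z‖ := abs_real_inner_le_norm _ _
    _ ≤ (‖S.G Q - 1‖ * ‖z‖) * ‖z‖ :=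
        mul_le_mul_of_nonneg_right (ContinuousLinearMap.le_opNorm _ _) (norm_nonneg _)
    _ ≤ (3 * δ * ‖z‖) * ‖z‖ := by
        apply mul_le_mul_of_nonneg_right _ (norm_nonneg _)
        exact mul_le_mul_of_nonneg_right (S.G_sub_one_le hδ hδ' hQ) (norm_nonneg _)
    _ = 3 * δ * ‖z‖ ^ 2 := by ring

theorem Stress.G_form_nonneg (hδ : 0 ≤ δ) (hδ' : δ ≤ d0 n) (hQ : Pr n m Q) (z : E n) :
    0 ≤ inner ℝ (S.G Q z) z := by
  have h := (abs_le.1 (S.form_bd hδ hδ' hQ z)).1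
  have h4 : δ ≤ 1 / 100 := hδ'.trans d0_le
  have h5 : 0 ≤ ‖z‖ ^ 2 := by positivity
  nlinarith

theorem Stress.gn_le (hδ : 0 ≤ δ) (hδ' : δ ≤ d0 n) (hQ : Pr n m Q) (z : E n) :
    gn (S.G Q) z ≤ (1 + 3 * δ) * ‖z‖ := by
  have h := (abs_le.1 (S.form_bd hδ hδ' hQ z)).2
  have h5 : 0 ≤ ‖z‖ ^ 2 := by positivity
  unfold gn
  apply Real.sqrt_le_iff.2
  refine ⟨by positivity, ?_⟩
  have e : ((1 + 3 * δ) * ‖z‖) ^ 2 = ‖z‖ ^ 2 + 6 * δ * ‖z‖ ^ 2 + 9 * δ ^ 2 * ‖z‖ ^ 2 := by ring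
  rw [e]
  have h6 : 0 ≤ δ * ‖z‖ ^ 2 := by positivity
  have h7 : 0 ≤ 9 * δ ^ 2 * ‖z‖ ^ 2 := by positivity
  nlinarith

theorem Stress.gn_sq (hδ : 0 ≤ δ) (hδ' : δ ≤ d0 n) (hQ : Pr n m Q) (z : E n) :
    gn (S.G Q) z ^ 2 = inner ℝ (S.G Q z) z := by
  unfold gn
  exact Real.sq_sqrt (S.G_form_nonneg hδ hδ' hQ z)

theorem gn_nonneg' (G : Op n) (z : E n) : 0 ≤ gn G z := Real.sqrt_nonneg _

theorem Stress.le_gn (hδ : 0 ≤ δ) (hδ' : δ ≤ d0 n) (hQ : Pr n m Q) (z : E n) :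
    (1 - 3 * δ) * ‖z‖ ≤ gn (S.G Q) z := by
  have h := (abs_le.1 (S.form_bd hδ hδ' hQ z)).1
  have h4 : δ ≤ 1 / 100 := hδ'.trans d0_le
  have h5 : 0 ≤ ‖z‖ ^ 2 := by positivity
  unfold gn
  apply Real.le_sqrt_of_sq_le
  have e : ((1 - 3 * δ) * ‖z‖) ^ 2 = ‖z‖ ^ 2 - 6 * δ * ‖z‖ ^ 2 + 9 * δ ^ 2 * ‖z‖ ^ 2 := by ring
  rw [e]
  have h6 : 0 ≤ δ * ‖z‖ ^ 2 := by positivity
  have h7 : δ * (δ * ‖z‖ ^ 2) ≤ 1 / 100 * (δ * ‖z‖ ^ 2) := mul_le_mul_of_nonneg_right h4 h6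
  nlinarith

include S in
theorem Stress.psi_inv_bd (hδ : 0 ≤ δ) (hδ' : δ ≤ d0 n) (hQ : Pr n m Q) :
    0 < (S.ψ Q)⁻¹ ∧ (S.ψ Q)⁻¹ ≤ 100 / 99 := by
  obtain ⟨h1, h2, h3, h4⟩ := S.psi_bd hδ hδ' hQ
  refine ⟨inv_pos.2 (by linarith), ?_⟩
  rw [inv_le_comm₀ (by linarith) (by norm_num)]
  linarith

include S in
theorem Stress.G_sub_le (hδ : 0 ≤ δ) (hδ' : δ ≤ d0 n) (hP : Pr n m P) (hQ : Pr n m Q) :
    ‖S.G P - S.G Q‖ ≤ 3 * δ * ‖P - Q‖ := by
  obtain ⟨p1, p2, p3, p4⟩ := S.psi_bd hδ hδ' hP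
  obtain ⟨q1, q2, q3, q4⟩ := S.psi_bd hδ hδ' hQ
  obtain ⟨i1, i2⟩ := S.psi_inv_bd hδ hδ' hP
  obtain ⟨j1, j2⟩ := S.psi_inv_bd hδ hδ' hQ
  have n0 : 0 ≤ ‖P - Q‖ := norm_nonneg _
  have e : S.G P - S.G Q = (S.ψ P)⁻¹ • ((S.C P - S.C Q) + tp (S.C P - S.C Q))
      + ((S.ψ P)⁻¹ - (S.ψ Q)⁻¹) • (S.C Q + tp (S.C Q)) := by
    unfold Stress.G
    rw [tp_sub]
    module
  have a1 : ‖(S.C P - S.C Q) + tp (S.C P - S.C Q)‖ ≤ 2 * (δ * ‖P - Q‖) := by
    calc _ ≤ ‖S.C P - S.C Q‖ + ‖tp (S.C P - S.C Q)‖ := norm_add_le _ _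
      _ = ‖S.C P - S.C Q‖ + ‖S.C P - S.C Q‖ := by rw [norm_tp]
      _ ≤ _ := by linarith [S.lC P Q hP hQ]
  have a2 : ‖S.C Q + tp (S.C Q)‖ ≤ 2 * δ := by
    calc ‖S.C Q + tp (S.C Q)‖ ≤ ‖S.C Q‖ + ‖tp (S.C Q)‖ := norm_add_le _ _
      _ = ‖S.C Q‖ + ‖S.C Q‖ := by rw [norm_tp]
      _ ≤ 2 * δ := by linarith [S.bC Q hQ]
  have a3 : |(S.ψ P)⁻¹ - (S.ψ Q)⁻¹| ≤ 100 / 99 * (100 / 99) * (δ * ‖P - Q‖) := by
    have e2 : (S.ψ P)⁻¹ - (S.ψ Q)⁻¹ = (S.ψ P)⁻¹ * (S.ψ Q)⁻¹ * (S.ψ Q - S.ψ P) := by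
      have : S.ψ P ≠ 0 := by linarith
      have : S.ψ Q ≠ 0 := by linarith
      field_simp
    rw [e2, abs_mul, abs_of_pos (mul_pos i1 j1), abs_sub_comm]
    apply mul_le_mul _ (S.lψ P Q hP hQ) (abs_nonneg _) (by norm_num)
    exact mul_le_mul i2 j2 j1.le (by norm_num)
  rw [e]
  calc _ ≤ ‖(S.ψ P)⁻¹ • ((S.C P - S.C Q) + tp (S.C P - S.C Q))‖
        + ‖((S.ψ P)⁻¹ - (S.ψ Q)⁻¹) • (S.C Q + tp (S.C Q))‖ := norm_add_le _ _
    _ = (S.ψ P)⁻¹ * ‖(S.C P - S.C Q) + tp (S.C P - S.C Q)‖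
        + |(S.ψ P)⁻¹ - (S.ψ Q)⁻¹| * ‖S.C Q + tp (S.C Q)‖ := by
        rw [norm_smul, norm_smul, Real.norm_eq_abs, Real.norm_eq_abs, abs_of_pos i1]
    _ ≤ 100 / 99 * (2 * (δ * ‖P - Q‖)) + 100 / 99 * (100 / 99) * (δ * ‖P - Q‖) * (2 * δ) := by
        apply add_le_add
        · exact mul_le_mul i2 a1 (norm_nonneg _) (by norm_num)
        · exact mul_le_mul a3 a2 (norm_nonneg _) (by positivity)
    _ ≤ 3 * δ * ‖P - Q‖ := by
        have h0 : 0 ≤ δ * ‖P - Q‖ := by positivity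
        have h1 : (δ * ‖P - Q‖) * δ ≤ (δ * ‖P - Q‖) * (1 / 100) :=
          mul_le_mul_of_nonneg_left p4 h0
        nlinarith

/-- Dependence of the adapted norm on the plane. -/
theorem Stress.gn_sub_le (hδ : 0 ≤ δ) (hδ' : δ ≤ d0 n) (hP : Pr n m P) (hQ : Pr n m Q)
    (z : E n) : |gn (S.G P) z - gn (S.G Q) z| ≤ 5 * δ * ‖P - Q‖ * ‖z‖ := by
  rcases eq_or_ne z 0 with rfl | hz
  · simp [gn]
  have z0 : 0 < ‖z‖ := norm_pos_iff.2 hz
  have h4 : δ ≤ 1 / 100 := hδ'.trans d0_le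
  have a1 := S.le_gn hδ hδ' hP z
  have a2 := S.le_gn hδ hδ' hQ z
  have b1 : 97 / 100 * ‖z‖ ≤ (1 - 3 * δ) * ‖z‖ :=
    mul_le_mul_of_nonneg_right (by linarith) z0.le
  have s0 : ‖z‖ ≤ gn (S.G P) z + gn (S.G Q) z := by nlinarith
  have e : (gn (S.G P) z - gn (S.G Q) z) * (gn (S.G P) z + gn (S.G Q) z)
      = inner ℝ ((S.G P - S.G Q) z) z := by
    rw [sub_apply, inner_sub_left, ← S.gn_sq hδ hδ' hP z,
      ← S.gn_sq hδ hδ' hQ z]
    ring
  have f : |inner ℝ ((S.G P - S.G Q) z) z| ≤ 3 * δ * ‖P - Q‖ * ‖z‖ * ‖z‖ := by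
    calc |inner ℝ ((S.G P - S.G Q) z) z| ≤ ‖(S.G P - S.G Q) z‖ * ‖z‖ :=
          abs_real_inner_le_norm _ _
      _ ≤ (‖S.G P - S.G Q‖ * ‖z‖) * ‖z‖ :=
          mul_le_mul_of_nonneg_right (ContinuousLinearMap.le_opNorm _ _) (norm_nonneg _)
      _ ≤ _ := by
          apply mul_le_mul_of_nonneg_right _ (norm_nonneg _)
          exact mul_le_mul_of_nonneg_right (S.G_sub_le hδ hδ' hP hQ) (norm_nonneg _)
  rw [← e, abs_mul, abs_of_pos (by linarith : 0 < gn (S.G P) z + gn (S.G Q) z)] at f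
  have g : |gn (S.G P) z - gn (S.G Q) z| * ‖z‖
      ≤ |gn (S.G P) z - gn (S.G Q) z| * (gn (S.G P) z + gn (S.G Q) z) :=
    mul_le_mul_of_nonneg_left s0 (abs_nonneg _)
  have g2 : |gn (S.G P) z - gn (S.G Q) z| * ‖z‖ ≤ 3 * δ * ‖P - Q‖ * ‖z‖ * ‖z‖ := g.trans f
  have g3 : |gn (S.G P) z - gn (S.G Q) z| ≤ 3 * δ * ‖P - Q‖ * ‖z‖ :=
    le_of_mul_le_mul_right g2 z0
  have g4 : 0 ≤ δ * ‖P - Q‖ * ‖z‖ := by positivity
  nlinarith

/-- The remainder operator. -/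
def Stress.Rm (S : Stress n m δ) (Q P : Op n) : Op n :=
  S.ψ P • (S.G Q - 1) - tp (S.C P) - tp (S.C P) * (S.G Q - 1)

include S in
theorem Stress.Rm_norm_le (hδ : 0 ≤ δ) (hδ' : δ ≤ d0 n) (hP : Pr n m P) (hQ : Pr n m Q) :
    ‖S.Rm Q P‖ ≤ 5 * δ := by
  obtain ⟨p1, p2, p3, p4⟩ := S.psi_bd hδ hδ' hP
  have k := S.G_sub_one_le hδ hδ' hQ
  have c : ‖tp (S.C P)‖ ≤ δ := by rw [norm_tp]; exact S.bC P hP
  unfold Stress.Rm
  calc _ ≤ ‖S.ψ P • (S.G Q - 1) - tp (S.C P)‖ + ‖tp (S.C P) * (S.G Q - 1)‖ := norm_sub_le _ _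
    _ ≤ ‖S.ψ P • (S.G Q - 1)‖ + ‖tp (S.C P)‖ + ‖tp (S.C P)‖ * ‖S.G Q - 1‖ := by
        apply add_le_add (norm_sub_le _ _) (norm_mul_le _ _)
    _ ≤ (101 / 100) * (3 * δ) + δ + (1 / 100) * (3 * δ) := by
        apply add_le_add (add_le_add _ c)
        · exact mul_le_mul (c.trans p4) k (norm_nonneg _) (by norm_num)
        · rw [norm_smul, Real.norm_eq_abs, abs_of_pos (by linarith : 0 < S.ψ P)]
          exact mul_le_mul p2 k (norm_nonneg _) (by norm_num)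
    _ ≤ 5 * δ := by linarith

include S in
theorem Stress.Rm_self (hδ : 0 ≤ δ) (hδ' : δ ≤ d0 n) (hQ : Pr n m Q) :
    S.Rm Q Q * Q = 0 := by
  obtain ⟨p1, p2, p3, p4⟩ := S.psi_bd hδ hδ' hQ
  have hne : S.ψ Q ≠ 0 := by linarith
  have e1 : S.C Q * Q = 0 := S.C_self hQ
  have e2 : (S.G Q - 1) * Q = (S.ψ Q)⁻¹ • (tp (S.C Q) * Q) := by
    have : S.G Q - 1 = (S.ψ Q)⁻¹ • (S.C Q + tp (S.C Q)) := by
      unfold Stress.G
      abel
    rw [this, smulMul, add_mul, e1, zero_add]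
  have e3 : tp (S.C Q) * tp (S.C Q) = 0 := by
    rw [← tp_mul, S.C_mul_C hQ]
    exact tp_zero'
  unfold Stress.Rm
  have e4 : S.ψ Q • ((S.ψ Q)⁻¹ • (tp (S.C Q) * Q)) = tp (S.C Q) * Q := by
    rw [smul_smul, mul_inv_cancel₀ hne]
    exact one_smul ℝ (tp (S.C Q) * Q)
  rw [sub_mul, sub_mul, smulMul, mul_assoc, e2, e4, sub_self, zero_sub, mulSmul, ← mul_assoc,
    e3, zero_mul]
  exact neg_eq_zero.2 (smul_zero (S.ψ Q)⁻¹)

include S in
theorem Stress.Rm_sub_le (hδ : 0 ≤ δ) (hδ' : δ ≤ d0 n) (hP : Pr n m P) (hQ : Pr n m Q) :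
    ‖S.Rm Q P - S.Rm Q Q‖ ≤ 2 * δ * ‖P - Q‖ := by
  obtain ⟨p1, p2, p3, p4⟩ := S.psi_bd hδ hδ' hP
  have k := S.G_sub_one_le hδ hδ' hQ
  have n0 : 0 ≤ ‖P - Q‖ := norm_nonneg _
  have c : ‖tp (S.C P - S.C Q)‖ ≤ δ * ‖P - Q‖ := by rw [norm_tp]; exact S.lC P Q hP hQ
  have e : S.Rm Q P - S.Rm Q Q = (S.ψ P - S.ψ Q) • (S.G Q - 1) - tp (S.C P - S.C Q)
      - tp (S.C P - S.C Q) * (S.G Q - 1) := by
    unfold Stress.Rm
    rw [tp_sub, sub_mul]
    module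
  rw [e]
  calc _ ≤ ‖(S.ψ P - S.ψ Q) • (S.G Q - 1) - tp (S.C P - S.C Q)‖
          + ‖tp (S.C P - S.C Q) * (S.G Q - 1)‖ := norm_sub_le _ _
    _ ≤ ‖(S.ψ P - S.ψ Q) • (S.G Q - 1)‖ + ‖tp (S.C P - S.C Q)‖
          + ‖tp (S.C P - S.C Q)‖ * ‖S.G Q - 1‖ := by
        apply add_le_add (norm_sub_le _ _) (norm_mul_le _ _)
    _ ≤ (δ * ‖P - Q‖) * (3 * δ) + δ * ‖P - Q‖ + (δ * ‖P - Q‖) * (3 * δ) := by
        apply add_le_add (add_le_add _ c)
        · exact mul_le_mul c k (norm_nonneg _) (by positivity)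
        · rw [norm_smul, Real.norm_eq_abs]
          exact mul_le_mul (S.lψ P Q hP hQ) k (norm_nonneg _) (by positivity)
    _ ≤ 2 * δ * ‖P - Q‖ := by
        have h0 : 0 ≤ δ * ‖P - Q‖ := by positivity
        have h1 : (δ * ‖P - Q‖) * δ ≤ (δ * ‖P - Q‖) * (1 / 100) :=
          mul_le_mul_of_nonneg_left p4 h0
        nlinarith

include S in
theorem Stress.Rm_apply_le (hδ : 0 ≤ δ) (hδ' : δ ≤ d0 n) (hP : Pr n m P) (hQ : Pr n m Q)
    (z : E n) : ‖S.Rm Q P z‖ ≤ 5 * δ * ‖(1 - P) z‖ + 7 * δ * ‖P - Q‖ * ‖z‖ := by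
  have e : S.Rm Q P z = S.Rm Q P (Q z) + S.Rm Q P ((1 - Q) z) := by
    rw [← map_add]
    congr 1
    rw [sub_apply, one_apply_eq_self]
    abel
  have e1 : S.Rm Q Q (Q z) = 0 := by
    have := congrArg (fun A : Op n => A z) (S.Rm_self hδ hδ' hQ)
    simpa using this
  have a1 : ‖S.Rm Q P (Q z)‖ ≤ 2 * δ * ‖P - Q‖ * ‖z‖ := by
    have : S.Rm Q P (Q z) = (S.Rm Q P - S.Rm Q Q) (Q z) := by
      rw [sub_apply, e1, sub_zero]
    rw [this]
    calc _ ≤ ‖S.Rm Q P - S.Rm Q Q‖ * ‖Q z‖ := ContinuousLinearMap.le_opNorm _ _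
      _ ≤ _ := mul_le_mul (S.Rm_sub_le hδ hδ' hP hQ) (hQ.norm_apply_le z) (norm_nonneg _)
          (by positivity)
  have a2 : ‖(1 - Q) z‖ ≤ ‖(1 - P) z‖ + ‖P - Q‖ * ‖z‖ := by
    have : (1 - Q) z = (1 - P) z + (P - Q) z := by
      simp only [sub_apply, one_apply_eq_self]
      abel
    rw [this]
    exact (norm_add_le _ _).trans (add_le_add le_rfl (ContinuousLinearMap.le_opNorm _ _))
  have a3 : ‖S.Rm Q P ((1 - Q) z)‖ ≤ 5 * δ * (‖(1 - P) z‖ + ‖P - Q‖ * ‖z‖) := by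
    calc _ ≤ ‖S.Rm Q P‖ * ‖(1 - Q) z‖ := ContinuousLinearMap.le_opNorm _ _
      _ ≤ _ := mul_le_mul (S.Rm_norm_le hδ hδ' hP hQ) a2 (norm_nonneg _) (by positivity)
  rw [e]
  calc _ ≤ ‖S.Rm Q P (Q z)‖ + ‖S.Rm Q P ((1 - Q) z)‖ := norm_add_le _ _
    _ ≤ 2 * δ * ‖P - Q‖ * ‖z‖ + 5 * δ * (‖(1 - P) z‖ + ‖P - Q‖ * ‖z‖) := add_le_add a1 a3
    _ = _ := by ring

include S in
/-- The numerator of `F`. -/
theorem Stress.F_num (hP : Pr n m P) (z : E n) :
    inner ℝ (S.G Q z) ((S.ψ P • (1 : Op n) - S.B P) z)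
      = S.ψ P * ‖(1 - P) z‖ ^ 2 + inner ℝ (S.Rm Q P z) ((1 - P) z) := by
  have hC : S.C P z = S.C P ((1 - P) z) := by
    have := congrArg (fun A : Op n => A z) (S.C_perp hP)
    simpa using this.symm
  have e1 : (S.ψ P • (1 : Op n) - S.B P) z = S.ψ P • ((1 - P) z) - S.C P ((1 - P) z) := by
    rw [← hC]
    unfold Stress.B
    simp only [sub_apply, add_apply,
      smul_apply, one_apply_eq_self, smul_sub]
    abel
  have e2 : inner ℝ z ((1 - P) z) = ‖(1 - P) z‖ ^ 2 := by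
    have h := hP.pyth z
    have h2 := hP.norm_sq z
    have : inner ℝ z ((1 - P) z) = ‖z‖ ^ 2 - inner ℝ (P z) z := by
      rw [sub_apply, inner_sub_right, one_apply_eq_self,
        real_inner_self_eq_norm_sq, real_inner_comm]
    rw [this, ← h2]
    linarith
  have e3 : S.G Q z = z + (S.G Q - 1) z := by
    rw [sub_apply, one_apply_eq_self]
    abel
  have e4 : S.Rm Q P z = S.ψ P • ((S.G Q - 1) z) - tp (S.C P) z
      - tp (S.C P) ((S.G Q - 1) z) := by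
    unfold Stress.Rm
    rfl
  rw [e1, e3, e4]
  generalize (S.G Q - 1) z = w
  generalize hτ : (1 - P) z = τ at e2 ⊢
  simp only [inner_add_left, inner_sub_left, inner_sub_right, real_inner_smul_left,
    real_inner_smul_right, inner_tp]
  rw [e2]
  ring

include S in
theorem Stress.F_num_bd (hδ : 0 ≤ δ) (hδ' : δ ≤ d0 n) (hP : Pr n m P) (hQ : Pr n m Q)
    (z : E n) : |inner ℝ (S.Rm Q P z) ((1 - P) z)|
      ≤ 5 * δ * ‖(1 - P) z‖ ^ 2 + ‖(1 - P) z‖ ^ 2 / 4 + 49 * δ ^ 2 * ‖P - Q‖ ^ 2 * ‖z‖ ^ 2 := by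
  have h := S.Rm_apply_le hδ hδ' hP hQ z
  have t0 : 0 ≤ ‖(1 - P) z‖ := norm_nonneg _
  calc _ ≤ ‖S.Rm Q P z‖ * ‖(1 - P) z‖ := abs_real_inner_le_norm _ _
    _ ≤ (5 * δ * ‖(1 - P) z‖ + 7 * δ * ‖P - Q‖ * ‖z‖) * ‖(1 - P) z‖ :=
        mul_le_mul_of_nonneg_right h t0
    _ ≤ _ := by nlinarith [sq_nonneg (‖(1 - P) z‖ / 2 - 7 * δ * ‖P - Q‖ * ‖z‖)]

theorem F_alg {ψ t r g q δ d : ℝ} (hδ : 0 ≤ δ) (p1 : 99 / 100 ≤ ψ) (p2 : ψ ≤ 101 / 100)
    (p4 : δ ≤ 1 / 100) (q0 : 0 < q) (t0 : 0 ≤ t) (g0 : 97 / 100 * q ≤ g) (g1 : g ≤ 103 / 100 * q)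
    (b : |r| ≤ 5 * δ * t + t / 4 + 49 * δ ^ 2 * d ^ 2 * q) :
    1 / 3 * (t / q) - 60 * δ ^ 2 * d ^ 2 ≤ (ψ * t + r) / g ∧
    (ψ * t + r) / g ≤ 3 * (t / q) + 60 * δ ^ 2 * d ^ 2 := by
  have gp : 0 < g := by linarith [mul_pos (by norm_num : (0 : ℝ) < 97 / 100) q0]
  have b1 := abs_le.1 b
  have c0 : 0 ≤ δ ^ 2 * d ^ 2 := by positivity
  have u0 : 0 ≤ t / q := by positivity
  have u1 : t / q * q = t := by field_simp
  have v1 : t / q * g ≤ 103 / 100 * t := by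
    calc t / q * g ≤ t / q * (103 / 100 * q) := mul_le_mul_of_nonneg_left g1 u0
      _ = 103 / 100 * (t / q * q) := by ring
      _ = _ := by rw [u1]
  have v2 : 97 / 100 * t ≤ t / q * g := by
    calc 97 / 100 * t = t / q * (97 / 100 * q) := by
          rw [show t / q * (97 / 100 * q) = 97 / 100 * (t / q * q) by ring, u1]
      _ ≤ _ := mul_le_mul_of_nonneg_left g0 u0
  have w1 : δ ^ 2 * d ^ 2 * (97 / 100 * q) ≤ δ ^ 2 * d ^ 2 * g := mul_le_mul_of_nonneg_left g0 c0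
  have w0 : 0 ≤ δ ^ 2 * d ^ 2 * q := by positivity
  have s1 : δ * t ≤ 1 / 100 * t := mul_le_mul_of_nonneg_right p4 t0
  have s2 : 99 / 100 * t ≤ ψ * t := mul_le_mul_of_nonneg_right p1 t0
  have s3 : ψ * t ≤ 101 / 100 * t := mul_le_mul_of_nonneg_right p2 t0
  constructor
  · rw [le_div_iff₀ gp]
    have e : (1 / 3 * (t / q) - 60 * δ ^ 2 * d ^ 2) * g
        = 1 / 3 * (t / q * g) - 60 * (δ ^ 2 * d ^ 2 * g) := by ring
    rw [e]
    nlinarith [b1.1]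
  · rw [div_le_iff₀ gp]
    have e : (3 * (t / q) + 60 * δ ^ 2 * d ^ 2) * g
        = 3 * (t / q * g) + 60 * (δ ^ 2 * d ^ 2 * g) := by ring
    rw [e]
    nlinarith [b1.2]

include S in
theorem Stress.F_both (hδ : 0 ≤ δ) (hδ' : δ ≤ d0 n) (hP : Pr n m P) (hQ : Pr n m Q)
    (z : E n) (hz : z ≠ 0) : 1 / 3 * ga P z - 60 * δ ^ 2 * ‖P - Q‖ ^ 2 ≤ S.F Q P z ∧
      S.F Q P z ≤ 3 * ga P z + 60 * δ ^ 2 * ‖P - Q‖ ^ 2 := by
  have z0 : 0 < ‖z‖ := norm_pos_iff.2 hz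
  obtain ⟨p1, p2, p3, p4⟩ := S.psi_bd hδ hδ' hP
  have f := abs_le.1 (S.form_bd hδ hδ' hQ z)
  have b := S.F_num_bd hδ hδ' hP hQ z
  have q0 : 0 < ‖z‖ ^ 2 := by positivity
  have f3 : 3 * δ * ‖z‖ ^ 2 ≤ 3 / 100 * ‖z‖ ^ 2 :=
    mul_le_mul_of_nonneg_right (by linarith) q0.le
  unfold Stress.F ga
  rw [S.F_num hP z, S.gn_sq hδ hδ' hQ z]
  exact F_alg hδ p1 p2 p4 q0 (by positivity) (by linarith) (by linarith) b

theorem Stress.F_low (hδ : 0 ≤ δ) (hδ' : δ ≤ d0 n) (hP : Pr n m P) (hQ : Pr n m Q)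
    (z : E n) : 1 / 3 * ga P z - 60 * δ ^ 2 * ‖P - Q‖ ^ 2 ≤ S.F Q P z := by
  rcases eq_or_ne z 0 with rfl | hz
  · have h : 0 ≤ 60 * δ ^ 2 * ‖P - Q‖ ^ 2 := by positivity
    simp [Stress.F, ga]
    try linarith
  · exact (S.F_both hδ hδ' hP hQ z hz).1

theorem Stress.F_up (hδ : 0 ≤ δ) (hδ' : δ ≤ d0 n) (hP : Pr n m P) (hQ : Pr n m Q)
    (z : E n) : S.F Q P z ≤ 3 * ga P z + 60 * δ ^ 2 * ‖P - Q‖ ^ 2 := by
  rcases eq_or_ne z 0 with rfl | hz
  · have h : 0 ≤ 60 * δ ^ 2 * ‖P - Q‖ ^ 2 := by positivity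
    simp [Stress.F, ga]
    try linarith
  · exact (S.F_both hδ hδ' hP hQ z hz).2

/-- `(Q, z) ↦ gn (G Q) z` is measurable. -/
theorem Stress.measurable_gn : Measurable (fun x : Op n × E n => gn (S.G x.1) x.2) := by
  have e : (fun x : Op n × E n => gn (S.G x.1) x.2)
      = fun x : Op n × E n => Real.sqrt (‖x.2‖ ^ 2
        + (S.ψ x.1)⁻¹ * inner ℝ ((S.C x.1 + tp (S.C x.1)) x.2) x.2) := by
    funext x
    unfold gn Stress.G
    congr 1
    rw [add_apply, inner_add_left, one_apply_eq_self,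
      real_inner_self_eq_norm_sq, smul_apply, real_inner_smul_left]
  rw [e]
  have c1 : Continuous (fun x : Op n × E n => (‖x.2‖ ^ 2 : ℝ)) := by fun_prop
  have c2 : Continuous (fun x : Op n × E n => S.ψ x.1) := S.cψ.comp continuous_fst
  have c0 : Continuous (fun x : Op n × E n => S.C x.1) := S.cC.comp continuous_fst
  have c4 : Continuous (tp : Op n → Op n) := by
    unfold tp
    exact (ContinuousLinearMap.adjoint (𝕜 := ℝ) (E := E n) (F := E n)).continuous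
  have c3 : Continuous (fun x : Op n × E n =>
      (inner ℝ ((S.C x.1 + tp (S.C x.1)) x.2) x.2 : ℝ)) := by
    have : Continuous (fun x : Op n × E n => (S.C x.1 + tp (S.C x.1)) x.2) :=
      (c0.add (c4.comp c0)).clm_apply continuous_snd
    exact this.inner continuous_snd
  exact (c1.measurable.add (c2.measurable.inv.mul c3.measurable)).sqrt

end Allard
end
end

section

/-!
# A6: planes

`graph_plane`: `T := range (Q + L Q)` has dimension `m` (`Q + L Q` is injective on `range Q`,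
because `Q (Q x + L Q x) = Q x`).  Let `Q'` be the orthogonal projection on `T`
(`Submodule.starProjection`).  For `w = x + L x` (`x = Q x`), `(1-Q) w = L x` and
`‖L x‖ ≤ ‖L‖ ‖x‖ ≤ ‖L‖ ‖w‖`; so `‖(1-Q) Q'‖ ≤ ‖L‖`, and
`‖Q' - Q‖² ≤ 2 tilt Q' Q ≤ 2 m ‖(1-Q) Q'‖²`.

`exists_Pr`: there is a projection of rank `m` if `m ≤ n` (span of `m` basis vectors).

`V_of`: for `P` in `Pr n m`, `e` a unit vector of the range: `V = (1-P) + e ⊗ e`.
-/

noncomputable section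

open MeasureTheory Metric Set Filter Topology

namespace Allard

variable {n m : ℕ}

/-- The orthogonal projection on a subspace of dimension `m` is in `Pr n m`. -/
theorem Pr_starProjection (T : Submodule ℝ (E n)) (hT : Module.finrank ℝ T = m) :
    Pr n m T.starProjection := by
  refine ⟨?_, ?_, ?_⟩
  · exact T.isIdempotentElem_starProjection
  · exact isSelfAdjoint_starProjection T
  · have hproj : LinearMap.IsProj T (T.starProjection : E n →ₗ[ℝ] E n) :=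
      ⟨fun x => T.starProjection_apply_mem x, fun x hx =>
        Submodule.starProjection_eq_self_iff.mpr hx⟩
    rw [tr, hproj.trace, hT]

theorem exists_Pr (h : m ≤ n) : ∃ P : Op n, Pr n m P := by
  have h1 : m ≤ Module.finrank ℝ (E n) := by
    rw [finrank_euclideanSpace, Fintype.card_fin]
    exact h
  obtain ⟨s, hs, hli⟩ := exists_finset_linearIndependent_of_le_finrank h1
  refine ⟨(Submodule.span ℝ (s : Set (E n))).starProjection, Pr_starProjection _ ?_⟩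
  rw [finrank_span_finset_eq_card hli, hs]

private theorem a6_finrank {Q : Op n} (hQ : Pr n m Q) :
    Module.finrank ℝ (LinearMap.range (Q : E n →ₗ[ℝ] E n)) = m := by
  have hproj : LinearMap.IsProj (LinearMap.range (Q : E n →ₗ[ℝ] E n)) (Q : E n →ₗ[ℝ] E n) := by
    refine ⟨fun x => LinearMap.mem_range_self _ x, fun x hx => ?_⟩
    obtain ⟨y, rfl⟩ := hx
    exact hQ.apply_apply y
  have h1 := hproj.trace
  have h2 := hQ.trp
  rw [tr, h1] at h2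
  exact_mod_cast h2

theorem graph_plane {Q L : Op n} (hQ : Pr n m Q) (hL : L = (1 - Q) * L * Q) :
    ∃ Q' : Op n, Pr n m Q' ∧ ‖Q' - Q‖ ^ 2 ≤ 2 * m * ‖L‖ ^ 2 ∧
      (∀ x, Q' (Q x + L x) = Q x + L x) ∧
      ∀ w, ‖(1 - Q') w‖ ≤ ‖(1 - Q) w - L w‖ := by
  have hL1 : ∀ x, L (Q x) = L x := by
    intro x
    have h1 : L * Q = L := by
      nth_rewrite 1 [hL]
      rw [mul_assoc, hQ.idem]
      exact hL.symm
    exact congrArg (fun A : Op n => A x) h1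
  have hL2 : ∀ x, Q (L x) = 0 := by
    intro x
    have h1 : Q * L = 0 := by
      rw [hL, ← mul_assoc, ← mul_assoc, hQ.mul_perp, zero_mul, zero_mul]
    exact congrArg (fun A : Op n => A x) h1
  obtain ⟨T, hTdef⟩ : ∃ T : Submodule ℝ (E n),
      T = LinearMap.range ((Q + L : Op n) : E n →ₗ[ℝ] E n) := ⟨_, rfl⟩
  have hmem : ∀ x, Q x + L x ∈ T := fun x => by
    rw [hTdef]
    exact ⟨x, rfl⟩
  have hker : LinearMap.ker ((Q + L : Op n) : E n →ₗ[ℝ] E n) =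
      LinearMap.ker (Q : E n →ₗ[ℝ] E n) := by
    ext x
    simp only [LinearMap.mem_ker, ContinuousLinearMap.coe_coe]
    constructor
    · intro h1
      have h2 : Q ((Q + L) x) = 0 := by rw [h1, map_zero]
      rw [add_apply, map_add, hQ.apply_apply, hL2, add_zero] at h2
      exact h2
    · intro h1
      rw [add_apply, h1, ← hL1, h1, map_zero, add_zero]
  have hT : Module.finrank ℝ T = m := by
    have h1 := LinearMap.finrank_range_add_finrank_ker ((Q + L : Op n) : E n →ₗ[ℝ] E n)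
    have h2 := LinearMap.finrank_range_add_finrank_ker (Q : E n →ₗ[ℝ] E n)
    have h3 := a6_finrank hQ
    rw [hker, ← hTdef] at h1
    omega
  have hQ' : Pr n m T.starProjection := Pr_starProjection T hT
  have hfix : ∀ x, T.starProjection (Q x + L x) = Q x + L x := fun x =>
    Submodule.starProjection_eq_self_iff.mpr (hmem x)
  refine ⟨T.starProjection, hQ', ?_, hfix, ?_⟩
  · have h1 : ‖(1 - Q) * T.starProjection‖ ≤ ‖L‖ := by
      refine ContinuousLinearMap.opNorm_le_bound _ (norm_nonneg _) fun w => ?_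
      have h2 : T.starProjection w ∈ LinearMap.range ((Q + L : Op n) : E n →ₗ[ℝ] E n) := by
        rw [← hTdef]
        exact T.starProjection_apply_mem w
      obtain ⟨x, hx⟩ := h2
      have hx' : Q x + L x = T.starProjection w := hx
      have h3 : ((1 - Q) * T.starProjection) w = L (Q (T.starProjection w)) := by
        rw [mul_apply_eq_comp, ← hx', map_add, hQ.perp_apply', zero_add,
          sub_apply, one_apply_eq_self, hL2, sub_zero, map_add,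
          hL2, add_zero, hQ.apply_apply, hL1]
      rw [h3]
      refine (L.le_opNorm _).trans (mul_le_mul_of_nonneg_left ?_ (norm_nonneg _))
      exact (hQ.norm_apply_le _).trans (hQ'.norm_apply_le _)
    calc ‖T.starProjection - Q‖ ^ 2 ≤ 2 * tilt T.starProjection Q := sq_norm_le_tilt hQ' hQ
      _ ≤ 2 * (m * ‖(1 - Q) * T.starProjection‖ ^ 2) := by
          have := tilt_le hQ' hQ
          linarith
      _ ≤ 2 * (m * ‖L‖ ^ 2) := by gcongr
      _ = 2 * m * ‖L‖ ^ 2 := by ring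
  · intro w
    have h1 : (1 - T.starProjection) w = (1 - T.starProjection) (w - (Q w + L w)) := by
      rw [map_sub]
      have h2 : (1 - T.starProjection) (Q w + L w) = 0 := by
        rw [sub_apply, one_apply_eq_self, hfix, sub_self]
      rw [h2, sub_zero]
    have h3 : (1 - Q) w - L w = w - (Q w + L w) := by
      rw [sub_apply, one_apply_eq_self]
      abel
    rw [h1, h3]
    exact hQ'.perp_norm_apply_le _

private theorem a6_rk (u w x : E n) : rk u w x = (inner ℝ w x : ℝ) • u := rfl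

theorem V_of {P : Op n} (hP : Pr n m P) {e : E n} (he : P e = e) (he1 : ‖e‖ = 1) :
    let V : Op n := (1 - P) + rk e e
    V * V = V ∧ tp V = V ∧ tr V = n - m + 1 ∧
      ∀ x, ‖V x‖ ^ 2 = ‖(1 - P) x‖ ^ 2 + (inner ℝ e x) ^ 2 := by
  have hpe : (1 - P) e = 0 := by
    rw [sub_apply, one_apply_eq_self, he, sub_self]
  have hsymm : ∀ x y : E n, (inner ℝ ((1 - P) x) y : ℝ) = inner ℝ x ((1 - P) y) := by
    intro x y
    have h1 := inner_tp (1 - P) x y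
    rwa [hP.perp_symm] at h1
  have horth : ∀ x : E n, (inner ℝ e ((1 - P) x) : ℝ) = 0 := by
    intro x
    rw [← hsymm, hpe, inner_zero_left]
  have hee : (inner ℝ e e : ℝ) = 1 := by
    rw [real_inner_self_eq_norm_sq, he1, one_pow]
  intro V
  have hV : ∀ x, V x = (1 - P) x + (inner ℝ e x : ℝ) • e := fun x => rfl
  refine ⟨?_, ?_, ?_, ?_⟩
  · ext1 x
    rw [mul_apply_eq_comp, hV (V x), hV x, map_add, map_smul, hpe, smul_zero, add_zero,
      inner_add_right, horth, zero_add, inner_smul_right, hee, mul_one]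
    congr 1
    have h1 := congrArg (fun A : Op n => A x) hP.perp_idem
    exact h1
  · ext1 x
    apply ext_inner_right ℝ
    intro y
    rw [inner_tp, hV x, hV y, inner_add_right, inner_add_left, hsymm, inner_smul_right,
      inner_smul_left, real_inner_comm x e]
    simp only [conj_trivial]
    ring
  · have h1 : tr (rk e e) = 1 := by
      have h2 := tr_mul_rk (1 : Op n) e e
      rw [one_mul, one_apply_eq_self, hee] at h2
      exact h2
    have h3 : tr V = tr (1 - P) + tr (rk e e) := tr_add _ _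
    rw [h3, h1, tr_sub, tr_one, hP.trp]
  · intro x
    rw [hV x, norm_add_sq_real, norm_smul, he1, mul_one, inner_smul_right,
      real_inner_comm e ((1 - P) x), horth, mul_zero, mul_zero, add_zero, Real.norm_eq_abs, sq_abs]

/-- `Pr n m` is closed. -/
theorem isClosed_Pr : IsClosed {P : Op n | Pr n m P} := by
  have h1 : IsClosed {P : Op n | P * P = P} :=
    isClosed_eq (continuous_id.mul continuous_id) continuous_id
  have h2 : IsClosed {P : Op n | tp P = P} :=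
    isClosed_eq (ContinuousLinearMap.adjoint (𝕜 := ℝ) (E := E n) (F := E n)).continuous
      continuous_id
  have h3 : IsClosed {P : Op n | tr P = m} := isClosed_eq continuous_tr continuous_const
  have h4 : {P : Op n | Pr n m P} =
      {P : Op n | P * P = P} ∩ ({P : Op n | tp P = P} ∩ {P : Op n | tr P = m}) := by
    ext P
    exact ⟨fun h => ⟨h.idem, h.symm, h.trp⟩, fun h => ⟨h.1, h.2.1, h.2.2⟩⟩
  rw [h4]
  exact h1.inter (h2.inter h3)

end Allard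
end
end

section

section

/-!
# B3a: the profile, calculus

`m ≥ 1`, `0 < s < r`.  `EE' (x) = x^{m-1} η x`.

* For `0 < t ≤ s/2` the formula `t^{-m} (EE (t/r) - EE (t/s))` gives the same constant
  (`EE x = x^m/m` for `0 ≤ x ≤ 1/2` as `η = 1` there), so `Xi` is given by the second formula on
  `t > 0`, and is constant on `t ≤ s/2` : it is `C¹` on `ℝ`.
* On `t > 0`: derivative `-m t^{-m-1}(EE(t/r) - EE(t/s)) + t^{-m} ((t/r)^{m-1} η(t/r)/r - (t/s)^{m-1}η(t/s)/s)`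
  `= (Kr r t - Kr s t - m Xi t)/t`.
* `Gf x := x^m η x - m EE x` is nonincreasing on `[0,∞)`, `0` on `[0,1/2]`, `= - m EE 1` on `[1,∞)`:
  for `x₁ ≤ x₂`, `Gf x₂ - Gf x₁ = x₂^m η x₂ - x₁^m η x₁ - m ∫_{x₁}^{x₂} v^{m-1} η`
  `≤ x₂^m η x₂ - x₁^m η x₁ - η x₂ (x₂^m - x₁^m) = x₁^m (η x₂ - η x₁) ≤ 0`.
  `Nn t = t^{-m} (Gf (t/r) - Gf (t/s))` for `t > 0`.
* `Nn ≤ t^{-m}(Gf (t/r) + m EE 1)` and `Gf x + m EE 1 = x^m η x + m ∫_x^1 v^{m-1} η ≤ η x`
  (`x ≤ 1`).  For `s ≤ t ≤ r/2`: `Gf (t/r) = 0`, `Gf(t/s) = - m EE 1`, `m EE 1 ≥ m EE (1/2) = 2^{-m}`.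
* `-Xi t = t^{-m} ∫_{t/r}^{t/s} v^{m-1} η v dv ≤ t^{-m} η(t/r) min ((t/s)^m, 1)/m` (as `η = 0` beyond 1).
-/

noncomputable section

open MeasureTheory Metric Set Filter Topology

namespace Allard

variable {τ : ℝ} {η : ℝ → ℝ} {m : ℕ} {s r : ℝ}

private theorem B3a_EE_hasDerivAt (h : Ker τ η) (x : ℝ) :
    HasDerivAt (EE m η) (x ^ (m - 1) * η x) x := by
  have hc : Continuous fun v : ℝ => v ^ (m - 1) * η v := (continuous_pow _).mul h.cont
  exact (hc.integral_hasStrictDerivAt 0 x).hasDerivAt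

private theorem B3a_EE_small (h : Ker τ η) (hm : 1 ≤ m) {x : ℝ} (hx : x ≤ 1 / 2) :
    EE m η x = x ^ m / m := by
  unfold EE
  have h1 : ∫ v in (0 : ℝ)..x, v ^ (m - 1) * η v = ∫ v in (0 : ℝ)..x, v ^ (m - 1) := by
    refine intervalIntegral.integral_congr fun v hv => ?_
    have hv' : v ≤ 1 / 2 := by
      have h2 := hv.2
      exact h2.trans (max_le (by norm_num) hx)
    rw [h.one_half hv', mul_one]
  rw [h1, integral_pow]
  have h2 : m - 1 + 1 = m := by omega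
  rw [h2, zero_pow (by omega), sub_zero]
  congr 1
  have h3 : ((m - 1 : ℕ) : ℝ) + 1 = ((m - 1 + 1 : ℕ) : ℝ) := by push_cast; ring
  rw [h3, h2]

private theorem B3a_EE_large (h : Ker τ η) {x : ℝ} (hx : 1 ≤ x) : EE m η x = EE m η 1 := by
  have hc : Continuous fun v : ℝ => v ^ (m - 1) * η v := (continuous_pow _).mul h.cont
  unfold EE
  rw [← intervalIntegral.integral_add_adjacent_intervals (b := 1) (hc.intervalIntegrable 0 1)
    (hc.intervalIntegrable 1 x)]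
  have h1 : ∫ v in (1 : ℝ)..x, v ^ (m - 1) * η v = ∫ _ in (1 : ℝ)..x, (0 : ℝ) := by
    refine intervalIntegral.integral_congr fun v hv => ?_
    rw [Set.uIcc_of_le hx] at hv
    rw [h.zero v hv.1, mul_zero]
  rw [h1, intervalIntegral.integral_zero, add_zero]

theorem Xi_eq (h : Ker τ η) (hm : 1 ≤ m) (hs : 0 < s) (hr : s < r) {t : ℝ} (ht : 0 < t) :
    Xi m η s r t = (t ^ m)⁻¹ * (EE m η (t / r) - EE m η (t / s)) := by
  unfold Xi
  split_ifs with h1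
  · have hr0 : 0 < r := hs.trans hr
    have h2 : t / s ≤ 1 / 2 := by
      rw [div_le_iff₀ hs]
      linarith
    have h3 : t / r ≤ 1 / 2 := by
      rw [div_le_iff₀ hr0]
      linarith
    rw [B3a_EE_small h hm h2, B3a_EE_small h hm h3, div_pow, div_pow]
    have hm' : (m : ℝ) ≠ 0 := by
      have : m ≠ 0 := by omega
      exact_mod_cast this
    field_simp
  · rfl

theorem Xi_const (h : Ker τ η) (hs : 0 < s) (hr : s < r) {t : ℝ} (ht : t ≤ s / 2) :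
    Xi m η s r t = ((r ^ m)⁻¹ - (s ^ m)⁻¹) / m := by
  unfold Xi
  rw [if_pos ht]

theorem Xi_zero (h : Ker τ η) (hm : 1 ≤ m) (hs : 0 < s) (hr : s < r) {t : ℝ} (ht : r ≤ t) :
    Xi m η s r t = 0 := by
  have hr0 : 0 < r := hs.trans hr
  rw [Xi_eq h hm hs hr (hr0.trans_le ht), B3a_EE_large h ((one_le_div hr0).2 ht),
    B3a_EE_large h ((one_le_div hs).2 (hr.le.trans ht)), sub_self, mul_zero]

theorem Nn_zero (h : Ker τ η) (hm : 1 ≤ m) (hs : 0 < s) (hr : s < r) {t : ℝ} (ht : r ≤ t) :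
    Nn m η s r t = 0 := by
  have hr0 : 0 < r := hs.trans hr
  unfold Nn
  split_ifs
  · rfl
  · rw [Kr_eq_zero h hr0 ht, Kr_eq_zero h hs (hr.le.trans ht), Xi_zero h hm hs hr ht]
    ring

theorem Nn_small (h : Ker τ η) (hs : 0 < s) (hr : s < r) {t : ℝ} (ht : t ≤ s / 2) :
    Nn m η s r t = 0 := by
  unfold Nn
  rw [if_pos ht]

private theorem B3a_Nn (h : Ker τ η) (hm : 1 ≤ m) (hs : 0 < s) (hr : s < r) (t : ℝ) :
    Nn m η s r t = Kr m η r t - Kr m η s t - m * Xi m η s r t := by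
  have hr0 : 0 < r := hs.trans hr
  have hm' : (m : ℝ) ≠ 0 := by
    have : m ≠ 0 := by omega
    exact_mod_cast this
  unfold Nn
  split_ifs with h1
  · have h2 : t / s ≤ 1 / 2 := by
      rw [div_le_iff₀ hs]
      linarith
    have h3 : t / r ≤ 1 / 2 := by
      rw [div_le_iff₀ hr0]
      linarith
    rw [Xi_const h hs hr h1, Kr, Kr, h.one_half h2, h.one_half h3]
    field_simp
    ring
  · rfl

/-- The basic relation `m Ξ + N = K_r - K_s`. -/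
theorem Xi_rel (h : Ker τ η) (hm : 1 ≤ m) (hs : 0 < s) (hr : s < r) {t : ℝ} (ht : 0 ≤ t) :
    m * Xi m η s r t + Nn m η s r t = Kr m η r t - Kr m η s t := by
  rw [B3a_Nn h hm hs hr t]
  ring

/-- Derivative of the profile (for `t ≤ s/2` the derivative is `0`). -/
theorem Xi_hasDerivAt (h : Ker τ η) (hm : 1 ≤ m) (hs : 0 < s) (hr : s < r) (t : ℝ) :
    HasDerivAt (Xi m η s r) (Nn m η s r t / t) t := by
  have hr0 : 0 < r := hs.trans hr
  rcases lt_or_ge t (s / 2) with ht | ht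
  · rw [Nn_small h hs hr ht.le, zero_div]
    have h1 : Xi m η s r =ᶠ[𝓝 t] fun _ => ((r ^ m)⁻¹ - (s ^ m)⁻¹) / m := by
      filter_upwards [Iio_mem_nhds ht] with x hx
      exact Xi_const h hs hr (le_of_lt hx)
    exact (hasDerivAt_const t _).congr_of_eventuallyEq h1
  · have ht0 : 0 < t := lt_of_lt_of_le (by positivity) ht
    have h1 : Xi m η s r =ᶠ[𝓝 t] fun t => (t ^ m)⁻¹ * (EE m η (t / r) - EE m η (t / s)) := by
      filter_upwards [Ioi_mem_nhds ht0] with x hx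
      exact Xi_eq h hm hs hr hx
    have hdr : HasDerivAt (fun t : ℝ => t / r) (1 / r) t := (hasDerivAt_id t).div_const r
    have hds : HasDerivAt (fun t : ℝ => t / s) (1 / s) t := (hasDerivAt_id t).div_const s
    have h2 : HasDerivAt (fun t : ℝ => EE m η (t / r)) (((t / r) ^ (m - 1) * η (t / r)) * (1 / r)) t :=
      HasDerivAt.comp (h₂ := EE m η) (h := fun t : ℝ => t / r) t (B3a_EE_hasDerivAt h (t / r)) hdr
    have h3 : HasDerivAt (fun t : ℝ => EE m η (t / s)) (((t / s) ^ (m - 1) * η (t / s)) * (1 / s)) t :=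
      HasDerivAt.comp (h₂ := EE m η) (h := fun t : ℝ => t / s) t (B3a_EE_hasDerivAt h (t / s)) hds
    have h4 : HasDerivAt (fun t : ℝ => (t ^ m)⁻¹) (-(m * t ^ (m - 1)) / (t ^ m) ^ 2) t :=
      (hasDerivAt_pow m t).inv (by positivity)
    have h5 := (h4.mul (h2.sub h3)).congr_of_eventuallyEq h1
    refine h5.congr_deriv ?_
    rw [B3a_Nn h hm hs hr t, Xi_eq h hm hs hr ht0, Kr, Kr]
    obtain ⟨k, rfl⟩ : ∃ k, m = k + 1 := ⟨m - 1, by omega⟩
    simp only [Nat.add_sub_cancel, Pi.sub_apply]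
    rw [div_pow, div_pow]
    field_simp
    ring

theorem continuous_Nn (h : Ker τ η) (hm : 1 ≤ m) (hs : 0 < s) (hr : s < r) :
    Continuous (Nn m η s r) := by
  have h1 : Nn m η s r = fun t => Kr m η r t - Kr m η s t - m * Xi m η s r t :=
    funext fun t => B3a_Nn h hm hs hr t
  have h2 : Continuous (Xi m η s r) :=
    continuous_iff_continuousAt.2 fun t => (Xi_hasDerivAt h hm hs hr t).continuousAt
  rw [h1]
  exact ((continuous_Kr h r).sub (continuous_Kr h s)).sub (continuous_const.mul h2)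

theorem Xi_contDiff (h : Ker τ η) (hm : 1 ≤ m) (hs : 0 < s) (hr : s < r) :
    ContDiff ℝ 1 (Xi m η s r) := by
  have h1 : deriv (Xi m η s r) = fun t => Nn m η s r t / t :=
    funext fun t => (Xi_hasDerivAt h hm hs hr t).deriv
  rw [contDiff_one_iff_deriv]
  refine ⟨fun t => (Xi_hasDerivAt h hm hs hr t).differentiableAt, ?_⟩
  rw [h1, continuous_iff_continuousAt]
  intro t
  rcases lt_or_ge t (s / 2) with ht | ht
  · have h2 : (fun t => Nn m η s r t / t) =ᶠ[𝓝 t] fun _ => (0 : ℝ) := by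
      filter_upwards [Iio_mem_nhds ht] with x hx
      rw [Nn_small h hs hr (le_of_lt hx), zero_div]
    exact continuousAt_const.congr h2.symm
  · have ht0 : 0 < t := lt_of_lt_of_le (by positivity) ht
    exact (continuous_Nn h hm hs hr).continuousAt.div continuousAt_id ht0.ne'

end Allard
end
end

section

/-!
# B3: the profile, inequalities

`m ≥ 1`, `0 < s < r`.  `EE' (x) = x^{m-1} η x`.

* For `0 < t ≤ s/2` the formula `t^{-m} (EE (t/r) - EE (t/s))` gives the same constant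
  (`EE x = x^m/m` for `0 ≤ x ≤ 1/2` as `η = 1` there), so `Xi` is given by the second formula on
  `t > 0`, and is constant on `t ≤ s/2` : it is `C¹` on `ℝ`.
* On `t > 0`: derivative `-m t^{-m-1}(EE(t/r) - EE(t/s)) + t^{-m} ((t/r)^{m-1} η(t/r)/r - (t/s)^{m-1}η(t/s)/s)`
  `= (Kr r t - Kr s t - m Xi t)/t`.
* `Gf x := x^m η x - m EE x` is nonincreasing on `[0,∞)`, `0` on `[0,1/2]`, `= - m EE 1` on `[1,∞)`:
  for `x₁ ≤ x₂`, `Gf x₂ - Gf x₁ = x₂^m η x₂ - x₁^m η x₁ - m ∫_{x₁}^{x₂} v^{m-1} η`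
  `≤ x₂^m η x₂ - x₁^m η x₁ - η x₂ (x₂^m - x₁^m) = x₁^m (η x₂ - η x₁) ≤ 0`.
  `Nn t = t^{-m} (Gf (t/r) - Gf (t/s))` for `t > 0`.
* `Nn ≤ t^{-m}(Gf (t/r) + m EE 1)` and `Gf x + m EE 1 = x^m η x + m ∫_x^1 v^{m-1} η ≤ η x`
  (`x ≤ 1`).  For `s ≤ t ≤ r/2`: `Gf (t/r) = 0`, `Gf(t/s) = - m EE 1`, `m EE 1 ≥ m EE (1/2) = 2^{-m}`.
* `-Xi t = t^{-m} ∫_{t/r}^{t/s} v^{m-1} η v dv ≤ t^{-m} η(t/r) min ((t/s)^m, 1)/m` (as `η = 0` beyond 1).
-/

noncomputable section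

open MeasureTheory Metric Set Filter Topology

namespace Allard

variable {τ : ℝ} {η : ℝ → ℝ} {m : ℕ} {s r : ℝ}

private theorem B3_cont (h : Ker τ η) (m : ℕ) : Continuous fun v : ℝ => v ^ (m - 1) * η v :=
  (continuous_pow _).mul h.cont

private theorem B3_sub (h : Ker τ η) (m : ℕ) (x₁ x₂ : ℝ) :
    EE m η x₂ - EE m η x₁ = ∫ v in x₁..x₂, v ^ (m - 1) * η v := by
  unfold EE
  exact intervalIntegral.integral_interval_sub_left ((B3_cont h m).intervalIntegrable _ _)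
    ((B3_cont h m).intervalIntegrable _ _)

private theorem B3_pow (hm : 1 ≤ m) (c x₁ x₂ : ℝ) :
    (m : ℝ) * ∫ v in x₁..x₂, v ^ (m - 1) * c = c * (x₂ ^ m - x₁ ^ m) := by
  rw [intervalIntegral.integral_mul_const, integral_pow]
  have hm0 : (m : ℝ) ≠ 0 := by
    have : m ≠ 0 := by omega
    exact_mod_cast this
  have h1 : m - 1 + 1 = m := by omega
  have h2 : ((m - 1 : ℕ) : ℝ) + 1 = m := by exact_mod_cast h1
  rw [h1, h2]
  field_simp

private theorem B3_int_le (h : Ker τ η) (hm : 1 ≤ m) {x₁ x₂ : ℝ} (h0 : 0 ≤ x₁) (h12 : x₁ ≤ x₂) :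
    m * (EE m η x₂ - EE m η x₁) ≤ η x₁ * (x₂ ^ m - x₁ ^ m) := by
  rw [← B3_pow hm, B3_sub h]
  refine mul_le_mul_of_nonneg_left ?_ (Nat.cast_nonneg m)
  refine intervalIntegral.integral_mono_on h12 ((B3_cont h m).intervalIntegrable _ _)
    (((continuous_pow _).mul continuous_const).intervalIntegrable _ _) fun v hv => ?_
  exact mul_le_mul_of_nonneg_left (h.anti hv.1) (pow_nonneg (h0.trans hv.1) _)

private theorem B3_le_int (h : Ker τ η) (hm : 1 ≤ m) {x₁ x₂ : ℝ} (h0 : 0 ≤ x₁) (h12 : x₁ ≤ x₂) :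
    η x₂ * (x₂ ^ m - x₁ ^ m) ≤ m * (EE m η x₂ - EE m η x₁) := by
  rw [← B3_pow hm, B3_sub h]
  refine mul_le_mul_of_nonneg_left ?_ (Nat.cast_nonneg m)
  refine intervalIntegral.integral_mono_on h12
    (((continuous_pow _).mul continuous_const).intervalIntegrable _ _)
    ((B3_cont h m).intervalIntegrable _ _) fun v hv => ?_
  exact mul_le_mul_of_nonneg_left (h.anti hv.2) (pow_nonneg (h0.trans hv.1) _)

private theorem B3_mono (h : Ker τ η) (hm : 1 ≤ m) {x₁ x₂ : ℝ} (h0 : 0 ≤ x₁) (h12 : x₁ ≤ x₂) :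
    0 ≤ (m : ℝ) * (EE m η x₂ - EE m η x₁) := by
  refine le_trans ?_ (B3_le_int h hm h0 h12)
  exact mul_nonneg (h.nonneg _) (sub_nonneg.2 (pow_le_pow_left₀ h0 h12 m))

/-- beyond one -/
private theorem B3_one (h : Ker τ η) (hm : 1 ≤ m) {x₁ x₂ : ℝ} (h0 : 0 ≤ x₁) (h1 : x₁ ≤ 1)
    (h2 : 1 ≤ x₂) : m * (EE m η x₂ - EE m η x₁) ≤ η x₁ * (1 - x₁ ^ m) := by
  have h3 := B3_int_le h hm zero_le_one h2
  have h4 := B3_int_le h hm h0 h1
  rw [h.zero 1 le_rfl, zero_mul] at h3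
  rw [one_pow] at h4
  linarith

private theorem B3_all (h : Ker τ η) (hm : 1 ≤ m) {x₁ x₂ : ℝ} (h0 : 0 ≤ x₁) (h12 : x₁ ≤ x₂) :
    m * (EE m η x₂ - EE m η x₁) ≤ η x₁ := by
  rcases le_total x₂ 1 with h1 | h1
  · have h2 := B3_int_le h hm h0 h12
    have h3 : x₂ ^ m ≤ 1 := pow_le_one₀ (h0.trans h12) h1
    have h4 : 0 ≤ x₁ ^ m := pow_nonneg h0 m
    have h5 := h.nonneg x₁
    nlinarith
  · rcases le_total x₁ 1 with h2 | h2
    · have h3 := B3_one h hm h0 h2 h1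
      have h4 : 0 ≤ x₁ ^ m := pow_nonneg h0 m
      have h5 := h.nonneg x₁
      nlinarith
    · have h3 := B3_int_le h hm h0 h12
      rw [h.zero _ h2, zero_mul] at h3
      rw [h.zero _ h2]
      exact h3

/-- the weight in terms of `EE` -/
private theorem B3_Nn (h : Ker τ η) (hm : 1 ≤ m) (hs : 0 < s) (hr : s < r) {t : ℝ} (ht : 0 < t) :
    Nn m η s r t = (t ^ m)⁻¹ * ((t / r) ^ m * η (t / r) - (t / s) ^ m * η (t / s) +
      m * (EE m η (t / s) - EE m η (t / r))) := by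
  have hr0 : 0 < r := hs.trans hr
  have h1 := Xi_rel h hm hs hr ht.le
  have h2 := Xi_eq h hm hs hr ht
  have h3 : Nn m η s r t = Kr m η r t - Kr m η s t - m * Xi m η s r t := by linarith
  have htm : t ^ m ≠ 0 := (pow_pos ht m).ne'
  have hrm : r ^ m ≠ 0 := (pow_pos hr0 m).ne'
  have hsm : s ^ m ≠ 0 := (pow_pos hs m).ne'
  rw [h3, h2]
  unfold Kr
  rw [div_pow, div_pow]
  field_simp
  ring

private theorem B3_ab (hs : 0 < s) (hr : s < r) {t : ℝ} (ht : 0 ≤ t) :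
    0 ≤ t / r ∧ t / r ≤ t / s := by
  have hr0 : 0 < r := hs.trans hr
  exact ⟨div_nonneg ht hr0.le, div_le_div_of_nonneg_left ht hs hr.le⟩

theorem Nn_nonneg (h : Ker τ η) (hm : 1 ≤ m) (hs : 0 < s) (hr : s < r) {t : ℝ} (ht : 0 ≤ t) :
    0 ≤ Nn m η s r t := by
  rcases ht.eq_or_lt with h0 | h0
  · rw [← h0, Nn_small h hs hr (by linarith)]
  · rw [B3_Nn h hm hs hr h0]
    obtain ⟨h1, h2⟩ := B3_ab hs hr ht
    have h3 := B3_le_int h hm h1 h2
    have h4 : η (t / s) ≤ η (t / r) := h.anti h2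
    have h5 : 0 ≤ (t / r) ^ m := pow_nonneg h1 m
    refine mul_nonneg (inv_nonneg.2 (pow_nonneg ht m)) ?_
    nlinarith [mul_nonneg h5 (sub_nonneg.2 h4)]

theorem Nn_le (h : Ker τ η) (hm : 1 ≤ m) (hs : 0 < s) (hr : s < r) {t : ℝ} (ht : 0 < t) :
    Nn m η s r t ≤ (t ^ m)⁻¹ * η (t / r) := by
  have hr0 : 0 < r := hs.trans hr
  rw [B3_Nn h hm hs hr ht]
  obtain ⟨h1, h2⟩ := B3_ab hs hr ht.le
  refine mul_le_mul_of_nonneg_left ?_ (inv_nonneg.2 (pow_nonneg ht.le m))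
  have h5 := h.nonneg (t / r)
  have h6 := h.nonneg (t / s)
  have h7 : 0 ≤ (t / r) ^ m := pow_nonneg h1 m
  have h8 : 0 ≤ (t / s) ^ m := pow_nonneg (h1.trans h2) m
  have h9 := mul_nonneg h8 h6
  rcases le_total (t / s) 1 with h3 | h3
  · have h4 := B3_int_le h hm h1 h2
    have h10 : (t / s) ^ m ≤ 1 := pow_le_one₀ (h1.trans h2) h3
    nlinarith [mul_nonneg h5 (sub_nonneg.2 h10)]
  · rcases le_total (t / r) 1 with h4 | h4
    · have h10 := B3_one h hm h1 h4 h3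
      nlinarith
    · have h10 := B3_int_le h hm h1 h2
      rw [h.zero _ h4, zero_mul] at h10
      rw [h.zero _ h4, mul_zero]
      linarith

/-- Bound which is also valid near `0`. -/
theorem Nn_le' (h : Ker τ η) (hm : 1 ≤ m) (hs : 0 < s) (hr : s < r) {t : ℝ} (ht : 0 ≤ t) :
    Nn m η s r t ≤ (2 / s) ^ m * η (t / r) := by
  rcases le_or_gt t (s / 2) with h1 | h1
  · rw [Nn_small h hs hr h1]
    exact mul_nonneg (by positivity) (h.nonneg _)
  · have h2 : 0 < t := by linarith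
    refine (Nn_le h hm hs hr h2).trans ?_
    refine mul_le_mul_of_nonneg_right ?_ (h.nonneg _)
    rw [← inv_pow]
    refine pow_le_pow_left₀ (inv_nonneg.2 ht) ?_ m
    rw [inv_le_comm₀ h2 (by positivity), inv_div]
    exact h1.le

theorem le_Nn (h : Ker τ η) (hm : 1 ≤ m) (hs : 0 < s) (hr : s < r) {t : ℝ} (ht : s ≤ t)
    (ht' : t ≤ r / 2) : (2 ^ m)⁻¹ * (t ^ m)⁻¹ ≤ Nn m η s r t := by
  have hr0 : 0 < r := hs.trans hr
  have h0 : 0 < t := lt_of_lt_of_le hs ht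
  rw [B3_Nn h hm hs hr h0, mul_comm]
  obtain ⟨h1, h2⟩ := B3_ab hs hr h0.le
  refine mul_le_mul_of_nonneg_left ?_ (inv_nonneg.2 (pow_nonneg h0.le m))
  have h3 : 1 ≤ t / s := by rwa [one_le_div hs]
  have h4 : t / r ≤ 1 / 2 := by
    rw [div_le_iff₀ hr0]
    linarith
  have h5 : η (t / s) = 0 := h.zero _ h3
  have h6 : η (t / r) = 1 := h.one_half h4
  have h7 := B3_le_int h hm h1 h4
  have h8 := B3_mono h hm (by norm_num : (0 : ℝ) ≤ 1 / 2) (by linarith : (1 : ℝ) / 2 ≤ t / s)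
  have h9 : η (1 / 2) = 1 := h.one_half le_rfl
  rw [h9] at h7
  rw [h5, h6]
  have h10 : ((1 : ℝ) / 2) ^ m = (2 ^ m)⁻¹ := by rw [one_div, inv_pow]
  rw [h10] at h7
  linarith

private theorem B3_inv_le (hs : 0 < s) (hr : s < r) (m : ℕ) : (r ^ m)⁻¹ ≤ (s ^ m)⁻¹ := by
  have h1 : s ^ m ≤ r ^ m := pow_le_pow_left₀ hs.le hr.le m
  exact inv_anti₀ (pow_pos hs m) h1

theorem Xi_nonpos (h : Ker τ η) (hm : 1 ≤ m) (hs : 0 < s) (hr : s < r) {t : ℝ} (ht : 0 ≤ t) :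
    Xi m η s r t ≤ 0 := by
  have hm0 : (0 : ℝ) < m := by exact_mod_cast hm
  rcases ht.eq_or_lt with h0 | h0
  · rw [← h0, Xi_const h hs hr (by linarith)]
    have := B3_inv_le hs hr m
    exact div_nonpos_of_nonpos_of_nonneg (by linarith) hm0.le
  · rw [Xi_eq h hm hs hr h0]
    obtain ⟨h1, h2⟩ := B3_ab hs hr ht
    have h3 := B3_mono h hm h1 h2
    have h4 : 0 ≤ EE m η (t / s) - EE m η (t / r) := by
      by_contra hlt
      push Not at hlt
      nlinarith [mul_pos hm0 (neg_pos.2 hlt)]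
    have h5 : 0 ≤ (t ^ m)⁻¹ := inv_nonneg.2 (pow_nonneg ht m)
    nlinarith [mul_nonneg h5 h4]

private theorem B3_abs (h : Ker τ η) (hm : 1 ≤ m) (hs : 0 < s) (hr : s < r) {t : ℝ} (ht : 0 < t)
    {c : ℝ} (hc : m * (EE m η (t / s) - EE m η (t / r)) ≤ c) :
    |Xi m η s r t| ≤ (t ^ m)⁻¹ * c := by
  rw [abs_of_nonpos (Xi_nonpos h hm hs hr ht.le), Xi_eq h hm hs hr ht]
  obtain ⟨h1, h2⟩ := B3_ab hs hr ht.le
  have hm1 : (1 : ℝ) ≤ m := by exact_mod_cast hm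
  have h3 := B3_mono h hm h1 h2
  have h4 : 0 ≤ EE m η (t / s) - EE m η (t / r) := by
    by_contra hlt
    push Not at hlt
    nlinarith [mul_pos (zero_lt_one.trans_le hm1) (neg_pos.2 hlt)]
  have h5 : EE m η (t / s) - EE m η (t / r) ≤ c := by
    refine le_trans ?_ hc
    nlinarith
  have h6 : -((t ^ m)⁻¹ * (EE m η (t / r) - EE m η (t / s))) =
      (t ^ m)⁻¹ * (EE m η (t / s) - EE m η (t / r)) := by ring
  rw [h6]
  exact mul_le_mul_of_nonneg_left h5 (inv_nonneg.2 (pow_nonneg ht.le m))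

theorem abs_Xi_le (h : Ker τ η) (hm : 1 ≤ m) (hs : 0 < s) (hr : s < r) {t : ℝ} (ht : 0 ≤ t) :
    |Xi m η s r t| ≤ (s ^ m)⁻¹ * η (t / r) := by
  have hr0 : 0 < r := hs.trans hr
  have hm1 : (1 : ℝ) ≤ m := by exact_mod_cast hm
  rcases le_or_gt t (s / 2) with h1 | h1
  · have h2 : t / r ≤ 1 / 2 := by
      rw [div_le_iff₀ hr0]
      linarith
    rw [abs_of_nonpos (Xi_nonpos h hm hs hr ht), Xi_const h hs hr h1, h.one_half h2, mul_one]
    have h3 := B3_inv_le hs hr m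
    have h4 : 0 ≤ (r ^ m)⁻¹ := inv_nonneg.2 (pow_nonneg hr0.le m)
    rw [← neg_div, div_le_iff₀ (by linarith)]
    nlinarith [mul_nonneg (sub_nonneg.2 hm1) (h4.trans h3)]
  · have h0 : 0 < t := by linarith
    obtain ⟨h2, h3⟩ := B3_ab hs hr ht
    have h4 : m * (EE m η (t / s) - EE m η (t / r)) ≤ (t / s) ^ m * η (t / r) := by
      have h5 := B3_int_le h hm h2 h3
      nlinarith [mul_nonneg (h.nonneg (t / r)) (pow_nonneg h2 m)]
    refine (B3_abs h hm hs hr h0 h4).trans (le_of_eq ?_)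
    have htm : t ^ m ≠ 0 := (pow_pos h0 m).ne'
    rw [div_pow]
    field_simp

theorem abs_Xi_le' (h : Ker τ η) (hm : 1 ≤ m) (hs : 0 < s) (hr : s < r) {t : ℝ} (ht : 0 < t) :
    |Xi m η s r t| ≤ (t ^ m)⁻¹ * η (t / r) := by
  obtain ⟨h2, h3⟩ := B3_ab hs hr ht.le
  exact B3_abs h hm hs hr ht (B3_all h hm h2 h3)

end Allard
end
end

section

/-!
# B4a: radial fields

`G` symmetric and nonnegative, `t(z) = gn G (z - p)`.  On `{t < s/2}` the field is linear in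
`z - p`; where `t > 0` it is a composition of `C¹` maps (`√` is smooth off `0`), with
`D t v = ⟨G (z-p), v⟩ / t`.  The two open sets cover the space.
`fderiv g z = Ξ(t) L + (N(t)/t²) (L (z-p)) ⊗ (G (z-p))` (for `t ≤ s/2`, `N = 0`).

Potential: `Z' (t) = t Ξ(t)`, so the gradient of `z ↦ Z(‖Q(z-p)‖)` is `Ξ(‖Q(z-p)‖) Q(z-p)`
(near `Q(z-p) = 0`: `Z(t) = Z(0) + c t²/2`, a polynomial in `‖Q (z-p)‖²`).
For `Q` a symmetric idempotent, `gn Q v = ‖Q v‖`.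
-/

noncomputable section

open MeasureTheory Metric Set Filter Topology

namespace Allard

variable {τ : ℝ} {η : ℝ → ℝ} {n m : ℕ} {s r : ℝ}

theorem gn_continuous (G : Op n) : Continuous (gn G) := by
  unfold gn
  exact Real.continuous_sqrt.comp (G.continuous.inner continuous_id)

theorem gn_proj {Q : Op n} (hQ : Pr n m Q) (v : E n) : gn Q v = ‖Q v‖ := by
  unfold gn
  rw [← hQ.norm_sq, Real.sqrt_sq (norm_nonneg _)]

private theorem b4a_open (G : Op n) (p : E n) (c : ℝ) {z : E n} (hz : gn G (z - p) < c) :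
    ∀ᶠ w in 𝓝 z, gn G (w - p) < c := by
  have hc : Continuous fun w => gn G (w - p) :=
    (gn_continuous G).comp (continuous_id.sub continuous_const)
  exact (isOpen_lt hc continuous_const).mem_nhds hz

private theorem b4a_pos {G : Op n} {v : E n} (hz : 0 < gn G v) : 0 < inner ℝ (G v) v := by
  unfold gn at hz
  exact Real.sqrt_pos.1 hz

private theorem b4a_eq (h : Ker τ η) (hs : 0 < s) (hr : s < r) {G : Op n} (L : Op n) (p z : E n)
    (hz : gn G (z - p) < s / 2) :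
    (fun z => Xi m η s r (gn G (z - p)) • L (z - p)) =ᶠ[𝓝 z]
      fun z => (((r ^ m)⁻¹ - (s ^ m)⁻¹) / m) • L (z - p) := by
  filter_upwards [b4a_open G p _ hz] with w hw
  rw [Xi_const h hs hr hw.le]

theorem radial_contDiff (h : Ker τ η) (hm : 1 ≤ m) (hs : 0 < s) (hr : s < r) {G : Op n}
    (hG : tp G = G) (hG' : ∀ z, 0 ≤ inner ℝ (G z) z) (L : Op n) (p : E n) :
    ContDiff ℝ 1 (fun z => Xi m η s r (gn G (z - p)) • L (z - p)) := by
  rw [contDiff_iff_contDiffAt]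
  intro z
  have hL : ContDiffAt ℝ 1 (fun z => L (z - p)) z :=
    (L.contDiff.comp (contDiff_id.sub contDiff_const)).contDiffAt
  rcases lt_or_ge (gn G (z - p)) (s / 2) with hz | hz
  · refine ContDiffAt.congr_of_eventuallyEq ?_ (b4a_eq h hs hr L p z hz)
    exact hL.const_smul _
  · have hz0 : 0 < gn G (z - p) := lt_of_lt_of_le (by linarith) hz
    have hi := b4a_pos hz0
    have h1 : ContDiffAt ℝ 1 (fun z => inner ℝ (G (z - p)) (z - p)) z :=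
      ContDiffAt.inner ℝ (G.contDiff.comp (contDiff_id.sub contDiff_const)).contDiffAt
        (contDiff_id.sub contDiff_const).contDiffAt
    have h2 : ContDiffAt ℝ 1 (fun z => gn G (z - p)) z := by
      unfold gn
      exact h1.sqrt hi.ne'
    have h3 : ContDiffAt ℝ 1 (fun z => Xi m η s r (gn G (z - p))) z :=
      (Xi_contDiff h hm hs hr).contDiffAt.comp z h2
    exact h3.smul hL

theorem radial_fderiv (h : Ker τ η) (hm : 1 ≤ m) (hs : 0 < s) (hr : s < r) {G : Op n}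
    (hG : tp G = G) (hG' : ∀ z, 0 ≤ inner ℝ (G z) z) (L : Op n) (p z : E n) :
    fderiv ℝ (fun z => Xi m η s r (gn G (z - p)) • L (z - p)) z =
      Xi m η s r (gn G (z - p)) • L +
        (Nn m η s r (gn G (z - p)) / (gn G (z - p)) ^ 2) • rk (L (z - p)) (G (z - p)) := by
  have hsub : HasFDerivAt (fun z : E n => z - p) (ContinuousLinearMap.id ℝ (E n)) z :=
    (hasFDerivAt_id z).sub_const p
  have hL : HasFDerivAt (fun z => L (z - p)) L z := by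
    have h1 := L.hasFDerivAt.comp z hsub
    rwa [ContinuousLinearMap.comp_id] at h1
  rcases lt_or_ge (gn G (z - p)) (s / 2) with hz | hz
  · rw [(b4a_eq h hs hr L p z hz).fderiv_eq, Nn_small h hs hr hz.le, zero_div,
      Xi_const h hs hr hz.le]
    have h1 : HasFDerivAt (fun z => (((r ^ m)⁻¹ - (s ^ m)⁻¹) / (m : ℝ)) • L (z - p))
        ((((r ^ m)⁻¹ - (s ^ m)⁻¹) / (m : ℝ)) • L) z := hL.const_smul (((r ^ m)⁻¹ - (s ^ m)⁻¹) / (m : ℝ))
    refine h1.fderiv.trans ?_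
    ext1 v
    simp only [add_apply, smul_apply, zero_smul, add_zero]
  · have hz0 : 0 < gn G (z - p) := lt_of_lt_of_le (by linarith) hz
    have hi := b4a_pos hz0
    have hGd : HasFDerivAt (fun z => G (z - p)) G z := by
      have h1 := G.hasFDerivAt.comp z hsub
      rwa [ContinuousLinearMap.comp_id] at h1
    have h1 := hGd.inner ℝ hsub
    have h2 := h1.sqrt hi.ne'
    have h3 := (Xi_hasDerivAt h hm hs hr (gn G (z - p))).comp_hasFDerivAt z h2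
    have h4 := h3.smul hL
    refine (h4.fderiv).trans ?_
    ext1 v
    have hsq : √(inner ℝ (G (z - p)) (z - p)) = gn G (z - p) := rfl
    have hsym : inner ℝ (G v) (z - p) = inner ℝ (G (z - p)) v := by
      have h5 : inner ℝ (tp G v) (z - p) = inner ℝ v (G (z - p)) :=
        ContinuousLinearMap.adjoint_inner_left G (z - p) v
      rw [hG] at h5
      rw [h5, real_inner_comm]
    simp only [add_apply, smul_apply,
      ContinuousLinearMap.smulRight_apply, ContinuousLinearMap.comp_apply,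
      fderivInnerCLM_apply, ContinuousLinearMap.prod_apply, ContinuousLinearMap.id_apply,
      Function.comp_apply, rk, innerSL_apply_apply, hsq, hsym, smul_eq_mul]
    congr 1
    rw [← smul_assoc]
    congr 1
    rw [smul_eq_mul, real_inner_comm v]
    field_simp
    ring

end Allard
end
end

section

/-!
# B4: potentials

`G` symmetric and nonnegative, `t(z) = gn G (z - p)`.  On `{t < s/2}` the field is linear in
`z - p`; where `t > 0` it is a composition of `C¹` maps (`√` is smooth off `0`), with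
`D t v = ⟨G (z-p), v⟩ / t`.  The two open sets cover the space.
`fderiv g z = Ξ(t) L + (N(t)/t²) (L (z-p)) ⊗ (G (z-p))` (for `t ≤ s/2`, `N = 0`).

Potential: `Z' (t) = t Ξ(t)`, so the gradient of `z ↦ Z(‖Q(z-p)‖)` is `Ξ(‖Q(z-p)‖) Q(z-p)`
(near `Q(z-p) = 0`: `Z(t) = Z(0) + c t²/2`, a polynomial in `‖Q (z-p)‖²`).
For `Q` a symmetric idempotent, `gn Q v = ‖Q v‖`.
-/

noncomputable section

open MeasureTheory Metric Set Filter Topology

namespace Allard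

variable {τ : ℝ} {η : ℝ → ℝ} {n m : ℕ} {s r : ℝ}

private theorem B4_cont (h : Ker τ η) (hm : 1 ≤ m) (hs : 0 < s) (hr : s < r) :
    Continuous fun u : ℝ => u * Xi m η s r u :=
  continuous_id.mul (Xi_contDiff h hm hs hr).continuous

theorem Zz_hasDerivAt (h : Ker τ η) (hm : 1 ≤ m) (hs : 0 < s) (hr : s < r) (t : ℝ) :
    HasDerivAt (Zz m η s r) (t * Xi m η s r t) t := by
  have h1 := ((B4_cont h hm hs hr).integral_hasStrictDerivAt r t).hasDerivAt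
  have h2 : Zz m η s r = fun t => ∫ u in r..t, u * Xi m η s r u := by
    funext t
    unfold Zz
    rw [intervalIntegral.integral_symm, neg_neg]
  rw [h2]
  exact h1

theorem Zz_zero (h : Ker τ η) (hm : 1 ≤ m) (hs : 0 < s) (hr : s < r) {t : ℝ} (ht : r ≤ t) :
    Zz m η s r t = 0 := by
  unfold Zz
  have h1 : ∫ u in t..r, u * Xi m η s r u = ∫ _ in t..r, (0 : ℝ) := by
    refine intervalIntegral.integral_congr fun u hu => ?_
    rw [Set.uIcc_of_ge ht] at hu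
    rw [Xi_zero h hm hs hr hu.1, mul_zero]
  rw [h1, intervalIntegral.integral_zero, neg_zero]

theorem abs_Zz_le (h : Ker τ η) (hm : 1 ≤ m) (hs : 0 < s) (hr : s < r) {t : ℝ} (ht : 0 ≤ t) :
    |Zz m η s r t| ≤ (s ^ m)⁻¹ * r ^ 2 := by
  have hr0 : 0 < r := hs.trans hr
  rcases le_total r t with h1 | h1
  · rw [Zz_zero h hm hs hr h1, abs_zero]
    positivity
  · unfold Zz
    rw [abs_neg, ← Real.norm_eq_abs]
    have h2 : ∀ u ∈ Set.uIoc t r, ‖u * Xi m η s r u‖ ≤ r * (s ^ m)⁻¹ := by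
      intro u hu
      rw [Set.uIoc_of_le h1] at hu
      have h3 : 0 ≤ u := ht.trans hu.1.le
      rw [norm_mul, Real.norm_eq_abs, Real.norm_eq_abs, abs_of_nonneg h3]
      have h4 : |Xi m η s r u| ≤ (s ^ m)⁻¹ := by
        refine (abs_Xi_le h hm hs hr h3).trans ?_
        exact mul_le_of_le_one_right (by positivity) (h.le_one _)
      exact mul_le_mul hu.2 h4 (abs_nonneg _) hr0.le
    refine (intervalIntegral.norm_integral_le_of_norm_le_const h2).trans ?_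
    rw [abs_of_nonneg (sub_nonneg.2 h1)]
    have h5 : r - t ≤ r := by linarith
    calc r * (s ^ m)⁻¹ * (r - t) ≤ r * (s ^ m)⁻¹ * r := by gcongr
      _ = (s ^ m)⁻¹ * r ^ 2 := by ring

/-- the potential as a function of the square -/
private def B4H (m : ℕ) (η : ℝ → ℝ) (s r w : ℝ) : ℝ :=
  ∫ u in (r ^ 2)..w, Xi m η s r (Real.sqrt u) / 2

private theorem B4_contH (h : Ker τ η) (hm : 1 ≤ m) (hs : 0 < s) (hr : s < r) :
    Continuous fun u : ℝ => Xi m η s r (Real.sqrt u) / 2 :=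
  ((Xi_contDiff h hm hs hr).continuous.comp Real.continuous_sqrt).div_const 2

private theorem B4_derivH (h : Ker τ η) (hm : 1 ≤ m) (hs : 0 < s) (hr : s < r) (w : ℝ) :
    HasDerivAt (B4H m η s r) (Xi m η s r (Real.sqrt w) / 2) w :=
  ((B4_contH h hm hs hr).integral_hasStrictDerivAt (r ^ 2) w).hasDerivAt

private theorem B4_eqH (h : Ker τ η) (hm : 1 ≤ m) (hs : 0 < s) (hr : s < r) {t : ℝ}
    (ht : 0 ≤ t) : Zz m η s r t = B4H m η s r (t ^ 2) := by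
  have hr0 : 0 < r := hs.trans hr
  unfold Zz B4H
  rw [intervalIntegral.integral_symm, neg_neg]
  have h1 := intervalIntegral.integral_comp_mul_deriv (a := r) (b := t)
    (f := fun u : ℝ => u ^ 2) (f' := fun u : ℝ => 2 * u)
    (g := fun u : ℝ => Xi m η s r (Real.sqrt u) / 2)
    (fun u _ => by
      have := hasDerivAt_pow 2 u
      simpa using this)
    ((continuous_const.mul continuous_id).continuousOn) (B4_contH h hm hs hr)
  rw [← h1]
  refine intervalIntegral.integral_congr fun u hu => ?_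
  have hu0 : 0 ≤ u := by
    rcases le_total r t with h2 | h2
    · rw [Set.uIcc_of_le h2] at hu
      exact hr0.le.trans hu.1
    · rw [Set.uIcc_of_ge h2] at hu
      exact ht.trans hu.1
  simp only [Function.comp_apply]
  rw [Real.sqrt_sq hu0]
  ring

private theorem B4_fderiv (h : Ker τ η) (hm : 1 ≤ m) (hs : 0 < s) (hr : s < r) {Q : Op n}
    (p z : E n) :
    HasFDerivAt (fun z => Zz m η s r ‖Q (z - p)‖)
      ((Xi m η s r (Real.sqrt (‖Q (z - p)‖ ^ 2)) / 2) •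
        (2 • (innerSL ℝ (Q (z - p))).comp Q)) z := by
  have h1 : (fun z => Zz m η s r ‖Q (z - p)‖) = B4H m η s r ∘ fun z => ‖Q (z - p)‖ ^ 2 := by
    funext z
    exact B4_eqH h hm hs hr (norm_nonneg _)
  have h2 : HasFDerivAt (fun z => Q (z - p)) Q z := by
    have h3 := (Q.hasFDerivAt (x := z - p)).comp z ((hasFDerivAt_id z).sub_const p)
    rw [ContinuousLinearMap.comp_id] at h3
    exact h3
  have h3 := h2.norm_sq
  rw [h1]
  exact (B4_derivH h hm hs hr _).comp_hasFDerivAt z h3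

theorem pot_contDiff (h : Ker τ η) (hm : 1 ≤ m) (hs : 0 < s) (hr : s < r) {Q : Op n}
    (hQ : Pr n m Q) (p : E n) : ContDiff ℝ 1 (fun z => Zz m η s r ‖Q (z - p)‖) := by
  have h1 : (fun z => Zz m η s r ‖Q (z - p)‖) = B4H m η s r ∘ fun z => ‖Q (z - p)‖ ^ 2 := by
    funext z
    exact B4_eqH h hm hs hr (norm_nonneg _)
  rw [h1]
  have h2 : ContDiff ℝ 1 (B4H m η s r) := by
    rw [contDiff_one_iff_deriv]
    refine ⟨fun w => (B4_derivH h hm hs hr w).differentiableAt, ?_⟩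
    have h3 : deriv (B4H m η s r) = fun w => Xi m η s r (Real.sqrt w) / 2 :=
      funext fun w => (B4_derivH h hm hs hr w).deriv
    rw [h3]
    exact B4_contH h hm hs hr
  refine h2.comp ?_
  exact (Q.contDiff.comp (contDiff_id.sub contDiff_const)).norm_sq ℝ

theorem pot_fderiv (h : Ker τ η) (hm : 1 ≤ m) (hs : 0 < s) (hr : s < r) {Q : Op n}
    (hQ : Pr n m Q) (p z v : E n) :
    fderiv ℝ (fun z => Zz m η s r ‖Q (z - p)‖) z v =
      Xi m η s r ‖Q (z - p)‖ * inner ℝ (Q (z - p)) v := by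
  rw [(B4_fderiv h hm hs hr p z).fderiv, Real.sqrt_sq (norm_nonneg _)]
  have h1 : inner ℝ (Q (z - p)) (Q v) = inner ℝ (Q (z - p)) v := by
    rw [← hQ.inner_symm, hQ.apply_apply]
  simp only [_root_.smul_apply, ContinuousLinearMap.comp_apply, innerSL_apply_apply,
    smul_eq_mul, nsmul_eq_mul, h1]
  push_cast
  ring

end Allard
end
end
end
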