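import Mathlib

/-!
# Allard regularity for integrands close to area (MP_5932b0_an): definitions

`E n` Euclidean space, `Op n` its operators, `Pr n m P`: `P` is an orthogonal projection of
rank `m`.  `Stress n m δ`: the algebraic data of an integrand close to area, `S.B P` is the
first variation tensor.  `Sys S α Λ U`: a measure with planes and mean curvature satisfying the
first variation identity in the open set `U`.
-/

noncomputable section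

open MeasureTheory Metric Set Filter Topology

namespace Allard

/-- Euclidean space. -/
abbrev E (n : ℕ) := EuclideanSpace ℝ (Fin n)

/-- Operators. -/
abbrev Op (n : ℕ) := E n →L[ℝ] E n

/-- Trace. -/
def tr {n : ℕ} (A : Op n) : ℝ := LinearMap.trace ℝ (E n) (A : E n →ₗ[ℝ] E n)

/-- The rank one operator `v ↦ ⟨w, v⟩ u`. -/
def rk {n : ℕ} (u w : E n) : Op n := (innerSL ℝ w).smulRight u

/-- Transpose. -/
def tp {n : ℕ} (A : Op n) : Op n := ContinuousLinearMap.adjoint A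

/-- Orthogonal projections of rank `m`. -/
structure Pr (n m : ℕ) (P : Op n) : Prop where
  idem : P * P = P
  symm : tp P = P
  trp : tr P = m

/-- Tilt `tr (P (1 - Q))`. -/
def tilt {n : ℕ} (P Q : Op n) : ℝ := tr (P * (1 - Q))

/-- Gain density: `|P^⊥ v|² / |v|²`. -/
def ga {n : ℕ} (P : Op n) (v : E n) : ℝ := ‖(1 - P) v‖ ^ 2 / ‖v‖ ^ 2

/-- The algebraic data of an integrand that is `δ`-close to area. -/
structure Stress (n m : ℕ) (δ : ℝ) where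
  ψ : Op n → ℝ
  C : Op n → Op n
  cψ : Continuous ψ
  cC : Continuous C
  bψ : ∀ P, Pr n m P → |ψ P - 1| ≤ δ
  bC : ∀ P, Pr n m P → ‖C P‖ ≤ δ
  form : ∀ P, Pr n m P → C P = P * C P * (1 - P)
  lψ : ∀ P Q, Pr n m P → Pr n m Q → |ψ P - ψ Q| ≤ δ * ‖P - Q‖
  lC : ∀ P Q, Pr n m P → Pr n m Q → ‖C P - C Q‖ ≤ δ * ‖P - Q‖

variable {n m : ℕ} {δ : ℝ}

/-- First variation tensor. -/
def Stress.B (S : Stress n m δ) (P : Op n) : Op n := S.ψ P • P + S.C P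

/-- The metric adapted to the plane `Q`. -/
def Stress.G (S : Stress n m δ) (Q : Op n) : Op n := 1 + (S.ψ Q)⁻¹ • (S.C Q + tp (S.C Q))

/-- Norm of a quadratic form. -/
def gn {n : ℕ} (G : Op n) (z : E n) : ℝ := Real.sqrt (inner ℝ (G z) z)

/-- Monotonicity form (`Q` the plane at the centre, `P` the plane at the point `z`). -/
def Stress.F (S : Stress n m δ) (Q P : Op n) (z : E n) : ℝ :=
  inner ℝ (S.G Q z) ((S.ψ P • (1 : Op n) - S.B P) z) / (gn (S.G Q) z) ^ 2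

/-- The Caccioppoli tensor. -/
def Stress.M (S : Stress n m δ) (Q P : Op n) : Op n :=
  S.B P * (1 - (S.ψ Q)⁻¹ • S.C Q) * (1 - Q)

/-- Standing smallness of `δ`. -/
def d0 (n : ℕ) : ℝ := 1 / (100 * (n + 1))

/-- A system: measure, planes, mean curvature. -/
structure Sys {n m : ℕ} {δ : ℝ} (S : Stress n m δ) (α Λ : ℝ) (U : Set (E n)) where
  μ : Measure (E n)
  P : E n → Op n
  H : E n → E n
  fin : IsFiniteMeasure μ
  mP : Measurable P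
  hP : ∀ z, Pr n m (P z)
  mH : Measurable H
  iH : Integrable H μ
  fv : ∀ g : E n → E n, ContDiff ℝ 1 g → HasCompactSupport g → tsupport g ⊆ U →
    ∫ z, tr (S.B (P z) * fderiv ℝ g z) ∂μ = ∫ z, inner ℝ (H z) (g z) ∂μ
  hb : ∀ f : E n → ℝ, Measurable f → (∀ z, 0 ≤ f z) → (∀ z, f z ≤ 1) → ∀ r : ℝ, 0 < r →
    r * ∫ z, f z * ‖H z‖ ∂μ ≤ Λ * r ^ α * (r ^ m + ∫ z, f z ∂μ)

attribute [instance] Sys.fin

/-- Volume of the unit ball of `ℝ^m`. -/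
def om (m : ℕ) : ℝ := (volume : Measure (E m)).real (ball 0 1)

variable {S : Stress n m δ} {α Λ : ℝ} {U : Set (E n)}

/-- Lower density at least one almost everywhere. -/
def Sys.AE (V : Sys S α Λ U) : Prop :=
  ∀ᵐ y ∂V.μ, ∀ ε : ℝ, 0 < ε →
    ∀ᶠ r in 𝓝[>] (0 : ℝ), (1 - ε) * om m * r ^ m ≤ V.μ.real (ball y r)

/-- Uniform lower density bound on the support. -/
def Sys.LD (V : Sys S α Λ U) (η₁ : ℝ) : Prop :=
  ∀ y ∈ V.μ.support, ∀ r : ℝ, 0 < r → closedBall y r ⊆ U →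
    (1 - η₁) * om m * r ^ m ≤ V.μ.real (ball y r)

/-- `Λ / (1 - 2^{-α})`. -/
def lam (α Λ : ℝ) : ℝ := Λ / (1 - (2 : ℝ) ^ (-α))

/-! ### Kernel and profile -/

/-- Properties of the kernel with parameter `τ`. -/
structure Ker (τ : ℝ) (η : ℝ → ℝ) : Prop where
  tpos : 0 < τ
  tle : τ ≤ 1 / 2
  anti : Antitone η
  smooth : ContDiff ℝ 2 η
  one : ∀ t, t ≤ 1 - τ → η t = 1
  zero : ∀ t, 1 ≤ t → η t = 0
  cmp : ∀ t l, t ≤ 1 → 0 ≤ l → l ≤ 1 → l ^ 3 * η t ≤ η (1 - l * (1 - t))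

/-- Scaled kernel. -/
def Kr (m : ℕ) (η : ℝ → ℝ) (r t : ℝ) : ℝ := (r ^ m)⁻¹ * η (t / r)

/-- `∫_0^x v^{m-1} η(v) dv`. -/
def EE (m : ℕ) (η : ℝ → ℝ) (x : ℝ) : ℝ := ∫ v in (0 : ℝ)..x, v ^ (m - 1) * η v

/-- The profile `Ξ_{s,r}`. -/
def Xi (m : ℕ) (η : ℝ → ℝ) (s r t : ℝ) : ℝ :=
  if t ≤ s / 2 then ((r ^ m)⁻¹ - (s ^ m)⁻¹) / m
  else (t ^ m)⁻¹ * (EE m η (t / r) - EE m η (t / s))

/-- The weight `N_{s,r}(t) = t Ξ'(t)`. -/
def Nn (m : ℕ) (η : ℝ → ℝ) (s r t : ℝ) : ℝ :=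
  if t ≤ s / 2 then 0 else Kr m η r t - Kr m η s t - m * Xi m η s r t

/-- The potential `Z(t) = - ∫_t^r u Ξ(u) du`. -/
def Zz (m : ℕ) (η : ℝ → ℝ) (s r t : ℝ) : ℝ := - ∫ u in t..r, u * Xi m η s r u

/-- The adapted kernel mass at the centre `y` with plane `Q`. -/
def Sys.I (V : Sys S α Λ U) (η : ℝ → ℝ) (Q : Op n) (y : E n) (r : ℝ) : ℝ :=
  ∫ z, Kr m η r (gn (S.G Q) (z - y)) * S.ψ (V.P z) ∂V.μ

/-- Gain at scale `ρ`. -/
def Sys.gg (V : Sys S α Λ U) (ρ : ℝ) (y : E n) : ℝ :=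
  (ρ ^ m)⁻¹ * ∫ z in {z | ρ / 2 ≤ ‖z - y‖ ∧ ‖z - y‖ < ρ}, ga (V.P z) (z - y) ∂V.μ

/-- Loss at scale `ρ`. -/
def Sys.ls (V : Sys S α Λ U) (ρ : ℝ) (y : E n) : ℝ :=
  (ρ ^ m)⁻¹ * ∫ z in {z | ρ / 2 ≤ ‖z - y‖ ∧ ‖z - y‖ < ρ}, ‖V.P z - V.P y‖ ^ 2 ∂V.μ

/-- Loss at scale `ρ` with respect to a fixed plane. -/
def Sys.lq (V : Sys S α Λ U) (Q : Op n) (ρ : ℝ) (y : E n) : ℝ :=
  (ρ ^ m)⁻¹ * ∫ z in ball y ρ, ‖V.P z - Q‖ ^ 2 ∂V.μ

/-- Mean curvature at scale `ρ`. -/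
def Sys.hh (V : Sys S α Λ U) (ρ : ℝ) (y : E n) : ℝ :=
  ρ * (ρ ^ m)⁻¹ * ∫ z in ball y ρ, ‖V.H z‖ ∂V.μ

end Allard
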