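import Pool.Agent.Lib.MP_5932b0_an.AR.B4
import Pool.Agent.Lib.MP_5932b0_an.AR.A4
import Pool.Agent.Lib.MP_5932b0_an.ST.H1

section

section

/-!
# C4: the monotonicity identity

Test FV with `g z = Xi (t z) • (z - y)`, `t z = gn (G Q) (z - y)` (`radial_contDiff`,
`radial_fderiv` with `L = 1`).  `g = 0` where `t ≥ r`, in particular outside `closedBall y (r/(1-3δ))`.
`tr (B * fderiv g) = Xi m ψ + (N/t²) ⟨G(z-y), B(z-y)⟩` (`tr_mul_rk`, `tr_B`), and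
`⟨G v, B v⟩ = t² (ψ - F)` for `t ≠ 0` (definition of `F`; `N = 0` if `t = 0`).  So
`tr (B * fderiv g) = ψ (m Xi + N) - N F = ψ (K_r - K_s) - N F`.
-/

noncomputable section

open MeasureTheory Metric Set Filter Topology

namespace Allard

variable {n m : ℕ} {δ : ℝ} {S : Stress n m δ} {α Λ : ℝ} {U : Set (E n)} {τ : ℝ} {η : ℝ → ℝ}

private theorem c4_meas (S : Stress n m δ) (Q : Op n) :
    Measurable (fun x : Op n × E n => S.F Q x.1 x.2) := by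
  unfold Stress.F
  have h1 : Continuous fun x : Op n × E n => (S.ψ x.1 • (1 : Op n) - S.B x.1) := by
    unfold Stress.B
    have a1 : Continuous fun x : Op n × E n => S.ψ x.1 := S.cψ.comp continuous_fst
    have a2 : Continuous fun x : Op n × E n => S.C x.1 := S.cC.comp continuous_fst
    exact (a1.smul continuous_const).sub ((a1.smul continuous_fst).add a2)
  have h2 : Continuous fun x : Op n × E n => (S.ψ x.1 • (1 : Op n) - S.B x.1) x.2 :=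
    h1.clm_apply continuous_snd
  have h3 : Continuous fun x : Op n × E n => inner ℝ (S.G Q x.2)
      ((S.ψ x.1 • (1 : Op n) - S.B x.1) x.2) :=
    ((S.G Q).continuous.comp continuous_snd).inner h2
  have h4 : Continuous fun x : Op n × E n => (gn (S.G Q) x.2) ^ 2 :=
    ((gn_continuous (S.G Q)).comp continuous_snd).pow 2
  exact h3.measurable.div h4.measurable

private theorem c4_Fmeas (V : Sys S α Λ U) (Q : Op n) (y : E n) :
    Measurable fun z => S.F Q (V.P z) (z - y) := by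
  have hsub : Measurable fun z : E n => z - y := measurable_id.sub_const y
  have hpair : Measurable fun z : E n => ((V.P z, z - y) : Op n × E n) := V.mP.prodMk hsub
  have h1 := (c4_meas S Q).comp hpair
  exact h1

private theorem c4_mul_smul (A B : Op n) (c : ℝ) : A * (c • B) = c • (A * B) := by
  ext1 v
  show A (c • B v) = c • A (B v)
  rw [map_smul]

/-- The trace of the first variation tensor against the derivative of the radial field. -/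
private theorem c4_tr (S : Stress n m δ) (h : Ker τ η) (hm : 1 ≤ m) (hδ : 0 ≤ δ)
    (hδ' : δ ≤ d0 n) {P Q : Op n} (hP : Pr n m P) (hQ : Pr n m Q) (v : E n) {s r : ℝ}
    (hs : 0 < s) (hr : s < r) :
    tr (S.B P * (Xi m η s r (gn (S.G Q) v) • (1 : Op n) +
      (Nn m η s r (gn (S.G Q) v) / (gn (S.G Q) v) ^ 2) • rk ((1 : Op n) v) (S.G Q v))) =
      (Kr m η r (gn (S.G Q) v) - Kr m η s (gn (S.G Q) v)) * S.ψ P -
        Nn m η s r (gn (S.G Q) v) * S.F Q P v := by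
  have h1 := Xi_rel h hm hs hr (t := gn (S.G Q) v) (Real.sqrt_nonneg _)
  rw [← h1, mul_add, tr_add, c4_mul_smul, c4_mul_smul, tr_smul, tr_smul, mul_one,
    tr_mul_rk, S.tr_B hP, show ((1 : Op n) v) = v from rfl]
  have h2 : gn (S.G Q) v ^ 2 = inner ℝ (S.G Q v) v := Real.sq_sqrt (S.G_form_nonneg hδ hδ' hQ v)
  have hg0 : 0 ≤ gn (S.G Q) v := Real.sqrt_nonneg _
  rcases hg0.eq_or_lt with h0 | h0
  · rw [← h0, Nn_small h hs hr (by linarith)]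
    ring
  · have h3 : inner ℝ (S.G Q v) (S.B P v) = gn (S.G Q) v ^ 2 * (S.ψ P - S.F Q P v) := by
      unfold Stress.F
      have h4 : inner ℝ (S.G Q v) ((S.ψ P • (1 : Op n) - S.B P) v) =
          S.ψ P * gn (S.G Q) v ^ 2 - inner ℝ (S.G Q v) (S.B P v) := by
        rw [sub_apply, smul_apply, inner_sub_right, inner_smul_right, h2]
        rfl
      rw [h4]
      field_simp
      ring
    rw [h3]
    field_simp
    ring

theorem Sys.MI (V : Sys S α Λ U) (h : Ker τ η) (hm : 1 ≤ m) (hδ : 0 ≤ δ) (hδ' : δ ≤ d0 n)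
    {Q : Op n} (hQ : Pr n m Q) (y : E n) {s r : ℝ} (hs : 0 < s) (hr : s < r)
    (hU : closedBall y (r / (1 - 3 * δ)) ⊆ U) :
    V.I η Q y r - V.I η Q y s =
      ∫ z, Nn m η s r (gn (S.G Q) (z - y)) * S.F Q (V.P z) (z - y) ∂V.μ +
      ∫ z, Xi m η s r (gn (S.G Q) (z - y)) * inner ℝ (V.H z) (z - y) ∂V.μ := by
  have hd := d0_le (n := n)
  have hδ1 : δ ≤ 1 / 100 := hδ'.trans hd
  have h13 : 0 < 1 - 3 * δ := by linarith
  have hr0 : 0 < r := hs.trans hr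
  obtain ⟨g, hg⟩ : ∃ g : E n → E n, g = fun z =>
    Xi m η s r (gn (S.G Q) (z - y)) • (1 : Op n) (z - y) := ⟨_, rfl⟩
  have hgc : ContDiff ℝ 1 g := by
    rw [hg]
    exact radial_contDiff h hm hs hr S.G_symm (S.G_form_nonneg hδ hδ' hQ) 1 y
  have hg0 : ∀ z, z ∉ closedBall y (r / (1 - 3 * δ)) → g z = 0 := by
    intro z hz
    rw [mem_closedBall, dist_eq_norm, not_le, div_lt_iff₀ h13] at hz
    have h1 := S.le_gn hδ hδ' hQ (z - y)
    rw [hg]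
    show Xi m η s r (gn (S.G Q) (z - y)) • (1 : Op n) (z - y) = 0
    rw [Xi_zero h hm hs hr (by linarith), zero_smul]
  have hgs : HasCompactSupport g := HasCompactSupport.intro (isCompact_closedBall y _) hg0
  have hgt : tsupport g ⊆ U := by
    refine (closure_minimal (fun z hz => ?_) isClosed_closedBall).trans hU
    by_contra hc
    exact hz (hg0 z hc)
  have hfv := V.fv g hgc hgs hgt
  -- measurability and bounds
  have hgnm : Measurable fun z => gn (S.G Q) (z - y) :=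
    ((gn_continuous (S.G Q)).comp (continuous_id.sub continuous_const)).measurable
  have hψm := V.measurable_ψ
  have hψb : ∀ z, |S.ψ (V.P z)| ≤ 1 + δ := fun z => by
    have := abs_le.1 (S.bψ _ (V.hP z))
    rw [abs_le]
    constructor <;> linarith [this.1, this.2]
  have hKi : ∀ ρ : ℝ, 0 < ρ →
      Integrable (fun z => Kr m η ρ (gn (S.G Q) (z - y)) * S.ψ (V.P z)) V.μ := by
    intro ρ hρ
    refine V.integrable_bdd (((continuous_Kr h ρ).measurable.comp hgnm).mul hψm)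
      (c := (ρ ^ m)⁻¹ * (1 + δ)) fun z => ?_
    rw [abs_mul, abs_of_nonneg (Kr_nonneg h hρ _)]
    exact mul_le_mul (Kr_le h hρ _) (hψb z) (abs_nonneg _) (by positivity)
  have hNF : Integrable (fun z => Nn m η s r (gn (S.G Q) (z - y)) *
      S.F Q (V.P z) (z - y)) V.μ := by
    have hFm := c4_Fmeas V Q y
    refine V.integrable_bdd (((continuous_Nn h hm hs hr).measurable.comp hgnm).mul hFm)
      (c := (2 / s) ^ m * 5) fun z => ?_
    have hN0 := Nn_nonneg h hm hs hr (t := gn (S.G Q) (z - y)) (Real.sqrt_nonneg _)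
    have hN1 := Nn_le' h hm hs hr (t := gn (S.G Q) (z - y)) (Real.sqrt_nonneg _)
    have hη := h.le_one (gn (S.G Q) (z - y) / r)
    have hN2 : Nn m η s r (gn (S.G Q) (z - y)) ≤ (2 / s) ^ m := by
      have h2s : 0 ≤ (2 / s) ^ m := by positivity
      nlinarith
    have f1 := S.F_low hδ hδ' (V.hP z) hQ (z - y)
    have f2 := S.F_up hδ hδ' (V.hP z) hQ (z - y)
    have f3 := ga_nonneg (P := V.P z) (z - y)
    have f4 := ga_le_one (V.hP z) (z - y)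
    have f5 := (V.hP z).norm_sub_le hQ
    have f6 : 60 * δ ^ 2 * ‖V.P z - Q‖ ^ 2 ≤ 1 := by
      have a1 : δ ^ 2 ≤ (1 / 100) ^ 2 := pow_le_pow_left₀ hδ hδ1 2
      have a2 : ‖V.P z - Q‖ ^ 2 ≤ 2 ^ 2 := pow_le_pow_left₀ (norm_nonneg _) f5 2
      have a3 : δ ^ 2 * ‖V.P z - Q‖ ^ 2 ≤ (1 / 100) ^ 2 * 2 ^ 2 :=
        mul_le_mul a1 a2 (by positivity) (by positivity)
      linarith
    have f7 : |S.F Q (V.P z) (z - y)| ≤ 5 := by
      rw [abs_le]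
      constructor <;> linarith
    rw [abs_mul, abs_of_nonneg hN0]
    exact mul_le_mul hN2 f7 (abs_nonneg _) (by positivity)
  have e1 : ∀ z, tr (S.B (V.P z) * fderiv ℝ g z) =
      (Kr m η r (gn (S.G Q) (z - y)) * S.ψ (V.P z) -
        Kr m η s (gn (S.G Q) (z - y)) * S.ψ (V.P z)) -
        Nn m η s r (gn (S.G Q) (z - y)) * S.F Q (V.P z) (z - y) := by
    intro z
    have hfd : fderiv ℝ g z = Xi m η s r (gn (S.G Q) (z - y)) • (1 : Op n) +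
        (Nn m η s r (gn (S.G Q) (z - y)) / (gn (S.G Q) (z - y)) ^ 2) •
          rk ((1 : Op n) (z - y)) (S.G Q (z - y)) := by
      rw [hg]
      exact radial_fderiv h hm hs hr S.G_symm (S.G_form_nonneg hδ hδ' hQ) 1 y z
    have h1 := c4_tr S h hm hδ hδ' (V.hP z) hQ (z - y) hs hr
    rw [← hfd] at h1
    rw [h1]
    ring
  have e2 : ∀ z, inner ℝ (V.H z) (g z) =
      Xi m η s r (gn (S.G Q) (z - y)) * inner ℝ (V.H z) (z - y) := by
    intro z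
    rw [hg]
    show inner ℝ (V.H z) (Xi m η s r (gn (S.G Q) (z - y)) • (1 : Op n) (z - y)) = _
    rw [inner_smul_right]
    rfl
  have e3 : ∫ z, ((Kr m η r (gn (S.G Q) (z - y)) * S.ψ (V.P z) -
        Kr m η s (gn (S.G Q) (z - y)) * S.ψ (V.P z)) -
        Nn m η s r (gn (S.G Q) (z - y)) * S.F Q (V.P z) (z - y)) ∂V.μ =
      (∫ z, (Kr m η r (gn (S.G Q) (z - y)) * S.ψ (V.P z) -
        Kr m η s (gn (S.G Q) (z - y)) * S.ψ (V.P z)) ∂V.μ) -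
        ∫ z, Nn m η s r (gn (S.G Q) (z - y)) * S.F Q (V.P z) (z - y) ∂V.μ :=
    integral_sub ((hKi r hr0).sub (hKi s hs)) hNF
  rw [integral_congr_ae (Eventually.of_forall e1), integral_congr_ae (Eventually.of_forall e2),
    e3, integral_sub (hKi r hr0) (hKi s hs)] at hfv
  unfold Sys.I
  linarith

end Allard
end
end

section

/-!
# C5: monotonicity inequalities

From `Sys.MI`, `Stress.F_low`, `Stress.F_up`, `Nn_nonneg`, and `|⟨H, z-y⟩| ≤ ‖H‖ ‖z-y‖`.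
Integrability: `Nn`, `Xi` are bounded (`Nn_le'`, `abs_Xi_le`), `H` integrable, and
`Xi = 0` unless `gn < r` so `|Xi| ‖z-y‖` is bounded.

`curv_le`: where `Xi ≠ 0`, `gn < r`, `‖z-y‖ ≤ gn/(1-3δ) ≤ 2 r`.  `abs_Xi_le` gives
`|Xi| ‖z-y‖ ≤ 2 r (s^m)⁻¹ η(gn/r)`; then `Sys.hb` with `f = η (gn/r)`, and `kr_le_I`
(`∫ η(gn/r) dμ = r^m ∫ Kr ≤ 2 r^m I`).
-/

noncomputable section

open MeasureTheory Metric Set Filter Topology

namespace Allard

variable {n m : ℕ} {δ : ℝ} {S : Stress n m δ} {α Λ : ℝ} {U : Set (E n)} {τ : ℝ} {η : ℝ → ℝ}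

private lemma c5_gn_nonneg (G : Op n) (z : E n) : 0 ≤ gn G z := Real.sqrt_nonneg _

private lemma c5_gn_meas (G : Op n) (y : E n) : Measurable fun z : E n => gn G (z - y) :=
  ((gn_continuous G).comp (continuous_id.sub continuous_const)).measurable

private lemma c5_N_meas (h : Ker τ η) (hm : 1 ≤ m) {s r : ℝ} (hs : 0 < s) (hr : s < r)
    (G : Op n) (y : E n) : Measurable fun z : E n => Nn m η s r (gn G (z - y)) :=
  (continuous_Nn h hm hs hr).measurable.comp (c5_gn_meas G y)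

private lemma c5_X_meas (h : Ker τ η) (hm : 1 ≤ m) {s r : ℝ} (hs : 0 < s) (hr : s < r)
    (G : Op n) (y : E n) : Measurable fun z : E n => Xi m η s r (gn G (z - y)) :=
  (Xi_contDiff h hm hs hr).continuous.measurable.comp (c5_gn_meas G y)

private lemma c5_N_bd (h : Ker τ η) (hm : 1 ≤ m) {s r : ℝ} (hs : 0 < s) (hr : s < r)
    (G : Op n) (y z : E n) : |Nn m η s r (gn G (z - y))| ≤ (2 / s) ^ m := by
  rw [abs_of_nonneg (Nn_nonneg h hm hs hr (c5_gn_nonneg _ _))]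
  refine (Nn_le' h hm hs hr (c5_gn_nonneg _ _)).trans ?_
  exact mul_le_of_le_one_right (by positivity) (h.le_one _)

private lemma c5_X_bd (h : Ker τ η) (hm : 1 ≤ m) (hδ : 0 ≤ δ) (hδ' : δ ≤ d0 n)
    {Q : Op n} (hQ : Pr n m Q) {s r : ℝ} (hs : 0 < s) (hr : s < r) (y z : E n) :
    |Xi m η s r (gn (S.G Q) (z - y))| * ‖z - y‖ ≤
      2 * r * (s ^ m)⁻¹ * η (gn (S.G Q) (z - y) / r) := by
  have hr0 : 0 < r := hs.trans hr
  have hd := d0_le (n := n)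
  rcases le_or_gt r (gn (S.G Q) (z - y)) with h1 | h1
  · rw [Xi_zero h hm hs hr h1, abs_zero, zero_mul]
    have := h.nonneg (gn (S.G Q) (z - y) / r)
    positivity
  · have h2 := S.le_gn hδ hδ' hQ (z - y)
    have h3 : ‖z - y‖ ≤ 2 * r := by
      have h4 : 0 ≤ ‖z - y‖ := norm_nonneg _
      nlinarith
    have h4 := abs_Xi_le (η := η) h hm hs hr (c5_gn_nonneg (S.G Q) (z - y))
    have h5 := h.nonneg (gn (S.G Q) (z - y) / r)
    calc |Xi m η s r (gn (S.G Q) (z - y))| * ‖z - y‖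
        ≤ ((s ^ m)⁻¹ * η (gn (S.G Q) (z - y) / r)) * (2 * r) :=
          mul_le_mul h4 h3 (norm_nonneg _) (by positivity)
      _ = _ := by ring

private lemma c5_X_bd2 (h : Ker τ η) (hm : 1 ≤ m) (hδ : 0 ≤ δ) (hδ' : δ ≤ d0 n)
    {Q : Op n} (hQ : Pr n m Q) {s r : ℝ} (hs : 0 < s) (hr : s < r) (y z : E n) :
    |Xi m η s r (gn (S.G Q) (z - y))| * ‖z - y‖ ≤ 2 * r * (s ^ m)⁻¹ := by
  have hr0 : 0 < r := hs.trans hr
  refine (c5_X_bd h hm hδ hδ' hQ hs hr y z).trans ?_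
  exact mul_le_of_le_one_right (by positivity) (h.le_one _)

private lemma c5_X_int (V : Sys S α Λ U) (h : Ker τ η) (hm : 1 ≤ m) (hδ : 0 ≤ δ)
    (hδ' : δ ≤ d0 n) {Q : Op n} (hQ : Pr n m Q) (y : E n) {s r : ℝ} (hs : 0 < s) (hr : s < r) :
    Integrable (fun z => |Xi m η s r (gn (S.G Q) (z - y))| * ‖z - y‖ * ‖V.H z‖) V.μ := by
  have hr0 : 0 < r := hs.trans hr
  refine (V.iH.norm.const_mul (2 * r * (s ^ m)⁻¹)).mono' ?_ ?_
  · exact (((c5_X_meas h hm hs hr _ y).abs.mul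
      (measurable_id.sub measurable_const).norm).mul V.mH.norm).aestronglyMeasurable
  · filter_upwards with z
    rw [Real.norm_eq_abs, abs_of_nonneg (by positivity)]
    exact mul_le_mul_of_nonneg_right (c5_X_bd2 h hm hδ hδ' hQ hs hr y z) (norm_nonneg _)

private lemma c5_X_int' (V : Sys S α Λ U) (h : Ker τ η) (hm : 1 ≤ m) (hδ : 0 ≤ δ)
    (hδ' : δ ≤ d0 n) {Q : Op n} (hQ : Pr n m Q) (y : E n) {s r : ℝ} (hs : 0 < s) (hr : s < r) :
    Integrable (fun z => Xi m η s r (gn (S.G Q) (z - y)) * inner ℝ (V.H z) (z - y)) V.μ := by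
  refine (c5_X_int V h hm hδ hδ' hQ y hs hr).mono' ?_ ?_
  · exact ((c5_X_meas h hm hs hr _ y).mul
      (V.mH.inner (measurable_id.sub measurable_const))).aestronglyMeasurable
  · filter_upwards with z
    rw [norm_mul, Real.norm_eq_abs, mul_assoc]
    refine mul_le_mul_of_nonneg_left ?_ (abs_nonneg _)
    rw [mul_comm]
    exact norm_inner_le_norm _ _

private lemma c5_F_meas (V : Sys S α Λ U) (Q : Op n) (y : E n) :
    Measurable fun z => S.F Q (V.P z) (z - y) := by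
  have hc : Continuous fun x : Op n × E n =>
      (inner ℝ (S.G Q x.2) ((S.ψ x.1 • (1 : Op n) - S.B x.1) x.2) : ℝ) := by
    have h1 : Continuous fun x : Op n × E n => S.ψ x.1 • (1 : Op n) - S.B x.1 := by
      unfold Stress.B
      exact ((S.cψ.comp continuous_fst).smul continuous_const).sub
        (((S.cψ.comp continuous_fst).smul continuous_fst).add (S.cC.comp continuous_fst))
    exact ((S.G Q).continuous.comp continuous_snd).inner (h1.clm_apply continuous_snd)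
  have hp : Measurable fun z : E n => (V.P z, z - y) :=
    V.mP.prodMk (measurable_id.sub measurable_const)
  unfold Stress.F
  exact (hc.measurable.comp hp).div ((c5_gn_meas _ y).pow_const 2)

private lemma c5_PQ (V : Sys S α Λ U) {Q : Op n} (hQ : Pr n m Q) (z : E n) :
    ‖V.P z - Q‖ ^ 2 ≤ 4 := by
  have h1 := (V.hP z).norm_sub_le hQ
  have h2 := norm_nonneg (V.P z - Q)
  nlinarith

private lemma c5_i1 (V : Sys S α Λ U) (h : Ker τ η) (hm : 1 ≤ m) (Q : Op n) (y : E n)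
    {s r : ℝ} (hs : 0 < s) (hr : s < r) :
    Integrable (fun z => Nn m η s r (gn (S.G Q) (z - y)) * ga (V.P z) (z - y)) V.μ := by
  refine V.integrable_bdd ((c5_N_meas h hm hs hr _ y).mul (V.measurable_ga y))
    (c := (2 / s) ^ m) fun z => ?_
  rw [abs_mul]
  refine (mul_le_mul (c5_N_bd h hm hs hr _ y z) (c := |ga (V.P z) (z - y)|) (d := 1) ?_
    (abs_nonneg _) (by positivity)).trans (by rw [mul_one])
  rw [abs_of_nonneg (ga_nonneg _)]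
  exact ga_le_one (V.hP z) _

private lemma c5_i2 (V : Sys S α Λ U) (h : Ker τ η) (hm : 1 ≤ m) {Q : Op n} (hQ : Pr n m Q)
    (y : E n) {s r : ℝ} (hs : 0 < s) (hr : s < r) :
    Integrable (fun z => Nn m η s r (gn (S.G Q) (z - y)) * ‖V.P z - Q‖ ^ 2) V.μ := by
  refine V.integrable_bdd ((c5_N_meas h hm hs hr _ y).mul
    ((V.mP.sub measurable_const).norm.pow_const 2)) (c := (2 / s) ^ m * 4) fun z => ?_
  rw [abs_mul]
  refine mul_le_mul (c5_N_bd h hm hs hr _ y z) ?_ (abs_nonneg _) (by positivity)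
  rw [abs_of_nonneg (by positivity)]
  exact c5_PQ V hQ z

private lemma c5_i3 (V : Sys S α Λ U) (h : Ker τ η) (hm : 1 ≤ m) (hδ : 0 ≤ δ)
    (hδ' : δ ≤ d0 n) {Q : Op n} (hQ : Pr n m Q)
    (y : E n) {s r : ℝ} (hs : 0 < s) (hr : s < r) :
    Integrable (fun z => Nn m η s r (gn (S.G Q) (z - y)) * S.F Q (V.P z) (z - y)) V.μ := by
  have hd := d0_le (n := n)
  refine V.integrable_bdd ((c5_N_meas h hm hs hr _ y).mul (c5_F_meas V Q y))
    (c := (2 / s) ^ m * 10) fun z => ?_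
  rw [abs_mul]
  refine mul_le_mul (c5_N_bd h hm hs hr _ y z) ?_ (abs_nonneg _) (by positivity)
  have h1 := S.F_low hδ hδ' (V.hP z) hQ (z - y)
  have h2 := S.F_up hδ hδ' (V.hP z) hQ (z - y)
  have h3 := c5_PQ V hQ z
  have h4 := ga_nonneg (P := V.P z) (z - y)
  have h5 := ga_le_one (V.hP z) (z - y)
  have h6 : 0 ≤ ‖V.P z - Q‖ ^ 2 := by positivity
  have h7 : δ ^ 2 ≤ 1 / 10000 := by nlinarith
  have h8 : 60 * δ ^ 2 * ‖V.P z - Q‖ ^ 2 ≤ 60 * (1 / 10000) * 4 := by gcongr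
  rw [abs_le]
  constructor <;> linarith

theorem Sys.MI_low (V : Sys S α Λ U) (h : Ker τ η) (hm : 1 ≤ m) (hδ : 0 ≤ δ) (hδ' : δ ≤ d0 n)
    {Q : Op n} (hQ : Pr n m Q) (y : E n) {s r : ℝ} (hs : 0 < s) (hr : s < r)
    (hU : closedBall y (r / (1 - 3 * δ)) ⊆ U) :
    1 / 3 * ∫ z, Nn m η s r (gn (S.G Q) (z - y)) * ga (V.P z) (z - y) ∂V.μ
      - 60 * δ ^ 2 * ∫ z, Nn m η s r (gn (S.G Q) (z - y)) * ‖V.P z - Q‖ ^ 2 ∂V.μ
      - ∫ z, |Xi m η s r (gn (S.G Q) (z - y))| * ‖z - y‖ * ‖V.H z‖ ∂V.μ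
      ≤ V.I η Q y r - V.I η Q y s := by
  rw [V.MI h hm hδ hδ' hQ y hs hr hU]
  have i1 := c5_i1 V h hm Q y hs hr
  have i2 := c5_i2 V h hm hQ y hs hr
  have i3 := c5_i3 V h hm hδ hδ' hQ y hs hr
  have i4 := c5_X_int V h hm hδ hδ' hQ y hs hr
  have i5 := c5_X_int' V h hm hδ hδ' hQ y hs hr
  have h1 : 1 / 3 * ∫ z, Nn m η s r (gn (S.G Q) (z - y)) * ga (V.P z) (z - y) ∂V.μ
      - 60 * δ ^ 2 * ∫ z, Nn m η s r (gn (S.G Q) (z - y)) * ‖V.P z - Q‖ ^ 2 ∂V.μ ≤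
      ∫ z, Nn m η s r (gn (S.G Q) (z - y)) * S.F Q (V.P z) (z - y) ∂V.μ := by
    rw [← integral_const_mul, ← integral_const_mul, ← integral_sub (i1.const_mul _)
      (i2.const_mul _)]
    refine integral_mono ((i1.const_mul _).sub (i2.const_mul _)) i3 fun z => ?_
    have h2 := mul_le_mul_of_nonneg_left (S.F_low hδ hδ' (V.hP z) hQ (z - y))
      (Nn_nonneg h hm hs hr (c5_gn_nonneg (S.G Q) (z - y)))
    simp only
    linarith
  have h2 : -∫ z, |Xi m η s r (gn (S.G Q) (z - y))| * ‖z - y‖ * ‖V.H z‖ ∂V.μ ≤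
      ∫ z, Xi m η s r (gn (S.G Q) (z - y)) * inner ℝ (V.H z) (z - y) ∂V.μ := by
    rw [← integral_neg]
    refine integral_mono i4.neg i5 fun z => ?_
    have h3 : |Xi m η s r (gn (S.G Q) (z - y)) * inner ℝ (V.H z) (z - y)| ≤
        |Xi m η s r (gn (S.G Q) (z - y))| * ‖z - y‖ * ‖V.H z‖ := by
      rw [abs_mul, mul_assoc]
      refine mul_le_mul_of_nonneg_left ?_ (abs_nonneg _)
      rw [mul_comm]
      exact abs_real_inner_le_norm _ _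
    exact (abs_le.mp h3).1
  linarith

theorem Sys.MI_up (V : Sys S α Λ U) (h : Ker τ η) (hm : 1 ≤ m) (hδ : 0 ≤ δ) (hδ' : δ ≤ d0 n)
    {Q : Op n} (hQ : Pr n m Q) (y : E n) {s r : ℝ} (hs : 0 < s) (hr : s < r)
    (hU : closedBall y (r / (1 - 3 * δ)) ⊆ U) :
    V.I η Q y r - V.I η Q y s ≤
      3 * ∫ z, Nn m η s r (gn (S.G Q) (z - y)) * ga (V.P z) (z - y) ∂V.μ
      + 60 * δ ^ 2 * ∫ z, Nn m η s r (gn (S.G Q) (z - y)) * ‖V.P z - Q‖ ^ 2 ∂V.μ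
      + ∫ z, |Xi m η s r (gn (S.G Q) (z - y))| * ‖z - y‖ * ‖V.H z‖ ∂V.μ := by
  rw [V.MI h hm hδ hδ' hQ y hs hr hU]
  have i1 := c5_i1 V h hm Q y hs hr
  have i2 := c5_i2 V h hm hQ y hs hr
  have i3 := c5_i3 V h hm hδ hδ' hQ y hs hr
  have i4 := c5_X_int V h hm hδ hδ' hQ y hs hr
  have i5 := c5_X_int' V h hm hδ hδ' hQ y hs hr
  have h1 : ∫ z, Nn m η s r (gn (S.G Q) (z - y)) * S.F Q (V.P z) (z - y) ∂V.μ ≤
      3 * ∫ z, Nn m η s r (gn (S.G Q) (z - y)) * ga (V.P z) (z - y) ∂V.μ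
      + 60 * δ ^ 2 * ∫ z, Nn m η s r (gn (S.G Q) (z - y)) * ‖V.P z - Q‖ ^ 2 ∂V.μ := by
    rw [← integral_const_mul, ← integral_const_mul, ← integral_add (i1.const_mul _)
      (i2.const_mul _)]
    refine integral_mono i3 ((i1.const_mul _).add (i2.const_mul _)) fun z => ?_
    have h2 := mul_le_mul_of_nonneg_left (S.F_up hδ hδ' (V.hP z) hQ (z - y))
      (Nn_nonneg h hm hs hr (c5_gn_nonneg (S.G Q) (z - y)))
    simp only
    linarith
  have h2 : ∫ z, Xi m η s r (gn (S.G Q) (z - y)) * inner ℝ (V.H z) (z - y) ∂V.μ ≤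
      ∫ z, |Xi m η s r (gn (S.G Q) (z - y))| * ‖z - y‖ * ‖V.H z‖ ∂V.μ := by
    refine integral_mono i5 i4 fun z => ?_
    have h3 : |Xi m η s r (gn (S.G Q) (z - y)) * inner ℝ (V.H z) (z - y)| ≤
        |Xi m η s r (gn (S.G Q) (z - y))| * ‖z - y‖ * ‖V.H z‖ := by
      rw [abs_mul, mul_assoc]
      refine mul_le_mul_of_nonneg_left ?_ (abs_nonneg _)
      rw [mul_comm]
      exact abs_real_inner_le_norm _ _
    exact (abs_le.mp h3).2
  linarith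

private lemma c5_eta (V : Sys S α Λ U) (h : Ker τ η) (hδ : 0 ≤ δ)
    (hδ' : δ ≤ d0 n) {Q : Op n} (hQ : Pr n m Q) (y : E n) {r : ℝ} (hr : 0 < r) :
    ∫ z, η (gn (S.G Q) (z - y) / r) ∂V.μ ≤ r ^ m * (2 * V.I η Q y r) := by
  have h1 := V.kr_le_I h hδ hδ' hQ y hr
  have h2 : ∫ z, Kr m η r (gn (S.G Q) (z - y)) ∂V.μ =
      (r ^ m)⁻¹ * ∫ z, η (gn (S.G Q) (z - y) / r) ∂V.μ := by
    rw [← integral_const_mul]
    rfl
  rw [h2, inv_mul_le_iff₀ (by positivity)] at h1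
  exact h1

theorem Sys.curv_le (V : Sys S α Λ U) (h : Ker τ η) (hm : 1 ≤ m) (hδ : 0 ≤ δ)
    (hδ' : δ ≤ d0 n) (hΛ : 0 ≤ Λ) {Q : Op n} (hQ : Pr n m Q) (y : E n) {s r : ℝ} (hs : 0 < s)
    (hr : s < r) :
    ∫ z, |Xi m η s r (gn (S.G Q) (z - y))| * ‖z - y‖ * ‖V.H z‖ ∂V.μ
      ≤ 2 * (r / s) ^ m * (Λ * r ^ α) * (1 + 2 * V.I η Q y r) := by
  have hr0 : 0 < r := hs.trans hr
  have hηm : Measurable fun z : E n => η (gn (S.G Q) (z - y) / r) :=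
    h.cont.measurable.comp ((c5_gn_meas _ y).div_const r)
  have h1 : ∫ z, |Xi m η s r (gn (S.G Q) (z - y))| * ‖z - y‖ * ‖V.H z‖ ∂V.μ ≤
      2 * (s ^ m)⁻¹ * (r * ∫ z, η (gn (S.G Q) (z - y) / r) * ‖V.H z‖ ∂V.μ) := by
    have e1 : 2 * (s ^ m)⁻¹ * (r * ∫ z, η (gn (S.G Q) (z - y) / r) * ‖V.H z‖ ∂V.μ) =
        ∫ z, (2 * r * (s ^ m)⁻¹) * (η (gn (S.G Q) (z - y) / r) * ‖V.H z‖) ∂V.μ := by
      rw [integral_const_mul]
      ring
    rw [e1]
    have i6 : Integrable (fun z => η (gn (S.G Q) (z - y) / r) * ‖V.H z‖) V.μ := by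
      refine V.iH.norm.mono' (hηm.mul V.mH.norm).aestronglyMeasurable ?_
      filter_upwards with z
      rw [norm_mul, norm_norm, Real.norm_eq_abs, abs_of_nonneg (h.nonneg _)]
      exact mul_le_of_le_one_left (norm_nonneg _) (h.le_one _)
    refine integral_mono (c5_X_int V h hm hδ hδ' hQ y hs hr) (i6.const_mul _) fun z => ?_
    have h2 := mul_le_mul_of_nonneg_right (c5_X_bd (S := S) h hm hδ hδ' hQ hs hr y z)
      (norm_nonneg (V.H z))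
    simp only
    linarith
  have h2 := V.hb (fun z => η (gn (S.G Q) (z - y) / r)) hηm (fun z => h.nonneg _)
    (fun z => h.le_one _) r hr0
  have h3 := c5_eta V h hδ hδ' hQ y hr0
  have hΛr : 0 ≤ Λ * r ^ α := mul_nonneg hΛ (Real.rpow_nonneg hr0.le _)
  calc ∫ z, |Xi m η s r (gn (S.G Q) (z - y))| * ‖z - y‖ * ‖V.H z‖ ∂V.μ
      ≤ 2 * (s ^ m)⁻¹ * (r * ∫ z, η (gn (S.G Q) (z - y) / r) * ‖V.H z‖ ∂V.μ) := h1
    _ ≤ 2 * (s ^ m)⁻¹ * (Λ * r ^ α * (r ^ m + ∫ z, η (gn (S.G Q) (z - y) / r) ∂V.μ)) :=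
        mul_le_mul_of_nonneg_left h2 (by positivity)
    _ ≤ 2 * (s ^ m)⁻¹ * (Λ * r ^ α * (r ^ m + r ^ m * (2 * V.I η Q y r))) := by
        refine mul_le_mul_of_nonneg_left (mul_le_mul_of_nonneg_left ?_ hΛr) (by positivity)
        linarith
    _ = 2 * (r / s) ^ m * (Λ * r ^ α) * (1 + 2 * V.I η Q y r) := by
        rw [div_pow]
        ring

/-- The curvature term in terms of `hh` (comparable radii). -/
theorem Sys.curv_le' (V : Sys S α Λ U) (h : Ker τ η) (hm : 1 ≤ m) (hδ : 0 ≤ δ)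
    (hδ' : δ ≤ d0 n) {Q : Op n} (hQ : Pr n m Q) (y : E n) {s r : ℝ} (hs : 0 < s)
    (hr : s < r) :
    ∫ z, |Xi m η s r (gn (S.G Q) (z - y))| * ‖z - y‖ * ‖V.H z‖ ∂V.μ
      ≤ 2 * (2 * r / s) ^ m * V.hh (2 * r) y := by
  have hr0 : 0 < r := hs.trans hr
  have hd := d0_le (n := n)
  have h1 : ∫ z, |Xi m η s r (gn (S.G Q) (z - y))| * ‖z - y‖ * ‖V.H z‖ ∂V.μ ≤
      (2 * r * (s ^ m)⁻¹) * ∫ z in ball y (2 * r), ‖V.H z‖ ∂V.μ := by
    rw [← integral_const_mul, ← integral_indicator measurableSet_ball]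
    refine integral_mono (c5_X_int V h hm hδ hδ' hQ y hs hr)
      ((V.iH.norm.const_mul _).indicator measurableSet_ball) fun z => ?_
    simp only
    by_cases hz : z ∈ ball y (2 * r)
    · rw [indicator_of_mem hz]
      exact mul_le_mul_of_nonneg_right (c5_X_bd2 h hm hδ hδ' hQ hs hr y z) (norm_nonneg _)
    · rw [indicator_of_notMem hz]
      rw [mem_ball, dist_eq_norm, not_lt] at hz
      have h2 := S.le_gn hδ hδ' hQ (z - y)
      have h3 : r ≤ gn (S.G Q) (z - y) := by nlinarith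
      rw [Xi_zero h hm hs hr h3, abs_zero, zero_mul, zero_mul]
  refine h1.trans ?_
  have h4 : 0 ≤ ∫ z in ball y (2 * r), ‖V.H z‖ ∂V.μ := integral_nonneg fun z => norm_nonneg _
  have e1 : 2 * (2 * r / s) ^ m * V.hh (2 * r) y =
      2 * ((2 * r * (s ^ m)⁻¹) * ∫ z in ball y (2 * r), ‖V.H z‖ ∂V.μ) := by
    unfold Sys.hh
    rw [div_pow]
    have : (2 * r) ^ m ≠ 0 := by positivity
    field_simp
  rw [e1]
  have h5 : 0 ≤ (2 * r * (s ^ m)⁻¹) * ∫ z in ball y (2 * r), ‖V.H z‖ ∂V.μ :=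
    mul_nonneg (by positivity) h4
  linarith

theorem Sys.Nn_int_le (V : Sys S α Λ U) (h : Ker τ η) (hm : 1 ≤ m) (hδ : 0 ≤ δ)
    (hδ' : δ ≤ d0 n) {Q : Op n} (hQ : Pr n m Q) (y : E n) {s r : ℝ} (hs : 0 < s)
    (hr : s < r) :
    ∫ z, Nn m η s r (gn (S.G Q) (z - y)) ∂V.μ ≤ 2 * (2 * r / s) ^ m * V.I η Q y r := by
  have hr0 : 0 < r := hs.trans hr
  have hηm : Measurable fun z : E n => η (gn (S.G Q) (z - y) / r) :=
    h.cont.measurable.comp ((c5_gn_meas _ y).div_const r)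
  have i1 : Integrable (fun z => Nn m η s r (gn (S.G Q) (z - y))) V.μ :=
    V.integrable_bdd (c5_N_meas h hm hs hr _ y) fun z => c5_N_bd h hm hs hr _ y z
  have i2 : Integrable (fun z => η (gn (S.G Q) (z - y) / r)) V.μ :=
    V.integrable_bdd hηm (c := 1) fun z => by
      rw [abs_of_nonneg (h.nonneg _)]
      exact h.le_one _
  calc ∫ z, Nn m η s r (gn (S.G Q) (z - y)) ∂V.μ
      ≤ ∫ z, (2 / s) ^ m * η (gn (S.G Q) (z - y) / r) ∂V.μ :=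
        integral_mono i1 (i2.const_mul _) fun z => Nn_le' h hm hs hr (c5_gn_nonneg _ _)
    _ = (2 / s) ^ m * ∫ z, η (gn (S.G Q) (z - y) / r) ∂V.μ := integral_const_mul _ _
    _ ≤ (2 / s) ^ m * (r ^ m * (2 * V.I η Q y r)) :=
        mul_le_mul_of_nonneg_left (c5_eta V h hδ hδ' hQ y hr0) (by positivity)
    _ = 2 * (2 * r / s) ^ m * V.I η Q y r := by
        rw [div_pow, div_pow, mul_pow]
        ring

end Allard
end
end
end

section

section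

/-!
# A5: triple algebra

`q` is a seminorm.  If `e₁ ≥ c/2` the claim is trivial (`‖P₁-P₂‖ ≤ 2`).  Otherwise let `e` be a
unit vector of `range P₁` with `w := (1-P₂) e ≠ 0`, `f := w/‖w‖`, `P₂ f = 0`.
`q (P₁ f) ≤ q f + q ((1-P₁) f) ≤ √e₂ + √e₁`; `‖P₁ f‖ ≥ ⟨P₁ f, e⟩ = ⟨f, e⟩ = ‖w‖`.
`e' := P₁ f / ‖P₁ f‖` gives `c/2 ≤ q(e')² ≤ (√e₁+√e₂)²/‖w‖²`, so `‖w‖² ≤ 4 (e₁+e₂)/c`.
Hence `‖(1-P₂) P₁‖² ≤ 4 (e₁+e₂)/c` (apply to `e = P₁ x/‖P₁ x‖`), and
`‖P₁-P₂‖² ≤ 2 tilt P₁ P₂ ≤ 2 m ‖(1-P₂) P₁‖²`.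
-/

noncomputable section

open MeasureTheory Metric Set Filter Topology

namespace Allard

variable {n m : ℕ}

private theorem A5_unit {P₁ P₂ : Op n} (h₁ : Pr n m P₁) (h₂ : Pr n m P₂)
    (q : E n → ℝ) (q0 : ∀ x, 0 ≤ q x) (qadd : ∀ x y, q (x + y) ≤ q x + q y)
    (qsm : ∀ (c : ℝ) x, q (c • x) = |c| * q x)
    {e₁ e₂ c : ℝ} (he₁ : 0 ≤ e₁) (he₂ : 0 ≤ e₂) (hc : 0 < c) (hec : e₁ < c / 2)
    (k₁ : ∀ x, P₁ x = 0 → q x ^ 2 ≤ e₁ * ‖x‖ ^ 2)
    (k₂ : ∀ x, P₂ x = 0 → q x ^ 2 ≤ e₂ * ‖x‖ ^ 2)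
    (k₃ : ∀ e, P₁ e = e → ‖e‖ = 1 → c ≤ e₁ + q e ^ 2)
    (x : E n) : ‖(1 - P₂) (P₁ x)‖ ^ 2 ≤ 4 * (e₁ + e₂) / c * ‖P₁ x‖ ^ 2 := by
  set e : E n := P₁ x with he
  have hPe : P₁ e = e := h₁.apply_apply x
  set w : E n := (1 - P₂) e with hw
  have hK : 0 ≤ 4 * (e₁ + e₂) / c := by positivity
  by_cases hw0 : w = 0
  · rw [hw0, norm_zero, zero_pow two_ne_zero]
    positivity
  have hwn : 0 < ‖w‖ := norm_pos_iff.2 hw0
  have hP₂w : P₂ w = 0 := h₂.perp_apply e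
  have hq1 : q w ^ 2 ≤ e₂ * ‖w‖ ^ 2 := k₂ w hP₂w
  have hq2 : q ((1 - P₁) w) ^ 2 ≤ e₁ * ‖w‖ ^ 2 := by
    refine (k₁ _ (h₁.perp_apply w)).trans ?_
    have h3 := h₁.perp_norm_apply_le w
    gcongr
  have hq3 : q (P₁ w) ≤ q w + q ((1 - P₁) w) := by
    have h4 : P₁ w = w + (-1 : ℝ) • ((1 - P₁) w) := by
      have h5 : (1 - P₁) w = w - P₁ w := rfl
      rw [h5, neg_one_smul]
      abel
    rw [h4]
    refine (qadd _ _).trans ?_
    rw [qsm]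
    simp
  have hq4 : q (P₁ w) ^ 2 ≤ 2 * (e₁ + e₂) * ‖w‖ ^ 2 := by
    have h5 : q (P₁ w) ^ 2 ≤ (q w + q ((1 - P₁) w)) ^ 2 := pow_le_pow_left₀ (q0 _) hq3 2
    nlinarith [sq_nonneg (q w - q ((1 - P₁) w))]
  -- inner product
  have hin : inner ℝ (P₁ w) e = ‖w‖ ^ 2 := by
    rw [h₁.inner_symm, hPe]
    have h6 : inner ℝ w e = inner ℝ w w + inner ℝ w (P₂ e) := by
      rw [← inner_add_right]
      congr 1
      have h5 : w = e - P₂ e := rfl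
      rw [h5]
      abel
    rw [h6, ← h₂.inner_symm, hP₂w, inner_zero_left, add_zero, real_inner_self_eq_norm_sq]
  have hcs : ‖w‖ ^ 2 ≤ ‖P₁ w‖ * ‖e‖ := by
    rw [← hin]
    exact real_inner_le_norm _ _
  have hPw : 0 < ‖P₁ w‖ := by
    rcases (norm_nonneg (P₁ w)).eq_or_lt with h | h
    · rw [← h, zero_mul] at hcs
      nlinarith
    · exact h
  have hk := k₃ ((‖P₁ w‖⁻¹ : ℝ) • P₁ w) (by rw [map_smul, h₁.apply_apply]) (by
    rw [norm_smul, norm_inv, norm_norm, inv_mul_cancel₀ hPw.ne'])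
  rw [qsm, abs_of_pos (inv_pos.2 hPw)] at hk
  have hk2 : c / 2 * ‖P₁ w‖ ^ 2 ≤ q (P₁ w) ^ 2 := by
    have h7 : c / 2 ≤ (‖P₁ w‖⁻¹ * q (P₁ w)) ^ 2 := by linarith
    calc c / 2 * ‖P₁ w‖ ^ 2 ≤ (‖P₁ w‖⁻¹ * q (P₁ w)) ^ 2 * ‖P₁ w‖ ^ 2 := by gcongr
      _ = q (P₁ w) ^ 2 := by
        field_simp
  have h8 : c / 2 * ‖P₁ w‖ ^ 2 ≤ 2 * (e₁ + e₂) * ‖w‖ ^ 2 := hk2.trans hq4
  have h9 : (‖w‖ ^ 2) ^ 2 ≤ (‖P₁ w‖ * ‖e‖) ^ 2 := pow_le_pow_left₀ (by positivity) hcs 2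
  -- conclusion
  rw [div_mul_eq_mul_div, le_div_iff₀ hc]
  have h10 : c / 2 * (‖w‖ ^ 2) ^ 2 ≤ 2 * (e₁ + e₂) * ‖w‖ ^ 2 * ‖e‖ ^ 2 := by
    calc c / 2 * (‖w‖ ^ 2) ^ 2 ≤ c / 2 * (‖P₁ w‖ * ‖e‖) ^ 2 := by gcongr
      _ = (c / 2 * ‖P₁ w‖ ^ 2) * ‖e‖ ^ 2 := by ring
      _ ≤ (2 * (e₁ + e₂) * ‖w‖ ^ 2) * ‖e‖ ^ 2 := by gcongr
      _ = _ := by ring
  have h11 : 0 < ‖w‖ ^ 2 := by positivity
  have h12 : (‖w‖ ^ 2 * c) * ‖w‖ ^ 2 ≤ (4 * (e₁ + e₂) * ‖e‖ ^ 2) * ‖w‖ ^ 2 := by nlinarith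
  exact le_of_mul_le_mul_right h12 h11

theorem triple_algebra (hm : 1 ≤ m) {P₁ P₂ : Op n} (h₁ : Pr n m P₁) (h₂ : Pr n m P₂)
    (q : E n → ℝ) (q0 : ∀ x, 0 ≤ q x) (qadd : ∀ x y, q (x + y) ≤ q x + q y)
    (qsm : ∀ (c : ℝ) x, q (c • x) = |c| * q x)
    {e₁ e₂ c : ℝ} (he₁ : 0 ≤ e₁) (he₂ : 0 ≤ e₂) (hc : 0 < c)
    (k₁ : ∀ x, P₁ x = 0 → q x ^ 2 ≤ e₁ * ‖x‖ ^ 2)
    (k₂ : ∀ x, P₂ x = 0 → q x ^ 2 ≤ e₂ * ‖x‖ ^ 2)
    (k₃ : ∀ e, P₁ e = e → ‖e‖ = 1 → c ≤ e₁ + q e ^ 2) :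
    ‖P₁ - P₂‖ ^ 2 ≤ 8 * m * (e₁ + e₂) / c := by
  have hm' : (1 : ℝ) ≤ m := by exact_mod_cast hm
  rcases le_or_gt (c / 2) e₁ with h | h
  · have h3 : ‖P₁ - P₂‖ ≤ 2 := h₁.norm_sub_le h₂
    have h4 : ‖P₁ - P₂‖ ^ 2 ≤ 2 ^ 2 := pow_le_pow_left₀ (norm_nonneg _) h3 2
    refine h4.trans ?_
    rw [le_div_iff₀ hc]
    nlinarith [mul_nonneg (sub_nonneg.2 hm') he₁, mul_nonneg (zero_le_one.trans hm') he₂]
  · have hK : 0 ≤ 4 * (e₁ + e₂) / c := by positivity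
    have h3 : ‖(1 - P₂) * P₁‖ ≤ Real.sqrt (4 * (e₁ + e₂) / c) := by
      refine ContinuousLinearMap.opNorm_le_bound _ (Real.sqrt_nonneg _) fun x => ?_
      have h4 := A5_unit h₁ h₂ q q0 qadd qsm he₁ he₂ hc h k₁ k₂ k₃ x
      have h5 : ‖P₁ x‖ ≤ ‖x‖ := h₁.norm_apply_le x
      have h6 : ‖(1 - P₂) (P₁ x)‖ ≤ Real.sqrt (4 * (e₁ + e₂) / c) * ‖P₁ x‖ := by
        rw [← Real.sqrt_sq (norm_nonneg ((1 - P₂) (P₁ x))), ← Real.sqrt_sq (norm_nonneg (P₁ x)),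
          ← Real.sqrt_mul hK]
        exact Real.sqrt_le_sqrt h4
      calc ‖((1 - P₂) * P₁) x‖ = ‖(1 - P₂) (P₁ x)‖ := rfl
        _ ≤ Real.sqrt (4 * (e₁ + e₂) / c) * ‖P₁ x‖ := h6
        _ ≤ Real.sqrt (4 * (e₁ + e₂) / c) * ‖x‖ := by gcongr
    have h4 : ‖(1 - P₂) * P₁‖ ^ 2 ≤ 4 * (e₁ + e₂) / c := by
      calc ‖(1 - P₂) * P₁‖ ^ 2 ≤ Real.sqrt (4 * (e₁ + e₂) / c) ^ 2 :=
            pow_le_pow_left₀ (norm_nonneg _) h3 2
        _ = 4 * (e₁ + e₂) / c := Real.sq_sqrt hK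
    calc ‖P₁ - P₂‖ ^ 2 ≤ 2 * tilt P₁ P₂ := sq_norm_le_tilt h₁ h₂
      _ ≤ 2 * (m * ‖(1 - P₂) * P₁‖ ^ 2) := by
        have := tilt_le h₁ h₂
        linarith
      _ ≤ 2 * (m * (4 * (e₁ + e₂) / c)) := by gcongr
      _ = 8 * m * (e₁ + e₂) / c := by ring

end Allard
end
end

section

/-!
# D2a: the quadratic functional of the triple lemma

`Qf ν A x = (∫∫_{A×A} ⟨x, z-w⟩² dν dν)^{1/2}` (`A` measurable, `A ⊆ ball y 1`, `ν` finite): an `L²` norm,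
hence a seminorm in `x` (Minkowski / Cauchy-Schwarz for the bilinear form
`∫∫ ⟨x, z-w⟩⟨x', z-w⟩`; e.g. `q(x+x')² = q(x)² + 2 b(x,x') + q(x')²`, `|b| ≤ q q'` by discriminant).

`Qf_ker`: `P x = 0`: `⟨x, z-w⟩ = ⟨x, (1-P)(z-w)⟩`,
`‖(1-P)(z-w)‖² ≤ 2‖(1-P)(z-z₁)‖² + 2‖(1-P)(w-z₁)‖²`, `‖(1-P)(z-z₁)‖² = ga P (z₁-z) ‖z-z₁‖² ≤ 4 ga P (z₁-z)`
(`ga_neg`; both points in `ball y 1`; if `z = z₁` both sides are `0`).

`Qf_low`: `V₀ = (1-P) + e⊗e`, `‖V₀ x‖² = ‖(1-P)x‖² + ⟨e,x⟩²` (`V_of`).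
`∫∫ ‖V₀(z-w)‖² ≥ ς² ∫_A ν(A ∖ {‖V₀(z-w)‖ < ς}) dν(w) ≥ ς² (3/4) ν(A)²`.
-/

noncomputable section

open MeasureTheory Metric Set Filter Topology

namespace Allard

variable {n m : ℕ}

def Qf (ν : Measure (E n)) (A : Set (E n)) (x : E n) : ℝ :=
  Real.sqrt (∫ z in A, ∫ w in A, (inner ℝ x (z - w)) ^ 2 ∂ν ∂ν)

private theorem d2a_int (ν : Measure (E n)) [IsFiniteMeasure ν] {A : Set (E n)}
    (hA : MeasurableSet A) {y : E n} (hy : A ⊆ ball y 1) (x x' : E n) :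
    IntegrableOn (fun p : E n × E n => inner ℝ x (p.1 - p.2) * inner ℝ x' (p.1 - p.2))
      (A ×ˢ A) (ν.prod ν) := by
  have hc : Continuous fun p : E n × E n =>
      inner ℝ x (p.1 - p.2) * inner ℝ x' (p.1 - p.2) := by fun_prop
  refine Measure.integrableOn_of_bounded (M := ‖x‖ * ‖x'‖ * 4)
    (measure_lt_top _ _).ne hc.aestronglyMeasurable ?_
  filter_upwards [ae_restrict_mem (hA.prod hA)] with p hp
  have h1 : ‖p.1 - p.2‖ ≤ 2 := by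
    have h2 := mem_ball_iff_norm.1 (hy hp.1)
    have h3 := mem_ball_iff_norm.1 (hy hp.2)
    calc ‖p.1 - p.2‖ = ‖(p.1 - y) - (p.2 - y)‖ := by rw [sub_sub_sub_cancel_right]
      _ ≤ ‖p.1 - y‖ + ‖p.2 - y‖ := norm_sub_le _ _
      _ ≤ 2 := by linarith
  have h4 : |inner ℝ x (p.1 - p.2)| ≤ ‖x‖ * 2 :=
    (abs_real_inner_le_norm _ _).trans (mul_le_mul_of_nonneg_left h1 (norm_nonneg _))
  have h5 : |inner ℝ x' (p.1 - p.2)| ≤ ‖x'‖ * 2 :=
    (abs_real_inner_le_norm _ _).trans (mul_le_mul_of_nonneg_left h1 (norm_nonneg _))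
  rw [Real.norm_eq_abs, abs_mul]
  calc |inner ℝ x (p.1 - p.2)| * |inner ℝ x' (p.1 - p.2)| ≤ (‖x‖ * 2) * (‖x'‖ * 2) :=
        mul_le_mul h4 h5 (abs_nonneg _) (by positivity)
    _ = ‖x‖ * ‖x'‖ * 4 := by ring

private theorem d2a_int2 (ν : Measure (E n)) [IsFiniteMeasure ν] {A : Set (E n)}
    (hA : MeasurableSet A) {y : E n} (hy : A ⊆ ball y 1) (x : E n) :
    IntegrableOn (fun p : E n × E n => (inner ℝ x (p.1 - p.2)) ^ 2)
      (A ×ˢ A) (ν.prod ν) := by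
  have h := d2a_int ν hA hy x x
  refine h.congr_fun (fun p _ => ?_) (hA.prod hA)
  simp only []
  rw [sq]

private theorem d2a_ga {P : Op n} {y z₁ z : E n} (hz : z₁ ∈ ball y 1)
    (hz' : z ∈ ball y 1) : ‖(1 - P) (z - z₁)‖ ^ 2 ≤ 4 * ga P (z₁ - z) := by
  rcases eq_or_ne z z₁ with h | h
  · rw [h]
    simp [ga]
  · have h1 : ‖z₁ - z‖ ≤ 2 := by
      have h2 := mem_ball_iff_norm.1 hz
      have h3 := mem_ball_iff_norm.1 hz'
      calc ‖z₁ - z‖ = ‖(z₁ - y) - (z - y)‖ := by rw [sub_sub_sub_cancel_right]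
        _ ≤ ‖z₁ - y‖ + ‖z - y‖ := norm_sub_le _ _
        _ ≤ 2 := by linarith
    have h4 : 0 < ‖z₁ - z‖ := norm_pos_iff.2 (sub_ne_zero.2 h.symm)
    have h5 : ‖(1 - P) (z - z₁)‖ = ‖(1 - P) (z₁ - z)‖ := by
      rw [← neg_sub z₁ z, map_neg, norm_neg]
    have h6 : ‖z₁ - z‖ ^ 2 ≤ 4 := by nlinarith
    rw [h5, ga]
    rw [← mul_div_assoc, le_div_iff₀ (by positivity)]
    nlinarith [sq_nonneg ‖(1 - P) (z₁ - z)‖]

private theorem d2a_perp {P : Op n} (hP : Pr n m P) {y z₁ z w : E n} (hz : z₁ ∈ ball y 1)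
    (hz' : z ∈ ball y 1) (hw : w ∈ ball y 1) :
    ‖(1 - P) (z - w)‖ ^ 2 ≤ 8 * ga P (z₁ - z) + 8 * ga P (z₁ - w) := by
  have h1 := d2a_ga (P := P) hz hz'
  have h2 := d2a_ga (P := P) hz hw
  have h3 : (1 - P) (z - w) = (1 - P) (z - z₁) - (1 - P) (w - z₁) := by
    have h6 := map_sub (1 - P) (z - z₁) (w - z₁)
    rw [sub_sub_sub_cancel_right] at h6
    exact h6
  have h4 : ‖(1 - P) (z - w)‖ ≤ ‖(1 - P) (z - z₁)‖ + ‖(1 - P) (w - z₁)‖ :=
    (congrArg norm h3).trans_le (norm_sub_le _ _)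
  have h5 : 0 ≤ ‖(1 - P) (z - w)‖ := norm_nonneg _
  obtain ⟨a, ha⟩ : ∃ a, ‖(1 - P) (z - z₁)‖ = a := ⟨_, rfl⟩
  obtain ⟨b, hb⟩ : ∃ b, ‖(1 - P) (w - z₁)‖ = b := ⟨_, rfl⟩
  obtain ⟨c, hc⟩ : ∃ c, ‖(1 - P) (z - w)‖ = c := ⟨_, rfl⟩
  rw [ha] at h1 h4
  rw [hb] at h2 h4
  rw [hc] at h4 h5 ⊢
  nlinarith [sq_nonneg (a - b)]

private theorem d2a_m0 (z₁ : E n) : Continuous fun z : E n => z₁ - z := by fun_prop

private theorem d2a_m1 (P : Op n) (z₁ : E n) : Measurable fun z : E n => (P, z₁ - z) :=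
  measurable_const.prodMk (d2a_m0 z₁).measurable

private theorem d2a_m2 (P : Op n) (z₁ : E n) :
    Measurable fun z : E n => (fun x : Op n × E n => ga x.1 x.2) ((P, z₁ - z) : Op n × E n) :=
  Measurable.comp (measurable_ga (n := n)) (d2a_m1 P z₁)

private theorem d2a_m3 (P : Op n) (z₁ : E n) : Measurable fun z : E n => ga P (z₁ - z) :=
  d2a_m2 P z₁

private theorem d2a_gaint (ν : Measure (E n)) [IsFiniteMeasure ν] (A : Set (E n)) {P : Op n}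
    (hP : Pr n m P) (z₁ : E n) : IntegrableOn (fun z => ga P (z₁ - z)) A ν := by
  have h1 := d2a_m3 P z₁
  refine Measure.integrableOn_of_bounded (M := 1) (measure_lt_top _ _).ne
    h1.aestronglyMeasurable (Eventually.of_forall fun z => ?_)
  rw [Real.norm_of_nonneg (ga_nonneg _)]
  exact ga_le_one hP _

private theorem d2a_gasum (ν : Measure (E n)) [IsFiniteMeasure ν] (A : Set (E n)) {P : Op n}
    (hP : Pr n m P) (z₁ : E n) (c : ℝ) : ∫ w in A, (8 * c + 8 * ga P (z₁ - w)) ∂ν =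
      8 * c * ν.real A + 8 * ∫ w in A, ga P (z₁ - w) ∂ν := by
  have h1 := d2a_gaint ν A hP z₁
  rw [integral_add (integrable_const _) (h1.const_mul 8), setIntegral_const,
    integral_const_mul, smul_eq_mul]
  ring

private theorem d2a_gasum2 (ν : Measure (E n)) [IsFiniteMeasure ν] (A : Set (E n)) {P : Op n}
    (hP : Pr n m P) (z₁ : E n) :
    (IntegrableOn (fun z => 8 * ga P (z₁ - z) * ν.real A + 8 * ∫ w in A, ga P (z₁ - w) ∂ν)
      A ν) ∧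
    ∫ z in A, (8 * ga P (z₁ - z) * ν.real A + 8 * ∫ w in A, ga P (z₁ - w) ∂ν) ∂ν =
      16 * ν.real A * ∫ w in A, ga P (z₁ - w) ∂ν := by
  have h1 := d2a_gaint ν A hP z₁
  have h2 : IntegrableOn (fun z => 8 * ga P (z₁ - z) * ν.real A) A ν :=
    (h1.const_mul 8).mul_const _
  have h3 : IntegrableOn (fun _ : E n => 8 * ∫ w in A, ga P (z₁ - w) ∂ν) A ν :=
    integrable_const _
  refine ⟨h2.add h3, ?_⟩
  rw [integral_add h2 h3, integral_mul_const, integral_const_mul, setIntegral_const,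
    smul_eq_mul]
  ring

theorem Qf_nonneg (ν : Measure (E n)) (A : Set (E n)) (x : E n) : 0 ≤ Qf ν A x :=
  Real.sqrt_nonneg _

theorem Qf_sq (ν : Measure (E n)) (A : Set (E n)) (x : E n) :
    Qf ν A x ^ 2 = ∫ z in A, ∫ w in A, (inner ℝ x (z - w)) ^ 2 ∂ν ∂ν := by
  rw [Qf, Real.sq_sqrt]
  exact integral_nonneg fun z => integral_nonneg fun w => sq_nonneg _

theorem Qf_smul (ν : Measure (E n)) (A : Set (E n)) (c : ℝ) (x : E n) :
    Qf ν A (c • x) = |c| * Qf ν A x := by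
  unfold Qf
  have h1 : ∀ z w : E n, (inner ℝ (c • x) (z - w)) ^ 2 = c ^ 2 * (inner ℝ x (z - w)) ^ 2 := by
    intro z w
    rw [real_inner_smul_left]
    ring
  simp only [h1]
  rw [← Real.sqrt_sq_eq_abs, ← Real.sqrt_mul (sq_nonneg c)]
  congr 1
  rw [← integral_const_mul]
  refine integral_congr_ae (Eventually.of_forall fun z => ?_)
  simp only []
  rw [integral_const_mul]

theorem Qf_add (ν : Measure (E n)) [IsFiniteMeasure ν] {A : Set (E n)} (hA : MeasurableSet A)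
    {y : E n} (hy : A ⊆ ball y 1) (x x' : E n) :
    Qf ν A (x + x') ≤ Qf ν A x + Qf ν A x' := by
  have hq : ∀ u : E n, Qf ν A u ^ 2 =
      ∫ p in A ×ˢ A, (inner ℝ u (p.1 - p.2)) ^ 2 ∂(ν.prod ν) := by
    intro u
    rw [Qf_sq, setIntegral_prod _ (d2a_int2 ν hA hy u)]
  obtain ⟨b, hb⟩ : ∃ b : ℝ, b = ∫ p in A ×ˢ A,
    inner ℝ x (p.1 - p.2) * inner ℝ x' (p.1 - p.2) ∂(ν.prod ν) := ⟨_, rfl⟩
  have hexp : ∀ t : ℝ, Qf ν A (x + t • x') ^ 2 =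
      Qf ν A x' ^ 2 * (t * t) + 2 * b * t + Qf ν A x ^ 2 := by
    intro t
    rw [hq, hq, hq, hb]
    have i1 := (d2a_int2 ν hA hy x').const_mul (t * t)
    have i2 := (d2a_int ν hA hy x x').const_mul (2 * t)
    have i3 := d2a_int2 ν hA hy x
    have i4 : Integrable (fun p : E n × E n => t * t * (inner ℝ x' (p.1 - p.2)) ^ 2 +
        2 * t * (inner ℝ x (p.1 - p.2) * inner ℝ x' (p.1 - p.2)))
        ((ν.prod ν).restrict (A ×ˢ A)) := i1.add i2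
    have e1 : ∀ p : E n × E n, (inner ℝ (x + t • x') (p.1 - p.2)) ^ 2 =
        t * t * (inner ℝ x' (p.1 - p.2)) ^ 2 +
        2 * t * (inner ℝ x (p.1 - p.2) * inner ℝ x' (p.1 - p.2)) +
        (inner ℝ x (p.1 - p.2)) ^ 2 := by
      intro p
      rw [inner_add_left, real_inner_smul_left]
      ring
    simp only [e1]
    rw [integral_add i4 i3, integral_add i1 i2, integral_const_mul, integral_const_mul]
    ring
  have hd : discrim (Qf ν A x' ^ 2) (2 * b) (Qf ν A x ^ 2) ≤ 0 := by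
    refine discrim_le_zero fun t => ?_
    rw [← hexp]
    exact sq_nonneg _
  have n1 := Qf_nonneg ν A x
  have n2 := Qf_nonneg ν A x'
  have hb2 : b ≤ Qf ν A x * Qf ν A x' := by
    rw [discrim] at hd
    refine abs_le_of_sq_le_sq' ?_ (mul_nonneg n1 n2) |>.2
    nlinarith
  have h1 := hexp 1
  rw [one_smul] at h1
  refine abs_le_of_sq_le_sq' ?_ (add_nonneg n1 n2) |>.2
  rw [h1]
  nlinarith

theorem Qf_ker (ν : Measure (E n)) [IsFiniteMeasure ν] {A : Set (E n)} (hA : MeasurableSet A)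
    {y : E n} (hy : A ⊆ ball y 1) {P : Op n} (hP : Pr n m P) {z₁ : E n} (hz : z₁ ∈ ball y 1)
    {x : E n} (hx : P x = 0) :
    Qf ν A x ^ 2 ≤ 16 * ν.real A * (∫ z in A, ga P (z₁ - z) ∂ν) * ‖x‖ ^ 2 := by
  rw [Qf_sq]
  obtain ⟨g1, g2⟩ := d2a_gasum2 ν A hP z₁
  have hx2 : 0 ≤ ‖x‖ ^ 2 := sq_nonneg _
  have key : ∀ z ∈ A, ∀ w ∈ A, (inner ℝ x (z - w)) ^ 2 ≤
      ‖x‖ ^ 2 * (8 * ga P (z₁ - z) + 8 * ga P (z₁ - w)) := by
    intro z hz' w hw
    have h1 : inner ℝ x (z - w) = inner ℝ x ((1 - P) (z - w)) := by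
      have h2 : inner ℝ x (P (z - w)) = 0 := by
        rw [← hP.inner_symm, hx, inner_zero_left]
      have h3 : (1 - P) (z - w) = (z - w) - P (z - w) := rfl
      rw [h3, inner_sub_right x (z - w) (P (z - w)), h2, sub_zero]
    rw [h1]
    have h3 := abs_real_inner_le_norm x ((1 - P) (z - w))
    calc (inner ℝ x ((1 - P) (z - w))) ^ 2 = |inner ℝ x ((1 - P) (z - w))| ^ 2 := by
          rw [sq_abs]
      _ ≤ (‖x‖ * ‖(1 - P) (z - w)‖) ^ 2 := pow_le_pow_left₀ (abs_nonneg _) h3 2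
      _ = ‖x‖ ^ 2 * ‖(1 - P) (z - w)‖ ^ 2 := by ring
      _ ≤ _ := mul_le_mul_of_nonneg_left (d2a_perp hP hz (hy hz') (hy hw)) hx2
  have i1 : ∀ z : E n, IntegrableOn
      (fun w => ‖x‖ ^ 2 * (8 * ga P (z₁ - z) + 8 * ga P (z₁ - w))) A ν := by
    intro z
    exact ((integrable_const _).add ((d2a_gaint ν A hP z₁).const_mul 8)).const_mul _
  calc ∫ z in A, ∫ w in A, (inner ℝ x (z - w)) ^ 2 ∂ν ∂ν
      ≤ ∫ z in A, ‖x‖ ^ 2 *
          (8 * ga P (z₁ - z) * ν.real A + 8 * ∫ w in A, ga P (z₁ - w) ∂ν) ∂ν := by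
        refine integral_mono_of_nonneg
          (Eventually.of_forall fun z => integral_nonneg fun w => sq_nonneg _)
          (g1.const_mul _) ?_
        filter_upwards [ae_restrict_mem hA] with z hz'
        calc ∫ w in A, (inner ℝ x (z - w)) ^ 2 ∂ν
            ≤ ∫ w in A, ‖x‖ ^ 2 * (8 * ga P (z₁ - z) + 8 * ga P (z₁ - w)) ∂ν := by
              refine integral_mono_of_nonneg
                (Eventually.of_forall fun w => sq_nonneg _) (i1 z) ?_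
              filter_upwards [ae_restrict_mem hA] with w hw
              exact key z hz' w hw
          _ = _ := by rw [integral_const_mul, d2a_gasum ν A hP z₁]
    _ = 16 * ν.real A * (∫ z in A, ga P (z₁ - z) ∂ν) * ‖x‖ ^ 2 := by
        rw [integral_const_mul, g2]
        ring

theorem Qf_low (ν : Measure (E n)) [IsFiniteMeasure ν] {A : Set (E n)} (hA : MeasurableSet A)
    {y : E n} (hy : A ⊆ ball y 1) {P : Op n} (hP : Pr n m P) {z₁ : E n} (hz : z₁ ∈ ball y 1)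
    {e : E n} (he : P e = e) (he1 : ‖e‖ = 1) {ς : ℝ} (hς : 0 < ς)
    (hstrip : ∀ w ∈ A, ν.real (A ∩ {z | ‖((1 - P) + rk e e) (z - w)‖ < ς}) ≤ ν.real A / 4) :
    3 / 4 * ς ^ 2 * ν.real A ^ 2 ≤
      16 * ν.real A * (∫ z in A, ga P (z₁ - z) ∂ν) + Qf ν A e ^ 2 := by
  rw [Qf_sq]
  obtain ⟨g1, g2⟩ := d2a_gasum2 ν A hP z₁
  obtain ⟨-, -, -, hV⟩ := V_of hP he he1
  have hp := d2a_int2 ν hA hy e
  have i1 : IntegrableOn (fun z => ∫ w in A, (inner ℝ e (z - w)) ^ 2 ∂ν) A ν := by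
    have h1 : Integrable (fun p : E n × E n => (inner ℝ e (p.1 - p.2)) ^ 2)
        ((ν.restrict A).prod (ν.restrict A)) := by
      rw [Measure.prod_restrict]
      exact hp
    exact h1.integral_prod_left
  have i2 : ∀ z ∈ A, IntegrableOn (fun w => (inner ℝ e (z - w)) ^ 2) A ν := by
    intro z hz'
    have hc : Continuous fun w : E n => (inner ℝ e (z - w)) ^ 2 := by fun_prop
    refine Measure.integrableOn_of_bounded (M := 4) (measure_lt_top _ _).ne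
      hc.aestronglyMeasurable ?_
    filter_upwards [ae_restrict_mem hA] with w hw
    rw [Real.norm_of_nonneg (sq_nonneg _)]
    have h2 := mem_ball_iff_norm.1 (hy hz')
    have h3 := mem_ball_iff_norm.1 (hy hw)
    have h1 : ‖z - w‖ ≤ 2 := by
      calc ‖z - w‖ = ‖(z - y) - (w - y)‖ := by rw [sub_sub_sub_cancel_right]
        _ ≤ ‖z - y‖ + ‖w - y‖ := norm_sub_le _ _
        _ ≤ 2 := by linarith
    have h4 : |inner ℝ e (z - w)| ≤ 2 := by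
      have h5 := abs_real_inner_le_norm e (z - w)
      rw [he1, one_mul] at h5
      exact h5.trans h1
    calc (inner ℝ e (z - w)) ^ 2 = |inner ℝ e (z - w)| ^ 2 := by rw [sq_abs]
      _ ≤ 2 ^ 2 := pow_le_pow_left₀ (abs_nonneg _) h4 2
      _ = 4 := by norm_num
  have low : ∀ z ∈ A, 3 / 4 * ς ^ 2 * ν.real A ≤
      (8 * ga P (z₁ - z) * ν.real A + 8 * ∫ w in A, ga P (z₁ - w) ∂ν) +
        ∫ w in A, (inner ℝ e (z - w)) ^ 2 ∂ν := by
    intro z hz'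
    have hVc : Continuous fun w : E n => ‖((1 - P) + rk e e) (z - w)‖ := by fun_prop
    have hVm : Measurable fun w : E n => ‖((1 - P) + rk e e) (z - w)‖ := hVc.measurable
    have i3 : IntegrableOn (fun w => (8 * ga P (z₁ - z) + 8 * ga P (z₁ - w)) +
        (inner ℝ e (z - w)) ^ 2) A ν :=
      ((integrable_const _).add ((d2a_gaint ν A hP z₁).const_mul 8)).add (i2 z hz')
    have hle : ∀ w ∈ A, ‖((1 - P) + rk e e) (z - w)‖ ^ 2 ≤
        (8 * ga P (z₁ - z) + 8 * ga P (z₁ - w)) + (inner ℝ e (z - w)) ^ 2 := by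
      intro w hw
      rw [hV]
      exact add_le_add_left (d2a_perp hP hz (hy hz') (hy hw)) _
    have i4 : IntegrableOn (fun w => ‖((1 - P) + rk e e) (z - w)‖ ^ 2) A ν := by
      refine i3.mono' (hVm.pow_const 2).aestronglyMeasurable ?_
      filter_upwards [ae_restrict_mem hA] with w hw
      rw [Real.norm_of_nonneg (sq_nonneg _)]
      exact hle w hw
    have h1 : ς ^ 2 * (ν.restrict A).real {w | ς ^ 2 ≤ ‖((1 - P) + rk e e) (z - w)‖ ^ 2} ≤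
        ∫ w in A, ‖((1 - P) + rk e e) (z - w)‖ ^ 2 ∂ν :=
      mul_meas_ge_le_integral_of_nonneg (Eventually.of_forall fun w => sq_nonneg _) i4 _
    have hmeas : MeasurableSet {w : E n | ‖((1 - P) + rk e e) (z - w)‖ < ς} :=
      measurableSet_lt hVm measurable_const
    have h2 : (ν.restrict A).real {w | ς ^ 2 ≤ ‖((1 - P) + rk e e) (z - w)‖ ^ 2} =
        ν.real (A \ {w | ‖((1 - P) + rk e e) (z - w)‖ < ς}) := by
      have h3 : {w | ς ^ 2 ≤ ‖((1 - P) + rk e e) (z - w)‖ ^ 2} =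
          {w : E n | ‖((1 - P) + rk e e) (z - w)‖ < ς}ᶜ := by
        ext w
        simp only [mem_ofPred_eq, mem_compl_iff, not_lt]
        exact ⟨fun h => le_of_sq_le_sq h (norm_nonneg _), fun h => pow_le_pow_left₀ hς.le h 2⟩
      rw [h3, measureReal_restrict_apply hmeas.compl, inter_comm, sdiff_eq]
    have h4 : ν.real (A ∩ {w | ‖((1 - P) + rk e e) (z - w)‖ < ς}) +
        ν.real (A \ {w | ‖((1 - P) + rk e e) (z - w)‖ < ς}) = ν.real A :=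
      measureReal_inter_add_sdiff hmeas
    have h5 : ν.real (A ∩ {w | ‖((1 - P) + rk e e) (z - w)‖ < ς}) ≤ ν.real A / 4 := by
      have h6 := hstrip z hz'
      have h7 : {w : E n | ‖((1 - P) + rk e e) (w - z)‖ < ς} =
          {w : E n | ‖((1 - P) + rk e e) (z - w)‖ < ς} := by
        ext w
        simp only [mem_ofPred_eq]
        rw [← neg_sub z w, map_neg, norm_neg]
      rwa [h7] at h6
    have h8 : ∫ w in A, ‖((1 - P) + rk e e) (z - w)‖ ^ 2 ∂ν ≤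
        ∫ w in A, ((8 * ga P (z₁ - z) + 8 * ga P (z₁ - w)) + (inner ℝ e (z - w)) ^ 2) ∂ν := by
      refine integral_mono_ae i4 i3 ?_
      filter_upwards [ae_restrict_mem hA] with w hw
      exact hle w hw
    have i5 : IntegrableOn (fun w => 8 * ga P (z₁ - z) + 8 * ga P (z₁ - w)) A ν :=
      (integrable_const _).add ((d2a_gaint ν A hP z₁).const_mul 8)
    rw [integral_add i5 (i2 z hz'), d2a_gasum ν A hP z₁] at h8
    have h9 : 3 / 4 * ν.real A ≤ ν.real (A \ {w | ‖((1 - P) + rk e e) (z - w)‖ < ς}) := by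
      linarith
    rw [h2] at h1
    have h10 : 0 ≤ ς ^ 2 := sq_nonneg _
    nlinarith
  have h1 : ∫ z in A, (3 / 4 * ς ^ 2 * ν.real A) ∂ν ≤
      ∫ z in A, ((8 * ga P (z₁ - z) * ν.real A + 8 * ∫ w in A, ga P (z₁ - w) ∂ν) +
        ∫ w in A, (inner ℝ e (z - w)) ^ 2 ∂ν) ∂ν := by
    refine integral_mono_ae (integrable_const _) (g1.add i1) ?_
    filter_upwards [ae_restrict_mem hA] with z hz'
    exact low z hz'
  rw [integral_add g1 i1, g2, setIntegral_const, smul_eq_mul] at h1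
  linarith

end Allard
end
end

section

/-!
# D1: strip lemma

`y` arbitrary (translate or use a bump function centred at `y`): `ζ` smooth, `0 ≤ ζ ≤ 1`, `ζ = 1` on
`ball y 1`, `tsupport ζ ⊆ closedBall y (3/2)`, `‖Dζ‖ ≤ c₁` (a fixed `ContDiffBump`, translated; the
constant depends only on `n`).  With `v z := V₀ (z - p)` the field
`g z = ζ z • (‖v‖² + σ²)^{-1/4} • v` is `C¹` (`σ > 0`), `‖g‖ ≤ ‖v‖^{1/2} ≤ 2`, and
`fderiv g = ζ (Θ V₀ + (Θ'/‖v‖) v ⊗ v) + (Dζ).smulRight (Θ v)`, `Θ(u) = (u²+σ²)^{-1/4}`,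
`Θ'(u)/u = -(1/2)(u²+σ²)^{-5/4}` (note `V₀ᵀ v = v`).
`tr (B V₀) ≥ 9/10` (`Stress.strip`), `⟨v, B v⟩ ≤ (1+2δ)‖v‖²`, so
`tr (B fderiv g) ≥ ζ Θ (9/10 - (1/2)(1+2δ)) - c ‖Dζ‖ Θ ‖v‖ ≥ ζ Θ/4 - c 1_{ball y 2}`.
FV: `(1/4) ∫ ζ Θ dμ ≤ c μ(ball y 2) + 2 ∫_{ball y 2} ‖H‖`.  On `‖v‖ < σ ≤ 1`:
`Θ ≥ (2σ²)^{-1/4} ≥ σ^{-1/2}/2`.
-/

noncomputable section

open MeasureTheory Metric Set Filter Topology

namespace Allard

private theorem D1_cut (n : ℕ) : ∃ (b : E n → ℝ) (c₁ : ℝ), 0 ≤ c₁ ∧ ContDiff ℝ 1 b ∧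
    (∀ z, 0 ≤ b z) ∧ (∀ z, b z ≤ 1) ∧ (∀ z, ‖z‖ ≤ 1 → b z = 1) ∧
    tsupport b ⊆ closedBall 0 (3 / 2) ∧ ∀ z, ‖fderiv ℝ b z‖ ≤ c₁ := by
  let b : ContDiffBump (0 : E n) := ⟨1, 3 / 2, one_pos, by norm_num⟩
  have hb1 : ContDiff ℝ 1 (b : E n → ℝ) := b.contDiff
  have hc : HasCompactSupport (b : E n → ℝ) := b.hasCompactSupport
  obtain ⟨c₁, hc₁⟩ := (hc.fderiv (𝕜 := ℝ)).exists_bound_of_continuous
    (hb1.continuous_fderiv one_ne_zero)
  refine ⟨b, c₁, (norm_nonneg _).trans (hc₁ 0), hb1, fun z => b.nonneg, fun z => b.le_one,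
    fun z hz => b.one_of_mem_closedBall ?_, ?_, hc₁⟩
  · simpa [b] using hz
  · rw [b.tsupport_eq]

/-- a symmetric idempotent does not increase the norm -/
private theorem D1_norm {n : ℕ} {V₀ : Op n} (h1 : V₀ * V₀ = V₀) (h2 : tp V₀ = V₀) (x : E n) :
    ‖V₀ x‖ ≤ ‖x‖ := by
  have h3 : inner ℝ (V₀ x) (V₀ x) = inner ℝ x (V₀ x) := by
    conv_lhs => rw [← h2]
    rw [inner_tp]
    have h4 : V₀ (V₀ x) = V₀ x := by
      conv_rhs => rw [← h1]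
      rfl
    rw [h2, h4]
  have h5 : ‖V₀ x‖ * ‖V₀ x‖ ≤ ‖x‖ * ‖V₀ x‖ := by
    rw [← real_inner_self_eq_norm_mul_norm, h3]
    exact real_inner_le_norm _ _
  rcases (norm_nonneg (V₀ x)).eq_or_lt with h6 | h6
  · rw [← h6]; exact norm_nonneg _
  · exact le_of_mul_le_mul_right h5 h6

/-- the derivative of the test field -/
private theorem D1_deriv {n : ℕ} (V₀ : Op n) (p : E n) {σ : ℝ} (hσ : 0 < σ) {ζ : E n → ℝ}
    (hζ : ContDiff ℝ 1 ζ) (z : E n) :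
    HasFDerivAt (fun z => (ζ z * (‖V₀ (z - p)‖ ^ 2 + σ ^ 2) ^ (-(1 / 4) : ℝ)) • V₀ (z - p))
      ((ζ z * (‖V₀ (z - p)‖ ^ 2 + σ ^ 2) ^ (-(1 / 4) : ℝ)) • V₀ +
        (ζ z • (((-(1 / 4) : ℝ) * (‖V₀ (z - p)‖ ^ 2 + σ ^ 2) ^ ((-(1 / 4) : ℝ) - 1)) •
          (2 • (innerSL ℝ (V₀ (z - p))).comp V₀)) +
        (‖V₀ (z - p)‖ ^ 2 + σ ^ 2) ^ (-(1 / 4) : ℝ) • fderiv ℝ ζ z).smulRight (V₀ (z - p))) z := by
  have hv : HasFDerivAt (fun z => V₀ (z - p)) V₀ z := by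
    have h1 := V₀.hasFDerivAt.comp z ((hasFDerivAt_id z).sub_const p)
    exact h1
  have hw := hv.norm_sq.add_const (σ ^ 2)
  have hw0 : ‖V₀ (z - p)‖ ^ 2 + σ ^ 2 ≠ 0 := by positivity
  have hΘ := (Real.hasDerivAt_rpow_const (p := (-(1 / 4) : ℝ)) (Or.inl hw0)).comp_hasFDerivAt z hw
  have hζ' : HasFDerivAt ζ (fderiv ℝ ζ z) z := (hζ.differentiable one_ne_zero z).hasFDerivAt
  have h2 := (hζ'.mul hΘ).smul hv
  exact h2

private theorem D1_root {t w : ℝ} (ht : 0 ≤ t) (hw : 0 < w) (h : t ^ 4 ≤ w) :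
    w ^ (-(1 / 4) : ℝ) * t ≤ 1 := by
  have h1 : t ≤ w ^ (1 / 4 : ℝ) := by
    calc t = (t ^ 4) ^ (1 / 4 : ℝ) := by
          rw [← Real.rpow_natCast t 4, ← Real.rpow_mul ht]; norm_num
      _ ≤ _ := Real.rpow_le_rpow (by positivity) h (by norm_num)
  rw [Real.rpow_neg hw.le, inv_mul_le_iff₀ (by positivity), mul_one]
  exact h1

private theorem D1_root' {t w : ℝ} (ht : 0 ≤ t) (hw : 0 < w) (h : w ≤ t ^ 4) :
    1 ≤ w ^ (-(1 / 4) : ℝ) * t := by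
  have h1 : w ^ (1 / 4 : ℝ) ≤ t := by
    calc w ^ (1 / 4 : ℝ) ≤ (t ^ 4) ^ (1 / 4 : ℝ) := Real.rpow_le_rpow hw.le h (by norm_num)
      _ = t := by rw [← Real.rpow_natCast t 4, ← Real.rpow_mul ht]; norm_num
  rw [Real.rpow_neg hw.le, ← div_eq_inv_mul, le_div_iff₀ (by positivity), one_mul]
  exact h1

private theorem D1_pt {n : ℕ} {V₀ B : Op n} (h1 : V₀ * V₀ = V₀) (h2 : tp V₀ = V₀)
    (hB : ‖B‖ ≤ 51 / 50) (hBV : 9 / 10 ≤ tr (B * V₀)) (x : E n) {σ ζ : ℝ} (hσ : 0 < σ)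
    (hζ : 0 ≤ ζ) (L : E n →L[ℝ] ℝ) :
    39 / 100 * (ζ * (‖V₀ x‖ ^ 2 + σ ^ 2) ^ (-(1 / 4) : ℝ)) -
      (‖V₀ x‖ ^ 2 + σ ^ 2) ^ (-(1 / 4) : ℝ) * |L (B (V₀ x))| ≤
    tr (B * ((ζ * (‖V₀ x‖ ^ 2 + σ ^ 2) ^ (-(1 / 4) : ℝ)) • V₀ +
        (ζ • (((-(1 / 4) : ℝ) * (‖V₀ x‖ ^ 2 + σ ^ 2) ^ ((-(1 / 4) : ℝ) - 1)) •
          (2 • (innerSL ℝ (V₀ x)).comp V₀)) +
        (‖V₀ x‖ ^ 2 + σ ^ 2) ^ (-(1 / 4) : ℝ) • L).smulRight (V₀ x))) := by
  have hw : 0 < ‖V₀ x‖ ^ 2 + σ ^ 2 := by positivity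
  have hvv : V₀ (V₀ x) = V₀ x := by
    conv_rhs => rw [← h1]
    rfl
  have hin : inner ℝ (V₀ x) (V₀ (B (V₀ x))) = inner ℝ (V₀ x) (B (V₀ x)) := by
    rw [← inner_tp, h2, hvv]
  have hms : ∀ c : ℝ, B * (c • V₀) = c • (B * V₀) := fun c => by
    ext1 u
    change B (c • V₀ u) = c • B (V₀ u)
    rw [map_smul]
  rw [mul_add, tr_add, hms, tr_smul, tr_mul_smulRight, Real.rpow_sub_one hw.ne']
  have hΘ : 0 < (‖V₀ x‖ ^ 2 + σ ^ 2) ^ (-(1 / 4) : ℝ) := by positivity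
  have hineq : inner ℝ (V₀ x) (B (V₀ x)) ≤ 51 / 50 * ‖V₀ x‖ ^ 2 := by
    calc inner ℝ (V₀ x) (B (V₀ x)) ≤ ‖V₀ x‖ * ‖B (V₀ x)‖ := real_inner_le_norm _ _
      _ ≤ ‖V₀ x‖ * (51 / 50 * ‖V₀ x‖) := by
          refine mul_le_mul_of_nonneg_left ?_ (norm_nonneg _)
          exact (B.le_opNorm _).trans (mul_le_mul_of_nonneg_right hB (norm_nonneg _))
      _ = _ := by ring
  have hL := neg_abs_le (L (B (V₀ x)))
  simp only [add_apply, smul_apply, smul_eq_mul,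
    nsmul_eq_mul, ContinuousLinearMap.comp_apply, innerSL_apply_apply, hin, Nat.cast_ofNat]
  generalize (‖V₀ x‖ ^ 2 + σ ^ 2) ^ (-(1 / 4) : ℝ) = Θ at hΘ ⊢
  have hfr : inner ℝ (V₀ x) (B (V₀ x)) / (‖V₀ x‖ ^ 2 + σ ^ 2) ≤ 51 / 50 := by
    rw [div_le_iff₀ hw]
    linarith only [hineq, sq_nonneg σ]
  have e1 : ζ * (-(1 / 4) * (Θ / (‖V₀ x‖ ^ 2 + σ ^ 2)) * (2 * inner ℝ (V₀ x) (B (V₀ x)))) =
      -(1 / 2) * (ζ * Θ) * (inner ℝ (V₀ x) (B (V₀ x)) / (‖V₀ x‖ ^ 2 + σ ^ 2)) := by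
    ring
  rw [e1]
  generalize inner ℝ (V₀ x) (B (V₀ x)) / (‖V₀ x‖ ^ 2 + σ ^ 2) = r at hfr ⊢
  have hζΘ : 0 ≤ ζ * Θ := by positivity
  have e2 : 0 ≤ (ζ * Θ) * (51 / 50 - r) := mul_nonneg hζΘ (by linarith only [hfr])
  have e3 : 0 ≤ (ζ * Θ) * (tr (B * V₀) - 9 / 10) := mul_nonneg hζΘ (by linarith only [hBV])
  have e4 : 0 ≤ Θ * (L (B (V₀ x)) + |L (B (V₀ x))|) := mul_nonneg hΘ.le (by linarith only [hL])
  linarith only [e2, e3, e4]

theorem strip_mass (n m : ℕ) (hm : 1 ≤ m) : ∃ c : ℝ, 0 < c ∧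
    ∀ {δ : ℝ} {S : Stress n m δ} {α Λ : ℝ} {U : Set (E n)} (V : Sys S α Λ U),
    0 ≤ δ → δ ≤ d0 n → ∀ (y : E n), closedBall y 2 ⊆ U →
    ∀ V₀ : Op n, V₀ * V₀ = V₀ → tp V₀ = V₀ → tr V₀ = n - m + 1 →
    ∀ (p : E n) (σ : ℝ), dist p y ≤ 1 → 0 < σ → σ ≤ 1 →
    V.μ.real (ball y 1 ∩ {z | ‖V₀ (z - p)‖ < σ}) ≤
      c * Real.sqrt σ * (V.μ.real (ball y 2) + ∫ z in ball y 2, ‖V.H z‖ ∂V.μ) := by
  obtain ⟨b, c₁, hc0, hb1, hb0, hble, hbone, hbsupp, hbd⟩ := D1_cut n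
  refine ⟨6 * (3 + 3 * c₁), by positivity, ?_⟩
  intro δ S α Λ U V hδ hδ' y hyU V₀ hV1 hV2 hV3 p σ hp hσ hσ1
  -- the cutoff function
  obtain ⟨ζ, hζe⟩ : ∃ ζ : E n → ℝ, ζ = fun z => b (z - y) := ⟨_, rfl⟩
  have hζ1 : ContDiff ℝ 1 ζ := by
    rw [hζe]; exact hb1.comp (contDiff_id.sub contDiff_const)
  have hζ0 : ∀ z, 0 ≤ ζ z := fun z => by rw [hζe]; exact hb0 _
  have hζle : ∀ z, ζ z ≤ 1 := fun z => by rw [hζe]; exact hble _
  have hζone : ∀ z ∈ ball y 1, ζ z = 1 := by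
    intro z hz
    rw [hζe]
    refine hbone _ ?_
    rw [mem_ball, dist_eq_norm] at hz
    exact hz.le
  have hζzero : ∀ z, z ∉ closedBall y (3 / 2) → ζ z = 0 := by
    intro z hz
    rw [hζe]
    refine image_eq_zero_of_notMem_tsupport (fun h => hz ?_)
    have := hbsupp h
    rw [mem_closedBall, dist_zero_right] at this
    rwa [mem_closedBall, dist_eq_norm]
  have hζd : ∀ z, ‖fderiv ℝ ζ z‖ ≤ c₁ := by
    intro z
    have h1 : fderiv ℝ ζ z = fderiv ℝ b (z - y) := by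
      rw [hζe]
      exact fderiv_comp_sub y
    rw [h1]; exact hbd _
  have hζd0 : ∀ z, z ∉ closedBall y (3 / 2) → fderiv ℝ ζ z = 0 := by
    intro z hz
    have h1 : ζ =ᶠ[𝓝 z] fun _ => 0 := by
      filter_upwards [isClosed_closedBall.isOpen_compl.mem_nhds hz] with w hw
      exact hζzero w hw
    rw [h1.fderiv_eq]; simp
  -- the weight
  obtain ⟨Θ, hΘe⟩ : ∃ Θ : E n → ℝ, Θ = fun z => (‖V₀ (z - p)‖ ^ 2 + σ ^ 2) ^ (-(1 / 4) : ℝ) :=
    ⟨_, rfl⟩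
  have hvC : ContDiff ℝ 1 (fun z => V₀ (z - p)) :=
    V₀.contDiff.comp (contDiff_id.sub contDiff_const)
  have hΘC : ContDiff ℝ 1 Θ := by
    rw [hΘe]
    refine ContDiff.rpow_const_of_ne ((hvC.norm_sq ℝ).add contDiff_const) fun z => ?_
    positivity
  have hΘpos : ∀ z, 0 < Θ z := fun z => by rw [hΘe]; positivity
  obtain ⟨g, hge⟩ : ∃ g : E n → E n, g = fun z => (ζ z * Θ z) • V₀ (z - p) := ⟨_, rfl⟩
  have hgC : ContDiff ℝ 1 g := by
    rw [hge]; exact (hζ1.mul hΘC).smul hvC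
  have hg0 : ∀ z, z ∉ closedBall y (3 / 2) → g z = 0 := by
    intro z hz
    rw [hge]
    simp only [hζzero z hz, zero_mul, zero_smul]
  have hgcs : HasCompactSupport g := HasCompactSupport.intro (isCompact_closedBall y (3 / 2)) hg0
  have hgts : tsupport g ⊆ closedBall y (3 / 2) := by
    refine closure_minimal (fun z hz => ?_) isClosed_closedBall
    by_contra h
    exact hz (hg0 z h)
  have hfv := V.fv g hgC hgcs (hgts.trans ((closedBall_subset_closedBall (by norm_num)).trans hyU))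
  have hBn : ∀ z, ‖S.B (V.P z)‖ ≤ 51 / 50 := by
    intro z
    have h1 := S.B_norm_le hδ hδ' (V.hP z)
    have h2 : δ ≤ 1 / 100 := hδ'.trans d0_le
    linarith only [h1, h2]
  have hBt : ∀ z, 9 / 10 ≤ tr (S.B (V.P z) * V₀) := fun z => S.strip hδ hδ' (V.hP z) hm hV1 hV2 hV3
  have hge' : g = fun z => (ζ z * (‖V₀ (z - p)‖ ^ 2 + σ ^ 2) ^ (-(1 / 4) : ℝ)) • V₀ (z - p) := by
    rw [hge, hΘe]
  -- the norm of `v` on the ball
  have hv3 : ∀ z ∈ ball y 2, ‖V₀ (z - p)‖ ≤ 4 := by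
    intro z hz
    refine (D1_norm hV1 hV2 _).trans ?_
    rw [mem_ball] at hz
    have h1 := dist_triangle z y p
    rw [dist_comm y p] at h1
    rw [← dist_eq_norm]
    linarith only [hp, hz, h1]
  have hΘv : ∀ z ∈ ball y 2, Θ z * ‖V₀ (z - p)‖ ≤ 2 := by
    intro z hz
    have h1 := hv3 z hz
    have h2 : (‖V₀ (z - p)‖ / 2) ^ 4 ≤ ‖V₀ (z - p)‖ ^ 2 + σ ^ 2 := by
      have h3 : ‖V₀ (z - p)‖ ^ 2 ≤ 16 := by nlinarith only [h1, norm_nonneg (V₀ (z - p))]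
      nlinarith only [h3]
    have h3 := D1_root (by positivity) (by positivity) h2
    rw [hΘe]
    simp only
    linarith only [h3]
  have hball : ∀ z, z ∉ ball y 2 → z ∉ closedBall y (3 / 2) := by
    intro z hz h
    apply hz
    rw [mem_closedBall] at h
    rw [mem_ball]
    linarith
  -- pointwise lower bound
  have hlow : ∀ z, 39 / 100 * (ζ z * Θ z) - (ball y 2).indicator (fun _ => 51 / 25 * c₁) z ≤
      tr (S.B (V.P z) * fderiv ℝ g z) := by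
    intro z
    have h1 := D1_pt hV1 hV2 (hBn z) (hBt z) (z - p) hσ (hζ0 z) (fderiv ℝ ζ z)
    have h0 := (D1_deriv V₀ p hσ hζ1 z).fderiv
    rw [← hge'] at h0
    rw [← h0] at h1
    refine le_trans ?_ h1
    have hΘz : (‖V₀ (z - p)‖ ^ 2 + σ ^ 2) ^ (-(1 / 4) : ℝ) = Θ z := by rw [hΘe]
    rw [hΘz]
    have h2 : Θ z * |fderiv ℝ ζ z (S.B (V.P z) (V₀ (z - p)))| ≤
        (ball y 2).indicator (fun _ => 51 / 25 * c₁) z := by
      by_cases hz : z ∈ ball y 2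
      · rw [Set.indicator_of_mem hz]
        have h3 : |fderiv ℝ ζ z (S.B (V.P z) (V₀ (z - p)))| ≤ c₁ * (51 / 50 * ‖V₀ (z - p)‖) := by
          rw [← Real.norm_eq_abs]
          refine ((fderiv ℝ ζ z).le_opNorm _).trans ?_
          refine mul_le_mul (hζd z) ?_ (norm_nonneg _) hc0
          exact ((S.B (V.P z)).le_opNorm _).trans
            (mul_le_mul_of_nonneg_right (hBn z) (norm_nonneg _))
        calc Θ z * |fderiv ℝ ζ z (S.B (V.P z) (V₀ (z - p)))|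
            ≤ Θ z * (c₁ * (51 / 50 * ‖V₀ (z - p)‖)) :=
              mul_le_mul_of_nonneg_left h3 (hΘpos z).le
          _ = 51 / 50 * c₁ * (Θ z * ‖V₀ (z - p)‖) := by ring
          _ ≤ 51 / 50 * c₁ * 2 := mul_le_mul_of_nonneg_left (hΘv z hz) (by positivity)
          _ = _ := by ring
      · rw [Set.indicator_of_notMem hz, hζd0 z (hball z hz)]
        simp
    linarith only [h2]
  -- integrability
  have hζΘC : Continuous fun z => ζ z * Θ z := hζ1.continuous.mul hΘC.continuous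
  have hζΘcs : HasCompactSupport fun z => ζ z * Θ z :=
    HasCompactSupport.intro (isCompact_closedBall y (3 / 2)) fun z hz => by
      rw [hζzero z hz, zero_mul]
  obtain ⟨C₂, hC₂⟩ := hζΘcs.exists_bound_of_continuous hζΘC
  have hi1 : Integrable (fun z => ζ z * Θ z) V.μ :=
    V.integrable_bdd hζΘC.measurable (c := C₂) (fun z => by
      rw [← Real.norm_eq_abs]; exact hC₂ z)
  obtain ⟨C₃, hC₃⟩ := (hgcs.fderiv (𝕜 := ℝ)).exists_bound_of_continuous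
    (hgC.continuous_fderiv one_ne_zero)
  have hmB : Measurable fun z => S.B (V.P z) := by
    have h1 : Continuous fun P : Op n => S.B P := (S.cψ.smul continuous_id).add S.cC
    exact h1.measurable.comp V.mP
  have hmT : Measurable fun z => tr (S.B (V.P z) * fderiv ℝ g z) := by
    have h1 : Continuous fun x : Op n × Op n => tr (x.1 * x.2) :=
      continuous_tr.comp (continuous_fst.mul continuous_snd)
    exact h1.measurable.comp (hmB.prodMk (hgC.continuous_fderiv one_ne_zero).measurable)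
  have hi2 : Integrable (fun z => tr (S.B (V.P z) * fderiv ℝ g z)) V.μ := by
    refine V.integrable_bdd hmT (c := n * (51 / 50 * C₃)) fun z => ?_
    refine (abs_tr_le _).trans (mul_le_mul_of_nonneg_left ?_ (Nat.cast_nonneg _))
    exact (norm_mul_le _ _).trans (mul_le_mul (hBn z) (hC₃ z) (norm_nonneg _) (by norm_num))
  have hi3 : Integrable ((ball y 2).indicator (fun _ => 51 / 25 * c₁)) V.μ :=
    (integrable_const _).indicator measurableSet_ball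
  have hI1 : ∫ z, (39 / 100 * (ζ z * Θ z) - (ball y 2).indicator (fun _ => 51 / 25 * c₁) z) ∂V.μ ≤
      ∫ z, tr (S.B (V.P z) * fderiv ℝ g z) ∂V.μ :=
    integral_mono ((hi1.const_mul (39 / 100)).sub hi3) hi2 hlow
  rw [integral_sub (hi1.const_mul (39 / 100)) hi3, integral_const_mul,
    integral_indicator_const _ measurableSet_ball, smul_eq_mul, hfv] at hI1
  -- the right side
  have hgn : ∀ z, ‖g z‖ ≤ (ball y 2).indicator (fun _ => (2 : ℝ)) z := by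
    intro z
    by_cases hz : z ∈ ball y 2
    · rw [Set.indicator_of_mem hz, hge]
      simp only
      rw [norm_smul, Real.norm_eq_abs, abs_of_nonneg (mul_nonneg (hζ0 z) (hΘpos z).le), mul_assoc]
      calc ζ z * (Θ z * ‖V₀ (z - p)‖) ≤ 1 * 2 :=
            mul_le_mul (hζle z) (hΘv z hz) (mul_nonneg (hΘpos z).le (norm_nonneg _)) one_pos.le
        _ = 2 := by norm_num
    · rw [Set.indicator_of_notMem hz, hg0 z (hball z hz), norm_zero]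
  have hI2 : ∫ z, inner ℝ (V.H z) (g z) ∂V.μ ≤ 2 * ∫ z in ball y 2, ‖V.H z‖ ∂V.μ := by
    refine (le_abs_self _).trans ?_
    rw [← Real.norm_eq_abs]
    refine (norm_integral_le_integral_norm _).trans ?_
    have h1 : 2 * ∫ z in ball y 2, ‖V.H z‖ ∂V.μ =
        ∫ z, (ball y 2).indicator (fun z => 2 * ‖V.H z‖) z ∂V.μ := by
      rw [integral_indicator measurableSet_ball, integral_const_mul]
    rw [h1]
    refine integral_mono_of_nonneg (ae_of_all _ fun z => norm_nonneg _)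
      ((V.iH.norm.const_mul 2).indicator measurableSet_ball) (ae_of_all _ fun z => ?_)
    simp only
    refine (norm_inner_le_norm _ _).trans ?_
    refine (mul_le_mul_of_nonneg_left (hgn z) (norm_nonneg _)).trans ?_
    by_cases hz : z ∈ ball y 2
    · rw [Set.indicator_of_mem hz, Set.indicator_of_mem hz, mul_comm]
    · rw [Set.indicator_of_notMem hz, Set.indicator_of_notMem hz, mul_zero]
  -- the set
  have hAo : IsOpen (ball y 1 ∩ {z | ‖V₀ (z - p)‖ < σ}) :=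
    isOpen_ball.inter (isOpen_lt hvC.continuous.norm continuous_const)
  have hI3 : V.μ.real (ball y 1 ∩ {z | ‖V₀ (z - p)‖ < σ}) * (2 * σ ^ 2) ^ (-(1 / 4) : ℝ) ≤
      ∫ z, ζ z * Θ z ∂V.μ := by
    have h1 : V.μ.real (ball y 1 ∩ {z | ‖V₀ (z - p)‖ < σ}) * (2 * σ ^ 2) ^ (-(1 / 4) : ℝ) =
        ∫ z, (ball y 1 ∩ {z | ‖V₀ (z - p)‖ < σ}).indicator
          (fun _ => (2 * σ ^ 2) ^ (-(1 / 4) : ℝ)) z ∂V.μ := by
      rw [integral_indicator_const _ hAo.measurableSet, smul_eq_mul]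
    rw [h1]
    refine integral_mono ((integrable_const _).indicator hAo.measurableSet) hi1 fun z => ?_
    by_cases hz : z ∈ ball y 1 ∩ {z | ‖V₀ (z - p)‖ < σ}
    · rw [Set.indicator_of_mem hz, hζone z hz.1, one_mul, hΘe]
      simp only
      have h2 : ‖V₀ (z - p)‖ < σ := hz.2
      refine Real.rpow_le_rpow_of_nonpos (by positivity) ?_ (by norm_num)
      nlinarith only [h2, norm_nonneg (V₀ (z - p))]
    · rw [Set.indicator_of_notMem hz]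
      exact mul_nonneg (hζ0 z) (hΘpos z).le
  have hκ : 1 ≤ (2 * σ ^ 2) ^ (-(1 / 4) : ℝ) * (2 * Real.sqrt σ) := by
    refine D1_root' (by positivity) (by positivity) ?_
    have h1 : Real.sqrt σ ^ 2 = σ := Real.sq_sqrt hσ.le
    have h2 : (2 * Real.sqrt σ) ^ 4 = 16 * (Real.sqrt σ ^ 2) ^ 2 := by ring
    rw [h2, h1]
    nlinarith only []
  -- conclusion
  have hM : 0 ≤ V.μ.real (ball y 2) := measureReal_nonneg
  have hHH : 0 ≤ ∫ z in ball y 2, ‖V.H z‖ ∂V.μ := integral_nonneg fun z => norm_nonneg _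
  have hX : 0 ≤ V.μ.real (ball y 1 ∩ {z | ‖V₀ (z - p)‖ < σ}) := measureReal_nonneg
  have hsσ : 0 < Real.sqrt σ := Real.sqrt_pos.2 hσ
  generalize V.μ.real (ball y 1 ∩ {z | ‖V₀ (z - p)‖ < σ}) = Xm at *
  generalize V.μ.real (ball y 2) = M at *
  generalize ∫ z in ball y 2, ‖V.H z‖ ∂V.μ = HH at *
  generalize ∫ z, ζ z * Θ z ∂V.μ = I1 at *
  generalize (2 * σ ^ 2) ^ (-(1 / 4) : ℝ) = κ at *
  generalize Real.sqrt σ = s at *
  have h1 : Xm ≤ 2 * s * I1 := by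
    calc Xm = Xm * 1 := (mul_one _).symm
      _ ≤ Xm * (κ * (2 * s)) := mul_le_mul_of_nonneg_left hκ hX
      _ = 2 * s * (Xm * κ) := by ring
      _ ≤ 2 * s * I1 := mul_le_mul_of_nonneg_left hI3 (by positivity)
  have h2 : I1 ≤ 100 / 39 * (2 * HH + 51 / 25 * c₁ * M) := by
    have : M * (51 / 25 * c₁) = 51 / 25 * c₁ * M := by ring
    linarith
  have h3 : 100 / 39 * (2 * HH + 51 / 25 * c₁ * M) ≤ 3 * (3 + 3 * c₁) * (M + HH) := by
    have e1 : 0 ≤ c₁ * M := mul_nonneg hc0 hM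
    have e2 : 0 ≤ c₁ * HH := mul_nonneg hc0 hHH
    linarith only [hM, hHH, e1, e2]
  calc Xm ≤ 2 * s * I1 := h1
    _ ≤ 2 * s * (3 * (3 + 3 * c₁) * (M + HH)) :=
        mul_le_mul_of_nonneg_left (h2.trans h3) (by positivity)
    _ = 6 * (3 + 3 * c₁) * s * (M + HH) := by ring

end Allard
end
end

section

/-!
# D2: triple lemma (unit scale)

`c` from `strip_mass`.  Choose `ς = 2^{-J}` with `c √ς (C₃ + 1) ≤ 1/16`, `c_H = 1`.
`A := {z' ∈ ball y 1 | ς ≤ ‖z' - z₁‖, ς ≤ ‖z' - z₂‖}`.  `{‖z' - z₁‖ < ς} ⊆ {‖V₀ (z' - z₁)‖ < ς}`, so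
`μ A ≥ (7/8) μ (ball y 1) > 0`.
`q x := Qf μ A x / μ A`, `e₁ := 16 (μ A)⁻¹ ∫_A ga (P z₁)(z₁ - z')`, `e₂` the same with `z₂`: `Qf_ker`.
For a unit vector `e` of the range of `P z₁`, `V₀ = (1-P z₁) + e⊗e` (`V_of`): for `z'' ∈ A`,
`μ (A ∩ {‖V₀ (z'-z'')‖ < ς}) ≤ (1/16) μ(ball y 1) ≤ μ A/4` (`strip_mass` with `p = z''`), so `Qf_low` gives
`(3/4) ς² ≤ e₁ + q(e)²`.  Apply `triple_algebra` with `c = (3/4)ς²`.
Finally `(μA)⁻¹ ≤ (8/7)(μ ball)⁻¹`.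
-/

noncomputable section

open MeasureTheory Metric Set Filter Topology

namespace Allard

private lemma D2_exists_unit {n m : ℕ} (hm : 1 ≤ m) {P : Op n} (hP : Pr n m P) :
    ∃ e : E n, P e = e ∧ ‖e‖ = 1 := by
  by_contra hcon
  push Not at hcon
  have h0 : P = 0 := by
    refine ContinuousLinearMap.ext fun x => ?_
    by_contra hx
    have hx' : P x ≠ 0 := hx
    have hn : ‖P x‖ ≠ 0 := norm_ne_zero_iff.mpr hx'
    refine hcon (‖P x‖⁻¹ • P x) ?_ ?_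
    · rw [map_smul, hP.apply_apply]
    · rw [norm_smul, norm_inv, norm_norm, inv_mul_cancel₀ hn]
  have h1 := hP.trp
  rw [h0] at h1
  have h2 : tr (0 : Op n) = 0 := by
    have h3 := tr_sub (0 : Op n) (0 : Op n)
    rw [sub_self, sub_self] at h3
    exact h3
  rw [h2] at h1
  have h3 : (1 : ℝ) ≤ m := by exact_mod_cast hm
  linarith

private lemma D2_V_le {n m : ℕ} {P : Op n} (hP : Pr n m P) {e : E n} (he : P e = e)
    (he1 : ‖e‖ = 1) (x : E n) : ‖((1 - P) + rk e e) x‖ ≤ ‖x‖ := by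
  obtain ⟨-, -, -, h4⟩ := V_of hP he he1
  have h5 := h4 x
  have h6 := hP.pyth x
  have h7 : (inner ℝ e x : ℝ) ^ 2 ≤ ‖P x‖ ^ 2 := by
    have h8 : (inner ℝ e x : ℝ) = inner ℝ e (P x) := by
      conv_lhs => rw [← he]
      exact hP.inner_symm e x
    rw [h8]
    have h9 := abs_real_inner_le_norm e (P x)
    rw [he1, one_mul] at h9
    exact sq_le_sq' (by linarith [neg_abs_le (inner ℝ e (P x) : ℝ)])
      (by linarith [le_abs_self (inner ℝ e (P x) : ℝ)])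
  refine le_of_sq_le_sq ?_ (norm_nonneg _)
  linarith

private lemma D2_int_ga {n m : ℕ} (μ : Measure (E n)) [IsFiniteMeasure μ] (A : Set (E n))
    {P : Op n} (hP : Pr n m P) (z₁ : E n) :
    Integrable (fun z => ga P (z₁ - z)) (μ.restrict A) := by
  refine Integrable.mono' (g := fun _ => (1 : ℝ)) (integrable_const _) ?_ ?_
  · refine Measurable.aestronglyMeasurable ?_
    have h0 : Continuous (fun z : E n => z₁ - z) := continuous_const.sub continuous_id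
    have h1 : Continuous (fun z : E n => ‖(1 - P) (z₁ - z)‖ ^ 2) :=
      (((1 - P).continuous.comp h0).norm).pow 2
    have h2 : Continuous (fun z : E n => ‖z₁ - z‖ ^ 2) := h0.norm.pow 2
    exact h1.measurable.div h2.measurable
  · refine Filter.Eventually.of_forall fun z => ?_
    rw [Real.norm_eq_abs, abs_of_nonneg (ga_nonneg _)]
    exact ga_le_one hP _

private lemma D2_exists_J {c C₃ : ℝ} (hc : 0 < c) (hC₃ : 1 ≤ C₃) :
    ∃ J : ℕ, 1 ≤ J ∧ c * Real.sqrt ((1 / 2 : ℝ) ^ J) * (C₃ + 1) ≤ 1 / 16 := by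
  have hε : 0 < (1 / (16 * c * (C₃ + 1))) := by positivity
  obtain ⟨J, hJ⟩ := exists_pow_lt_of_lt_one (pow_pos hε 2) (show (1 / 2 : ℝ) < 1 by norm_num)
  refine ⟨J + 1, by omega, ?_⟩
  have h1 : (1 / 2 : ℝ) ^ (J + 1) ≤ (1 / (16 * c * (C₃ + 1))) ^ 2 := by
    refine le_trans ?_ hJ.le
    exact pow_le_pow_of_le_one (by norm_num) (by norm_num) (Nat.le_succ J)
  have h2 : Real.sqrt ((1 / 2 : ℝ) ^ (J + 1)) ≤ 1 / (16 * c * (C₃ + 1)) := by
    rw [Real.sqrt_le_left hε.le]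
    exact h1
  calc c * Real.sqrt ((1 / 2 : ℝ) ^ (J + 1)) * (C₃ + 1)
      ≤ c * (1 / (16 * c * (C₃ + 1))) * (C₃ + 1) := by gcongr
    _ = 1 / 16 := by field_simp

theorem triple_lemma (n m : ℕ) (hm : 1 ≤ m) (C₃ : ℝ) (hC₃ : 1 ≤ C₃) :
    ∃ (J : ℕ) (C : ℝ), 1 ≤ J ∧ 0 < C ∧
    ∀ {δ : ℝ} {S : Stress n m δ} {α Λ : ℝ} {U : Set (E n)} (V : Sys S α Λ U),
    0 ≤ δ → δ ≤ d0 n → ∀ (y : E n), closedBall y 2 ⊆ U →
    0 < V.μ.real (ball y 1) → V.μ.real (ball y 2) ≤ C₃ * V.μ.real (ball y 1) →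
    ∫ z in ball y 2, ‖V.H z‖ ∂V.μ ≤ V.μ.real (ball y 1) →
    ∀ z₁ ∈ ball y 1, ∀ z₂ ∈ ball y 1,
    ‖V.P z₁ - V.P z₂‖ ^ 2 ≤ C / V.μ.real (ball y 1) *
      ∫ z in {z | z ∈ ball y 1 ∧ (1 / 2) ^ J ≤ ‖z - z₁‖ ∧ (1 / 2) ^ J ≤ ‖z - z₂‖},
        (ga (V.P z₁) (z₁ - z) + ga (V.P z₂) (z₂ - z)) ∂V.μ := by
  obtain ⟨c, hc, hstrip⟩ := strip_mass n m hm
  obtain ⟨J, hJ1, hJ⟩ := D2_exists_J hc hC₃
  have hm' : (1 : ℝ) ≤ m := by exact_mod_cast hm
  have hς : (0 : ℝ) < (1 / 2) ^ J := by positivity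
  have hς1 : ((1 / 2 : ℝ)) ^ J ≤ 1 := pow_le_one₀ (by norm_num) (by norm_num)
  refine ⟨J, 200 * m / ((1 / 2 : ℝ) ^ J) ^ 2, hJ1, by positivity, ?_⟩
  intro δ S α Λ U V hδ hδ' y hy hpos hC hH z₁ hz₁ z₂ hz₂
  set ς : ℝ := (1 / 2) ^ J with hςdef
  set A : Set (E n) := {z | z ∈ ball y 1 ∧ ς ≤ ‖z - z₁‖ ∧ ς ≤ ‖z - z₂‖} with hAdef
  have hA : MeasurableSet A := by
    have h1 : MeasurableSet {z : E n | ς ≤ ‖z - z₁‖} :=
      measurableSet_le measurable_const (measurable_id.sub measurable_const).norm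
    have h2 : MeasurableSet {z : E n | ς ≤ ‖z - z₂‖} :=
      measurableSet_le measurable_const (measurable_id.sub measurable_const).norm
    exact measurableSet_ball.inter (h1.inter h2)
  have hAy : A ⊆ ball y 1 := fun z hz => hz.1
  set M : ℝ := V.μ.real (ball y 1) with hM
  -- the strip estimate
  have hst : ∀ e : E n, V.P z₁ e = e → ‖e‖ = 1 → ∀ p : E n, dist p y ≤ 1 →
      V.μ.real (ball y 1 ∩ {z | ‖((1 - V.P z₁) + rk e e) (z - p)‖ < ς}) ≤ 1 / 16 * M := by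
    intro e he he1 p hp
    obtain ⟨h1, h2, h3, -⟩ := V_of (V.hP z₁) he he1
    have h5 := hstrip V hδ hδ' y hy _ h1 h2 h3 p ς hp hς hς1
    refine h5.trans ?_
    have h6 : V.μ.real (ball y 2) + ∫ z in ball y 2, ‖V.H z‖ ∂V.μ ≤ (C₃ + 1) * M := by
      linarith
    calc c * Real.sqrt ς * (V.μ.real (ball y 2) + ∫ z in ball y 2, ‖V.H z‖ ∂V.μ)
        ≤ c * Real.sqrt ς * ((C₃ + 1) * M) := by gcongr
      _ = (c * Real.sqrt ς * (C₃ + 1)) * M := by ring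
      _ ≤ 1 / 16 * M := by gcongr
  -- the mass of A
  have hMA : 7 / 8 * M ≤ V.μ.real A := by
    obtain ⟨e, he, he1⟩ := D2_exists_unit hm (V.hP z₁)
    have h1 := hst e he he1 z₁ (mem_ball.mp hz₁).le
    have h2 := hst e he he1 z₂ (mem_ball.mp hz₂).le
    have h3 : ball y 1 ⊆ A ∪
        ((ball y 1 ∩ {z | ‖((1 - V.P z₁) + rk e e) (z - z₁)‖ < ς}) ∪
        (ball y 1 ∩ {z | ‖((1 - V.P z₁) + rk e e) (z - z₂)‖ < ς})) := by
      intro z hz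
      by_cases ha : ς ≤ ‖z - z₁‖
      · by_cases hb : ς ≤ ‖z - z₂‖
        · exact Or.inl ⟨hz, ha, hb⟩
        · exact Or.inr (Or.inr ⟨hz, (D2_V_le (V.hP z₁) he he1 _).trans_lt (not_le.mp hb)⟩)
      · exact Or.inr (Or.inl ⟨hz, (D2_V_le (V.hP z₁) he he1 _).trans_lt (not_le.mp ha)⟩)
    have h4 := measureReal_mono (μ := V.μ) h3
    have h5 := measureReal_union_le (μ := V.μ) A
        ((ball y 1 ∩ {z | ‖((1 - V.P z₁) + rk e e) (z - z₁)‖ < ς}) ∪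
        (ball y 1 ∩ {z | ‖((1 - V.P z₁) + rk e e) (z - z₂)‖ < ς}))
    have h6 := measureReal_union_le (μ := V.μ)
        (ball y 1 ∩ {z | ‖((1 - V.P z₁) + rk e e) (z - z₁)‖ < ς})
        (ball y 1 ∩ {z | ‖((1 - V.P z₁) + rk e e) (z - z₂)‖ < ς})
    linarith
  set a : ℝ := V.μ.real A with ha
  have ha0 : 0 < a := by linarith
  set I₁ : ℝ := ∫ z in A, ga (V.P z₁) (z₁ - z) ∂V.μ with hI₁
  set I₂ : ℝ := ∫ z in A, ga (V.P z₂) (z₂ - z) ∂V.μ with hI₂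
  have hI₁0 : 0 ≤ I₁ := integral_nonneg fun z => ga_nonneg _
  have hI₂0 : 0 ≤ I₂ := integral_nonneg fun z => ga_nonneg _
  have hsum : ∫ z in A, (ga (V.P z₁) (z₁ - z) + ga (V.P z₂) (z₂ - z)) ∂V.μ = I₁ + I₂ :=
    integral_add (D2_int_ga V.μ A (V.hP z₁) z₁) (D2_int_ga V.μ A (V.hP z₂) z₂)
  rw [hsum]
  have key := triple_algebra hm (V.hP z₁) (V.hP z₂) (fun x => Qf V.μ A x / a)
    (fun x => div_nonneg (Qf_nonneg _ _ _) ha0.le)
    (fun x x' => by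
      rw [← add_div]
      exact div_le_div_of_nonneg_right (Qf_add V.μ hA hAy x x') ha0.le)
    (fun t x => by
      rw [Qf_smul, mul_div_assoc])
    (e₁ := 16 * a⁻¹ * I₁) (e₂ := 16 * a⁻¹ * I₂) (c := 3 / 4 * ς ^ 2) (by positivity)
    (by positivity) (by positivity)
    (fun x hx => by
      have h : Qf V.μ A x ^ 2 ≤ 16 * a * I₁ * ‖x‖ ^ 2 := Qf_ker V.μ hA hAy (V.hP z₁) hz₁ hx
      change (Qf V.μ A x / a) ^ 2 ≤ _
      rw [div_pow, div_le_iff₀ (by positivity)]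
      refine h.trans (le_of_eq ?_)
      field_simp)
    (fun x hx => by
      have h : Qf V.μ A x ^ 2 ≤ 16 * a * I₂ * ‖x‖ ^ 2 := Qf_ker V.μ hA hAy (V.hP z₂) hz₂ hx
      change (Qf V.μ A x / a) ^ 2 ≤ _
      rw [div_pow, div_le_iff₀ (by positivity)]
      refine h.trans (le_of_eq ?_)
      field_simp)
    (fun e he he1 => by
      have h := Qf_low V.μ hA hAy (V.hP z₁) hz₁ he he1 hς (fun w hw => by
        have h1 := hst e he he1 w (mem_ball.mp (hAy hw)).le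
        have h2 : V.μ.real (A ∩ {z | ‖((1 - V.P z₁) + rk e e) (z - w)‖ < ς}) ≤
            V.μ.real (ball y 1 ∩ {z | ‖((1 - V.P z₁) + rk e e) (z - w)‖ < ς}) :=
          measureReal_mono (Set.inter_subset_inter_left _ hAy)
        linarith)
      change _ ≤ _ + (Qf V.μ A e / a) ^ 2
      have h3 : 16 * a⁻¹ * I₁ + (Qf V.μ A e / a) ^ 2 =
          (16 * a * I₁ + Qf V.μ A e ^ 2) / a ^ 2 := by
        field_simp
      rw [h3, le_div_iff₀ (by positivity)]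
      exact h)
  refine key.trans ?_
  have h8 : a⁻¹ ≤ 8 / 7 * M⁻¹ := by
    rw [inv_le_comm₀ ha0 (by positivity)]
    have h9 : (8 / 7 * M⁻¹)⁻¹ = 7 / 8 * M := by
      field_simp
    rw [h9]
    exact hMA
  have h10 : 0 ≤ I₁ + I₂ := by positivity
  calc 8 * m * (16 * a⁻¹ * I₁ + 16 * a⁻¹ * I₂) / (3 / 4 * ς ^ 2)
      = (8 * 16 * (4 / 3) * m / ς ^ 2) * (I₁ + I₂) * a⁻¹ := by
        field_simp
    _ ≤ (8 * 16 * (4 / 3) * m / ς ^ 2) * (I₁ + I₂) * (8 / 7 * M⁻¹) := by gcongr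
    _ = (8 * 16 * (4 / 3) * (8 / 7)) * ((m / ς ^ 2) * (I₁ + I₂) * M⁻¹) := by ring
    _ ≤ 200 * ((m / ς ^ 2) * (I₁ + I₂) * M⁻¹) := by
        have : 0 ≤ (m / ς ^ 2) * (I₁ + I₂) * M⁻¹ := by positivity
        nlinarith
    _ = 200 * m / ς ^ 2 / M * (I₁ + I₂) := by
        field_simp

end Allard
end
end
end
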