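import Pool.Agent.Lib.MP_5932b0_an.AR.Defs
import Pool.Agent.Lib.MP_5932b0_an.AR.D2
import Pool.Agent.Lib.MP_5932b0_an.AR.B1
import Pool.Agent.Lib.MP_5932b0_an.ST.Fin
import Pool.Agent.Lib.MP_5932b0_an.AR.A4

section

section

/-!
# F1: covering lemma and growth lemma

`covering`: `ball x r` is covered by `N(n)` balls `ball (x_i) (r/2)` (compactness of the closed unit
ball, scaled and translated).  For `y ∈ ball x_i (r/2)`, `ball x_i (r/2) ⊆ ball y r`, so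
`(μ (ball y r))⁻¹ ≤ (μ (ball x_i (r/2)))⁻¹`, and `∫⁻_{ball x_i (r/2)} (μ (ball x_i (r/2)))⁻¹ ≤ 1`.

`growth`: iterate: `S K ≤ B (1 + δ' + ... + δ'^{i-1}) + δ'^i S (K + i J) ≤ 2 B + δ'^i A' 2^{(K + i J)/2}`,
and `(δ' 2^{J/2})^i ≤ 2^{-i} → 0`.
-/

noncomputable section

open MeasureTheory Metric Set Filter Topology

namespace Allard

private theorem F1_biUnion {α ι : Type*} [MeasurableSpace α] (μ : Measure α) (s : Finset ι)
    (A : ι → Set α) (f : α → ENNReal) :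
    ∫⁻ y in ⋃ i ∈ s, A i, f y ∂μ ≤ ∑ i ∈ s, ∫⁻ y in A i, f y ∂μ := by
  classical
  induction s using Finset.induction_on with
  | empty => simp
  | insert i s hi ih =>
    rw [Finset.set_biUnion_insert, Finset.sum_insert hi]
    exact (lintegral_union_le _ _ _).trans (add_le_add le_rfl ih)

theorem covering (n : ℕ) : ∃ c : ℝ, 0 < c ∧ ∀ (μ : Measure (E n)) [IsFiniteMeasure μ] (x : E n)
    (r : ℝ), 0 < r → ∫⁻ y in ball x r, (μ (ball y r))⁻¹ ∂μ ≤ ENNReal.ofReal c := by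
  obtain ⟨t, -, htf, hcov⟩ := (isCompact_closedBall (0 : E n) 1).finite_cover_balls
    (e := 1 / 2) (by norm_num)
  refine ⟨(htf.toFinset.card : ℝ) + 1, by positivity, fun μ _ x r hr => ?_⟩
  have hsub : ball x r ⊆ ⋃ i ∈ htf.toFinset, ball (x + r • i) (r / 2) := by
    intro y hy
    have h1 : r⁻¹ • (y - x) ∈ closedBall (0 : E n) 1 := by
      rw [mem_closedBall_zero_iff, norm_smul, norm_inv, Real.norm_of_nonneg hr.le]
      rw [mem_ball, dist_eq_norm] at hy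
      rw [inv_mul_le_iff₀ hr, mul_one]
      exact hy.le
    obtain ⟨i, hi, hi2⟩ := Set.mem_iUnion₂.mp (hcov h1)
    refine Set.mem_iUnion₂.mpr ⟨i, htf.mem_toFinset.mpr hi, ?_⟩
    rw [mem_ball, dist_eq_norm] at hi2 ⊢
    have h2 : y - (x + r • i) = r • (r⁻¹ • (y - x) - i) := by
      rw [smul_sub, smul_inv_smul₀ hr.ne']
      abel
    rw [h2, norm_smul, Real.norm_of_nonneg hr.le]
    calc r * ‖r⁻¹ • (y - x) - i‖ < r * (1 / 2) := mul_lt_mul_of_pos_left hi2 hr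
      _ = r / 2 := by ring
  have hone : ∀ i ∈ htf.toFinset,
      ∫⁻ y in ball (x + r • i) (r / 2), (μ (ball y r))⁻¹ ∂μ ≤ 1 := by
    intro i _
    calc ∫⁻ y in ball (x + r • i) (r / 2), (μ (ball y r))⁻¹ ∂μ
        ≤ ∫⁻ _y in ball (x + r • i) (r / 2), (μ (ball (x + r • i) (r / 2)))⁻¹ ∂μ := by
          refine setLIntegral_mono' measurableSet_ball fun y hy => ?_
          refine ENNReal.inv_le_inv.mpr (measure_mono fun z hz => ?_)
          rw [mem_ball] at hy hz ⊢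
          have h3 := dist_triangle z (x + r • i) y
          rw [dist_comm (x + r • i) y] at h3
          linarith
      _ = (μ (ball (x + r • i) (r / 2)))⁻¹ * μ (ball (x + r • i) (r / 2)) := by
          rw [setLIntegral_const]
      _ ≤ 1 := ENNReal.inv_mul_le_one _
  calc ∫⁻ y in ball x r, (μ (ball y r))⁻¹ ∂μ
      ≤ ∫⁻ y in ⋃ i ∈ htf.toFinset, ball (x + r • i) (r / 2), (μ (ball y r))⁻¹ ∂μ :=
        lintegral_mono_set hsub
    _ ≤ ∑ i ∈ htf.toFinset, ∫⁻ y in ball (x + r • i) (r / 2), (μ (ball y r))⁻¹ ∂μ :=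
        F1_biUnion _ _ _ _
    _ ≤ ∑ _i ∈ htf.toFinset, 1 := Finset.sum_le_sum hone
    _ = (htf.toFinset.card : ENNReal) := by simp
    _ ≤ ENNReal.ofReal ((htf.toFinset.card : ℝ) + 1) := by
        rw [ENNReal.ofReal_add (by positivity) (by norm_num), ENNReal.ofReal_natCast]
        exact le_self_add

theorem growth (Sq : ℕ → ℝ) (B A' δ' : ℝ) (J : ℕ) (hB : 0 ≤ B) (hδ : 0 ≤ δ')
    (h1 : δ' * (2 : ℝ) ^ ((J : ℝ) / 2) ≤ 1 / 2) (hA : 0 ≤ A')
    (hS : ∀ K, Sq K ≤ B + δ' * Sq (K + J))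
    (hup : ∀ K : ℕ, Sq K ≤ A' * (2 : ℝ) ^ ((K : ℝ) / 2)) (K : ℕ) : Sq K ≤ 2 * B := by
  have hJ1 : (1 : ℝ) ≤ (2 : ℝ) ^ ((J : ℝ) / 2) := Real.one_le_rpow (by norm_num) (by positivity)
  have hδ2 : δ' ≤ 1 / 2 := by nlinarith
  have hiter : ∀ i : ℕ, Sq K ≤ 2 * B * (1 - (1 / 2) ^ i) + δ' ^ i * Sq (K + i * J) := by
    intro i
    induction i with
    | zero => simp
    | succ i ih =>
      have h2 := hS (K + i * J)
      have h3 : K + i * J + J = K + (i + 1) * J := by ring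
      rw [h3] at h2
      have h4 : δ' ^ i ≤ (1 / 2) ^ i := pow_le_pow_left₀ hδ hδ2 i
      have h5 : 0 ≤ δ' ^ i := pow_nonneg hδ i
      have h6 : δ' ^ i * Sq (K + i * J) ≤ δ' ^ i * (B + δ' * Sq (K + (i + 1) * J)) :=
        mul_le_mul_of_nonneg_left h2 h5
      have h7 : δ' ^ i * B ≤ (1 / 2) ^ i * B := mul_le_mul_of_nonneg_right h4 hB
      calc Sq K ≤ 2 * B * (1 - (1 / 2) ^ i) + δ' ^ i * Sq (K + i * J) := ih
        _ ≤ 2 * B * (1 - (1 / 2) ^ i) + δ' ^ i * (B + δ' * Sq (K + (i + 1) * J)) := by linarith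
        _ = 2 * B * (1 - (1 / 2) ^ i) + δ' ^ i * B + δ' ^ (i + 1) * Sq (K + (i + 1) * J) := by ring
        _ ≤ 2 * B * (1 - (1 / 2) ^ i) + (1 / 2) ^ i * B
              + δ' ^ (i + 1) * Sq (K + (i + 1) * J) := by linarith
        _ = 2 * B * (1 - (1 / 2) ^ (i + 1)) + δ' ^ (i + 1) * Sq (K + (i + 1) * J) := by ring
  have hbd : ∀ i : ℕ, Sq K ≤ 2 * B + (A' * (2 : ℝ) ^ ((K : ℝ) / 2)) * (1 / 2) ^ i := by
    intro i
    have h2 := hup (K + i * J)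
    have h5 : 0 ≤ δ' ^ i := pow_nonneg hδ i
    have h6 : (2 : ℝ) ^ (((K + i * J : ℕ) : ℝ) / 2)
        = (2 : ℝ) ^ ((K : ℝ) / 2) * ((2 : ℝ) ^ ((J : ℝ) / 2)) ^ i := by
      rw [← Real.rpow_natCast, ← Real.rpow_mul (by norm_num), ← Real.rpow_add (by norm_num)]
      congr 1
      push_cast
      ring
    have h7 : (δ' * (2 : ℝ) ^ ((J : ℝ) / 2)) ^ i ≤ (1 / 2) ^ i :=
      pow_le_pow_left₀ (by positivity) h1 i
    have h8 : δ' ^ i * Sq (K + i * J) ≤ (A' * (2 : ℝ) ^ ((K : ℝ) / 2)) * (1 / 2) ^ i := by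
      calc δ' ^ i * Sq (K + i * J)
          ≤ δ' ^ i * (A' * (2 : ℝ) ^ (((K + i * J : ℕ) : ℝ) / 2)) :=
            mul_le_mul_of_nonneg_left h2 h5
        _ = (A' * (2 : ℝ) ^ ((K : ℝ) / 2)) * (δ' * (2 : ℝ) ^ ((J : ℝ) / 2)) ^ i := by
            rw [h6, mul_pow]
            ring
        _ ≤ (A' * (2 : ℝ) ^ ((K : ℝ) / 2)) * (1 / 2) ^ i :=
            mul_le_mul_of_nonneg_left h7 (by positivity)
    have h9 : 2 * B * (1 - (1 / 2) ^ i) ≤ 2 * B := by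
      have h10 : (0 : ℝ) ≤ (1 / 2) ^ i := by positivity
      nlinarith
    have h11 := hiter i
    linarith
  have hlim : Tendsto (fun i : ℕ => 2 * B + (A' * (2 : ℝ) ^ ((K : ℝ) / 2)) * (1 / 2 : ℝ) ^ i)
      atTop (𝓝 (2 * B + (A' * (2 : ℝ) ^ ((K : ℝ) / 2)) * 0)) :=
    ((tendsto_pow_atTop_nhds_zero_of_lt_one (by norm_num) (by norm_num)).const_mul _).const_add _
  rw [mul_zero, add_zero] at hlim
  exact ge_of_tendsto' hlim hbd

end Allard
end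
end

section

/-!
# F3: the non-doubling case

Kernel with `τ = 1/2`, `Q = V.P y`, `s = ρ/2`, `r = 8ρ`, `C₃ = 8 * 16^m`.
`I (8ρ) ≥ (1-δ)(8ρ)^{-m} μ(ball y 2ρ)` (`le_I`, `(1-τ) 8ρ/(1+3δ) ≥ 2ρ`),
`I (ρ/2) ≤ (1+δ)(ρ/2)^{-m} μ(ball y ρ)` (`I_le`), so `I (ρ/2) ≤ I (8ρ)/2`.
`MI_up`: `I(8ρ)/2 ≤ 3 ∫ N ga + 240 δ² ∫ N + curvature`, `Nn_int_le`: `240 δ² ∫ N ≤ I(8ρ)/4` for `δ ≤ δ₃`,
`curv_le'`: `≤ 2 * 32^m hh (16ρ)`.
`Nn ≤ (4/ρ)^m` (`Nn_le'`), `Nn ≠ 0` only for `ρ/4 < t < 8ρ`, i.e. `ρ/8 ≤ ‖z-y‖ < 16ρ`: the seven annuli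
`16ρ/2^i`, `i < 7`.  `(ρ^m)⁻¹ ∫_{annulus r'} ga ≤ 16^m gg r'` for `r' ≤ 16ρ`.
Finally `ls ρ y ≤ 4 ρ^{-m} μ(ball y ρ) ≤ 4 ρ^{-m} μ(ball y 2ρ) ≤ 8 * 8^m I(8ρ)`.
-/

noncomputable section

open MeasureTheory Metric Set Filter Topology

namespace Allard

private theorem F3_cover {ρ t : ℝ} (hρ : 0 < ρ) (h1 : ρ / 8 ≤ t) (h2 : t < 16 * ρ) :
    ∃ i ∈ Finset.range 7, 16 * ρ * (1 / 2) ^ i / 2 ≤ t ∧ t < 16 * ρ * (1 / 2) ^ i := by
  by_cases c0 : 8 * ρ ≤ t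
  · exact ⟨0, by simp, by norm_num; linarith, by norm_num; linarith⟩
  by_cases c1 : 4 * ρ ≤ t
  · exact ⟨1, by simp, by norm_num; linarith, by norm_num; linarith⟩
  by_cases c2 : 2 * ρ ≤ t
  · exact ⟨2, by simp, by norm_num; linarith, by norm_num; linarith⟩
  by_cases c3 : ρ ≤ t
  · exact ⟨3, by simp, by norm_num; linarith, by norm_num; linarith⟩
  by_cases c4 : ρ / 2 ≤ t
  · exact ⟨4, by simp, by norm_num; linarith, by norm_num; linarith⟩
  by_cases c5 : ρ / 4 ≤ t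
  · exact ⟨5, by simp, by norm_num; linarith, by norm_num; linarith⟩
  · exact ⟨6, by simp, by norm_num; linarith, by norm_num; linarith⟩

theorem amf_nd (n m : ℕ) (hm : 1 ≤ m) : ∃ C₃ C δ₃ : ℝ, 1 ≤ C₃ ∧ 0 < C ∧ 0 < δ₃ ∧ δ₃ ≤ d0 n ∧
    ∀ {δ : ℝ} {S : Stress n m δ} {α Λ : ℝ} {U : Set (E n)} (V : Sys S α Λ U),
    0 ≤ δ → δ ≤ δ₃ → ∀ (y : E n) (ρ : ℝ), 0 < ρ → closedBall y (16 * ρ) ⊆ U →
    C₃ * V.μ.real (ball y ρ) ≤ V.μ.real (ball y (2 * ρ)) →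
    V.ls ρ y ≤ C * (∑ i ∈ Finset.range 7, V.gg (16 * ρ * (1 / 2) ^ i) y + V.hh (16 * ρ) y) := by
  obtain ⟨η, h⟩ := exists_ker (1 / 2) (by norm_num) (by norm_num)
  have h16 : (1 : ℝ) ≤ 16 ^ m := one_le_pow₀ (by norm_num)
  have h32 : (1 : ℝ) ≤ 32 ^ m := one_le_pow₀ (by norm_num)
  refine ⟨8 * 16 ^ m, 96 * 512 ^ m, min (d0 n) (1 / (1920 * 32 ^ m)), by linarith, by positivity,
    lt_min d0_pos (by positivity), min_le_left _ _, ?_⟩
  intro δ S α Λ U V hδ hδ3 y ρ hρ hU hnd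
  have hd0 : δ ≤ d0 n := hδ3.trans (min_le_left _ _)
  have hd : δ ≤ 1 / 100 := hd0.trans d0_le
  have hd3 : δ ≤ 1 / (1920 * 32 ^ m) := hδ3.trans (min_le_right _ _)
  set Q := V.P y with hQdef
  have hQ : Pr n m Q := V.hP y
  have hs : 0 < ρ / 2 := by linarith only [hρ]
  have hr : ρ / 2 < 8 * ρ := by linarith
  have hr0 : 0 < 8 * ρ := by linarith
  have h3 : (0 : ℝ) < 1 - 3 * δ := by linarith
  have h3' : (0 : ℝ) < 1 + 3 * δ := by linarith only [hδ]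
  -- masses
  set a : ℝ := (ρ ^ m)⁻¹ with ha
  have ha0 : 0 < a := by positivity
  set M1 := V.μ.real (ball y ρ) with hM1
  set M2 := V.μ.real (ball y (2 * ρ)) with hM2
  have hM1' : 0 ≤ M1 := measureReal_nonneg
  have hM2' : 0 ≤ M2 := measureReal_nonneg
  have hM12 : M1 ≤ M2 := measureReal_mono (ball_subset_ball (by linarith)) (measure_ne_top _ _)
  have e8 : ((8 * ρ) ^ m)⁻¹ = (8 ^ m)⁻¹ * a := by rw [mul_pow, mul_inv]
  have e2 : ((ρ / 2) ^ m)⁻¹ = 2 ^ m * a := by rw [div_pow, inv_div, div_eq_mul_inv]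
  have h8m : (0 : ℝ) < 8 ^ m := by positivity
  set X : ℝ := (8 ^ m)⁻¹ * a * M2 with hX
  have hX0 : 0 ≤ X := by positivity
  set Y : ℝ := 2 ^ m * a * M1 with hY
  have hY0 : 0 ≤ Y := by positivity
  have hXY : 8 * Y ≤ X := by
    have h4 : a * (8 * 16 ^ m * M1) ≤ a * M2 := mul_le_mul_of_nonneg_left hnd ha0.le
    have h5 : (16 : ℝ) ^ m = 8 ^ m * 2 ^ m := by rw [← mul_pow]; norm_num
    have e : X = (a * M2) / 8 ^ m := by rw [hX, div_eq_inv_mul]; ring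
    rw [e, le_div_iff₀ h8m]
    calc 8 * Y * 8 ^ m = a * (8 * (8 ^ m * 2 ^ m) * M1) := by rw [hY]; ring
      _ ≤ a * M2 := by rw [← h5]; exact h4
  -- lower bound of I (8ρ)
  have hI8 : (1 - δ) * X ≤ V.I η Q y (8 * ρ) := by
    have h4 := V.le_I h hδ hd0 hQ y hr0
    refine le_trans ?_ h4
    rw [hX, e8]
    have h5 : M2 ≤ V.μ.real (ball y ((1 - 1 / 2) * (8 * ρ) / (1 + 3 * δ))) := by
      refine measureReal_mono (ball_subset_ball ?_) (measure_ne_top _ _)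
      rw [le_div_iff₀ h3']
      nlinarith only [hr0, h3]
    exact mul_le_mul_of_nonneg_left (mul_le_mul_of_nonneg_left h5 (by positivity)) (by linarith only [h3])
  have hI2 : V.I η Q y (ρ / 2) ≤ (1 + δ) * Y := by
    have h4 := V.I_le h hδ hd0 hQ y hs
    refine h4.trans ?_
    rw [hY, e2]
    have h5 : V.μ.real (ball y (ρ / 2 / (1 - 3 * δ))) ≤ M1 := by
      refine measureReal_mono (ball_subset_ball ?_) (measure_ne_top _ _)
      rw [div_le_iff₀ h3]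
      nlinarith only [hd, hs]
    exact mul_le_mul_of_nonneg_left (mul_le_mul_of_nonneg_left h5 (by positivity)) (by linarith only [h3'])
  set I8 := V.I η Q y (8 * ρ) with hI8def
  have hI80 : 0 ≤ I8 := V.I_nonneg h hδ hd0 Q y hr0
  have hX2 : X ≤ 2 * I8 := by nlinarith only [h3, hY0, hXY, hI8]
  have hI2' : V.I η Q y (ρ / 2) ≤ I8 / 2 := by nlinarith only [h3, hY0, hXY, hI2, hI8]
  -- monotonicity
  have hU' : closedBall y (8 * ρ / (1 - 3 * δ)) ⊆ U := by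
    refine (closedBall_subset_closedBall ?_).trans hU
    rw [div_le_iff₀ h3]
    nlinarith only [hρ, hd]
  have hMI := V.MI_up h hm hδ hd0 hQ y hs hr hU'
  have hcurv := V.curv_le' h hm hδ hd0 hQ y hs hr
  have hNint := V.Nn_int_le h hm hδ hd0 hQ y hs hr
  have e32 : 2 * (8 * ρ) / (ρ / 2) = 32 := by field_simp; norm_num
  have e16 : 2 * (8 * ρ) = 16 * ρ := by ring
  rw [e32] at hcurv hNint
  rw [e16] at hcurv
  -- the weight
  have hgn0 : ∀ z : E n, 0 ≤ gn (S.G Q) (z - y) := fun z => Real.sqrt_nonneg _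
  have hN0 : ∀ z : E n, 0 ≤ Nn m η (ρ / 2) (8 * ρ) (gn (S.G Q) (z - y)) := fun z =>
    Nn_nonneg h hm hs hr (hgn0 z)
  have hN1 : ∀ z : E n, Nn m η (ρ / 2) (8 * ρ) (gn (S.G Q) (z - y)) ≤ (2 / (ρ / 2)) ^ m := fun z =>
    (Nn_le' h hm hs hr (hgn0 z)).trans
      (mul_le_of_le_one_right (by positivity) (h.le_one _))
  have hNm : Measurable fun z : E n => Nn m η (ρ / 2) (8 * ρ) (gn (S.G Q) (z - y)) :=
    ((continuous_Nn h hm hs hr).comp
      ((gn_continuous (S.G Q)).comp (continuous_id.sub continuous_const))).measurable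
  have hPm : Measurable fun z => ‖V.P z - Q‖ ^ 2 := ((V.mP.sub_const Q).norm).pow_const 2
  have hNI : Integrable (fun z : E n => Nn m η (ρ / 2) (8 * ρ) (gn (S.G Q) (z - y))) V.μ :=
    V.integrable_bdd hNm (c := (2 / (ρ / 2)) ^ m) fun z => by
      rw [abs_of_nonneg (hN0 z)]; exact hN1 z
  have hP4 : ∀ z, ‖V.P z - Q‖ ^ 2 ≤ 4 := fun z => by
    have := (V.hP z).norm_sub_le hQ
    nlinarith only [this, norm_nonneg (V.P z - Q)]
  have hB : ∫ z, Nn m η (ρ / 2) (8 * ρ) (gn (S.G Q) (z - y)) * ‖V.P z - Q‖ ^ 2 ∂V.μ ≤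
      4 * ∫ z, Nn m η (ρ / 2) (8 * ρ) (gn (S.G Q) (z - y)) ∂V.μ := by
    rw [← integral_const_mul]
    refine integral_mono ?_ (hNI.const_mul 4) fun z => ?_
    · refine V.integrable_bdd (hNm.mul hPm) (c := (2 / (ρ / 2)) ^ m * 4) fun z => ?_
      rw [abs_of_nonneg (mul_nonneg (hN0 z) (sq_nonneg _))]
      exact mul_le_mul (hN1 z) (hP4 z) (sq_nonneg _) (by positivity)
    · show _ * _ ≤ 4 * _
      nlinarith only [hN0 z, hP4 z]
  have hδ2 : 60 * δ ^ 2 * ∫ z, Nn m η (ρ / 2) (8 * ρ) (gn (S.G Q) (z - y)) * ‖V.P z - Q‖ ^ 2 ∂V.μ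
      ≤ I8 / 4 := by
    have h4 : 1920 * 32 ^ m * δ ≤ 1 := by
      rw [le_div_iff₀ (by positivity)] at hd3
      linarith only [hd3]
    have h5 : 480 * δ ^ 2 * 32 ^ m ≤ 1 / 4 := by
      have : 480 * δ ^ 2 * 32 ^ m = (1920 * 32 ^ m * δ) * (δ / 4) := by ring
      rw [this]
      nlinarith only [h32, hδ, h4]
    calc 60 * δ ^ 2 * ∫ z, Nn m η (ρ / 2) (8 * ρ) (gn (S.G Q) (z - y)) * ‖V.P z - Q‖ ^ 2 ∂V.μ
        ≤ 60 * δ ^ 2 * (4 * (2 * 32 ^ m * I8)) := by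
          refine mul_le_mul_of_nonneg_left (hB.trans ?_) (by positivity)
          linarith only [hNint]
      _ = (480 * δ ^ 2 * 32 ^ m) * I8 := by ring
      _ ≤ 1 / 4 * I8 := mul_le_mul_of_nonneg_right h5 hI80
      _ = I8 / 4 := by ring
  -- the gain
  set r' : ℕ → ℝ := fun i => 16 * ρ * (1 / 2) ^ i with hr'
  have hr'0 : ∀ i, 0 < r' i := fun i => by positivity
  have hr'1 : ∀ i, r' i ≤ 16 * ρ := fun i => by
    show 16 * ρ * (1 / 2) ^ i ≤ 16 * ρ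
    exact mul_le_of_le_one_right (by positivity) (pow_le_one₀ (by norm_num) (by norm_num))
  set A : ℕ → Set (E n) := fun i => {z | r' i / 2 ≤ ‖z - y‖ ∧ ‖z - y‖ < r' i} with hA
  have hAm : ∀ i, MeasurableSet (A i) := fun i => by
    have h1 : Measurable fun z : E n => ‖z - y‖ := (measurable_id.sub_const y).norm
    exact (measurableSet_le measurable_const h1).inter (measurableSet_lt h1 measurable_const)
  have hgm := V.measurable_ga y
  have hga0 : ∀ z, 0 ≤ ga (V.P z) (z - y) := fun z => ga_nonneg _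
  have hga1 : ∀ z, ga (V.P z) (z - y) ≤ 1 := fun z => ga_le_one (V.hP z) _
  have hgI : Integrable (fun z => ga (V.P z) (z - y)) V.μ :=
    V.integrable_bdd hgm (c := 1) fun z => by rw [abs_of_nonneg (hga0 z)]; exact hga1 z
  have hgain : ∫ z, Nn m η (ρ / 2) (8 * ρ) (gn (S.G Q) (z - y)) * ga (V.P z) (z - y) ∂V.μ ≤
      64 ^ m * ∑ i ∈ Finset.range 7, V.gg (r' i) y := by
    have h4 : ∀ z, Nn m η (ρ / 2) (8 * ρ) (gn (S.G Q) (z - y)) * ga (V.P z) (z - y) ≤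
        ∑ i ∈ Finset.range 7, (A i).indicator (fun z => (2 / (ρ / 2)) ^ m * ga (V.P z) (z - y)) z := by
      intro z
      have hind : ∀ i, 0 ≤ (A i).indicator (fun z => (2 / (ρ / 2)) ^ m * ga (V.P z) (z - y)) z :=
        fun i => indicator_nonneg (fun z _ => mul_nonneg (by positivity) (hga0 z)) z
      have hsum : 0 ≤ ∑ i ∈ Finset.range 7,
          (A i).indicator (fun z => (2 / (ρ / 2)) ^ m * ga (V.P z) (z - y)) z :=
        Finset.sum_nonneg fun i _ => hind i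
      rcases le_or_gt (gn (S.G Q) (z - y)) (ρ / 2 / 2) with hc | hc
      · rw [Nn_small h hs hr hc, zero_mul]; exact hsum
      rcases le_or_gt (8 * ρ) (gn (S.G Q) (z - y)) with hc' | hc'
      · rw [Nn_zero h hm hs hr hc', zero_mul]; exact hsum
      have h5 := S.gn_le hδ hd0 hQ (z - y)
      have h6 := S.le_gn hδ hd0 hQ (z - y)
      have hnn := norm_nonneg (z - y)
      obtain ⟨i, hi, hi1, hi2⟩ := F3_cover hρ (t := ‖z - y‖) (by nlinarith only [h3, h3', hc, hc', h5]) (by nlinarith only [hd, hc', h6, hnn])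
      have h7 : (A i).indicator (fun z => (2 / (ρ / 2)) ^ m * ga (V.P z) (z - y)) z =
          (2 / (ρ / 2)) ^ m * ga (V.P z) (z - y) := by
        rw [indicator_of_mem]
        exact ⟨hi1, hi2⟩
      calc Nn m η (ρ / 2) (8 * ρ) (gn (S.G Q) (z - y)) * ga (V.P z) (z - y)
          ≤ (2 / (ρ / 2)) ^ m * ga (V.P z) (z - y) :=
            mul_le_mul_of_nonneg_right (hN1 z) (hga0 z)
        _ = (A i).indicator (fun z => (2 / (ρ / 2)) ^ m * ga (V.P z) (z - y)) z := h7.symm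
        _ ≤ _ := Finset.single_le_sum
          (f := fun i => (A i).indicator (fun z => (2 / (ρ / 2)) ^ m * ga (V.P z) (z - y)) z)
          (fun i _ => hind i) hi
    have hii : ∀ i ∈ Finset.range 7, Integrable
        ((A i).indicator (fun z => (2 / (ρ / 2)) ^ m * ga (V.P z) (z - y))) V.μ :=
      fun i _ => (hgI.const_mul _).indicator (hAm i)
    calc ∫ z, Nn m η (ρ / 2) (8 * ρ) (gn (S.G Q) (z - y)) * ga (V.P z) (z - y) ∂V.μ
        ≤ ∫ z, ∑ i ∈ Finset.range 7,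
            (A i).indicator (fun z => (2 / (ρ / 2)) ^ m * ga (V.P z) (z - y)) z ∂V.μ := by
          refine integral_mono ?_ (integrable_finsetSum _ hii) h4
          refine V.integrable_bdd (hNm.mul hgm) (c := (2 / (ρ / 2)) ^ m * 1) fun z => ?_
          rw [abs_of_nonneg (mul_nonneg (hN0 z) (hga0 z))]
          exact mul_le_mul (hN1 z) (hga1 z) (hga0 z) (by positivity)
      _ = ∑ i ∈ Finset.range 7, (2 / (ρ / 2)) ^ m * ∫ z in A i, ga (V.P z) (z - y) ∂V.μ := by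
          rw [integral_finsetSum _ hii]
          refine Finset.sum_congr rfl fun i _ => ?_
          rw [integral_indicator (hAm i), integral_const_mul]
      _ ≤ ∑ i ∈ Finset.range 7, 64 ^ m * V.gg (r' i) y := by
          refine Finset.sum_le_sum fun i _ => ?_
          have h5 : ∫ z in A i, ga (V.P z) (z - y) ∂V.μ = r' i ^ m * V.gg (r' i) y := by
            unfold Sys.gg
            rw [← mul_assoc, mul_inv_cancel₀ (pow_ne_zero _ (hr'0 i).ne'), one_mul]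
          rw [h5, ← mul_assoc]
          refine mul_le_mul_of_nonneg_right ?_ (V.gg_nonneg (hr'0 i) y)
          rw [← mul_pow]
          refine pow_le_pow_left₀ (by have := hr'0 i; positivity) ?_ m
          have h6 := hr'1 i
          rw [div_mul_eq_mul_div, div_le_iff₀ hs]
          linarith only [h6]
      _ = 64 ^ m * ∑ i ∈ Finset.range 7, V.gg (r' i) y := by rw [Finset.mul_sum]
  -- conclusion
  have hgg0 : 0 ≤ ∑ i ∈ Finset.range 7, V.gg (r' i) y :=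
    Finset.sum_nonneg fun i _ => V.gg_nonneg (hr'0 i) y
  have hhh0 : 0 ≤ V.hh (16 * ρ) y := V.hh_nonneg (by linarith only [hr0]) y
  have hmain : I8 / 4 ≤ 3 * (64 ^ m * ∑ i ∈ Finset.range 7, V.gg (r' i) y) +
      2 * 32 ^ m * V.hh (16 * ρ) y := by linarith only [hI2', hMI, hcurv, hδ2, hgain]
  have h64 : (32 : ℝ) ^ m ≤ 64 ^ m := pow_le_pow_left₀ (by norm_num) (by norm_num) m
  have hls : V.ls ρ y ≤ 8 * 8 ^ m * I8 := by
    have h4 := V.ls_le hρ y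
    have h5 : a * M2 = 8 ^ m * X := by
      rw [hX]; field_simp
    calc V.ls ρ y ≤ 4 * (a * M1) := h4
      _ ≤ 4 * (a * M2) := by
        have := mul_le_mul_of_nonneg_left hM12 ha0.le
        linarith only [this]
      _ = 4 * 8 ^ m * X := by rw [h5]; ring
      _ ≤ 4 * 8 ^ m * (2 * I8) := mul_le_mul_of_nonneg_left hX2 (by positivity)
      _ = 8 * 8 ^ m * I8 := by ring
  have e512 : (512 : ℝ) ^ m = 8 ^ m * 64 ^ m := by rw [← mul_pow]; norm_num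
  calc V.ls ρ y ≤ 8 * 8 ^ m * I8 := hls
    _ = 32 * 8 ^ m * (I8 / 4) := by ring
    _ ≤ 32 * 8 ^ m * (3 * (64 ^ m * ∑ i ∈ Finset.range 7, V.gg (r' i) y) +
        2 * 32 ^ m * V.hh (16 * ρ) y) := mul_le_mul_of_nonneg_left hmain (by positivity)
    _ ≤ 32 * 8 ^ m * (3 * (64 ^ m * ∑ i ∈ Finset.range 7, V.gg (r' i) y) +
        3 * 64 ^ m * V.hh (16 * ρ) y) := by
      refine mul_le_mul_of_nonneg_left ?_ (by positivity)
      have : 2 * 32 ^ m * V.hh (16 * ρ) y ≤ 3 * 64 ^ m * V.hh (16 * ρ) y :=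
        mul_le_mul_of_nonneg_right (by linarith only [h32, h64]) hhh0
      linarith only [this]
    _ = 96 * 512 ^ m * (∑ i ∈ Finset.range 7, V.gg (r' i) y + V.hh (16 * ρ) y) := by
      rw [e512]; ring

end Allard
end
end

section

/-!
# F4: pointwise trichotomy

`tri J ρ y`: mean of the gains of third points.
Cases.  (a) `C₃ μ(ball y ρ) ≤ μ(ball y 2ρ)`: `amf_nd`.
(b) `μ(ball y ρ) < ρ ∫_{ball y 2ρ} ‖H‖`: `ls ρ y ≤ 4 ρ^{-m} μ(ball y ρ) ≤ 4 ρ^{-m} ρ ∫_{ball y 16ρ} ‖H‖ = 4 * 16^{m-1} hh (16ρ)`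
(`≤ 4 * 16^m hh`).
(c) otherwise `triple_lemma` for `V.rs y ρ` (centre `0`), with `C₃` of `amf_nd`, for
`z₁ = ρ⁻¹ • (z - y)`, `z₂ = 0`, for every `z` in `ball y ρ`:
`‖P z - P y‖² ≤ C/μ(ball y ρ) ∫_{...} (ga (P z)(z - z') + ga (P y)(y - z')) dμ(z')` (use `ga_smul`,
`rs_setIntegral`), and integrate over the annulus, which is contained in `ball y ρ`.
The terms not used are nonnegative.
-/

noncomputable section

open MeasureTheory Metric Set Filter Topology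

namespace Allard

variable {n m : ℕ} {δ : ℝ} {S : Stress n m δ} {α Λ : ℝ} {U : Set (E n)}

/-- Mean of the gains of third points. -/
def Sys.tri (V : Sys S α Λ U) (J : ℕ) (ρ : ℝ) (y : E n) : ℝ :=
  (ρ ^ m)⁻¹ * ∫ z in ball y ρ, (V.μ.real (ball y ρ))⁻¹ *
    ∫ z' in {z' | z' ∈ ball y ρ ∧ (1 / 2) ^ J * ρ ≤ ‖z' - z‖ ∧ (1 / 2) ^ J * ρ ≤ ‖z' - y‖},
      (ga (V.P z) (z - z') + ga (V.P y) (y - z')) ∂V.μ ∂V.μ

/-- the set of third points -/
private def f4A (J : ℕ) (ρ : ℝ) (y z : E n) : Set (E n) :=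
  {z' | z' ∈ ball y ρ ∧ (1 / 2) ^ J * ρ ≤ ‖z' - z‖ ∧ (1 / 2) ^ J * ρ ≤ ‖z' - y‖}

private theorem f4A_meas₂ (J : ℕ) (ρ : ℝ) :
    MeasurableSet {x : (E n × E n) × E n | x.2 ∈ f4A J ρ x.1.1 x.1.2} := by
  have h1 : MeasurableSet {x : (E n × E n) × E n | dist x.2 x.1.1 < ρ} :=
    measurableSet_lt (by fun_prop) measurable_const
  have h2 : MeasurableSet {x : (E n × E n) × E n | (1 / 2) ^ J * ρ ≤ ‖x.2 - x.1.2‖} :=
    measurableSet_le measurable_const (by fun_prop)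
  have h3 : MeasurableSet {x : (E n × E n) × E n | (1 / 2) ^ J * ρ ≤ ‖x.2 - x.1.1‖} :=
    measurableSet_le measurable_const (by fun_prop)
  exact h1.inter (h2.inter h3)

private theorem f4A_meas (J : ℕ) (ρ : ℝ) (y z : E n) : MeasurableSet (f4A J ρ y z) := by
  have h := f4A_meas₂ (n := n) J ρ
  exact (measurable_prodMk_left (x := (y, z))) h

private theorem f4_ga1 (V : Sys S α Λ U) :
    Measurable (fun x : (E n × E n) × E n => ga (V.P x.1.2) (x.1.2 - x.2)) := by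
  have h1 : Measurable (fun x : (E n × E n) × E n => (x.2, x.1.2)) :=
    measurable_snd.prodMk (measurable_snd.comp measurable_fst)
  have h2 := V.measurable_ga₂.comp h1
  exact h2

private theorem f4_ga2 (V : Sys S α Λ U) :
    Measurable (fun x : (E n × E n) × E n => ga (V.P x.1.1) (x.1.1 - x.2)) := by
  have h1 : Measurable (fun x : (E n × E n) × E n => (x.2, x.1.1)) :=
    measurable_snd.prodMk (measurable_fst.comp measurable_fst)
  have h2 := V.measurable_ga₂.comp h1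
  exact h2

private theorem f4_ga (V : Sys S α Λ U) :
    Measurable (fun x : (E n × E n) × E n =>
      ga (V.P x.1.2) (x.1.2 - x.2) + ga (V.P x.1.1) (x.1.1 - x.2)) := by
  have h1 := (f4_ga1 V).add (f4_ga2 V)
  exact h1

private theorem f4_P (V : Sys S α Λ U) (y : E n) : Measurable (fun z => ‖V.P z - V.P y‖ ^ 2) := by
  have h : Continuous (fun A : Op n => ‖A - V.P y‖ ^ 2) := by fun_prop
  have h2 := h.measurable.comp V.mP
  exact h2

private theorem f4_Pint (V : Sys S α Λ U) (y : E n) :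
    Integrable (fun z => ‖V.P z - V.P y‖ ^ 2) V.μ := by
  refine V.integrable_bdd (c := 4) (f4_P V y) ?_
  intro z
  rw [abs_of_nonneg (by positivity)]
  have h2 := Pr.norm_sub_le (V.hP z) (V.hP y)
  nlinarith [norm_nonneg (V.P z - V.P y)]

/-- inner integral -/
private def f4I (V : Sys S α Λ U) (J : ℕ) (ρ : ℝ) (y z : E n) : ℝ :=
  ∫ z' in f4A J ρ y z, (ga (V.P z) (z - z') + ga (V.P y) (y - z')) ∂V.μ

private theorem f4I_meas₂ (V : Sys S α Λ U) (J : ℕ) (ρ : ℝ) :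
    StronglyMeasurable (fun x : E n × E n => f4I V J ρ x.1 x.2) := by
  have h1 : Measurable (fun x : (E n × E n) × E n =>
      Set.indicator {x : (E n × E n) × E n | x.2 ∈ f4A J ρ x.1.1 x.1.2}
        (fun x => ga (V.P x.1.2) (x.1.2 - x.2) + ga (V.P x.1.1) (x.1.1 - x.2)) x) :=
    (f4_ga V).indicator (f4A_meas₂ J ρ)
  have h2 := h1.stronglyMeasurable.integral_prod_right' (ν := V.μ)
  have h3 : (fun x : E n × E n => f4I V J ρ x.1 x.2) = fun x : E n × E n =>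
      ∫ z', Set.indicator {x : (E n × E n) × E n | x.2 ∈ f4A J ρ x.1.1 x.1.2}
        (fun x => ga (V.P x.1.2) (x.1.2 - x.2) + ga (V.P x.1.1) (x.1.1 - x.2)) (x, z') ∂V.μ := by
    funext x
    unfold f4I
    rw [← integral_indicator (f4A_meas J ρ x.1 x.2)]
    rfl
  rw [h3]
  exact h2

private theorem f4I_nonneg (V : Sys S α Λ U) (J : ℕ) (ρ : ℝ) (y z : E n) : 0 ≤ f4I V J ρ y z :=
  integral_nonneg fun z' => add_nonneg (ga_nonneg _) (ga_nonneg _)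

private theorem f4I_le (V : Sys S α Λ U) (J : ℕ) (ρ : ℝ) (y z : E n) :
    f4I V J ρ y z ≤ 2 * V.μ.real (ball y ρ) := by
  have h1 : ‖f4I V J ρ y z‖ ≤ 2 * V.μ.real (f4A J ρ y z) := by
    apply norm_setIntegral_le_of_norm_le_const (measure_lt_top _ _)
    intro z' _
    rw [Real.norm_of_nonneg (add_nonneg (ga_nonneg _) (ga_nonneg _))]
    have h2 := ga_le_one (V.hP z) (z - z')
    have h3 := ga_le_one (V.hP y) (y - z')
    linarith
  have h4 : V.μ.real (f4A J ρ y z) ≤ V.μ.real (ball y ρ) :=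
    measureReal_mono (fun z' h => h.1)
  have h5 := le_trans (le_abs_self _) h1
  linarith

private theorem f4_q_nonneg (V : Sys S α Λ U) (J : ℕ) (ρ : ℝ) (y z : E n) :
    0 ≤ (V.μ.real (ball y ρ))⁻¹ * f4I V J ρ y z :=
  mul_nonneg (inv_nonneg.2 measureReal_nonneg) (f4I_nonneg V J ρ y z)

private theorem f4_q_le (V : Sys S α Λ U) (J : ℕ) (ρ : ℝ) (y z : E n) :
    (V.μ.real (ball y ρ))⁻¹ * f4I V J ρ y z ≤ 2 := by
  rcases eq_or_lt_of_le (measureReal_nonneg (μ := V.μ) (s := ball y ρ)) with h | h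
  · rw [← h, inv_zero, zero_mul]; norm_num
  · rw [inv_mul_le_iff₀ h]
    have := f4I_le V J ρ y z
    linarith

private theorem f4_tri (V : Sys S α Λ U) (J : ℕ) (ρ : ℝ) (y : E n) :
    V.tri J ρ y = (ρ ^ m)⁻¹ * ∫ z in ball y ρ, (V.μ.real (ball y ρ))⁻¹ * f4I V J ρ y z ∂V.μ := rfl

private theorem f4_q_meas (V : Sys S α Λ U) (J : ℕ) (ρ : ℝ) :
    Measurable (fun x : E n × E n => (V.μ.real (ball x.1 ρ))⁻¹ * f4I V J ρ x.1 x.2) :=
  ((V.measurable_ball ρ).comp measurable_fst).inv.mul (f4I_meas₂ V J ρ).measurable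

theorem Sys.measurable_tri (V : Sys S α Λ U) (J : ℕ) (ρ : ℝ) :
    Measurable (fun y => V.tri J ρ y) := by
  have hs : MeasurableSet {x : E n × E n | dist x.2 x.1 < ρ} :=
    measurableSet_lt (by fun_prop) measurable_const
  have h1 := (f4_q_meas V J ρ).indicator hs
  have h2 := h1.stronglyMeasurable.integral_prod_right' (ν := V.μ)
  have h3 : (fun y => V.tri J ρ y) = fun y => (ρ ^ m)⁻¹ *
      ∫ z, Set.indicator {x : E n × E n | dist x.2 x.1 < ρ}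
        (fun x : E n × E n => (V.μ.real (ball x.1 ρ))⁻¹ * f4I V J ρ x.1 x.2) (y, z) ∂V.μ := by
    funext y
    rw [f4_tri, ← integral_indicator measurableSet_ball]
    rfl
  rw [h3]
  exact h2.measurable.const_mul _

theorem Sys.tri_nonneg (V : Sys S α Λ U) (J : ℕ) {ρ : ℝ} (hρ : 0 < ρ) (y : E n) :
    0 ≤ V.tri J ρ y := by
  rw [f4_tri]
  exact mul_nonneg (by positivity) (integral_nonneg fun z => f4_q_nonneg V J ρ y z)

/-- `ga ≤ 1`. -/
theorem Sys.tri_le (V : Sys S α Λ U) (J : ℕ) {ρ : ℝ} (hρ : 0 < ρ) (y : E n) :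
    V.tri J ρ y ≤ 2 * ((ρ ^ m)⁻¹ * V.μ.real (ball y ρ)) := by
  rw [f4_tri]
  have h1 : ‖∫ z in ball y ρ, (V.μ.real (ball y ρ))⁻¹ * f4I V J ρ y z ∂V.μ‖ ≤
      2 * V.μ.real (ball y ρ) := by
    apply norm_setIntegral_le_of_norm_le_const (measure_lt_top _ _)
    intro z _
    rw [Real.norm_of_nonneg (f4_q_nonneg V J ρ y z)]
    exact f4_q_le V J ρ y z
  have h2 := le_trans (le_abs_self _) h1
  have h3 : 0 ≤ (ρ ^ m)⁻¹ := by positivity
  calc (ρ ^ m)⁻¹ * ∫ z in ball y ρ, (V.μ.real (ball y ρ))⁻¹ * f4I V J ρ y z ∂V.μ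
      ≤ (ρ ^ m)⁻¹ * (2 * V.μ.real (ball y ρ)) := mul_le_mul_of_nonneg_left h2 h3
    _ = 2 * ((ρ ^ m)⁻¹ * V.μ.real (ball y ρ)) := by ring

/-- the doubling case -/
private theorem f4_c (n m : ℕ) (hm : 1 ≤ m) (C₃ : ℝ) (hC₃ : 1 ≤ C₃) :
    ∃ (J : ℕ) (C : ℝ), 1 ≤ J ∧ 0 < C ∧
    ∀ {δ : ℝ} {S : Stress n m δ} {α Λ : ℝ} {U : Set (E n)} (V : Sys S α Λ U),
    0 ≤ δ → δ ≤ d0 n → ∀ (y : E n) (ρ : ℝ), 0 < ρ → closedBall y (16 * ρ) ⊆ U →
    0 < V.μ.real (ball y ρ) → V.μ.real (ball y (2 * ρ)) ≤ C₃ * V.μ.real (ball y ρ) →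
    ρ * ∫ z in ball y (2 * ρ), ‖V.H z‖ ∂V.μ ≤ V.μ.real (ball y ρ) →
    V.ls ρ y ≤ C * V.tri J ρ y := by
  obtain ⟨J, C, hJ, hC, h⟩ := triple_lemma n m hm C₃ hC₃
  refine ⟨J, C, hJ, hC, ?_⟩
  intro δ S α Λ U V hδ hδ' y ρ hρ hU hpos hdbl hH
  have hρm : 0 < (ρ ^ m)⁻¹ := by positivity
  have hρ1 : 0 < ρ⁻¹ := by positivity
  have hres : ∀ z : E n, y + ρ • (ρ⁻¹ • (z - y)) = z := by
    intro z
    rw [smul_smul, mul_inv_cancel₀ hρ.ne', one_smul]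
    abel
  have hball : ∀ c : ℝ, (fun z : E n => ρ⁻¹ • (z - y)) ⁻¹' ball 0 c = ball y (c * ρ) := by
    intro c
    ext z
    rw [Set.mem_preimage, mem_ball_zero_iff, mem_ball_iff_norm, norm_smul, Real.norm_of_nonneg hρ1.le,
      inv_mul_lt_iff₀ hρ, mul_comm c ρ]
  have e1 : (V.rs y ρ hρ).μ.real (ball 0 1) = (ρ ^ m)⁻¹ * V.μ.real (ball y ρ) := by
    rw [rs_real_ball, smul_zero, add_zero, mul_one]
  have e2 : (V.rs y ρ hρ).μ.real (ball 0 2) = (ρ ^ m)⁻¹ * V.μ.real (ball y (2 * ρ)) := by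
    rw [rs_real_ball, smul_zero, add_zero, mul_comm ρ 2]
  have e3 : ∫ z in ball 0 2, ‖(V.rs y ρ hρ).H z‖ ∂(V.rs y ρ hρ).μ =
      (ρ ^ m)⁻¹ * (ρ * ∫ z in ball y (2 * ρ), ‖V.H z‖ ∂V.μ) := by
    rw [rs_setIntegral V y ρ hρ (ball 0 2) measurableSet_ball, hball, ← integral_const_mul ρ]
    congr 2
    funext z
    show ‖ρ • V.H (y + ρ • (ρ⁻¹ • (z - y)))‖ = ρ * ‖V.H z‖
    rw [hres, norm_smul, Real.norm_of_nonneg hρ.le]
  have hU' : closedBall (0 : E n) 2 ⊆ (fun w => y + ρ • w) ⁻¹' U := by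
    intro w hw
    apply hU
    rw [mem_closedBall_zero_iff] at hw
    rw [mem_closedBall_iff_norm, add_sub_cancel_left, norm_smul, Real.norm_of_nonneg hρ.le]
    nlinarith
  have hT := h (V.rs y ρ hρ) hδ hδ' 0 hU' (by rw [e1]; positivity)
    (by rw [e1, e2]
        calc (ρ ^ m)⁻¹ * V.μ.real (ball y (2 * ρ)) ≤ (ρ ^ m)⁻¹ * (C₃ * V.μ.real (ball y ρ)) :=
              mul_le_mul_of_nonneg_left hdbl hρm.le
          _ = C₃ * ((ρ ^ m)⁻¹ * V.μ.real (ball y ρ)) := by ring)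
    (by rw [e1, e3]; exact mul_le_mul_of_nonneg_left hH hρm.le)
  have key : ∀ z ∈ ball y ρ, ‖V.P z - V.P y‖ ^ 2 ≤
      C * ((V.μ.real (ball y ρ))⁻¹ * f4I V J ρ y z) := by
    intro z hz
    have hz1 : ρ⁻¹ • (z - y) ∈ ball (0 : E n) 1 := by
      have h1 : z ∈ (fun z : E n => ρ⁻¹ • (z - y)) ⁻¹' ball 0 1 := by
        rw [hball, one_mul]; exact hz
      exact h1
    have h1 := hT (ρ⁻¹ • (z - y)) hz1 0 (mem_ball_self one_pos)
    rw [e1] at h1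
    have hP1 : (V.rs y ρ hρ).P (ρ⁻¹ • (z - y)) = V.P z := by rw [rs_P, hres]
    have hP0 : (V.rs y ρ hρ).P 0 = V.P y := by rw [rs_P, smul_zero, add_zero]
    rw [hP1, hP0] at h1
    have hset : MeasurableSet {w : E n | w ∈ ball (0 : E n) 1 ∧ (1 / 2) ^ J ≤ ‖w - ρ⁻¹ • (z - y)‖ ∧
        (1 / 2) ^ J ≤ ‖w - 0‖} := by
      have h2 : MeasurableSet {w : E n | (1 / 2 : ℝ) ^ J ≤ ‖w - ρ⁻¹ • (z - y)‖} :=
        measurableSet_le measurable_const (by fun_prop)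
      have h3 : MeasurableSet {w : E n | (1 / 2 : ℝ) ^ J ≤ ‖w - 0‖} :=
        measurableSet_le measurable_const (by fun_prop)
      exact measurableSet_ball.inter (h2.inter h3)
    rw [rs_setIntegral V y ρ hρ _ hset] at h1
    have hpre : (fun z : E n => ρ⁻¹ • (z - y)) ⁻¹' {w : E n | w ∈ ball (0 : E n) 1 ∧
        (1 / 2) ^ J ≤ ‖w - ρ⁻¹ • (z - y)‖ ∧ (1 / 2) ^ J ≤ ‖w - 0‖} = f4A J ρ y z := by
      ext z'
      have a1 : z' ∈ (fun z : E n => ρ⁻¹ • (z - y)) ⁻¹' ball 0 1 ↔ z' ∈ ball y ρ := by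
        rw [hball, one_mul]
      have a2 : (1 / 2 : ℝ) ^ J ≤ ‖ρ⁻¹ • (z' - y) - ρ⁻¹ • (z - y)‖ ↔
          (1 / 2) ^ J * ρ ≤ ‖z' - z‖ := by
        rw [← smul_sub, sub_sub_sub_cancel_right, norm_smul, Real.norm_of_nonneg hρ1.le,
          le_inv_mul_iff₀ hρ, mul_comm ρ]
      have a3 : (1 / 2 : ℝ) ^ J ≤ ‖ρ⁻¹ • (z' - y) - 0‖ ↔ (1 / 2) ^ J * ρ ≤ ‖z' - y‖ := by
        rw [sub_zero, norm_smul, Real.norm_of_nonneg hρ1.le, le_inv_mul_iff₀ hρ, mul_comm ρ]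
      constructor
      · rintro ⟨b1, b2, b3⟩
        exact ⟨a1.1 b1, a2.1 b2, a3.1 b3⟩
      · rintro ⟨b1, b2, b3⟩
        exact ⟨a1.2 b1, a2.2 b2, a3.2 b3⟩
    rw [hpre] at h1
    have hint : ∫ z' in f4A J ρ y z, (ga (V.P z) (ρ⁻¹ • (z - y) - ρ⁻¹ • (z' - y)) +
        ga (V.P y) (0 - ρ⁻¹ • (z' - y))) ∂V.μ = f4I V J ρ y z := by
      unfold f4I
      congr 1
      funext z'
      have b1 : ρ⁻¹ • (z - y) - ρ⁻¹ • (z' - y) = ρ⁻¹ • (z - z') := by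
        rw [← smul_sub, sub_sub_sub_cancel_right]
      have b2 : 0 - ρ⁻¹ • (z' - y) = ρ⁻¹ • (y - z') := by
        rw [zero_sub, ← smul_neg, neg_sub]
      rw [b1, b2, ga_smul _ hρ1.ne', ga_smul _ hρ1.ne']
    rw [hint] at h1
    refine h1.trans (le_of_eq ?_)
    field_simp
  have i1 := f4_Pint V y
  have i2 : Integrable (fun z => C * ((V.μ.real (ball y ρ))⁻¹ * f4I V J ρ y z)) V.μ := by
    apply Integrable.const_mul
    apply V.integrable_bdd (c := 2)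
    · have h2 := (f4_q_meas V J ρ).comp (measurable_prodMk_left (x := y))
      exact h2
    · intro z
      rw [abs_of_nonneg (f4_q_nonneg V J ρ y z)]
      exact f4_q_le V J ρ y z
  have hann : MeasurableSet {z : E n | ρ / 2 ≤ ‖z - y‖ ∧ ‖z - y‖ < ρ} := by
    have h2 : MeasurableSet {z : E n | ρ / 2 ≤ ‖z - y‖} :=
      measurableSet_le measurable_const (by fun_prop)
    have h3 : MeasurableSet {z : E n | ‖z - y‖ < ρ} :=
      measurableSet_lt (by fun_prop) measurable_const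
    exact h2.inter h3
  have hsub : {z : E n | ρ / 2 ≤ ‖z - y‖ ∧ ‖z - y‖ < ρ} ⊆ ball y ρ := by
    intro z hz
    rw [mem_ball_iff_norm]
    exact hz.2
  have g1 : ∫ z in {z | ρ / 2 ≤ ‖z - y‖ ∧ ‖z - y‖ < ρ}, ‖V.P z - V.P y‖ ^ 2 ∂V.μ ≤
      ∫ z in {z | ρ / 2 ≤ ‖z - y‖ ∧ ‖z - y‖ < ρ},
        C * ((V.μ.real (ball y ρ))⁻¹ * f4I V J ρ y z) ∂V.μ :=
    setIntegral_mono_on i1.integrableOn i2.integrableOn hann (fun z hz => key z (hsub hz))
  have g2 : ∫ z in {z | ρ / 2 ≤ ‖z - y‖ ∧ ‖z - y‖ < ρ},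
        C * ((V.μ.real (ball y ρ))⁻¹ * f4I V J ρ y z) ∂V.μ ≤
      ∫ z in ball y ρ, C * ((V.μ.real (ball y ρ))⁻¹ * f4I V J ρ y z) ∂V.μ := by
    apply setIntegral_mono_set i2.integrableOn
    · exact Filter.Eventually.of_forall fun z => mul_nonneg hC.le (f4_q_nonneg V J ρ y z)
    · exact Filter.Eventually.of_forall fun z hz => hsub hz
  have g3 : ∫ z in ball y ρ, C * ((V.μ.real (ball y ρ))⁻¹ * f4I V J ρ y z) ∂V.μ =
      C * ∫ z in ball y ρ, (V.μ.real (ball y ρ))⁻¹ * f4I V J ρ y z ∂V.μ := integral_const_mul _ _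
  rw [f4_tri]
  unfold Sys.ls
  calc (ρ ^ m)⁻¹ * ∫ z in {z | ρ / 2 ≤ ‖z - y‖ ∧ ‖z - y‖ < ρ}, ‖V.P z - V.P y‖ ^ 2 ∂V.μ
      ≤ (ρ ^ m)⁻¹ * (C * ∫ z in ball y ρ, (V.μ.real (ball y ρ))⁻¹ * f4I V J ρ y z ∂V.μ) := by
        apply mul_le_mul_of_nonneg_left _ hρm.le
        rw [← g3]
        exact g1.trans g2
    _ = C * ((ρ ^ m)⁻¹ * ∫ z in ball y ρ, (V.μ.real (ball y ρ))⁻¹ * f4I V J ρ y z ∂V.μ) := by
        ring

theorem amf_tri (n m : ℕ) (hm : 1 ≤ m) : ∃ (J : ℕ) (C δ₃ : ℝ), 1 ≤ J ∧ 0 < C ∧ 0 < δ₃ ∧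
    δ₃ ≤ d0 n ∧
    ∀ {δ : ℝ} {S : Stress n m δ} {α Λ : ℝ} {U : Set (E n)} (V : Sys S α Λ U),
    0 ≤ δ → δ ≤ δ₃ → ∀ (y : E n) (ρ : ℝ), 0 < ρ → closedBall y (16 * ρ) ⊆ U →
    0 < V.μ.real (ball y ρ) →
    V.ls ρ y ≤ C * (∑ i ∈ Finset.range 7, V.gg (16 * ρ * (1 / 2) ^ i) y + V.hh (16 * ρ) y
      + V.tri J ρ y) := by
  obtain ⟨C₃, C₁, δ₃, hC₃, hC₁, hδ₃, hδ₃', hnd⟩ := amf_nd n m hm
  obtain ⟨J, C₂, hJ, hC₂, hc⟩ := f4_c n m hm C₃ hC₃
  refine ⟨J, C₁ + 4 * 16 ^ m + C₂, δ₃, hJ, by positivity, hδ₃, hδ₃', ?_⟩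
  intro δ S α Λ U V hδ hδ' y ρ hρ hU hpos
  have hg : 0 ≤ ∑ i ∈ Finset.range 7, V.gg (16 * ρ * (1 / 2) ^ i) y :=
    Finset.sum_nonneg fun i _ => V.gg_nonneg (by positivity) y
  have hh0 : 0 ≤ V.hh (16 * ρ) y := V.hh_nonneg (by positivity) y
  have ht : 0 ≤ V.tri J ρ y := V.tri_nonneg J hρ y
  have h16 : (0 : ℝ) < 4 * 16 ^ m := by positivity
  have hfin : ∀ {a b : ℝ}, 0 ≤ a → a ≤ C₁ + 4 * 16 ^ m + C₂ → 0 ≤ b →
      b ≤ ∑ i ∈ Finset.range 7, V.gg (16 * ρ * (1 / 2) ^ i) y + V.hh (16 * ρ) y + V.tri J ρ y →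
      a * b ≤ (C₁ + 4 * 16 ^ m + C₂) *
        (∑ i ∈ Finset.range 7, V.gg (16 * ρ * (1 / 2) ^ i) y + V.hh (16 * ρ) y + V.tri J ρ y) :=
    fun h1 h2 h3 h4 => mul_le_mul h2 h4 h3 (h1.trans h2)
  by_cases ha : C₃ * V.μ.real (ball y ρ) ≤ V.μ.real (ball y (2 * ρ))
  · exact (hnd V hδ hδ' y ρ hρ hU ha).trans
      (hfin hC₁.le (by linarith) (by linarith) (by linarith))
  · push Not at ha
    by_cases hb : ρ * ∫ z in ball y (2 * ρ), ‖V.H z‖ ∂V.μ ≤ V.μ.real (ball y ρ)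
    · exact (hc V hδ (hδ'.trans hδ₃') y ρ hρ hU hpos ha.le hb).trans
        (hfin hC₂.le (by linarith) ht (by linarith))
    · push Not at hb
      have hρm : 0 < (ρ ^ m)⁻¹ := by positivity
      have hmono : ∫ z in ball y (2 * ρ), ‖V.H z‖ ∂V.μ ≤ ∫ z in ball y (16 * ρ), ‖V.H z‖ ∂V.μ := by
        apply setIntegral_mono_set V.iH.norm.integrableOn
        · exact Filter.Eventually.of_forall fun z => norm_nonneg _
        · exact Filter.Eventually.of_forall fun z hz => ball_subset_ball (by linarith) hz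
      have h1 := V.ls_le hρ y
      have h2 : V.ls ρ y ≤ 4 * 16 ^ m * V.hh (16 * ρ) y := by
        have h3 : 4 * 16 ^ m * V.hh (16 * ρ) y =
            64 * ((ρ ^ m)⁻¹ * (ρ * ∫ z in ball y (16 * ρ), ‖V.H z‖ ∂V.μ)) := by
          unfold Sys.hh
          rw [mul_pow, mul_inv]
          field_simp
          ring
        rw [h3]
        have h4 : 0 ≤ ∫ z in ball y (16 * ρ), ‖V.H z‖ ∂V.μ := integral_nonneg fun z => norm_nonneg _
        have h5 : (ρ ^ m)⁻¹ * V.μ.real (ball y ρ) ≤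
            (ρ ^ m)⁻¹ * (ρ * ∫ z in ball y (16 * ρ), ‖V.H z‖ ∂V.μ) := by
          apply mul_le_mul_of_nonneg_left _ hρm.le
          refine hb.le.trans ?_
          exact mul_le_mul_of_nonneg_left hmono hρ.le
        have h6 : 0 ≤ (ρ ^ m)⁻¹ * (ρ * ∫ z in ball y (16 * ρ), ‖V.H z‖ ∂V.μ) := by positivity
        linarith
      exact h2.trans (hfin h16.le (by linarith) hh0 (by linarith))

end Allard
end
end

section

/-!
# F5a: averaging, the two terms as `lintegral`s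

General functions `f(center, point) ≥ 0` measurable on `E × E` (to be used with
`f(z', z) = ga (P z)(z - z')`).  `φ y ≤ φ z' + L ρ` for `‖y - z'‖ < ρ`.  All in `ℝ≥0∞`.

Term I: `∫_y φ(y) ∫_{z ∈ ball y ρ} μ(ball y ρ)⁻¹ ∫_{z' ∈ ball y ρ, ‖z'-z‖ ≥ ςρ} f(z', z)`: Tonelli, for fixed
`(z, z')` with `ςρ ≤ ‖z'-z‖ < 2ρ`, `‖z'‖ < 2`: `∫_{y ∈ ball z ρ ∩ ball z' ρ} φ(y) μ(ball y ρ)⁻¹ ≤ (φ(z')+Lρ) c`
(`covering`).
Term II: `∫_y φ(y) ∫_{z ∈ ball y ρ} μ(ball y ρ)⁻¹ ∫_{z' ∈ ball y ρ, ‖z'-y‖ ≥ ςρ} f(z', y)`: the `z`-integral gives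
at most `1`.
-/

noncomputable section

open MeasureTheory Metric Set Filter Topology
open scoped ENNReal

namespace Allard

/-- Pairs at distance in `[ςρ, 2ρ)` with the centre in `ball 0 2`. -/
def pairInt {n : ℕ} (μ : Measure (E n)) (f : E n → E n → ℝ≥0∞) (φ : E n → ℝ) (L ς ρ : ℝ) : ℝ≥0∞ :=
  ∫⁻ z' in ball 0 2, ENNReal.ofReal (φ z' + L * ρ) *
    ∫⁻ z in {z | ς * ρ ≤ ‖z - z'‖ ∧ ‖z - z'‖ < 2 * ρ}, f z' z ∂μ ∂μ

private def fA {n : ℕ} (φ : E n → ℝ) (L ρ : ℝ) (z' : E n) : ℝ≥0∞ :=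
  (ball (0 : E n) 2).indicator (fun z' => ENNReal.ofReal (φ z' + L * ρ)) z'

private def fB {n : ℕ} (f : E n → E n → ℝ≥0∞) (ς ρ : ℝ) (z' z : E n) : ℝ≥0∞ :=
  {z | ς * ρ ≤ ‖z - z'‖ ∧ ‖z - z'‖ < 2 * ρ}.indicator (fun z => f z' z) z

private theorem fA_meas {n : ℕ} {φ : E n → ℝ} (hφ : Measurable φ) (L ρ : ℝ) :
    Measurable (fA φ L ρ) :=
  ((hφ.add_const _).ennreal_ofReal).indicator measurableSet_ball

private theorem fS_meas {n : ℕ} (ς ρ : ℝ) :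
    MeasurableSet {q : E n × E n | ς * ρ ≤ ‖q.2 - q.1‖ ∧ ‖q.2 - q.1‖ < 2 * ρ} := by
  have h1 : Measurable fun q : E n × E n => ‖q.2 - q.1‖ :=
    (continuous_snd.sub continuous_fst).norm.measurable
  exact (measurableSet_le measurable_const h1).inter (measurableSet_lt h1 measurable_const)

private theorem fB_meas {n : ℕ} {f : E n → E n → ℝ≥0∞} (hf : Measurable (Function.uncurry f))
    (ς ρ : ℝ) : Measurable (Function.uncurry (fB f ς ρ)) := by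
  have h1 : Function.uncurry (fB f ς ρ) =
      {q : E n × E n | ς * ρ ≤ ‖q.2 - q.1‖ ∧ ‖q.2 - q.1‖ < 2 * ρ}.indicator
        (Function.uncurry f) := by
    funext q
    obtain ⟨a, b⟩ := q
    change {z | ς * ρ ≤ ‖z - a‖ ∧ ‖z - a‖ < 2 * ρ}.indicator (fun z => f a z) b = _
    by_cases h : ς * ρ ≤ ‖b - a‖ ∧ ‖b - a‖ < 2 * ρ
    · rw [indicator_of_mem (show b ∈ {z | ς * ρ ≤ ‖z - a‖ ∧ ‖z - a‖ < 2 * ρ} from h),
        indicator_of_mem (show (a, b) ∈ {q : E n × E n | ς * ρ ≤ ‖q.2 - q.1‖ ∧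
          ‖q.2 - q.1‖ < 2 * ρ} from h)]
      rfl
    · rw [indicator_of_notMem (show b ∉ {z | ς * ρ ≤ ‖z - a‖ ∧ ‖z - a‖ < 2 * ρ} from h),
        indicator_of_notMem (show (a, b) ∉ {q : E n × E n | ς * ρ ≤ ‖q.2 - q.1‖ ∧
          ‖q.2 - q.1‖ < 2 * ρ} from h)]
  rw [h1]
  exact hf.indicator (fS_meas ς ρ)

private theorem fB_swap {n : ℕ} {g : E n → E n → ℝ≥0∞} (hg : Measurable (Function.uncurry g)) :
    Measurable fun q : E n × E n => g q.2 q.1 := by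
  have h1 : (fun q : E n × E n => g q.2 q.1) = Function.uncurry g ∘ Prod.swap := by
    funext q
    rfl
  rw [h1]
  exact hg.comp measurable_swap

private theorem pairInt_eq {n : ℕ} (μ : Measure (E n)) (f : E n → E n → ℝ≥0∞) (φ : E n → ℝ)
    (L ς ρ : ℝ) : pairInt μ f φ L ς ρ = ∫⁻ z', fA φ L ρ z' * ∫⁻ z, fB f ς ρ z' z ∂μ ∂μ := by
  unfold pairInt
  rw [← lintegral_indicator measurableSet_ball]
  refine lintegral_congr fun z' => ?_
  have h1 : Measurable fun z : E n => ‖z - z'‖ := (continuous_id.sub continuous_const).norm.measurable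
  have h2 : MeasurableSet {z : E n | ς * ρ ≤ ‖z - z'‖ ∧ ‖z - z'‖ < 2 * ρ} :=
    (measurableSet_le measurable_const h1).inter (measurableSet_lt h1 measurable_const)
  unfold fA fB
  rw [lintegral_indicator h2]
  by_cases hz : z' ∈ ball (0 : E n) 2
  · rw [indicator_of_mem hz, indicator_of_mem hz]
  · rw [indicator_of_notMem hz, indicator_of_notMem hz, zero_mul]

/-- comparison of the cut-off at two points -/
private theorem fA_le {n : ℕ} {φ : E n → ℝ} {L ρ : ℝ} (hρ' : ρ ≤ 1) (hL : 0 ≤ L)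
    (hφ : ∀ y z, |φ y - φ z| ≤ L * ‖y - z‖) (h1 : ∀ y, 1 < ‖y‖ → φ y = 0) {y z' : E n}
    (hz' : z' ∈ ball y ρ) : ENNReal.ofReal (φ y) ≤ fA φ L ρ z' := by
  have hd : ‖z' - y‖ < ρ := by
    rw [mem_ball, dist_eq_norm] at hz'
    exact hz'
  by_cases hy : 1 < ‖y‖
  · rw [h1 y hy, ENNReal.ofReal_zero]
    exact zero_le
  · push Not at hy
    have h2 : z' ∈ ball (0 : E n) 2 := by
      rw [mem_ball, dist_zero_right]
      have h3 : ‖z'‖ ≤ ‖z' - y‖ + ‖y‖ := by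
        have := norm_add_le (z' - y) y
        rwa [sub_add_cancel] at this
      linarith
    unfold fA
    rw [indicator_of_mem h2]
    apply ENNReal.ofReal_le_ofReal
    have h3 := (abs_le.1 (hφ y z')).2
    have h4 : L * ‖y - z'‖ ≤ L * ρ := by
      rw [norm_sub_rev]
      exact mul_le_mul_of_nonneg_left hd.le hL
    linarith

theorem termI (n : ℕ) : ∃ c : ℝ, 0 < c ∧ ∀ (μ : Measure (E n)) [IsFiniteMeasure μ]
    (f : E n → E n → ℝ≥0∞), Measurable (Function.uncurry f) →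
    ∀ (φ : E n → ℝ) (L ς ρ : ℝ), 0 < ρ → ρ ≤ 1 → 0 ≤ L → 0 < ς → (∀ y, 0 ≤ φ y) →
    (∀ y z, |φ y - φ z| ≤ L * ‖y - z‖) → (∀ y, 1 < ‖y‖ → φ y = 0) →
    ∫⁻ y, ENNReal.ofReal (φ y) * ∫⁻ z in ball y ρ, (μ (ball y ρ))⁻¹ *
        ∫⁻ z' in {z' | z' ∈ ball y ρ ∧ ς * ρ ≤ ‖z' - z‖}, f z' z ∂μ ∂μ ∂μ
      ≤ ENNReal.ofReal c * pairInt μ f φ L ς ρ := by
  obtain ⟨c, hc, hcov⟩ := covering n
  refine ⟨c, hc, fun μ _ f hf φ L ς ρ hρ hρ' hL hς h0 hφ h1 => ?_⟩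
  have hφc : Continuous φ := by
    have h2 : LipschitzWith ⟨L, hL⟩ φ := by
      refine LipschitzWith.of_dist_le_mul fun y z => ?_
      rw [Real.dist_eq, dist_eq_norm]
      exact hφ y z
    exact h2.continuous
  have hφm : Measurable φ := hφc.measurable
  -- the kernel
  set k : E n → E n → ℝ≥0∞ := fun z' y => (ball z' ρ).indicator (fun y => (μ (ball y ρ))⁻¹) y
    with hk
  have hSm : MeasurableSet {q : E n × E n | dist q.2 q.1 < ρ} :=
    measurableSet_lt (continuous_snd.dist continuous_fst).measurable measurable_const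
  have hMm : Measurable fun y : E n => μ (ball y ρ) := by
    have h2 := measurable_measure_prodMk_left (ν := μ) hSm
    exact h2
  have hkm : Measurable (Function.uncurry k) := by
    have h2 : Function.uncurry k = {q : E n × E n | dist q.2 q.1 < ρ}.indicator
        (fun q => (μ (ball q.2 ρ))⁻¹) := by
      funext q
      obtain ⟨a, b⟩ := q
      simp only [Function.uncurry, hk, Set.indicator, Set.mem_ofPred_eq, mem_ball]
    rw [h2]
    exact ((hMm.comp measurable_snd).inv).indicator hSm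
  have hAm := fA_meas hφm L ρ
  have hBm := fB_meas hf ς ρ
  -- pointwise bound
  have hpt : ∀ y : E n, ENNReal.ofReal (φ y) * ∫⁻ z in ball y ρ, (μ (ball y ρ))⁻¹ *
        ∫⁻ z' in {z' | z' ∈ ball y ρ ∧ ς * ρ ≤ ‖z' - z‖}, f z' z ∂μ ∂μ ≤
      ∫⁻ z, ∫⁻ z', fA φ L ρ z' * fB f ς ρ z' z * k z' y ∂μ ∂μ := by
    intro y
    rw [← lintegral_const_mul' _ _ ENNReal.ofReal_ne_top]
    refine (setLIntegral_mono' measurableSet_ball fun z hz => ?_).trans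
      (setLIntegral_le_lintegral _ _)
    have hfz : Measurable fun z' => f z' z := hf.of_uncurry_right
    have hn : Measurable fun z' : E n => ‖z' - z‖ :=
      (continuous_id.sub continuous_const).norm.measurable
    have hS : MeasurableSet {z' : E n | z' ∈ ball y ρ ∧ ς * ρ ≤ ‖z' - z‖} :=
      measurableSet_ball.inter (measurableSet_le measurable_const hn)
    rw [← lintegral_const_mul _ hfz, ← lintegral_const_mul _ (hfz.const_mul _)]
    refine (setLIntegral_mono' hS fun z' hz' => ?_).trans (setLIntegral_le_lintegral _ _)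
    obtain ⟨hz1, hz2⟩ := hz'
    have e1 : k z' y = (μ (ball y ρ))⁻¹ := by
      simp only [hk]
      rw [indicator_of_mem (mem_ball_comm.1 hz1)]
    have e2 : fB f ς ρ z' z = f z' z := by
      unfold fB
      rw [indicator_of_mem]
      rw [mem_ball, dist_eq_norm] at hz hz1
      refine ⟨by rw [norm_sub_rev]; exact hz2, ?_⟩
      have h3 : ‖z - z'‖ ≤ ‖z - y‖ + ‖y - z'‖ := norm_sub_le_norm_sub_add_norm_sub _ _ _
      rw [norm_sub_rev y z'] at h3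
      linarith
    rw [e1, e2]
    calc ENNReal.ofReal (φ y) * ((μ (ball y ρ))⁻¹ * f z' z)
        ≤ fA φ L ρ z' * ((μ (ball y ρ))⁻¹ * f z' z) := by
          gcongr
          exact fA_le hρ' hL hφ h1 hz1
      _ = fA φ L ρ z' * f z' z * (μ (ball y ρ))⁻¹ := by ring
  refine (lintegral_mono hpt).trans ?_
  -- swap z and z'
  have hsw1 : ∀ y : E n, ∫⁻ z, ∫⁻ z', fA φ L ρ z' * fB f ς ρ z' z * k z' y ∂μ ∂μ =
      ∫⁻ z', fA φ L ρ z' * (∫⁻ z, fB f ς ρ z' z ∂μ) * k z' y ∂μ := by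
    intro y
    rw [lintegral_lintegral_swap]
    · refine lintegral_congr fun z' => ?_
      have hBz : Measurable (fB f ς ρ z') := hBm.of_uncurry_left
      rw [lintegral_mul_const _ (hBz.const_mul _), lintegral_const_mul _ hBz]
    · refine Measurable.aemeasurable ?_
      have m1 : Measurable fun q : E n × E n => fA φ L ρ q.2 := hAm.comp measurable_snd
      have m2 : Measurable fun q : E n × E n => fB f ς ρ q.2 q.1 := fB_swap hBm
      have m3' : Measurable fun z' => k z' y := hkm.of_uncurry_right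
      have m3 : Measurable fun q : E n × E n => k q.2 y := m3'.comp measurable_snd
      exact (m1.mul m2).mul m3
  rw [lintegral_congr hsw1]
  set Bz : E n → ℝ≥0∞ := fun z' => ∫⁻ z, fB f ς ρ z' z ∂μ with hBz
  have hBzm : Measurable Bz := hBm.lintegral_prod_right'
  rw [lintegral_lintegral_swap]
  · have hABm : Measurable fun z' => fA φ L ρ z' * Bz z' := hAm.mul hBzm
    rw [pairInt_eq]
    change _ ≤ ENNReal.ofReal c * ∫⁻ z', fA φ L ρ z' * Bz z' ∂μ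
    rw [← lintegral_const_mul _ hABm]
    refine lintegral_mono fun z' => ?_
    have hkz : Measurable (k z') := hkm.of_uncurry_left
    rw [lintegral_const_mul _ hkz, mul_comm]
    refine mul_le_mul' ?_ le_rfl
    have h2 := hcov μ z' ρ hρ
    rw [← lintegral_indicator measurableSet_ball] at h2
    exact h2
  · refine Measurable.aemeasurable ?_
    have m1 : Measurable fun q : E n × E n => fA φ L ρ q.2 := hAm.comp measurable_snd
    have m2 : Measurable fun q : E n × E n => Bz q.2 := hBzm.comp measurable_snd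
    have m3 : Measurable fun q : E n × E n => k q.2 q.1 := fB_swap hkm
    exact (m1.mul m2).mul m3

theorem termII (n : ℕ) (μ : Measure (E n)) [IsFiniteMeasure μ]
    (f : E n → E n → ℝ≥0∞) (hf : Measurable (Function.uncurry f))
    (φ : E n → ℝ) (L ς ρ : ℝ) (hρ : 0 < ρ) (hρ' : ρ ≤ 1) (hL : 0 ≤ L) (hς : 0 < ς)
    (h0 : ∀ y, 0 ≤ φ y) (hφ : ∀ y z, |φ y - φ z| ≤ L * ‖y - z‖)
    (h1 : ∀ y, 1 < ‖y‖ → φ y = 0) :
    ∫⁻ y, ENNReal.ofReal (φ y) * ∫⁻ z in ball y ρ, (μ (ball y ρ))⁻¹ *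
        ∫⁻ z' in {z' | z' ∈ ball y ρ ∧ ς * ρ ≤ ‖z' - y‖}, f z' y ∂μ ∂μ ∂μ
      ≤ pairInt μ f φ L ς ρ := by
  have hφc : Continuous φ := by
    have h2 : LipschitzWith ⟨L, hL⟩ φ := by
      refine LipschitzWith.of_dist_le_mul fun y z => ?_
      rw [Real.dist_eq, dist_eq_norm]
      exact hφ y z
    exact h2.continuous
  have hφm : Measurable φ := hφc.measurable
  have hAm := fA_meas hφm L ρ
  have hBm := fB_meas hf ς ρ
  have hpt : ∀ y : E n, ENNReal.ofReal (φ y) * ∫⁻ z in ball y ρ, (μ (ball y ρ))⁻¹ *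
        ∫⁻ z' in {z' | z' ∈ ball y ρ ∧ ς * ρ ≤ ‖z' - y‖}, f z' y ∂μ ∂μ ≤
      ∫⁻ z', fA φ L ρ z' * fB f ς ρ z' y ∂μ := by
    intro y
    rw [setLIntegral_const]
    have hfz : Measurable fun z' => f z' y := hf.of_uncurry_right
    have hn : Measurable fun z' : E n => ‖z' - y‖ :=
      (continuous_id.sub continuous_const).norm.measurable
    have hS : MeasurableSet {z' : E n | z' ∈ ball y ρ ∧ ς * ρ ≤ ‖z' - y‖} :=
      measurableSet_ball.inter (measurableSet_le measurable_const hn)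
    have h2 : (μ (ball y ρ))⁻¹ * (∫⁻ z' in {z' | z' ∈ ball y ρ ∧ ς * ρ ≤ ‖z' - y‖}, f z' y ∂μ) *
        μ (ball y ρ) ≤ ∫⁻ z' in {z' | z' ∈ ball y ρ ∧ ς * ρ ≤ ‖z' - y‖}, f z' y ∂μ := by
      rw [mul_right_comm]
      calc (μ (ball y ρ))⁻¹ * μ (ball y ρ) *
            (∫⁻ z' in {z' | z' ∈ ball y ρ ∧ ς * ρ ≤ ‖z' - y‖}, f z' y ∂μ)
          ≤ 1 * (∫⁻ z' in {z' | z' ∈ ball y ρ ∧ ς * ρ ≤ ‖z' - y‖}, f z' y ∂μ) := by
            gcongr
            exact ENNReal.inv_mul_le_one _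
        _ = _ := one_mul _
    refine (mul_le_mul' le_rfl h2).trans ?_
    rw [← lintegral_const_mul _ hfz]
    refine (setLIntegral_mono' hS fun z' hz' => ?_).trans (setLIntegral_le_lintegral _ _)
    obtain ⟨hz1, hz2⟩ := hz'
    have e2 : fB f ς ρ z' y = f z' y := by
      unfold fB
      rw [indicator_of_mem]
      rw [mem_ball, dist_eq_norm] at hz1
      rw [norm_sub_rev] at hz1 hz2
      exact ⟨hz2, by linarith⟩
    rw [e2]
    gcongr
    exact fA_le hρ' hL hφ h1 hz1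
  refine (lintegral_mono hpt).trans ?_
  rw [lintegral_lintegral_swap, pairInt_eq]
  · refine (lintegral_congr fun z' => ?_).le
    have hBz : Measurable (fB f ς ρ z') := hBm.of_uncurry_left
    rw [lintegral_const_mul _ hBz]
  · refine Measurable.aemeasurable ?_
    have m1 : Measurable fun q : E n × E n => fA φ L ρ q.2 := hAm.comp measurable_snd
    have m2 : Measurable fun q : E n × E n => fB f ς ρ q.2 q.1 := fB_swap hBm
    exact m1.mul m2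

end Allard
end
end
end

section

section

/-!
# F2: monotonicity in terms of gains, losses and curvature at dyadic scales

`MI_low` with `r = 1`, `s = 2^{-K}`, `Q = V.P y` (`K = 0` trivial: all sums on the right are
nonnegative).  `t = gn (z-y) ∈ [(97/100)‖z-y‖, (103/100)‖z-y‖]`.
Gain: for `2^{-j-1} ≤ ‖z-y‖ < 2^{-j}`, `2 ≤ j ≤ K-2`: `s ≤ t ≤ 1/2`, `Nn ≥ 2^{-m} t^{-m} ≥ 4^{-m} 2^{jm}`; the
annuli are disjoint.
Loss: `Nn = 0` unless `s/2 < t < 1`; for `‖z-y‖ ∈ [ρ/2, ρ)`: `Nn ≤ t^{-m} ≤ 3^m ρ^{-m}`; `ρ` runs over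
`2, 1, 1/2, ..., 2^{-(K+1)}` (then `‖z-y‖ ≥ 2^{-K-2}`, which is implied by `t > s/2`).
Curvature: `|Xi| ≤ t^{-m}` and `≤ s^{-m}`; on the annulus `ρ`: `|Xi| ‖z-y‖ ≤ 3^m ρ^{-m} ρ`; for
`‖z-y‖ < 2^{-K-2}` use `s^{-m}` and the scale `ρ = 2^{-(K+1)}`.
-/

noncomputable section

open MeasureTheory Metric Set Filter Topology

namespace Allard

private lemma F2_meas {n : ℕ} (y : E n) (ρ : ℝ) :
    MeasurableSet {z : E n | ρ / 2 ≤ ‖z - y‖ ∧ ‖z - y‖ < ρ} := by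
  have h : Measurable fun z : E n => ‖z - y‖ := (measurable_id.sub_const y).norm
  exact (measurableSet_le measurable_const h).inter (measurableSet_lt h measurable_const)

private lemma F2_int {n : ℕ} {μ : Measure (E n)} {f : E n → ℝ} (hf : Integrable f μ) (c : ℕ → ℝ)
    (B : ℕ → Set (E n)) (hB : ∀ j, MeasurableSet (B j)) (s : Finset ℕ) :
    Integrable (fun z => (∑ j ∈ s, c j * (B j).indicator (fun _ => (1 : ℝ)) z) * f z) μ ∧
    ∫ z, (∑ j ∈ s, c j * (B j).indicator (fun _ => (1 : ℝ)) z) * f z ∂μ =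
      ∑ j ∈ s, c j * ∫ z in B j, f z ∂μ := by
  have e : (fun z => (∑ j ∈ s, c j * (B j).indicator (fun _ => (1 : ℝ)) z) * f z) =
      fun z => ∑ j ∈ s, c j * (B j).indicator f z := by
    funext z
    rw [Finset.sum_mul]
    refine Finset.sum_congr rfl fun j _ => ?_
    by_cases hz : z ∈ B j
    · simp [hz]
    · simp [hz]
  have hi : ∀ j ∈ s, Integrable (fun z => c j * (B j).indicator f z) μ :=
    fun j _ => (hf.indicator (hB j)).const_mul _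
  rw [e]
  refine ⟨integrable_finset_sum s hi, ?_⟩
  rw [integral_finset_sum s hi]
  refine Finset.sum_congr rfl fun j _ => ?_
  rw [integral_const_mul, integral_indicator (hB j)]

private lemma F2_ann {x : ℝ} {N : ℕ} (h1 : (1 / 2 : ℝ) ^ N ≤ x) (h2 : x < 2) :
    ∃ j ∈ Finset.range (N + 1), (2 * (1 / 2 : ℝ) ^ j) / 2 ≤ x ∧ x < 2 * (1 / 2 : ℝ) ^ j := by
  classical
  have hex : ∃ j, (1 / 2 : ℝ) ^ j ≤ x := ⟨N, h1⟩
  refine ⟨Nat.find hex, Finset.mem_range.2 (Nat.lt_succ_of_le (Nat.find_min' hex h1)), ?_, ?_⟩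
  · have := Nat.find_spec hex
    linarith
  · rcases hj : Nat.find hex with _ | j
    · simpa using h2
    · have := Nat.find_min hex (m := j) (by omega)
      rw [not_le] at this
      rw [pow_succ]
      linarith

/-- Monotonicity of `x ↦ (x^m)⁻¹`. -/
private lemma F2_inv {m : ℕ} {a b : ℝ} (ha : 0 < a) (hab : a ≤ b) : (b ^ m)⁻¹ ≤ (a ^ m)⁻¹ :=
  inv_anti₀ (pow_pos ha m) (pow_le_pow_left₀ ha.le hab m)

private lemma F2_gain {m : ℕ} {τ : ℝ} {η : ℝ → ℝ} (h : Ker τ η) (hm : 1 ≤ m) {K : ℕ}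
    (hK : 1 ≤ K) {x t : ℝ} (hx1 : 97 / 100 * x ≤ t) (hx2 : t ≤ 103 / 100 * x) (hx : 0 ≤ x)
    (ind : ℕ → ℝ) (hind : ∀ j, ind j = 0 ∨ (ind j = 1 ∧ (1 / 2 : ℝ) ^ j / 2 ≤ x ∧
      x < (1 / 2 : ℝ) ^ j)) :
    ((2 : ℝ) ^ m)⁻¹ * ((2 : ℝ) ^ m)⁻¹ *
      ∑ j ∈ Finset.Ico 2 (K - 1), (((1 / 2 : ℝ) ^ j) ^ m)⁻¹ * ind j ≤
      Nn m η ((1 / 2) ^ K) 1 t := by
  have hs : (0 : ℝ) < (1 / 2) ^ K := by positivity
  have hs1 : (1 / 2 : ℝ) ^ K < 1 := pow_lt_one₀ (by norm_num) (by norm_num) (by omega)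
  have ht0 : 0 ≤ t := by nlinarith
  by_cases hex : ∃ j ∈ Finset.Ico 2 (K - 1), ind j ≠ 0
  · obtain ⟨j₀, hj₀, hne⟩ := hex
    obtain ⟨h1, h2, h3⟩ := (hind j₀).resolve_left hne
    have hsum : ∑ j ∈ Finset.Ico 2 (K - 1), (((1 / 2 : ℝ) ^ j) ^ m)⁻¹ * ind j =
        (((1 / 2 : ℝ) ^ j₀) ^ m)⁻¹ * ind j₀ := by
      refine Finset.sum_eq_single j₀ (fun j _ hj => ?_) (fun hc => absurd hj₀ hc)
      rcases hind j with h4 | ⟨-, h5, h6⟩
      · rw [h4, mul_zero]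
      · exfalso
        rcases lt_or_gt_of_ne hj with hlt | hgt
        · have h7 : (1 / 2 : ℝ) ^ j₀ ≤ (1 / 2 : ℝ) ^ (j + 1) :=
            pow_le_pow_of_le_one (by norm_num) (by norm_num) (by omega)
          rw [pow_succ] at h7
          linarith
        · have h7 : (1 / 2 : ℝ) ^ j ≤ (1 / 2 : ℝ) ^ (j₀ + 1) :=
            pow_le_pow_of_le_one (by norm_num) (by norm_num) (by omega)
          rw [pow_succ] at h7
          linarith
    rw [Finset.mem_Ico] at hj₀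
    have hρ0 : (0 : ℝ) < (1 / 2) ^ j₀ := by positivity
    have h8 : (1 / 2 : ℝ) ^ K ≤ (1 / 2 : ℝ) ^ (j₀ + 2) :=
      pow_le_pow_of_le_one (by norm_num) (by norm_num) (by omega)
    have h9 : (1 / 2 : ℝ) ^ j₀ ≤ (1 / 2 : ℝ) ^ 2 :=
      pow_le_pow_of_le_one (by norm_num) (by norm_num) (by omega)
    rw [pow_add] at h8
    norm_num at h8 h9
    have h10 : (1 / 2 : ℝ) ^ K ≤ t := by
      norm_num
      linarith
    have h11 : t ≤ 1 / 2 := by linarith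
    have h12 := le_Nn h hm hs hs1 h10 h11
    have ht : 0 < t := lt_of_lt_of_le hs h10
    have h13 : ((2 * (1 / 2 : ℝ) ^ j₀) ^ m)⁻¹ ≤ (t ^ m)⁻¹ := F2_inv ht (by linarith)
    rw [hsum, h1, mul_one]
    refine le_trans ?_ h12
    rw [mul_assoc]
    refine mul_le_mul_of_nonneg_left ?_ (by positivity)
    rw [mul_pow, mul_inv] at h13
    exact h13
  · have h0 : ∑ j ∈ Finset.Ico 2 (K - 1), (((1 / 2 : ℝ) ^ j) ^ m)⁻¹ * ind j = 0 := by
      refine Finset.sum_eq_zero fun j hj => ?_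
      have : ind j = 0 := by
        by_contra hc
        exact hex ⟨j, hj, hc⟩
      rw [this, mul_zero]
    rw [h0, mul_zero]
    exact Nn_nonneg h hm hs hs1 ht0

private lemma F2_loss {m : ℕ} {τ : ℝ} {η : ℝ → ℝ} (h : Ker τ η) (hm : 1 ≤ m) {K : ℕ}
    (hK : 1 ≤ K) {x t : ℝ} (hx1 : 97 / 100 * x ≤ t) (hx2 : t ≤ 103 / 100 * x) (hx : 0 ≤ x)
    (ind : ℕ → ℝ) (hnn : ∀ j, 0 ≤ ind j)
    (hind : ∀ j, 2 * (1 / 2 : ℝ) ^ j / 2 ≤ x → x < 2 * (1 / 2 : ℝ) ^ j → ind j = 1) :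
    Nn m η ((1 / 2) ^ K) 1 t ≤
      3 ^ m * ∑ j ∈ Finset.range (K + 3), ((2 * (1 / 2 : ℝ) ^ j) ^ m)⁻¹ * ind j := by
  have hs : (0 : ℝ) < (1 / 2) ^ K := by positivity
  have hs1 : (1 / 2 : ℝ) ^ K < 1 := pow_lt_one₀ (by norm_num) (by norm_num) (by omega)
  have hterm : ∀ j ∈ Finset.range (K + 3), 0 ≤ ((2 * (1 / 2 : ℝ) ^ j) ^ m)⁻¹ * ind j :=
    fun j _ => mul_nonneg (by positivity) (hnn j)
  have hR : 0 ≤ 3 ^ m * ∑ j ∈ Finset.range (K + 3), ((2 * (1 / 2 : ℝ) ^ j) ^ m)⁻¹ * ind j :=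
    mul_nonneg (by positivity) (Finset.sum_nonneg hterm)
  rcases le_or_gt t ((1 / 2) ^ K / 2) with ht | ht
  · rw [Nn_small h hs hs1 ht]
    exact hR
  rcases le_or_gt 1 t with ht1 | ht1
  · rw [Nn_zero h hm hs hs1 ht1]
    exact hR
  have ht0 : 0 < t := lt_trans (by positivity) ht
  have h1 : (1 / 2 : ℝ) ^ (K + 2) ≤ x := by
    rw [pow_add]
    norm_num
    norm_num at ht
    linarith
  obtain ⟨j, hj, h2, h3⟩ := F2_ann h1 (by linarith)
  have h4 := Finset.single_le_sum hterm hj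
  rw [hind j h2 h3, mul_one] at h4
  have hρ0 : (0 : ℝ) < 2 * (1 / 2) ^ j := by positivity
  have h5 : (t ^ m)⁻¹ ≤ ((2 * (1 / 2 : ℝ) ^ j / 3) ^ m)⁻¹ := F2_inv (by positivity) (by linarith)
  rw [div_pow, inv_div, div_eq_mul_inv] at h5
  calc Nn m η ((1 / 2) ^ K) 1 t ≤ (t ^ m)⁻¹ * η (t / 1) := Nn_le h hm hs hs1 ht0
    _ ≤ (t ^ m)⁻¹ * 1 := mul_le_mul_of_nonneg_left (h.le_one _) (by positivity)
    _ ≤ 3 ^ m * ((2 * (1 / 2 : ℝ) ^ j) ^ m)⁻¹ := by rw [mul_one]; exact h5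
    _ ≤ _ := mul_le_mul_of_nonneg_left h4 (by positivity)

private lemma F2_curv {m : ℕ} {τ : ℝ} {η : ℝ → ℝ} (h : Ker τ η) (hm : 1 ≤ m) {K : ℕ}
    (hK : 1 ≤ K) {x t : ℝ} (hx1 : 97 / 100 * x ≤ t) (hx2 : t ≤ 103 / 100 * x) (hx : 0 ≤ x)
    (ind : ℕ → ℝ) (hnn : ∀ j, 0 ≤ ind j)
    (hind : ∀ j, x < 2 * (1 / 2 : ℝ) ^ j → ind j = 1) :
    |Xi m η ((1 / 2) ^ K) 1 t| * x ≤
      3 ^ m * ∑ j ∈ Finset.range (K + 3),
        (2 * (1 / 2 : ℝ) ^ j) * ((2 * (1 / 2 : ℝ) ^ j) ^ m)⁻¹ * ind j := by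
  have hs : (0 : ℝ) < (1 / 2) ^ K := by positivity
  have hs1 : (1 / 2 : ℝ) ^ K < 1 := pow_lt_one₀ (by norm_num) (by norm_num) (by omega)
  have ht0 : 0 ≤ t := by nlinarith
  have hterm : ∀ j ∈ Finset.range (K + 3), 0 ≤
      (2 * (1 / 2 : ℝ) ^ j) * ((2 * (1 / 2 : ℝ) ^ j) ^ m)⁻¹ * ind j :=
    fun j _ => mul_nonneg (by positivity) (hnn j)
  have hR : 0 ≤ 3 ^ m * ∑ j ∈ Finset.range (K + 3),
      (2 * (1 / 2 : ℝ) ^ j) * ((2 * (1 / 2 : ℝ) ^ j) ^ m)⁻¹ * ind j :=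
    mul_nonneg (by positivity) (Finset.sum_nonneg hterm)
  rcases le_or_gt 1 t with ht1 | ht1
  · rw [Xi_zero h hm hs hs1 ht1, abs_zero, zero_mul]
    exact hR
  rcases le_or_gt ((1 / 2 : ℝ) ^ (K + 2)) x with h1 | h1
  · obtain ⟨j, hj, h2, h3⟩ := F2_ann h1 (by linarith)
    have h4 := Finset.single_le_sum hterm hj
    rw [hind j h3, mul_one] at h4
    have hρ0 : (0 : ℝ) < 2 * (1 / 2) ^ j := by positivity
    have htp : 0 < t := by nlinarith
    have h5 : (t ^ m)⁻¹ ≤ ((2 * (1 / 2 : ℝ) ^ j / 3) ^ m)⁻¹ :=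
      F2_inv (by positivity) (by linarith)
    rw [div_pow, inv_div, div_eq_mul_inv] at h5
    have h6 : |Xi m η ((1 / 2) ^ K) 1 t| ≤ 3 ^ m * ((2 * (1 / 2 : ℝ) ^ j) ^ m)⁻¹ :=
      calc |Xi m η ((1 / 2) ^ K) 1 t| ≤ (t ^ m)⁻¹ * η (t / 1) := abs_Xi_le' h hm hs hs1 htp
        _ ≤ (t ^ m)⁻¹ * 1 := mul_le_mul_of_nonneg_left (h.le_one _) (by positivity)
        _ ≤ 3 ^ m * ((2 * (1 / 2 : ℝ) ^ j) ^ m)⁻¹ := by rw [mul_one]; exact h5
    calc |Xi m η ((1 / 2) ^ K) 1 t| * x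
        ≤ (3 ^ m * ((2 * (1 / 2 : ℝ) ^ j) ^ m)⁻¹) * (2 * (1 / 2 : ℝ) ^ j) :=
          mul_le_mul h6 h3.le hx (by positivity)
      _ = 3 ^ m * ((2 * (1 / 2 : ℝ) ^ j) * ((2 * (1 / 2 : ℝ) ^ j) ^ m)⁻¹) := by ring
      _ ≤ _ := mul_le_mul_of_nonneg_left h4 (by positivity)
  · have hj : K + 2 ∈ Finset.range (K + 3) := Finset.mem_range.2 (by omega)
    have h3 : x < 2 * (1 / 2 : ℝ) ^ (K + 2) := by
      have : (0 : ℝ) < (1 / 2) ^ (K + 2) := by positivity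
      linarith
    have h4 := Finset.single_le_sum hterm hj
    rw [hind (K + 2) h3, mul_one] at h4
    have hρ0 : (0 : ℝ) < 2 * (1 / 2) ^ (K + 2) := by positivity
    have hρs : 2 * (1 / 2 : ℝ) ^ (K + 2) ≤ (1 / 2) ^ K := by
      rw [pow_add]
      norm_num
      linarith [show (0 : ℝ) < (1 / 2) ^ K from hs, hs]
    have h5 : (((1 / 2 : ℝ) ^ K) ^ m)⁻¹ ≤ ((2 * (1 / 2 : ℝ) ^ (K + 2)) ^ m)⁻¹ :=
      F2_inv hρ0 hρs
    have h6 : |Xi m η ((1 / 2) ^ K) 1 t| ≤ ((2 * (1 / 2 : ℝ) ^ (K + 2)) ^ m)⁻¹ :=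
      calc |Xi m η ((1 / 2) ^ K) 1 t| ≤ (((1 / 2 : ℝ) ^ K) ^ m)⁻¹ * η (t / 1) :=
            abs_Xi_le h hm hs hs1 ht0
        _ ≤ (((1 / 2 : ℝ) ^ K) ^ m)⁻¹ * 1 :=
            mul_le_mul_of_nonneg_left (h.le_one _) (by positivity)
        _ ≤ _ := by rw [mul_one]; exact h5
    have h7 : (1 : ℝ) ≤ 3 ^ m := one_le_pow₀ (by norm_num)
    have h8 : 0 ≤ (2 * (1 / 2 : ℝ) ^ (K + 2)) * ((2 * (1 / 2 : ℝ) ^ (K + 2)) ^ m)⁻¹ := by
      positivity
    calc |Xi m η ((1 / 2) ^ K) 1 t| * x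
        ≤ ((2 * (1 / 2 : ℝ) ^ (K + 2)) ^ m)⁻¹ * (2 * (1 / 2 : ℝ) ^ (K + 2)) :=
          mul_le_mul h6 h3.le hx (by positivity)
      _ = 1 * ((2 * (1 / 2 : ℝ) ^ (K + 2)) * ((2 * (1 / 2 : ℝ) ^ (K + 2)) ^ m)⁻¹) := by ring
      _ ≤ 3 ^ m * ((2 * (1 / 2 : ℝ) ^ (K + 2)) * ((2 * (1 / 2 : ℝ) ^ (K + 2)) ^ m)⁻¹) :=
          mul_le_mul_of_nonneg_right h7 h8
      _ ≤ _ := mul_le_mul_of_nonneg_left h4 (by positivity)

private lemma F2_shift (f : ℝ → ℝ) (K : ℕ) :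
    f 2 + ∑ j ∈ Finset.range (K + 2), f ((1 / 2) ^ j) =
      ∑ j ∈ Finset.range (K + 3), f (2 * (1 / 2) ^ j) := by
  rw [Finset.sum_range_succ' _ (K + 2), add_comm]
  congr 1
  · refine Finset.sum_congr rfl fun j _ => ?_
    congr 1
    rw [pow_succ]
    ring
  · norm_num

theorem amf_one (m : ℕ) (hm : 1 ≤ m) : ∃ c₁ C₁ : ℝ, 0 < c₁ ∧ 0 < C₁ ∧
    ∀ {n : ℕ} {δ : ℝ} {S : Stress n m δ} {α Λ : ℝ} {U : Set (E n)} {τ : ℝ} {η : ℝ → ℝ}
    (V : Sys S α Λ U), Ker τ η → 0 ≤ δ → δ ≤ d0 n →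
    ∀ (y : E n), closedBall y 2 ⊆ U → ∀ K : ℕ,
    c₁ * ∑ j ∈ Finset.Ico 2 (K - 1), V.gg ((1 / 2) ^ j) y
      - C₁ * δ ^ 2 * (V.ls 2 y + ∑ j ∈ Finset.range (K + 2), V.ls ((1 / 2) ^ j) y)
      - C₁ * (V.hh 2 y + ∑ j ∈ Finset.range (K + 2), V.hh ((1 / 2) ^ j) y)
      ≤ V.I η (V.P y) y 1 - V.I η (V.P y) y ((1 / 2) ^ K) := by
  refine ⟨1 / 3 * (((2 : ℝ) ^ m)⁻¹ * ((2 : ℝ) ^ m)⁻¹), 60 * 3 ^ m, by positivity, by positivity,
    ?_⟩
  intro n δ S α Λ U τ η V h hδ hδ' y hU K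
  have hls : 0 ≤ V.ls 2 y + ∑ j ∈ Finset.range (K + 2), V.ls ((1 / 2) ^ j) y :=
    add_nonneg (V.ls_nonneg (by norm_num) y)
      (Finset.sum_nonneg fun j _ => V.ls_nonneg (by positivity) y)
  have hhh : 0 ≤ V.hh 2 y + ∑ j ∈ Finset.range (K + 2), V.hh ((1 / 2) ^ j) y :=
    add_nonneg (V.hh_nonneg (by norm_num) y)
      (Finset.sum_nonneg fun j _ => V.hh_nonneg (by positivity) y)
  rcases Nat.eq_zero_or_pos K with hK0 | hK
  · subst hK0
    have e1 : Finset.Ico 2 (0 - 1) = (∅ : Finset ℕ) := rfl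
    rw [e1, Finset.sum_empty, mul_zero, pow_zero, sub_self]
    have h1 : 0 ≤ 60 * (3 : ℝ) ^ m * δ ^ 2 *
        (V.ls 2 y + ∑ j ∈ Finset.range (0 + 2), V.ls ((1 / 2) ^ j) y) :=
      mul_nonneg (by positivity) hls
    have h2 : 0 ≤ 60 * (3 : ℝ) ^ m *
        (V.hh 2 y + ∑ j ∈ Finset.range (0 + 2), V.hh ((1 / 2) ^ j) y) :=
      mul_nonneg (by positivity) hhh
    linarith
  have hd : δ ≤ 1 / 100 := hδ'.trans d0_le
  have hs : (0 : ℝ) < (1 / 2) ^ K := by positivity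
  have hs1 : (1 / 2 : ℝ) ^ K < 1 := pow_lt_one₀ (by norm_num) (by norm_num) (by omega)
  have hQ := V.hP y
  have hU' : closedBall y (1 / (1 - 3 * δ)) ⊆ U := by
    refine (closedBall_subset_closedBall ?_).trans hU
    rw [div_le_iff₀ (by linarith)]
    linarith
  have hMI := V.MI_low h hm hδ hδ' hQ y hs hs1 hU'
  -- bounds of the adapted norm
  have ht1 : ∀ z, 97 / 100 * ‖z - y‖ ≤ gn (S.G (V.P y)) (z - y) := fun z => by
    refine le_trans ?_ (S.le_gn hδ hδ' hQ (z - y))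
    exact mul_le_mul_of_nonneg_right (by linarith) (norm_nonneg _)
  have ht2 : ∀ z, gn (S.G (V.P y)) (z - y) ≤ 103 / 100 * ‖z - y‖ := fun z => by
    refine le_trans (S.gn_le hδ hδ' hQ (z - y)) ?_
    exact mul_le_mul_of_nonneg_right (by linarith) (norm_nonneg _)
  have ht0 : ∀ z, 0 ≤ gn (S.G (V.P y)) (z - y) := fun z => Real.sqrt_nonneg _
  have hcont : Continuous fun z => gn (S.G (V.P y)) (z - y) :=
    (gn_continuous _).comp (continuous_id.sub continuous_const)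
  have hNm : Measurable fun z => Nn m η ((1 / 2) ^ K) 1 (gn (S.G (V.P y)) (z - y)) :=
    ((continuous_Nn h hm hs hs1).comp hcont).measurable
  -- integrability
  have iga : Integrable (fun z => ga (V.P z) (z - y)) V.μ :=
    V.integrable_bdd (V.measurable_ga y) (c := 1) fun z => by
      rw [abs_of_nonneg (ga_nonneg _)]
      exact ga_le_one (V.hP z) _
  have iP : Integrable (fun z => ‖V.P z - V.P y‖ ^ 2) V.μ := by
    refine V.integrable_bdd (((V.mP.sub_const _).norm).pow_const 2) (c := 4) fun z => ?_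
    rw [abs_of_nonneg (by positivity)]
    have := (V.hP z).norm_sub_le (V.hP y)
    nlinarith [norm_nonneg (V.P z - V.P y)]
  have iH : Integrable (fun z => ‖V.H z‖) V.μ := V.iH.norm
  have iNg : Integrable (fun z => Nn m η ((1 / 2) ^ K) 1 (gn (S.G (V.P y)) (z - y)) *
      ga (V.P z) (z - y)) V.μ := by
    refine V.integrable_bdd (hNm.mul (V.measurable_ga y)) (c := (2 / (1 / 2) ^ K) ^ m) fun z => ?_
    have hN0 := Nn_nonneg h hm hs hs1 (ht0 z)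
    have hN1 := Nn_le' h hm hs hs1 (ht0 z)
    rw [abs_of_nonneg (mul_nonneg hN0 (ga_nonneg _))]
    calc Nn m η ((1 / 2) ^ K) 1 (gn (S.G (V.P y)) (z - y)) * ga (V.P z) (z - y)
        ≤ (2 / (1 / 2) ^ K) ^ m * 1 * 1 := by
          refine mul_le_mul (hN1.trans ?_) (ga_le_one (V.hP z) _) (ga_nonneg _) (by positivity)
          exact mul_le_mul_of_nonneg_left (h.le_one _) (by positivity)
      _ = _ := by ring
  -- gain
  have hgain : ((2 : ℝ) ^ m)⁻¹ * ((2 : ℝ) ^ m)⁻¹ *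
      ∑ j ∈ Finset.Ico 2 (K - 1), V.gg ((1 / 2) ^ j) y ≤
      ∫ z, Nn m η ((1 / 2) ^ K) 1 (gn (S.G (V.P y)) (z - y)) * ga (V.P z) (z - y) ∂V.μ := by
    obtain ⟨i1, i2⟩ := F2_int iga (fun j => (((1 / 2 : ℝ) ^ j) ^ m)⁻¹)
      (fun j => {z : E n | (1 / 2 : ℝ) ^ j / 2 ≤ ‖z - y‖ ∧ ‖z - y‖ < (1 / 2 : ℝ) ^ j})
      (fun j => F2_meas y _) (Finset.Ico 2 (K - 1))
    have i3 : ∑ j ∈ Finset.Ico 2 (K - 1), V.gg ((1 / 2) ^ j) y = _ := i2.symm
    rw [i3, ← integral_const_mul]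
    refine integral_mono (i1.const_mul _) iNg fun z => ?_
    simp only []
    rw [← mul_assoc]
    refine mul_le_mul_of_nonneg_right ?_ (ga_nonneg _)
    refine F2_gain h hm hK (ht1 z) (ht2 z) (norm_nonneg _) _ fun j => ?_
    by_cases hz : z ∈ {z : E n | (1 / 2 : ℝ) ^ j / 2 ≤ ‖z - y‖ ∧ ‖z - y‖ < (1 / 2 : ℝ) ^ j}
    · right
      exact ⟨by rw [indicator_of_mem hz], hz.1, hz.2⟩
    · left
      rw [indicator_of_notMem hz]
  -- loss
  have hloss : ∫ z, Nn m η ((1 / 2) ^ K) 1 (gn (S.G (V.P y)) (z - y)) *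
      ‖V.P z - V.P y‖ ^ 2 ∂V.μ ≤
      3 ^ m * (V.ls 2 y + ∑ j ∈ Finset.range (K + 2), V.ls ((1 / 2) ^ j) y) := by
    rw [F2_shift (fun ρ => V.ls ρ y)]
    obtain ⟨i1, i2⟩ := F2_int iP (fun j => ((2 * (1 / 2 : ℝ) ^ j) ^ m)⁻¹)
      (fun j => {z : E n | 2 * (1 / 2 : ℝ) ^ j / 2 ≤ ‖z - y‖ ∧ ‖z - y‖ < 2 * (1 / 2 : ℝ) ^ j})
      (fun j => F2_meas y _) (Finset.range (K + 3))
    have i3 : ∑ j ∈ Finset.range (K + 3), V.ls (2 * (1 / 2) ^ j) y = _ := i2.symm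
    rw [i3, ← integral_const_mul]
    refine integral_mono_of_nonneg (Eventually.of_forall fun z => ?_) (i1.const_mul _)
      (Eventually.of_forall fun z => ?_)
    · exact mul_nonneg (Nn_nonneg h hm hs hs1 (ht0 z)) (by positivity)
    · simp only []
      rw [← mul_assoc]
      refine mul_le_mul_of_nonneg_right ?_ (by positivity)
      refine F2_loss h hm hK (ht1 z) (ht2 z) (norm_nonneg _) _ (fun j => ?_) fun j h1 h2 => ?_
      · exact indicator_nonneg (fun _ _ => zero_le_one) _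
      · exact indicator_of_mem (show z ∈ {z : E n | 2 * (1 / 2 : ℝ) ^ j / 2 ≤ ‖z - y‖ ∧
          ‖z - y‖ < 2 * (1 / 2 : ℝ) ^ j} from ⟨h1, h2⟩) _
  -- curvature
  have hcurv : ∫ z, |Xi m η ((1 / 2) ^ K) 1 (gn (S.G (V.P y)) (z - y))| * ‖z - y‖ *
      ‖V.H z‖ ∂V.μ ≤
      3 ^ m * (V.hh 2 y + ∑ j ∈ Finset.range (K + 2), V.hh ((1 / 2) ^ j) y) := by
    rw [F2_shift (fun ρ => V.hh ρ y)]
    obtain ⟨i1, i2⟩ := F2_int iH (fun j => (2 * (1 / 2 : ℝ) ^ j) * ((2 * (1 / 2 : ℝ) ^ j) ^ m)⁻¹)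
      (fun j => ball y (2 * (1 / 2 : ℝ) ^ j))
      (fun j => measurableSet_ball) (Finset.range (K + 3))
    have i3 : ∑ j ∈ Finset.range (K + 3), V.hh (2 * (1 / 2) ^ j) y = _ := i2.symm
    rw [i3, ← integral_const_mul]
    refine integral_mono_of_nonneg (Eventually.of_forall fun z => ?_) (i1.const_mul _)
      (Eventually.of_forall fun z => ?_)
    · simp only [Pi.zero_apply]
      positivity
    · simp only []
      rw [← mul_assoc]
      refine mul_le_mul_of_nonneg_right ?_ (by positivity)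
      refine F2_curv h hm hK (ht1 z) (ht2 z) (norm_nonneg _) _ (fun j => ?_) fun j h1 => ?_
      · exact indicator_nonneg (fun _ _ => zero_le_one) _
      · exact indicator_of_mem (show z ∈ ball y (2 * (1 / 2 : ℝ) ^ j) by
          rw [mem_ball, dist_eq_norm]; exact h1) _
  have hfin1 : 60 * δ ^ 2 * ∫ z, Nn m η ((1 / 2) ^ K) 1 (gn (S.G (V.P y)) (z - y)) *
      ‖V.P z - V.P y‖ ^ 2 ∂V.μ ≤ 60 * 3 ^ m * δ ^ 2 *
      (V.ls 2 y + ∑ j ∈ Finset.range (K + 2), V.ls ((1 / 2) ^ j) y) := by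
    calc _ ≤ 60 * δ ^ 2 *
          (3 ^ m * (V.ls 2 y + ∑ j ∈ Finset.range (K + 2), V.ls ((1 / 2) ^ j) y)) :=
          mul_le_mul_of_nonneg_left hloss (by positivity)
      _ = _ := by ring
  have hfin2 : 3 ^ m * (V.hh 2 y + ∑ j ∈ Finset.range (K + 2), V.hh ((1 / 2) ^ j) y) ≤
      60 * 3 ^ m * (V.hh 2 y + ∑ j ∈ Finset.range (K + 2), V.hh ((1 / 2) ^ j) y) := by
    have : 0 ≤ 3 ^ m * (V.hh 2 y + ∑ j ∈ Finset.range (K + 2), V.hh ((1 / 2) ^ j) y) :=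
      mul_nonneg (by positivity) hhh
    linarith
  rw [mul_assoc (1 / 3 : ℝ)]
  linarith

end Allard
end
end

section

/-!
# F7: crude bounds used in the averaged monotonicity formula

Hypothesis (U): `μ(ball y 2^{-i}) ≤ A 2^{-im} 2^{i/2}` for `y ∈ ball 0 4`.

`gg_sum_le`: `gg 2^{-i} y ≤ 2^{im} μ(ball y 2^{-i}) ≤ A 2^{i/2}` on `ball 0 2`, and `μ(ball 0 2) ≤ A`.

`hh_int_le`: `hh 2^{-i} y = 2^{-i} 2^{im} ∫_{ball y 2^{-i}} ‖H‖`; swap the integrals: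
`∫ φ(y) hh(2^{-i}) y dμ(y) ≤ 2^{-i} 2^{im} ∫_{ball 0 2} ‖H(z)‖ μ(ball z 2^{-i}) dμ(z) ≤ A 2^{-i/2} ∫ ‖H‖`.
For the scale `2`: `hh 2 y ≤ 2 ∫_{ball 0 3} ‖H‖`, `∫ φ ≤ A`.
-/

noncomputable section

open MeasureTheory Metric Set Filter Topology

namespace Allard

variable {n m : ℕ} {δ : ℝ} {S : Stress n m δ} {α Λ : ℝ} {U : Set (E n)}

/-- The crude upper density hypothesis (U). -/
def Sys.UD (V : Sys S α Λ U) (A : ℝ) : Prop :=
  ∀ y ∈ ball (0 : E n) 4, ∀ i : ℕ,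
    V.μ.real (ball y ((1 / 2) ^ i)) ≤ A * ((1 / 2) ^ i) ^ m * (2 : ℝ) ^ ((i : ℝ) / 2)

theorem f7_measure_le (V : Sys S α Λ U) {A : ℝ} (h32 : V.μ.real (ball 0 32) ≤ A) {y : E n}
    {r : ℝ} (hy : ‖y‖ + r ≤ 32) : V.μ.real (ball y r) ≤ A := by
  refine le_trans (measureReal_mono ?_) h32
  intro z hz
  rw [mem_ball, dist_eq_norm] at hz
  rw [mem_ball_zero_iff]
  calc ‖z‖ = ‖y + (z - y)‖ := by rw [add_sub_cancel]
    _ ≤ ‖y‖ + ‖z - y‖ := norm_add_le _ _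
    _ < 32 := by linarith

/-- `∫ φ f ≤ c A` for `0 ≤ f ≤ c` on the unit ball. -/
theorem f7_phi_le (V : Sys S α Λ U) {A : ℝ} (h32 : V.μ.real (ball 0 32) ≤ A)
    {φ : E n → ℝ} (h0 : ∀ y, 0 ≤ φ y) (h1 : ∀ y, φ y ≤ 1)
    (hφ : ∀ y, 1 < ‖y‖ → φ y = 0) {f : E n → ℝ} {c : ℝ} (hc : 0 ≤ c) (hf0 : ∀ y, 0 ≤ f y)
    (hfc : ∀ y, ‖y‖ ≤ 1 → f y ≤ c) : ∫ y, φ y * f y ∂V.μ ≤ c * A := by
  have e1 : ∫ y, φ y * f y ∂V.μ ≤ ∫ y, (ball (0 : E n) 32).indicator (fun _ => c) y ∂V.μ := by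
    apply integral_mono_of_nonneg
    · exact Filter.Eventually.of_forall fun y => mul_nonneg (h0 y) (hf0 y)
    · exact (integrable_const c).indicator measurableSet_ball
    · refine Filter.Eventually.of_forall fun y => ?_
      by_cases hy : 1 < ‖y‖
      · simp only [hφ y hy, zero_mul]
        exact Set.indicator_nonneg (fun _ _ => hc) y
      · rw [not_lt] at hy
        have hm : y ∈ ball (0 : E n) 32 := by
          rw [mem_ball_zero_iff]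
          linarith
        change φ y * f y ≤ _
        rw [Set.indicator_of_mem hm]
        calc φ y * f y ≤ 1 * f y := mul_le_mul_of_nonneg_right (h1 y) (hf0 y)
          _ = f y := one_mul _
          _ ≤ c := hfc y hy
  refine e1.trans ?_
  rw [integral_indicator measurableSet_ball, setIntegral_const, smul_eq_mul, mul_comm]
  exact mul_le_mul_of_nonneg_left h32 hc

theorem gg_int_le (V : Sys S α Λ U) {A : ℝ} (hA : 1 ≤ A) (h32 : V.μ.real (ball 0 32) ≤ A)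
    (hU : V.UD A) (i : ℕ) :
    ∫ y in ball 0 2, V.gg ((1 / 2) ^ i) y ∂V.μ ≤ A ^ 2 * (2 : ℝ) ^ ((i : ℝ) / 2) := by
  have hρ : (0 : ℝ) < (1 / 2) ^ i := by positivity
  have h2 : (0 : ℝ) ≤ (2 : ℝ) ^ ((i : ℝ) / 2) := by positivity
  have hpt : ∀ y ∈ ball (0 : E n) 2, V.gg ((1 / 2) ^ i) y ≤ A * (2 : ℝ) ^ ((i : ℝ) / 2) := by
    intro y hy
    refine (V.gg_le hρ y).trans ?_
    have h3 := hU y (ball_subset_ball (by norm_num) hy) i
    have hρm : (0 : ℝ) < ((1 / 2) ^ i) ^ m := by positivity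
    calc ((((1 : ℝ) / 2) ^ i) ^ m)⁻¹ * V.μ.real (ball y ((1 / 2) ^ i))
        ≤ ((((1 : ℝ) / 2) ^ i) ^ m)⁻¹ * (A * ((1 / 2) ^ i) ^ m * (2 : ℝ) ^ ((i : ℝ) / 2)) :=
          mul_le_mul_of_nonneg_left h3 (inv_nonneg.2 hρm.le)
      _ = A * (2 : ℝ) ^ ((i : ℝ) / 2) := by
          field_simp
  have e1 : ∫ y in ball 0 2, V.gg ((1 / 2) ^ i) y ∂V.μ ≤
      ∫ _ in ball (0 : E n) 2, A * (2 : ℝ) ^ ((i : ℝ) / 2) ∂V.μ := by
    apply integral_mono_of_nonneg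
    · exact Filter.Eventually.of_forall fun y => V.gg_nonneg hρ y
    · exact integrable_const _
    · exact (ae_restrict_iff' measurableSet_ball).2 (Filter.Eventually.of_forall hpt)
  refine e1.trans ?_
  rw [setIntegral_const, smul_eq_mul]
  have h4 : V.μ.real (ball 0 2) ≤ A :=
    f7_measure_le V h32 (y := 0) (r := 2) (by rw [norm_zero]; norm_num)
  calc V.μ.real (ball 0 2) * (A * (2 : ℝ) ^ ((i : ℝ) / 2))
      ≤ A * (A * (2 : ℝ) ^ ((i : ℝ) / 2)) := mul_le_mul_of_nonneg_right h4 (by positivity)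
    _ = A ^ 2 * (2 : ℝ) ^ ((i : ℝ) / 2) := by ring

/-- Swap of the integrals. -/
theorem f7_swap (V : Sys S α Λ U) {φ : E n → ℝ} (hφm : Measurable φ) (h0 : ∀ y, 0 ≤ φ y)
    (h1 : ∀ y, φ y ≤ 1) (ρ : ℝ) :
    ∫ y, φ y * (∫ z in ball y ρ, ‖V.H z‖ ∂V.μ) ∂V.μ =
      ∫ z, ‖V.H z‖ * (∫ y in ball z ρ, φ y ∂V.μ) ∂V.μ := by
  have hms : MeasurableSet {x : E n × E n | dist x.2 x.1 < ρ} :=
    measurableSet_lt (measurable_snd.dist measurable_fst) measurable_const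
  set k : E n × E n → ℝ := fun x =>
    {x : E n × E n | dist x.2 x.1 < ρ}.indicator (fun x => φ x.1 * ‖V.H x.2‖) x with hk
  have hint : Integrable k (V.μ.prod V.μ) := by
    have hb : Integrable (fun x : E n × E n => ‖V.H x.2‖) (V.μ.prod V.μ) := by
      have := (integrable_const (1 : ℝ) (μ := V.μ)).mul_prod V.iH.norm
      simpa using this
    refine hb.mono' ?_ ?_
    · exact (((hφm.comp measurable_fst).mul
        (V.mH.norm.comp measurable_snd)).indicator hms).aestronglyMeasurable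
    · refine Filter.Eventually.of_forall fun x => ?_
      simp only [hk]
      by_cases hx : x ∈ {x : E n × E n | dist x.2 x.1 < ρ}
      · rw [Set.indicator_of_mem hx, norm_mul, norm_norm, Real.norm_of_nonneg (h0 _)]
        calc φ x.1 * ‖V.H x.2‖ ≤ 1 * ‖V.H x.2‖ :=
              mul_le_mul_of_nonneg_right (h1 _) (norm_nonneg _)
          _ = ‖V.H x.2‖ := one_mul _
      · rw [Set.indicator_of_notMem hx, norm_zero]
        exact norm_nonneg _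
  have e1 : ∀ y, φ y * (∫ z in ball y ρ, ‖V.H z‖ ∂V.μ) = ∫ z, k (y, z) ∂V.μ := by
    intro y
    rw [← integral_indicator measurableSet_ball, ← integral_const_mul]
    apply integral_congr_ae
    refine Filter.Eventually.of_forall fun z => ?_
    simp only [hk]
    by_cases hz : dist z y < ρ
    · rw [Set.indicator_of_mem (mem_ball.2 hz), Set.indicator_of_mem (show (y, z) ∈ _ from hz)]
    · rw [Set.indicator_of_notMem (fun h => hz (mem_ball.1 h)),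
        Set.indicator_of_notMem (show (y, z) ∉ _ from hz), mul_zero]
  have e2 : ∀ z, ‖V.H z‖ * (∫ y in ball z ρ, φ y ∂V.μ) = ∫ y, k (y, z) ∂V.μ := by
    intro z
    rw [← integral_indicator measurableSet_ball, ← integral_const_mul]
    apply integral_congr_ae
    refine Filter.Eventually.of_forall fun y => ?_
    simp only [hk]
    by_cases hz : dist z y < ρ
    · rw [Set.indicator_of_mem (mem_ball.2 (by rw [dist_comm]; exact hz)),
        Set.indicator_of_mem (show (y, z) ∈ _ from hz), mul_comm]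
    · rw [Set.indicator_of_notMem (fun h => hz (by rw [dist_comm]; exact mem_ball.1 h)),
        Set.indicator_of_notMem (show (y, z) ∉ _ from hz), mul_zero]
  simp only [e1, e2]
  exact integral_integral_swap hint

theorem hh_int_le (V : Sys S α Λ U) {A : ℝ} (hA : 1 ≤ A) (h32 : V.μ.real (ball 0 32) ≤ A)
    (hU : V.UD A) {φ : E n → ℝ} (hφm : Measurable φ) (h0 : ∀ y, 0 ≤ φ y) (h1 : ∀ y, φ y ≤ 1)
    (hφ : ∀ y, 1 < ‖y‖ → φ y = 0) (i : ℕ) :
    ∫ y, φ y * V.hh ((1 / 2) ^ i) y ∂V.μ ≤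
      A * (2 : ℝ) ^ (-(i : ℝ) / 2) * ∫ z in ball 0 32, ‖V.H z‖ ∂V.μ := by
  set ρ : ℝ := (1 / 2) ^ i with hρdef
  have hρ : 0 < ρ := by positivity
  have hρ1 : ρ ≤ 1 := pow_le_one₀ (by norm_num) (by norm_num)
  have hρm : 0 < ρ ^ m := by positivity
  have h2 : (0 : ℝ) ≤ (2 : ℝ) ^ ((i : ℝ) / 2) := by positivity
  have e1 : ∫ y, φ y * V.hh ρ y ∂V.μ =
      ρ * (ρ ^ m)⁻¹ * ∫ z, ‖V.H z‖ * (∫ y in ball z ρ, φ y ∂V.μ) ∂V.μ := by
    rw [← f7_swap V hφm h0 h1 ρ, ← integral_const_mul]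
    apply integral_congr_ae
    refine Filter.Eventually.of_forall fun y => ?_
    simp only [Sys.hh]
    ring
  have e2 : ∫ z, ‖V.H z‖ * (∫ y in ball z ρ, φ y ∂V.μ) ∂V.μ ≤
      ∫ z, (ball (0 : E n) 32).indicator
        (fun z => (A * ρ ^ m * (2 : ℝ) ^ ((i : ℝ) / 2)) * ‖V.H z‖) z ∂V.μ := by
    apply integral_mono_of_nonneg
    · exact Filter.Eventually.of_forall fun z =>
        mul_nonneg (norm_nonneg _) (integral_nonneg h0)
    · exact (V.iH.norm.const_mul _).indicator measurableSet_ball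
    · refine Filter.Eventually.of_forall fun z => ?_
      change ‖V.H z‖ * (∫ y in ball z ρ, φ y ∂V.μ) ≤ _
      by_cases hz : z ∈ ball (0 : E n) 4
      · rw [Set.indicator_of_mem (ball_subset_ball (by norm_num) hz), mul_comm]
        refine mul_le_mul_of_nonneg_right ?_ (norm_nonneg _)
        refine le_trans ?_ (hU z hz i)
        calc ∫ y in ball z ρ, φ y ∂V.μ ≤ ∫ _ in ball z ρ, (1 : ℝ) ∂V.μ := by
              apply integral_mono_of_nonneg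
              · exact Filter.Eventually.of_forall h0
              · exact integrable_const _
              · exact Filter.Eventually.of_forall h1
          _ = V.μ.real (ball z ρ) := by
              rw [setIntegral_const, smul_eq_mul, mul_one]
      · have e3 : ∫ y in ball z ρ, φ y ∂V.μ = 0 := by
          rw [setIntegral_eq_zero_of_forall_eq_zero]
          intro y hy
          apply hφ
          rw [mem_ball, dist_eq_norm] at hy
          rw [mem_ball_zero_iff, not_lt] at hz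
          have : ‖z‖ ≤ ‖y‖ + ‖y - z‖ := by
            calc ‖z‖ = ‖y - (y - z)‖ := by rw [sub_sub_cancel]
              _ ≤ ‖y‖ + ‖y - z‖ := norm_sub_le _ _
          linarith
        rw [e3, mul_zero]
        apply Set.indicator_nonneg
        intro z _
        positivity
  have hp : ρ * (2 : ℝ) ^ ((i : ℝ) / 2) = (2 : ℝ) ^ (-(i : ℝ) / 2) := by
    have e4 : ρ = (2 : ℝ) ^ (-(i : ℝ)) := by
      rw [hρdef, Real.rpow_neg (by norm_num), Real.rpow_natCast, one_div, inv_pow]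
    rw [e4, ← Real.rpow_add (by norm_num)]
    congr 1
    ring
  rw [e1]
  calc ρ * (ρ ^ m)⁻¹ * ∫ z, ‖V.H z‖ * (∫ y in ball z ρ, φ y ∂V.μ) ∂V.μ
      ≤ ρ * (ρ ^ m)⁻¹ * ∫ z, (ball (0 : E n) 32).indicator
        (fun z => (A * ρ ^ m * (2 : ℝ) ^ ((i : ℝ) / 2)) * ‖V.H z‖) z ∂V.μ :=
        mul_le_mul_of_nonneg_left e2 (by positivity)
    _ = A * (2 : ℝ) ^ (-(i : ℝ) / 2) * ∫ z in ball 0 32, ‖V.H z‖ ∂V.μ := by
        rw [integral_indicator measurableSet_ball, integral_const_mul, ← hp]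
        field_simp

theorem hh_int_le₂ (V : Sys S α Λ U) {A : ℝ} (hA : 1 ≤ A) (h32 : V.μ.real (ball 0 32) ≤ A)
    {φ : E n → ℝ} (hφm : Measurable φ) (h0 : ∀ y, 0 ≤ φ y) (h1 : ∀ y, φ y ≤ 1)
    (hφ : ∀ y, 1 < ‖y‖ → φ y = 0) :
    ∫ y, φ y * V.hh 2 y ∂V.μ ≤ 2 * A * ∫ z in ball 0 32, ‖V.H z‖ ∂V.μ := by
  have hI : 0 ≤ ∫ z in ball 0 32, ‖V.H z‖ ∂V.μ := integral_nonneg fun z => norm_nonneg _
  have h3 := f7_phi_le V h32 h0 h1 hφ (f := V.hh 2) (c := 2 * ∫ z in ball 0 32, ‖V.H z‖ ∂V.μ)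
    (by positivity) (fun y => V.hh_nonneg (by norm_num) y) (fun y hy => by
      have e1 : ∫ z in ball y 2, ‖V.H z‖ ∂V.μ ≤ ∫ z in ball 0 32, ‖V.H z‖ ∂V.μ := by
        apply setIntegral_mono_set V.iH.norm.integrableOn
        · exact Filter.Eventually.of_forall fun z => norm_nonneg _
        · refine Filter.Eventually.of_forall ?_
          intro z hz
          have hz' : z ∈ ball y 2 := hz
          rw [mem_ball, dist_eq_norm] at hz'
          change z ∈ ball (0 : E n) 32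
          rw [mem_ball_zero_iff]
          have : ‖z‖ ≤ ‖y‖ + ‖z - y‖ := by
            calc ‖z‖ = ‖y + (z - y)‖ := by rw [add_sub_cancel]
              _ ≤ ‖y‖ + ‖z - y‖ := norm_add_le _ _
          linarith
      have e2 : 0 ≤ ∫ z in ball y 2, ‖V.H z‖ ∂V.μ := integral_nonneg fun z => norm_nonneg _
      have e3 : ((2 : ℝ) ^ m)⁻¹ ≤ 1 := inv_le_one_of_one_le₀ (one_le_pow₀ (by norm_num))
      have e4 : 0 ≤ ((2 : ℝ) ^ m)⁻¹ := by positivity
      calc V.hh 2 y = 2 * (((2 : ℝ) ^ m)⁻¹ * ∫ z in ball y 2, ‖V.H z‖ ∂V.μ) := by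
            simp only [Sys.hh]
            ring
        _ ≤ 2 * (1 * ∫ z in ball y 2, ‖V.H z‖ ∂V.μ) := by
            apply mul_le_mul_of_nonneg_left _ (by norm_num)
            exact mul_le_mul_of_nonneg_right e3 e2
        _ ≤ 2 * ∫ z in ball 0 32, ‖V.H z‖ ∂V.μ := by
            rw [one_mul]
            exact mul_le_mul_of_nonneg_left e1 (by norm_num))
  refine h3.trans (le_of_eq ?_)
  ring

/-- Loss at large scales. -/
theorem ls_int_le (V : Sys S α Λ U) {A : ℝ} (hA : 1 ≤ A) (h32 : V.μ.real (ball 0 32) ≤ A)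
    {φ : E n → ℝ} (hφm : Measurable φ) (h0 : ∀ y, 0 ≤ φ y) (h1 : ∀ y, φ y ≤ 1)
    (hφ : ∀ y, 1 < ‖y‖ → φ y = 0) {ρ : ℝ} (hρ : 1 / 8 ≤ ρ) (hρ' : ρ ≤ 2) :
    ∫ y, φ y * V.ls ρ y ∂V.μ ≤ 4 * 8 ^ m * A ^ 2 := by
  have hρ0 : 0 < ρ := by linarith
  have h3 := f7_phi_le V h32 h0 h1 hφ (f := V.ls ρ) (c := 4 * 8 ^ m * A)
    (by positivity) (fun y => V.ls_nonneg hρ0 y) (fun y hy => by
      refine (V.ls_le hρ0 y).trans ?_
      have e1 : V.μ.real (ball y ρ) ≤ A := f7_measure_le V h32 (by linarith)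
      have e2 : (ρ ^ m)⁻¹ ≤ 8 ^ m := by
        rw [← inv_pow]
        apply pow_le_pow_left₀ (by positivity)
        rw [inv_le_comm₀ hρ0 (by norm_num)]
        linarith
      calc 4 * ((ρ ^ m)⁻¹ * V.μ.real (ball y ρ)) ≤ 4 * (8 ^ m * A) := by
            apply mul_le_mul_of_nonneg_left _ (by norm_num)
            exact mul_le_mul e2 e1 measureReal_nonneg (by positivity)
        _ = 4 * 8 ^ m * A := by ring)
  refine h3.trans (le_of_eq ?_)
  ring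

end Allard
end
end
end
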