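import Pool.Agent.Lib.MP_5932b0_an.AR.A4
import Pool.Agent.Lib.MP_5932b0_an.AR.B4
import Pool.Agent.Lib.MP_5932b0_an.AR.B1
import Pool.Agent.Lib.MP_5932b0_an.ST.Fin

section

/-!
# S1: horizontal scaling estimate

`x z := Q (z - p)`, `t = ‖x z‖ = gn Q (z - p)`.  Field `g z = χ z • (Xi (t z) • x z)` with a vertical
cutoff `χ`: `fderiv χ z (Q v) = 0` for all `v`.
`fderiv g = χ (Xi Q + (N/t²) x ⊗ x) + (fderiv χ).smulRight (Xi x)`  (`radial_fderiv` with `G = L = Q`;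
`Q x = x`).
`tr (B Q) = tr (Q B Q) = m ψ_Q + O(n ‖QBQ - ψ_Q Q‖)`, `⟨x, B x⟩ = ψ_Q t² + O(‖QBQ-ψ_Q Q‖ t²)`,
`fderiv χ (B x) = fderiv χ ((1-Q) B Q x)`, `‖(1-Q) B Q‖ ≤ 2‖P-Q‖` (`exp1`, `exp2`; `‖P-Q‖ ≤ 2`, so
`‖QBQ - ψ_Q Q‖ ≤ 6 ‖P-Q‖`).  Hence
`tr (B fderiv g) = χ ψ_Q (m Xi + N) + O((|Xi| + N + c₁ |Xi| t) ‖P-Q‖)`, `m Xi + N = K_r - K_s`,
`|Xi| ≤ s^{-m}`, `N ≤ (2/s)^m`, `t ≤ r` where `Xi ≠ 0`; everything vanishes outside `ball 0 b`.
`∫⟨H,g⟩ = O(s^{-m} r ∫_{ball 0 b} ‖H‖)`.  Divide by `ψ_Q ≥ 1/2`.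

`hsupp`: the field vanishes outside `ball 0 b`; since `closedBall 0 b ⊆ U` it is a legitimate test field.
-/

noncomputable section

open MeasureTheory Metric Set Filter Topology

namespace Allard

/-- A differentiable map that vanishes outside a ball has derivative zero outside the ball. -/
private theorem S1_fderiv_zero {n : ℕ} (g : E n → E n) (hg : Differentiable ℝ g) (b : ℝ)
    (h0 : ∀ z, z ∉ ball (0 : E n) b → g z = 0) (z : E n) (hz : z ∉ ball (0 : E n) b) :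
    fderiv ℝ g z = 0 := by
  have key : ∀ v : E n, 0 ≤ inner ℝ z v → fderiv ℝ g z v = 0 := by
    intro v hv
    have h1 : HasDerivAt (fun t : ℝ => g (z + t • v)) (fderiv ℝ g z v) 0 := by
      have h2 : HasFDerivAt g (fderiv ℝ g z) (z + (0 : ℝ) • v) := by
        simpa using (hg z).hasFDerivAt
      have h3 : HasDerivAt (fun t : ℝ => z + t • v) v 0 := by
        have := ((hasDerivAt_id (0 : ℝ)).smul_const v).const_add z
        simpa using this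
      exact h2.comp_hasDerivAt 0 h3
    have h2 : HasDerivWithinAt (fun t : ℝ => g (z + t • v)) (fderiv ℝ g z v) (Ici 0) 0 :=
      h1.hasDerivWithinAt
    have h3 : HasDerivWithinAt (fun t : ℝ => g (z + t • v)) 0 (Ici 0) 0 := by
      refine (hasDerivWithinAt_const (0 : ℝ) (Ici 0) (0 : E n)).congr ?_ ?_
      · intro t ht
        apply h0
        intro hmem
        apply hz
        rw [mem_ball_zero_iff] at hmem ⊢
        refine lt_of_le_of_lt ?_ hmem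
        have h4 : ‖z‖ ^ 2 ≤ ‖z + t • v‖ ^ 2 := by
          rw [norm_add_sq_real, inner_smul_right]
          have h5 : 0 ≤ t * inner ℝ z v := mul_nonneg ht hv
          linarith only [h5, sq_nonneg ‖t • v‖]
        exact le_of_sq_le_sq h4 (norm_nonneg _)
      · simpa using h0 z hz
    exact (uniqueDiffWithinAt_Ici (0 : ℝ)).eq_deriv _ h2 h3
  ext1 v
  rcases le_total 0 (inner ℝ z v) with h | h
  · exact key v h
  · have := key (-v) (by rw [inner_neg_right]; linarith)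
    rw [map_neg, neg_eq_zero] at this
    exact this

private theorem S1_mul_smul {n : ℕ} (A B : Op n) (c : ℝ) : A * (c • B) = c • (A * B) := by
  refine ContinuousLinearMap.ext fun v => ?_
  exact map_smul A c (B v)

private theorem S1_tr_sum {n : ℕ} (A B : Op n) :
    tr (A * B) = ∑ i, ∑ j, inner ℝ (EuclideanSpace.basisFun (Fin n) ℝ j)
        (B (EuclideanSpace.basisFun (Fin n) ℝ i)) *
      inner ℝ (A (EuclideanSpace.basisFun (Fin n) ℝ j)) (EuclideanSpace.basisFun (Fin n) ℝ i) := by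
  rw [tr_eq_sum]
  refine Finset.sum_congr rfl fun i _ => ?_
  set e := EuclideanSpace.basisFun (Fin n) ℝ with he
  have h1 : B (e i) = ∑ j, inner ℝ (e j) (B (e i)) • e j := (e.sum_repr' (B (e i))).symm
  have h2 : (A * B) (e i) = ∑ j, inner ℝ (e j) (B (e i)) • A (e j) := by
    change A (B (e i)) = _
    conv_lhs => rw [h1]
    rw [map_sum]
    refine Finset.sum_congr rfl fun j _ => ?_
    rw [map_smul]
  rw [h2, sum_inner]
  refine Finset.sum_congr rfl fun j _ => ?_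
  rw [real_inner_smul_left]

private theorem S1_measB {n m : ℕ} {δ : ℝ} {S : Stress n m δ} {α Λ : ℝ} {U : Set (E n)}
    (V : Sys S α Λ U) : Measurable (fun z => S.B (V.P z)) := by
  have h1 : Continuous (fun P : Op n => S.B P) := (S.cψ.smul continuous_id).add S.cC
  exact h1.measurable.comp V.mP

private theorem S1_meas {n m : ℕ} {δ : ℝ} {S : Stress n m δ} {α Λ : ℝ} {U : Set (E n)}
    (V : Sys S α Λ U) (F : E n → Op n) (hF : Continuous F) :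
    Measurable (fun z => tr (S.B (V.P z) * F z)) := by
  have h0 : (fun z => tr (S.B (V.P z) * F z)) = fun z =>
      ∑ i, ∑ j, inner ℝ (EuclideanSpace.basisFun (Fin n) ℝ j)
        (F z (EuclideanSpace.basisFun (Fin n) ℝ i)) *
      inner ℝ (S.B (V.P z) (EuclideanSpace.basisFun (Fin n) ℝ j))
        (EuclideanSpace.basisFun (Fin n) ℝ i) := funext fun z => S1_tr_sum _ _
  rw [h0]
  refine Finset.measurable_sum _ fun i _ => Finset.measurable_sum _ fun j _ => ?_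
  refine Measurable.mul ?_ ?_
  · exact Measurable.inner measurable_const
      (hF.measurable.apply_continuousLinearMap _)
  · exact Measurable.inner ((S1_measB V).apply_continuousLinearMap _) measurable_const

private theorem S1_point {n m : ℕ} (hm : 1 ≤ m) {τ : ℝ} {η : ℝ → ℝ} (h : Ker τ η)
    {s r c₁ : ℝ} (hs : 0 < s) (hr : s < r) (hc₁ : 0 ≤ c₁) {δ : ℝ} (S : Stress n m δ)
    (hδ : 0 ≤ δ) (hδ' : δ ≤ d0 n) {P Q : Op n} (hP : Pr n m P) (hQ : Pr n m Q) (x : E n)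
    (hx : Q x = x) (c : ℝ) (hc : |c| ≤ 1) (φ : E n →L[ℝ] ℝ) (hφ : ‖φ‖ ≤ c₁)
    (hφQ : ∀ v, φ (Q v) = 0) :
    |tr (S.B P * (c • (Xi m η s r ‖x‖ • Q + (Nn m η s r ‖x‖ / ‖x‖ ^ 2) • rk x x) +
        φ.smulRight (Xi m η s r ‖x‖ • x))) -
      S.ψ Q * (c * (Kr m η r ‖x‖ - Kr m η s ‖x‖))| ≤
      (6 * n * (s ^ m)⁻¹ + 6 * (2 / s) ^ m + 2 * c₁ * ((s ^ m)⁻¹ * r)) * ‖P - Q‖ := by
  set A : Op n := Q * S.B P * Q - S.ψ Q • Q with hA
  set X := Xi m η s r ‖x‖ with hX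
  set N := Nn m η s r ‖x‖ with hN
  have ht : 0 ≤ ‖x‖ := norm_nonneg x
  have hPQ : ‖P - Q‖ ≤ 2 := hP.norm_sub_le hQ
  have hPQ0 : 0 ≤ ‖P - Q‖ := norm_nonneg _
  have hd : d0 n ≤ 1 / 100 := d0_le
  have hAn : ‖A‖ ≤ 6 * ‖P - Q‖ := by
    refine (S.exp1 hδ hδ' hP hQ).trans ?_
    nlinarith only [hδ', hPQ, hPQ0, hd]
  have e1 : tr (S.B P * Q) = tr A + m * S.ψ Q := by
    have h1 : tr (Q * S.B P * Q) = tr (S.B P * Q) := by
      rw [mul_assoc, tr_mul_comm, mul_assoc, hQ.idem]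
    rw [hA, tr_sub, tr_smul, hQ.trp, h1]
    ring
  have e2 : inner ℝ x (S.B P x) = inner ℝ x (A x) + S.ψ Q * ‖x‖ ^ 2 := by
    have h1 : A x = Q (S.B P (Q x)) - S.ψ Q • Q x := rfl
    have h2 : inner ℝ x (Q (S.B P (Q x))) = inner ℝ x (S.B P x) := by
      rw [← hQ.inner_symm, hx]
    rw [h1, inner_sub_right, h2, inner_smul_right, hx, real_inner_self_eq_norm_sq]
    ring
  have e3 : φ (S.B P x) = φ (((1 - Q) * S.B P * Q) x) := by
    have h1 : ((1 - Q) * S.B P * Q) x = S.B P (Q x) - Q (S.B P (Q x)) := rfl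
    rw [h1, map_sub, hφQ, hx, sub_zero]
  have hN2 : N / ‖x‖ ^ 2 * ‖x‖ ^ 2 = N := by
    rcases eq_or_ne (‖x‖) 0 with h0 | h0
    · have : N = 0 := Nn_small h hs hr (by rw [h0]; positivity)
      rw [this]; simp
    · field_simp
  have hrel : m * X + N = Kr m η r ‖x‖ - Kr m η s ‖x‖ := Xi_rel h hm hs hr ht
  have e4 : tr (S.B P * (c • (X • Q + (N / ‖x‖ ^ 2) • rk x x) + φ.smulRight (X • x))) -
      S.ψ Q * (c * (Kr m η r ‖x‖ - Kr m η s ‖x‖)) =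
      c * X * tr A + c * (N / ‖x‖ ^ 2 * inner ℝ x (A x)) +
        X * φ (((1 - Q) * S.B P * Q) x) := by
    rw [mul_add, tr_add, tr_mul_smulRight, map_smul, map_smul, smul_eq_mul, e3,
      S1_mul_smul, tr_smul, mul_add, tr_add, S1_mul_smul, S1_mul_smul, tr_smul, tr_smul,
      tr_mul_rk, e1, e2, ← hrel]
    linear_combination (c * S.ψ Q) * hN2
  rw [e4]
  have hXb : |X| ≤ (s ^ m)⁻¹ := by
    refine (abs_Xi_le h hm hs hr ht).trans ?_
    have : 0 ≤ (s ^ m)⁻¹ := by positivity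
    nlinarith only [this, h.le_one (‖x‖ / r)]
  have hXt : |X| * ‖x‖ ≤ (s ^ m)⁻¹ * r := by
    have h0 : 0 ≤ (s ^ m)⁻¹ := by positivity
    rcases le_total r ‖x‖ with h1 | h1
    · have : X = 0 := Xi_zero h hm hs hr h1
      rw [this]; simp
      have : 0 < r := hs.trans hr
      positivity
    · exact mul_le_mul hXb h1 ht h0
  have hNb : |N| ≤ (2 / s) ^ m := by
    rw [abs_of_nonneg (Nn_nonneg h hm hs hr ht)]
    refine (Nn_le' h hm hs hr ht).trans ?_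
    have : 0 ≤ (2 / s) ^ m := by positivity
    nlinarith only [this, h.le_one (‖x‖ / r)]
  have b1 : |c * X * tr A| ≤ 6 * n * (s ^ m)⁻¹ * ‖P - Q‖ := by
    rw [abs_mul, abs_mul]
    have h1 : |tr A| ≤ n * (6 * ‖P - Q‖) :=
      (abs_tr_le A).trans (mul_le_mul_of_nonneg_left hAn (Nat.cast_nonneg n))
    have h2 : |c| * |X| ≤ 1 * (s ^ m)⁻¹ :=
      mul_le_mul hc hXb (abs_nonneg _) zero_le_one
    have h3 : 0 ≤ (s ^ m)⁻¹ := by positivity
    calc |c| * |X| * |tr A| ≤ (1 * (s ^ m)⁻¹) * (n * (6 * ‖P - Q‖)) :=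
          mul_le_mul h2 h1 (abs_nonneg _) (by positivity)
      _ = _ := by ring
  have b2 : |c * (N / ‖x‖ ^ 2 * inner ℝ x (A x))| ≤ 6 * (2 / s) ^ m * ‖P - Q‖ := by
    rw [abs_mul]
    have h1 : |N / ‖x‖ ^ 2 * inner ℝ x (A x)| ≤ |N| * (6 * ‖P - Q‖) := by
      rw [abs_mul, abs_div, abs_of_nonneg (sq_nonneg ‖x‖)]
      have h2 : |inner ℝ x (A x)| ≤ ‖x‖ ^ 2 * (6 * ‖P - Q‖) := by
        refine (abs_real_inner_le_norm _ _).trans ?_
        have h3 : ‖A x‖ ≤ 6 * ‖P - Q‖ * ‖x‖ :=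
          (A.le_opNorm x).trans (mul_le_mul_of_nonneg_right hAn ht)
        calc ‖x‖ * ‖A x‖ ≤ ‖x‖ * (6 * ‖P - Q‖ * ‖x‖) := mul_le_mul_of_nonneg_left h3 ht
          _ = _ := by ring
      calc |N| / ‖x‖ ^ 2 * |inner ℝ x (A x)| ≤ |N| / ‖x‖ ^ 2 * (‖x‖ ^ 2 * (6 * ‖P - Q‖)) :=
            mul_le_mul_of_nonneg_left h2 (by positivity)
        _ = (|N| / ‖x‖ ^ 2 * ‖x‖ ^ 2) * (6 * ‖P - Q‖) := by ring
        _ ≤ |N| * (6 * ‖P - Q‖) := by
            refine mul_le_mul_of_nonneg_right ?_ (by positivity)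
            rcases eq_or_ne (‖x‖) 0 with h0 | h0
            · rw [h0]; simp
            · have : |N| / ‖x‖ ^ 2 * ‖x‖ ^ 2 = |N| := by field_simp
              exact this.le
    calc |c| * |N / ‖x‖ ^ 2 * inner ℝ x (A x)| ≤ 1 * (|N| * (6 * ‖P - Q‖)) :=
          mul_le_mul hc h1 (abs_nonneg _) zero_le_one
      _ ≤ (2 / s) ^ m * (6 * ‖P - Q‖) := by
          rw [one_mul]; exact mul_le_mul_of_nonneg_right hNb (by positivity)
      _ = _ := by ring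
  have b3 : |X * φ (((1 - Q) * S.B P * Q) x)| ≤ 2 * c₁ * ((s ^ m)⁻¹ * r) * ‖P - Q‖ := by
    rw [abs_mul]
    have h1 : |φ (((1 - Q) * S.B P * Q) x)| ≤ c₁ * (2 * ‖P - Q‖ * ‖x‖) := by
      have h2 : ‖φ (((1 - Q) * S.B P * Q) x)‖ ≤ ‖φ‖ * ‖((1 - Q) * S.B P * Q) x‖ :=
        φ.le_opNorm _
      have h3 : ‖((1 - Q) * S.B P * Q) x‖ ≤ 2 * ‖P - Q‖ * ‖x‖ :=
        (ContinuousLinearMap.le_opNorm _ x).trans
          (mul_le_mul_of_nonneg_right (S.exp2 hδ hδ' hP hQ) ht)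
      rw [Real.norm_eq_abs] at h2
      exact h2.trans (mul_le_mul hφ h3 (norm_nonneg _) hc₁)
    calc |X| * |φ (((1 - Q) * S.B P * Q) x)| ≤ |X| * (c₁ * (2 * ‖P - Q‖ * ‖x‖)) :=
          mul_le_mul_of_nonneg_left h1 (abs_nonneg _)
      _ = (|X| * ‖x‖) * (2 * c₁ * ‖P - Q‖) := by ring
      _ ≤ ((s ^ m)⁻¹ * r) * (2 * c₁ * ‖P - Q‖) :=
          mul_le_mul_of_nonneg_right hXt (by positivity)
      _ = _ := by ring
  calc _ ≤ |c * X * tr A + c * (N / ‖x‖ ^ 2 * inner ℝ x (A x))| +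
        |X * φ (((1 - Q) * S.B P * Q) x)| := abs_add_le _ _
    _ ≤ |c * X * tr A| + |c * (N / ‖x‖ ^ 2 * inner ℝ x (A x))| +
        |X * φ (((1 - Q) * S.B P * Q) x)| := add_le_add_left (abs_add_le _ _) _
    _ ≤ 6 * n * (s ^ m)⁻¹ * ‖P - Q‖ + 6 * (2 / s) ^ m * ‖P - Q‖ +
        2 * c₁ * ((s ^ m)⁻¹ * r) * ‖P - Q‖ := add_le_add (add_le_add b1 b2) b3
    _ = _ := by ring

private theorem S1_Xt {m : ℕ} (hm : 1 ≤ m) {τ : ℝ} {η : ℝ → ℝ} (h : Ker τ η)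
    {s r : ℝ} (hs : 0 < s) (hr : s < r) {t : ℝ} (ht : 0 ≤ t) :
    |Xi m η s r t| * t ≤ (s ^ m)⁻¹ * r := by
  have h0 : 0 ≤ (s ^ m)⁻¹ := by positivity
  rcases le_total r t with h1 | h1
  · have : Xi m η s r t = 0 := Xi_zero h hm hs hr h1
    rw [this, abs_zero, zero_mul]
    have : 0 < r := hs.trans hr
    positivity
  · have hXb : |Xi m η s r t| ≤ (s ^ m)⁻¹ := by
      refine (abs_Xi_le h hm hs hr ht).trans ?_
      nlinarith only [h0, h.le_one (t / r)]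
    exact mul_le_mul hXb h1 ht h0

theorem cyl_scale (n m : ℕ) (hm : 1 ≤ m) {τ : ℝ} {η : ℝ → ℝ} (h : Ker τ η) (s r c₁ : ℝ)
    (hs : 0 < s) (hr : s < r) (hc₁ : 0 ≤ c₁) : ∃ C : ℝ, 0 < C ∧
    ∀ {δ : ℝ} {S : Stress n m δ} {α Λ : ℝ} {U : Set (E n)} (V : Sys S α Λ U),
    0 ≤ δ → δ ≤ d0 n → ∀ {Q : Op n}, Pr n m Q → ∀ (p : E n) (b : ℝ), closedBall 0 b ⊆ U →
    ∀ χ : E n → ℝ, ContDiff ℝ 1 χ → (∀ z, |χ z| ≤ 1) → (∀ z, ‖fderiv ℝ χ z‖ ≤ c₁) →
    (∀ z v, fderiv ℝ χ z (Q v) = 0) →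
    (∀ z, χ z ≠ 0 → ‖Q (z - p)‖ ≤ r → z ∈ ball 0 b) →
    |∫ z, χ z * (Kr m η r ‖Q (z - p)‖ - Kr m η s ‖Q (z - p)‖) ∂V.μ| ≤
      C * (∫ z in ball 0 b, ‖V.P z - Q‖ ∂V.μ + ∫ z in ball 0 b, ‖V.H z‖ ∂V.μ) := by
  have hr0 : 0 < r := hs.trans hr
  have hsm : 0 < (s ^ m)⁻¹ := by positivity
  set C₀ : ℝ := 6 * n * (s ^ m)⁻¹ + 6 * (2 / s) ^ m + 2 * c₁ * ((s ^ m)⁻¹ * r) with hC₀
  have hC₀0 : 0 ≤ C₀ := by positivity
  have hcc : 0 < (s ^ m)⁻¹ * r := by positivity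
  refine ⟨2 * (C₀ + (s ^ m)⁻¹ * r), by positivity, ?_⟩
  intro δ S α Λ U V hδ hδ' Q hQ p b hb χ hχ hχ1 hχd hχQ hχs
  have hd : d0 n ≤ 1 / 100 := d0_le
  have hQ0 : ∀ z, 0 ≤ inner ℝ (Q z) z := fun z => by rw [← hQ.norm_sq]; positivity
  set R : E n → E n := fun z => Xi m η s r (gn Q (z - p)) • Q (z - p) with hR
  have hRC : ContDiff ℝ 1 R := radial_contDiff h hm hs hr hQ.symm hQ0 Q p
  set g : E n → E n := fun z => χ z • R z with hg
  have hgC : ContDiff ℝ 1 g := hχ.smul hRC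
  have hRe : ∀ z, R z = Xi m η s r ‖Q (z - p)‖ • Q (z - p) := fun z => by
    rw [hR]; simp only [gn_proj hQ]
  have hg0 : ∀ z, z ∉ ball (0 : E n) b → g z = 0 := by
    intro z hz
    rcases eq_or_ne (χ z) 0 with h0 | h0
    · simp only [hg, h0, zero_smul]
    · have h1 : r ≤ ‖Q (z - p)‖ := by
        by_contra h2
        exact hz (hχs z h0 (not_le.mp h2).le)
      simp only [hg, hRe, Xi_zero h hm hs hr h1, zero_smul, smul_zero]
  have hsub : Function.support g ⊆ closedBall (0 : E n) b := by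
    intro z hz
    by_contra h1
    exact hz (hg0 z fun h2 => h1 (ball_subset_closedBall h2))
  have hcs : HasCompactSupport g :=
    HasCompactSupport.of_support_subset_isCompact (isCompact_closedBall 0 b) hsub
  have hts : tsupport g ⊆ U := (closure_minimal hsub isClosed_closedBall).trans hb
  have hfv := V.fv g hgC hcs hts
  -- derivative
  have hfd : ∀ z, fderiv ℝ g z = χ z • (Xi m η s r ‖Q (z - p)‖ • Q +
      (Nn m η s r ‖Q (z - p)‖ / ‖Q (z - p)‖ ^ 2) • rk (Q (z - p)) (Q (z - p))) +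
      (fderiv ℝ χ z).smulRight (Xi m η s r ‖Q (z - p)‖ • Q (z - p)) := by
    intro z
    have h1 : HasFDerivAt g (χ z • fderiv ℝ R z + (fderiv ℝ χ z).smulRight (R z)) z :=
      ((hχ.differentiable one_ne_zero z).hasFDerivAt).smul
        ((hRC.differentiable one_ne_zero z).hasFDerivAt)
    have h2 := radial_fderiv h hm hs hr hQ.symm hQ0 Q p z
    rw [h1.fderiv, hRe z]
    have h3 : fderiv ℝ R z = Xi m η s r ‖Q (z - p)‖ • Q +
      (Nn m η s r ‖Q (z - p)‖ / ‖Q (z - p)‖ ^ 2) • rk (Q (z - p)) (Q (z - p)) := by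
      rw [gn_proj hQ] at h2
      exact h2
    rw [h3]
  set k : E n → ℝ := fun z =>
    χ z * (Kr m η r ‖Q (z - p)‖ - Kr m η s ‖Q (z - p)‖) with hk
  set T : E n → ℝ := fun z => tr (S.B (V.P z) * fderiv ℝ g z) with hT
  have hk0 : ∀ z, z ∉ ball (0 : E n) b → k z = 0 := by
    intro z hz
    rcases eq_or_ne (χ z) 0 with h0 | h0
    · simp only [hk, h0, zero_mul]
    · have h1 : r ≤ ‖Q (z - p)‖ := by
        by_contra h2
        exact hz (hχs z h0 (not_le.mp h2).le)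
      simp only [hk, Kr_eq_zero h hr0 h1, Kr_eq_zero h hs (hr.le.trans h1), sub_self, mul_zero]
  have herr : ∀ z, |T z - S.ψ Q * k z| ≤
      (ball (0 : E n) b).indicator (fun z => C₀ * ‖V.P z - Q‖) z := by
    intro z
    by_cases hz : z ∈ ball (0 : E n) b
    · rw [indicator_of_mem hz]
      have h1 := S1_point hm h hs hr hc₁ S hδ hδ' (V.hP z) hQ (Q (z - p))
        (hQ.apply_apply _) (χ z) (hχ1 z) (fderiv ℝ χ z) (hχd z) (hχQ z)
      simp only [hT, hk, hfd]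
      exact h1
    · rw [indicator_of_notMem hz, hk0 z hz]
      have h1 : fderiv ℝ g z = 0 :=
        S1_fderiv_zero g (hgC.differentiable one_ne_zero) b hg0 z hz
      simp only [hT, h1]
      have h2 : S.B (V.P z) * (0 : Op n) = 0 := mul_zero _
      have h3 : tr (0 : Op n) = 0 := by
        unfold tr
        exact map_zero (LinearMap.trace ℝ (E n))
      rw [h2, h3]
      simp
  -- integrability
  have hQc : Continuous fun z => ‖Q (z - p)‖ :=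
    (Q.continuous.comp (continuous_id.sub continuous_const)).norm
  have hkc : Continuous k :=
    hχ.continuous.mul (((continuous_Kr h r).comp hQc).sub ((continuous_Kr h s).comp hQc))
  have hkb : ∀ z, |k z| ≤ (r ^ m)⁻¹ + (s ^ m)⁻¹ := by
    intro z
    have h1 := Kr_nonneg (m := m) h hr0 ‖Q (z - p)‖
    have h2 := Kr_nonneg (m := m) h hs ‖Q (z - p)‖
    have h3 := Kr_le (m := m) h hr0 ‖Q (z - p)‖
    have h4 := Kr_le (m := m) h hs ‖Q (z - p)‖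
    have h5 : |Kr m η r ‖Q (z - p)‖ - Kr m η s ‖Q (z - p)‖| ≤ (r ^ m)⁻¹ + (s ^ m)⁻¹ := by
      rw [abs_le]; constructor <;> linarith
    simp only [hk]
    rw [abs_mul]
    calc |χ z| * |Kr m η r ‖Q (z - p)‖ - Kr m η s ‖Q (z - p)‖| ≤
        1 * ((r ^ m)⁻¹ + (s ^ m)⁻¹) := mul_le_mul (hχ1 z) h5 (abs_nonneg _) zero_le_one
      _ = _ := one_mul _
  have hki : Integrable k V.μ := V.integrable_bdd hkc.measurable hkb
  have hPm : Measurable fun z => ‖V.P z - Q‖ := (V.mP.sub_const Q).norm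
  have hP2 : ∀ z, ‖V.P z - Q‖ ≤ 2 := fun z => (V.hP z).norm_sub_le hQ
  have hPi : Integrable (fun z => ‖V.P z - Q‖) V.μ :=
    V.integrable_bdd hPm (c := 2) fun z => by rw [abs_of_nonneg (norm_nonneg _)]; exact hP2 z
  have hTb : ∀ z, |T z| ≤ |S.ψ Q| * ((r ^ m)⁻¹ + (s ^ m)⁻¹) + C₀ * 2 := by
    intro z
    have h1 := herr z
    have h2 : (ball (0 : E n) b).indicator (fun z => C₀ * ‖V.P z - Q‖) z ≤ C₀ * 2 := by
      refine indicator_apply_le' (fun _ => ?_) (fun _ => by positivity)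
      exact mul_le_mul_of_nonneg_left (hP2 z) hC₀0
    have h3 : |S.ψ Q * k z| ≤ |S.ψ Q| * ((r ^ m)⁻¹ + (s ^ m)⁻¹) := by
      rw [abs_mul]; exact mul_le_mul_of_nonneg_left (hkb z) (abs_nonneg _)
    have h4 : |T z| ≤ |T z - S.ψ Q * k z| + |S.ψ Q * k z| := by
      have := abs_add_le (T z - S.ψ Q * k z) (S.ψ Q * k z)
      rwa [sub_add_cancel] at this
    linarith
  have hTi : Integrable T V.μ :=
    V.integrable_bdd (S1_meas V _ (hgC.continuous_fderiv one_ne_zero)) hTb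
  have hbm : MeasurableSet (ball (0 : E n) b) := measurableSet_ball
  -- the two error integrals
  have he1 : |∫ z, (T z - S.ψ Q * k z) ∂V.μ| ≤ C₀ * ∫ z in ball 0 b, ‖V.P z - Q‖ ∂V.μ := by
    rw [← Real.norm_eq_abs, ← integral_const_mul, ← integral_indicator hbm]
    refine norm_integral_le_of_norm_le ((hPi.const_mul C₀).indicator hbm) ?_
    exact Eventually.of_forall fun z => by rw [Real.norm_eq_abs]; exact herr z
  have he2 : |∫ z, inner ℝ (V.H z) (g z) ∂V.μ| ≤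
      ((s ^ m)⁻¹ * r) * ∫ z in ball 0 b, ‖V.H z‖ ∂V.μ := by
    rw [← Real.norm_eq_abs, ← integral_const_mul, ← integral_indicator hbm]
    refine norm_integral_le_of_norm_le ((V.iH.norm.const_mul _).indicator hbm) ?_
    refine Eventually.of_forall fun z => ?_
    by_cases hz : z ∈ ball (0 : E n) b
    · rw [indicator_of_mem hz, Real.norm_eq_abs]
      refine (abs_real_inner_le_norm _ _).trans ?_
      rw [mul_comm]
      refine mul_le_mul_of_nonneg_right ?_ (norm_nonneg _)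
      simp only [hg]
      rw [hRe, norm_smul, norm_smul, Real.norm_eq_abs, Real.norm_eq_abs]
      calc |χ z| * (|Xi m η s r ‖Q (z - p)‖| * ‖Q (z - p)‖) ≤ 1 * ((s ^ m)⁻¹ * r) :=
            mul_le_mul (hχ1 z) (S1_Xt hm h hs hr (norm_nonneg _)) (by positivity) zero_le_one
        _ = _ := one_mul _
    · rw [indicator_of_notMem hz, hg0 z hz]
      simp
  have hsplit : ∫ z, (T z - S.ψ Q * k z) ∂V.μ = ∫ z, T z ∂V.μ - S.ψ Q * ∫ z, k z ∂V.μ := by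
    rw [integral_sub hTi (hki.const_mul _), integral_const_mul]
  rw [hsplit] at he1
  have hTe : ∫ z, T z ∂V.μ = ∫ z, inner ℝ (V.H z) (g z) ∂V.μ := hfv
  rw [← hTe] at he2
  have hA0 : 0 ≤ ∫ z in ball (0 : E n) b, ‖V.P z - Q‖ ∂V.μ :=
    integral_nonneg fun z => norm_nonneg _
  have hB0 : 0 ≤ ∫ z in ball (0 : E n) b, ‖V.H z‖ ∂V.μ :=
    integral_nonneg fun z => norm_nonneg _
  have hψ : 1 / 2 ≤ S.ψ Q := by
    have := (abs_le.mp (S.bψ Q hQ)).1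
    linarith only [hδ', hd, this]
  have hfin : S.ψ Q * |∫ z, k z ∂V.μ| ≤ C₀ * (∫ z in ball 0 b, ‖V.P z - Q‖ ∂V.μ) +
      ((s ^ m)⁻¹ * r) * ∫ z in ball 0 b, ‖V.H z‖ ∂V.μ := by
    have h1 : S.ψ Q * |∫ z, k z ∂V.μ| = |S.ψ Q * ∫ z, k z ∂V.μ| := by
      rw [abs_mul, abs_of_nonneg (by linarith only [hψ] : (0 : ℝ) ≤ S.ψ Q)]
    rw [h1]
    have h2 : S.ψ Q * ∫ z, k z ∂V.μ = ∫ z, T z ∂V.μ -
        (∫ z, T z ∂V.μ - S.ψ Q * ∫ z, k z ∂V.μ) := by ring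
    rw [h2]
    have h3 := abs_sub (∫ z, T z ∂V.μ) (∫ z, T z ∂V.μ - S.ψ Q * ∫ z, k z ∂V.μ)
    linarith only [he1, he2, h3]
  have hI0 : 0 ≤ |∫ z, k z ∂V.μ| := abs_nonneg _
  change |∫ z, k z ∂V.μ| ≤ _
  nlinarith only [hψ, hfin, hI0, mul_nonneg hC₀0 hB0, mul_nonneg hcc.le hA0]

/-- Vector valued version: first moment of the height. -/
theorem cyl_scale_height (n m : ℕ) (hm : 1 ≤ m) {τ : ℝ} {η : ℝ → ℝ} (h : Ker τ η)
    (s r c₁ : ℝ) (hs : 0 < s) (hr : s < r) (hc₁ : 0 ≤ c₁) : ∃ C : ℝ, 0 < C ∧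
    ∀ {δ : ℝ} {S : Stress n m δ} {α Λ : ℝ} {U : Set (E n)} (V : Sys S α Λ U),
    0 ≤ δ → δ ≤ d0 n → ∀ {Q : Op n}, Pr n m Q → ∀ (p : E n) (b : ℝ), closedBall 0 b ⊆ U →
    ∀ χ : E n → ℝ, ContDiff ℝ 1 χ → (∀ z, |χ z| ≤ 1) → (∀ z, ‖fderiv ℝ χ z‖ ≤ c₁) →
    (∀ z v, fderiv ℝ χ z (Q v) = 0) →
    (∀ z, χ z ≠ 0 → ‖Q (z - p)‖ ≤ r → z ∈ ball 0 b) →
    (∀ z, χ z ≠ 0 → ‖(1 - Q) z‖ ≤ 1) →
    ∀ ν : E n, ‖ν‖ ≤ 1 →
    |∫ z, χ z * inner ℝ ν ((1 - Q) z) *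
        (Kr m η r ‖Q (z - p)‖ - Kr m η s ‖Q (z - p)‖) ∂V.μ| ≤
      C * (∫ z in ball 0 b, ‖V.P z - Q‖ ∂V.μ + ∫ z in ball 0 b, ‖V.H z‖ ∂V.μ) := by
  obtain ⟨C, hC, hmain⟩ := cyl_scale n m hm h s r (c₁ + 1) hs hr (by linarith)
  refine ⟨C, hC, ?_⟩
  intro δ S α Λ U V hδ hδ' Q hQ p b hb χ hχ hχ1 hχd hχQ hχs hχv ν hν
  set l : E n → ℝ := fun z => inner ℝ ν ((1 - Q) z) with hl
  set w : E n → ℝ := fun z => χ z * l z with hw
  have hlC : ContDiff ℝ 1 l := contDiff_const.inner ℝ (1 - Q : Op n).contDiff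
  have hlL : ∀ z, HasFDerivAt l ((innerSL ℝ ν).comp (1 - Q : Op n)) z := fun z => by
    have h1 := ((innerSL ℝ ν).comp (1 - Q : Op n)).hasFDerivAt (x := z)
    exact h1
  have hwC : ContDiff ℝ 1 w := hχ.mul hlC
  have hlb : ∀ z, ‖(1 - Q) z‖ ≤ 1 → |l z| ≤ 1 := fun z hz => by
    refine (abs_real_inner_le_norm _ _).trans ?_
    calc ‖ν‖ * ‖(1 - Q) z‖ ≤ 1 * 1 := mul_le_mul hν hz (norm_nonneg _) zero_le_one
      _ = 1 := one_mul _
  have hw1 : ∀ z, |w z| ≤ 1 := by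
    intro z
    rcases eq_or_ne (χ z) 0 with h0 | h0
    · simp [hw, h0]
    · simp only [hw]
      rw [abs_mul]
      calc |χ z| * |l z| ≤ 1 * 1 :=
            mul_le_mul (hχ1 z) (hlb z (hχv z h0)) (abs_nonneg _) zero_le_one
        _ = 1 := one_mul _
  have hwd : ∀ z, fderiv ℝ w z = χ z • ((innerSL ℝ ν).comp (1 - Q : Op n)) +
      l z • fderiv ℝ χ z := by
    intro z
    exact (((hχ.differentiable one_ne_zero z).hasFDerivAt).mul (hlL z)).fderiv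
  have hLn : ‖(innerSL ℝ ν).comp (1 - Q : Op n)‖ ≤ 1 := by
    refine (ContinuousLinearMap.opNorm_comp_le _ _).trans ?_
    rw [innerSL_apply_norm]
    calc ‖ν‖ * ‖(1 - Q : Op n)‖ ≤ 1 * 1 :=
          mul_le_mul hν hQ.perp_norm_le (norm_nonneg _) zero_le_one
      _ = 1 := one_mul _
  -- points where the derivative of the cutoff does not vanish are in the slab
  have hslab : ∀ z, fderiv ℝ χ z ≠ 0 → ‖(1 - Q) z‖ ≤ 1 := by
    intro z hz
    have hz' : z ∈ closure {y | χ y ≠ 0} := by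
      by_contra h1
      apply hz
      have h2 : ∀ᶠ y in 𝓝 z, χ y = 0 := by
        have h3 : (closure {y | χ y ≠ 0})ᶜ ∈ 𝓝 z := isClosed_closure.isOpen_compl.mem_nhds h1
        filter_upwards [h3] with y hy
        by_contra h4
        exact hy (subset_closure h4)
      have h3 : χ =ᶠ[𝓝 z] fun _ => (0 : ℝ) := h2
      rw [h3.fderiv_eq]
      exact fderiv_const_apply (0 : ℝ)
    have hcl : IsClosed {y : E n | ‖(1 - Q) y‖ ≤ 1} :=
      isClosed_le ((1 - Q : Op n).continuous.norm) continuous_const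
    exact closure_minimal (fun y hy => hχv y hy) hcl hz'
  have hwn : ∀ z, ‖fderiv ℝ w z‖ ≤ c₁ + 1 := by
    intro z
    rw [hwd]
    have h1 : ‖χ z • ((innerSL ℝ ν).comp (1 - Q : Op n))‖ ≤ 1 := by
      rw [norm_smul, Real.norm_eq_abs]
      calc |χ z| * ‖(innerSL ℝ ν).comp (1 - Q : Op n)‖ ≤ 1 * 1 :=
            mul_le_mul (hχ1 z) hLn (norm_nonneg _) zero_le_one
        _ = 1 := one_mul _
    have h2 : ‖l z • fderiv ℝ χ z‖ ≤ c₁ := by
      rw [norm_smul, Real.norm_eq_abs]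
      rcases eq_or_ne (fderiv ℝ χ z) 0 with h0 | h0
      · rw [h0, norm_zero, mul_zero]; exact hc₁
      · calc |l z| * ‖fderiv ℝ χ z‖ ≤ 1 * c₁ :=
              mul_le_mul (hlb z (hslab z h0)) (hχd z) (norm_nonneg _) zero_le_one
          _ = c₁ := one_mul _
    refine (norm_add_le _ _).trans ?_
    linarith
  have hwQ : ∀ z v, fderiv ℝ w z (Q v) = 0 := by
    intro z v
    rw [hwd]
    have h1 : ((innerSL ℝ ν).comp (1 - Q : Op n)) (Q v) = 0 := by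
      change inner ℝ ν ((1 - Q) (Q v)) = 0
      rw [hQ.perp_apply', inner_zero_right]
    have h2 : (χ z • ((innerSL ℝ ν).comp (1 - Q : Op n)) + l z • fderiv ℝ χ z) (Q v) =
      χ z * ((innerSL ℝ ν).comp (1 - Q : Op n)) (Q v) + l z * fderiv ℝ χ z (Q v) := rfl
    rw [h2, h1, hχQ]
    ring
  have hws : ∀ z, w z ≠ 0 → ‖Q (z - p)‖ ≤ r → z ∈ ball 0 b := fun z hz =>
    hχs z fun h0 => hz (by simp only [hw, h0, zero_mul])
  exact hmain V hδ hδ' hQ p b hb w hwC hw1 hwn hwQ hws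

end Allard
end
end

section

section

/-!
# S2: slab lemma

Kernel with `τ` such that `(1-τ)^m ≥ 31/32`; `η₁ = 1/32`; `b ≥ 20` with `(b/(b-8))^m ≤ 17/16`.
Suppose `z₁ ∈ spt ∩ ball 0 4`, `‖(1-Q) z₁‖ > 1/8`; `z₀ = 0`.  `σ = 1/32`, `ρ = b - 8`.
`χ_i z = ϑ(‖(1-Q)(z - z_i)‖²)`, `ϑ` smooth, `ϑ(x) = 1` for `x ≤ 1/32²`, `0` for `x ≥ 1/16²`
(`Real.smoothTransition` or `ContDiffBump` composed with `1-Q`); disjoint supports, derivative bounded by
a constant `c₁(n)`, `fderiv χ (Q v) = 0`.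
`cyl_scale` with `s = σ`, `r = ρ`, `p = z_i`: `‖Q(z-z_i)‖ ≤ ρ`, `‖(1-Q)(z-z_i)‖ ≤ 1/16` imply `z ∈ ball 0 b`
(`‖z‖ ≤ 4 + √(ρ² + 1/256) < b`).
`∫ χ_i Kr σ ‖Q(z-z_i)‖ ≥ σ^{-m} μ(ball z_i ((1-τ)σ)) ≥ (1-τ)^m (31/32) om` (LD; `χ_i = 1` there).
`∑_i ∫ χ_i Kr ρ ‖Q (z-z_i)‖ ≤ ρ^{-m} μ(ball 0 b) ≤ (3/2)(b/ρ)^m om ≤ (51/32) om`.
`∫_{ball 0 b} ‖P-Q‖ ≤ (μ(ball 0 b) ∫ ‖P-Q‖²)^{1/2} ≤ C √l₂`.  So
`2 (31/32)² om ≤ (51/32) om + 2 C (√l₂ + l₂)`, false for small `l₂` (`2 (31/32)² > 1.87 > 1.6`).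
-/

noncomputable section

open MeasureTheory Metric Set Filter Topology

namespace Allard

private theorem s2_eta_nonneg {τ : ℝ} {η : ℝ → ℝ} (h : Ker τ η) (t : ℝ) : 0 ≤ η t := by
  by_cases h1 : 1 ≤ t
  · rw [h.zero t h1]
  · have h2 := h.anti (le_of_lt (not_le.1 h1))
    rw [h.zero 1 le_rfl] at h2
    exact h2

private theorem s2_eta_le {τ : ℝ} {η : ℝ → ℝ} (h : Ker τ η) (t : ℝ) : η t ≤ 1 := by
  by_cases h1 : t ≤ 1 - τ
  · rw [h.one t h1]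
  · have h2 := h.anti (le_of_lt (not_le.1 h1))
    rw [h.one (1 - τ) le_rfl] at h2
    exact h2

private theorem s2_om_pos (m : ℕ) : 0 < om m := by
  unfold om
  exact ENNReal.toReal_pos (measure_ball_pos volume _ one_pos).ne' measure_ball_lt_top.ne

/-- the cutoff -/
private def s2chi {n : ℕ} (f : E n → ℝ) (Q : Op n) (p z : E n) : ℝ := f ((1 - Q) (z - p))

private theorem s2_chi {n : ℕ} {f : E n → ℝ} (hf : ContDiff ℝ 1 f) (Q : Op n) (p : E n) :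
    ContDiff ℝ 1 (s2chi f Q p) ∧
      ∀ z v, fderiv ℝ (s2chi f Q p) z v = fderiv ℝ f ((1 - Q) (z - p)) ((1 - Q) v) := by
  have h1 : ContDiff ℝ 1 (fun z : E n => (1 - Q) (z - p)) :=
    (1 - Q).contDiff.comp (contDiff_id.sub contDiff_const)
  refine ⟨hf.comp h1, ?_⟩
  intro z v
  have h2 : HasFDerivAt (fun z : E n => (1 - Q) (z - p)) (1 - Q) z := by
    have h3 : HasFDerivAt (fun z : E n => z - p) (ContinuousLinearMap.id ℝ (E n)) z :=
      (hasFDerivAt_id z).sub_const p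
    have h4 := (1 - Q).hasFDerivAt.comp z h3
    rw [ContinuousLinearMap.comp_id] at h4
    exact h4
  have h3 : HasFDerivAt f (fderiv ℝ f ((1 - Q) (z - p))) ((1 - Q) (z - p)) :=
    (hf.differentiable (by simp)).differentiableAt.hasFDerivAt
  have h4 : HasFDerivAt (s2chi f Q p) ((fderiv ℝ f ((1 - Q) (z - p))).comp (1 - Q)) z :=
    h3.comp z h2
  rw [h4.fderiv]
  rfl

private theorem s2_kr_cont {n : ℕ} {τ : ℝ} {η : ℝ → ℝ} (h : Ker τ η) (m : ℕ) (r : ℝ) (Q : Op n)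
    (p : E n) : Continuous (fun z : E n => Kr m η r ‖Q (z - p)‖) := by
  unfold Kr
  refine continuous_const.mul (h.smooth.continuous.comp ?_)
  exact ((Q.continuous.comp (continuous_id.sub continuous_const)).norm).div_const _

private theorem s2_kr_nonneg {τ : ℝ} {η : ℝ → ℝ} (h : Ker τ η) (m : ℕ) {r : ℝ} (hr : 0 < r)
    (t : ℝ) : 0 ≤ Kr m η r t := by
  unfold Kr
  exact mul_nonneg (inv_nonneg.2 (pow_nonneg hr.le _)) (s2_eta_nonneg h _)

private theorem s2_kr_le {τ : ℝ} {η : ℝ → ℝ} (h : Ker τ η) (m : ℕ) {r : ℝ} (hr : 0 < r)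
    (t : ℝ) : Kr m η r t ≤ (r ^ m)⁻¹ := by
  unfold Kr
  calc (r ^ m)⁻¹ * η (t / r) ≤ (r ^ m)⁻¹ * 1 :=
        mul_le_mul_of_nonneg_left (s2_eta_le h _) (inv_nonneg.2 (pow_nonneg hr.le _))
    _ = (r ^ m)⁻¹ := mul_one _

/-- integrability of bounded continuous functions -/
private theorem s2_int {n : ℕ} {μ : Measure (E n)} [IsFiniteMeasure μ] {g : E n → ℝ}
    (hg : Continuous g) {K : ℝ} (hK : ∀ z, |g z| ≤ K) : Integrable g μ := by
  refine Integrable.of_bound hg.aestronglyMeasurable K ?_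
  exact Filter.Eventually.of_forall (fun z => by rw [Real.norm_eq_abs]; exact hK z)

theorem slab (n m : ℕ) (hm : 1 ≤ m) : ∃ b₀ : ℝ, 20 ≤ b₀ ∧ ∀ b : ℝ, b₀ ≤ b → ∃ l₂ : ℝ, 0 < l₂ ∧
    ∀ {δ : ℝ} {S : Stress n m δ} {α Λ : ℝ} {U : Set (E n)} (V : Sys S α Λ U),
    0 ≤ δ → δ ≤ d0 n → closedBall 0 b ⊆ U → V.LD (1 / 32) → (0 : E n) ∈ V.μ.support →
    ∀ {Q : Op n}, Pr n m Q →
    ∫ z in ball 0 b, ‖V.P z - Q‖ ^ 2 ∂V.μ ≤ l₂ → ∫ z in ball 0 b, ‖V.H z‖ ∂V.μ ≤ l₂ →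
    V.μ.real (ball 0 b) ≤ 3 / 2 * om m * b ^ m →
    ∀ z ∈ V.μ.support, ‖z‖ < 4 → ‖(1 - Q) z‖ ≤ 1 / 8 := by
  have hm0 : (0 : ℝ) < m := by exact_mod_cast hm
  have hm1 : (1 : ℝ) ≤ m := by exact_mod_cast hm
  -- the kernel
  obtain ⟨τ, hτdef⟩ : ∃ τ : ℝ, τ = 1 / (32 * m) := ⟨_, rfl⟩
  have hτ0 : 0 < τ := by rw [hτdef]; positivity
  have hτ2 : τ ≤ 1 / 2 := by
    rw [hτdef, div_le_div_iff₀ (by positivity) (by norm_num)]
    linarith
  have hτm : (m : ℝ) * τ = 1 / 32 := by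
    rw [hτdef]
    field_simp
  have hτp : (31 / 32 : ℝ) ≤ (1 - τ) ^ m := by
    have h1 := one_add_mul_le_pow (a := -τ) (by linarith) m
    have h2 : 1 + (m : ℝ) * -τ = 31 / 32 := by linarith
    rw [h2] at h1
    have h3 : (1 : ℝ) + -τ = 1 - τ := by ring
    rwa [h3] at h1
  obtain ⟨η, hη⟩ := exists_ker τ hτ0 hτ2
  refine ⟨20 + 136 * m, by linarith, ?_⟩
  intro b hb
  have hb20 : 20 ≤ b := by linarith
  have hb0 : 0 < b := by linarith
  obtain ⟨ρ, hρdef⟩ : ∃ ρ : ℝ, ρ = b - 8 := ⟨_, rfl⟩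
  have hρ12 : 12 ≤ ρ := by linarith
  have hρ0 : 0 < ρ := by linarith
  -- `16 / 17 * b ^ m ≤ ρ ^ m`
  have hbρ : 16 / 17 * b ^ m ≤ ρ ^ m := by
    have h1 := one_add_mul_le_pow (a := -(8 / b)) (by
      have : 8 / b ≤ 1 := by rw [div_le_one hb0]; linarith
      linarith) m
    have h2 : (m : ℝ) * (8 / b) ≤ 1 / 17 := by
      rw [mul_div_assoc', div_le_div_iff₀ hb0 (by norm_num)]
      linarith
    have h3 : (16 / 17 : ℝ) ≤ (1 + -(8 / b)) ^ m := by linarith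
    have h4 : ρ = (1 + -(8 / b)) * b := by
      rw [hρdef]
      field_simp
      ring
    rw [h4, mul_pow]
    exact mul_le_mul_of_nonneg_right h3 (pow_nonneg hb0.le _)
  -- the cutoff
  let f : ContDiffBump (0 : E n) := ⟨1 / 32, 1 / 16, by norm_num, by norm_num⟩
  have hfc : ContDiff ℝ 1 (f : E n → ℝ) := f.contDiff
  obtain ⟨c₁, hc₁⟩ : ∃ c₁ : ℝ, ∀ x, ‖fderiv ℝ (f : E n → ℝ) x‖ ≤ c₁ := by
    apply Continuous.bounded_above_of_compact_support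
    · exact hfc.continuous_fderiv (by simp)
    · exact f.hasCompactSupport.fderiv ℝ
  have hc₁0 : 0 ≤ c₁ := (norm_nonneg _).trans (hc₁ 0)
  obtain ⟨C, hC0, hC⟩ := cyl_scale n m hm hη (1 / 32) ρ c₁ (by norm_num) (by linarith) hc₁0
  -- the constants
  have hom := s2_om_pos m
  obtain ⟨A, hA⟩ : ∃ A : ℝ, A = 3 / 2 * om m * b ^ m := ⟨_, rfl⟩
  have hA0 : 0 < A := by rw [hA]; positivity
  obtain ⟨ε, hε⟩ : ∃ ε : ℝ, ε = om m / (16 * C * (A + 1)) := ⟨_, rfl⟩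
  have hε0 : 0 < ε := by rw [hε]; positivity
  have hεA : 2 * C * (ε * A) ≤ om m / 8 := by
    have h1 : 2 * C * (ε * (A + 1)) = om m / 8 := by
      rw [hε]
      field_simp
      ring
    have h2 : 0 ≤ 2 * C * ε := by positivity
    linarith only [h1, h2]
  obtain ⟨l₂, hl₂⟩ : ∃ l₂ : ℝ, l₂ = om m / (16 * C * (1 / (4 * ε) + 1)) := ⟨_, rfl⟩
  have hl0 : 0 < l₂ := by rw [hl₂]; positivity
  have hlC : 2 * C * (1 / (4 * ε) * l₂ + l₂) = om m / 8 := by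
    rw [hl₂]
    field_simp
    ring
  refine ⟨l₂, hl0, ?_⟩
  intro δ S α Λ U V hδ hδ' hU hLD h0s Q hQ hPQ hH hmass z₁ hz₁ hz₁4
  by_contra hcon
  push Not at hcon
  -- bound of the tilt integral
  have hfin : IsFiniteMeasure V.μ := V.fin
  have hmPQ : Measurable (fun z => ‖V.P z - Q‖) :=
    (continuous_id.sub continuous_const).norm.measurable.comp V.mP
  have hbPQ : ∀ z, ‖V.P z - Q‖ ≤ 2 := fun z => (V.hP z).norm_sub_le hQ
  have hiPQ : Integrable (fun z => ‖V.P z - Q‖) (V.μ.restrict (ball 0 b)) := by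
    refine Integrable.of_bound hmPQ.aestronglyMeasurable 2 ?_
    exact Filter.Eventually.of_forall (fun z => by
      rw [Real.norm_eq_abs, abs_of_nonneg (norm_nonneg _)]; exact hbPQ z)
  have hiPQ2 : Integrable (fun z => ‖V.P z - Q‖ ^ 2) (V.μ.restrict (ball 0 b)) := by
    refine Integrable.of_bound (hmPQ.pow_const 2).aestronglyMeasurable 4 ?_
    exact Filter.Eventually.of_forall (fun z => by
      rw [Real.norm_eq_abs, abs_of_nonneg (by positivity)]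
      nlinarith only [hbPQ z, norm_nonneg (V.P z - Q)])
  have htilt : ∫ z in ball 0 b, ‖V.P z - Q‖ ∂V.μ ≤ ε * A + 1 / (4 * ε) * l₂ := by
    calc ∫ z in ball 0 b, ‖V.P z - Q‖ ∂V.μ
        ≤ ∫ z in ball 0 b, (ε + 1 / (4 * ε) * ‖V.P z - Q‖ ^ 2) ∂V.μ := by
          refine integral_mono hiPQ ((integrable_const _).add (hiPQ2.const_mul _)) ?_
          intro z
          have h1 : 0 ≤ (‖V.P z - Q‖ - 2 * ε) ^ 2 * (1 / (4 * ε)) := by positivity
          have h2 : (‖V.P z - Q‖ - 2 * ε) ^ 2 * (1 / (4 * ε)) =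
              ε + 1 / (4 * ε) * ‖V.P z - Q‖ ^ 2 - ‖V.P z - Q‖ := by
            field_simp
            ring
          show ‖V.P z - Q‖ ≤ ε + 1 / (4 * ε) * ‖V.P z - Q‖ ^ 2
          linarith only [h1, h2]
      _ = ε * V.μ.real (ball 0 b) + 1 / (4 * ε) * ∫ z in ball 0 b, ‖V.P z - Q‖ ^ 2 ∂V.μ := by
          rw [integral_add (integrable_const _) (hiPQ2.const_mul _), integral_const,
            integral_const_mul]
          simp [mul_comm]
      _ ≤ ε * A + 1 / (4 * ε) * l₂ := by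
          have h1 : ε * V.μ.real (ball 0 b) ≤ ε * A := by
            rw [hA]
            exact mul_le_mul_of_nonneg_left hmass hε0.le
          have h2 : 1 / (4 * ε) * ∫ z in ball 0 b, ‖V.P z - Q‖ ^ 2 ∂V.μ ≤ 1 / (4 * ε) * l₂ :=
            mul_le_mul_of_nonneg_left hPQ (by positivity)
          linarith only [h1, h2]
  -- the cutoffs and their integrals
  have hf1 : ∀ x, |(f : E n → ℝ) x| ≤ 1 := by
    intro x
    rw [abs_of_nonneg f.nonneg]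
    exact f.le_one
  have hfz : ∀ x, (f : E n → ℝ) x ≠ 0 → ‖x‖ < 1 / 16 := by
    intro x hx
    by_contra h1
    push Not at h1
    exact hx (f.zero_of_le_dist (by rw [dist_zero_right]; exact h1))
  have hfo : ∀ x : E n, ‖x‖ ≤ 1 / 32 → (f : E n → ℝ) x = 1 := by
    intro x hx
    exact f.one_of_mem_closedBall (mem_closedBall_zero_iff.2 hx)
  have key : ∀ p ∈ V.μ.support, ‖p‖ < 4 →
      31 / 32 * (31 / 32) * om m ≤
        ∫ z, s2chi f Q p z * Kr m η ρ ‖Q (z - p)‖ ∂V.μ +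
          C * ((ε * A + 1 / (4 * ε) * l₂) + l₂) := by
    intro p hp hp4
    obtain ⟨hχ1, hχ2⟩ := s2_chi hfc Q p
    have hin : ∀ z, s2chi f Q p z ≠ 0 → ‖Q (z - p)‖ ≤ ρ → z ∈ ball (0 : E n) b := by
      intro z hz hz2
      have h1 : ‖(1 - Q) (z - p)‖ < 1 / 16 := hfz _ hz
      have h2 := hQ.pyth (z - p)
      have h3 : ‖z - p‖ ^ 2 ≤ (ρ + 1) ^ 2 := by
        nlinarith only [hz2, h1, h2, norm_nonneg (Q (z - p)), norm_nonneg ((1 - Q) (z - p))]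
      have h4 : ‖z - p‖ ≤ ρ + 1 := by
        exact (pow_le_pow_iff_left₀ (norm_nonneg _) (by linarith only [hρ0]) two_ne_zero).1 h3
      have h5 : ‖z‖ ≤ ‖z - p‖ + ‖p‖ := by
        have := norm_add_le (z - p) p
        simpa using this
      rw [mem_ball_zero_iff]
      linarith only [hρdef, hp4, h4, h5]
    have h1 := hC V hδ hδ' hQ p b hU (s2chi f Q p) hχ1 (fun z => hf1 _)
      (fun z => by
        refine ContinuousLinearMap.opNorm_le_bound _ hc₁0 ?_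
        intro v
        rw [hχ2 z v]
        calc ‖fderiv ℝ (f : E n → ℝ) ((1 - Q) (z - p)) ((1 - Q) v)‖
            ≤ ‖fderiv ℝ (f : E n → ℝ) ((1 - Q) (z - p))‖ * ‖(1 - Q) v‖ :=
              ContinuousLinearMap.le_opNorm _ _
          _ ≤ c₁ * ‖v‖ := mul_le_mul (hc₁ _) (hQ.perp_norm_apply_le v) (norm_nonneg _) hc₁0)
      (fun z v => by rw [hχ2 z, hQ.perp_apply' v, map_zero]) hin
    -- integrability
    have hint : ∀ r : ℝ, 0 < r →
        Integrable (fun z => s2chi f Q p z * Kr m η r ‖Q (z - p)‖) V.μ := by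
      intro r hr
      refine s2_int (K := (r ^ m)⁻¹) (hχ1.continuous.mul (s2_kr_cont hη m r Q p)) ?_
      intro z
      rw [abs_mul, abs_of_nonneg (s2_kr_nonneg hη m hr _)]
      calc |s2chi f Q p z| * Kr m η r ‖Q (z - p)‖ ≤ 1 * (r ^ m)⁻¹ :=
            mul_le_mul (hf1 _) (s2_kr_le hη m hr _) (s2_kr_nonneg hη m hr _) zero_le_one
        _ = (r ^ m)⁻¹ := one_mul _
    have h2 : ∫ z, s2chi f Q p z * (Kr m η ρ ‖Q (z - p)‖ - Kr m η (1 / 32) ‖Q (z - p)‖) ∂V.μ =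
        ∫ z, s2chi f Q p z * Kr m η ρ ‖Q (z - p)‖ ∂V.μ -
          ∫ z, s2chi f Q p z * Kr m η (1 / 32) ‖Q (z - p)‖ ∂V.μ := by
      rw [← integral_sub (hint ρ hρ0) (hint (1 / 32) (by norm_num))]
      refine integral_congr_ae (Filter.Eventually.of_forall fun z => ?_)
      show s2chi f Q p z * (Kr m η ρ ‖Q (z - p)‖ - Kr m η (1 / 32) ‖Q (z - p)‖) =
        s2chi f Q p z * Kr m η ρ ‖Q (z - p)‖ - s2chi f Q p z * Kr m η (1 / 32) ‖Q (z - p)‖
      ring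
    rw [h2] at h1
    have h3 := neg_le_of_abs_le h1
    have h4 : C * (∫ z in ball 0 b, ‖V.P z - Q‖ ∂V.μ + ∫ z in ball 0 b, ‖V.H z‖ ∂V.μ) ≤
        C * ((ε * A + 1 / (4 * ε) * l₂) + l₂) :=
      mul_le_mul_of_nonneg_left (add_le_add htilt hH) hC0.le
    -- lower bound at scale `1 / 32`
    have h5 : 31 / 32 * (31 / 32) * om m ≤
        ∫ z, s2chi f Q p z * Kr m η (1 / 32) ‖Q (z - p)‖ ∂V.μ := by
      have hr0 : 0 < (1 - τ) * (1 / 32 : ℝ) := by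
        have : 0 < 1 - τ := by linarith only [hτ2]
        positivity
      have hr1 : (1 - τ) * (1 / 32 : ℝ) ≤ 1 / 32 := by linarith only [hτ0]
      have h6 := hLD p hp ((1 - τ) * (1 / 32)) hr0 (by
        refine subset_trans ?_ hU
        intro z hz
        rw [mem_closedBall, dist_eq_norm] at hz
        rw [mem_closedBall_zero_iff]
        have h7 : ‖z‖ ≤ ‖z - p‖ + ‖p‖ := by
          have := norm_add_le (z - p) p
          simpa using this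
        linarith only [hρdef, hρ12, hp4, hr1, hz, h7])
      have h7 : (1 - 1 / 32 : ℝ) * om m * ((1 - τ) * (1 / 32)) ^ m * ((1 / 32 : ℝ) ^ m)⁻¹ ≤
          ∫ z, s2chi f Q p z * Kr m η (1 / 32) ‖Q (z - p)‖ ∂V.μ := by
        calc (1 - 1 / 32 : ℝ) * om m * ((1 - τ) * (1 / 32)) ^ m * ((1 / 32 : ℝ) ^ m)⁻¹
            ≤ V.μ.real (ball p ((1 - τ) * (1 / 32))) * ((1 / 32 : ℝ) ^ m)⁻¹ :=
              mul_le_mul_of_nonneg_right h6 (by positivity)
          _ = ∫ z in ball p ((1 - τ) * (1 / 32)), ((1 / 32 : ℝ) ^ m)⁻¹ ∂V.μ := by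
              rw [integral_const]
              simp
          _ ≤ ∫ z in ball p ((1 - τ) * (1 / 32)),
                s2chi f Q p z * Kr m η (1 / 32) ‖Q (z - p)‖ ∂V.μ := by
              refine setIntegral_mono_on (integrable_const _).integrableOn
                (hint (1 / 32) (by norm_num)).integrableOn measurableSet_ball ?_
              intro z hz
              rw [mem_ball, dist_eq_norm] at hz
              have e1 : s2chi f Q p z = 1 := by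
                apply hfo
                exact (hQ.perp_norm_apply_le _).trans (hz.le.trans hr1)
              have e2 : Kr m η (1 / 32) ‖Q (z - p)‖ = ((1 / 32 : ℝ) ^ m)⁻¹ := by
                unfold Kr
                rw [hη.one _ ?_, mul_one]
                rw [div_le_iff₀ (by norm_num)]
                exact (hQ.norm_apply_le _).trans hz.le
              rw [e1, e2, one_mul]
          _ ≤ ∫ z, s2chi f Q p z * Kr m η (1 / 32) ‖Q (z - p)‖ ∂V.μ := by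
              refine setIntegral_le_integral (hint (1 / 32) (by norm_num)) ?_
              exact Filter.Eventually.of_forall fun z =>
                mul_nonneg f.nonneg (s2_kr_nonneg hη m (by norm_num) _)
      have h8 : (1 - 1 / 32 : ℝ) * om m * ((1 - τ) * (1 / 32)) ^ m * ((1 / 32 : ℝ) ^ m)⁻¹ =
          31 / 32 * (1 - τ) ^ m * om m := by
        rw [mul_pow]
        field_simp
        ring
      rw [h8] at h7
      have h9 : 31 / 32 * (31 / 32) * om m ≤ 31 / 32 * (1 - τ) ^ m * om m := by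
        have := mul_le_mul_of_nonneg_right hτp hom.le
        linarith only [this]
      exact h9.trans h7
    linarith only [h3, h4, h5]
  have k0 := key 0 h0s (by simp)
  have k1 := key z₁ hz₁ hz₁4
  -- the sum of the integrals at scale `ρ`
  have hsum : ∫ z, s2chi f Q 0 z * Kr m η ρ ‖Q (z - 0)‖ ∂V.μ +
      ∫ z, s2chi f Q z₁ z * Kr m η ρ ‖Q (z - z₁)‖ ∂V.μ ≤ 51 / 32 * om m := by
    have hint : ∀ p : E n,
        Integrable (fun z => s2chi f Q p z * Kr m η ρ ‖Q (z - p)‖) V.μ := by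
      intro p
      refine s2_int (K := (ρ ^ m)⁻¹) ((s2_chi hfc Q p).1.continuous.mul (s2_kr_cont hη m ρ Q p)) ?_
      intro z
      rw [abs_mul, abs_of_nonneg (s2_kr_nonneg hη m hρ0 _)]
      calc |s2chi f Q p z| * Kr m η ρ ‖Q (z - p)‖ ≤ 1 * (ρ ^ m)⁻¹ :=
            mul_le_mul (hf1 _) (s2_kr_le hη m hρ0 _) (s2_kr_nonneg hη m hρ0 _) zero_le_one
        _ = (ρ ^ m)⁻¹ := one_mul _
    have hpt : ∀ p : E n, ‖p‖ < 4 → ∀ z, s2chi f Q p z * Kr m η ρ ‖Q (z - p)‖ ≤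
        (ball (0 : E n) b).indicator (fun _ => (ρ ^ m)⁻¹) z := by
      intro p hp z
      by_cases h1 : s2chi f Q p z * Kr m η ρ ‖Q (z - p)‖ = 0
      · rw [h1]
        exact Set.indicator_nonneg (fun _ _ => by positivity) _
      · have h2 : s2chi f Q p z ≠ 0 := left_ne_zero_of_mul h1
        have h3 : Kr m η ρ ‖Q (z - p)‖ ≠ 0 := right_ne_zero_of_mul h1
        have h4 : ‖Q (z - p)‖ ≤ ρ := by
          by_contra h5
          push Not at h5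
          apply h3
          unfold Kr
          rw [hη.zero _ ?_, mul_zero]
          rw [le_div_iff₀ hρ0, one_mul]
          exact h5.le
        have h5 : z ∈ ball (0 : E n) b := by
          have h1 : ‖(1 - Q) (z - p)‖ < 1 / 16 := hfz _ h2
          have h2 := hQ.pyth (z - p)
          have h3 : ‖z - p‖ ^ 2 ≤ (ρ + 1) ^ 2 := by
            nlinarith only [h4, h1, h2, norm_nonneg (Q (z - p)), norm_nonneg ((1 - Q) (z - p))]
          have h4 : ‖z - p‖ ≤ ρ + 1 := by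
            exact (pow_le_pow_iff_left₀ (norm_nonneg _) (by linarith only [hρ0]) two_ne_zero).1 h3
          have h5 : ‖z‖ ≤ ‖z - p‖ + ‖p‖ := by
            have := norm_add_le (z - p) p
            simpa using this
          rw [mem_ball_zero_iff]
          linarith only [hρdef, hp, h4, h5]
        rw [Set.indicator_of_mem h5]
        calc s2chi f Q p z * Kr m η ρ ‖Q (z - p)‖ ≤ 1 * (ρ ^ m)⁻¹ :=
              mul_le_mul f.le_one (s2_kr_le hη m hρ0 _) (s2_kr_nonneg hη m hρ0 _) zero_le_one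
          _ = (ρ ^ m)⁻¹ := one_mul _
    rw [← integral_add (hint 0) (hint z₁)]
    calc ∫ z, (s2chi f Q 0 z * Kr m η ρ ‖Q (z - 0)‖ +
          s2chi f Q z₁ z * Kr m η ρ ‖Q (z - z₁)‖) ∂V.μ
        ≤ ∫ z, (ball (0 : E n) b).indicator (fun _ => (ρ ^ m)⁻¹) z ∂V.μ := by
          refine integral_mono ((hint 0).add (hint z₁))
            ((integrable_const _).indicator measurableSet_ball) ?_
          intro z
          show s2chi f Q 0 z * Kr m η ρ ‖Q (z - 0)‖ +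
            s2chi f Q z₁ z * Kr m η ρ ‖Q (z - z₁)‖ ≤
              (ball (0 : E n) b).indicator (fun _ => (ρ ^ m)⁻¹) z
          by_cases h1 : s2chi f Q 0 z = 0
          · rw [h1, zero_mul, zero_add]
            exact hpt z₁ hz₁4 z
          · have h2 : s2chi f Q z₁ z = 0 := by
              by_contra h3
              have h4 : ‖(1 - Q) (z - 0)‖ < 1 / 16 := hfz _ h1
              have h5 : ‖(1 - Q) (z - z₁)‖ < 1 / 16 := hfz _ h3
              have h6 : (1 - Q) z₁ = (1 - Q) (z - 0) - (1 - Q) (z - z₁) := by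
                rw [← map_sub]
                congr 1
                abel
              rw [h6] at hcon
              have h7 := norm_sub_le ((1 - Q) (z - 0)) ((1 - Q) (z - z₁))
              linarith only [hcon, h4, h5, h7]
            rw [h2, zero_mul, add_zero]
            exact hpt 0 (by simp) z
      _ = V.μ.real (ball 0 b) * (ρ ^ m)⁻¹ := by
          rw [integral_indicator measurableSet_ball, integral_const]
          simp
      _ ≤ 51 / 32 * om m := by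
          rw [← div_eq_mul_inv, div_le_iff₀ (by positivity)]
          calc V.μ.real (ball 0 b) ≤ 3 / 2 * om m * b ^ m := hmass
            _ = 51 / 32 * om m * (16 / 17 * b ^ m) := by ring
            _ ≤ 51 / 32 * om m * ρ ^ m := mul_le_mul_of_nonneg_left hbρ (by positivity)
  linarith only [hom, hεA, hlC, k0, k1, hsum]

end Allard
end
end

section

/-!
# W5a: local averages at a good scale, unit scale

`Sys.av V η Q y r`: normalised local average of the height relative to `y` at scale `r`.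

`local_avg_unit`: `slab` gives `‖(1-Q) z‖ ≤ 1/8` on the support in `ball 0 4`.  `χ` from `exists_cutoff`
(`1/4`, `1/2`).  For `r ∈ {1/2, 1}` and `μ`-a.e. `z`: `χ Kr r ‖Qz‖ = 1_{ball 0 (2r)} Kr r ‖Qz‖`
(if `z` is in the support and `Kr ≠ 0`, `χ ≠ 0`: `‖Qz‖ < r`, `‖(1-Q)z‖ ≤ 1/2`, so `z ∈ ball 0 4`,
`‖(1-Q)z‖ ≤ 1/8`, `z ∈ ball 0 (2r)`, `χ = 1`; conversely the same).
`M r = ∫ χ Kr r`, `N r = ∫ χ Kr r • (1-Q) z`.  `cyl_scale`, `cyl_scale_height` (`s = 1/2`, `r = 1`, `p = 0`,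
ball of radius `4`): `|M 1 - M (1/2)|, ‖N 1 - N (1/2)‖ ≤ C (∫_{ball 0 4}‖P-Q‖ + ∫_{ball 0 4} ‖H‖)`,
`∫ ‖P-Q‖ ≤ √(μ(ball 0 b) ∫‖P-Q‖²)`.  `M r ≥ r^{-m} μ(ball 0 (r/2)) ≥ (31/32) om 2^{-m}` (LD),
`M r ≤ 2^m μ(ball 0 b)`, `‖N r‖ ≤ M r/8`.
`local_avg`: rescale (`rs_lq`, `rs_hh`, `rs_real_ball`; `av` scales like length).
-/

noncomputable section

open MeasureTheory Metric Set Filter Topology

namespace Allard

variable {n m : ℕ} {δ : ℝ} {S : Stress n m δ} {α Λ : ℝ} {U : Set (E n)}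

/-- Local average of the height relative to `y` at scale `r`. -/
def Sys.av (V : Sys S α Λ U) (η : ℝ → ℝ) (Q : Op n) (y : E n) (r : ℝ) : E n :=
  (∫ z in ball y (2 * r), Kr m η r ‖Q (z - y)‖ ∂V.μ)⁻¹ •
    ∫ z in ball y (2 * r), Kr m η r ‖Q (z - y)‖ • (1 - Q) (z - y) ∂V.μ

private theorem w5_eta_nonneg {τ : ℝ} {η : ℝ → ℝ} (h : Ker τ η) (t : ℝ) : 0 ≤ η t := by
  by_cases h1 : 1 ≤ t
  · rw [h.zero t h1]
  · have h2 := h.anti (le_of_lt (not_le.1 h1))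
    rw [h.zero 1 le_rfl] at h2
    exact h2

private theorem w5_eta_le {τ : ℝ} {η : ℝ → ℝ} (h : Ker τ η) (t : ℝ) : η t ≤ 1 := by
  by_cases h1 : t ≤ 1 - τ
  · rw [h.one t h1]
  · have h2 := h.anti (le_of_lt (not_le.1 h1))
    rw [h.one (1 - τ) le_rfl] at h2
    exact h2

private theorem w5_om_pos (m : ℕ) : 0 < om m := by
  unfold om
  exact ENNReal.toReal_pos (measure_ball_pos volume _ one_pos).ne' measure_ball_lt_top.ne

private theorem w5_kr_cont {τ : ℝ} {η : ℝ → ℝ} (h : Ker τ η) (m : ℕ) (r : ℝ) (Q : Op n) :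
    Continuous (fun z : E n => Kr m η r ‖Q z‖) := by
  unfold Kr
  exact continuous_const.mul (h.smooth.continuous.comp (Q.continuous.norm.div_const _))

private theorem w5_kr_nonneg {τ : ℝ} {η : ℝ → ℝ} (h : Ker τ η) (m : ℕ) {r : ℝ} (hr : 0 < r)
    (t : ℝ) : 0 ≤ Kr m η r t := by
  unfold Kr
  exact mul_nonneg (inv_nonneg.2 (pow_nonneg hr.le _)) (w5_eta_nonneg h _)

private theorem w5_kr_le {τ : ℝ} {η : ℝ → ℝ} (h : Ker τ η) (m : ℕ) {r : ℝ} (hr : 0 < r)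
    (t : ℝ) : Kr m η r t ≤ (r ^ m)⁻¹ := by
  unfold Kr
  calc (r ^ m)⁻¹ * η (t / r) ≤ (r ^ m)⁻¹ * 1 :=
        mul_le_mul_of_nonneg_left (w5_eta_le h _) (inv_nonneg.2 (pow_nonneg hr.le _))
    _ = (r ^ m)⁻¹ := mul_one _

private theorem w5_kr_zero {τ : ℝ} {η : ℝ → ℝ} (h : Ker τ η) (m : ℕ) {r : ℝ} (hr : 0 < r)
    {t : ℝ} (ht : r ≤ t) : Kr m η r t = 0 := by
  unfold Kr
  rw [h.zero, mul_zero]
  rw [le_div_iff₀ hr, one_mul]
  exact ht

private theorem w5_kr_one {τ : ℝ} {η : ℝ → ℝ} (h : Ker τ η) (m : ℕ) {r : ℝ} (hr : 0 < r)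
    {t : ℝ} (ht : t ≤ r / 2) : Kr m η r t = (r ^ m)⁻¹ := by
  unfold Kr
  have h1 := h.tle
  rw [h.one, mul_one]
  rw [div_le_iff₀ hr]
  nlinarith

/-- Cauchy-Schwarz -/
private theorem w5_cs {μ : Measure (E n)} [IsFiniteMeasure μ] (B : Set (E n)) {f : E n → ℝ}
    (hf : Measurable f) (h0 : ∀ z, 0 ≤ f z) (h2 : ∀ z, f z ≤ 2) {A : ℝ} (hA : μ.real B ≤ A) :
    ∫ z in B, f z ∂μ ≤ Real.sqrt A * Real.sqrt (∫ z in B, f z ^ 2 ∂μ) := by
  have hA0 : 0 ≤ A := measureReal_nonneg.trans hA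
  have i1 : Integrable f (μ.restrict B) := by
    refine Integrable.of_bound hf.aestronglyMeasurable 2 (Eventually.of_forall fun z => ?_)
    rw [Real.norm_of_nonneg (h0 z)]
    exact h2 z
  have i2 : Integrable (fun z => f z ^ 2) (μ.restrict B) := by
    refine Integrable.of_bound (hf.pow_const 2).aestronglyMeasurable 4
      (Eventually.of_forall fun z => ?_)
    rw [Real.norm_of_nonneg (sq_nonneg _)]
    nlinarith [h0 z, h2 z]
  have hd : discrim (μ.real B) (-2 * ∫ z in B, f z ∂μ) (∫ z in B, f z ^ 2 ∂μ) ≤ 0 := by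
    refine discrim_le_zero fun t => ?_
    have e1 : μ.real B * (t * t) + (-2 * ∫ z in B, f z ∂μ) * t + ∫ z in B, f z ^ 2 ∂μ =
        ∫ z in B, (f z - t) ^ 2 ∂μ := by
      have e2 : ∀ z, (f z - t) ^ 2 = t * t + (-2 * t) * f z + f z ^ 2 := fun z => by ring
      simp only [e2]
      have i3 : Integrable (fun z => t * t + (-2 * t) * f z) (μ.restrict B) :=
        (integrable_const _).add (i1.const_mul _)
      rw [integral_add i3 i2, integral_add (integrable_const _) (i1.const_mul _),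
        setIntegral_const, integral_const_mul, smul_eq_mul]
      ring
    rw [e1]
    exact integral_nonneg fun z => sq_nonneg _
  rw [discrim] at hd
  have h3 : 0 ≤ ∫ z in B, f z ^ 2 ∂μ := integral_nonneg fun z => sq_nonneg _
  have h4 : (∫ z in B, f z ∂μ) ^ 2 ≤ A * ∫ z in B, f z ^ 2 ∂μ := by
    have h5 := mul_le_mul_of_nonneg_right hA h3
    nlinarith
  rw [← Real.sqrt_mul hA0]
  exact (le_abs_self _).trans (Real.abs_le_sqrt h4)

/-- The cut off kernel and the kernel in the ball agree on the support. -/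
private theorem w5_eq {τ : ℝ} {η : ℝ → ℝ} (h : Ker τ η) {Q : Op n} (hQ : Pr n m Q)
    {χ : E n → ℝ} (c1 : ∀ z, ‖(1 - Q) z‖ ≤ 1 / 4 → χ z = 1)
    (c2 : ∀ z, 1 / 2 ≤ ‖(1 - Q) z‖ → χ z = 0) {μ : Measure (E n)}
    (hs : ∀ z ∈ μ.support, ‖z‖ < 4 → ‖(1 - Q) z‖ ≤ 1 / 8) {r : ℝ} (hr0 : 1 / 2 ≤ r)
    (hr1 : r ≤ 1) {z : E n} (hz : z ∈ μ.support) :
    χ z * Kr m η r ‖Q z‖ = (ball (0 : E n) (2 * r)).indicator (fun z => Kr m η r ‖Q z‖) z := by
  have hr : 0 < r := by linarith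
  by_cases h1 : z ∈ ball (0 : E n) (2 * r)
  · rw [indicator_of_mem h1]
    have h2 : ‖z‖ < 2 * r := mem_ball_zero_iff.1 h1
    have h3 := hs z hz (by linarith)
    rw [c1 z (by linarith), one_mul]
  · rw [indicator_of_notMem h1]
    rcases le_or_gt r ‖Q z‖ with h2 | h2
    · rw [w5_kr_zero h m hr h2, mul_zero]
    · rcases le_or_gt (1 / 2) ‖(1 - Q) z‖ with h3 | h3
      · rw [c2 z h3, zero_mul]
      · exfalso
        have h4 := hQ.pyth z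
        have h5 : 2 * r ≤ ‖z‖ := by
          by_contra h6
          exact h1 (mem_ball_zero_iff.2 (not_le.1 h6))
        have n1 := norm_nonneg (Q z)
        have n2 := norm_nonneg ((1 - Q) z)
        have n3 := norm_nonneg z
        have h6 : ‖z‖ < 4 := by
          nlinarith
        have h7 := hs z hz h6
        nlinarith

private theorem w5_int1 {τ : ℝ} {η : ℝ → ℝ} (h : Ker τ η) (m : ℕ) (Q : Op n)
    {μ : Measure (E n)} [IsFiniteMeasure μ] {r : ℝ} (hr : 0 < r) (B : Set (E n)) :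
    IntegrableOn (fun z : E n => Kr m η r ‖Q z‖) B μ := by
  refine Integrable.of_bound (w5_kr_cont h m r Q).aestronglyMeasurable ((r ^ m)⁻¹)
    (Eventually.of_forall fun z => ?_)
  rw [Real.norm_of_nonneg (w5_kr_nonneg h m hr _)]
  exact w5_kr_le h m hr _

private theorem w5_int2 {τ : ℝ} {η : ℝ → ℝ} (h : Ker τ η) {Q : Op n} (hQ : Pr n m Q)
    {μ : Measure (E n)} [IsFiniteMeasure μ] {r : ℝ} (hr : 0 < r) :
    IntegrableOn (fun z : E n => Kr m η r ‖Q z‖ • (1 - Q) z) (ball 0 (2 * r)) μ := by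
  have hc : Continuous fun z : E n => Kr m η r ‖Q z‖ • (1 - Q) z :=
    (w5_kr_cont h m r Q).smul (1 - Q).continuous
  refine Integrable.of_bound hc.aestronglyMeasurable ((r ^ m)⁻¹ * (2 * r)) ?_
  filter_upwards [ae_restrict_mem measurableSet_ball] with z hz
  rw [norm_smul, Real.norm_of_nonneg (w5_kr_nonneg h m hr _)]
  refine mul_le_mul (w5_kr_le h m hr _) ?_ (norm_nonneg _) (by positivity)
  exact (hQ.perp_norm_apply_le z).trans (mem_ball_zero_iff.1 hz).le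

/-- Bound of the average by the mass. -/
private theorem w5_N {τ : ℝ} {η : ℝ → ℝ} (h : Ker τ η) {Q : Op n}
    {μ : Measure (E n)} [IsFiniteMeasure μ]
    (hs : ∀ z ∈ μ.support, ‖z‖ < 4 → ‖(1 - Q) z‖ ≤ 1 / 8) {r : ℝ} (hr0 : 1 / 2 ≤ r)
    (hr1 : r ≤ 1) :
    ‖∫ z in ball 0 (2 * r), Kr m η r ‖Q z‖ • (1 - Q) z ∂μ‖ ≤
      1 / 8 * ∫ z in ball 0 (2 * r), Kr m η r ‖Q z‖ ∂μ := by
  have hr : 0 < r := by linarith
  rw [← integral_const_mul]
  refine norm_integral_le_of_norm_le ((w5_int1 h m Q hr _).const_mul _) ?_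
  have h1 : ∀ᵐ z ∂μ, z ∈ μ.support := Measure.support_mem_ae
  filter_upwards [ae_restrict_mem measurableSet_ball, ae_restrict_of_ae h1] with z hz hz'
  rw [norm_smul, Real.norm_of_nonneg (w5_kr_nonneg h m hr _), mul_comm]
  have h2 : ‖z‖ < 2 * r := mem_ball_zero_iff.1 hz
  exact mul_le_mul_of_nonneg_right (hs z hz' (by linarith)) (w5_kr_nonneg h m hr _)

/-- Lower bound of the mass. -/
private theorem w5_M {τ : ℝ} {η : ℝ → ℝ} (h : Ker τ η) {Q : Op n} (hQ : Pr n m Q)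
    (V : Sys S α Λ U) {b : ℝ} (hb : 1 ≤ b) (hU : closedBall 0 b ⊆ U) (hLD : V.LD (1 / 32))
    (h0 : (0 : E n) ∈ V.μ.support) {r : ℝ} (hr : 0 < r) (hr1 : r ≤ 1) :
    31 / 32 * om m * (1 / 2) ^ m ≤ ∫ z in ball 0 (2 * r), Kr m η r ‖Q z‖ ∂V.μ := by
  have h1 := hLD 0 h0 (r / 2) (by positivity)
    ((closedBall_subset_closedBall (by linarith)).trans hU)
  have hrm : 0 < r ^ m := by positivity
  have h2 : (r ^ m)⁻¹ * V.μ.real (ball 0 (r / 2)) ≤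
      ∫ z in ball 0 (r / 2), Kr m η r ‖Q z‖ ∂V.μ := by
    have h3 : ∫ z in ball (0 : E n) (r / 2), Kr m η r ‖Q z‖ ∂V.μ =
        ∫ _ in ball (0 : E n) (r / 2), (r ^ m)⁻¹ ∂V.μ := by
      refine setIntegral_congr_fun measurableSet_ball fun z hz => ?_
      exact w5_kr_one h m hr ((hQ.norm_apply_le z).trans (mem_ball_zero_iff.1 hz).le)
    rw [h3, setIntegral_const, smul_eq_mul, mul_comm]
  have h4 : ∫ z in ball 0 (r / 2), Kr m η r ‖Q z‖ ∂V.μ ≤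
      ∫ z in ball 0 (2 * r), Kr m η r ‖Q z‖ ∂V.μ := by
    refine setIntegral_mono_set (w5_int1 h m Q hr _)
      (Eventually.of_forall fun z => w5_kr_nonneg h m hr _)
      (Eventually.of_forall (ball_subset_ball (by linarith)))
  refine le_trans ?_ (h2.trans h4)
  rw [← div_eq_inv_mul, le_div_iff₀ hrm]
  refine le_trans (le_of_eq ?_) h1
  have e1 : r / 2 = 1 / 2 * r := by ring
  rw [e1, mul_pow]
  ring

private theorem w5_final {F : Type*} [NormedAddCommGroup F] [NormedSpace ℝ F] {a₁ a₂ m₀ C₁ C₂ Θ : ℝ}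
    {N₁ N₂ : F} (hm₀ : 0 < m₀) (h1 : m₀ ≤ a₁) (h2 : m₀ ≤ a₂) (hN₂ : ‖N₂‖ ≤ 1 / 8 * a₂)
    (hM : |a₁ - a₂| ≤ C₁ * Θ) (hN : ‖N₁ - N₂‖ ≤ C₂ * Θ) :
    ‖a₁⁻¹ • N₁ - a₂⁻¹ • N₂‖ ≤ (C₁ + C₂) / m₀ * Θ := by
  have ha₁ : 0 < a₁ := hm₀.trans_le h1
  have ha₂ : 0 < a₂ := hm₀.trans_le h2
  have e1 : a₁⁻¹ • N₁ - a₂⁻¹ • N₂ = a₁⁻¹ • (N₁ - N₂) + (a₁⁻¹ * (a₂ - a₁) * a₂⁻¹) • N₂ := by
    have e2 : a₁⁻¹ * (a₂ - a₁) * a₂⁻¹ = a₁⁻¹ - a₂⁻¹ := by
      field_simp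
    rw [e2, smul_sub, sub_smul]
    abel
  have h3 : ‖a₁⁻¹ • (N₁ - N₂)‖ ≤ m₀⁻¹ * (C₂ * Θ) := by
    rw [norm_smul, Real.norm_of_nonneg (inv_nonneg.2 ha₁.le)]
    exact mul_le_mul (inv_anti₀ hm₀ h1) hN (norm_nonneg _) (inv_nonneg.2 hm₀.le)
  have h4 : ‖(a₁⁻¹ * (a₂ - a₁) * a₂⁻¹) • N₂‖ ≤ m₀⁻¹ * (C₁ * Θ) := by
    rw [norm_smul, Real.norm_eq_abs, abs_mul, abs_mul, abs_of_pos (inv_pos.2 ha₁),
      abs_of_pos (inv_pos.2 ha₂), abs_sub_comm a₂ a₁]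
    have h5 : a₂⁻¹ * ‖N₂‖ ≤ 1 := by
      rw [inv_mul_le_iff₀ ha₂]
      linarith
    have h6 : 0 ≤ |a₁ - a₂| := abs_nonneg _
    calc a₁⁻¹ * |a₁ - a₂| * a₂⁻¹ * ‖N₂‖ = (a₁⁻¹ * |a₁ - a₂|) * (a₂⁻¹ * ‖N₂‖) := by ring
      _ ≤ (a₁⁻¹ * |a₁ - a₂|) * 1 :=
        mul_le_mul_of_nonneg_left h5 (mul_nonneg (inv_nonneg.2 ha₁.le) h6)
      _ = a₁⁻¹ * |a₁ - a₂| := mul_one _
      _ ≤ m₀⁻¹ * (C₁ * Θ) := mul_le_mul (inv_anti₀ hm₀ h1) hM h6 (inv_nonneg.2 hm₀.le)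
  rw [e1]
  refine (norm_add_le _ _).trans ((add_le_add h3 h4).trans (le_of_eq ?_))
  field_simp
  ring

private theorem w5_av {F : Type*} [NormedAddCommGroup F] [NormedSpace ℝ F] {a m₀ : ℝ} {N : F}
    (hm₀ : 0 < m₀) (h1 : m₀ ≤ a) (hN : ‖N‖ ≤ 1 / 8 * a) : ‖a⁻¹ • N‖ ≤ 1 / 8 := by
  have ha : 0 < a := hm₀.trans_le h1
  rw [norm_smul, Real.norm_of_nonneg (inv_nonneg.2 ha.le), inv_mul_le_iff₀ ha]
  linarith

theorem local_avg_unit (n m : ℕ) (hm : 1 ≤ m) {τ : ℝ} {η : ℝ → ℝ} (h : Ker τ η) :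
    ∃ b₀ : ℝ, 20 ≤ b₀ ∧ ∀ b : ℝ, b₀ ≤ b → ∃ l₂ C : ℝ, 0 < l₂ ∧ 0 < C ∧
    ∀ {δ : ℝ} {S : Stress n m δ} {α Λ : ℝ} {U : Set (E n)} (V : Sys S α Λ U),
    0 ≤ δ → δ ≤ d0 n → closedBall 0 b ⊆ U → V.LD (1 / 32) → (0 : E n) ∈ V.μ.support →
    ∀ {Q : Op n}, Pr n m Q →
    ∫ z in ball 0 b, ‖V.P z - Q‖ ^ 2 ∂V.μ ≤ l₂ → ∫ z in ball 0 b, ‖V.H z‖ ∂V.μ ≤ l₂ →
    V.μ.real (ball 0 b) ≤ 3 / 2 * om m * b ^ m →
    ‖V.av η Q 0 1‖ ≤ 1 / 8 ∧ ‖V.av η Q 0 (1 / 2)‖ ≤ 1 / 8 ∧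
    ‖V.av η Q 0 1 - V.av η Q 0 (1 / 2)‖ ≤
      C * (Real.sqrt (∫ z in ball 0 b, ‖V.P z - Q‖ ^ 2 ∂V.μ) +
        ∫ z in ball 0 b, ‖V.H z‖ ∂V.μ) := by
  obtain ⟨b₀, hb₀, hslab⟩ := slab n m hm
  obtain ⟨c₁, hc₁, hcut⟩ := exists_cutoff n (1 / 4) (1 / 2) (by norm_num) (by norm_num)
  obtain ⟨C₁, hC₁, hcyl⟩ := cyl_scale n m hm h (1 / 2) 1 c₁ (by norm_num) (by norm_num) hc₁.le
  obtain ⟨C₂, hC₂, hcylh⟩ :=
    cyl_scale_height n m hm h (1 / 2) 1 c₁ (by norm_num) (by norm_num) hc₁.le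
  refine ⟨b₀, hb₀, ?_⟩
  intro b hb
  have hb20 : 20 ≤ b := hb₀.trans hb
  obtain ⟨l₂, hl₂, hslab2⟩ := hslab b hb
  have hom := w5_om_pos m
  obtain ⟨m₀, hm₀d⟩ : ∃ m₀ : ℝ, m₀ = 31 / 32 * om m * (1 / 2) ^ m := ⟨_, rfl⟩
  have hm₀ : 0 < m₀ := by rw [hm₀d]; positivity
  obtain ⟨A, hAd⟩ : ∃ A : ℝ, A = 3 / 2 * om m * b ^ m := ⟨_, rfl⟩
  refine ⟨l₂, (C₁ + C₂) / m₀ * (Real.sqrt A + 1), hl₂, ?_, ?_⟩
  · have := Real.sqrt_nonneg A
    positivity
  intro δ S α Λ U V hδ hδ' hU hLD h0 Q hQ hPQ hH hmass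
  have hsl := hslab2 V hδ hδ' hU hLD h0 hQ hPQ hH hmass
  obtain ⟨χ, χ1, χ2, χ3, χ4, χ5, χ6, χ7, -⟩ := hcut hQ
  have hae : ∀ᵐ z ∂V.μ, z ∈ V.μ.support := Measure.support_mem_ae
  have habs : ∀ z, |χ z| ≤ 1 := fun z => by
    rw [abs_of_nonneg (χ2 z)]
    exact χ3 z
  have hin : ∀ z, χ z ≠ 0 → ‖Q (z - 0)‖ ≤ 1 → z ∈ ball (0 : E n) b := by
    intro z hz hz2
    rw [sub_zero] at hz2
    have h3 : ‖(1 - Q) z‖ < 1 / 2 := by
      by_contra h4
      exact hz (χ7 z (not_lt.1 h4))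
    have h4 := hQ.pyth z
    have n1 := norm_nonneg (Q z)
    have n2 := norm_nonneg ((1 - Q) z)
    have n3 := norm_nonneg z
    rw [mem_ball_zero_iff]
    nlinarith
  have hin2 : ∀ z, χ z ≠ 0 → ‖(1 - Q) z‖ ≤ 1 := by
    intro z hz
    by_contra h4
    exact hz (χ7 z (by linarith [not_le.1 h4]))
  have hcy := hcyl V hδ hδ' hQ 0 b hU χ χ1 habs χ4 χ5 hin
  have hcyh := hcylh V hδ hδ' hQ 0 b hU χ χ1 habs χ4 χ5 hin hin2
  simp only [sub_zero] at hcy hcyh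
  -- names
  obtain ⟨Θ, hΘ⟩ : ∃ Θ : ℝ, Θ = ∫ z in ball 0 b, ‖V.P z - Q‖ ∂V.μ +
    ∫ z in ball 0 b, ‖V.H z‖ ∂V.μ := ⟨_, rfl⟩
  rw [← hΘ] at hcy hcyh
  have k1 := w5_M h hQ V (by linarith) hU hLD h0 (r := 1) one_pos le_rfl
  have k2 := w5_M h hQ V (by linarith) hU hLD h0 (r := 1 / 2) (by norm_num) (by norm_num)
  rw [← hm₀d] at k1 k2
  have n1 := w5_N (m := m) h hsl (r := 1) (by norm_num) le_rfl
  have n2 := w5_N (m := m) h hsl (r := 1 / 2) le_rfl (by norm_num)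
  have iM1 := w5_int1 h m Q (μ := V.μ) (r := 1) one_pos (ball 0 (2 * 1))
  have iM2 := w5_int1 h m Q (μ := V.μ) (r := 1 / 2) (by norm_num) (ball 0 (2 * (1 / 2)))
  have iN1 := w5_int2 h hQ (μ := V.μ) (r := 1) one_pos
  have iN2 := w5_int2 h hQ (μ := V.μ) (r := 1 / 2) (by norm_num)
  have hM : |(∫ z in ball 0 (2 * 1), Kr m η 1 ‖Q z‖ ∂V.μ) -
      ∫ z in ball 0 (2 * (1 / 2)), Kr m η (1 / 2) ‖Q z‖ ∂V.μ| ≤ C₁ * Θ := by
    refine le_trans (le_of_eq ?_) hcy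
    congr 1
    rw [← integral_indicator measurableSet_ball, ← integral_indicator measurableSet_ball,
      ← integral_sub ((integrable_indicator_iff measurableSet_ball).2 iM1)
        ((integrable_indicator_iff measurableSet_ball).2 iM2)]
    refine integral_congr_ae ?_
    filter_upwards [hae] with z hz
    rw [← w5_eq h hQ χ6 χ7 hsl (by norm_num) le_rfl hz,
      ← w5_eq h hQ χ6 χ7 hsl le_rfl (by norm_num) hz]
    ring
  have hN : ‖(∫ z in ball 0 (2 * 1), Kr m η 1 ‖Q z‖ • (1 - Q) z ∂V.μ) -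
      ∫ z in ball 0 (2 * (1 / 2)), Kr m η (1 / 2) ‖Q z‖ • (1 - Q) z ∂V.μ‖ ≤ C₂ * Θ := by
    obtain ⟨w, hw⟩ : ∃ w : E n, w = (∫ z in ball 0 (2 * 1), Kr m η 1 ‖Q z‖ • (1 - Q) z ∂V.μ) -
      ∫ z in ball 0 (2 * (1 / 2)), Kr m η (1 / 2) ‖Q z‖ • (1 - Q) z ∂V.μ := ⟨_, rfl⟩
    have hkey : ∀ ν : E n, ‖ν‖ ≤ 1 → |inner ℝ ν w| ≤ C₂ * Θ := by
      intro ν hν
      refine le_trans (le_of_eq ?_) (hcyh ν hν)
      congr 1
      rw [hw, inner_sub_right, ← integral_indicator measurableSet_ball,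
        ← integral_indicator measurableSet_ball,
        ← integral_inner ((integrable_indicator_iff measurableSet_ball).2 iN1),
        ← integral_inner ((integrable_indicator_iff measurableSet_ball).2 iN2),
        ← integral_sub (((integrable_indicator_iff measurableSet_ball).2 iN1).const_inner ν)
          (((integrable_indicator_iff measurableSet_ball).2 iN2).const_inner ν)]
      refine integral_congr_ae ?_
      filter_upwards [hae] with z hz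
      have e1 := w5_eq h hQ χ6 χ7 hsl (r := 1) (by norm_num) le_rfl hz
      have e2 := w5_eq h hQ χ6 χ7 hsl (r := 1 / 2) le_rfl (by norm_num) hz
      have e3 : ∀ (B : Set (E n)) (f : E n → ℝ),
          inner ℝ ν (B.indicator (fun z => f z • (1 - Q) z) z) =
            B.indicator f z * inner ℝ ν ((1 - Q) z) := by
        intro B f
        by_cases hB : z ∈ B
        · rw [indicator_of_mem hB, indicator_of_mem hB, real_inner_smul_right]
        · rw [indicator_of_notMem hB, indicator_of_notMem hB, inner_zero_right, zero_mul]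
      rw [e3, e3, ← e1, ← e2]
      ring
    rw [← hw]
    rcases eq_or_ne w 0 with h5 | h5
    · have h6 := hkey 0 (by simp)
      rw [h5]
      simpa using h6
    · have h6 : 0 < ‖w‖ := norm_pos_iff.2 h5
      have h7 := hkey (‖w‖⁻¹ • w) (by
        rw [norm_smul, norm_inv, norm_norm, inv_mul_cancel₀ h6.ne'])
      rw [real_inner_smul_left, real_inner_self_eq_norm_sq, sq, ← mul_assoc,
        inv_mul_cancel₀ h6.ne', one_mul, abs_of_pos h6] at h7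
      exact h7
  have hΘ2 : Θ ≤ (Real.sqrt A + 1) * (Real.sqrt (∫ z in ball 0 b, ‖V.P z - Q‖ ^ 2 ∂V.μ) +
        ∫ z in ball 0 b, ‖V.H z‖ ∂V.μ) := by
    have hmPQ : Measurable (fun z => ‖V.P z - Q‖) :=
      (continuous_id.sub continuous_const).norm.measurable.comp V.mP
    have h5 := w5_cs (μ := V.μ) (ball 0 b) hmPQ (fun z => norm_nonneg _)
      (fun z => (V.hP z).norm_sub_le hQ) (hmass.trans hAd.ge)
    have h6 : 0 ≤ ∫ z in ball 0 b, ‖V.H z‖ ∂V.μ := integral_nonneg fun z => norm_nonneg _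
    have h7 := Real.sqrt_nonneg A
    have h8 := Real.sqrt_nonneg (∫ z in ball 0 b, ‖V.P z - Q‖ ^ 2 ∂V.μ)
    have h9 := mul_nonneg h7 h6
    rw [hΘ]
    linarith
  have hfin := w5_final hm₀ k1 k2 n2 hM hN
  unfold Sys.av
  simp only [sub_zero]
  refine ⟨w5_av hm₀ k1 n1, w5_av hm₀ k2 n2, hfin.trans ?_⟩
  have h5 : 0 ≤ (C₁ + C₂) / m₀ := by positivity
  rw [mul_assoc]
  exact mul_le_mul_of_nonneg_left hΘ2 h5

end Allard
end
end

section

/-!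
# W5: local averages at a good scale, scaled version

Apply `local_avg_unit` to `V.rs y r`.  `V.av η Q y r = r • (V.rs y r).av η Q 0 1` and
`V.av η Q y (r/2) = r • (V.rs y r).av η Q 0 (1/2)` (change of variables; the factors `r^{-m}` cancel).
`∫_{ball 0 b} ‖P'-Q‖² dμ' = b^m lq Q (b r) y`, `∫_{ball 0 b} ‖H'‖ dμ' = b^{m-1} hh (b r) y ≤ b^m hh` (`rs_lq`, `rs_hh` at
`w = 0`, `ρ = b`), so take `l₂' = l₂/b^m`, `C' = C b^m`.  `rs_real_ball`, `rs_support`, `rs_LD`.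
-/

noncomputable section

open MeasureTheory Metric Set Filter Topology

namespace Allard

variable {n m : ℕ} {δ : ℝ} {S : Stress n m δ} {α Λ : ℝ} {U : Set (E n)}

private theorem w5s_int (V : Sys S α Λ U) (y : E n) (r : ℝ) (hr : 0 < r) (f : E n → E n) :
    ∫ w, f w ∂(V.rs y r hr).μ = (r ^ m)⁻¹ • ∫ z, f (r⁻¹ • (z - y)) ∂V.μ := by
  have h0 : 0 ≤ (r ^ m)⁻¹ := by positivity
  have h1 : (V.rs y r hr).μ = ENNReal.ofReal ((r ^ m)⁻¹) • V.μ.map (fun z => r⁻¹ • (z - y)) := rfl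
  rw [h1, integral_smul_measure, ENNReal.toReal_ofReal h0]
  congr 1
  exact integral_map_equiv (rsT y r hr).toMeasurableEquiv f

private theorem w5s_pre (y : E n) (r : ℝ) (hr : 0 < r) (ρ : ℝ) :
    (fun z => r⁻¹ • (z - y)) ⁻¹' ball (0 : E n) ρ = ball y (r * ρ) := by
  ext z
  rw [mem_preimage, mem_ball_zero_iff, mem_ball, dist_eq_norm, norm_smul,
    Real.norm_of_nonneg (inv_nonneg.2 hr.le), inv_mul_lt_iff₀ hr]

private theorem w5s_setint (V : Sys S α Λ U) (y : E n) (r : ℝ) (hr : 0 < r) (ρ : ℝ)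
    (f : E n → E n) :
    ∫ w in ball 0 ρ, f w ∂(V.rs y r hr).μ =
      (r ^ m)⁻¹ • ∫ z in ball y (r * ρ), f (r⁻¹ • (z - y)) ∂V.μ := by
  have hm : Measurable (fun z : E n => r⁻¹ • (z - y)) := (rsT y r hr).continuous.measurable
  rw [← integral_indicator measurableSet_ball, w5s_int, ← w5s_pre y r hr,
    ← integral_indicator (hm measurableSet_ball)]
  rfl

private theorem w5s_kr (m : ℕ) (η : ℝ → ℝ) {r ρ : ℝ} (hr : 0 < r) (t : ℝ) :
    Kr m η ρ (r⁻¹ * t) = r ^ m * Kr m η (r * ρ) t := by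
  unfold Kr
  have h1 : r⁻¹ * t / ρ = t / (r * ρ) := by
    rw [mul_comm r ρ, div_mul_eq_div_div]
    ring
  have h2 : r ^ m ≠ 0 := (pow_pos hr m).ne'
  rw [h1, mul_pow, mul_inv, ← mul_assoc, ← mul_assoc, mul_inv_cancel₀ h2, one_mul]

private theorem w5s_norm (Q : Op n) {r : ℝ} (hr : 0 < r) (v : E n) :
    ‖Q (r⁻¹ • v)‖ = r⁻¹ * ‖Q v‖ := by
  rw [map_smul, norm_smul, Real.norm_of_nonneg (inv_nonneg.2 hr.le)]

private theorem w5s_av (V : Sys S α Λ U) (η : ℝ → ℝ) (Q : Op n) (y : E n) (r : ℝ) (hr : 0 < r)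
    (ρ : ℝ) : V.av η Q y (r * ρ) = r • (V.rs y r hr).av η Q 0 ρ := by
  have hrm : r ^ m ≠ 0 := (pow_pos hr m).ne'
  have e0 : 2 * (r * ρ) = r * (2 * ρ) := by ring
  have hD : ∫ w in ball 0 (2 * ρ), Kr m η ρ ‖Q (w - 0)‖ ∂(V.rs y r hr).μ =
      ∫ z in ball y (2 * (r * ρ)), Kr m η (r * ρ) ‖Q (z - y)‖ ∂V.μ := by
    simp only [sub_zero]
    rw [rs_setIntegral V y r hr _ measurableSet_ball, w5s_pre y r hr, e0]
    simp only [w5s_norm Q hr, w5s_kr m η hr]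
    rw [integral_const_mul, ← mul_assoc, inv_mul_cancel₀ hrm, one_mul]
  have hN : ∫ w in ball 0 (2 * ρ), Kr m η ρ ‖Q (w - 0)‖ • (1 - Q) (w - 0) ∂(V.rs y r hr).μ =
      r⁻¹ • ∫ z in ball y (2 * (r * ρ)), Kr m η (r * ρ) ‖Q (z - y)‖ • (1 - Q) (z - y) ∂V.μ := by
    simp only [sub_zero]
    rw [w5s_setint V y r hr, e0]
    have e1 : ∀ z : E n, Kr m η ρ ‖Q (r⁻¹ • (z - y))‖ • (1 - Q) (r⁻¹ • (z - y)) =
        (r ^ m * r⁻¹) • (Kr m η (r * ρ) ‖Q (z - y)‖ • (1 - Q) (z - y)) := by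
      intro z
      rw [w5s_norm Q hr, w5s_kr m η hr, map_smul, smul_smul, smul_smul]
      congr 1
      ring
    simp only [e1]
    rw [integral_smul, smul_smul, ← mul_assoc, inv_mul_cancel₀ hrm, one_mul]
  unfold Sys.av
  have e2 : ∀ D : ℝ, D⁻¹ = r * (D⁻¹ * r⁻¹) := fun D => by
    rw [mul_left_comm, mul_inv_cancel₀ hr.ne', mul_one]
  rw [hD, hN, smul_smul, smul_smul, mul_assoc, ← e2]

/-- Scaled version. -/
theorem local_avg (n m : ℕ) (hm : 1 ≤ m) {τ : ℝ} {η : ℝ → ℝ} (h : Ker τ η) :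
    ∃ b₀ : ℝ, 20 ≤ b₀ ∧ ∀ b : ℝ, b₀ ≤ b → ∃ l₂ C : ℝ, 0 < l₂ ∧ 0 < C ∧
    ∀ {δ : ℝ} {S : Stress n m δ} {α Λ : ℝ} {U : Set (E n)} (V : Sys S α Λ U),
    0 ≤ δ → δ ≤ d0 n → V.LD (1 / 32) → ∀ y ∈ V.μ.support, ∀ r : ℝ, 0 < r →
    closedBall y (b * r) ⊆ U → ∀ {Q : Op n}, Pr n m Q →
    V.lq Q (b * r) y ≤ l₂ → V.hh (b * r) y ≤ l₂ →
    V.μ.real (ball y (b * r)) ≤ 3 / 2 * om m * (b * r) ^ m →
    ‖V.av η Q y r‖ ≤ r / 8 ∧ ‖V.av η Q y (r / 2)‖ ≤ r / 8 ∧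
    ‖V.av η Q y r - V.av η Q y (r / 2)‖ ≤
      C * r * (Real.sqrt (V.lq Q (b * r) y) + V.hh (b * r) y) := by
  obtain ⟨b₀, hb₀, hunit⟩ := local_avg_unit n m hm h
  refine ⟨b₀, hb₀, ?_⟩
  intro b hb
  have hb20 : 20 ≤ b := hb₀.trans hb
  have hb0 : 0 < b := by linarith
  have hbm : 0 < b ^ m := pow_pos hb0 m
  have hbm1 : 1 ≤ b ^ m := one_le_pow₀ (by linarith)
  obtain ⟨l₂, C, hl₂, hC, hun⟩ := hunit b hb
  refine ⟨l₂ / b ^ m, C * b ^ m, by positivity, by positivity, ?_⟩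
  intro δ S α Λ U V hδ hδ' hLD y hy r hr hU Q hQ hlq hhh hmass
  have e0 : y + r • (0 : E n) = y := by rw [smul_zero, add_zero]
  have e1 : r * b = b * r := mul_comm r b
  have hlq0 : (V.rs y r hr).lq Q b 0 = V.lq Q (b * r) y := by
    rw [rs_lq V y r hr Q b hb0, e0, e1]
  have hhh0 : (V.rs y r hr).hh b 0 = V.hh (b * r) y := by
    rw [rs_hh V y r hr b hb0, e0, e1]
  have hP : ∫ z in ball 0 b, ‖(V.rs y r hr).P z - Q‖ ^ 2 ∂(V.rs y r hr).μ =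
      b ^ m * V.lq Q (b * r) y := by
    rw [← hlq0]
    unfold Sys.lq
    rw [← mul_assoc, mul_inv_cancel₀ hbm.ne', one_mul]
  have hh0 : 0 ≤ ∫ z in ball 0 b, ‖(V.rs y r hr).H z‖ ∂(V.rs y r hr).μ :=
    integral_nonneg fun z => norm_nonneg _
  have hH : ∫ z in ball 0 b, ‖(V.rs y r hr).H z‖ ∂(V.rs y r hr).μ ≤
      b ^ m * V.hh (b * r) y := by
    rw [← hhh0]
    unfold Sys.hh
    have e2 : b ^ m * (b * (b ^ m)⁻¹ * ∫ z in ball 0 b, ‖(V.rs y r hr).H z‖ ∂(V.rs y r hr).μ) =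
        b * ∫ z in ball 0 b, ‖(V.rs y r hr).H z‖ ∂(V.rs y r hr).μ := by
      field_simp
    rw [e2]
    nlinarith
  have hU' : closedBall (0 : E n) b ⊆ (fun w => y + r • w) ⁻¹' U := by
    intro w hw
    rw [mem_closedBall_zero_iff] at hw
    refine hU ?_
    rw [mem_closedBall, dist_eq_norm, add_sub_cancel_left, norm_smul, Real.norm_of_nonneg hr.le,
      mul_comm]
    exact mul_le_mul_of_nonneg_right hw hr.le
  have hs : (0 : E n) ∈ (V.rs y r hr).μ.support := by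
    rw [rs_support, e0]
    exact hy
  have hmass' : (V.rs y r hr).μ.real (ball 0 b) ≤ 3 / 2 * om m * b ^ m := by
    rw [rs_real_ball, e0, e1, inv_mul_le_iff₀ (pow_pos hr m)]
    refine hmass.trans (le_of_eq ?_)
    rw [mul_pow]
    ring
  have hPl : ∫ z in ball 0 b, ‖(V.rs y r hr).P z - Q‖ ^ 2 ∂(V.rs y r hr).μ ≤ l₂ := by
    rw [hP]
    rw [le_div_iff₀ hbm] at hlq
    linarith
  have hHl : ∫ z in ball 0 b, ‖(V.rs y r hr).H z‖ ∂(V.rs y r hr).μ ≤ l₂ := by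
    refine hH.trans ?_
    rw [le_div_iff₀ hbm] at hhh
    linarith
  obtain ⟨a1, a2, a3⟩ := hun (V.rs y r hr) hδ hδ' hU' (rs_LD V y r hr hLD) hs hQ hPl hHl hmass'
  have v1 : V.av η Q y r = r • (V.rs y r hr).av η Q 0 1 := by
    have h1 := w5s_av V η Q y r hr 1
    rwa [mul_one] at h1
  have v2 : V.av η Q y (r / 2) = r • (V.rs y r hr).av η Q 0 (1 / 2) := by
    have h1 := w5s_av V η Q y r hr (1 / 2)
    rwa [mul_one_div] at h1
  rw [v1, v2, ← smul_sub, norm_smul, norm_smul, norm_smul, Real.norm_of_nonneg hr.le]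
  refine ⟨by nlinarith, by nlinarith, ?_⟩
  have hq0 : 0 ≤ V.lq Q (b * r) y := by
    unfold Sys.lq
    exact mul_nonneg (inv_nonneg.2 (by positivity)) (integral_nonneg fun z => sq_nonneg _)
  have hsq : Real.sqrt (b ^ m * V.lq Q (b * r) y) ≤ b ^ m * Real.sqrt (V.lq Q (b * r) y) := by
    rw [Real.sqrt_mul hbm.le]
    refine mul_le_mul_of_nonneg_right ?_ (Real.sqrt_nonneg _)
    rw [Real.sqrt_le_left hbm.le]
    nlinarith
  rw [hP] at a3
  have h5 : ‖(V.rs y r hr).av η Q 0 1 - (V.rs y r hr).av η Q 0 (1 / 2)‖ ≤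
      C * (b ^ m * Real.sqrt (V.lq Q (b * r) y) + b ^ m * V.hh (b * r) y) :=
    a3.trans (mul_le_mul_of_nonneg_left (add_le_add hsq hH) hC.le)
  refine (mul_le_mul_of_nonneg_left h5 hr.le).trans (le_of_eq ?_)
  ring

end Allard
end
end

section

/-!
# W7: good scales and telescoping

`Gd k`: the scales `b, b/2, ..., b 2^{-k}` are good at `y`.
`av_le_sum`: `y` in the support, `closedBall y b ⊆ U`, `k₀ ≤ N`, `y ∈ Gd k₀`, curvature at good scales is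
`≤ l₂` (hypothesis `hH`).  Let `K` be maximal in `[k₀, N]` with `y ∈ Gd K` (`Gd` is decreasing).
Telescoping with `local_avg` at the scales `r = 2^{-j}`, `k₀ ≤ j < K`, and `‖av 2^{-K}‖ ≤ 2^{-K}/8`:
`‖av 2^{-k₀}‖ ≤ 2^{-K}/8 + ∑_{j ∈ [k₀,K)} C 2^{-j}(√lq_j + hh_j)`.  If `K = N`: done (`2^{-N}/8 ≤ 2^{-N}`).  If
`K < N`: `y ∈ Gd K`, `y ∉ Gd (K+1)`, the indicator term with `j = K` is `2^{-K}`.
All terms are nonnegative.
-/

noncomputable section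

open MeasureTheory Metric Set Filter Topology

namespace Allard

variable {n m : ℕ} {δ : ℝ} {S : Stress n m δ} {α Λ : ℝ} {U : Set (E n)}

/-- Points where the scales `b 2^{-j}`, `j ≤ k`, are good. -/
def Sys.Gd (V : Sys S α Λ U) (Q : Op n) (b l₂ : ℝ) (k : ℕ) : Set (E n) :=
  {y | ∀ j ≤ k, V.lq Q (b * (1 / 2) ^ j) y ≤ l₂ ∧
    V.μ.real (ball y (b * (1 / 2) ^ j)) ≤ 3 / 2 * om m * (b * (1 / 2) ^ j) ^ m}

theorem Sys.measurableSet_Gd (V : Sys S α Λ U) (Q : Op n) (b l₂ : ℝ) (k : ℕ) :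
    MeasurableSet (V.Gd Q b l₂ k) := by
  have h1 : V.Gd Q b l₂ k = ⋂ j ∈ Finset.range (k + 1),
      ({y | V.lq Q (b * (1 / 2) ^ j) y ≤ l₂} ∩
        {y | V.μ.real (ball y (b * (1 / 2) ^ j)) ≤ 3 / 2 * om m * (b * (1 / 2) ^ j) ^ m}) := by
    ext y
    simp only [mem_iInter, Finset.mem_range]
    exact ⟨fun h j hj => h j (by omega), fun h j hj => h j (by omega)⟩
  rw [h1]
  exact Finset.measurableSet_biInter _ fun j _ =>
    (measurableSet_le (V.measurable_lq Q _) measurable_const).inter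
      (measurableSet_le (V.measurable_ball _) measurable_const)

theorem Sys.Gd_anti (V : Sys S α Λ U) (Q : Op n) (b l₂ : ℝ) {k k' : ℕ} (h : k ≤ k') :
    V.Gd Q b l₂ k' ⊆ V.Gd Q b l₂ k := fun _ hy j hj => hy j (hj.trans h)

/-- `x_j(y) = C (√lq + hh) 1_{Gd j} + 1_{Gd j \ Gd (j+1)}`. -/
def Sys.xj (V : Sys S α Λ U) (Q : Op n) (b l₂ C : ℝ) (j : ℕ) (y : E n) : ℝ :=
  (V.Gd Q b l₂ j).indicator
    (fun y => C * (Real.sqrt (V.lq Q (b * (1 / 2) ^ j) y) + V.hh (b * (1 / 2) ^ j) y)) y +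
  (V.Gd Q b l₂ j \ V.Gd Q b l₂ (j + 1)).indicator (fun _ => 1) y

theorem av_le_sum (n m : ℕ) (hm : 1 ≤ m) {τ : ℝ} {η : ℝ → ℝ} (h : Ker τ η) :
    ∃ b₀ : ℝ, 20 ≤ b₀ ∧ ∀ b : ℝ, b₀ ≤ b → ∃ l₂ C : ℝ, 0 < l₂ ∧ 0 < C ∧
    ∀ {δ : ℝ} {S : Stress n m δ} {α Λ : ℝ} {U : Set (E n)} (V : Sys S α Λ U),
    0 ≤ δ → δ ≤ d0 n → V.LD (1 / 32) → ∀ {Q : Op n}, Pr n m Q →
    ∀ y ∈ V.μ.support, closedBall y b ⊆ U → ∀ k₀ N : ℕ, k₀ ≤ N → y ∈ V.Gd Q b l₂ k₀ →
    (∀ j, y ∈ V.Gd Q b l₂ j → V.hh (b * (1 / 2) ^ j) y ≤ l₂) →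
    ‖V.av η Q y ((1 / 2) ^ k₀)‖ ≤ (1 / 2) ^ N +
      ∑ j ∈ Finset.Ico k₀ N, (1 / 2) ^ j * V.xj Q b l₂ C j y := by
  obtain ⟨b₀, hb₀, hloc⟩ := local_avg n m hm h
  refine ⟨b₀, hb₀, fun b hb => ?_⟩
  obtain ⟨l₂, C, hl₂, hC, hloc⟩ := hloc b hb
  refine ⟨l₂, C, hl₂, hC, ?_⟩
  intro δ S α Λ U V hδ hδ' hLD Q hQ y hy hU k₀ N hk hk₀ hH
  have hb1 : 0 < b := by linarith
  have hρ : ∀ j : ℕ, 0 < b * (1 / 2 : ℝ) ^ j := fun j => by positivity
  have hx0 : ∀ j : ℕ, 0 ≤ (1 / 2 : ℝ) ^ j * V.xj Q b l₂ C j y := fun j => by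
    unfold Sys.xj
    refine mul_nonneg (by positivity) (add_nonneg ?_ ?_)
    · exact Set.indicator_apply_nonneg fun _ =>
        mul_nonneg hC.le (add_nonneg (Real.sqrt_nonneg _) (V.hh_nonneg (hρ j) y))
    · exact Set.indicator_apply_nonneg fun _ => zero_le_one
  -- the local estimate at the scale `k`
  have hstep : ∀ k : ℕ, y ∈ V.Gd Q b l₂ k →
      ‖V.av η Q y ((1 / 2) ^ k)‖ ≤ (1 / 2) ^ k / 8 ∧
      ‖V.av η Q y ((1 / 2) ^ k) - V.av η Q y ((1 / 2) ^ (k + 1))‖ ≤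
        C * (1 / 2) ^ k * (Real.sqrt (V.lq Q (b * (1 / 2) ^ k) y) +
          V.hh (b * (1 / 2) ^ k) y) := by
    intro k hky
    obtain ⟨g1, g2⟩ := hky k le_rfl
    have hle : b * (1 / 2 : ℝ) ^ k ≤ b :=
      mul_le_of_le_one_right hb1.le (pow_le_one₀ (by norm_num) (by norm_num))
    have h1 := hloc V hδ hδ' hLD y hy ((1 / 2) ^ k) (by positivity)
      ((closedBall_subset_closedBall hle).trans hU) hQ g1 (hH k hky) g2
    have e : (1 / 2 : ℝ) ^ k / 2 = (1 / 2) ^ (k + 1) := by rw [pow_succ]; ring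
    rw [e] at h1
    exact ⟨h1.1, h1.2.2⟩
  obtain ⟨d, rfl⟩ := Nat.exists_eq_add_of_le hk
  clear hk
  induction d generalizing k₀ with
  | zero =>
    have h1 := (hstep k₀ hk₀).1
    have h2 : (0 : ℝ) ≤ (1 / 2) ^ k₀ := by positivity
    simp only [add_zero, Finset.Ico_self, Finset.sum_empty]
    linarith
  | succ d ih =>
    have e : k₀ + (d + 1) = k₀ + 1 + d := by ring
    have e2 : ∑ j ∈ Finset.Ico k₀ (k₀ + (d + 1)), (1 / 2 : ℝ) ^ j * V.xj Q b l₂ C j y =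
        (1 / 2) ^ k₀ * V.xj Q b l₂ C k₀ y +
          ∑ j ∈ Finset.Ico (k₀ + 1) (k₀ + (d + 1)), (1 / 2 : ℝ) ^ j * V.xj Q b l₂ C j y :=
      Finset.sum_eq_sum_Ico_succ_bot (by omega) _
    rw [e2]
    have hs : 0 ≤ ∑ j ∈ Finset.Ico (k₀ + 1) (k₀ + (d + 1)),
        (1 / 2 : ℝ) ^ j * V.xj Q b l₂ C j y := Finset.sum_nonneg fun j _ => hx0 j
    have hN : (0 : ℝ) ≤ (1 / 2) ^ (k₀ + (d + 1)) := by positivity
    have hp : (0 : ℝ) < (1 / 2) ^ k₀ := by positivity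
    obtain ⟨s1, s2⟩ := hstep k₀ hk₀
    by_cases hk1 : y ∈ V.Gd Q b l₂ (k₀ + 1)
    · have h1 := ih (k₀ + 1) hk1
      rw [← e] at h1
      have h2 : V.xj Q b l₂ C k₀ y = C * (Real.sqrt (V.lq Q (b * (1 / 2) ^ k₀) y) +
          V.hh (b * (1 / 2) ^ k₀) y) := by
        unfold Sys.xj
        rw [Set.indicator_of_mem hk₀, Set.indicator_of_notMem (fun hc => hc.2 hk1), add_zero]
      rw [h2]
      have h3 : ‖V.av η Q y ((1 / 2) ^ k₀)‖ ≤
          ‖V.av η Q y ((1 / 2) ^ k₀) - V.av η Q y ((1 / 2) ^ (k₀ + 1))‖ +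
            ‖V.av η Q y ((1 / 2) ^ (k₀ + 1))‖ := by
        have h4 := norm_add_le (V.av η Q y ((1 / 2) ^ k₀) - V.av η Q y ((1 / 2) ^ (k₀ + 1)))
          (V.av η Q y ((1 / 2) ^ (k₀ + 1)))
        rwa [sub_add_cancel] at h4
      linarith
    · have h2 : 1 ≤ V.xj Q b l₂ C k₀ y := by
        unfold Sys.xj
        rw [Set.indicator_of_mem hk₀, Set.indicator_of_mem (show y ∈ _ \ _ from ⟨hk₀, hk1⟩)]
        have h3 : 0 ≤ C * (Real.sqrt (V.lq Q (b * (1 / 2) ^ k₀) y) +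
            V.hh (b * (1 / 2) ^ k₀) y) :=
          mul_nonneg hC.le (add_nonneg (Real.sqrt_nonneg _) (V.hh_nonneg (hρ k₀) y))
        linarith
      have h3 := mul_le_mul_of_nonneg_left h2 hp.le
      linarith

end Allard
end
end
end
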