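import Pool.Agent.Lib.MP_5932b0_an.AR.W9
import Pool.Agent.Lib.MP_5932b0_an.AR.B1
import Pool.Agent.Lib.MP_5932b0_an.AR.B4
import Pool.Agent.Lib.MP_5932b0_an.AR.A4
import Pool.Agent.Lib.MP_5932b0_an.AR.W7

section

/-!
# C7: masses of balls

`crude_mass`: kernel with `τ = 1/2`, plane `Q := V.P y`.  `i = 0` trivial.  For `i ≥ 1` put
`r_i = 4 2^{-i} ≤ 2`: `ball y 2^{-i} ⊆ ball y ((1-τ) r_i/(1+3δ))`, so by `le_I`
`(1-δ) (r_i^m)⁻¹ μ(ball y 2^{-i}) ≤ I r_i`, `wm_iter` with `r = 2`, `k = i - 1` gives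
`I r_i ≤ exp(c δ² i + 2 c lam) (I 2 + 2 c lam)`, `I 2 ≤ (1+δ) 2^{-m} μ (ball y (2/(1-3δ)))`.
Choose `δ₁` with `c δ₁² ≤ (log 2)/2`.

`ball_mono`: `τ` small depending on `κ, m`; `s' = s (1+3δ)/(1-τ)`, `r' = r (1-3δ)`.
If `s' ≤ r'` : `le_I` at `s'`, `wm_iter` (with `k` or `k+1` steps), `I_le` at `r'`.
If `s' > r'`: `μ (ball y s) ≤ μ (ball y r) ≤ A om r^m` and `r/s < (1+3δ)/((1-τ)(1-3δ))`.
-/

noncomputable section

open MeasureTheory Metric Set Filter Topology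

namespace Allard

private theorem c7_lam {α Λ : ℝ} (hΛ : 0 ≤ Λ) (hα : 0 < α) : 0 ≤ lam α Λ := by
  unfold lam
  refine div_nonneg hΛ ?_
  have h1 := Real.rpow_lt_one_of_one_lt_of_neg (x := 2) (z := -α) one_lt_two (by linarith)
  linarith

private theorem c7_om (m : ℕ) : 0 < om m := by
  unfold om
  exact ENNReal.toReal_pos (measure_ball_pos volume 0 one_pos).ne' measure_ball_lt_top.ne

private theorem c7_inv {x : ℝ} (h0 : 0 ≤ x) (h1 : x ≤ 1 / 2) : (1 - x)⁻¹ ≤ Real.exp (2 * x) := by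
  have h2 : (1 - x)⁻¹ ≤ 1 + 2 * x := by
    rw [inv_le_iff_one_le_mul₀ (by linarith)]
    nlinarith only [h0, h1]
  have h3 := Real.add_one_le_exp (2 * x)
  linarith

theorem crude_mass (n m : ℕ) (hm : 1 ≤ m) : ∃ c δ₁ : ℝ, 0 < c ∧ 0 < δ₁ ∧
    ∀ {δ : ℝ} {S : Stress n m δ} {α Λ : ℝ} {U : Set (E n)} (V : Sys S α Λ U),
    0 ≤ δ → δ ≤ δ₁ → 0 ≤ Λ → 0 < α → α < 1 → lam α Λ ≤ 1 →
    ∀ (y : E n), closedBall y 4 ⊆ U → ∀ i : ℕ,
    V.μ.real (ball y ((1 / 2) ^ i)) ≤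
      c * (V.μ.real (ball y 4) + 1) * ((1 / 2) ^ i) ^ m * (2 : ℝ) ^ ((i : ℝ) / 2) := by
  obtain ⟨η, hη⟩ := exists_ker (1 / 2) (by norm_num) le_rfl
  obtain ⟨c₀, hc₀, hw⟩ := wm_iter m hm
  have hlog : 0 < Real.log 2 := Real.log_pos one_lt_two
  have hd := d0_pos (n := n)
  have h4m : (1 : ℝ) ≤ 4 ^ m := one_le_pow₀ (by norm_num)
  have hexp1 : (1 : ℝ) ≤ Real.exp (2 * c₀) := Real.one_le_exp (by positivity)
  have hC1 : (1 : ℝ) ≤ 2 * 4 ^ m * Real.exp (2 * c₀) * (2 + 2 * c₀) := by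
    refine one_le_mul_of_one_le_of_one_le (one_le_mul_of_one_le_of_one_le ?_ hexp1) ?_
    · linarith
    · linarith
  refine ⟨2 * 4 ^ m * Real.exp (2 * c₀) * (2 + 2 * c₀), min (d0 n) (Real.log 2 / (2 * c₀)),
    by positivity, lt_min hd (by positivity), ?_⟩
  intro δ S α Λ U V hδ hδ1 hΛ hα hα1 hlam y hU i
  have hδd : δ ≤ d0 n := hδ1.trans (min_le_left _ _)
  have hδl : δ ≤ Real.log 2 / (2 * c₀) := hδ1.trans (min_le_right _ _)
  have hd1 : δ ≤ 1 / 100 := hδd.trans d0_le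
  have hM : 0 ≤ V.μ.real (ball y 4) := measureReal_nonneg
  cases i with
  | zero =>
    simp only [pow_zero, one_pow, Nat.cast_zero, zero_div, Real.rpow_zero, mul_one]
    have h1 : V.μ.real (ball y 1) ≤ V.μ.real (ball y 4) :=
      measureReal_mono (ball_subset_ball (by norm_num))
    have h2 := mul_le_mul_of_nonneg_right hC1 (by linarith only [hM] : 0 ≤ V.μ.real (ball y 4) + 1)
    linarith
  | succ j =>
    obtain ⟨x, hx⟩ : ∃ x : ℝ, x = (1 / 2) ^ (j + 1) := ⟨_, rfl⟩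
    rw [← hx]
    have hx0 : 0 < x := by rw [hx]; positivity
    have hj1 : (2 : ℝ) ^ j * (4 * x) = 2 := by
      rw [hx, pow_succ]
      have h1 : (2 : ℝ) ^ j * (1 / 2) ^ j = 1 := by
        rw [← mul_pow]
        norm_num
      linear_combination 2 * h1
    have hj2 : (1 : ℝ) ≤ 2 ^ j := one_le_pow₀ (by norm_num)
    have hx1 : 4 * x ≤ 2 := by
      calc 4 * x = 1 * (4 * x) := (one_mul _).symm
        _ ≤ 2 ^ j * (4 * x) := mul_le_mul_of_nonneg_right hj2 (by positivity)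
        _ = 2 := hj1
    have hQ := V.hP y
    have h1 := V.le_I hη hδ hδd hQ y (r := 4 * x) (by positivity)
    have h2 : V.μ.real (ball y x) ≤
        V.μ.real (ball y ((1 - 1 / 2) * (4 * x) / (1 + 3 * δ))) := by
      refine measureReal_mono (ball_subset_ball ?_)
      rw [le_div_iff₀ (by linarith only [hδ])]
      nlinarith only [hd1, hx0]
    have hU2 : closedBall y (2 / (1 - 3 * δ)) ⊆ U := by
      refine (closedBall_subset_closedBall ?_).trans hU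
      rw [div_le_iff₀ (by linarith only [hd1])]
      linarith only [hd1]
    have h3 := hw V hη hδ hδd hΛ hα hα1 hQ y j (s := 4 * x) (r := 2) (by positivity) hx1
      hj1.ge hU2
    have hl0 := c7_lam hΛ hα
    have hL0 : 0 ≤ lam α Λ * 2 ^ α := mul_nonneg hl0 (Real.rpow_nonneg (by norm_num) _)
    have hL2 : lam α Λ * 2 ^ α ≤ 2 := by
      have h5 : (2 : ℝ) ^ α ≤ 2 := by
        have h6 := Real.rpow_le_rpow_of_exponent_le (x := 2) one_le_two hα1.le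
        rwa [Real.rpow_one] at h6
      have h7 : (0 : ℝ) ≤ 2 ^ α := Real.rpow_nonneg (by norm_num) _
      calc lam α Λ * 2 ^ α ≤ 1 * 2 ^ α := mul_le_mul_of_nonneg_right hlam h7
        _ ≤ 2 := by linarith
    have h4 := V.I_le hη hδ hδd hQ y (r := 2) (by norm_num)
    have h5 : V.μ.real (ball y (2 / (1 - 3 * δ))) ≤ V.μ.real (ball y 4) := by
      refine measureReal_mono (ball_subset_ball ?_)
      rw [div_le_iff₀ (by linarith only [hd1])]
      linarith only [hd1]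
    have h6 : V.I η (V.P y) y 2 ≤ 2 * V.μ.real (ball y 4) := by
      refine h4.trans ?_
      have h7 : ((2 : ℝ) ^ m)⁻¹ ≤ 1 := inv_le_one_of_one_le₀ (one_le_pow₀ (by norm_num))
      have h8 : ((2 : ℝ) ^ m)⁻¹ * V.μ.real (ball y (2 / (1 - 3 * δ))) ≤
          1 * V.μ.real (ball y 4) :=
        mul_le_mul h7 h5 measureReal_nonneg (by norm_num)
      have h9 : 0 ≤ ((2 : ℝ) ^ m)⁻¹ * V.μ.real (ball y (2 / (1 - 3 * δ))) :=
        mul_nonneg (by positivity) measureReal_nonneg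
      nlinarith only [hd1, h8, h9]
    have hE : Real.exp (c₀ * (δ ^ 2 * j + lam α Λ * 2 ^ α)) ≤
        (2 : ℝ) ^ (((j + 1 : ℕ) : ℝ) / 2) * Real.exp (2 * c₀) := by
      rw [Real.rpow_def_of_pos two_pos (((j + 1 : ℕ) : ℝ) / 2), ← Real.exp_add]
      refine Real.exp_le_exp.2 ?_
      have h7 : c₀ * δ ≤ Real.log 2 / 2 := by
        rw [le_div_iff₀ (by positivity)] at hδl
        linarith only [hδl]
      have h8 : c₀ * δ ^ 2 ≤ Real.log 2 / 2 := by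
        have h9 : c₀ * δ ^ 2 = (c₀ * δ) * δ := by ring
        rw [h9]
        have h10 : 0 ≤ c₀ * δ := by positivity
        nlinarith only [hd1, h7, h10]
      have h9 : c₀ * (lam α Λ * 2 ^ α) ≤ c₀ * 2 := mul_le_mul_of_nonneg_left hL2 hc₀.le
      have h10 : c₀ * δ ^ 2 * j ≤ Real.log 2 / 2 * j :=
        mul_le_mul_of_nonneg_right h8 (Nat.cast_nonneg j)
      push_cast
      linarith only [hlog, h9, h10]
    have hX : (1 - δ) * (((4 * x) ^ m)⁻¹ * V.μ.real (ball y x)) ≤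
        (2 : ℝ) ^ (((j + 1 : ℕ) : ℝ) / 2) * Real.exp (2 * c₀) *
          ((2 + 2 * c₀) * (V.μ.real (ball y 4) + 1)) := by
      have a1 : (1 - δ) * (((4 * x) ^ m)⁻¹ * V.μ.real (ball y x)) ≤
          (1 - δ) * (((4 * x) ^ m)⁻¹ *
            V.μ.real (ball y ((1 - 1 / 2) * (4 * x) / (1 + 3 * δ)))) :=
        mul_le_mul_of_nonneg_left (mul_le_mul_of_nonneg_left h2 (by positivity)) (by linarith only [hd1])
      have a2 : V.I η (V.P y) y 2 + c₀ * (lam α Λ * 2 ^ α) ≤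
          (2 + 2 * c₀) * (V.μ.real (ball y 4) + 1) := by
        have h9 : c₀ * (lam α Λ * 2 ^ α) ≤ c₀ * 2 := mul_le_mul_of_nonneg_left hL2 hc₀.le
        have h10 : 0 ≤ c₀ * V.μ.real (ball y 4) := mul_nonneg hc₀.le hM
        linarith only [h6, h9, h10]
      have a3 : 0 ≤ V.I η (V.P y) y 2 + c₀ * (lam α Λ * 2 ^ α) :=
        add_nonneg (V.I_nonneg hη hδ hδd _ y (by norm_num)) (mul_nonneg hc₀.le hL0)
      refine a1.trans (h1.trans (h3.trans ?_))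
      exact mul_le_mul hE a2 a3 (by positivity)
    have hY : ((4 * x) ^ m)⁻¹ * V.μ.real (ball y x) ≤
        2 * ((2 : ℝ) ^ (((j + 1 : ℕ) : ℝ) / 2) * Real.exp (2 * c₀) *
          ((2 + 2 * c₀) * (V.μ.real (ball y 4) + 1))) := by
      have h9 : 0 ≤ ((4 * x) ^ m)⁻¹ * V.μ.real (ball y x) :=
        mul_nonneg (by positivity) measureReal_nonneg
      nlinarith only [hd1, hX, h9]
    rw [inv_mul_le_iff₀ (by positivity)] at hY
    refine hY.trans (le_of_eq ?_)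
    rw [mul_pow]
    ring

theorem ball_mono (n m : ℕ) (hm : 1 ≤ m) (κ : ℝ) (hκ : 0 < κ) (k : ℕ) :
    ∃ δ₂ l₂ : ℝ, 0 < δ₂ ∧ 0 < l₂ ∧
    ∀ {δ : ℝ} {S : Stress n m δ} {α Λ : ℝ} {U : Set (E n)} (V : Sys S α Λ U),
    0 ≤ δ → δ ≤ δ₂ → 0 ≤ Λ → 0 < α → α < 1 →
    ∀ (y : E n) (s r A : ℝ), 0 < s → s ≤ r → r ≤ 2 ^ k * s → lam α Λ * r ^ α ≤ l₂ →
    closedBall y r ⊆ U → A ≤ 2 → V.μ.real (ball y r) ≤ A * om m * r ^ m →
    V.μ.real (ball y s) ≤ (A + κ) * om m * s ^ m := by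
  obtain ⟨c₀, hc₀, hw⟩ := wm_iter m hm
  have hΩ : 0 < om m := c7_om m
  have hd := d0_pos (n := n)
  obtain ⟨κ', hκ'⟩ : ∃ κ' : ℝ, κ' = min (κ / 4) 1 := ⟨_, rfl⟩
  have hκ0 : 0 < κ' := by
    rw [hκ']
    exact lt_min (by positivity) one_pos
  have hκ1 : κ' ≤ κ / 4 := by rw [hκ']; exact min_le_left _ _
  have hκ2 : κ' ≤ 1 := by rw [hκ']; exact min_le_right _ _
  obtain ⟨D, hD⟩ : ∃ D : ℝ, D = 3 + 11 * m + c₀ * (k + 1) := ⟨_, rfl⟩
  have hD0 : 0 < D := by rw [hD]; positivity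
  have hlog : 0 < Real.log (1 + κ') := Real.log_pos (by linarith only [hκ0])
  obtain ⟨t, ht⟩ : ∃ t : ℝ, t = min (min (d0 n) (Real.log (1 + κ') / D))
    (κ * om m / (4 * c₀)) := ⟨_, rfl⟩
  have ht0 : 0 < t := by
    rw [ht]
    exact lt_min (lt_min hd (by positivity)) (by positivity)
  have htd : t ≤ d0 n := by
    rw [ht]
    exact (min_le_left _ _).trans (min_le_left _ _)
  have htD : t ≤ Real.log (1 + κ') / D := by
    rw [ht]
    exact (min_le_left _ _).trans (min_le_right _ _)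
  have htc : t ≤ κ * om m / (4 * c₀) := by
    rw [ht]
    exact min_le_right _ _
  have ht1 : t ≤ 1 / 100 := htd.trans d0_le
  have hexp : Real.exp (D * t) ≤ 1 + κ' := by
    rw [← Real.le_log_iff_exp_le (by linarith only [hκ0])]
    rw [le_div_iff₀ hD0] at htD
    linarith
  have htc' : 4 * c₀ * t ≤ κ * om m := by
    rw [le_div_iff₀ (by positivity)] at htc
    linarith only [htc]
  obtain ⟨η, hη⟩ := exists_ker t ht0 (by linarith)
  refine ⟨t, t, ht0, ht0, ?_⟩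
  intro δ S α Λ U V hδ hδt hΛ hα hα1 y s r A hs hsr hrk hl hU hA hμ
  have hδd : δ ≤ d0 n := hδt.trans htd
  have hr : 0 < r := hs.trans_le hsr
  have hsm : 0 < s ^ m := pow_pos hs m
  have hrm : 0 < r ^ m := pow_pos hr m
  -- the factors
  obtain ⟨β, hβ⟩ : ∃ β : ℝ, β = (1 + 3 * δ) * (1 - t)⁻¹ := ⟨_, rfl⟩
  obtain ⟨γ, hγ⟩ : ∃ γ : ℝ, γ = 1 - 3 * δ := ⟨_, rfl⟩
  have hγ0 : 0 < γ := by rw [hγ]; linarith
  have hγ1 : γ ≤ 1 := by rw [hγ]; linarith
  have ht2 : 0 < 1 - t := by linarith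
  have f1 : (1 - δ)⁻¹ ≤ Real.exp (2 * t) :=
    (c7_inv hδ (by linarith)).trans (Real.exp_le_exp.2 (by linarith))
  have f2 : (1 - t)⁻¹ ≤ Real.exp (2 * t) := c7_inv ht0.le (by linarith)
  have f3 : γ⁻¹ ≤ Real.exp (6 * t) := by
    rw [hγ]
    exact (c7_inv (by positivity) (by linarith only [ht1, hδt])).trans (Real.exp_le_exp.2 (by linarith only [hδt]))
  have f4 : 1 + 3 * δ ≤ Real.exp (3 * t) := by
    have h1 := Real.add_one_le_exp (3 * t)
    linarith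
  have f5 : 1 + δ ≤ Real.exp t := by
    have h1 := Real.add_one_le_exp t
    linarith
  have f6 : β ≤ Real.exp (5 * t) := by
    rw [hβ]
    calc (1 + 3 * δ) * (1 - t)⁻¹ ≤ Real.exp (3 * t) * Real.exp (2 * t) :=
          mul_le_mul f4 f2 (inv_nonneg.2 ht2.le) (Real.exp_pos _).le
      _ = Real.exp (5 * t) := by
          rw [← Real.exp_add]
          congr 1
          ring
  have hβ1 : 1 ≤ β := by
    rw [hβ]
    have h1 : 1 ≤ (1 - t)⁻¹ := (one_le_inv₀ ht2).2 (by linarith only [hδ, hδt])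
    nlinarith only [hγ, hγ1, h1]
  have hβ0 : 0 < β := by linarith
  have f7 : β ^ m ≤ Real.exp (5 * m * t) := by
    calc β ^ m ≤ Real.exp (5 * t) ^ m := pow_le_pow_left₀ hβ0.le f6 m
      _ = Real.exp (5 * m * t) := by
          rw [← Real.exp_nat_mul]
          congr 1
          ring
  have f8 : (γ⁻¹) ^ m ≤ Real.exp (6 * m * t) := by
    calc (γ⁻¹) ^ m ≤ Real.exp (6 * t) ^ m := pow_le_pow_left₀ (inv_nonneg.2 hγ0.le) f3 m
      _ = Real.exp (6 * m * t) := by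
          rw [← Real.exp_nat_mul]
          congr 1
          ring
  have hAΩ : 0 ≤ A * om m := by
    have h1 : 0 ≤ A * om m * r ^ m := measureReal_nonneg.trans hμ
    exact nonneg_of_mul_nonneg_left h1 hrm
  have hAΩ2 : A * om m ≤ 2 * om m := mul_le_mul_of_nonneg_right hA hΩ.le
  rcases le_or_gt (s * β) (r * γ) with hcase | hcase
  · have hs' : 0 < s * β := mul_pos hs hβ0
    have hr' : 0 < r * γ := mul_pos hr hγ0
    have hQ := V.hP y
    have h1 := V.le_I hη hδ hδd hQ y (r := s * β) hs'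
    have e1 : (1 - t) * (s * β) / (1 + 3 * δ) = s := by
      rw [hβ]
      have h2 : 1 + 3 * δ ≠ 0 := by linarith only [hγ, hγ1]
      field_simp
    rw [e1] at h1
    have e2 : r * γ / (1 - 3 * δ) = r := by
      rw [hγ]
      have h2 : 1 - 3 * δ ≠ 0 := by linarith only [hγ, hγ0]
      field_simp
    have hk' : r * γ ≤ 2 ^ k * (s * β) := by
      have h2 : (0 : ℝ) < 2 ^ k := by positivity
      calc r * γ ≤ r * 1 := mul_le_mul_of_nonneg_left hγ1 hr.le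
        _ = r := mul_one r
        _ ≤ 2 ^ k * s := hrk
        _ ≤ 2 ^ k * (s * β) :=
          mul_le_mul_of_nonneg_left (le_mul_of_one_le_right hs.le hβ1) h2.le
    have h3 := hw V hη hδ hδd hΛ hα hα1 hQ y k hs' hcase hk' (by rw [e2]; exact hU)
    have h4 := V.I_le hη hδ hδd hQ y hr'
    rw [e2] at h4
    have hl0 := c7_lam hΛ hα
    have hL0 : 0 ≤ lam α Λ * (r * γ) ^ α := mul_nonneg hl0 (Real.rpow_nonneg hr'.le _)
    have hL1 : lam α Λ * (r * γ) ^ α ≤ t := by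
      refine le_trans (mul_le_mul_of_nonneg_left ?_ hl0) hl
      refine Real.rpow_le_rpow hr'.le ?_ hα.le
      calc r * γ ≤ r * 1 := mul_le_mul_of_nonneg_left hγ1 hr.le
        _ = r := mul_one r
    have hE : Real.exp (c₀ * (δ ^ 2 * k + lam α Λ * (r * γ) ^ α)) ≤
        Real.exp (c₀ * (k + 1) * t) := by
      refine Real.exp_le_exp.2 ?_
      have h5 : δ ^ 2 ≤ t := by nlinarith only [ht1, hδ, hδt]
      have h6 : δ ^ 2 * k ≤ t * k := mul_le_mul_of_nonneg_right h5 (Nat.cast_nonneg k)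
      have h7 : c₀ * (δ ^ 2 * k + lam α Λ * (r * γ) ^ α) ≤ c₀ * (t * k + t) :=
        mul_le_mul_of_nonneg_left (add_le_add h6 hL1) hc₀.le
      linarith only [h7]
    have hI : V.I η (V.P y) y (r * γ) ≤ (1 + δ) * (A * om m * (γ⁻¹) ^ m) := by
      refine h4.trans (mul_le_mul_of_nonneg_left ?_ (by linarith only [hγ, hγ1]))
      rw [inv_mul_le_iff₀ (by positivity)]
      refine hμ.trans (le_of_eq ?_)
      rw [mul_pow]
      have h5 : γ ^ m * (γ⁻¹) ^ m = 1 := by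
        rw [← mul_pow, mul_inv_cancel₀ hγ0.ne', one_pow]
      linear_combination (-(A * om m * r ^ m)) * h5
    have hI0 : 0 ≤ V.I η (V.P y) y (r * γ) := V.I_nonneg hη hδ hδd _ y hr'
    -- combine
    have hX : V.μ.real (ball y s) ≤ (1 - δ)⁻¹ * ((s * β) ^ m * (Real.exp (c₀ * (k + 1) * t) *
        ((1 + δ) * (A * om m * (γ⁻¹) ^ m) + c₀ * t))) := by
      have h5 : V.I η (V.P y) y (s * β) ≤ Real.exp (c₀ * (k + 1) * t) *
          ((1 + δ) * (A * om m * (γ⁻¹) ^ m) + c₀ * t) := by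
        refine h3.trans (mul_le_mul hE ?_ ?_ (Real.exp_pos _).le)
        · exact add_le_add hI (mul_le_mul_of_nonneg_left hL1 hc₀.le)
        · exact add_nonneg hI0 (mul_nonneg hc₀.le hL0)
      have h6 := h1.trans h5
      rw [← le_inv_mul_iff₀ (by linarith only [hγ, hγ0] : 0 < 1 - δ), inv_mul_le_iff₀ (by positivity)] at h6
      refine h6.trans (le_of_eq ?_)
      ring
    have g1 : (1 - δ)⁻¹ * β ^ m * Real.exp (c₀ * (k + 1) * t) ≤
        Real.exp (2 * t + 5 * m * t + c₀ * (k + 1) * t) := by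
      rw [Real.exp_add, Real.exp_add]
      refine mul_le_mul_of_nonneg_right ?_ (Real.exp_pos _).le
      exact mul_le_mul f1 f7 (by positivity) (Real.exp_pos _).le
    have g0 : 0 ≤ (1 - δ)⁻¹ * β ^ m * Real.exp (c₀ * (k + 1) * t) := by
      have h5 : 0 ≤ (1 - δ)⁻¹ := inv_nonneg.2 (by linarith only [hγ, hγ0])
      positivity
    have hm0 : (0 : ℝ) ≤ m := Nat.cast_nonneg m
    have g2 : (1 - δ)⁻¹ * β ^ m * Real.exp (c₀ * (k + 1) * t) ≤ 2 := by
      refine g1.trans ((Real.exp_le_exp.2 ?_).trans (hexp.trans (by linarith only [hκ2])))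
      have h5 : D * t = (2 * t + 5 * m * t + c₀ * (k + 1) * t) + (t + 6 * (m * t)) := by
        rw [hD]
        ring
      have h6 : 0 ≤ t + 6 * (m * t) := by positivity
      rw [h5]
      exact le_add_of_nonneg_right h6
    have g3 : (1 - δ)⁻¹ * β ^ m * Real.exp (c₀ * (k + 1) * t) * ((1 + δ) * (γ⁻¹) ^ m) ≤
        1 + κ / 4 := by
      have h5 : (1 + δ) * (γ⁻¹) ^ m ≤ Real.exp (t + 6 * m * t) := by
        rw [Real.exp_add]
        exact mul_le_mul f5 f8 (pow_nonneg (inv_nonneg.2 hγ0.le) m) (Real.exp_pos _).le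
      have h6 : 0 ≤ (1 + δ) * (γ⁻¹) ^ m :=
        mul_nonneg (by linarith only [hγ, hγ1]) (pow_nonneg (inv_nonneg.2 hγ0.le) m)
      have h7 := mul_le_mul g1 h5 h6 (Real.exp_pos _).le
      refine h7.trans ?_
      rw [← Real.exp_add]
      refine (Real.exp_le_exp.2 (le_of_eq ?_)).trans (hexp.trans (by linarith only [hκ1]))
      rw [hD]
      ring
    have h8 : V.μ.real (ball y s) ≤ s ^ m *
        ((1 - δ)⁻¹ * β ^ m * Real.exp (c₀ * (k + 1) * t) * ((1 + δ) * (γ⁻¹) ^ m) * (A * om m) +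
          (1 - δ)⁻¹ * β ^ m * Real.exp (c₀ * (k + 1) * t) * (c₀ * t)) := by
      refine hX.trans (le_of_eq ?_)
      rw [mul_pow]
      ring
    have h9 : (1 - δ)⁻¹ * β ^ m * Real.exp (c₀ * (k + 1) * t) * ((1 + δ) * (γ⁻¹) ^ m) *
        (A * om m) ≤ (1 + κ / 4) * (A * om m) := mul_le_mul_of_nonneg_right g3 hAΩ
    have h10 : (1 - δ)⁻¹ * β ^ m * Real.exp (c₀ * (k + 1) * t) * (c₀ * t) ≤ 2 * (c₀ * t) :=
      mul_le_mul_of_nonneg_right g2 (by positivity)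
    have h11 : (1 + κ / 4) * (A * om m) + 2 * (c₀ * t) ≤ (A + κ) * om m := by
      have h12 := mul_le_mul_of_nonneg_left hAΩ2 hκ.le
      have h13 : (1 + κ / 4) * (A * om m) = A * om m + κ * (A * om m) / 4 := by ring
      have h14 : (A + κ) * om m = A * om m + κ * om m := by ring
      have h15 : κ * (2 * om m) = 2 * (κ * om m) := by ring
      have h16 : 4 * c₀ * t = 4 * (c₀ * t) := by ring
      rw [h15] at h12
      rw [h16] at htc'
      rw [h13, h14]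
      linarith only [htc', h12]
    calc V.μ.real (ball y s) ≤ _ := h8
      _ ≤ s ^ m * ((A + κ) * om m) := mul_le_mul_of_nonneg_left (by linarith only [h9, h10, h11]) hsm.le
      _ = (A + κ) * om m * s ^ m := by ring
  · have h1 : r ≤ s * (β * γ⁻¹) := by
      rw [← mul_assoc, ← div_eq_mul_inv, le_div_iff₀ hγ0]
      exact hcase.le
    have h2 : r ^ m ≤ s ^ m * (1 + κ / 4) := by
      calc r ^ m ≤ (s * (β * γ⁻¹)) ^ m := pow_le_pow_left₀ hr.le h1 m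
        _ = s ^ m * (β ^ m * (γ⁻¹) ^ m) := by rw [mul_pow, mul_pow]
        _ ≤ s ^ m * (Real.exp (5 * m * t) * Real.exp (6 * m * t)) :=
          mul_le_mul_of_nonneg_left (mul_le_mul f7 f8
            (pow_nonneg (inv_nonneg.2 hγ0.le) m) (Real.exp_pos _).le) hsm.le
        _ ≤ s ^ m * (1 + κ / 4) := by
          refine mul_le_mul_of_nonneg_left ?_ hsm.le
          rw [← Real.exp_add]
          refine (Real.exp_le_exp.2 ?_).trans (hexp.trans (by linarith only [hκ1]))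
          have h5 : D * t = (5 * m * t + 6 * m * t) + (3 * t + c₀ * (k + 1) * t) := by
            rw [hD]
            ring
          have h6 : 0 ≤ 3 * t + c₀ * (k + 1) * t := by positivity
          rw [h5]
          exact le_add_of_nonneg_right h6
    have h3 : V.μ.real (ball y s) ≤ V.μ.real (ball y r) :=
      measureReal_mono (ball_subset_ball hsr)
    calc V.μ.real (ball y s) ≤ A * om m * r ^ m := h3.trans hμ
      _ ≤ A * om m * (s ^ m * (1 + κ / 4)) := mul_le_mul_of_nonneg_left h2 hAΩ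
      _ = s ^ m * (A * om m + κ / 4 * (A * om m)) := by ring
      _ ≤ s ^ m * ((A + κ) * om m) := by
          refine mul_le_mul_of_nonneg_left ?_ hsm.le
          have h12 := mul_le_mul_of_nonneg_left hAΩ2 hκ.le
          have h13 : κ / 4 * (A * om m) = κ * (A * om m) / 4 := by ring
          have h14 : (A + κ) * om m = A * om m + κ * om m := by ring
          have h15 : κ * (2 * om m) = 2 * (κ * om m) := by ring
          have h16 := mul_pos hκ hΩ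
          rw [h15] at h12
          rw [h13, h14]
          linarith only [h12, h16]
      _ = (A + κ) * om m * s ^ m := by ring

end Allard
end
end

section

section

/-!
# W4: affine approximation of the averages at scale one

Abstract measure `ν` (finite) on `E n`, `0 ≤ χ ≤ 1` measurable, bounded `hgt : E n → E n` measurable with
values in the kernel of `Q`.  `M p = ∫ χ η(‖Q(z-p)‖)`, `Uv p = ∫ χ η(‖Q(z-p)‖) • hgt z`.
`Ker.taylor` at `x = Q z`, increment `Q p`: `η ‖Qz - Qp‖ = η ‖Qz‖ - D(Qz)(Qp) + O(‖Qp‖²)`.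
`M p = M₀ + M' p + O(c A ‖Qp‖²)`, `M' p = -∫ χ D(Qz)(Qp)`, `Uv p = U₀ + U' p + O(c e ‖Qp‖²)`,
`U' p = -∫ χ D(Qz)(Qp) • hgt`, `e = ∫ ‖hgt‖ dν`, `‖U₀‖ ≤ e`, `‖U' p‖ ≤ c e ‖Qp‖`, `‖M' p‖ ≤ c A ‖Qp‖`.
`ℓ₀ = M₀⁻¹ U₀`, `L p = M₀⁻¹ (U' p - (M' p) ℓ₀)`.  Then
`Uv p - (M p)(ℓ₀ + L p) = O(C e ‖Qp‖²)` for `‖Qp‖ ≤ 1`; divide by `M p ≥ c₀`.
`L = (1-Q) L Q` since `hgt` has values in the kernel of `Q`.
-/

noncomputable section

open MeasureTheory Metric Set Filter Topology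

namespace Allard

private theorem W4_alg {V : Type*} [NormedAddCommGroup V] [NormedSpace ℝ V]
    {Up U0 U1 l Lp : V} {Mp M0 M1 c A e K q c₀ : ℝ} (hc : 0 < c) (hA : 0 < A) (hK : 0 < K)
    (he : 0 ≤ e) (hc₀ : 0 < c₀) (hq0 : 0 ≤ q) (hq1 : q ≤ 1) (hMp : c₀ ≤ Mp) (hM0 : 0 < M0)
    (hl : l = M0⁻¹ • U0) (hL : Lp = M0⁻¹ • (U1 - M1 • l))
    (hRM : |Mp - M0 - M1| ≤ c * A * q ^ 2) (hRU : ‖Up - U0 - U1‖ ≤ c * e * q ^ 2)
    (hM1 : |M1| ≤ c * A * q) (hLn : ‖Lp‖ ≤ K * e * q) (hln : ‖l‖ ≤ c₀⁻¹ * e) :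
    ‖Mp⁻¹ • Up - (l + Lp)‖ ≤
      (K + c₀⁻¹ * (c + c * A * K + c * A * (c₀⁻¹ + K))) * e * q ^ 2 := by
  have hMpp : 0 < Mp := hc₀.trans_le hMp
  have hMpi : Mp⁻¹ ≤ c₀⁻¹ := inv_anti₀ hc₀ hMp
  have h1 : Mp⁻¹ • Up - (l + Lp) = Mp⁻¹ •
      ((Up - U0 - U1) - M1 • Lp - (Mp - M0 - M1) • (l + Lp)) := by
    have h2 : U0 = M0 • l := by
      rw [hl, smul_smul, mul_inv_cancel₀ hM0.ne', one_smul]
    have h3 : U1 = M0 • Lp + M1 • l := by
      rw [hL, smul_smul, mul_inv_cancel₀ hM0.ne', one_smul, sub_add_cancel]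
    have h4 : (Up - U0 - U1) - M1 • Lp - (Mp - M0 - M1) • (l + Lp) = Up - Mp • (l + Lp) := by
      rw [h3, h2]
      module
    rw [h4, smul_sub, smul_smul, inv_mul_cancel₀ hMpp.ne', one_smul]
  rw [h1, norm_smul, Real.norm_eq_abs, abs_of_pos (inv_pos.2 hMpp)]
  have hci : 0 < c₀⁻¹ := inv_pos.2 hc₀
  have h5 : ‖(Up - U0 - U1) - M1 • Lp - (Mp - M0 - M1) • (l + Lp)‖ ≤
      c * e * q ^ 2 + (c * A * q) * (K * e * q) +
        (c * A * q ^ 2) * (c₀⁻¹ * e + K * e) := by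
    refine (norm_sub_le _ _).trans (add_le_add ((norm_sub_le _ _).trans
      (add_le_add hRU ?_)) ?_)
    · rw [norm_smul, Real.norm_eq_abs]
      have h6 : 0 ≤ c * A * q := by positivity
      exact mul_le_mul hM1 hLn (norm_nonneg _) h6
    · rw [norm_smul, Real.norm_eq_abs]
      have h6 : 0 ≤ c * A * q ^ 2 := by positivity
      have h7 : 0 ≤ K * e := by positivity
      refine mul_le_mul hRM ?_ (norm_nonneg _) h6
      refine (norm_add_le _ _).trans (add_le_add hln (hLn.trans ?_))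
      exact mul_le_of_le_one_right h7 hq1
  refine (mul_le_mul hMpi h5 (norm_nonneg _) hci.le).trans ?_
  have h6 : 0 ≤ K * e * q ^ 2 := by positivity
  linarith

theorem affine_avg (n : ℕ) {τ : ℝ} {η : ℝ → ℝ} (h : Ker τ η) (A c₀ : ℝ) (hA : 0 < A)
    (hc₀ : 0 < c₀) : ∃ C : ℝ, 0 < C ∧
    ∀ (ν : Measure (E n)) [IsFiniteMeasure ν], ν.real univ ≤ A →
    ∀ {m : ℕ} {Q : Op n}, Pr n m Q → ∀ χ : E n → ℝ, Measurable χ → (∀ z, 0 ≤ χ z) →
    (∀ z, χ z ≤ 1) → ∀ hgt : E n → E n, Measurable hgt → (∀ z, Q (hgt z) = 0) →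
    Integrable hgt ν →
    (∀ p, ‖Q p‖ ≤ 1 / 4 → c₀ ≤ ∫ z, χ z * η ‖Q (z - p)‖ ∂ν) →
    ∃ (ℓ₀ : E n) (L : Op n), Q ℓ₀ = 0 ∧ L = (1 - Q) * L * Q ∧ ‖L‖ ≤ C * ∫ z, ‖hgt z‖ ∂ν ∧
      ∀ p, ‖Q p‖ ≤ 1 / 4 →
        ‖(∫ z, χ z * η ‖Q (z - p)‖ ∂ν)⁻¹ • (∫ z, (χ z * η ‖Q (z - p)‖) • hgt z ∂ν)
            - (ℓ₀ + L p)‖ ≤ C * (∫ z, ‖hgt z‖ ∂ν) * ‖Q p‖ ^ 2 := by
  obtain ⟨c, hc, D, hD, hDc, -, hT⟩ := h.taylor (n := n)
  set K : ℝ := c₀⁻¹ * (c + c * A * c₀⁻¹) with hK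
  have hci : 0 < c₀⁻¹ := inv_pos.2 hc₀
  have hKpos : 0 < K := by positivity
  have hCp : 0 < c₀⁻¹ * (c + c * A * K + c * A * (c₀⁻¹ + K)) := by positivity
  refine ⟨K + c₀⁻¹ * (c + c * A * K + c * A * (c₀⁻¹ + K)), add_pos hKpos hCp, ?_⟩
  intro ν _ hν m Q hQ χ hχm hχ0 hχ1 hgt hhm hhQ hhi hM
  set e : ℝ := ∫ z, ‖hgt z‖ ∂ν with he
  have he0 : 0 ≤ e := integral_nonneg fun z => norm_nonneg _
  have hQn := hQ.norm_apply_le
  have hsub : ∀ p z, Q (z - p) = Q z - Q p := fun p z => map_sub Q z p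
  -- the weights
  set φ : E n → E n → ℝ := fun p z => χ z * η ‖Q (z - p)‖ with hφ
  have hφ0 : ∀ p z, 0 ≤ φ p z := fun p z => mul_nonneg (hχ0 z) (h.nonneg _)
  have hφ1 : ∀ p z, φ p z ≤ 1 := fun p z => mul_le_one₀ (hχ1 z) (h.nonneg _) (h.le_one _)
  have hφm : ∀ p, Measurable (φ p) := fun p =>
    hχm.mul (h.cont.comp ((Q.continuous.comp (continuous_id.sub continuous_const)).norm)).measurable
  have hφi : ∀ p, Integrable (φ p) ν := fun p =>
    Integrable.of_bound (hφm p).aestronglyMeasurable 1 (ae_of_all _ fun z => by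
      rw [Real.norm_eq_abs, abs_of_nonneg (hφ0 p z)]
      exact hφ1 p z)
  have hφu : ∀ p, Integrable (fun z => φ p z • hgt z) ν := fun p =>
    hhi.norm.mono' ((hφm p).aestronglyMeasurable.smul hhi.aestronglyMeasurable)
      (ae_of_all _ fun z => by
        rw [norm_smul, Real.norm_eq_abs, abs_of_nonneg (hφ0 p z)]
        exact mul_le_of_le_one_left (norm_nonneg _) (hφ1 p z))
  -- the derivatives
  set DM : E n → (E n →L[ℝ] ℝ) := fun z => χ z • D (Q z) with hDM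
  have hDMn : ∀ z, ‖DM z‖ ≤ c := fun z => by
    rw [hDM]
    simp only
    rw [norm_smul, Real.norm_eq_abs, abs_of_nonneg (hχ0 z)]
    exact (mul_le_of_le_one_left (norm_nonneg _) (hχ1 z)).trans (hDc _)
  have hDMs : AEStronglyMeasurable DM ν :=
    hχm.aestronglyMeasurable.smul (hD.comp Q.continuous).aestronglyMeasurable
  have hDMi : Integrable DM ν := Integrable.of_bound hDMs c (ae_of_all _ hDMn)
  set DU : E n → Op n := fun z => (DM z).smulRight (hgt z) with hDU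
  have hDUn : ∀ z, ‖DU z‖ ≤ c * ‖hgt z‖ := fun z => by
    rw [hDU]
    simp only
    rw [ContinuousLinearMap.norm_smulRight_apply]
    exact mul_le_mul_of_nonneg_right (hDMn z) (norm_nonneg _)
  have hDUs : AEStronglyMeasurable DU ν :=
    (ContinuousLinearMap.smulRightL ℝ (E n) (E n)).aestronglyMeasurable_comp₂ hDMs
      hhi.aestronglyMeasurable
  have hDUi : Integrable DU ν := (hhi.norm.const_mul c).mono' hDUs (ae_of_all _ hDUn)
  set M₁ : E n →L[ℝ] ℝ := -((∫ z, DM z ∂ν).comp Q) with hM₁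
  set U₁ : Op n := -((∫ z, DU z ∂ν) * Q) with hU₁
  have hM₁a : ∀ p, M₁ p = -∫ z, DM z (Q p) ∂ν := fun p => by
    rw [← ContinuousLinearMap.integral_apply hDMi (Q p)]
    rfl
  have hU₁a : ∀ p, U₁ p = -∫ z, DU z (Q p) ∂ν := fun p => by
    rw [← ContinuousLinearMap.integral_apply hDUi (Q p)]
    rfl
  have hM₁n : ∀ p, |M₁ p| ≤ c * A * ‖Q p‖ := fun p => by
    rw [hM₁a, abs_neg, ← Real.norm_eq_abs]
    refine (norm_integral_le_of_norm_le_const (C := c * ‖Q p‖) (ae_of_all _ fun z => ?_)).trans ?_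
    · exact ((DM z).le_opNorm _).trans (mul_le_mul_of_nonneg_right (hDMn z) (norm_nonneg _))
    · have h1 : c * ‖Q p‖ * ν.real univ ≤ c * ‖Q p‖ * A :=
        mul_le_mul_of_nonneg_left hν (by positivity)
      linarith
  have hU₁n : ∀ p, ‖U₁ p‖ ≤ c * e * ‖Q p‖ := fun p => by
    rw [hU₁a, norm_neg]
    refine (norm_integral_le_of_norm_le (hhi.norm.const_mul (c * ‖Q p‖))
      (ae_of_all _ fun z => ?_)).trans ?_
    · refine ((DU z).le_opNorm _).trans ?_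
      have h1 := mul_le_mul_of_nonneg_right (hDUn z) (norm_nonneg (Q p))
      linarith
    · rw [integral_const_mul]
      exact le_of_eq (by ring)
  -- the expansions
  set Mf : E n → ℝ := fun p => ∫ z, φ p z ∂ν with hMf
  set Uf : E n → E n := fun p => ∫ z, φ p z • hgt z ∂ν with hUf
  have hpt : ∀ p z, |φ p z - φ 0 z + DM z (Q p)| ≤ c * ‖Q p‖ ^ 2 := fun p z => by
    have h1 : φ p z - φ 0 z + DM z (Q p) = χ z * (η ‖Q z - Q p‖ - η ‖Q z‖ + D (Q z) (Q p)) := by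
      rw [hφ, hDM]
      simp only
      rw [hsub, hsub, map_zero, sub_zero]
      change _ + χ z * (D (Q z) (Q p)) = _
      ring
    rw [h1, abs_mul, abs_of_nonneg (hχ0 z)]
    exact (mul_le_of_le_one_left (abs_nonneg _) (hχ1 z)).trans (hT _ _)
  have hRM : ∀ p, |Mf p - Mf 0 - M₁ p| ≤ c * A * ‖Q p‖ ^ 2 := fun p => by
    have h1 : Mf p - Mf 0 - M₁ p = ∫ z, (φ p z - φ 0 z + DM z (Q p)) ∂ν := by
      have h2 : ∫ z, (φ p z - φ 0 z + DM z (Q p)) ∂ν =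
          (∫ z, (φ p z - φ 0 z) ∂ν) + ∫ z, DM z (Q p) ∂ν :=
        integral_add ((hφi p).sub (hφi 0)) (hDMi.apply_continuousLinearMap (Q p))
      rw [h2, integral_sub (hφi p) (hφi 0), hM₁a]
      ring
    rw [h1, ← Real.norm_eq_abs]
    refine (norm_integral_le_of_norm_le_const (C := c * ‖Q p‖ ^ 2)
      (ae_of_all _ fun z => hpt p z)).trans ?_
    have h2 : c * ‖Q p‖ ^ 2 * ν.real univ ≤ c * ‖Q p‖ ^ 2 * A :=
      mul_le_mul_of_nonneg_left hν (by positivity)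
    linarith
  have hRU : ∀ p, ‖Uf p - Uf 0 - U₁ p‖ ≤ c * e * ‖Q p‖ ^ 2 := fun p => by
    have h1 : Uf p - Uf 0 - U₁ p = ∫ z, (φ p z • hgt z - φ 0 z • hgt z + DU z (Q p)) ∂ν := by
      have h2 : ∫ z, (φ p z • hgt z - φ 0 z • hgt z + DU z (Q p)) ∂ν =
          (∫ z, (φ p z • hgt z - φ 0 z • hgt z) ∂ν) + ∫ z, DU z (Q p) ∂ν :=
        integral_add ((hφu p).sub (hφu 0)) (hDUi.apply_continuousLinearMap (Q p))
      rw [h2, integral_sub (hφu p) (hφu 0), hU₁a, sub_neg_eq_add]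
    rw [h1]
    refine (norm_integral_le_of_norm_le (hhi.norm.const_mul (c * ‖Q p‖ ^ 2))
      (ae_of_all _ fun z => ?_)).trans ?_
    · have h2 : φ p z • hgt z - φ 0 z • hgt z + DU z (Q p) =
          (φ p z - φ 0 z + DM z (Q p)) • hgt z := by
        rw [add_smul, sub_smul]
        rfl
      rw [h2, norm_smul, Real.norm_eq_abs]
      exact mul_le_mul_of_nonneg_right (hpt p z) (norm_nonneg _)
    · rw [integral_const_mul]
      exact le_of_eq (by ring)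
  have hM0 : c₀ ≤ Mf 0 := hM 0 (by rw [map_zero, norm_zero]; norm_num)
  have hM0p : 0 < Mf 0 := hc₀.trans_le hM0
  have hM0i : (Mf 0)⁻¹ ≤ c₀⁻¹ := inv_anti₀ hc₀ hM0
  have hU0n : ‖Uf 0‖ ≤ e := by
    refine norm_integral_le_of_norm_le hhi.norm (ae_of_all _ fun z => ?_)
    rw [norm_smul, Real.norm_eq_abs, abs_of_nonneg (hφ0 0 z)]
    exact mul_le_of_le_one_left (norm_nonneg _) (hφ1 0 z)
  set ℓ₀ : E n := (Mf 0)⁻¹ • Uf 0 with hℓ
  set L : Op n := (Mf 0)⁻¹ • (U₁ - M₁.smulRight ℓ₀) with hL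
  have hLa : ∀ p, L p = (Mf 0)⁻¹ • (U₁ p - M₁ p • ℓ₀) := fun p => rfl
  have hℓn : ‖ℓ₀‖ ≤ c₀⁻¹ * e := by
    rw [hℓ, norm_smul, Real.norm_eq_abs, abs_of_pos (inv_pos.2 hM0p)]
    exact mul_le_mul hM0i hU0n (norm_nonneg _) hci.le
  have hLn : ∀ p, ‖L p‖ ≤ K * e * ‖Q p‖ := fun p => by
    rw [hLa, norm_smul, Real.norm_eq_abs, abs_of_pos (inv_pos.2 hM0p)]
    have h1 : ‖U₁ p - M₁ p • ℓ₀‖ ≤ c * e * ‖Q p‖ + (c * A * ‖Q p‖) * (c₀⁻¹ * e) := by
      refine (norm_sub_le _ _).trans (add_le_add (hU₁n p) ?_)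
      rw [norm_smul, Real.norm_eq_abs]
      exact mul_le_mul (hM₁n p) hℓn (norm_nonneg _)
        (mul_nonneg (mul_nonneg hc.le hA.le) (norm_nonneg _))
    refine (mul_le_mul hM0i h1 (norm_nonneg _) hci.le).trans (le_of_eq ?_)
    rw [hK]
    ring
  have hQQ : ∀ p, Q (Q p) = Q p := hQ.apply_apply
  have hQℓ : Q ℓ₀ = 0 := by
    rw [hℓ, map_smul]
    have h1 : Q (Uf 0) = 0 := by
      change Q (∫ z, φ 0 z • hgt z ∂ν) = 0
      rw [← ContinuousLinearMap.integral_comp_comm Q (hφu 0)]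
      have h2 : ∀ z, Q (φ 0 z • hgt z) = 0 := fun z => by
        rw [map_smul, hhQ, smul_zero]
      simp only [h2]
      exact integral_zero _ _
    rw [h1, smul_zero]
  have hQL : ∀ p, Q (L p) = 0 := fun p => by
    rw [hLa, map_smul, map_sub, map_smul, hQℓ, smul_zero, sub_zero, hU₁a, map_neg,
      ← ContinuousLinearMap.integral_comp_comm Q (hDUi.apply_continuousLinearMap (Q p))]
    have h2 : ∀ z, Q (DU z (Q p)) = 0 := fun z => by
      change Q ((DM z (Q p)) • hgt z) = 0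
      rw [map_smul, hhQ, smul_zero]
    simp only [h2]
    rw [integral_zero, neg_zero, smul_zero]
  have hLQ : ∀ p, L (Q p) = L p := fun p => by
    rw [hLa, hLa, hU₁a, hU₁a, hM₁a, hM₁a, hQQ]
  refine ⟨ℓ₀, L, hQℓ, ?_, ?_, fun p hp => ?_⟩
  · refine ContinuousLinearMap.ext fun p => ?_
    change L p = L (Q p) - Q (L (Q p))
    rw [hQL, sub_zero, hLQ]
  · have h0 : 0 ≤ K * e := mul_nonneg hKpos.le he0
    have h2 : K * e ≤ (K + c₀⁻¹ * (c + c * A * K + c * A * (c₀⁻¹ + K))) * e :=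
      mul_le_mul_of_nonneg_right (le_add_of_nonneg_right hCp.le) he0
    refine ContinuousLinearMap.opNorm_le_bound _ (h0.trans h2) fun p => ?_
    refine (hLn p).trans ((mul_le_mul_of_nonneg_left (hQn p) h0).trans ?_)
    exact mul_le_mul_of_nonneg_right h2 (norm_nonneg p)
  · exact W4_alg hc hA hKpos he0 hc₀ (norm_nonneg (Q p)) (hp.trans (by norm_num)) (hM p hp) hM0p
      hℓ (hLa p) (hRM p) (hRU p) (hM₁n p) (hLn p) hℓn

end Allard
end
end

section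

/-!
# T1a: the pinching step

`I_change`: `|η(gn_{Q'}/ρ) - η(gn_Q/ρ)| ≤ c |gn_{Q'} - gn_Q|/ρ ≤ 5 c δ ‖Q-Q'‖ ‖z-y‖/ρ` (`Ker.lip`, `gn_sub_le`), zero for
`‖z-y‖ ≥ 2ρ`; `ψ ≤ 2`.

`pinch_step`: `MI_low` with plane `Q` from `θr/2` to `r/2` (`(r/2)/(1-3δ) ≤ 3r/4`): `N ≤ (4/(θr))^m`, so
`∫ N ‖P-Q‖² ≤ (4/θ)^m e²`; curvature `curv_le'` (`2·(r/2) = r`) and `hh_le`; then `I_change` at `ρ = θr/2`
(mass of `ball y (2ρ) ⊆ ball y r`).

`mass_of_I`: kernel `τ` with `(1-τ)^m ≥ 99/100`; `s = θ r (1+3δ)/(1-τ) ≤ r/2`; `le_I` at `s`, `wm_iter` up to `r/2`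
(`k` with `2^k ≥ 1/θ`).
-/

noncomputable section

open MeasureTheory Metric Set Filter Topology

namespace Allard

private theorem T1a_Kmeas {n m : ℕ} {δ : ℝ} {S : Stress n m δ} {τ : ℝ} {η : ℝ → ℝ} (h : Ker τ η)
    (Q : Op n) (y : E n) (ρ : ℝ) : Measurable fun z : E n => Kr m η ρ (gn (S.G Q) (z - y)) :=
  (continuous_Kr h ρ).measurable.comp
    ((gn_continuous _).comp (continuous_id.sub continuous_const)).measurable

private theorem T1a_zero {n m : ℕ} {δ : ℝ} {S : Stress n m δ} {τ : ℝ} {η : ℝ → ℝ} (h : Ker τ η)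
    (hδ : 0 ≤ δ) (hδ' : δ ≤ d0 n) {Q : Op n} (hQ : Pr n m Q) {ρ : ℝ} (hρ : 0 < ρ) (v : E n)
    (hv : 2 * ρ ≤ ‖v‖) : Kr m η ρ (gn (S.G Q) v) = 0 := by
  apply Kr_eq_zero h hρ
  have hd := d0_le (n := n)
  have h1 := S.le_gn hδ hδ' hQ v
  have h2 : ρ ≤ (1 - 3 * δ) * ‖v‖ := by nlinarith
  linarith

theorem I_change (n m : ℕ) (hm : 1 ≤ m) {τ : ℝ} {η : ℝ → ℝ} (h : Ker τ η) : ∃ C : ℝ, 0 < C ∧
    ∀ {δ : ℝ} {S : Stress n m δ} {α Λ : ℝ} {U : Set (E n)} (V : Sys S α Λ U),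
    0 ≤ δ → δ ≤ d0 n → ∀ {Q Q' : Op n}, Pr n m Q → Pr n m Q' → ∀ (y : E n) (ρ : ℝ), 0 < ρ →
    |V.I η Q' y ρ - V.I η Q y ρ| ≤ C * δ * ‖Q' - Q‖ * ((ρ ^ m)⁻¹ * V.μ.real (ball y (2 * ρ))) := by
  obtain ⟨c, hc, hlip⟩ := h.lip
  refine ⟨20 * c, by positivity, ?_⟩
  intro δ S α Λ U V hδ hδ' Q Q' hQ hQ' y ρ hρ
  have hint : ∀ {Q : Op n}, Integrable
      (fun z => Kr m η ρ (gn (S.G Q) (z - y)) * S.ψ (V.P z)) V.μ := by
    intro Q
    refine V.integrable_bdd ((T1a_Kmeas h Q y ρ).mul V.measurable_ψ)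
      (c := (ρ ^ m)⁻¹ * 2) fun z => ?_
    rw [abs_mul]
    refine mul_le_mul ?_ ?_ (abs_nonneg _) (by positivity)
    · rw [abs_of_nonneg (Kr_nonneg h hρ _)]
      exact Kr_le h hρ _
    · obtain ⟨h1, h2, h3, h4⟩ := S.psi_bd hδ hδ' (V.hP z)
      linarith
  have hD : V.I η Q' y ρ - V.I η Q y ρ =
      ∫ z, (Kr m η ρ (gn (S.G Q') (z - y)) * S.ψ (V.P z) -
        Kr m η ρ (gn (S.G Q) (z - y)) * S.ψ (V.P z)) ∂V.μ := by
    rw [integral_sub hint hint]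
    rfl
  rw [hD]
  have hpt : ∀ z, |Kr m η ρ (gn (S.G Q') (z - y)) * S.ψ (V.P z) -
      Kr m η ρ (gn (S.G Q) (z - y)) * S.ψ (V.P z)| ≤
      (ball y (2 * ρ)).indicator (fun _ => 20 * c * δ * ‖Q' - Q‖ * (ρ ^ m)⁻¹) z := by
    intro z
    by_cases hz : z ∈ ball y (2 * ρ)
    · rw [Set.indicator_of_mem hz]
      rw [mem_ball_iff_norm] at hz
      have h1 := S.gn_sub_le hδ hδ' hQ' hQ (z - y)
      have h2 := hlip (gn (S.G Q') (z - y) / ρ) (gn (S.G Q) (z - y) / ρ)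
      obtain ⟨_, _, h3, h4⟩ := S.psi_bd hδ hδ' (V.hP z)
      have h5 : |gn (S.G Q') (z - y) / ρ - gn (S.G Q) (z - y) / ρ| ≤ 10 * δ * ‖Q' - Q‖ := by
        rw [← sub_div, abs_div, abs_of_pos hρ, div_le_iff₀ hρ]
        refine h1.trans ?_
        have h6 : 5 * δ * ‖Q' - Q‖ * ‖z - y‖ ≤ 5 * δ * ‖Q' - Q‖ * (2 * ρ) :=
          mul_le_mul_of_nonneg_left hz.le (by positivity)
        linarith
      have h7 : |Kr m η ρ (gn (S.G Q') (z - y)) - Kr m η ρ (gn (S.G Q) (z - y))| ≤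
          (ρ ^ m)⁻¹ * (c * (10 * δ * ‖Q' - Q‖)) := by
        unfold Kr
        rw [← mul_sub, abs_mul, abs_of_nonneg (by positivity)]
        refine mul_le_mul_of_nonneg_left (h2.trans ?_) (by positivity)
        exact mul_le_mul_of_nonneg_left h5 hc.le
      rw [← sub_mul, abs_mul]
      calc _ ≤ ((ρ ^ m)⁻¹ * (c * (10 * δ * ‖Q' - Q‖))) * 2 := by
            refine mul_le_mul h7 (by linarith) (abs_nonneg _) (by positivity)
        _ = 20 * c * δ * ‖Q' - Q‖ * (ρ ^ m)⁻¹ := by ring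
    · rw [Set.indicator_of_notMem hz]
      rw [mem_ball_iff_norm, not_lt] at hz
      rw [T1a_zero h hδ hδ' hQ' hρ _ hz, T1a_zero h hδ hδ' hQ hρ _ hz, zero_mul, sub_zero,
        abs_zero]
  calc |∫ z, (Kr m η ρ (gn (S.G Q') (z - y)) * S.ψ (V.P z) -
        Kr m η ρ (gn (S.G Q) (z - y)) * S.ψ (V.P z)) ∂V.μ|
      ≤ ∫ z, |Kr m η ρ (gn (S.G Q') (z - y)) * S.ψ (V.P z) -
        Kr m η ρ (gn (S.G Q) (z - y)) * S.ψ (V.P z)| ∂V.μ := abs_integral_le_integral_abs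
    _ ≤ ∫ z, (ball y (2 * ρ)).indicator (fun _ => 20 * c * δ * ‖Q' - Q‖ * (ρ ^ m)⁻¹) z ∂V.μ :=
        integral_mono (hint.sub hint).abs ((integrable_const _).indicator measurableSet_ball) hpt
    _ = 20 * c * δ * ‖Q' - Q‖ * ((ρ ^ m)⁻¹ * V.μ.real (ball y (2 * ρ))) := by
        rw [integral_indicator_const _ measurableSet_ball, smul_eq_mul]
        ring

theorem pinch_step (n m : ℕ) (hm : 1 ≤ m) {τ : ℝ} {η : ℝ → ℝ} (h : Ker τ η) (θ : ℝ)
    (hθ : 0 < θ) (hθ' : θ ≤ 1 / 8) : ∃ C : ℝ, 0 < C ∧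
    ∀ {δ : ℝ} {S : Stress n m δ} {α Λ : ℝ} {U : Set (E n)} (V : Sys S α Λ U),
    0 ≤ δ → δ ≤ d0 n → 0 ≤ Λ → ∀ {Q Q' : Op n}, Pr n m Q → Pr n m Q' → ∀ (y : E n) (r e : ℝ),
    0 < r → closedBall y r ⊆ U → V.μ.real (ball y r) ≤ 2 * om m * r ^ m →
    ∫ z in ball y (3 / 4 * r), ‖V.P z - Q‖ ^ 2 ∂V.μ ≤ e ^ 2 * r ^ m →
    V.I η Q' y (θ * r / 2) ≤ V.I η Q y (r / 2) +
      C * (δ ^ 2 * e ^ 2 + Λ * r ^ α + δ * ‖Q' - Q‖) := by
  obtain ⟨C₁, hC₁, H⟩ := I_change n m hm h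
  have hom : 0 < om m := om_pos
  refine ⟨60 * (4 / θ) ^ m + 2 * (2 / θ) ^ m * (1 + 2 * om m) + C₁ * (2 * om m * (2 / θ) ^ m),
    by positivity, ?_⟩
  intro δ S α Λ U V hδ hδ' hΛ Q Q' hQ hQ' y r e hr hU hmass hexc
  have hd := d0_le (n := n)
  have hs : 0 < θ * r / 2 := by positivity
  have hsr : θ * r / 2 < r / 2 := by nlinarith
  have hr34 : r / 2 / (1 - 3 * δ) ≤ 3 / 4 * r := by
    rw [div_le_iff₀ (by linarith)]
    nlinarith
  have hU' : closedBall y (r / 2 / (1 - 3 * δ)) ⊆ U :=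
    (closedBall_subset_closedBall (by linarith)).trans hU
  have h1 := V.MI_low h hm hδ hδ' hQ y hs hsr hU'
  have h2 := V.curv_le' h hm hδ hδ' hQ y hs hsr
  have h3 := V.hh_le (ρ := r) hr y
  have h4 := H V hδ hδ' hQ hQ' y (θ * r / 2) hs
  -- the gain term
  have hga : 0 ≤ ∫ z, Nn m η (θ * r / 2) (r / 2) (gn (S.G Q) (z - y)) * ga (V.P z) (z - y) ∂V.μ :=
    integral_nonneg fun z => mul_nonneg (Nn_nonneg h hm hs hsr (Real.sqrt_nonneg _)) (ga_nonneg _)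
  -- the excess term
  have hPQ : ∀ z, ‖V.P z - Q‖ ^ 2 ≤ 4 := fun z => by
    have h1 := (V.hP z).norm_sub_le hQ
    have h2 := norm_nonneg (V.P z - Q)
    nlinarith
  have hPm : Measurable fun z => ‖V.P z - Q‖ ^ 2 := (V.mP.sub measurable_const).norm.pow_const 2
  have hN : ∀ z, 0 ≤ Nn m η (θ * r / 2) (r / 2) (gn (S.G Q) (z - y)) := fun z =>
    Nn_nonneg h hm hs hsr (Real.sqrt_nonneg _)
  have hN' : ∀ z, Nn m η (θ * r / 2) (r / 2) (gn (S.G Q) (z - y)) ≤ (2 / (θ * r / 2)) ^ m :=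
    fun z => (Nn_le' h hm hs hsr (Real.sqrt_nonneg _)).trans
      (mul_le_of_le_one_right (by positivity) (h.le_one _))
  have hNm : Measurable fun z : E n => Nn m η (θ * r / 2) (r / 2) (gn (S.G Q) (z - y)) :=
    (continuous_Nn h hm hs hsr).measurable.comp
      ((gn_continuous _).comp (continuous_id.sub continuous_const)).measurable
  have hexc2 : ∫ z, Nn m η (θ * r / 2) (r / 2) (gn (S.G Q) (z - y)) * ‖V.P z - Q‖ ^ 2 ∂V.μ ≤
      (4 / θ) ^ m * e ^ 2 := by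
    have h5 : ∫ z, Nn m η (θ * r / 2) (r / 2) (gn (S.G Q) (z - y)) * ‖V.P z - Q‖ ^ 2 ∂V.μ ≤
        ∫ z, (ball y (3 / 4 * r)).indicator
          (fun z => (2 / (θ * r / 2)) ^ m * ‖V.P z - Q‖ ^ 2) z ∂V.μ := by
      refine integral_mono ?_ ?_ fun z => ?_
      · refine V.integrable_bdd (hNm.mul hPm) (c := (2 / (θ * r / 2)) ^ m * 4) fun z => ?_
        rw [abs_mul, abs_of_nonneg (hN z), abs_of_nonneg (by positivity)]
        exact mul_le_mul (hN' z) (hPQ z) (by positivity) (by positivity)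
      · refine Integrable.indicator ?_ measurableSet_ball
        refine V.integrable_bdd (hPm.const_mul _) (c := (2 / (θ * r / 2)) ^ m * 4) fun z => ?_
        rw [abs_of_nonneg (by positivity)]
        exact mul_le_mul_of_nonneg_left (hPQ z) (by positivity)
      · simp only
        by_cases hz : z ∈ ball y (3 / 4 * r)
        · rw [Set.indicator_of_mem hz]
          exact mul_le_mul_of_nonneg_right (hN' z) (by positivity)
        · rw [Set.indicator_of_notMem hz]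
          rw [mem_ball_iff_norm, not_lt] at hz
          have h6 : r / 2 ≤ gn (S.G Q) (z - y) := by
            have h7 := S.le_gn hδ hδ' hQ (z - y)
            nlinarith
          rw [Nn_zero h hm hs hsr h6, zero_mul]
    rw [integral_indicator measurableSet_ball, integral_const_mul] at h5
    refine h5.trans ?_
    calc (2 / (θ * r / 2)) ^ m * ∫ z in ball y (3 / 4 * r), ‖V.P z - Q‖ ^ 2 ∂V.μ
        ≤ (2 / (θ * r / 2)) ^ m * (e ^ 2 * r ^ m) := mul_le_mul_of_nonneg_left hexc (by positivity)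
      _ = (4 / θ) ^ m * e ^ 2 := by
          have e1 : 2 / (θ * r / 2) * r = 4 / θ := by
            field_simp
            norm_num
          rw [← e1, mul_pow]
          ring
  -- the curvature term
  have hcurv : ∫ z, |Xi m η (θ * r / 2) (r / 2) (gn (S.G Q) (z - y))| * ‖z - y‖ * ‖V.H z‖ ∂V.μ ≤
      2 * (2 / θ) ^ m * (1 + 2 * om m) * (Λ * r ^ α) := by
    have e1 : 2 * (r / 2) = r := by ring
    rw [e1] at h2
    have e2 : r / (θ * r / 2) = 2 / θ := by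
      field_simp
    rw [e2] at h2
    have h5 : (r ^ m)⁻¹ * V.μ.real (ball y r) ≤ 2 * om m := by
      rw [inv_mul_le_iff₀ (pow_pos hr m)]
      linarith
    have h6 : 0 ≤ Λ * r ^ α := mul_nonneg hΛ (Real.rpow_nonneg hr.le _)
    have h7 : V.hh r y ≤ Λ * r ^ α * (1 + 2 * om m) :=
      h3.trans (mul_le_mul_of_nonneg_left (by linarith) h6)
    calc _ ≤ 2 * (2 / θ) ^ m * V.hh r y := h2
      _ ≤ 2 * (2 / θ) ^ m * (Λ * r ^ α * (1 + 2 * om m)) :=
          mul_le_mul_of_nonneg_left h7 (by positivity)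
      _ = _ := by ring
  -- the change of plane
  have hchg : V.I η Q' y (θ * r / 2) ≤ V.I η Q y (θ * r / 2) +
      C₁ * (2 * om m * (2 / θ) ^ m) * (δ * ‖Q' - Q‖) := by
    have h5 : ((θ * r / 2) ^ m)⁻¹ * V.μ.real (ball y (2 * (θ * r / 2))) ≤
        2 * om m * (2 / θ) ^ m := by
      have h6 : V.μ.real (ball y (2 * (θ * r / 2))) ≤ 2 * om m * r ^ m := by
        refine le_trans (measureReal_mono (ball_subset_ball ?_)) hmass
        nlinarith
      calc ((θ * r / 2) ^ m)⁻¹ * V.μ.real (ball y (2 * (θ * r / 2)))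
          ≤ ((θ * r / 2) ^ m)⁻¹ * (2 * om m * r ^ m) :=
            mul_le_mul_of_nonneg_left h6 (by positivity)
        _ = 2 * om m * (2 / θ) ^ m := by
            have e1 : (θ * r / 2)⁻¹ * r = 2 / θ := by
              field_simp
            rw [← e1, mul_pow, inv_pow]
            ring
    have h6 := (abs_le.1 h4).2
    have h7 : C₁ * δ * ‖Q' - Q‖ * (((θ * r / 2) ^ m)⁻¹ * V.μ.real (ball y (2 * (θ * r / 2)))) ≤
        C₁ * δ * ‖Q' - Q‖ * (2 * om m * (2 / θ) ^ m) :=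
      mul_le_mul_of_nonneg_left h5 (by positivity)
    have e2 : C₁ * δ * ‖Q' - Q‖ * (2 * om m * (2 / θ) ^ m) =
        C₁ * (2 * om m * (2 / θ) ^ m) * (δ * ‖Q' - Q‖) := by ring
    linarith
  have hA : 60 * δ ^ 2 * ∫ z, Nn m η (θ * r / 2) (r / 2) (gn (S.G Q) (z - y)) *
      ‖V.P z - Q‖ ^ 2 ∂V.μ ≤ 60 * (4 / θ) ^ m * (δ ^ 2 * e ^ 2) := by
    calc _ ≤ 60 * δ ^ 2 * ((4 / θ) ^ m * e ^ 2) := mul_le_mul_of_nonneg_left hexc2 (by positivity)
      _ = _ := by ring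
  have hB1 : 0 ≤ δ ^ 2 * e ^ 2 := by positivity
  have hB2 : 0 ≤ Λ * r ^ α := mul_nonneg hΛ (Real.rpow_nonneg hr.le _)
  have hB3 : 0 ≤ δ * ‖Q' - Q‖ := by positivity
  have hc1 : 0 ≤ 60 * (4 / θ) ^ m := by positivity
  have hc2 : 0 ≤ 2 * (2 / θ) ^ m * (1 + 2 * om m) := by positivity
  have hc3 : 0 ≤ C₁ * (2 * om m * (2 / θ) ^ m) := by positivity
  have hexp : (60 * (4 / θ) ^ m + 2 * (2 / θ) ^ m * (1 + 2 * om m) +
      C₁ * (2 * om m * (2 / θ) ^ m)) * (δ ^ 2 * e ^ 2 + Λ * r ^ α + δ * ‖Q' - Q‖) ≥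
      60 * (4 / θ) ^ m * (δ ^ 2 * e ^ 2) + 2 * (2 / θ) ^ m * (1 + 2 * om m) * (Λ * r ^ α) +
      C₁ * (2 * om m * (2 / θ) ^ m) * (δ * ‖Q' - Q‖) := by
    generalize 60 * (4 / θ) ^ m = c1 at *
    generalize 2 * (2 / θ) ^ m * (1 + 2 * om m) = c2 at *
    generalize C₁ * (2 * om m * (2 / θ) ^ m) = c3 at *
    generalize δ ^ 2 * e ^ 2 = b1 at *
    generalize Λ * r ^ α = b2 at *
    generalize δ * ‖Q' - Q‖ = b3 at *
    nlinarith [mul_nonneg hc1 hB2, mul_nonneg hc1 hB3, mul_nonneg hc2 hB1, mul_nonneg hc2 hB3,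
      mul_nonneg hc3 hB1, mul_nonneg hc3 hB2]
  linarith

end Allard
end
end

section

/-!
# T1: masses from pinching

`I_change`: `|η(gn_{Q'}/ρ) - η(gn_Q/ρ)| ≤ c |gn_{Q'} - gn_Q|/ρ ≤ 5 c δ ‖Q-Q'‖ ‖z-y‖/ρ` (`Ker.lip`, `gn_sub_le`), zero for
`‖z-y‖ ≥ 2ρ`; `ψ ≤ 2`.

`pinch_step`: `MI_low` with plane `Q` from `θr/2` to `r/2` (`(r/2)/(1-3δ) ≤ 3r/4`): `N ≤ (4/(θr))^m`, so
`∫ N ‖P-Q‖² ≤ (4/θ)^m e²`; curvature `curv_le'` (`2·(r/2) = r`) and `hh_le`; then `I_change` at `ρ = θr/2`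
(mass of `ball y (2ρ) ⊆ ball y r`).

`mass_of_I`: kernel `τ` with `(1-τ)^m ≥ 99/100`; `s = θ r (1+3δ)/(1-τ) ≤ r/2`; `le_I` at `s`, `wm_iter` up to `r/2`
(`k` with `2^k ≥ 1/θ`).
-/

noncomputable section

open MeasureTheory Metric Set Filter Topology

namespace Allard

private theorem t1_lam {α Λ : ℝ} (hΛ : 0 ≤ Λ) (hα : 0 < α) : 0 ≤ lam α Λ := by
  unfold lam
  refine div_nonneg hΛ ?_
  have h1 := Real.rpow_lt_one_of_one_lt_of_neg (x := 2) (z := -α) one_lt_two (by linarith)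
  linarith

private theorem t1_om (m : ℕ) : 0 < om m := by
  unfold om
  exact ENNReal.toReal_pos (measure_ball_pos volume 0 one_pos).ne' measure_ball_lt_top.ne

private theorem t1_inv {x : ℝ} (h0 : 0 ≤ x) (h1 : x ≤ 1 / 2) : (1 - x)⁻¹ ≤ Real.exp (2 * x) := by
  have h2 : (1 - x)⁻¹ ≤ 1 + 2 * x := by
    rw [inv_le_iff_one_le_mul₀ (by linarith)]
    nlinarith
  have h3 := Real.add_one_le_exp (2 * x)
  linarith

theorem mass_of_I (n m : ℕ) (hm : 1 ≤ m) (θ : ℝ) (hθ : 0 < θ) (hθ' : θ ≤ 1 / 8) :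
    ∃ (τ : ℝ) (η : ℝ → ℝ) (δ₁ l₁ : ℝ), Ker τ η ∧ 0 < δ₁ ∧ δ₁ ≤ d0 n ∧ 0 < l₁ ∧
    ∀ {δ : ℝ} {S : Stress n m δ} {α Λ : ℝ} {U : Set (E n)} (V : Sys S α Λ U),
    0 ≤ δ → δ ≤ δ₁ → 0 < α → α < 1 → 0 ≤ Λ → ∀ {Q : Op n}, Pr n m Q → ∀ (y : E n) (r : ℝ),
    0 < r → lam α Λ * r ^ α ≤ l₁ → closedBall y r ⊆ U →
    V.I η Q y (r / 2) ≤ 51 / 50 * om m →
    V.μ.real (ball y (θ * r)) ≤ 21 / 20 * om m * (θ * r) ^ m := by
  obtain ⟨c₀, hc₀, hw⟩ := wm_iter m hm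
  have hΩ : 0 < om m := t1_om m
  have hd := d0_pos (n := n)
  obtain ⟨k, hk⟩ := pow_unbounded_of_one_lt (1 / θ) (one_lt_two (α := ℝ))
  have hkθ : 1 ≤ 2 ^ k * θ := by
    rw [div_lt_iff₀ hθ] at hk
    exact hk.le
  obtain ⟨D, hD⟩ : ∃ D : ℝ, D = 2 + 5 * m + c₀ * (k + 1) := ⟨_, rfl⟩
  have hD0 : 0 < D := by rw [hD]; positivity
  have hlog : 0 < Real.log (101 / 100) := Real.log_pos (by norm_num)
  obtain ⟨t, ht⟩ : ∃ t : ℝ, t = min (min (d0 n) (Real.log (101 / 100) / D))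
    (om m / (1000 * c₀)) := ⟨_, rfl⟩
  have ht0 : 0 < t := by
    rw [ht]
    exact lt_min (lt_min hd (by positivity)) (by positivity)
  have htd : t ≤ d0 n := by
    rw [ht]
    exact (min_le_left _ _).trans (min_le_left _ _)
  have htD : t ≤ Real.log (101 / 100) / D := by
    rw [ht]
    exact (min_le_left _ _).trans (min_le_right _ _)
  have htc : t ≤ om m / (1000 * c₀) := by
    rw [ht]
    exact min_le_right _ _
  have ht1 : t ≤ 1 / 100 := htd.trans d0_le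
  have hexp : Real.exp (D * t) ≤ 101 / 100 := by
    rw [← Real.le_log_iff_exp_le (by norm_num)]
    rw [le_div_iff₀ hD0] at htD
    linarith
  have htc' : 1000 * (c₀ * t) ≤ om m := by
    rw [le_div_iff₀ (by positivity)] at htc
    linarith
  obtain ⟨η, hη⟩ := exists_ker t ht0 (by linarith)
  refine ⟨t, η, t, t, hη, ht0, htd, ht0, ?_⟩
  intro δ S α Λ U V hδ hδt hα hα1 hΛ Q hQ y r hr hl hU hI
  have hδd : δ ≤ d0 n := hδt.trans htd
  have hs : 0 < θ * r := mul_pos hθ hr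
  have hr2 : 0 < r / 2 := by positivity
  -- the factors
  obtain ⟨β, hβ⟩ : ∃ β : ℝ, β = (1 + 3 * δ) * (1 - t)⁻¹ := ⟨_, rfl⟩
  have ht2 : 0 < 1 - t := by linarith only [ht1]
  have f1 : (1 - δ)⁻¹ ≤ Real.exp (2 * t) :=
    (t1_inv hδ (by linarith)).trans (Real.exp_le_exp.2 (by linarith))
  have f2 : (1 - t)⁻¹ ≤ Real.exp (2 * t) := t1_inv ht0.le (by linarith only [ht1])
  have f4 : 1 + 3 * δ ≤ Real.exp (3 * t) := by
    have h1 := Real.add_one_le_exp (3 * t)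
    linarith only [hδt, h1]
  have f6 : β ≤ Real.exp (5 * t) := by
    rw [hβ]
    calc (1 + 3 * δ) * (1 - t)⁻¹ ≤ Real.exp (3 * t) * Real.exp (2 * t) :=
          mul_le_mul f4 f2 (inv_nonneg.2 ht2.le) (Real.exp_pos _).le
      _ = Real.exp (5 * t) := by
          rw [← Real.exp_add]
          congr 1
          ring
  have hβ1 : 1 ≤ β := by
    rw [hβ]
    have h1 : 1 ≤ (1 - t)⁻¹ := (one_le_inv₀ ht2).2 (by linarith only [hδ, hδt])
    nlinarith only [hδ, h1]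
  have hβ0 : 0 < β := by linarith only [hβ1]
  have f7 : β ^ m ≤ Real.exp (5 * m * t) := by
    calc β ^ m ≤ Real.exp (5 * t) ^ m := pow_le_pow_left₀ hβ0.le f6 m
      _ = Real.exp (5 * m * t) := by
          rw [← Real.exp_nat_mul]
          congr 1
          ring
  have hβ2 : β ≤ 4 := by
    rw [hβ]
    have h1 : (1 - t)⁻¹ ≤ 2 := by
      rw [inv_le_iff_one_le_mul₀ ht2]
      linarith only [ht1]
    have h2 : 0 ≤ (1 - t)⁻¹ := inv_nonneg.2 ht2.le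
    nlinarith only [ht1, hδt, h1, h2]
  have hs' : 0 < θ * r * β := mul_pos hs hβ0
  have hcase : θ * r * β ≤ r / 2 := by
    calc θ * r * β ≤ θ * r * 4 := mul_le_mul_of_nonneg_left hβ2 hs.le
      _ ≤ 1 / 8 * r * 4 :=
        mul_le_mul_of_nonneg_right (mul_le_mul_of_nonneg_right hθ' hr.le) (by norm_num)
      _ = r / 2 := by ring
  have h1 := V.le_I hη hδ hδd hQ y (r := θ * r * β) hs'
  have e1 : (1 - t) * (θ * r * β) / (1 + 3 * δ) = θ * r := by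
    rw [hβ]
    have h2 : 1 + 3 * δ ≠ 0 := by linarith only [hδ]
    field_simp
  rw [e1] at h1
  have hk' : r / 2 ≤ 2 ^ k * (θ * r * β) := by
    calc r / 2 ≤ r := by linarith only [hs', hcase]
      _ = 1 * r := (one_mul r).symm
      _ ≤ 2 ^ k * θ * r := mul_le_mul_of_nonneg_right hkθ hr.le
      _ = 2 ^ k * θ * r * 1 := (mul_one _).symm
      _ ≤ 2 ^ k * θ * r * β := mul_le_mul_of_nonneg_left hβ1 (by positivity)
      _ = 2 ^ k * (θ * r * β) := by ring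
  have hU' : closedBall y (r / 2 / (1 - 3 * δ)) ⊆ U := by
    refine (closedBall_subset_closedBall ?_).trans hU
    rw [div_le_iff₀ (by linarith only [ht1, hδt])]
    nlinarith only [ht1, hδt, hs', hcase]
  have h3 := hw V hη hδ hδd hΛ hα hα1 hQ y k hs' hcase hk' hU'
  have hl0 := t1_lam hΛ hα
  have hL0 : 0 ≤ lam α Λ * (r / 2) ^ α := mul_nonneg hl0 (Real.rpow_nonneg hr2.le _)
  have hL1 : lam α Λ * (r / 2) ^ α ≤ t := by
    refine le_trans (mul_le_mul_of_nonneg_left ?_ hl0) hl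
    exact Real.rpow_le_rpow hr2.le (by linarith only [hs', hcase]) hα.le
  have hE : Real.exp (c₀ * (δ ^ 2 * k + lam α Λ * (r / 2) ^ α)) ≤
      Real.exp (c₀ * (k + 1) * t) := by
    refine Real.exp_le_exp.2 ?_
    have h5 : δ ^ 2 ≤ t := by nlinarith only [ht1, hδ, hδt]
    have h6 : δ ^ 2 * k ≤ t * k := mul_le_mul_of_nonneg_right h5 (Nat.cast_nonneg k)
    have h7 : c₀ * (δ ^ 2 * k + lam α Λ * (r / 2) ^ α) ≤ c₀ * (t * k + t) :=
      mul_le_mul_of_nonneg_left (add_le_add h6 hL1) hc₀.le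
    linarith only [h7]
  have hI0 : 0 ≤ V.I η Q y (r / 2) := V.I_nonneg hη hδ hδd _ y hr2
  have hX : V.μ.real (ball y (θ * r)) ≤ (1 - δ)⁻¹ * ((θ * r * β) ^ m *
      (Real.exp (c₀ * (k + 1) * t) * (51 / 50 * om m + c₀ * t))) := by
    have h5 : V.I η Q y (θ * r * β) ≤ Real.exp (c₀ * (k + 1) * t) *
        (51 / 50 * om m + c₀ * t) := by
      refine h3.trans (mul_le_mul hE ?_ ?_ (Real.exp_pos _).le)
      · exact add_le_add hI (mul_le_mul_of_nonneg_left hL1 hc₀.le)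
      · exact add_nonneg hI0 (mul_nonneg hc₀.le hL0)
    have h6 := h1.trans h5
    rw [← le_inv_mul_iff₀ (by linarith only [ht1, hδt] : 0 < 1 - δ), inv_mul_le_iff₀ (by positivity)] at h6
    refine h6.trans (le_of_eq ?_)
    ring
  have g1 : (1 - δ)⁻¹ * β ^ m * Real.exp (c₀ * (k + 1) * t) ≤ 101 / 100 := by
    calc (1 - δ)⁻¹ * β ^ m * Real.exp (c₀ * (k + 1) * t) ≤
          Real.exp (2 * t) * Real.exp (5 * m * t) * Real.exp (c₀ * (k + 1) * t) := by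
          refine mul_le_mul_of_nonneg_right ?_ (Real.exp_pos _).le
          exact mul_le_mul f1 f7 (by positivity) (Real.exp_pos _).le
      _ = Real.exp (D * t) := by
          rw [← Real.exp_add, ← Real.exp_add, hD]
          congr 1
          ring
      _ ≤ 101 / 100 := hexp
  have hsm : 0 < (θ * r) ^ m := pow_pos hs m
  have hc0t : 0 ≤ c₀ * t := by positivity
  have h8 : 0 ≤ 51 / 50 * om m + c₀ * t := by positivity
  calc V.μ.real (ball y (θ * r)) ≤ (1 - δ)⁻¹ * ((θ * r * β) ^ m *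
      (Real.exp (c₀ * (k + 1) * t) * (51 / 50 * om m + c₀ * t))) := hX
    _ = ((1 - δ)⁻¹ * β ^ m * Real.exp (c₀ * (k + 1) * t)) *
        ((51 / 50 * om m + c₀ * t) * (θ * r) ^ m) := by
        rw [mul_pow]
        ring
    _ ≤ 101 / 100 * ((51 / 50 * om m + c₀ * t) * (θ * r) ^ m) :=
        mul_le_mul_of_nonneg_right g1 (mul_nonneg h8 hsm.le)
    _ = (101 / 100 * (51 / 50 * om m + c₀ * t)) * (θ * r) ^ m := by ring
    _ ≤ 21 / 20 * om m * (θ * r) ^ m := by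
        refine mul_le_mul_of_nonneg_right ?_ hsm.le
        linarith only [hΩ, htc']

end Allard
end
end

section

/-!
# W10: local and global averages

`all_good`: `D` with `(21/20) (D/(D-1))^m ≤ 11/10` and `D ≥ 2b+2`.  For `‖y‖ < 1`:
`ball y (D-1) ⊆ ball 0 D`, so the mass of `ball y (D-1)` is `≤ (11/10) om (D-1)^m`; `ball_mono` with
`κ = 1/20`, `r = D-1`, `s = ρ`, `k` with `2^k ≥ (D-1)/ρ₀`: mass of `ball y ρ` `≤ (23/20) om ρ^m` for
`ρ₀ ≤ ρ ≤ D-1`.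

`glob_avg`: for `μ`-a.e. `z` (in the support): `χ(z) Kr λ ‖Q(z-y)‖ = 1_{ball y 2λ}(z) Kr λ ‖Q(z-y)‖`.
Indeed if `Kr ≠ 0` and `χ ≠ 0`: `‖Q(z-y)‖ < λ`, `‖(1-Q)z‖ < 1/2`, `‖Q z‖ < 2`, so `‖z‖ < 4`, hence
`‖(1-Q)(z-a)‖ ≤ λ/16`, also for `y`, `‖(1-Q)(z-y)‖ ≤ λ/8`, `z ∈ ball y (2λ)`, and `χ z = 1` (`‖(1-Q)z‖ ≤ 1/8`).
Conversely `z ∈ ball y (2λ)` gives `‖z‖ < 3`, `χ z = 1`.
`(1-Q)(z-a) = (1-Q)(z-y) + (1-Q)(y-a)`; the mass `∫ χ Kr λ ≥ λ^{-m} μ(ball y (λ/2)) > 0` (LD).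
-/

noncomputable section

open MeasureTheory Metric Set Filter Topology

namespace Allard

/-- The cut-off cylinder kernel is the kernel on a ball, on the support. -/
theorem glob_pt {n m : ℕ} {τ : ℝ} {η : ℝ → ℝ} (h : Ker τ η)
    {μ : Measure (E n)} {Q : Op n} (hQ : Pr n m Q)
    (hsl : ∀ z ∈ μ.support, ‖z‖ < 4 → ‖(1 - Q) z‖ ≤ 1 / 8)
    {χ : E n → ℝ} (hχ1 : ∀ z, ‖(1 - Q) z‖ ≤ 1 / 4 → χ z = 1)
    (hχ0 : ∀ z, 1 / 2 ≤ ‖(1 - Q) z‖ → χ z = 0)
    {l : ℝ} (hl : 0 < l) (hl1 : l ≤ 1) {a : E n}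
    (ha : ∀ z ∈ μ.support, ‖z‖ < 4 → ‖(1 - Q) (z - a)‖ ≤ l / 16)
    {y : E n} (hy : y ∈ μ.support) (hy1 : ‖y‖ < 1) {z : E n} (hz : z ∈ μ.support) :
    χ z * Kr m η l ‖Q (z - y)‖ =
      (ball y (2 * l)).indicator (fun z => Kr m η l ‖Q (z - y)‖) z := by
  by_cases hb : z ∈ ball y (2 * l)
  · rw [Set.indicator_of_mem hb]
    rw [mem_ball, dist_eq_norm] at hb
    have h1 : ‖z‖ < 4 := by
      have := norm_add_le (z - y) y
      rw [sub_add_cancel] at this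
      linarith
    rw [hχ1 z ((hsl z hz h1).trans (by norm_num)), one_mul]
  · rw [Set.indicator_of_notMem hb]
    rw [mem_ball, dist_eq_norm, not_lt] at hb
    by_contra hne
    have hk : Kr m η l ‖Q (z - y)‖ ≠ 0 := fun h0 => hne (by rw [h0, mul_zero])
    have hc : χ z ≠ 0 := fun h0 => hne (by rw [h0, zero_mul])
    have h1 : ‖Q (z - y)‖ < l := by
      by_contra h2
      exact hk (Kr_eq_zero h hl (not_lt.1 h2))
    have h2 : ‖(1 - Q) z‖ < 1 / 2 := by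
      by_contra h3
      exact hc (hχ0 z (not_lt.1 h3))
    have h3 : ‖Q y‖ ≤ ‖y‖ := hQ.norm_apply_le y
    have h4 : ‖Q z‖ < 2 := by
      have h5 : Q z = Q (z - y) + Q y := by rw [← map_add, sub_add_cancel]
      have h6 := norm_add_le (Q (z - y)) (Q y)
      rw [← h5] at h6
      linarith
    have hsplit : ∀ w : E n, w = Q w + (1 - Q) w := fun w => by
      rw [ContinuousLinearMap.sub_apply, ContinuousLinearMap.one_apply]
      abel
    have h5 : ‖z‖ < 4 := by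
      have h6 := norm_add_le (Q z) ((1 - Q) z)
      rw [← hsplit z] at h6
      linarith
    have h6 := ha z hz h5
    have h7 := ha y hy (by linarith)
    have h8 : ‖(1 - Q) (z - y)‖ ≤ l / 8 := by
      have h9 : (1 - Q) (z - y) = (1 - Q) (z - a) - (1 - Q) (y - a) := by
        rw [← map_sub]
        congr 1
        abel
      have h10 := norm_sub_le ((1 - Q) (z - a)) ((1 - Q) (y - a))
      rw [← h9] at h10
      linarith
    have h9 := norm_add_le (Q (z - y)) ((1 - Q) (z - y))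
    rw [← hsplit (z - y)] at h9
    linarith

theorem glob_avg {n m : ℕ} (hm : 1 ≤ m) {τ : ℝ} {η : ℝ → ℝ} (h : Ker τ η)
    {δ : ℝ} {S : Stress n m δ} {α Λ : ℝ} {U : Set (E n)} (V : Sys S α Λ U)
    (hLD : V.LD (1 / 32)) {Q : Op n} (hQ : Pr n m Q) (hU : closedBall 0 4 ⊆ U)
    (hsl : ∀ z ∈ V.μ.support, ‖z‖ < 4 → ‖(1 - Q) z‖ ≤ 1 / 8)
    {χ : E n → ℝ} (hχ : Measurable χ) (h0 : ∀ z, 0 ≤ χ z) (h1 : ∀ z, χ z ≤ 1)
    (hχ1 : ∀ z, ‖(1 - Q) z‖ ≤ 1 / 4 → χ z = 1) (hχ0 : ∀ z, 1 / 2 ≤ ‖(1 - Q) z‖ → χ z = 0)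
    {l : ℝ} (hl : 0 < l) (hl1 : l ≤ 1) {a : E n}
    (ha : ∀ z ∈ V.μ.support, ‖z‖ < 4 → ‖(1 - Q) (z - a)‖ ≤ l / 16)
    {y : E n} (hy : y ∈ V.μ.support) (hy1 : ‖y‖ < 1) :
    0 < ∫ z, χ z * Kr m η l ‖Q (z - y)‖ ∂V.μ ∧
    (∫ z, χ z * Kr m η l ‖Q (z - y)‖ ∂V.μ)⁻¹ •
      (∫ z, (χ z * Kr m η l ‖Q (z - y)‖) • (1 - Q) (z - a) ∂V.μ) =
      (1 - Q) (y - a) + V.av η Q y l := by
  have hae : ∀ᵐ z ∂V.μ, χ z * Kr m η l ‖Q (z - y)‖ =
      (ball y (2 * l)).indicator (fun z => Kr m η l ‖Q (z - y)‖) z := by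
    filter_upwards [Measure.support_mem_ae (μ := V.μ)] with z hz
    exact glob_pt h hQ hsl hχ1 hχ0 hl hl1 ha hy hy1 hz
  have hcK : Continuous fun z : E n => Kr m η l ‖Q (z - y)‖ :=
    (continuous_Kr h l).comp (Q.continuous.comp (continuous_id.sub continuous_const)).norm
  have hKnn : ∀ z : E n, 0 ≤ Kr m η l ‖Q (z - y)‖ := fun z => Kr_nonneg h hl _
  have hKle : ∀ z : E n, ‖Kr m η l ‖Q (z - y)‖‖ ≤ (l ^ m)⁻¹ := fun z => by
    rw [Real.norm_of_nonneg (hKnn z)]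
    exact Kr_le h hl _
  have hintK : IntegrableOn (fun z : E n => Kr m η l ‖Q (z - y)‖) (ball y (2 * l)) V.μ :=
    (Integrable.of_bound hcK.aestronglyMeasurable _ (Filter.Eventually.of_forall hKle)).integrableOn
  have hM : ∫ z, χ z * Kr m η l ‖Q (z - y)‖ ∂V.μ =
      ∫ z in ball y (2 * l), Kr m η l ‖Q (z - y)‖ ∂V.μ := by
    rw [integral_congr_ae hae, integral_indicator measurableSet_ball]
  have hN : ∫ z, (χ z * Kr m η l ‖Q (z - y)‖) • (1 - Q) (z - a) ∂V.μ =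
      ∫ z in ball y (2 * l), Kr m η l ‖Q (z - y)‖ • (1 - Q) (z - a) ∂V.μ := by
    rw [← integral_indicator measurableSet_ball]
    refine integral_congr_ae ?_
    filter_upwards [hae] with z hz
    rw [hz]
    by_cases hb : z ∈ ball y (2 * l)
    · rw [Set.indicator_of_mem hb, Set.indicator_of_mem hb]
    · rw [Set.indicator_of_notMem hb, Set.indicator_of_notMem hb, zero_smul]
  have hpos : 0 < ∫ z in ball y (2 * l), Kr m η l ‖Q (z - y)‖ ∂V.μ := by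
    have hsub : ball y (l / 2) ⊆ ball y (2 * l) := ball_subset_ball (by linarith)
    have hU' : closedBall y (l / 2) ⊆ U := by
      refine Subset.trans ?_ hU
      intro z hz
      rw [mem_closedBall, dist_eq_norm] at hz
      rw [mem_closedBall, dist_zero_right]
      have := norm_add_le (z - y) y
      rw [sub_add_cancel] at this
      linarith
    have hld := hLD y hy (l / 2) (by linarith) hU'
    have hmass : 0 < V.μ.real (ball y (l / 2)) := by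
      refine lt_of_lt_of_le ?_ hld
      have := om_pos (m := m)
      positivity
    have hle : ∫ z in ball y (l / 2), Kr m η l ‖Q (z - y)‖ ∂V.μ ≤
        ∫ z in ball y (2 * l), Kr m η l ‖Q (z - y)‖ ∂V.μ :=
      setIntegral_mono_set hintK (Filter.Eventually.of_forall hKnn)
        (Filter.Eventually.of_forall hsub)
    have heq : ∫ z in ball y (l / 2), Kr m η l ‖Q (z - y)‖ ∂V.μ =
        V.μ.real (ball y (l / 2)) * (l ^ m)⁻¹ := by
      have hc : ∀ z ∈ ball y (l / 2), Kr m η l ‖Q (z - y)‖ = (l ^ m)⁻¹ := by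
        intro z hz
        rw [mem_ball, dist_eq_norm] at hz
        refine Kr_eq h hl ?_
        have h2 := hQ.norm_apply_le (z - y)
        have h3 := h.tle
        nlinarith
      rw [setIntegral_congr_fun measurableSet_ball hc, setIntegral_const, smul_eq_mul]
    have hlm : 0 < (l ^ m)⁻¹ := by positivity
    rw [heq] at hle
    exact lt_of_lt_of_le (mul_pos hmass hlm) hle
  have hMpos : 0 < ∫ z, χ z * Kr m η l ‖Q (z - y)‖ ∂V.μ := by rw [hM]; exact hpos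
  refine ⟨hMpos, ?_⟩
  have hsplit : ∀ z : E n, Kr m η l ‖Q (z - y)‖ • (1 - Q) (z - a) =
      Kr m η l ‖Q (z - y)‖ • (1 - Q) (z - y) + Kr m η l ‖Q (z - y)‖ • (1 - Q) (y - a) := by
    intro z
    rw [← smul_add, ← map_add, sub_add_sub_cancel]
  have hint1 : IntegrableOn (fun z : E n => Kr m η l ‖Q (z - y)‖ • (1 - Q) (z - y))
      (ball y (2 * l)) V.μ := by
    refine Measure.integrableOn_of_bounded (M := (l ^ m)⁻¹ * (2 * l)) (measure_ne_top _ _) ?_ ?_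
    · exact (hcK.smul ((1 - Q).continuous.comp
        (continuous_id.sub continuous_const))).aestronglyMeasurable
    · refine (ae_restrict_iff' measurableSet_ball).2 (Filter.Eventually.of_forall ?_)
      intro z hz
      rw [mem_ball, dist_eq_norm] at hz
      rw [norm_smul]
      exact mul_le_mul (hKle z) ((hQ.perp_norm_apply_le (z - y)).trans hz.le) (norm_nonneg _)
        (by positivity)
  have hint2 : IntegrableOn (fun z : E n => Kr m η l ‖Q (z - y)‖ • (1 - Q) (y - a))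
      (ball y (2 * l)) V.μ := Integrable.smul_const hintK _
  have hN2 : ∫ z in ball y (2 * l), Kr m η l ‖Q (z - y)‖ • (1 - Q) (z - a) ∂V.μ =
      ∫ z in ball y (2 * l), Kr m η l ‖Q (z - y)‖ • (1 - Q) (z - y) ∂V.μ +
      (∫ z in ball y (2 * l), Kr m η l ‖Q (z - y)‖ ∂V.μ) • (1 - Q) (y - a) := by
    simp_rw [hsplit]
    rw [integral_add hint1 hint2, integral_smul_const]
  rw [hN, hM, hN2, smul_add, smul_smul, inv_mul_cancel₀ hpos.ne', one_smul, add_comm]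
  rfl

end Allard
end
end
end
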