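import Pool.Agent.Lib.MP_5932b0_an.AR.A4
import Pool.Agent.Lib.MP_5932b0_an.AR.F7
import Pool.Agent.Lib.MP_5932b0_an.AR.W10
import Pool.Agent.Lib.MP_5932b0_an.ST.Fin

section

/-!
# L1: lower bound of the averaged kernel masses as the scale goes to zero

For (AE) points `y`: `I (2^{-K}) ≥ (1-δ) (2^{-K})^{-m} μ(ball y ((1-τ)2^{-K}/(1+3δ)))`
`≥ (1-δ)(1-ε) om ((1-τ)/(1+3δ))^m` for `K` large.  Fatou (`lintegral_liminf_le`) applied to
`φ y * I(2^{-K})`, nonnegative measurable.  If `∫ φ = 0` the claim is trivial (`I ≥ 0`).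
-/

noncomputable section

open MeasureTheory Metric Set Filter Topology

namespace Allard

variable {n m : ℕ} {δ : ℝ} {S : Stress n m δ} {α Λ : ℝ} {U : Set (E n)} {τ : ℝ} {η : ℝ → ℝ}

/-- Lower bound of the kernel masses at small scales. -/
theorem l1_point (V : Sys S α Λ U) (h : Ker τ η) (hδ : 0 ≤ δ) (hδ' : δ ≤ d0 n) {c : ℝ}
    (hc : c < (1 - δ) * ((1 - τ) / (1 + 3 * δ)) ^ m * om m) {y : E n}
    (hy : ∀ ε : ℝ, 0 < ε →
      ∀ᶠ r in 𝓝[>] (0 : ℝ), (1 - ε) * om m * r ^ m ≤ V.μ.real (ball y r)) :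
    ∀ᶠ K : ℕ in atTop, c ≤ V.I η (V.P y) y ((1 / 2) ^ K) := by
  have hd : d0 n ≤ 1 / 100 := d0_le
  have hτ : τ ≤ 1 / 2 := h.tle
  set θ : ℝ := (1 - τ) / (1 + 3 * δ) with hθdef
  have hθ : 0 < θ := div_pos (by linarith) (by linarith)
  set L : ℝ := (1 - δ) * θ ^ m * om m with hL
  have hom : 0 ≤ om m := measureReal_nonneg
  have hL0 : 0 ≤ L := by
    have : 0 ≤ 1 - δ := by linarith
    positivity
  obtain ⟨ε, hε, hε'⟩ : ∃ ε : ℝ, 0 < ε ∧ c ≤ (1 - ε) * L := by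
    refine ⟨(L - c) / (L + 1), div_pos (by linarith) (by linarith), ?_⟩
    have h1 : (L - c) / (L + 1) * L ≤ L - c := by
      rw [div_mul_eq_mul_div, div_le_iff₀ (by linarith)]
      nlinarith
    linarith
  have h2 : Tendsto (fun K : ℕ => θ * (1 / 2 : ℝ) ^ K) atTop (𝓝[>] (0 : ℝ)) := by
    apply tendsto_nhdsWithin_of_tendsto_nhds_of_eventually_within
    · have h3 : Tendsto (fun K : ℕ => (1 / 2 : ℝ) ^ K) atTop (𝓝 0) :=
        tendsto_pow_atTop_nhds_zero_of_lt_one (by norm_num) (by norm_num)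
      have := h3.const_mul θ
      rwa [mul_zero] at this
    · exact Filter.Eventually.of_forall fun K => by
        change (0 : ℝ) < θ * (1 / 2) ^ K
        positivity
  filter_upwards [h2.eventually (hy ε hε)] with K hK
  have h3 := V.le_I h hδ hδ' (V.hP y) y (r := (1 / 2) ^ K) (by positivity)
  refine le_trans ?_ h3
  have e1 : (1 - τ) * (1 / 2) ^ K / (1 + 3 * δ) = θ * (1 / 2) ^ K := by
    rw [hθdef]
    ring
  rw [e1]
  have hpm : (0 : ℝ) < ((1 / 2) ^ K) ^ m := by positivity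
  have h4 : ((((1 : ℝ) / 2) ^ K) ^ m)⁻¹ * ((1 - ε) * om m * (θ * (1 / 2) ^ K) ^ m) ≤
      ((((1 : ℝ) / 2) ^ K) ^ m)⁻¹ * V.μ.real (ball y (θ * (1 / 2) ^ K)) :=
    mul_le_mul_of_nonneg_left hK (inv_nonneg.2 hpm.le)
  have h5 : (1 - δ) * (((((1 : ℝ) / 2) ^ K) ^ m)⁻¹ *
      ((1 - ε) * om m * (θ * (1 / 2) ^ K) ^ m)) = (1 - ε) * L := by
    rw [mul_pow, hL]
    field_simp
  calc c ≤ (1 - ε) * L := hε'
    _ = (1 - δ) * (((((1 : ℝ) / 2) ^ K) ^ m)⁻¹ *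
        ((1 - ε) * om m * (θ * (1 / 2) ^ K) ^ m)) := h5.symm
    _ ≤ _ := mul_le_mul_of_nonneg_left h4 (by linarith)

theorem l1_integrable (V : Sys S α Λ U) (h : Ker τ η) (hδ : 0 ≤ δ) (hδ' : δ ≤ d0 n)
    {φ : E n → ℝ} (hφm : Measurable φ) (h0 : ∀ y, 0 ≤ φ y) (h1 : ∀ y, φ y ≤ 1) {r : ℝ}
    (hr : 0 < r) : Integrable (fun y => φ y * V.I η (V.P y) y r) V.μ := by
  apply V.integrable_bdd (hφm.mul (V.measurable_I h r))
    (c := (1 + δ) * ((r ^ m)⁻¹ * V.μ.real univ))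
  intro z
  have h2 := V.I_nonneg h hδ hδ' (V.P z) z hr
  change |φ z * V.I η (V.P z) z r| ≤ _
  rw [abs_of_nonneg (mul_nonneg (h0 z) h2)]
  calc φ z * V.I η (V.P z) z r ≤ 1 * V.I η (V.P z) z r := mul_le_mul_of_nonneg_right (h1 z) h2
    _ = V.I η (V.P z) z r := one_mul _
    _ ≤ (1 + δ) * ((r ^ m)⁻¹ * V.μ.real (ball z (r / (1 - 3 * δ)))) :=
        V.I_le h hδ hδ' (V.hP z) z hr
    _ ≤ (1 + δ) * ((r ^ m)⁻¹ * V.μ.real univ) := by
        apply mul_le_mul_of_nonneg_left _ (by linarith)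
        apply mul_le_mul_of_nonneg_left _ (by positivity)
        exact measureReal_mono (subset_univ _)

theorem fatou_I (V : Sys S α Λ U) (h : Ker τ η) (hδ : 0 ≤ δ) (hδ' : δ ≤ d0 n) (hAE : V.AE)
    {φ : E n → ℝ} (hφm : Measurable φ) (h0 : ∀ y, 0 ≤ φ y) (h1 : ∀ y, φ y ≤ 1)
    {c : ℝ} (hc : c < (1 - δ) * ((1 - τ) / (1 + 3 * δ)) ^ m * om m) :
    ∃ K : ℕ, c * ∫ y, φ y ∂V.μ ≤ ∫ y, φ y * V.I η (V.P y) y ((1 / 2) ^ K) ∂V.μ := by
  by_contra hcon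
  push Not at hcon
  have hIφ : 0 ≤ ∫ y, φ y ∂V.μ := integral_nonneg h0
  have hφint : Integrable φ V.μ := V.integrable_bdd hφm (c := 1) fun z => by
    rw [abs_of_nonneg (h0 z)]
    exact h1 z
  have hI0 : ∀ K : ℕ, 0 ≤ ∫ y, φ y * V.I η (V.P y) y ((1 / 2) ^ K) ∂V.μ := fun K =>
    integral_nonneg fun y => mul_nonneg (h0 y) (V.I_nonneg h hδ hδ' _ _ (by positivity))
  have hpos : 0 < c * ∫ y, φ y ∂V.μ := (hI0 0).trans_lt (hcon 0)
  have hIpos : 0 < ∫ y, φ y ∂V.μ := by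
    rcases hIφ.lt_or_eq with h2 | h2
    · exact h2
    · rw [← h2, mul_zero] at hpos
      exact absurd hpos (lt_irrefl _)
  obtain ⟨c', hc1, hc2⟩ := exists_between hc
  have hF := lintegral_liminf_le (μ := V.μ) (u := atTop)
    (f := fun (K : ℕ) y => ENNReal.ofReal (φ y * V.I η (V.P y) y ((1 / 2) ^ K)))
    (fun K => (hφm.mul (V.measurable_I h _)).ennreal_ofReal)
  have hR : liminf (fun K : ℕ => ∫⁻ y, ENNReal.ofReal (φ y * V.I η (V.P y) y ((1 / 2) ^ K))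
      ∂V.μ) atTop ≤ ENNReal.ofReal (c * ∫ y, φ y ∂V.μ) := by
    have e1 : ∀ K : ℕ, ∫⁻ y, ENNReal.ofReal (φ y * V.I η (V.P y) y ((1 / 2) ^ K)) ∂V.μ ≤
        ENNReal.ofReal (c * ∫ y, φ y ∂V.μ) := by
      intro K
      rw [← ofReal_integral_eq_lintegral_ofReal
        (l1_integrable V h hδ hδ' hφm h0 h1 (by positivity))
        (Filter.Eventually.of_forall fun y =>
          mul_nonneg (h0 y) (V.I_nonneg h hδ hδ' _ _ (by positivity)))]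
      exact ENNReal.ofReal_le_ofReal (hcon K).le
    calc liminf (fun K : ℕ => ∫⁻ y, ENNReal.ofReal (φ y * V.I η (V.P y) y ((1 / 2) ^ K))
          ∂V.μ) atTop ≤ liminf (fun _ : ℕ => ENNReal.ofReal (c * ∫ y, φ y ∂V.μ)) atTop :=
          liminf_le_liminf (Filter.Eventually.of_forall e1)
      _ = _ := liminf_const _
  have hLw : ENNReal.ofReal (c' * ∫ y, φ y ∂V.μ) ≤
      ∫⁻ y, liminf (fun K : ℕ => ENNReal.ofReal (φ y * V.I η (V.P y) y ((1 / 2) ^ K)))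
        atTop ∂V.μ := by
    have e0 : 0 ≤ c' := by
      by_contra h2
      rw [not_le] at h2
      have : c * ∫ y, φ y ∂V.μ < 0 := mul_neg_of_neg_of_pos (hc1.trans h2) hIpos
      linarith
    rw [← integral_const_mul, ofReal_integral_eq_lintegral_ofReal (hφint.const_mul c')
      (Filter.Eventually.of_forall fun y => mul_nonneg e0 (h0 y))]
    apply lintegral_mono_ae
    filter_upwards [hAE] with y hy
    apply le_liminf_of_le
    · isBoundedDefault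
    filter_upwards [l1_point V h hδ hδ' hc2 hy] with K hK
    apply ENNReal.ofReal_le_ofReal
    rw [mul_comm]
    exact mul_le_mul_of_nonneg_left hK (h0 y)
  have hfin := (hLw.trans hF).trans hR
  rw [ENNReal.ofReal_le_ofReal_iff hpos.le] at hfin
  have := mul_lt_mul_of_pos_right hc1 hIpos
  linarith

end Allard
end
end

section

/-!
# F5: averaging of `tri`

Convert `∫ φ tri` to `lintegral`s (`ofReal_integral_eq_lintegral_ofReal`; everything is bounded and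
measurable; `μ.real (ball y ρ)⁻¹` against `(μ (ball y ρ))⁻¹`: they agree for `μ (ball y ρ) ≠ 0`, true for
`μ`-a.e. `y`).  Split the integrand `ga (P z)(z - z') + ga (P y)(y - z')`, enlarge the sets (drop one of
the two distance conditions), apply `termI`, `termII` with `f z' z = ofReal (ga (P z)(z - z'))`.
`pairInt` is the sum over the annuli `2ρ (1/2)^i`, `i ≤ J` (`ς = 2^{-J}`):
`(ρ^m)⁻¹ ∫_{annulus i} ga (P z)(z - z') dμ(z) ≤ 2^m gg (2ρ/2^i) z'` since `ρ^{-m} = 2^m (2ρ)^{-m} ≤ 2^m (2ρ/2^i)^{-m}`.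
-/

noncomputable section

open MeasureTheory Metric Set Filter Topology

namespace Allard

open scoped ENNReal

private theorem f5_ofReal_int {X : Type*} [MeasurableSpace X] (μ : Measure X) {f : X → ℝ}
    (hf : ∀ x, 0 ≤ f x) : ENNReal.ofReal (∫ x, f x ∂μ) ≤ ∫⁻ x, ENNReal.ofReal (f x) ∂μ := by
  by_cases h : Integrable f μ
  · exact (ofReal_integral_eq_lintegral_ofReal h (ae_of_all _ hf)).le
  · rw [integral_undef h, ENNReal.ofReal_zero]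
    exact bot_le

private theorem f5_inv {μr : ℝ} {a : ℝ≥0∞} (h : μr = a.toReal) :
    ENNReal.ofReal μr⁻¹ ≤ a⁻¹ := by
  subst h
  by_cases h0 : a.toReal = 0
  · rw [h0, inv_zero, ENNReal.ofReal_zero]
    exact bot_le
  · have h1 : 0 < a.toReal := lt_of_le_of_ne ENNReal.toReal_nonneg (Ne.symm h0)
    rw [ENNReal.ofReal_inv_of_pos h1]
    rw [ENNReal.ofReal_toReal]
    intro h2
    rw [h2] at h0
    exact h0 ENNReal.toReal_top

/-- The gain density as a function of (center, point). -/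
@[irreducible] private def fG {n m : ℕ} {δ : ℝ} {S : Stress n m δ} {α Λ : ℝ} {U : Set (E n)} (V : Sys S α Λ U) :
    E n → E n → ℝ≥0∞ := fun z' z => ENNReal.ofReal (ga (V.P z) (z - z'))

section

variable {n m : ℕ} {δ : ℝ} {S : Stress n m δ} {α Λ : ℝ} {U : Set (E n)}

private theorem f5_meas (V : Sys S α Λ U) : Measurable (Function.uncurry (fG V)) := by
  have h : Function.uncurry (fG V) =
      fun x : E n × E n => ENNReal.ofReal (ga (V.P x.2) (x.2 - x.1)) := by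
    funext x
    simp only [Function.uncurry, fG]
  rw [h]
  exact V.measurable_ga₂.ennreal_ofReal

/-- first term -/
private def tA (V : Sys S α Λ U) (ς ρ : ℝ) (y : E n) : ℝ≥0∞ :=
  ∫⁻ z in ball y ρ, (V.μ (ball y ρ))⁻¹ *
    ∫⁻ z' in {z' | z' ∈ ball y ρ ∧ ς * ρ ≤ ‖z' - z‖}, fG V z' z ∂V.μ ∂V.μ

/-- second term -/
private def tB (V : Sys S α Λ U) (ς ρ : ℝ) (y : E n) : ℝ≥0∞ :=
  ∫⁻ _z in ball y ρ, (V.μ (ball y ρ))⁻¹ *
    ∫⁻ z' in {z' | z' ∈ ball y ρ ∧ ς * ρ ≤ ‖z' - y‖}, fG V z' y ∂V.μ ∂V.μ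

private theorem f5_tri (V : Sys S α Λ U) (J : ℕ) {ρ : ℝ} (hρ : 0 < ρ) (y : E n) :
    ENNReal.ofReal (V.tri J ρ y) ≤
      ENNReal.ofReal (ρ ^ m)⁻¹ * (tA V ((1 / 2) ^ J) ρ y + tB V ((1 / 2) ^ J) ρ y) := by
  unfold Sys.tri
  rw [ENNReal.ofReal_mul (by positivity)]
  gcongr
  refine (f5_ofReal_int _ fun z => ?_).trans ?_
  · refine mul_nonneg (inv_nonneg.2 measureReal_nonneg) ?_
    exact integral_nonneg fun z' => add_nonneg (ga_nonneg _) (ga_nonneg _)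
  · unfold tA tB
    rw [← lintegral_add_right _ measurable_const]
    refine lintegral_mono fun z => ?_
    rw [ENNReal.ofReal_mul (inv_nonneg.2 measureReal_nonneg), ← mul_add]
    refine mul_le_mul' (f5_inv rfl) ?_
    refine (f5_ofReal_int _ fun z' => add_nonneg (ga_nonneg _) (ga_nonneg _)).trans ?_
    have h1 : ∀ z', ENNReal.ofReal (ga (V.P z) (z - z') + ga (V.P y) (y - z')) =
        fG V z' z + fG V z' y := fun z' => by
      simp only [fG]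
      exact ENNReal.ofReal_add (ga_nonneg _) (ga_nonneg _)
    simp only [h1]
    have hm : Measurable fun z' => fG V z' y := (f5_meas V).of_uncurry_right
    rw [lintegral_add_right _ hm]
    refine add_le_add ?_ ?_
    · refine lintegral_mono_set ?_
      rintro z' ⟨h1, h2, -⟩
      exact ⟨h1, h2⟩
    · refine lintegral_mono_set ?_
      rintro z' ⟨h1, -, h2⟩
      exact ⟨h1, h2⟩

/-- the set of pairs of the second term -/
private def sT (n : ℕ) (ς ρ : ℝ) : Set (E n × E n) := {x | dist x.2 x.1 < ρ ∧ ς * ρ ≤ ‖x.2 - x.1‖}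

private theorem f5_meas_sT (n : ℕ) (ς ρ : ℝ) : MeasurableSet (sT n ς ρ) :=
  MeasurableSet.inter (measurableSet_lt (measurable_snd.dist measurable_fst) measurable_const)
    (measurableSet_le measurable_const (measurable_snd.sub measurable_fst).norm)

private theorem f5_tB (V : Sys S α Λ U) (ς ρ : ℝ) (y : E n) :
    tB V ς ρ y = (V.μ (ball y ρ))⁻¹ *
      (∫⁻ z', (sT n ς ρ).indicator (fun x => fG V x.2 x.1) (y, z') ∂V.μ) * V.μ (ball y ρ) := by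
  have h1 : MeasurableSet {z' : E n | z' ∈ ball y ρ ∧ ς * ρ ≤ ‖z' - y‖} := by
    refine MeasurableSet.inter measurableSet_ball ?_
    exact measurableSet_le measurable_const (measurable_id.sub_const y).norm
  have h2 : ∫⁻ z' in {z' | z' ∈ ball y ρ ∧ ς * ρ ≤ ‖z' - y‖}, fG V z' y ∂V.μ =
      ∫⁻ z', (sT n ς ρ).indicator (fun x => fG V x.2 x.1) (y, z') ∂V.μ := by
    rw [← lintegral_indicator h1]
    refine lintegral_congr fun z' => ?_
    by_cases h : z' ∈ {z' : E n | z' ∈ ball y ρ ∧ ς * ρ ≤ ‖z' - y‖}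
    · have h' : (y, z') ∈ sT n ς ρ := h
      rw [indicator_of_mem h, indicator_of_mem h']
    · have h' : (y, z') ∉ sT n ς ρ := h
      rw [indicator_of_notMem h, indicator_of_notMem h']
  unfold tB
  rw [lintegral_const, Measure.restrict_apply_univ, h2]

private theorem f5_measB (V : Sys S α Λ U) (ς ρ : ℝ) : Measurable fun y => tB V ς ρ y := by
  have h0 : Measurable fun x : E n × E n => fG V x.2 x.1 :=
    (f5_meas V).comp measurable_swap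
  have h2 : Measurable ((sT n ς ρ).indicator (fun x => fG V x.2 x.1)) :=
    h0.indicator (f5_meas_sT n ς ρ)
  have h3 : Measurable fun y =>
      ∫⁻ z', (sT n ς ρ).indicator (fun x => fG V x.2 x.1) (y, z') ∂V.μ :=
    h2.lintegral_prod_right'
  have h4 : Measurable fun y : E n => V.μ (ball y ρ) := by
    have h5 := (V.measurable_ball ρ).ennreal_ofReal
    have h6 : (fun y : E n => V.μ (ball y ρ)) = fun y => ENNReal.ofReal (V.μ.real (ball y ρ)) := by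
      funext y
      rw [ofReal_measureReal]
    rw [h6]
    exact h5
  have h7 : (fun y => tB V ς ρ y) = fun y => (V.μ (ball y ρ))⁻¹ *
      (∫⁻ z', (sT n ς ρ).indicator (fun x => fG V x.2 x.1) (y, z') ∂V.μ) * V.μ (ball y ρ) :=
    funext fun y => f5_tB V ς ρ y
  rw [h7]
  exact (h4.inv.mul h3).mul h4

/-- The annuli. -/
private theorem f5_annuli (J : ℕ) {ρ t : ℝ} (h1 : (1 / 2) ^ J * ρ ≤ t) (h2 : t < 2 * ρ) :
    ∃ i : Fin (J + 1), 2 * ρ * (1 / 2) ^ (i : ℕ) / 2 ≤ t ∧ t < 2 * ρ * (1 / 2) ^ (i : ℕ) := by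
  classical
  have hex : ∃ i : ℕ, (1 / 2) ^ i * ρ ≤ t := ⟨J, h1⟩
  have hle : Nat.find hex ≤ J := Nat.find_min' hex h1
  refine ⟨⟨Nat.find hex, by omega⟩, ?_, ?_⟩
  · have := Nat.find_spec hex
    simp only
    linarith
  · simp only
    rcases Nat.eq_zero_or_pos (Nat.find hex) with h3 | h3
    · rw [h3, pow_zero, mul_one]
      exact h2
    · have h4 := Nat.find_min hex (m := Nat.find hex - 1) (by omega)
      rw [not_le] at h4
      refine h4.trans_eq ?_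
      obtain ⟨k, hk⟩ : ∃ k, Nat.find hex = k + 1 := ⟨Nat.find hex - 1, by omega⟩
      rw [hk, Nat.add_sub_cancel, pow_succ]
      ring

private theorem f5_ann_int (V : Sys S α Λ U) {r : ℝ} (hr : 0 < r) (z' : E n) :
    ∫⁻ z in {z | r / 2 ≤ ‖z - z'‖ ∧ ‖z - z'‖ < r}, fG V z' z ∂V.μ =
      ENNReal.ofReal (r ^ m * V.gg r z') := by
  have h1 : Integrable (fun z => ga (V.P z) (z - z')) V.μ :=
    V.integrable_bdd (V.measurable_ga z') (c := 1) fun z => by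
      rw [abs_of_nonneg (ga_nonneg _)]
      exact ga_le_one (V.hP z) _
  have h2 := ofReal_integral_eq_lintegral_ofReal
    (h1.integrableOn (s := {z | r / 2 ≤ ‖z - z'‖ ∧ ‖z - z'‖ < r})) (ae_of_all _ fun z => ga_nonneg _)
  simp only [fG]
  rw [← h2]
  unfold Sys.gg
  rw [← mul_assoc, mul_inv_cancel₀ (pow_pos hr m).ne', one_mul]

private theorem f5_inner (V : Sys S α Λ U) (J : ℕ) {ρ : ℝ} (hρ : 0 < ρ) (z' : E n) :
    ∫⁻ z in {z | (1 / 2) ^ J * ρ ≤ ‖z - z'‖ ∧ ‖z - z'‖ < 2 * ρ}, fG V z' z ∂V.μ ≤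
      ∑ i : Fin (J + 1), ENNReal.ofReal ((2 * ρ) ^ m * V.gg (2 * ρ * (1 / 2) ^ (i : ℕ)) z') := by
  calc ∫⁻ z in {z | (1 / 2) ^ J * ρ ≤ ‖z - z'‖ ∧ ‖z - z'‖ < 2 * ρ}, fG V z' z ∂V.μ ≤
      ∫⁻ z in ⋃ i : Fin (J + 1), {z | 2 * ρ * (1 / 2) ^ (i : ℕ) / 2 ≤ ‖z - z'‖ ∧
        ‖z - z'‖ < 2 * ρ * (1 / 2) ^ (i : ℕ)}, fG V z' z ∂V.μ := by
        refine lintegral_mono_set fun z hz => ?_
        obtain ⟨i, hi⟩ := f5_annuli J hz.1 hz.2
        exact mem_iUnion.2 ⟨i, hi⟩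
    _ ≤ ∑' i : Fin (J + 1), ∫⁻ z in {z | 2 * ρ * (1 / 2) ^ (i : ℕ) / 2 ≤ ‖z - z'‖ ∧
        ‖z - z'‖ < 2 * ρ * (1 / 2) ^ (i : ℕ)}, fG V z' z ∂V.μ := lintegral_iUnion_le _ _
    _ = ∑ i : Fin (J + 1), ∫⁻ z in {z | 2 * ρ * (1 / 2) ^ (i : ℕ) / 2 ≤ ‖z - z'‖ ∧
        ‖z - z'‖ < 2 * ρ * (1 / 2) ^ (i : ℕ)}, fG V z' z ∂V.μ := tsum_fintype _
    _ ≤ _ := by
        refine Finset.sum_le_sum fun i _ => ?_
        have hr : 0 < 2 * ρ * (1 / 2) ^ (i : ℕ) := by positivity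
        rw [f5_ann_int V hr]
        refine ENNReal.ofReal_le_ofReal ?_
        refine mul_le_mul_of_nonneg_right ?_ (V.gg_nonneg hr z')
        refine pow_le_pow_left₀ hr.le ?_ m
        have : (1 / 2 : ℝ) ^ (i : ℕ) ≤ 1 := pow_le_one₀ (by norm_num) (by norm_num)
        nlinarith

private theorem f5_pair (V : Sys S α Λ U) (J : ℕ) {φ : E n → ℝ} {L ρ : ℝ} (hρ : 0 < ρ)
    (hL : 0 ≤ L) (h0 : ∀ y, 0 ≤ φ y) (h1 : ∀ y, φ y ≤ 1) (hφ : Measurable φ) :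
    pairInt V.μ (fG V) φ L ((1 / 2) ^ J) ρ ≤ ENNReal.ofReal ((2 * ρ) ^ m *
      ∑ i ∈ Finset.range (J + 1),
        ∫ y in ball 0 2, (φ y + L * ρ) * V.gg (2 * ρ * (1 / 2) ^ i) y ∂V.μ) := by
  have hLρ : 0 ≤ L * ρ := by positivity
  have hsum : ∀ y, 0 ≤ φ y + L * ρ := fun y => add_nonneg (h0 y) hLρ
  have hgn : ∀ (i : ℕ) (y : E n), 0 ≤ V.gg (2 * ρ * (1 / 2) ^ i) y := fun i y =>
    V.gg_nonneg (by positivity) y
  have hint : ∀ i : ℕ, Integrable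
      (fun y => (φ y + L * ρ) * V.gg (2 * ρ * (1 / 2) ^ i) y) V.μ := by
    intro i
    refine V.integrable_bdd ((hφ.add_const _).mul (V.measurable_gg _))
      (c := (1 + L * ρ) * (((2 * ρ * (1 / 2) ^ i) ^ m)⁻¹ * V.μ.real univ)) fun y => ?_
    rw [abs_of_nonneg (mul_nonneg (hsum y) (hgn i y))]
    refine mul_le_mul (by linarith [h1 y]) ?_ (hgn i y) (by linarith)
    refine (V.gg_le (by positivity) y).trans ?_
    refine mul_le_mul_of_nonneg_left ?_ (by positivity)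
    exact measureReal_mono (subset_univ _)
  unfold pairInt
  calc ∫⁻ z' in ball 0 2, ENNReal.ofReal (φ z' + L * ρ) *
        ∫⁻ z in {z | (1 / 2) ^ J * ρ ≤ ‖z - z'‖ ∧ ‖z - z'‖ < 2 * ρ}, fG V z' z ∂V.μ ∂V.μ ≤
      ∫⁻ z' in ball 0 2, ∑ i ∈ Finset.range (J + 1), ENNReal.ofReal ((2 * ρ) ^ m *
        ((φ z' + L * ρ) * V.gg (2 * ρ * (1 / 2) ^ i) z')) ∂V.μ := by
        refine lintegral_mono fun z' => ?_
        refine (mul_le_mul_right (f5_inner V J hρ z') _).trans_eq ?_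
        rw [Finset.mul_sum, ← Finset.sum_range
          (fun i => ENNReal.ofReal (φ z' + L * ρ) *
            ENNReal.ofReal ((2 * ρ) ^ m * V.gg (2 * ρ * (1 / 2) ^ i) z'))]
        refine Finset.sum_congr rfl fun i _ => ?_
        rw [← ENNReal.ofReal_mul (hsum z')]
        congr 1
        ring
    _ = ∑ i ∈ Finset.range (J + 1), ∫⁻ z' in ball 0 2, ENNReal.ofReal ((2 * ρ) ^ m *
        ((φ z' + L * ρ) * V.gg (2 * ρ * (1 / 2) ^ i) z')) ∂V.μ := by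
        refine lintegral_finsetSum _ fun i _ => ?_
        exact (((hφ.add_const _).mul (V.measurable_gg _)).const_mul _).ennreal_ofReal
    _ = ∑ i ∈ Finset.range (J + 1), ENNReal.ofReal ((2 * ρ) ^ m *
        ∫ z' in ball 0 2, (φ z' + L * ρ) * V.gg (2 * ρ * (1 / 2) ^ i) z' ∂V.μ) := by
        refine Finset.sum_congr rfl fun i _ => ?_
        rw [← integral_const_mul]
        refine (ofReal_integral_eq_lintegral_ofReal ((hint i).const_mul _).integrableOn ?_).symm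
        exact ae_of_all _ fun y => mul_nonneg (by positivity) (mul_nonneg (hsum y) (hgn i y))
    _ = _ := by
        rw [Finset.mul_sum, ENNReal.ofReal_sum_of_nonneg]
        intro i _
        exact mul_nonneg (by positivity)
          (integral_nonneg fun y => mul_nonneg (hsum y) (hgn i y))

end

theorem amf_avg (n m J : ℕ) : ∃ C : ℝ, 0 < C ∧
    ∀ {δ : ℝ} {S : Stress n m δ} {α Λ : ℝ} {U : Set (E n)} (V : Sys S α Λ U)
    (φ : E n → ℝ) (L ρ : ℝ), 0 < ρ → ρ ≤ 1 → 0 ≤ L → (∀ y, 0 ≤ φ y) → (∀ y, φ y ≤ 1) →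
    (∀ y z, |φ y - φ z| ≤ L * ‖y - z‖) → (∀ y, 1 < ‖y‖ → φ y = 0) →
    ∫ y, φ y * V.tri J ρ y ∂V.μ ≤
      C * ∑ i ∈ Finset.range (J + 1),
        ∫ y in ball 0 2, (φ y + L * ρ) * V.gg (2 * ρ * (1 / 2) ^ i) y ∂V.μ := by
  obtain ⟨c, hc, hI⟩ := termI n
  refine ⟨(c + 1) * 2 ^ m, by positivity, ?_⟩
  intro δ S α Λ U V φ L ρ hρ hρ1 hL h0 h1 hlip hsupp
  have hcont : Continuous φ := by
    have : LipschitzWith ⟨L, hL⟩ φ := LipschitzWith.of_dist_le_mul fun y z => by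
      rw [Real.dist_eq, dist_eq_norm]
      exact hlip y z
    exact this.continuous
  have hφ : Measurable φ := hcont.measurable
  have hς : (0 : ℝ) < (1 / 2) ^ J := by positivity
  have hLρ : 0 ≤ L * ρ := by positivity
  have hR : 0 ≤ ∑ i ∈ Finset.range (J + 1),
      ∫ y in ball 0 2, (φ y + L * ρ) * V.gg (2 * ρ * (1 / 2) ^ i) y ∂V.μ :=
    Finset.sum_nonneg fun i _ => integral_nonneg fun y =>
      mul_nonneg (add_nonneg (h0 y) hLρ) (V.gg_nonneg (by positivity) y)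
  have hA := hI V.μ (fG V) (f5_meas V) φ L ((1 / 2) ^ J) ρ hρ hρ1 hL hς h0 hlip hsupp
  have hB := termII n V.μ (fG V) (f5_meas V) φ L ((1 / 2) ^ J) ρ hρ hρ1 hL hς h0 hlip hsupp
  have hA' : ∫⁻ y, ENNReal.ofReal (φ y) * tA V ((1 / 2) ^ J) ρ y ∂V.μ ≤
      ENNReal.ofReal c * pairInt V.μ (fG V) φ L ((1 / 2) ^ J) ρ := hA
  have hB' : ∫⁻ y, ENNReal.ofReal (φ y) * tB V ((1 / 2) ^ J) ρ y ∂V.μ ≤
      pairInt V.μ (fG V) φ L ((1 / 2) ^ J) ρ := hB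
  have hmB : Measurable fun y => ENNReal.ofReal (φ y) * tB V ((1 / 2) ^ J) ρ y :=
    hφ.ennreal_ofReal.mul (f5_measB V _ ρ)
  rw [← ENNReal.ofReal_le_ofReal_iff (mul_nonneg (by positivity) hR)]
  calc ENNReal.ofReal (∫ y, φ y * V.tri J ρ y ∂V.μ) ≤
        ∫⁻ y, ENNReal.ofReal (φ y * V.tri J ρ y) ∂V.μ :=
        f5_ofReal_int _ fun y => mul_nonneg (h0 y) (V.tri_nonneg J hρ y)
    _ ≤ ∫⁻ y, ENNReal.ofReal (ρ ^ m)⁻¹ * (ENNReal.ofReal (φ y) * tA V ((1 / 2) ^ J) ρ y +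
          ENNReal.ofReal (φ y) * tB V ((1 / 2) ^ J) ρ y) ∂V.μ := by
        refine lintegral_mono fun y => ?_
        rw [ENNReal.ofReal_mul (h0 y)]
        refine (mul_le_mul_right (f5_tri V J hρ y) _).trans_eq ?_
        ring
    _ = ENNReal.ofReal (ρ ^ m)⁻¹ * (∫⁻ y, ENNReal.ofReal (φ y) * tA V ((1 / 2) ^ J) ρ y ∂V.μ +
          ∫⁻ y, ENNReal.ofReal (φ y) * tB V ((1 / 2) ^ J) ρ y ∂V.μ) := by
        rw [lintegral_const_mul' _ _ ENNReal.ofReal_ne_top, lintegral_add_right _ hmB]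
    _ ≤ ENNReal.ofReal (ρ ^ m)⁻¹ *
          (ENNReal.ofReal (c + 1) * pairInt V.μ (fG V) φ L ((1 / 2) ^ J) ρ) := by
        refine mul_le_mul_right ((add_le_add hA' hB').trans_eq ?_) _
        rw [ENNReal.ofReal_add hc.le zero_le_one, ENNReal.ofReal_one, add_mul, one_mul]
    _ ≤ ENNReal.ofReal (ρ ^ m)⁻¹ * (ENNReal.ofReal (c + 1) * ENNReal.ofReal ((2 * ρ) ^ m *
          ∑ i ∈ Finset.range (J + 1),
            ∫ y in ball 0 2, (φ y + L * ρ) * V.gg (2 * ρ * (1 / 2) ^ i) y ∂V.μ)) :=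
        mul_le_mul_right (mul_le_mul_right (f5_pair V J hρ hL h0 h1 hφ) _) _
    _ = _ := by
        rw [← ENNReal.ofReal_mul (by positivity), ← ENNReal.ofReal_mul (by positivity)]
        congr 1
        rw [mul_pow]
        have : ρ ^ m ≠ 0 := (pow_pos hρ m).ne'
        field_simp

end Allard
end
end

section

/-!
# F6: loss at one scale, averaged

For `y` with `φ y ≠ 0`: `‖y‖ ≤ 1`, `closedBall y (16ρ) ⊆ closedBall 0 32 ⊆ U` (`ρ ≤ 1/16`).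
For `μ`-a.e. `y`, `μ (ball y ρ) > 0` (`y` in the support, `Measure.measure_compl_support`).
Multiply `amf_tri` by `φ y`, integrate, use `amf_avg`.  `2ρ (1/2)^i = 16ρ (1/2)^{i+3}`.
`∫_{ball 0 2} (φ + Lρ) gg ≤ ∫ φ gg + Lρ ∫_{ball 0 2} gg`.
-/

noncomputable section

open MeasureTheory Metric Set Filter Topology

namespace Allard

theorem f6_int {n m : ℕ} {δ : ℝ} {S : Stress n m δ} {α Λ : ℝ} {U : Set (E n)} (V : Sys S α Λ U)
    {φ f : E n → ℝ} (hφm : Measurable φ) (h0 : ∀ y, 0 ≤ φ y) (h1 : ∀ y, φ y ≤ 1)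
    (hf : Measurable f) (hf0 : ∀ y, 0 ≤ f y) {c : ℝ} (hc : ∀ y, f y ≤ c) :
    Integrable (fun y => φ y * f y) V.μ := by
  refine V.integrable_bdd (hφm.mul hf) (c := c) fun y => ?_
  rw [abs_of_nonneg (mul_nonneg (h0 y) (hf0 y))]
  calc φ y * f y ≤ 1 * f y := mul_le_mul_of_nonneg_right (h1 y) (hf0 y)
    _ = f y := one_mul _
    _ ≤ c := hc y

theorem f6_ball_le {n m : ℕ} {δ : ℝ} {S : Stress n m δ} {α Λ : ℝ} {U : Set (E n)} (V : Sys S α Λ U)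
    {ρ : ℝ} (hρ : 0 < ρ) (y : E n) :
    (ρ ^ m)⁻¹ * V.μ.real (ball y ρ) ≤ (ρ ^ m)⁻¹ * V.μ.real univ :=
  mul_le_mul_of_nonneg_left (measureReal_mono (subset_univ _)) (by positivity)

theorem amf_scale (n m : ℕ) (hm : 1 ≤ m) : ∃ (J : ℕ) (C δ₃ : ℝ), 0 < C ∧ 0 < δ₃ ∧
    δ₃ ≤ d0 n ∧
    ∀ {δ : ℝ} {S : Stress n m δ} {α Λ : ℝ} {U : Set (E n)} (V : Sys S α Λ U),
    0 ≤ δ → δ ≤ δ₃ → closedBall 0 32 ⊆ U →
    ∀ (φ : E n → ℝ) (L ρ : ℝ), 0 < ρ → ρ ≤ 1 / 16 → 0 ≤ L → (∀ y, 0 ≤ φ y) →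
    (∀ y, φ y ≤ 1) → (∀ y z, |φ y - φ z| ≤ L * ‖y - z‖) → (∀ y, 1 < ‖y‖ → φ y = 0) →
    ∫ y, φ y * V.ls ρ y ∂V.μ ≤
      C * (∑ i ∈ Finset.range J, (∫ y, φ y * V.gg (16 * ρ * (1 / 2) ^ i) y ∂V.μ
          + L * ρ * ∫ y in ball 0 2, V.gg (16 * ρ * (1 / 2) ^ i) y ∂V.μ)
        + ∫ y, φ y * V.hh (16 * ρ) y ∂V.μ) := by
  obtain ⟨J₁, C₁, δ₃, -, hC₁, hδ₃, hδ₃', h1⟩ := amf_tri n m hm
  obtain ⟨C₂, hC₂, h2⟩ := amf_avg n m J₁
  refine ⟨J₁ + 7, C₁ * (1 + C₂), δ₃, by positivity, hδ₃, hδ₃', ?_⟩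
  intro δ S α Λ U V hδ hδ' hU φ L ρ hρ hρ' hL hφ0 hφ1 hφL hφs
  have hφm : Measurable φ := by
    have h3 : LipschitzWith L.toNNReal φ := by
      refine LipschitzWith.of_dist_le_mul fun y z => ?_
      rw [Real.dist_eq, dist_eq_norm, Real.coe_toNNReal L hL]
      exact hφL y z
    exact h3.continuous.measurable
  have hρi : ∀ i : ℕ, 0 < 16 * ρ * (1 / 2) ^ i := fun i => by positivity
  have hggI : ∀ i : ℕ, Integrable (fun y => φ y * V.gg (16 * ρ * (1 / 2) ^ i) y) V.μ := fun i =>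
    f6_int V hφm hφ0 hφ1 (V.measurable_gg _) (fun y => V.gg_nonneg (hρi i) y)
      (fun y => (V.gg_le (hρi i) y).trans (f6_ball_le V (hρi i) y))
  have hgg : ∀ i : ℕ, Integrable (fun y => V.gg (16 * ρ * (1 / 2) ^ i) y) V.μ := fun i =>
    V.integrable_bdd (V.measurable_gg _) (c := ((16 * ρ * (1 / 2) ^ i) ^ m)⁻¹ * V.μ.real univ) fun y => by
      rw [abs_of_nonneg (V.gg_nonneg (hρi i) y)]
      exact (V.gg_le (hρi i) y).trans (f6_ball_le V (hρi i) y)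
  have h16 : 0 < 16 * ρ := by positivity
  have hhI : Integrable (fun y => φ y * V.hh (16 * ρ) y) V.μ :=
    f6_int V hφm hφ0 hφ1 (V.measurable_hh _) (fun y => V.hh_nonneg h16 y)
      (c := 16 * ρ * ((16 * ρ) ^ m)⁻¹ * ∫ z, ‖V.H z‖ ∂V.μ) (fun y => by
        refine mul_le_mul_of_nonneg_left ?_ (by positivity)
        exact setIntegral_le_integral V.iH.norm (Eventually.of_forall fun z => norm_nonneg _))
  have hlsI : Integrable (fun y => φ y * V.ls ρ y) V.μ :=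
    f6_int V hφm hφ0 hφ1 (V.measurable_ls _) (fun y => V.ls_nonneg hρ y)
      (c := 4 * ((ρ ^ m)⁻¹ * V.μ.real univ)) (fun y =>
        (V.ls_le hρ y).trans (mul_le_mul_of_nonneg_left (f6_ball_le V hρ y) (by norm_num)))
  have htrI : Integrable (fun y => φ y * V.tri J₁ ρ y) V.μ :=
    f6_int V hφm hφ0 hφ1 (V.measurable_tri J₁ ρ) (fun y => V.tri_nonneg J₁ hρ y)
      (c := 2 * ((ρ ^ m)⁻¹ * V.μ.real univ)) (fun y =>
        (V.tri_le J₁ hρ y).trans (mul_le_mul_of_nonneg_left (f6_ball_le V hρ y) (by norm_num)))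
  set a : ℕ → ℝ := fun i => ∫ y, φ y * V.gg (16 * ρ * (1 / 2) ^ i) y ∂V.μ with ha
  set b : ℕ → ℝ := fun i => L * ρ * ∫ y in ball 0 2, V.gg (16 * ρ * (1 / 2) ^ i) y ∂V.μ with hb
  have ha0 : ∀ i, 0 ≤ a i := fun i =>
    integral_nonneg fun y => mul_nonneg (hφ0 y) (V.gg_nonneg (hρi i) y)
  have hb0 : ∀ i, 0 ≤ b i := fun i =>
    mul_nonneg (by positivity) (integral_nonneg fun y => V.gg_nonneg (hρi i) y)
  have hh0 : 0 ≤ ∫ y, φ y * V.hh (16 * ρ) y ∂V.μ :=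
    integral_nonneg fun y => mul_nonneg (hφ0 y) (V.hh_nonneg h16 y)
  -- the pointwise inequality
  have hpt : ∀ᵐ y ∂V.μ, φ y * V.ls ρ y ≤ C₁ * (∑ i ∈ Finset.range 7,
      φ y * V.gg (16 * ρ * (1 / 2) ^ i) y + φ y * V.hh (16 * ρ) y + φ y * V.tri J₁ ρ y) := by
    have hsup : ∀ᵐ y ∂V.μ, y ∈ V.μ.support := Measure.support_mem_ae
    filter_upwards [hsup] with y hy
    by_cases hφy : φ y = 0
    · simp [hφy]
    · have hy1 : ‖y‖ ≤ 1 := by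
        by_contra hno
        exact hφy (hφs y (not_le.1 hno))
      have hcl : closedBall y (16 * ρ) ⊆ U := by
        refine Subset.trans ?_ hU
        intro z hz
        rw [mem_closedBall, dist_eq_norm] at hz
        rw [mem_closedBall_zero_iff]
        calc ‖z‖ = ‖y + (z - y)‖ := by rw [add_sub_cancel]
          _ ≤ ‖y‖ + ‖z - y‖ := norm_add_le _ _
          _ ≤ 32 := by linarith
      have hpos : 0 < V.μ.real (ball y ρ) := by
        have h4 : 0 < V.μ (ball y ρ) :=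
          (Measure.mem_support_iff_forall y).1 hy _ (ball_mem_nhds y hρ)
        exact ENNReal.toReal_pos h4.ne' (measure_ne_top _ _)
      have h5 := h1 V hδ hδ' y ρ hρ hcl hpos
      calc φ y * V.ls ρ y ≤ φ y * (C₁ * (∑ i ∈ Finset.range 7, V.gg (16 * ρ * (1 / 2) ^ i) y
            + V.hh (16 * ρ) y + V.tri J₁ ρ y)) := mul_le_mul_of_nonneg_left h5 (hφ0 y)
        _ = _ := by
          rw [← Finset.mul_sum]
          ring
  have hsumI : Integrable (fun y => ∑ i ∈ Finset.range 7, φ y * V.gg (16 * ρ * (1 / 2) ^ i) y) V.μ :=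
    integrable_finsetSum _ fun i _ => hggI i
  have hint1 := integral_mono_ae hlsI (((hsumI.add hhI).add htrI).const_mul C₁) hpt
  have hval : ∫ y, C₁ * (((fun y => ∑ i ∈ Finset.range 7, φ y * V.gg (16 * ρ * (1 / 2) ^ i) y) +
      (fun y => φ y * V.hh (16 * ρ) y) + fun y => φ y * V.tri J₁ ρ y) y) ∂V.μ =
      C₁ * (∑ i ∈ Finset.range 7, a i + ∫ y, φ y * V.hh (16 * ρ) y ∂V.μ
        + ∫ y, φ y * V.tri J₁ ρ y ∂V.μ) := by
    rw [integral_const_mul, integral_add' (hsumI.add hhI) htrI, integral_add' hsumI hhI,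
      integral_finsetSum _ fun i _ => hggI i]
  rw [hval] at hint1
  -- the average of `tri`
  have h3 := h2 V φ L ρ hρ (by linarith) hL hφ0 hφ1 hφL hφs
  have hterm : ∀ i ∈ Finset.range (J₁ + 1),
      ∫ y in ball 0 2, (φ y + L * ρ) * V.gg (2 * ρ * (1 / 2) ^ i) y ∂V.μ ≤ a (i + 3) + b (i + 3) := by
    intro i _
    have e1 : 2 * ρ * (1 / 2) ^ i = 16 * ρ * (1 / 2) ^ (i + 3) := by
      rw [pow_add]
      ring
    rw [e1]
    have e2 : ∀ y, (φ y + L * ρ) * V.gg (16 * ρ * (1 / 2) ^ (i + 3)) y =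
        φ y * V.gg (16 * ρ * (1 / 2) ^ (i + 3)) y + L * ρ * V.gg (16 * ρ * (1 / 2) ^ (i + 3)) y :=
      fun y => add_mul _ _ _
    simp only [e2]
    rw [integral_add (hggI _).integrableOn ((hgg _).const_mul _).integrableOn, integral_const_mul]
    refine add_le_add ?_ le_rfl
    exact setIntegral_le_integral (hggI _)
      (Eventually.of_forall fun y => mul_nonneg (hφ0 y) (V.gg_nonneg (hρi _) y))
  have hT1 : ∑ i ∈ Finset.range 7, a i ≤ ∑ i ∈ Finset.range (J₁ + 7), (a i + b i) := by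
    calc ∑ i ∈ Finset.range 7, a i ≤ ∑ i ∈ Finset.range 7, (a i + b i) :=
          Finset.sum_le_sum fun i _ => le_add_of_nonneg_right (hb0 i)
      _ ≤ _ := Finset.sum_le_sum_of_subset_of_nonneg
          (Finset.range_subset_range.2 (by omega)) fun i _ _ => add_nonneg (ha0 i) (hb0 i)
  have hT2 : ∑ i ∈ Finset.range (J₁ + 1), (a (i + 3) + b (i + 3)) ≤
      ∑ i ∈ Finset.range (J₁ + 7), (a i + b i) := by
    have e3 : ∑ i ∈ Finset.range (J₁ + 1), (a (i + 3) + b (i + 3)) =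
        ∑ i ∈ Finset.Ico 3 (J₁ + 4), (a i + b i) := by
      rw [Finset.sum_Ico_eq_sum_range]
      refine Finset.sum_congr (by congr 1) fun i _ => ?_
      rw [add_comm 3 i]
    rw [e3]
    refine Finset.sum_le_sum_of_subset_of_nonneg ?_ fun i _ _ => add_nonneg (ha0 i) (hb0 i)
    intro i hi
    rw [Finset.mem_Ico] at hi
    rw [Finset.mem_range]
    omega
  have h4 : ∫ y, φ y * V.tri J₁ ρ y ∂V.μ ≤ C₂ * ∑ i ∈ Finset.range (J₁ + 7), (a i + b i) :=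
    h3.trans (mul_le_mul_of_nonneg_left ((Finset.sum_le_sum hterm).trans hT2) hC₂.le)
  set T : ℝ := ∑ i ∈ Finset.range (J₁ + 7), (a i + b i) with hT
  set Hh : ℝ := ∫ y, φ y * V.hh (16 * ρ) y ∂V.μ with hHh
  calc ∫ y, φ y * V.ls ρ y ∂V.μ ≤ C₁ * (∑ i ∈ Finset.range 7, a i + Hh + ∫ y, φ y * V.tri J₁ ρ y ∂V.μ) :=
        hint1
    _ ≤ C₁ * (T + Hh + C₂ * T) :=
        mul_le_mul_of_nonneg_left (by linarith) hC₁.le
    _ ≤ C₁ * (1 + C₂) * (T + Hh) := by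
        have : 0 ≤ C₁ * (C₂ * Hh) := by positivity
        nlinarith

end Allard
end
end

section

/-!
# F8a: sum of the averaged losses

`X k = ∫ φ gg(2^{-k})`, `S_K = ∑_{k<K} X k ≤ C A² 2^{K/2}` (`gg_int_le`; `φ ≤ 1`, supported in
`closedBall 0 1 ⊆ ball 0 2`).
Integrate `amf_one` against `φ`.  Losses: scales `2, 1, 1/2, 1/4, 1/8` by `ls_int_le`; scales `2^{-j}`,
`4 ≤ j < K+2`, by `amf_scale` (`ρ = 2^{-j}`, `16ρ 2^{-i} = 2^{-(j-4+i)}`):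
`∑_{j=4}^{K+1} ∫ φ ls(2^{-j}) ≤ C (J S_{K+J} + J L A² ∑_j 2^{-j} 2^{(j-4+J)/2} + A ∑_j 2^{-(j-4)/2} ∫‖H‖)`.
So  `c₁ (S_{K-1} - X 0 - X 1) ≤ ∫ φ I(1) - ∫ φ I(2^{-K}) + C δ² (S_{K+J} + L A²) + C A ∫‖H‖`.
`∫ φ I(1) ≤ 2 A²`, `I ≥ 0`, `X 0, X 1 ≤ C A²`: `S_K ≤ B + δ' S_{K+J+2}` with `δ' = C δ²`,
`B = C (A² L + A ∫‖H‖)` (use `δ ≤ 1 ≤ L`); `growth`: `S_K ≤ 2B` if `δ ≤ δ_A`.  Insert:
`∫ φ I(2^{-K}) ≤ ∫ φ I(1) + C δ² (2 B + L A²) + C A ∫‖H‖ + (c₁ times nonnegative terms dropped)`.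
-/

noncomputable section

open MeasureTheory Metric Set Filter Topology

namespace Allard

private theorem f8a_two (k : ℕ) : (2 : ℝ) ^ ((k : ℝ) / 2) = √2 ^ k := by
  rw [Real.sqrt_eq_rpow, ← Real.rpow_natCast ((2 : ℝ) ^ (1 / 2 : ℝ)) k,
    ← Real.rpow_mul (by norm_num)]
  congr 1
  ring

private theorem f8a_two' (k : ℕ) : (2 : ℝ) ^ (-(k : ℝ) / 2) = (√2)⁻¹ ^ k := by
  rw [neg_div, Real.rpow_neg (by norm_num), f8a_two, inv_pow]

private theorem f8a_geo (N : ℕ) : ∑ k ∈ Finset.range N, ((√2)⁻¹ : ℝ) ^ k ≤ 4 := by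
  have h2 : (4 / 3 : ℝ) ≤ √2 := by
    rw [Real.le_sqrt (by norm_num) (by norm_num)]
    norm_num
  have h1 : ((√2)⁻¹ : ℝ) ≤ 3 / 4 := by
    rw [show (3 / 4 : ℝ) = (4 / 3 : ℝ)⁻¹ by norm_num]
    exact inv_anti₀ (by norm_num) h2
  have h0 : (0 : ℝ) ≤ (√2)⁻¹ := by positivity
  have h3 : ∑ k ∈ Finset.range N, ((√2)⁻¹ : ℝ) ^ k ≤ ∑ k ∈ Finset.range N, (3 / 4 : ℝ) ^ k :=
    Finset.sum_le_sum fun k _ => pow_le_pow_left₀ h0 h1 k
  refine h3.trans ?_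
  rw [geom_sum_eq (by norm_num)]
  have h4 : (0 : ℝ) ≤ (3 / 4) ^ N := by positivity
  rw [div_le_iff_of_neg (by norm_num)]
  linarith

private theorem f8a_shift (X : ℕ → ℝ) (hX : ∀ k, 0 ≤ X k) (N M i : ℕ) (hi : i ≤ M) :
    ∑ k ∈ Finset.range N, X (k + i) ≤ ∑ k ∈ Finset.range (N + M), X k := by
  have h1 : ∑ k ∈ Finset.range N, X (k + i) = ∑ k ∈ Finset.Ico i (i + N), X k := by
    rw [Finset.sum_Ico_eq_sum_range]
    have : i + N - i = N := by omega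
    rw [this]
    exact Finset.sum_congr rfl fun k _ => by rw [add_comm]
  rw [h1]
  refine Finset.sum_le_sum_of_subset_of_nonneg (fun k hk => ?_) fun k _ _ => hX k
  rw [Finset.mem_Ico] at hk
  rw [Finset.mem_range]
  omega

/-- The abstract summation. -/
private theorem f8a_abs (a X : ℕ → ℝ) (J K : ℕ) (b C D L A H : ℝ) (ha : ∀ k, 0 ≤ a k)
    (hX : ∀ k, 0 ≤ X k) (hb : 0 ≤ b) (hC : 0 ≤ C) (hL : 1 ≤ L) (hA : 1 ≤ A) (hH : 0 ≤ H)
    (hD : 4 * b + 4 * C * (2 ^ J * J + J + 1) ≤ D)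
    (h1 : ∀ k, k < 4 → a k ≤ b * A ^ 2)
    (h2 : ∀ k, a (k + 4) ≤ C * (∑ i ∈ Finset.range J, (X (k + i) +
      L * (1 / 2) ^ (k + 4) * (A ^ 2 * √2 ^ (k + i))) + A * (√2)⁻¹ ^ k * H)) :
    ∑ j ∈ Finset.range (K + 2), a j ≤
      D * (∑ k ∈ Finset.range (K + (J + 2)), X k + L * A ^ 2 + A * H) := by
  have hw0 : (0 : ℝ) ≤ (√2)⁻¹ := by positivity
  have hA2 : 1 ≤ A ^ 2 := one_le_pow₀ hA
  have e1 : ∑ j ∈ Finset.range (K + 2), a j ≤ ∑ j ∈ Finset.range (4 + (K + 2)), a j :=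
    Finset.sum_le_sum_of_subset_of_nonneg (Finset.range_mono (by omega)) fun k _ _ => ha k
  have e2 : ∑ j ∈ Finset.range (4 + (K + 2)), a j =
      ∑ j ∈ Finset.range 4, a j + ∑ k ∈ Finset.range (K + 2), a (k + 4) := by
    rw [Finset.sum_range_add]
    congr 1
    exact Finset.sum_congr rfl fun k _ => by rw [add_comm]
  have e3 : ∑ j ∈ Finset.range 4, a j ≤ 4 * (b * A ^ 2) := by
    calc ∑ j ∈ Finset.range 4, a j ≤ ∑ j ∈ Finset.range 4, b * A ^ 2 :=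
          Finset.sum_le_sum fun k hk => h1 k (Finset.mem_range.1 hk)
      _ = 4 * (b * A ^ 2) := by
          rw [Finset.sum_const, Finset.card_range, nsmul_eq_mul]
          norm_num
  -- the second difference
  have hs2 : (0 : ℝ) < √2 := by positivity
  have hsq : √2 * √2 = (2 : ℝ) := Real.mul_self_sqrt (by norm_num)
  have hinv : (1 / 2 : ℝ) * √2 = (√2)⁻¹ := by
    field_simp
    linarith
  have hs2' : √2 ≤ (2 : ℝ) := by nlinarith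
  have e4 : ∀ k i, i < J → L * (1 / 2) ^ (k + 4) * (A ^ 2 * √2 ^ (k + i)) ≤
      L * A ^ 2 * 2 ^ J * (√2)⁻¹ ^ k := by
    intro k i hi
    have f1 : √2 ^ i ≤ (2 : ℝ) ^ J := by
      calc √2 ^ i ≤ 2 ^ i := pow_le_pow_left₀ hs2.le hs2' i
        _ ≤ 2 ^ J := pow_le_pow_right₀ (by norm_num) hi.le
    have f2 : (1 / 2 : ℝ) ^ k * √2 ^ k = (√2)⁻¹ ^ k := by
      rw [← mul_pow, hinv]
    calc L * (1 / 2) ^ (k + 4) * (A ^ 2 * √2 ^ (k + i))
        = (1 / 16) * (L * A ^ 2 * √2 ^ i * ((1 / 2 : ℝ) ^ k * √2 ^ k)) := by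
          rw [pow_add, pow_add]
          ring
      _ = (1 / 16) * (L * A ^ 2 * √2 ^ i * (√2)⁻¹ ^ k) := by rw [f2]
      _ ≤ 1 * (L * A ^ 2 * 2 ^ J * (√2)⁻¹ ^ k) := by
          refine mul_le_mul (by norm_num) ?_ (by positivity) (by norm_num)
          refine mul_le_mul_of_nonneg_right ?_ (by positivity)
          exact mul_le_mul_of_nonneg_left f1 (by positivity)
      _ = _ := one_mul _
  have e5 : ∀ k, a (k + 4) ≤ C * (∑ i ∈ Finset.range J, X (k + i)) +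
      C * (L * A ^ 2 * (2 ^ J * J) + A * H) * (√2)⁻¹ ^ k := by
    intro k
    refine (h2 k).trans ?_
    rw [Finset.sum_add_distrib]
    have g1 : ∑ i ∈ Finset.range J, L * (1 / 2) ^ (k + 4) * (A ^ 2 * √2 ^ (k + i)) ≤
        J * (L * A ^ 2 * 2 ^ J * (√2)⁻¹ ^ k) := by
      calc _ ≤ ∑ i ∈ Finset.range J, L * A ^ 2 * 2 ^ J * (√2)⁻¹ ^ k :=
            Finset.sum_le_sum fun i hi => e4 k i (Finset.mem_range.1 hi)
        _ = _ := by rw [Finset.sum_const, Finset.card_range, nsmul_eq_mul]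
    have g2 := mul_le_mul_of_nonneg_left g1 hC
    calc _ = C * (∑ i ∈ Finset.range J, X (k + i)) +
          C * (∑ i ∈ Finset.range J, L * (1 / 2) ^ (k + 4) * (A ^ 2 * √2 ^ (k + i))) +
          C * (A * (√2)⁻¹ ^ k * H) := by ring
      _ ≤ C * (∑ i ∈ Finset.range J, X (k + i)) +
          C * (J * (L * A ^ 2 * 2 ^ J * (√2)⁻¹ ^ k)) + C * (A * (√2)⁻¹ ^ k * H) := by linarith
      _ = _ := by ring
  obtain ⟨SX, hSX⟩ : ∃ SX : ℝ, SX = ∑ k ∈ Finset.range (K + (J + 2)), X k := ⟨_, rfl⟩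
  have hSX0 : 0 ≤ SX := by rw [hSX]; exact Finset.sum_nonneg fun k _ => hX k
  have e6 : ∑ k ∈ Finset.range (K + 2), ∑ i ∈ Finset.range J, X (k + i) ≤ J * SX := by
    rw [Finset.sum_comm]
    calc ∑ i ∈ Finset.range J, ∑ k ∈ Finset.range (K + 2), X (k + i)
        ≤ ∑ i ∈ Finset.range J, SX := by
          refine Finset.sum_le_sum fun i hi => ?_
          rw [hSX, show K + (J + 2) = (K + 2) + J by omega]
          exact f8a_shift X hX (K + 2) J i (Finset.mem_range.1 hi).le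
      _ = J * SX := by rw [Finset.sum_const, Finset.card_range, nsmul_eq_mul]
  have e7 : ∑ k ∈ Finset.range (K + 2), a (k + 4) ≤ C * (J * SX) +
      C * (L * A ^ 2 * (2 ^ J * J) + A * H) * 4 := by
    calc ∑ k ∈ Finset.range (K + 2), a (k + 4)
        ≤ ∑ k ∈ Finset.range (K + 2), (C * (∑ i ∈ Finset.range J, X (k + i)) +
          C * (L * A ^ 2 * (2 ^ J * J) + A * H) * (√2)⁻¹ ^ k) :=
          Finset.sum_le_sum fun k _ => e5 k
      _ = C * (∑ k ∈ Finset.range (K + 2), ∑ i ∈ Finset.range J, X (k + i)) +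
          C * (L * A ^ 2 * (2 ^ J * J) + A * H) * ∑ k ∈ Finset.range (K + 2), (√2)⁻¹ ^ k := by
          rw [Finset.sum_add_distrib, Finset.mul_sum, Finset.mul_sum]
      _ ≤ _ := add_le_add (mul_le_mul_of_nonneg_left e6 hC)
          (mul_le_mul_of_nonneg_left (f8a_geo _) (by positivity))
  rw [← hSX]
  have hLA : 1 ≤ L * A ^ 2 := by nlinarith
  have hLA' : A ^ 2 ≤ L * A ^ 2 := by nlinarith
  have hAH : 0 ≤ A * H := by positivity
  obtain ⟨T, hT⟩ : ∃ T : ℝ, T = SX + L * A ^ 2 + A * H := ⟨_, rfl⟩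
  have t1 : SX ≤ T := by rw [hT]; linarith
  have t2 : L * A ^ 2 ≤ T := by rw [hT]; linarith
  have t3 : A ^ 2 ≤ T := by linarith
  have t5 : 0 ≤ T := by linarith
  have t4 : L * A ^ 2 * (2 ^ J * J) + A * H ≤ (2 ^ J * J + 1) * T := by
    have : L * A ^ 2 * (2 ^ J * J) ≤ T * (2 ^ J * J) :=
      mul_le_mul_of_nonneg_right t2 (by positivity)
    have : A * H ≤ T := by rw [hT]; linarith
    linarith
  calc ∑ j ∈ Finset.range (K + 2), a j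
      ≤ 4 * (b * A ^ 2) + (C * (J * SX) + C * (L * A ^ 2 * (2 ^ J * J) + A * H) * 4) := by
        linarith
    _ ≤ 4 * (b * T) + (C * (J * T) + C * ((2 ^ J * J + 1) * T) * 4) := by
        have u1 : b * A ^ 2 ≤ b * T := mul_le_mul_of_nonneg_left t3 hb
        have u2 : C * (J * SX) ≤ C * (J * T) :=
          mul_le_mul_of_nonneg_left (mul_le_mul_of_nonneg_left t1 (by positivity)) hC
        have u3 : C * (L * A ^ 2 * (2 ^ J * J) + A * H) ≤ C * ((2 ^ J * J + 1) * T) :=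
          mul_le_mul_of_nonneg_left t4 hC
        linarith
    _ ≤ (4 * b + 4 * C * (2 ^ J * J + J + 1)) * T := by
        have u1 : 0 ≤ C * (J * T) := by positivity
        nlinarith
    _ ≤ D * T := mul_le_mul_of_nonneg_right hD t5
    _ = _ := by rw [hT]

theorem amf_sumloss (n m : ℕ) (hm : 1 ≤ m) : ∃ (J : ℕ) (C δ₃ : ℝ), 0 < C ∧ 0 < δ₃ ∧
    δ₃ ≤ d0 n ∧
    ∀ {δ : ℝ} {S : Stress n m δ} {α Λ : ℝ} {U : Set (E n)} (V : Sys S α Λ U),
    0 ≤ δ → δ ≤ δ₃ → closedBall 0 32 ⊆ U →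
    ∀ (A : ℝ), 1 ≤ A → V.μ.real (ball 0 32) ≤ A → V.UD A →
    ∀ (φ : E n → ℝ) (L : ℝ), 1 ≤ L → (∀ y, 0 ≤ φ y) → (∀ y, φ y ≤ 1) →
    (∀ y z, |φ y - φ z| ≤ L * ‖y - z‖) → (∀ y, 1 < ‖y‖ → φ y = 0) → ∀ K : ℕ,
    ∫ y, φ y * V.ls 2 y ∂V.μ + ∑ j ∈ Finset.range (K + 2), ∫ y, φ y * V.ls ((1 / 2) ^ j) y ∂V.μ ≤
      C * (∑ k ∈ Finset.range (K + J), ∫ y, φ y * V.gg ((1 / 2) ^ k) y ∂V.μ
        + L * A ^ 2 + A * ∫ z in ball 0 32, ‖V.H z‖ ∂V.μ) := by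
  obtain ⟨J, C, δ₃, hC, hδ3, hδ3', key⟩ := amf_scale n m hm
  refine ⟨J + 2, 4 * 8 ^ m + (4 * (4 * 8 ^ m) + 4 * C * (2 ^ J * J + J + 1)), δ₃, by positivity,
    hδ3, hδ3', ?_⟩
  intro δ S α Λ U V hδ hδ' hU A hA h32 hUD φ L hL h0 h1 hφL hφ K
  have hφc : Continuous φ := by
    refine LipschitzWith.continuous (K := L.toNNReal) (LipschitzWith.of_dist_le_mul fun y z => ?_)
    rw [Real.dist_eq, dist_eq_norm, Real.coe_toNNReal _ (by linarith)]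
    exact hφL y z
  have hφm := hφc.measurable
  have hH0 : 0 ≤ ∫ z in ball 0 32, ‖V.H z‖ ∂V.μ := integral_nonneg fun z => norm_nonneg _
  have hX0 : ∀ k : ℕ, 0 ≤ ∫ y, φ y * V.gg ((1 / 2) ^ k) y ∂V.μ := fun k =>
    integral_nonneg fun y => mul_nonneg (h0 y) (V.gg_nonneg (by positivity) y)
  have ha0 : ∀ k : ℕ, 0 ≤ ∫ y, φ y * V.ls ((1 / 2) ^ k) y ∂V.μ := fun k =>
    integral_nonneg fun y => mul_nonneg (h0 y) (V.ls_nonneg (by positivity) y)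
  have b1 : ∫ y, φ y * V.ls 2 y ∂V.μ ≤ 4 * 8 ^ m * A ^ 2 :=
    ls_int_le V hA h32 hφm h0 h1 hφ (by norm_num) le_rfl
  have b2 : ∀ k : ℕ, k < 4 → ∫ y, φ y * V.ls ((1 / 2) ^ k) y ∂V.μ ≤ 4 * 8 ^ m * A ^ 2 := by
    intro k hk
    refine ls_int_le V hA h32 hφm h0 h1 hφ ?_ ?_
    · calc (1 / 8 : ℝ) = (1 / 2) ^ 3 := by norm_num
        _ ≤ (1 / 2) ^ k := pow_le_pow_of_le_one (by norm_num) (by norm_num) (by omega)
    · exact (pow_le_one₀ (by norm_num) (by norm_num)).trans (by norm_num)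
  have b3 : ∀ k : ℕ, ∫ y, φ y * V.ls ((1 / 2) ^ (k + 4)) y ∂V.μ ≤
      C * (∑ i ∈ Finset.range J, ((∫ y, φ y * V.gg ((1 / 2) ^ (k + i)) y ∂V.μ) +
      L * (1 / 2) ^ (k + 4) * (A ^ 2 * √2 ^ (k + i))) +
      A * (√2)⁻¹ ^ k * ∫ z in ball 0 32, ‖V.H z‖ ∂V.μ) := by
    intro k
    have hρ : ((1 / 2 : ℝ)) ^ (k + 4) ≤ 1 / 16 := by
      rw [pow_add]
      have : (1 / 2 : ℝ) ^ k ≤ 1 := pow_le_one₀ (by norm_num) (by norm_num)
      nlinarith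
    have h := key V hδ hδ' hU φ L ((1 / 2) ^ (k + 4)) (by positivity) hρ (by linarith) h0 h1 hφL hφ
    have e16 : ∀ i : ℕ, 16 * (1 / 2 : ℝ) ^ (k + 4) * (1 / 2) ^ i = (1 / 2) ^ (k + i) := by
      intro i
      rw [pow_add, pow_add]
      ring
    have e16' : 16 * (1 / 2 : ℝ) ^ (k + 4) = (1 / 2) ^ k := by
      rw [pow_add]
      ring
    simp only [e16] at h
    rw [e16'] at h
    refine h.trans (mul_le_mul_of_nonneg_left (add_le_add ?_ ?_) hC.le)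
    · refine Finset.sum_le_sum fun i _ => ?_
      have g := gg_int_le V hA h32 hUD (k + i)
      rw [f8a_two] at g
      have : L * (1 / 2) ^ (k + 4) * ∫ y in ball 0 2, V.gg ((1 / 2) ^ (k + i)) y ∂V.μ ≤
          L * (1 / 2) ^ (k + 4) * (A ^ 2 * √2 ^ (k + i)) :=
        mul_le_mul_of_nonneg_left g (by positivity)
      linarith
    · have g := hh_int_le V hA h32 hUD hφm h0 h1 hφ k
      rw [f8a_two'] at g
      exact g
  have main := f8a_abs (fun j => ∫ y, φ y * V.ls ((1 / 2) ^ j) y ∂V.μ)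
    (fun k => ∫ y, φ y * V.gg ((1 / 2) ^ k) y ∂V.μ) J K (4 * 8 ^ m) C _ L A
    (∫ z in ball 0 32, ‖V.H z‖ ∂V.μ) ha0 hX0 (by positivity) hC.le hL hA hH0 le_rfl b2 b3
  have hS0 : 0 ≤ ∑ k ∈ Finset.range (K + (J + 2)), ∫ y, φ y * V.gg ((1 / 2) ^ k) y ∂V.μ :=
    Finset.sum_nonneg fun k _ => hX0 k
  have hA2 : 0 ≤ A ^ 2 := by positivity
  have hLA' : A ^ 2 ≤ L * A ^ 2 := by nlinarith
  have hAH : 0 ≤ A * ∫ z in ball 0 32, ‖V.H z‖ ∂V.μ := by positivity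
  have b4 : 4 * 8 ^ m * A ^ 2 ≤ 4 * 8 ^ m *
      (∑ k ∈ Finset.range (K + (J + 2)), ∫ y, φ y * V.gg ((1 / 2) ^ k) y ∂V.μ
        + L * A ^ 2 + A * ∫ z in ball 0 32, ‖V.H z‖ ∂V.μ) := by
    refine mul_le_mul_of_nonneg_left ?_ (by positivity)
    linarith
  rw [add_mul]
  exact add_le_add (b1.trans b4) main

end Allard
end
end

section

/-!
# F8: the averaged monotonicity formula (AMF)

`X k = ∫ φ gg(2^{-k})`, `S_K = ∑_{k<K} X k ≤ C A² 2^{K/2}` (`gg_int_le`; `φ ≤ 1`, supported in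
`closedBall 0 1 ⊆ ball 0 2`).
Integrate `amf_one` against `φ`.  Losses: scales `2, 1, 1/2, 1/4, 1/8` by `ls_int_le`; scales `2^{-j}`,
`4 ≤ j < K+2`, by `amf_scale` (`ρ = 2^{-j}`, `16ρ 2^{-i} = 2^{-(j-4+i)}`):
`∑_{j=4}^{K+1} ∫ φ ls(2^{-j}) ≤ C (J S_{K+J} + J L A² ∑_j 2^{-j} 2^{(j-4+J)/2} + A ∑_j 2^{-(j-4)/2} ∫‖H‖)`.
So  `c₁ (S_{K-1} - X 0 - X 1) ≤ ∫ φ I(1) - ∫ φ I(2^{-K}) + C δ² (S_{K+J} + L A²) + C A ∫‖H‖`.
`∫ φ I(1) ≤ 2 A²`, `I ≥ 0`, `X 0, X 1 ≤ C A²`: `S_K ≤ B + δ' S_{K+J+2}` with `δ' = C δ²`,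
`B = C (A² L + A ∫‖H‖)` (use `δ ≤ 1 ≤ L`); `growth`: `S_K ≤ 2B` if `δ ≤ δ_A`.  Insert:
`∫ φ I(2^{-K}) ≤ ∫ φ I(1) + C δ² (2 B + L A²) + C A ∫‖H‖ + (c₁ times nonnegative terms dropped)`.
-/

noncomputable section

open MeasureTheory Metric Set Filter Topology

namespace Allard

section aux

variable {n m : ℕ} {δ : ℝ} {S : Stress n m δ} {α Λ : ℝ} {U : Set (E n)} {τ : ℝ} {η : ℝ → ℝ}

private theorem F8_int (V : Sys S α Λ U) {φ f : E n → ℝ} (hφm : Measurable φ)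
    (h0 : ∀ y, 0 ≤ φ y) (h1 : ∀ y, φ y ≤ 1) (hf : Measurable f) (hf0 : ∀ y, 0 ≤ f y) {c : ℝ}
    (hfc : ∀ y, f y ≤ c) : Integrable (fun y => φ y * f y) V.μ := by
  refine V.integrable_bdd (hφm.mul hf) (c := c) fun z => ?_
  rw [abs_of_nonneg (mul_nonneg (h0 z) (hf0 z))]
  calc φ z * f z ≤ 1 * f z := mul_le_mul_of_nonneg_right (h1 z) (hf0 z)
    _ = f z := one_mul _
    _ ≤ c := hfc z

private theorem F8_ball_le (V : Sys S α Λ U) (y : E n) (r : ℝ) :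
    V.μ.real (ball y r) ≤ V.μ.real univ := measureReal_mono (subset_univ _)

private theorem F8_gg (V : Sys S α Λ U) {φ : E n → ℝ} (hφm : Measurable φ)
    (h0 : ∀ y, 0 ≤ φ y) (h1 : ∀ y, φ y ≤ 1) {ρ : ℝ} (hρ : 0 < ρ) :
    Integrable (fun y => φ y * V.gg ρ y) V.μ :=
  F8_int V hφm h0 h1 (V.measurable_gg ρ) (V.gg_nonneg hρ) (c := (ρ ^ m)⁻¹ * V.μ.real univ)
    fun y => (V.gg_le hρ y).trans
      (mul_le_mul_of_nonneg_left (F8_ball_le V y ρ) (by positivity))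

private theorem F8_ls (V : Sys S α Λ U) {φ : E n → ℝ} (hφm : Measurable φ)
    (h0 : ∀ y, 0 ≤ φ y) (h1 : ∀ y, φ y ≤ 1) {ρ : ℝ} (hρ : 0 < ρ) :
    Integrable (fun y => φ y * V.ls ρ y) V.μ :=
  F8_int V hφm h0 h1 (V.measurable_ls ρ) (V.ls_nonneg hρ) (c := 4 * ((ρ ^ m)⁻¹ * V.μ.real univ))
    fun y => (V.ls_le hρ y).trans (mul_le_mul_of_nonneg_left
      (mul_le_mul_of_nonneg_left (F8_ball_le V y ρ) (by positivity)) (by norm_num))

private theorem F8_hh (V : Sys S α Λ U) {φ : E n → ℝ} (hφm : Measurable φ)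
    (h0 : ∀ y, 0 ≤ φ y) (h1 : ∀ y, φ y ≤ 1) {ρ : ℝ} (hρ : 0 < ρ) :
    Integrable (fun y => φ y * V.hh ρ y) V.μ :=
  F8_int V hφm h0 h1 (V.measurable_hh ρ) (V.hh_nonneg hρ) (c := ρ * (ρ ^ m)⁻¹ * ∫ z, ‖V.H z‖ ∂V.μ)
    fun y => by
      unfold Sys.hh
      refine mul_le_mul_of_nonneg_left ?_ (by positivity)
      exact setIntegral_le_integral V.iH.norm (Eventually.of_forall fun z => norm_nonneg _)

private theorem F8_I (V : Sys S α Λ U) (h : Ker τ η) (hδ : 0 ≤ δ) (hδ' : δ ≤ d0 n)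
    {φ : E n → ℝ} (hφm : Measurable φ)
    (h0 : ∀ y, 0 ≤ φ y) (h1 : ∀ y, φ y ≤ 1) {r : ℝ} (hr : 0 < r) :
    Integrable (fun y => φ y * V.I η (V.P y) y r) V.μ :=
  F8_int V hφm h0 h1 (V.measurable_I h r) (fun y => V.I_nonneg h hδ hδ' _ y hr)
    (c := (1 + δ) * ((r ^ m)⁻¹ * V.μ.real univ))
    fun y => (V.I_le h hδ hδ' (V.hP y) y hr).trans (mul_le_mul_of_nonneg_left
      (mul_le_mul_of_nonneg_left (F8_ball_le V y _) (by positivity)) (by linarith))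

private theorem F8_star (V : Sys S α Λ U) (h : Ker τ η) (hδ : 0 ≤ δ) (hδ' : δ ≤ d0 n)
    {c₁ C₁ : ℝ} {φ : E n → ℝ} (hφm : Measurable φ) (h0 : ∀ y, 0 ≤ φ y) (h1 : ∀ y, φ y ≤ 1)
    (hφ : ∀ y, 1 < ‖y‖ → φ y = 0) (hU : closedBall 0 32 ⊆ U) (K : ℕ)
    (hone : ∀ y : E n, closedBall y 2 ⊆ U →
      c₁ * ∑ j ∈ Finset.Ico 2 (K - 1), V.gg ((1 / 2) ^ j) y
        - C₁ * δ ^ 2 * (V.ls 2 y + ∑ j ∈ Finset.range (K + 2), V.ls ((1 / 2) ^ j) y)
        - C₁ * (V.hh 2 y + ∑ j ∈ Finset.range (K + 2), V.hh ((1 / 2) ^ j) y)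
        ≤ V.I η (V.P y) y 1 - V.I η (V.P y) y ((1 / 2) ^ K)) :
    c₁ * ∑ j ∈ Finset.Ico 2 (K - 1), ∫ y, φ y * V.gg ((1 / 2) ^ j) y ∂V.μ
      - C₁ * δ ^ 2 * (∫ y, φ y * V.ls 2 y ∂V.μ
          + ∑ j ∈ Finset.range (K + 2), ∫ y, φ y * V.ls ((1 / 2) ^ j) y ∂V.μ)
      - C₁ * (∫ y, φ y * V.hh 2 y ∂V.μ
          + ∑ j ∈ Finset.range (K + 2), ∫ y, φ y * V.hh ((1 / 2) ^ j) y ∂V.μ)
      ≤ ∫ y, φ y * V.I η (V.P y) y 1 ∂V.μ - ∫ y, φ y * V.I η (V.P y) y ((1 / 2) ^ K) ∂V.μ := by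
  have hp : ∀ j : ℕ, (0 : ℝ) < (1 / 2) ^ j := fun j => by positivity
  have igg : ∀ j : ℕ, Integrable (fun y => φ y * V.gg ((1 / 2) ^ j) y) V.μ :=
    fun j => F8_gg V hφm h0 h1 (hp j)
  have ils : ∀ j : ℕ, Integrable (fun y => φ y * V.ls ((1 / 2) ^ j) y) V.μ :=
    fun j => F8_ls V hφm h0 h1 (hp j)
  have ihh : ∀ j : ℕ, Integrable (fun y => φ y * V.hh ((1 / 2) ^ j) y) V.μ :=
    fun j => F8_hh V hφm h0 h1 (hp j)
  have ils2 : Integrable (fun y => φ y * V.ls 2 y) V.μ := F8_ls V hφm h0 h1 (by norm_num)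
  have ihh2 : Integrable (fun y => φ y * V.hh 2 y) V.μ := F8_hh V hφm h0 h1 (by norm_num)
  have iI1 : Integrable (fun y => φ y * V.I η (V.P y) y 1) V.μ :=
    F8_I V h hδ hδ' hφm h0 h1 (by norm_num)
  have iIK : Integrable (fun y => φ y * V.I η (V.P y) y ((1 / 2) ^ K)) V.μ :=
    F8_I V h hδ hδ' hφm h0 h1 (hp K)
  have sgg : Integrable (fun y => ∑ j ∈ Finset.Ico 2 (K - 1), φ y * V.gg ((1 / 2) ^ j) y) V.μ :=
    integrable_finsetSum _ fun j _ => igg j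
  have sls : Integrable (fun y => ∑ j ∈ Finset.range (K + 2), φ y * V.ls ((1 / 2) ^ j) y) V.μ :=
    integrable_finsetSum _ fun j _ => ils j
  have shh : Integrable (fun y => ∑ j ∈ Finset.range (K + 2), φ y * V.hh ((1 / 2) ^ j) y) V.μ :=
    integrable_finsetSum _ fun j _ => ihh j
  have hpt : ∀ y, c₁ * ∑ j ∈ Finset.Ico 2 (K - 1), φ y * V.gg ((1 / 2) ^ j) y
      - C₁ * δ ^ 2 * (φ y * V.ls 2 y + ∑ j ∈ Finset.range (K + 2), φ y * V.ls ((1 / 2) ^ j) y)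
      - C₁ * (φ y * V.hh 2 y + ∑ j ∈ Finset.range (K + 2), φ y * V.hh ((1 / 2) ^ j) y)
      ≤ φ y * V.I η (V.P y) y 1 - φ y * V.I η (V.P y) y ((1 / 2) ^ K) := by
    intro y
    rw [← Finset.mul_sum, ← Finset.mul_sum, ← Finset.mul_sum]
    by_cases hy : 1 < ‖y‖
    · rw [hφ y hy]
      simp
    · rw [not_lt] at hy
      have hsub : closedBall y 2 ⊆ U := by
        intro z hz
        apply hU
        rw [mem_closedBall, dist_eq_norm] at hz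
        rw [mem_closedBall_zero_iff]
        calc ‖z‖ = ‖y + (z - y)‖ := by rw [add_sub_cancel]
          _ ≤ ‖y‖ + ‖z - y‖ := norm_add_le _ _
          _ ≤ 32 := by linarith
      have h2 := mul_le_mul_of_nonneg_left (hone y hsub) (h0 y)
      calc _ = φ y * (c₁ * ∑ j ∈ Finset.Ico 2 (K - 1), V.gg ((1 / 2) ^ j) y
              - C₁ * δ ^ 2 * (V.ls 2 y + ∑ j ∈ Finset.range (K + 2), V.ls ((1 / 2) ^ j) y)
              - C₁ * (V.hh 2 y + ∑ j ∈ Finset.range (K + 2), V.hh ((1 / 2) ^ j) y)) := by ring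
        _ ≤ φ y * (V.I η (V.P y) y 1 - V.I η (V.P y) y ((1 / 2) ^ K)) := h2
        _ = _ := by ring
  have i1 : Integrable (fun y => c₁ * ∑ j ∈ Finset.Ico 2 (K - 1), φ y * V.gg ((1 / 2) ^ j) y)
      V.μ := sgg.const_mul c₁
  have i2 : Integrable (fun y => C₁ * δ ^ 2 * (φ y * V.ls 2 y
      + ∑ j ∈ Finset.range (K + 2), φ y * V.ls ((1 / 2) ^ j) y)) V.μ :=
    (ils2.add sls).const_mul (C₁ * δ ^ 2)
  have i3 : Integrable (fun y => C₁ * (φ y * V.hh 2 y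
      + ∑ j ∈ Finset.range (K + 2), φ y * V.hh ((1 / 2) ^ j) y)) V.μ :=
    (ihh2.add shh).const_mul C₁
  have i12 : Integrable (fun y => c₁ * ∑ j ∈ Finset.Ico 2 (K - 1), φ y * V.gg ((1 / 2) ^ j) y
      - C₁ * δ ^ 2 * (φ y * V.ls 2 y
      + ∑ j ∈ Finset.range (K + 2), φ y * V.ls ((1 / 2) ^ j) y)) V.μ := i1.sub i2
  have hmono := integral_mono (i12.sub i3) (iI1.sub iIK) hpt
  have e1 : ∫ y, (c₁ * ∑ j ∈ Finset.Ico 2 (K - 1), φ y * V.gg ((1 / 2) ^ j) y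
      - C₁ * δ ^ 2 * (φ y * V.ls 2 y + ∑ j ∈ Finset.range (K + 2), φ y * V.ls ((1 / 2) ^ j) y)
      - C₁ * (φ y * V.hh 2 y + ∑ j ∈ Finset.range (K + 2), φ y * V.hh ((1 / 2) ^ j) y)) ∂V.μ
      = c₁ * ∑ j ∈ Finset.Ico 2 (K - 1), ∫ y, φ y * V.gg ((1 / 2) ^ j) y ∂V.μ
      - C₁ * δ ^ 2 * (∫ y, φ y * V.ls 2 y ∂V.μ
          + ∑ j ∈ Finset.range (K + 2), ∫ y, φ y * V.ls ((1 / 2) ^ j) y ∂V.μ)
      - C₁ * (∫ y, φ y * V.hh 2 y ∂V.μ
          + ∑ j ∈ Finset.range (K + 2), ∫ y, φ y * V.hh ((1 / 2) ^ j) y ∂V.μ) := by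
    rw [integral_sub i12 i3, integral_sub i1 i2,
      integral_const_mul, integral_const_mul, integral_const_mul,
      integral_add ils2 sls, integral_add ihh2 shh,
      integral_finsetSum _ fun j _ => igg j, integral_finsetSum _ fun j _ => ils j,
      integral_finsetSum _ fun j _ => ihh j]
  have e2 : ∫ y, (φ y * V.I η (V.P y) y 1 - φ y * V.I η (V.P y) y ((1 / 2) ^ K)) ∂V.μ
      = ∫ y, φ y * V.I η (V.P y) y 1 ∂V.μ - ∫ y, φ y * V.I η (V.P y) y ((1 / 2) ^ K) ∂V.μ :=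
    integral_sub iI1 iIK
  rw [← e1, ← e2]
  exact hmono

private theorem F8_geom (K : ℕ) :
    ∑ j ∈ Finset.range K, (2 : ℝ) ^ (-(j : ℝ) / 2) ≤ 4 - 4 * (2 : ℝ) ^ (-(K : ℝ) / 2) := by
  induction K with
  | zero => simp
  | succ K ih =>
    rw [Finset.sum_range_succ]
    have h1 : (2 : ℝ) ^ (-((K + 1 : ℕ) : ℝ) / 2)
        = (2 : ℝ) ^ (-(K : ℝ) / 2) * (2 : ℝ) ^ (-(1 : ℝ) / 2) := by
      rw [← Real.rpow_add (by norm_num)]
      congr 1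
      push_cast
      ring
    have h2 : (2 : ℝ) ^ (-(1 : ℝ) / 2) ≤ 3 / 4 := by
      have h3 : ((2 : ℝ) ^ (-(1 : ℝ) / 2)) ^ 2 = 1 / 2 := by
        rw [← Real.rpow_natCast, ← Real.rpow_mul (by norm_num)]
        norm_num
      have h4 : (0 : ℝ) ≤ (2 : ℝ) ^ (-(1 : ℝ) / 2) := by positivity
      nlinarith only [h3]
    have h5 : (0 : ℝ) < (2 : ℝ) ^ (-(K : ℝ) / 2) := by positivity
    rw [h1]
    nlinarith

end aux

theorem AMF (n m : ℕ) (hm : 1 ≤ m) : ∃ δA CA : ℝ, 0 < δA ∧ δA ≤ d0 n ∧ 0 < CA ∧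
    ∀ {δ : ℝ} {S : Stress n m δ} {α Λ : ℝ} {U : Set (E n)} {τ : ℝ} {η : ℝ → ℝ}
    (V : Sys S α Λ U), Ker τ η → 0 ≤ δ → δ ≤ δA → closedBall 0 32 ⊆ U →
    ∀ (A : ℝ), 1 ≤ A → V.μ.real (ball 0 32) ≤ A → V.UD A →
    ∀ (φ : E n → ℝ) (L : ℝ), 1 ≤ L → (∀ y, 0 ≤ φ y) → (∀ y, φ y ≤ 1) →
    (∀ y z, |φ y - φ z| ≤ L * ‖y - z‖) → (∀ y, 1 < ‖y‖ → φ y = 0) → ∀ K : ℕ,
    ∫ y, φ y * V.I η (V.P y) y ((1 / 2) ^ K) ∂V.μ ≤
      ∫ y, φ y * V.I η (V.P y) y 1 ∂V.μ +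
        CA * (δ ^ 2 * L * A ^ 2 + A * ∫ z in ball 0 32, ‖V.H z‖ ∂V.μ) := by
  obtain ⟨c₁, C₁, hc₁, hC₁, hone⟩ := amf_one m hm
  obtain ⟨J, C₂, δ₃, hC₂, hδ₃, hδ₃', hsum⟩ := amf_sumloss n m hm
  have hpow : (0 : ℝ) < (2 : ℝ) ^ (((J + 1 : ℕ) : ℝ) / 2) := by positivity
  set CB : ℝ := 5 + (2 + C₁ * C₂ + 6 * C₁) / c₁ with hCB
  have hCB0 : 0 < CB := by positivity
  refine ⟨min (min δ₃ 1) (c₁ / (2 * C₁ * C₂ * (2 : ℝ) ^ (((J + 1 : ℕ) : ℝ) / 2))),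
    C₁ * C₂ * (2 * CB + 1) + 6 * C₁, by positivity,
    (min_le_left _ _).trans ((min_le_left _ _).trans hδ₃'), by positivity, ?_⟩
  intro δ S α Λ U τ η V h hδ hδA hU A hA h32 hUD φ L hL h0 h1 hlip hφ K
  have hδ3 : δ ≤ δ₃ := hδA.trans ((min_le_left _ _).trans (min_le_left _ _))
  have hδ1 : δ ≤ 1 := hδA.trans ((min_le_left _ _).trans (min_le_right _ _))
  have hδ4 : δ ≤ c₁ / (2 * C₁ * C₂ * (2 : ℝ) ^ (((J + 1 : ℕ) : ℝ) / 2)) :=
    hδA.trans (min_le_right _ _)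
  have hδ' : δ ≤ d0 n := hδ3.trans hδ₃'
  have hδsq : δ ^ 2 ≤ δ := by nlinarith only [hδ, hδ1]
  have hδsq1 : δ ^ 2 ≤ 1 := by linarith only [hδ1, hδsq]
  have hcont : Continuous φ := by
    have hL' : LipschitzWith (Real.toNNReal L) φ := by
      refine LipschitzWith.of_dist_le_mul fun y z => ?_
      rw [Real.coe_toNNReal L (by linarith), Real.dist_eq, dist_eq_norm]
      exact hlip y z
    exact hL'.continuous
  have hφm : Measurable φ := hcont.measurable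
  set hI : ℝ := ∫ z in ball 0 32, ‖V.H z‖ ∂V.μ with hhI
  have hI0 : 0 ≤ hI := integral_nonneg fun z => norm_nonneg _
  have hAh : 0 ≤ A * hI := by positivity
  have hLA : A ^ 2 ≤ L * A ^ 2 := by nlinarith only [hL]
  set X : ℕ → ℝ := fun k => ∫ y, φ y * V.gg ((1 / 2) ^ k) y ∂V.μ with hX
  have hp : ∀ j : ℕ, (0 : ℝ) < (1 / 2) ^ j := fun j => by positivity
  have hX0 : ∀ k, 0 ≤ X k := fun k =>
    integral_nonneg fun y => mul_nonneg (h0 y) (V.gg_nonneg (hp k) y)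
  have hXle : ∀ k : ℕ, X k ≤ A ^ 2 * (2 : ℝ) ^ ((k : ℝ) / 2) := by
    intro k
    refine le_trans ?_ (gg_int_le V hA h32 hUD k)
    rw [← integral_indicator measurableSet_ball]
    refine integral_mono (F8_gg V hφm h0 h1 (hp k)) ?_ fun y => ?_
    · have h2 := F8_gg V (φ := fun _ => (1 : ℝ)) measurable_const (fun _ => zero_le_one)
        (fun _ => le_rfl) (hp k)
      simp only [one_mul] at h2
      exact h2.indicator measurableSet_ball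
    · show φ y * V.gg ((1 / 2) ^ k) y ≤ (ball (0 : E n) 2).indicator (fun y => V.gg ((1 / 2) ^ k) y) y
      by_cases hy : 1 < ‖y‖
      · rw [hφ y hy, zero_mul]
        exact Set.indicator_nonneg (fun z _ => V.gg_nonneg (hp k) z) y
      · rw [not_lt] at hy
        have hym : y ∈ ball (0 : E n) 2 := by
          rw [mem_ball_zero_iff]
          linarith only [hy]
        rw [Set.indicator_of_mem hym]
        calc φ y * V.gg ((1 / 2) ^ k) y ≤ 1 * V.gg ((1 / 2) ^ k) y :=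
              mul_le_mul_of_nonneg_right (h1 y) (V.gg_nonneg (hp k) y)
          _ = V.gg ((1 / 2) ^ k) y := one_mul _
  have hTH : ∀ K : ℕ, ∫ y, φ y * V.hh 2 y ∂V.μ
      + ∑ j ∈ Finset.range (K + 2), ∫ y, φ y * V.hh ((1 / 2) ^ j) y ∂V.μ ≤ 6 * (A * hI) := by
    intro K
    have h2 := hh_int_le₂ V hA h32 hφm h0 h1 hφ
    have h3 : ∑ j ∈ Finset.range (K + 2), ∫ y, φ y * V.hh ((1 / 2) ^ j) y ∂V.μ
        ≤ ∑ j ∈ Finset.range (K + 2), (A * hI) * (2 : ℝ) ^ (-(j : ℝ) / 2) := by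
      refine Finset.sum_le_sum fun j _ => ?_
      refine (hh_int_le V hA h32 hUD hφm h0 h1 hφ j).trans (le_of_eq ?_)
      ring
    rw [← Finset.mul_sum] at h3
    have h4 : ∑ j ∈ Finset.range (K + 2), (2 : ℝ) ^ (-(j : ℝ) / 2) ≤ 4 := by
      refine (F8_geom (K + 2)).trans ?_
      have h5 : (0 : ℝ) < (2 : ℝ) ^ (-((K + 2 : ℕ) : ℝ) / 2) := by positivity
      linarith only [h5]
    have h6 := mul_le_mul_of_nonneg_left h4 hAh
    have h7 : 2 * A * hI = 2 * (A * hI) := by ring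
    rw [← hhI, h7] at h2
    linarith only [h2, h3, h6]
  have hstar : ∀ K : ℕ, c₁ * ∑ j ∈ Finset.Ico 2 (K - 1), X j
      + ∫ y, φ y * V.I η (V.P y) y ((1 / 2) ^ K) ∂V.μ
      ≤ ∫ y, φ y * V.I η (V.P y) y 1 ∂V.μ
        + C₁ * C₂ * δ ^ 2 * (∑ k ∈ Finset.range (K + J), X k + L * A ^ 2 + A * hI)
        + 6 * C₁ * (A * hI) := by
    intro K
    have h2 := F8_star V h hδ hδ' hφm h0 h1 hφ hU K (fun y hy => hone V h hδ hδ' y hy K)
    have h3 := hsum V hδ hδ3 hU A hA h32 hUD φ L hL h0 h1 hlip hφ K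
    have h4 := mul_le_mul_of_nonneg_left h3 (show 0 ≤ C₁ * δ ^ 2 by positivity)
    have h5 := mul_le_mul_of_nonneg_left (hTH K) hC₁.le
    rw [← hhI] at h4
    have h6 : C₁ * δ ^ 2 * (C₂ * (∑ k ∈ Finset.range (K + J), ∫ y, φ y * V.gg ((1 / 2) ^ k) y ∂V.μ
        + L * A ^ 2 + A * hI))
        = C₁ * C₂ * δ ^ 2 * (∑ k ∈ Finset.range (K + J), X k + L * A ^ 2 + A * hI) := by
      rw [hX]
      ring
    rw [h6] at h4
    have h7 : C₁ * (6 * (A * hI)) = 6 * C₁ * (A * hI) := by ring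
    rw [h7] at h5
    have h8 : c₁ * ∑ j ∈ Finset.Ico 2 (K - 1), X j
        = c₁ * ∑ j ∈ Finset.Ico 2 (K - 1), ∫ y, φ y * V.gg ((1 / 2) ^ j) y ∂V.μ := rfl
    rw [h8]
    linarith
  have hI1 : ∫ y, φ y * V.I η (V.P y) y 1 ∂V.μ ≤ 2 * A ^ 2 := by
    have h3δ : 3 * δ ≤ 1 / 2 := by
      have h9 : d0 n ≤ 1 / 100 := d0_le
      linarith only [hδ', h9]
    have h2 := f7_phi_le V h32 h0 h1 hφ (f := fun y => V.I η (V.P y) y 1) (c := 2 * A)
      (by positivity) (fun y => V.I_nonneg h hδ hδ' _ y (by norm_num)) (fun y hy => by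
        refine (V.I_le h hδ hδ' (V.hP y) y (by norm_num)).trans ?_
        have h3 : 1 / (1 - 3 * δ) ≤ 2 := by
          rw [div_le_iff₀ (by linarith)]
          linarith
        have h4 : V.μ.real (ball y (1 / (1 - 3 * δ))) ≤ A := f7_measure_le V h32 (by linarith)
        rw [one_pow, inv_one, one_mul]
        have h5 : (0 : ℝ) ≤ V.μ.real (ball y (1 / (1 - 3 * δ))) := measureReal_nonneg
        nlinarith only [h3δ, h4, h5])
    refine h2.trans (le_of_eq ?_)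
    ring
  have hIK0 : ∀ K : ℕ, 0 ≤ ∫ y, φ y * V.I η (V.P y) y ((1 / 2) ^ K) ∂V.μ := fun K =>
    integral_nonneg fun y => mul_nonneg (h0 y) (V.I_nonneg h hδ hδ' _ y (hp K))
  set Sq : ℕ → ℝ := fun K => ∑ k ∈ Finset.range K, X k with hSq
  set B : ℝ := CB * (L * A ^ 2 + A * hI) with hB
  have hB0 : 0 ≤ B := by positivity
  have hX1 : X 0 + X 1 ≤ 3 * A ^ 2 := by
    have h2 := hXle 0
    have h3 := hXle 1
    have h4 : (2 : ℝ) ^ (((0 : ℕ) : ℝ) / 2) = 1 := by simp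
    have h5 : (2 : ℝ) ^ (((1 : ℕ) : ℝ) / 2) ≤ 2 := by
      calc (2 : ℝ) ^ (((1 : ℕ) : ℝ) / 2) ≤ (2 : ℝ) ^ (1 : ℝ) :=
            Real.rpow_le_rpow_of_exponent_le (by norm_num) (by norm_num)
        _ = 2 := Real.rpow_one 2
    rw [h4] at h2
    nlinarith only [h2, h3, h5]
  have hsplit : ∀ K : ℕ, Sq K ≤ X 0 + X 1 + ∑ j ∈ Finset.Ico 2 K, X j := by
    intro K
    have hle : Finset.range K ⊆ Finset.range 2 ∪ Finset.Ico 2 K := by
      intro k hk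
      rw [Finset.mem_range] at hk
      rw [Finset.mem_union, Finset.mem_range, Finset.mem_Ico]
      omega
    have hdis : Disjoint (Finset.range 2) (Finset.Ico 2 K) := by
      rw [Finset.disjoint_left]
      intro k hk hk'
      rw [Finset.mem_range] at hk
      rw [Finset.mem_Ico] at hk'
      omega
    calc Sq K ≤ ∑ k ∈ Finset.range 2 ∪ Finset.Ico 2 K, X k :=
          Finset.sum_le_sum_of_subset_of_nonneg hle fun k _ _ => hX0 k
      _ = ∑ k ∈ Finset.range 2, X k + ∑ j ∈ Finset.Ico 2 K, X j := Finset.sum_union hdis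
      _ = X 0 + X 1 + ∑ j ∈ Finset.Ico 2 K, X j := by
          rw [Finset.sum_range_succ, Finset.sum_range_one]
  have hgrow : ∀ K : ℕ, Sq K ≤ B + (C₁ * C₂ * δ ^ 2 / c₁) * Sq (K + (J + 1)) := by
    intro K
    have h2 := hstar (K + 1)
    have h3 : K + 1 - 1 = K := by omega
    have h4 : K + 1 + J = K + (J + 1) := by ring
    rw [h3, h4] at h2
    have h5 := hIK0 (K + 1)
    have h6 : c₁ * ∑ j ∈ Finset.Ico 2 K, X j ≤ 2 * A ^ 2
        + C₁ * C₂ * δ ^ 2 * (Sq (K + (J + 1)) + L * A ^ 2 + A * hI) + 6 * C₁ * (A * hI) := by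
      linarith only [hI1, h2, h5]
    have h7 : ∑ j ∈ Finset.Ico 2 K, X j ≤ (2 * A ^ 2
        + C₁ * C₂ * δ ^ 2 * (Sq (K + (J + 1)) + L * A ^ 2 + A * hI) + 6 * C₁ * (A * hI)) / c₁ := by
      rw [le_div_iff₀ hc₁, mul_comm]
      exact h6
    have h8 := hsplit K
    have h9 : (2 * A ^ 2 + C₁ * C₂ * δ ^ 2 * (Sq (K + (J + 1)) + L * A ^ 2 + A * hI)
        + 6 * C₁ * (A * hI)) / c₁
        = (2 * A ^ 2 + C₁ * C₂ * δ ^ 2 * (L * A ^ 2 + A * hI) + 6 * C₁ * (A * hI)) / c₁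
          + (C₁ * C₂ * δ ^ 2 / c₁) * Sq (K + (J + 1)) := by
      field_simp
      ring
    have h10 : (2 * A ^ 2 + C₁ * C₂ * δ ^ 2 * (L * A ^ 2 + A * hI) + 6 * C₁ * (A * hI)) / c₁
        ≤ ((2 + C₁ * C₂ + 6 * C₁) / c₁) * (L * A ^ 2 + A * hI) := by
      rw [div_mul_eq_mul_div]
      refine div_le_div_of_nonneg_right ?_ hc₁.le
      have h11 : C₁ * C₂ * δ ^ 2 * (L * A ^ 2 + A * hI) ≤ C₁ * C₂ * 1 * (L * A ^ 2 + A * hI) := by
        refine mul_le_mul_of_nonneg_right (mul_le_mul_of_nonneg_left hδsq1 (by positivity)) ?_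
        positivity
      have h12 : 0 ≤ C₁ * (L * A ^ 2) := by positivity
      linarith only [hAh, hLA, h11, h12]
    have h13 : 3 * A ^ 2 ≤ 5 * (L * A ^ 2 + A * hI) := by nlinarith only [hAh, hLA]
    calc Sq K ≤ X 0 + X 1 + ∑ j ∈ Finset.Ico 2 K, X j := h8
      _ ≤ 5 * (L * A ^ 2 + A * hI) + (((2 + C₁ * C₂ + 6 * C₁) / c₁) * (L * A ^ 2 + A * hI)
          + (C₁ * C₂ * δ ^ 2 / c₁) * Sq (K + (J + 1))) := by linarith only [hX1, h7, h9, h10, h13]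
      _ = B + (C₁ * C₂ * δ ^ 2 / c₁) * Sq (K + (J + 1)) := by
          rw [hB, hCB]
          ring
  have hup : ∀ K : ℕ, Sq K ≤ (3 * A ^ 2) * (2 : ℝ) ^ ((K : ℝ) / 2) := by
    intro K
    induction K with
    | zero =>
      simp only [hSq, Finset.range_zero, Finset.sum_empty]
      positivity
    | succ K ih =>
      have h2 : Sq (K + 1) = Sq K + X K := Finset.sum_range_succ _ _
      have h3 : (2 : ℝ) ^ (((K + 1 : ℕ) : ℝ) / 2)
          = (2 : ℝ) ^ ((K : ℝ) / 2) * (2 : ℝ) ^ ((1 : ℝ) / 2) := by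
        rw [← Real.rpow_add (by norm_num)]
        congr 1
        push_cast
        ring
      have h4 : 4 / 3 ≤ (2 : ℝ) ^ ((1 : ℝ) / 2) := by
        have h5 : ((2 : ℝ) ^ ((1 : ℝ) / 2)) ^ 2 = 2 := by
          rw [← Real.rpow_natCast, ← Real.rpow_mul (by norm_num)]
          norm_num
        have h6 : (0 : ℝ) ≤ (2 : ℝ) ^ ((1 : ℝ) / 2) := by positivity
        nlinarith only [h5, h6]
      have h7 : 0 ≤ A ^ 2 * (2 : ℝ) ^ ((K : ℝ) / 2) := by positivity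
      rw [h2, h3]
      have h8 := hXle K
      nlinarith only [ih, h4, h7, h8]
  have hδ'' : 0 ≤ C₁ * C₂ * δ ^ 2 / c₁ := by positivity
  have hsmall : (C₁ * C₂ * δ ^ 2 / c₁) * (2 : ℝ) ^ (((J + 1 : ℕ) : ℝ) / 2) ≤ 1 / 2 := by
    have h2 : δ ^ 2 ≤ c₁ / (2 * C₁ * C₂ * (2 : ℝ) ^ (((J + 1 : ℕ) : ℝ) / 2)) := hδsq.trans hδ4
    rw [le_div_iff₀ (by positivity)] at h2
    rw [div_mul_eq_mul_div, div_le_iff₀ hc₁]
    linarith only [h2]
  have hSK := growth Sq B (3 * A ^ 2) (C₁ * C₂ * δ ^ 2 / c₁) (J + 1) hB0 hδ'' hsmall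
    (by positivity) hgrow hup (K + J)
  have h2 := hstar K
  have h3 : 0 ≤ c₁ * ∑ j ∈ Finset.Ico 2 (K - 1), X j :=
    mul_nonneg hc₁.le (Finset.sum_nonneg fun j _ => hX0 j)
  have h4 : C₁ * C₂ * δ ^ 2 * (∑ k ∈ Finset.range (K + J), X k + L * A ^ 2 + A * hI)
      ≤ C₁ * C₂ * δ ^ 2 * ((2 * CB + 1) * (L * A ^ 2 + A * hI)) := by
    refine mul_le_mul_of_nonneg_left ?_ (by positivity)
    have h5 : ∑ k ∈ Finset.range (K + J), X k ≤ 2 * B := hSK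
    rw [hB] at h5
    linarith only [h5]
  have h6 : C₁ * C₂ * δ ^ 2 * ((2 * CB + 1) * (L * A ^ 2 + A * hI))
      ≤ C₁ * C₂ * (2 * CB + 1) * (δ ^ 2 * L * A ^ 2 + A * hI) := by
    have h7 : δ ^ 2 * (A * hI) ≤ 1 * (A * hI) := mul_le_mul_of_nonneg_right hδsq1 hAh
    have h8 : 0 ≤ C₁ * C₂ * (2 * CB + 1) := by positivity
    have h9 := mul_le_mul_of_nonneg_left h7 h8
    linarith only [h9]
  have h10 : 0 ≤ C₁ * (δ ^ 2 * L * A ^ 2) := by positivity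
  linarith only [h2, h3, h4, h6, h10]

end Allard
end
end

section

/-!
# L2a: unit situation, crude bounds

Unit situation: `closedBall 0 1 ⊆ U`, `μ (ball 0 (1/2)) ≤ om`, `μ(ball 0 (ε/2)) ≥ om/2 (ε/2)^m`,
`0 < ε ≤ 1/64`.  Claim: some `z` with `‖z‖ ≤ ε` and
`I_z(1/64) ≥ c₀ om - κ`, `c₀ = (1-δ)((1-τ)/(1+3δ))^m`, with plane `V.P z`, if `δ`, `lam` are small
(depending on `ε, κ`).

Proof.  `V' := V.rs 0 (1/64)`: `closedBall 0 64 ⊆ U'`, `μ'(ball 0 32) = 64^m μ(ball 0 (1/2)) ≤ 64^m om`.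
`crude_mass` for `V'` at `y ∈ ball 0 4`: `closedBall y 4 ⊆ U'`, `μ'(ball y 4) ≤ 64^m om`: `V'.UD A` with
`A = (c+1)(64^m om + 1)`.  `φ y = max 0 (1 - ‖y‖/ε')`, `ε' = 64 ε ≤ 1`, `L = 1/ε'`;
`∫ φ dμ' ≥ (1/2) μ'(ball 0 (ε'/2)) ≥ (1/4) om (ε'/2)^m =: I₀ > 0`.
`fatou_I` with `c = c₀ om - κ/2`, AMF for this `K`:
`(c₀ om - κ/2) ∫ φ ≤ ∫ φ I_y(1) + CA (δ² A²/ε' + A ∫_{ball 0 32} ‖H'‖ dμ')`, and
`∫_{ball 0 32} ‖H'‖ = 32^{m-1}` `V'.hh 32 0 ≤ C lam` (`hh_le`; `Λ ≤ lam`).  For small `δ, lam` the last term is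
`≤ (κ/2) I₀ ≤ (κ/2) ∫ φ`.  So `∫ φ (I_y(1) - (c₀ om - κ)) ≥ 0` and, as `∫ φ > 0`, some `y` with
`φ y > 0` has `I_y(1) ≥ c₀ om - κ`.  (`rs_I`.)
-/

noncomputable section

open MeasureTheory Metric Set Filter Topology

namespace Allard

theorem unit_UD (n m : ℕ) (hm : 1 ≤ m) : ∃ A δ₁ : ℝ, 1 ≤ A ∧ 0 < δ₁ ∧ δ₁ ≤ d0 n ∧
    ∀ {δ : ℝ} {S : Stress n m δ} {α Λ : ℝ} {U : Set (E n)} (V : Sys S α Λ U),
    0 ≤ δ → δ ≤ δ₁ → 0 ≤ Λ → 0 < α → α < 1 → lam α Λ ≤ 1 → closedBall 0 1 ⊆ U →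
    V.μ.real (ball 0 (1 / 2)) ≤ om m →
    (V.rs 0 (1 / 64) (by norm_num)).μ.real (ball 0 32) ≤ A ∧
    (V.rs 0 (1 / 64) (by norm_num)).UD A ∧
    ∫ z in ball 0 32, ‖(V.rs 0 (1 / 64) (by norm_num)).H z‖
      ∂(V.rs 0 (1 / 64) (by norm_num)).μ ≤ A * lam α Λ := by
  obtain ⟨c, δc, hc, hδc, hcm⟩ := crude_mass n m hm
  have hom : 0 ≤ om m := measureReal_nonneg
  obtain ⟨A₀, hA₀⟩ : ∃ A₀ : ℝ, A₀ = 64 ^ m * om m := ⟨_, rfl⟩
  have hA₀0 : 0 ≤ A₀ := by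
    rw [hA₀]
    positivity
  have hd0 : 0 < d0 n := by
    unfold d0
    positivity
  obtain ⟨A, hA⟩ : ∃ A : ℝ, A = (c + 1) * (A₀ + 1) + 32 ^ m * (1 + A₀) + 1 := ⟨_, rfl⟩
  have hp1 : 0 ≤ (c + 1) * (A₀ + 1) := by positivity
  have hp2 : 0 ≤ (32 : ℝ) ^ m * (1 + A₀) := by positivity
  have hp3 : A₀ ≤ (c + 1) * (A₀ + 1) := by nlinarith
  refine ⟨A, min δc (d0 n), by linarith, lt_min hδc hd0, min_le_right _ _, ?_⟩
  intro δ S α Λ U V hδ0 hδ hΛ hα hα1 hlam hU hμ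
  have hδc' : δ ≤ δc := hδ.trans (min_le_left _ _)
  have hr : (0 : ℝ) < 1 / 64 := by norm_num
  have h1 : (V.rs 0 (1 / 64) hr).μ.real (ball 0 32) ≤ A₀ := by
    rw [rs_real_ball]
    have e1 : (0 : E n) + (1 / 64 : ℝ) • (0 : E n) = 0 := by simp
    have e2 : (1 / 64 : ℝ) * 32 = 1 / 2 := by norm_num
    have e3 : (((1 : ℝ) / 64) ^ m)⁻¹ = 64 ^ m := by rw [one_div, inv_pow, inv_inv]
    rw [e1, e2, e3, hA₀]
    exact mul_le_mul_of_nonneg_left hμ (by positivity)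
  have hb64 : ((1 : ℝ) / 64) ^ α ≤ 1 := Real.rpow_le_one (by norm_num) (by norm_num) hα.le
  have hb640 : (0 : ℝ) ≤ ((1 : ℝ) / 64) ^ α := Real.rpow_nonneg (by norm_num) _
  have hΛ' : 0 ≤ Λ * (1 / 64) ^ α := mul_nonneg hΛ hb640
  have h2 : (2 : ℝ) ^ (-α) < 1 := Real.rpow_lt_one_of_one_lt_of_neg (by norm_num) (by linarith)
  have h20 : (0 : ℝ) < (2 : ℝ) ^ (-α) := Real.rpow_pos_of_pos (by norm_num) _
  have hden : 0 < 1 - (2 : ℝ) ^ (-α) := by linarith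
  have hlam0 : 0 ≤ lam α Λ := div_nonneg hΛ hden.le
  have hΛlam : Λ ≤ lam α Λ := by
    unfold lam
    rw [le_div_iff₀ hden]
    nlinarith
  have hlam' : lam α (Λ * (1 / 64) ^ α) ≤ 1 := by
    rw [lam_mul]
    calc lam α Λ * (1 / 64) ^ α ≤ lam α Λ * 1 := mul_le_mul_of_nonneg_left hb64 hlam0
      _ ≤ 1 := by rw [mul_one]; exact hlam
  refine ⟨h1.trans (by linarith), ?_, ?_⟩
  · intro y hy i
    rw [mem_ball_zero_iff] at hy
    have hcl : closedBall y 4 ⊆ (fun w : E n => (0 : E n) + (1 / 64 : ℝ) • w) ⁻¹' U := by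
      intro w hw
      apply hU
      rw [mem_closedBall_zero_iff]
      rw [mem_closedBall, dist_eq_norm] at hw
      beta_reduce
      rw [zero_add, norm_smul, Real.norm_of_nonneg (by norm_num : (0 : ℝ) ≤ 1 / 64)]
      have h3 : ‖w‖ ≤ ‖w - y‖ + ‖y‖ := by
        have := norm_add_le (w - y) y
        rwa [sub_add_cancel] at this
      linarith
    have h3 := hcm (V.rs 0 (1 / 64) hr) hδ0 hδc' hΛ' hα hα1 hlam' y hcl i
    refine h3.trans ?_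
    have h4 : (V.rs 0 (1 / 64) hr).μ.real (ball y 4) ≤ A₀ := by
      refine le_trans (measureReal_mono ?_) h1
      intro w hw
      rw [mem_ball, dist_eq_norm] at hw
      rw [mem_ball_zero_iff]
      have h5 : ‖w‖ ≤ ‖w - y‖ + ‖y‖ := by
        have := norm_add_le (w - y) y
        rwa [sub_add_cancel] at this
      linarith
    have h5 : c * ((V.rs 0 (1 / 64) hr).μ.real (ball y 4) + 1) ≤ A := by
      have h6 : c * ((V.rs 0 (1 / 64) hr).μ.real (ball y 4) + 1) ≤ c * (A₀ + 1) :=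
        mul_le_mul_of_nonneg_left (by linarith) hc.le
      nlinarith
    have h7 : (0 : ℝ) ≤ ((1 / 2) ^ i) ^ m := by positivity
    have h8 : (0 : ℝ) ≤ (2 : ℝ) ^ ((i : ℝ) / 2) := by positivity
    exact mul_le_mul_of_nonneg_right (mul_le_mul_of_nonneg_right h5 h7) h8
  · have h3 := (V.rs 0 (1 / 64) hr).hh_le (ρ := 32) (by norm_num) 0
    have e1 : ∫ z in ball 0 32, ‖(V.rs 0 (1 / 64) hr).H z‖ ∂(V.rs 0 (1 / 64) hr).μ =
        32 ^ m / 32 * (V.rs 0 (1 / 64) hr).hh 32 0 := by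
      unfold Sys.hh
      have h4 : (32 : ℝ) ^ m ≠ 0 := by positivity
      field_simp
    have h5 : Λ * (1 / 64) ^ α * (32 : ℝ) ^ α ≤ lam α Λ := by
      have h6 : ((1 : ℝ) / 64) ^ α * (32 : ℝ) ^ α ≤ 1 := by
        rw [← Real.mul_rpow (by norm_num) (by norm_num)]
        exact Real.rpow_le_one (by norm_num) (by norm_num) hα.le
      calc Λ * (1 / 64) ^ α * (32 : ℝ) ^ α = Λ * ((1 / 64) ^ α * (32 : ℝ) ^ α) := by ring
        _ ≤ Λ * 1 := mul_le_mul_of_nonneg_left h6 hΛ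
        _ ≤ lam α Λ := by rw [mul_one]; exact hΛlam
    have h6 : 1 + ((32 : ℝ) ^ m)⁻¹ * (V.rs 0 (1 / 64) hr).μ.real (ball 0 32) ≤ 1 + A₀ := by
      have h7 : ((32 : ℝ) ^ m)⁻¹ ≤ 1 := inv_le_one_of_one_le₀ (one_le_pow₀ (by norm_num))
      have h8 : ((32 : ℝ) ^ m)⁻¹ * (V.rs 0 (1 / 64) hr).μ.real (ball 0 32) ≤
          1 * (V.rs 0 (1 / 64) hr).μ.real (ball 0 32) :=
        mul_le_mul_of_nonneg_right h7 measureReal_nonneg
      linarith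
    have h7 : (V.rs 0 (1 / 64) hr).hh 32 0 ≤ lam α Λ * (1 + A₀) :=
      h3.trans (mul_le_mul h5 h6 (by positivity) hlam0)
    rw [e1]
    calc (32 : ℝ) ^ m / 32 * (V.rs 0 (1 / 64) hr).hh 32 0
        ≤ 32 ^ m / 32 * (lam α Λ * (1 + A₀)) := mul_le_mul_of_nonneg_left h7 (by positivity)
      _ ≤ 32 ^ m * (lam α Λ * (1 + A₀)) := by
          refine mul_le_mul_of_nonneg_right ?_ (by positivity)
          exact div_le_self (by positivity) (by norm_num)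
      _ = (32 ^ m * (1 + A₀)) * lam α Λ := by ring
      _ ≤ A * lam α Λ := mul_le_mul_of_nonneg_right (by linarith) hlam0

end Allard
end
end
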