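import Pool.Agent.Lib.MP_5932b0_an.AR.D2
import Pool.Agent.Lib.MP_5932b0_an.ST.Fin
import Pool.Agent.Lib.MP_5932b0_an.AR.W10
import Pool.Agent.Lib.MP_5932b0_an.AR.L2a

section

section

/-!
# J2: flatness from small gains (unit scale)

`μ(ball 0 1) ≥ (31/32) om` (LD at `0`; `closedBall 0 1 ⊆ U`), `μ(ball 0 2) ≤ 2 * 2^m om ≤ 2^{m+2} μ(ball 0 1)`.
`triple_lemma` with `C₃ = 2^{m+2}`, `y = 0`: `J`, `C`.  `s₀ ≤ 2^{-J}`.
Integrate over `z₁, z₂ ∈ ball 0 1`: for fixed `z₁`, and `z'` with `‖z'-z₁‖ ≥ 2^{-J} ≥ s₀`, `‖z'-z₁‖ < 2`; Fubini: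
`∫_{z₁}∫_{z'} ga (P z₁)(z₁-z') = ∫_{z'} (∫_{s₀ ≤ ‖z₁-z'‖ < 2} ga (P z₁)(z₁-z') dμ(z₁)) dμ(z') ≤ μ(ball 0 1) g`
(for `μ`-a.e. `z'`, which is in the support).
`∫∫ ‖P z₁ - P z₂‖² ≤ 2 C μ(ball 0 1) g`; so some `z₂ ∈ ball 0 1` has
`∫_{ball 0 1} ‖P z₁ - P z₂‖² dμ(z₁) ≤ 2 C g`.  `Q := P z₂`.
Height: for `‖z‖ < s₀`, `‖(1-Q)z‖² ≤ s₀²`; for `s₀ ≤ ‖z‖ < 1`:
`‖(1-Q)z‖² ≤ 2‖(1-P z)z‖² + 2‖P z - Q‖² ≤ 2 ga (P z) z + 2 ‖P z - Q‖²` (gain at `y = 0`).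
-/

noncomputable section

open MeasureTheory Metric Set Filter Topology

namespace Allard

private lemma J2_meas {n m : ℕ} {δ : ℝ} {S : Stress n m δ} {α Λ : ℝ} {U : Set (E n)}
    (V : Sys S α Λ U) : Measurable (fun x : E n × E n => ga (V.P x.1) (x.1 - x.2)) := by
  have h1 : Measurable fun x : E n × E n => x.1 - x.2 := by fun_prop
  have h0 : Measurable fun x : E n × E n => V.P x.1 := V.mP.comp measurable_fst
  have h2 : Measurable fun x : E n × E n => ((V.P x.1, x.1 - x.2) : Op n × E n) := h0.prodMk h1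
  have h3 : Measurable fun x : Op n × E n => ga x.1 x.2 := Allard.measurable_ga
  have h4 := h3.comp h2
  simpa only [Function.comp_def] using h4

private lemma J2_meas1 {n m : ℕ} {δ : ℝ} {S : Stress n m δ} {α Λ : ℝ} {U : Set (E n)}
    (V : Sys S α Λ U) (z₁ : E n) : Measurable (fun z => ga (V.P z₁) (z₁ - z)) := by
  have h1 : Measurable fun z : E n => z₁ - z := by fun_prop
  have h0 : Measurable fun _ : E n => V.P z₁ := measurable_const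
  have h2 : Measurable fun z : E n => ((V.P z₁, z₁ - z) : Op n × E n) := h0.prodMk h1
  have h3 : Measurable fun x : Op n × E n => ga x.1 x.2 := Allard.measurable_ga
  have h4 := h3.comp h2
  simpa only [Function.comp_def] using h4

private lemma J2_bd {n m : ℕ} {P : Op n} (hP : Pr n m P) (v : E n) : ‖ga P v‖ ≤ 1 := by
  rw [Real.norm_eq_abs, abs_of_nonneg (ga_nonneg _)]
  exact ga_le_one hP _

/-- averaging of the gains over the unit ball -/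
private lemma J2_avg {n m : ℕ} {δ : ℝ} {S : Stress n m δ} {α Λ : ℝ} {U : Set (E n)}
    (V : Sys S α Λ U) (hM : 0 < V.μ.real (ball 0 1)) {s₀ g : ℝ}
    (hg : ∀ y ∈ V.μ.support, ‖y‖ < 1 →
      ∫ z in {z | s₀ ≤ ‖z - y‖ ∧ ‖z - y‖ < 2}, ga (V.P z) (z - y) ∂V.μ ≤ g) :
    ∃ G : E n → ℝ, (∀ z₁, G z₁ = ∫ z in ball 0 1 ∩ {z | s₀ ≤ ‖z₁ - z‖}, ga (V.P z₁) (z₁ - z) ∂V.μ) ∧
      IntegrableOn G (ball 0 1) V.μ ∧
      ∫ z in ball 0 1, G z ∂V.μ ≤ V.μ.real (ball 0 1) * g ∧ ∃ z₂ ∈ ball (0 : E n) 1, G z₂ ≤ g := by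
  set B : Set (E n) := ball 0 1 with hB
  set D : Set (E n × E n) := {x | s₀ ≤ ‖x.1 - x.2‖} with hD
  have hDm : MeasurableSet D :=
    measurableSet_le measurable_const (measurable_fst.sub measurable_snd).norm
  set f : E n × E n → ℝ := D.indicator (fun x => ga (V.P x.1) (x.1 - x.2)) with hf
  have hfm : Measurable f := (J2_meas V).indicator hDm
  have hfb : ∀ x, ‖f x‖ ≤ 1 := by
    intro x
    rw [hf]
    by_cases hx : x ∈ D
    · rw [Set.indicator_of_mem hx]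
      exact J2_bd (V.hP _) _
    · rw [Set.indicator_of_notMem hx, norm_zero]
      exact zero_le_one
  set ν : Measure (E n) := V.μ.restrict B with hν
  have hfi : Integrable f (ν.prod ν) :=
    Integrable.mono' (g := fun _ => (1 : ℝ)) (integrable_const _) hfm.aestronglyMeasurable
      (Filter.Eventually.of_forall hfb)
  have hsec : ∀ z₁, ∫ z, f (z₁, z) ∂ν =
      ∫ z in B ∩ {z | s₀ ≤ ‖z₁ - z‖}, ga (V.P z₁) (z₁ - z) ∂V.μ := by
    intro z₁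
    have hm1 : MeasurableSet {z : E n | s₀ ≤ ‖z₁ - z‖} :=
      measurableSet_le measurable_const (measurable_const.sub measurable_id).norm
    rw [← setIntegral_indicator hm1]
    rfl
  have hGi : Integrable (fun z₁ => ∫ z, f (z₁, z) ∂ν) ν := hfi.integral_prod_left
  have hswap : ∫ z₁, ∫ z, f (z₁, z) ∂ν ∂ν = ∫ z, ∫ z₁, f (z₁, z) ∂ν ∂ν :=
    integral_integral_swap (f := fun a b => f (a, b)) hfi
  have hsupp : ∀ᵐ z ∂ν, z ∈ V.μ.support := by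
    refine ae_restrict_of_ae ?_
    exact Measure.support_mem_ae
  have hBae : ∀ᵐ z ∂ν, z ∈ B := ae_restrict_mem measurableSet_ball
  have hinner : ∀ᵐ z ∂ν, ∫ z₁, f (z₁, z) ∂ν ≤ g := by
    filter_upwards [hsupp, hBae] with z hz hzB
    have hzn : ‖z‖ < 1 := by
      rw [hB, mem_ball, dist_zero_right] at hzB
      exact hzB
    refine le_trans ?_ (hg z hz hzn)
    have hm1 : MeasurableSet {z₁ : E n | s₀ ≤ ‖z₁ - z‖} :=
      measurableSet_le measurable_const (measurable_id.sub measurable_const).norm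
    have hm2 : MeasurableSet {z₁ : E n | s₀ ≤ ‖z₁ - z‖ ∧ ‖z₁ - z‖ < 2} :=
      hm1.inter (measurableSet_lt (measurable_id.sub measurable_const).norm measurable_const)
    have h1 : ∫ z₁, f (z₁, z) ∂ν =
        ∫ z₁ in B ∩ {z₁ | s₀ ≤ ‖z₁ - z‖}, ga (V.P z₁) (z₁ - z) ∂V.μ := by
      rw [← setIntegral_indicator hm1]
      rfl
    rw [h1]
    refine setIntegral_mono_set ?_ ?_ ?_
    · refine Integrable.mono' (g := fun _ => (1 : ℝ)) (integrable_const _) ?_ ?_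
      · exact (V.measurable_ga z).aestronglyMeasurable
      · exact Filter.Eventually.of_forall fun z₁ => J2_bd (V.hP _) _
    · exact Filter.Eventually.of_forall fun z₁ => ga_nonneg _
    · refine Filter.Eventually.of_forall fun z₁ hz₁ => ?_
      obtain ⟨h2, h3⟩ := hz₁
      refine ⟨h3, ?_⟩
      rw [hB, mem_ball, dist_zero_right] at h2
      calc ‖z₁ - z‖ ≤ ‖z₁‖ + ‖z‖ := norm_sub_le _ _
        _ < 2 := by linarith
  have hM' : ν.real univ = V.μ.real B := by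
    rw [hν, measureReal_restrict_apply MeasurableSet.univ, Set.univ_inter]
  have htot : ∫ z₁, ∫ z, f (z₁, z) ∂ν ∂ν ≤ V.μ.real B * g := by
    rw [hswap]
    refine (integral_mono_ae hfi.integral_prod_right (integrable_const g) hinner).trans ?_
    rw [integral_const, smul_eq_mul, hM']
  refine ⟨fun z₁ => ∫ z in B ∩ {z | s₀ ≤ ‖z₁ - z‖}, ga (V.P z₁) (z₁ - z) ∂V.μ, fun _ => rfl, ?_, ?_, ?_⟩
  · refine hGi.congr (Filter.Eventually.of_forall fun z₁ => ?_)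
    exact hsec z₁
  · refine le_trans (le_of_eq ?_) htot
    refine integral_congr_ae (Filter.Eventually.of_forall fun z₁ => ?_)
    exact (hsec z₁).symm
  · have hμ0 : V.μ B ≠ 0 := by
      intro h
      rw [measureReal_def, h] at hM
      exact lt_irrefl _ hM
    obtain ⟨z₂, hz₂, h⟩ := exists_le_setAverage hμ0 (measure_ne_top V.μ B)
      (show IntegrableOn (fun z₁ => ∫ z, f (z₁, z) ∂ν) B V.μ from hGi)
    refine ⟨z₂, hz₂, ?_⟩
    rw [setAverage_eq, smul_eq_mul] at h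
    show (∫ z in B ∩ {z | s₀ ≤ ‖z₂ - z‖}, ga (V.P z₂) (z₂ - z) ∂V.μ) ≤ g
    rw [← hsec z₂]
    refine h.trans ?_
    rw [inv_mul_le_iff₀ hM]
    exact htot

theorem flat_unit (n m : ℕ) (hm : 1 ≤ m) : ∃ s₁ C : ℝ, 0 < s₁ ∧ s₁ ≤ 1 ∧ 0 < C ∧
    ∀ {δ : ℝ} {S : Stress n m δ} {α Λ : ℝ} {U : Set (E n)} (V : Sys S α Λ U),
    0 ≤ δ → δ ≤ d0 n → closedBall 0 2 ⊆ U → V.LD (1 / 32) → (0 : E n) ∈ V.μ.support →
    V.μ.real (ball 0 2) ≤ 2 * om m * 2 ^ m →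
    ∫ z in ball 0 2, ‖V.H z‖ ∂V.μ ≤ V.μ.real (ball 0 1) →
    ∀ s₀ g : ℝ, 0 < s₀ → s₀ ≤ s₁ →
    (∀ y ∈ V.μ.support, ‖y‖ < 1 →
      ∫ z in {z | s₀ ≤ ‖z - y‖ ∧ ‖z - y‖ < 2}, ga (V.P z) (z - y) ∂V.μ ≤ g) →
    ∃ Q : Op n, Pr n m Q ∧ ∫ z in ball 0 1, ‖(1 - Q) z‖ ^ 2 ∂V.μ ≤ C * (g + s₀ ^ 2) := by
  have hC3 : (1 : ℝ) ≤ 2 ^ (m + 2) := one_le_pow₀ (by norm_num)
  obtain ⟨J, C, hJ1, hC, htri⟩ := triple_lemma n m hm (2 ^ (m + 2)) hC3
  have hom : 0 < om m := om_pos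
  have h2m : (0 : ℝ) < 2 ^ m := by positivity
  refine ⟨(1 / 2) ^ J, 2 * om m * 2 ^ m + 2 + 4 * C, by positivity,
    pow_le_one₀ (by norm_num) (by norm_num), by positivity, ?_⟩
  intro δ S α Λ U V hδ hδ' hU hLD h0 hmass hH s₀ g hs₀ hs₁ hg
  set B : Set (E n) := ball 0 1 with hB
  set M : ℝ := V.μ.real B with hM
  have hMlow : 31 / 32 * om m ≤ M := by
    have h1 := hLD 0 h0 1 one_pos ((closedBall_subset_closedBall (by norm_num)).trans hU)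
    rw [one_pow, mul_one] at h1
    calc 31 / 32 * om m = (1 - 1 / 32) * om m := by ring
      _ ≤ _ := h1
  have hMpos : 0 < M := by linarith only [hom, hMlow]
  have hMup : M ≤ 2 * om m * 2 ^ m :=
    (measureReal_mono (ball_subset_ball (by norm_num))).trans hmass
  have hmass' : V.μ.real (ball 0 2) ≤ 2 ^ (m + 2) * M := by
    refine hmass.trans ?_
    have h1 : (2 : ℝ) ^ (m + 2) * (31 / 32 * om m) ≤ 2 ^ (m + 2) * M :=
      mul_le_mul_of_nonneg_left hMlow (by positivity)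
    refine le_trans ?_ h1
    rw [pow_add]
    linarith only [mul_pos hom h2m]
  obtain ⟨G, hGdef, hGi, hGtot, z₂, hz₂, hGz₂⟩ := J2_avg V hMpos hg
  have hgaint : ∀ (z₁ : E n) (K : Set (E n)),
      IntegrableOn (fun z => ga (V.P z₁) (z₁ - z)) K V.μ := by
    intro z₁ K
    refine Integrable.mono' (g := fun _ => (1 : ℝ)) (integrable_const _) ?_ ?_
    · exact (J2_meas1 V z₁).aestronglyMeasurable
    · exact Filter.Eventually.of_forall fun z => J2_bd (V.hP _) _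
  have hGnn : ∀ z₁, 0 ≤ G z₁ := fun z₁ => by
    rw [hGdef]
    exact integral_nonneg fun z => ga_nonneg _
  -- the pointwise bound
  have hpt : ∀ z₁ ∈ B, ‖V.P z₁ - V.P z₂‖ ^ 2 ≤ C / M * (G z₁ + G z₂) := by
    intro z₁ hz₁
    refine (htri V hδ hδ' 0 hU hMpos hmass' hH z₁ hz₁ z₂ hz₂).trans ?_
    refine mul_le_mul_of_nonneg_left ?_ (by positivity)
    rw [integral_add (hgaint _ _) (hgaint _ _)]
    refine add_le_add ?_ ?_
    · rw [hGdef]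
      refine setIntegral_mono_set (hgaint _ _) ?_ ?_
      · exact Filter.Eventually.of_forall fun z => ga_nonneg _
      · refine Filter.Eventually.of_forall fun z hz => ?_
        obtain ⟨h1, h2, h3⟩ := hz
        refine ⟨h1, ?_⟩
        show s₀ ≤ ‖z₁ - z‖
        rw [norm_sub_rev]
        exact hs₁.trans h2
    · rw [hGdef]
      refine setIntegral_mono_set (hgaint _ _) ?_ ?_
      · exact Filter.Eventually.of_forall fun z => ga_nonneg _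
      · refine Filter.Eventually.of_forall fun z hz => ?_
        obtain ⟨h1, h2, h3⟩ := hz
        refine ⟨h1, ?_⟩
        show s₀ ≤ ‖z₂ - z‖
        rw [norm_sub_rev]
        exact hs₁.trans h3
  have hPm : Measurable (fun z => ‖V.P z - V.P z₂‖ ^ 2) := (V.mP.sub measurable_const).norm.pow_const 2
  have hPi : IntegrableOn (fun z => ‖V.P z - V.P z₂‖ ^ 2) B V.μ := by
    refine Integrable.mono' (g := fun _ => (4 : ℝ)) (integrable_const _)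
      hPm.aestronglyMeasurable (Filter.Eventually.of_forall fun z => ?_)
    rw [Real.norm_eq_abs, abs_of_nonneg (by positivity)]
    have h1 := (V.hP z).norm_sub_le (V.hP z₂)
    nlinarith only [h1, norm_nonneg (V.P z - V.P z₂)]
  have hcl : ∀ c : ℝ, ∫ z in B, c ∂V.μ = M * c := by
    intro c
    rw [setIntegral_const, smul_eq_mul]
  have hPtot : ∫ z in B, ‖V.P z - V.P z₂‖ ^ 2 ∂V.μ ≤ 2 * C * g := by
    have h1 : ∫ z in B, ‖V.P z - V.P z₂‖ ^ 2 ∂V.μ ≤ ∫ z in B, C / M * (G z + G z₂) ∂V.μ := by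
      refine setIntegral_mono_on hPi ?_ measurableSet_ball hpt
      exact (hGi.add (integrable_const _)).const_mul _
    refine h1.trans ?_
    rw [integral_const_mul, integral_add hGi (integrable_const _), hcl]
    calc C / M * (∫ z in B, G z ∂V.μ + M * G z₂) ≤ C / M * (M * g + M * g) := by
          refine mul_le_mul_of_nonneg_left (add_le_add hGtot ?_) (by positivity)
          exact mul_le_mul_of_nonneg_left hGz₂ hMpos.le
      _ = 2 * C * g := by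
          field_simp
          ring
  have hg0 : 0 ≤ g := (hGnn z₂).trans hGz₂
  refine ⟨V.P z₂, V.hP z₂, ?_⟩
  -- gains at the centre
  set D : Set (E n) := {z | s₀ ≤ ‖z - 0‖ ∧ ‖z - 0‖ < 2} with hD
  have hDm : MeasurableSet D :=
    (measurableSet_le measurable_const (measurable_id.sub measurable_const).norm).inter
      (measurableSet_lt (measurable_id.sub measurable_const).norm measurable_const)
  have hgam : Measurable (fun z => ga (V.P z) (z - 0)) := V.measurable_ga 0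
  have hgai : Integrable (fun z => ga (V.P z) (z - 0)) V.μ := by
    refine Integrable.mono' (g := fun _ => (1 : ℝ)) (integrable_const _) hgam.aestronglyMeasurable ?_
    exact Filter.Eventually.of_forall fun z => J2_bd (V.hP _) _
  have hcen : ∫ z in B, D.indicator (fun z => ga (V.P z) (z - 0)) z ∂V.μ ≤ g := by
    rw [setIntegral_indicator hDm]
    refine le_trans ?_ (hg 0 h0 (by rw [norm_zero]; exact one_pos))
    refine setIntegral_mono_set hgai.integrableOn ?_ ?_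
    · exact Filter.Eventually.of_forall fun z => ga_nonneg _
    · exact Filter.Eventually.of_forall fun z hz => hz.2
  have hpt2 : ∀ z ∈ B, ‖(1 - V.P z₂) z‖ ^ 2 ≤
      s₀ ^ 2 + 2 * D.indicator (fun z => ga (V.P z) (z - 0)) z + 2 * ‖V.P z - V.P z₂‖ ^ 2 := by
    intro z hz
    rw [hB, mem_ball, dist_zero_right] at hz
    by_cases hzs : s₀ ≤ ‖z‖
    · have hzD : z ∈ D := by
        rw [hD]
        refine ⟨?_, ?_⟩
        · rw [sub_zero]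
          exact hzs
        · rw [sub_zero]
          linarith
      rw [Set.indicator_of_mem hzD, sub_zero]
      have hz0 : 0 < ‖z‖ := hs₀.trans_le hzs
      have h1 : ‖(1 - V.P z) z‖ ^ 2 ≤ ga (V.P z) z := by
        unfold ga
        rw [le_div_iff₀ (by positivity)]
        have h2 : ‖z‖ ^ 2 ≤ 1 := by nlinarith only [hz, hz0]
        nlinarith only [h2]
      have h3 : ‖(V.P z - V.P z₂) z‖ ≤ ‖V.P z - V.P z₂‖ := by
        calc ‖(V.P z - V.P z₂) z‖ ≤ ‖V.P z - V.P z₂‖ * ‖z‖ := ContinuousLinearMap.le_opNorm _ _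
          _ ≤ ‖V.P z - V.P z₂‖ * 1 := mul_le_mul_of_nonneg_left hz.le (norm_nonneg _)
          _ = _ := mul_one _
      have h4 : (1 - V.P z₂) z = (1 - V.P z) z + (V.P z - V.P z₂) z := by
        simp only [sub_apply]
        abel
      have h5 : ‖(1 - V.P z₂) z‖ ≤ ‖(1 - V.P z) z‖ + ‖V.P z - V.P z₂‖ := by
        rw [h4]
        exact (norm_add_le _ _).trans (by linarith)
      have h6 : ‖(1 - V.P z₂) z‖ ^ 2 ≤ 2 * ‖(1 - V.P z) z‖ ^ 2 + 2 * ‖V.P z - V.P z₂‖ ^ 2 := by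
        nlinarith only [h5, sq_nonneg (‖(1 - V.P z) z‖ - ‖V.P z - V.P z₂‖), norm_nonneg ((1 - V.P z₂) z)]
      linarith only [h1, h6, sq_nonneg s₀]
    · push Not at hzs
      have h1 : 0 ≤ D.indicator (fun z => ga (V.P z) (z - 0)) z :=
        Set.indicator_nonneg (fun z _ => ga_nonneg _) z
      have h2 : ‖(1 - V.P z₂) z‖ ≤ s₀ := ((V.hP z₂).perp_norm_apply_le z).trans hzs.le
      nlinarith only [h1, h2, norm_nonneg ((1 - V.P z₂) z)]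
  have hindi : IntegrableOn (D.indicator (fun z => ga (V.P z) (z - 0))) B V.μ :=
    (hgai.indicator hDm).integrableOn
  have hleft : IntegrableOn (fun z => ‖(1 - V.P z₂) z‖ ^ 2) B V.μ := by
    refine Integrable.mono' (g := fun _ => (1 : ℝ)) (integrable_const _) ?_ ?_
    · exact (((1 - V.P z₂).continuous.norm).pow 2).aestronglyMeasurable
    · filter_upwards [ae_restrict_mem (measurableSet_ball (x := (0 : E n)) (ε := 1))] with z hz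
      rw [mem_ball, dist_zero_right] at hz
      rw [Real.norm_eq_abs, abs_of_nonneg (by positivity)]
      have h2 := (V.hP z₂).perp_norm_apply_le z
      nlinarith only [hz, h2, norm_nonneg ((1 - V.P z₂) z)]
  have hmain : ∫ z in B, ‖(1 - V.P z₂) z‖ ^ 2 ∂V.μ ≤
      ∫ z in B, (s₀ ^ 2 + 2 * D.indicator (fun z => ga (V.P z) (z - 0)) z +
        2 * ‖V.P z - V.P z₂‖ ^ 2) ∂V.μ := by
    refine setIntegral_mono_on hleft ?_ measurableSet_ball hpt2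
    exact ((integrable_const _).add (hindi.const_mul 2)).add (hPi.const_mul 2)
  refine hmain.trans ?_
  have hi1 : IntegrableOn (fun _ : E n => s₀ ^ 2) B V.μ := integrable_const _
  have hi2 : IntegrableOn (fun z => 2 * D.indicator (fun z => ga (V.P z) (z - 0)) z) B V.μ :=
    hindi.const_mul 2
  have hi3 : IntegrableOn (fun z => 2 * ‖V.P z - V.P z₂‖ ^ 2) B V.μ := hPi.const_mul 2
  have hi12 : IntegrableOn
      (fun z => s₀ ^ 2 + 2 * D.indicator (fun z => ga (V.P z) (z - 0)) z) B V.μ := hi1.add hi2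
  rw [integral_add hi12 hi3, integral_add hi1 hi2, integral_const_mul, integral_const_mul, hcl]
  have h7 : M * s₀ ^ 2 ≤ 2 * om m * 2 ^ m * s₀ ^ 2 := mul_le_mul_of_nonneg_right hMup (sq_nonneg _)
  linarith only [hPtot, hcen, h7, sq_nonneg s₀, mul_nonneg hC.le (sq_nonneg s₀), mul_nonneg (mul_pos hom h2m).le hg0]

end Allard
end
end

section

/-!
# J1a: masses at scales between `γ₀/8` and `1/2`

WLOG `κ ≤ 1`.  `γ₁` with `(1-γ₁)^{-m} ≤ 1 + κ/8`, `ε ≤ κ/8`: `ball y (1-γ₀) ⊆ ball 0 1`, so the mass of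
`ball y (1-γ₀)` is `≤ (1+ε)(1-γ₀)^{-m} om (1-γ₀)^m ≤ (1+κ/2) om (1-γ₀)^m`; `closedBall y (1-γ₀) ⊆ ball 0 1` as
`‖y‖ < γ₀`.  `ball_mono` with `κ/2`, `A = 1+κ/2 ≤ 2`, `r = 1-γ₀`, `s = r`, `k` with `2^k γ₀/8 ≥ 1`.
-/

noncomputable section

open MeasureTheory Metric Set Filter Topology

namespace Allard

private theorem j1a_lam {α Λ : ℝ} (hΛ : 0 ≤ Λ) (hα : 0 < α) : 0 ≤ lam α Λ := by
  unfold lam
  refine div_nonneg hΛ ?_
  have h1 := Real.rpow_lt_one_of_one_lt_of_neg (x := 2) (z := -α) one_lt_two (by linarith)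
  linarith

private theorem j1a_om (m : ℕ) : 0 < om m := by
  unfold om
  exact ENNReal.toReal_pos (measure_ball_pos volume 0 one_pos).ne' measure_ball_lt_top.ne

/-- Masses at scales between `γ₀/8` and `1/2`. -/
theorem init_mass (n m : ℕ) (hm : 1 ≤ m) (κ : ℝ) (hκ : 0 < κ) : ∃ γ₁ : ℝ, 0 < γ₁ ∧
    γ₁ ≤ 1 / 32 ∧ ∀ γ₀ : ℝ, 0 < γ₀ → γ₀ ≤ γ₁ →
    ∃ ε δ₁ l₁ : ℝ, 0 < ε ∧ 0 < δ₁ ∧ δ₁ ≤ d0 n ∧ 0 < l₁ ∧
    ∀ {δ : ℝ} {S : Stress n m δ} {α Λ : ℝ} (V : Sys S α Λ (ball 0 1)),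
    0 ≤ δ → δ ≤ δ₁ → 0 < α → α < 1 → 0 ≤ Λ → lam α Λ ≤ l₁ →
    V.μ.real (ball 0 1) ≤ (1 + ε) * om m → ∀ y : E n, ‖y‖ < γ₀ → ∀ r : ℝ, γ₀ / 8 ≤ r →
    r ≤ 1 / 2 → V.μ.real (ball y r) ≤ (1 + κ) * om m * r ^ m := by
  obtain ⟨κ', hκ'⟩ : ∃ κ' : ℝ, κ' = min κ 1 := ⟨_, rfl⟩
  have hκ0 : 0 < κ' := by rw [hκ']; exact lt_min hκ one_pos
  have hκ1 : κ' ≤ 1 := by rw [hκ']; exact min_le_right _ _
  have hκκ : κ' ≤ κ := by rw [hκ']; exact min_le_left _ _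
  have hm0 : (1 : ℝ) ≤ m := by exact_mod_cast hm
  refine ⟨min (1 / 32) (κ' / (16 * m)), lt_min (by norm_num) (by positivity), min_le_left _ _, ?_⟩
  intro γ₀ hγ0 hγ1
  have hγ2 : γ₀ ≤ 1 / 32 := hγ1.trans (min_le_left _ _)
  have hγ3 : γ₀ ≤ κ' / (16 * m) := hγ1.trans (min_le_right _ _)
  have hmγ : m * γ₀ ≤ κ' / 16 := by
    rw [le_div_iff₀ (by positivity)] at hγ3
    nlinarith
  obtain ⟨k, hk⟩ := pow_unbounded_of_one_lt (8 / γ₀) (one_lt_two : (1 : ℝ) < 2)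
  obtain ⟨δ₂, l₂, hδ₂, hl₂, H⟩ := ball_mono n m hm (κ' / 2) (by positivity) k
  have hd : 0 < d0 n := d0_pos
  refine ⟨κ' / 8, min δ₂ (d0 n), l₂, by positivity, lt_min hδ₂ hd, min_le_right _ _, hl₂, ?_⟩
  intro δ S α Λ V hδ hδ1 hα hα1 hΛ hlam hmass y hy r hr hr2
  have hΩ : 0 < om m := j1a_om m
  have hlam0 : 0 ≤ lam α Λ := j1a_lam hΛ hα
  obtain ⟨R, hR⟩ : ∃ R : ℝ, R = 1 - γ₀ := ⟨_, rfl⟩
  have hR0 : 0 < R := by rw [hR]; linarith
  have hR1 : R ≤ 1 := by rw [hR]; linarith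
  have hr0 : 0 < r := by linarith
  have hsub : closedBall y R ⊆ ball (0 : E n) 1 := by
    intro z hz
    rw [mem_closedBall, dist_eq_norm] at hz
    rw [mem_ball, dist_zero_right]
    have h1 : ‖z‖ ≤ ‖z - y‖ + ‖y‖ := by
      have := norm_add_le (z - y) y
      rwa [sub_add_cancel] at this
    rw [hR] at hz
    linarith
  have hkr : R ≤ 2 ^ k * r := by
    have h1 : 1 ≤ 2 ^ k * (γ₀ / 8) := by
      have h2 : 8 / γ₀ * (γ₀ / 8) = 1 := by field_simp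
      nlinarith [mul_le_mul_of_nonneg_right hk.le (by positivity : 0 ≤ γ₀ / 8)]
    have h3 : (2 : ℝ) ^ k * (γ₀ / 8) ≤ 2 ^ k * r := by gcongr
    linarith
  have hlR : lam α Λ * R ^ α ≤ l₂ := by
    have h1 : R ^ α ≤ 1 := Real.rpow_le_one hR0.le hR1 hα.le
    nlinarith
  -- the mass of the large ball
  have hbern : 1 - κ' / 16 ≤ R ^ m := by
    have h1 := one_add_mul_le_pow (a := -γ₀) (by linarith) m
    have h3 : R ^ m = (1 + -γ₀) ^ m := by rw [hR, sub_eq_add_neg]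
    rw [h3]
    linarith
  have hmR : V.μ.real (ball y R) ≤ (1 + κ' / 2) * om m * R ^ m := by
    have h1 : V.μ.real (ball y R) ≤ V.μ.real (ball 0 1) :=
      measureReal_mono (ball_subset_closedBall.trans hsub)
    have h2 : 1 + κ' / 8 ≤ (1 + κ' / 2) * R ^ m := by nlinarith
    calc V.μ.real (ball y R) ≤ (1 + κ' / 8) * om m := h1.trans hmass
      _ ≤ ((1 + κ' / 2) * R ^ m) * om m := by gcongr
      _ = (1 + κ' / 2) * om m * R ^ m := by ring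
  have hfin := H V hδ (hδ1.trans (min_le_left _ _)) hΛ hα hα1 y r R (1 + κ' / 2) hr0
    (by rw [hR]; linarith) hkr hlR hsub (by linarith) hmR
  calc V.μ.real (ball y r) ≤ (1 + κ' / 2 + κ' / 2) * om m * r ^ m := hfin
    _ ≤ (1 + κ) * om m * r ^ m := by
      have : 1 + κ' / 2 + κ' / 2 ≤ 1 + κ := by linarith
      gcongr

end Allard
end
end
end

section

section

/-!
# L2: a good centre near a point

Unit situation: `closedBall 0 1 ⊆ U`, `μ (ball 0 (1/2)) ≤ om`, `μ(ball 0 (ε/2)) ≥ om/2 (ε/2)^m`,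
`0 < ε ≤ 1/64`.  Claim: some `z` with `‖z‖ ≤ ε` and
`I_z(1/64) ≥ c₀ om - κ`, `c₀ = (1-δ)((1-τ)/(1+3δ))^m`, with plane `V.P z`, if `δ`, `lam` are small
(depending on `ε, κ`).

Proof.  `V' := V.rs 0 (1/64)`: `closedBall 0 64 ⊆ U'`, `μ'(ball 0 32) = 64^m μ(ball 0 (1/2)) ≤ 64^m om`.
(All this is `unit_UD`.)
`crude_mass` for `V'` at `y ∈ ball 0 4`: `closedBall y 4 ⊆ U'`, `μ'(ball y 4) ≤ 64^m om`: `V'.UD A` with
`A = (c+1)(64^m om + 1)`.  `φ y = max 0 (1 - ‖y‖/ε')`, `ε' = 64 ε ≤ 1`, `L = 1/ε'`;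
`∫ φ dμ' ≥ (1/2) μ'(ball 0 (ε'/2)) ≥ (1/4) om (ε'/2)^m =: I₀ > 0`.
`fatou_I` with `c = c₀ om - κ/2`, AMF for this `K`:
`(c₀ om - κ/2) ∫ φ ≤ ∫ φ I_y(1) + CA (δ² A²/ε' + A ∫_{ball 0 32} ‖H'‖ dμ')`, and
`∫_{ball 0 32} ‖H'‖ = 32^{m-1}` `V'.hh 32 0 ≤ C lam` (`hh_le`; `Λ ≤ lam`).  For small `δ, lam` the last term is
`≤ (κ/2) I₀ ≤ (κ/2) ∫ φ`.  So `∫ φ (I_y(1) - (c₀ om - κ)) ≥ 0` and, as `∫ φ > 0`, some `y` with
`φ y > 0` has `I_y(1) ≥ c₀ om - κ`.  (`rs_I`.)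
-/

noncomputable section

open MeasureTheory Metric Set Filter Topology

namespace Allard

theorem good_centre (n m : ℕ) (hm : 1 ≤ m) (ε κ : ℝ) (hε : 0 < ε) (hε' : ε ≤ 1 / 64)
    (hκ : 0 < κ) : ∃ δ₁ l₁ : ℝ, 0 < δ₁ ∧ δ₁ ≤ d0 n ∧ 0 < l₁ ∧
    ∀ {δ : ℝ} {S : Stress n m δ} {α Λ : ℝ} {U : Set (E n)} {τ : ℝ} {η : ℝ → ℝ}
    (V : Sys S α Λ U), Ker τ η → 0 ≤ δ → δ ≤ δ₁ → 0 ≤ Λ → 0 < α → α < 1 → lam α Λ ≤ l₁ →
    V.AE → closedBall 0 1 ⊆ U → V.μ.real (ball 0 (1 / 2)) ≤ om m →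
    1 / 2 * om m * (ε / 2) ^ m ≤ V.μ.real (ball 0 (ε / 2)) →
    ∃ z : E n, ‖z‖ ≤ ε ∧
      (1 - δ) * ((1 - τ) / (1 + 3 * δ)) ^ m * om m - κ ≤ V.I η (V.P z) z (1 / 64) := by
  obtain ⟨A, δu, hA1, hδu, hδud, hUD⟩ := unit_UD n m hm
  obtain ⟨δA, CA, hδA, hδAd, hCA, hAMF⟩ := AMF n m hm
  have hd1 : d0 n ≤ 1 / 100 := d0_le
  have hom : 0 < om m := om_pos
  obtain ⟨L, hLdef⟩ : ∃ L : ℝ, L = 1 / (64 * ε) := ⟨_, rfl⟩
  have hLε : L * (64 * ε) = 1 := by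
    rw [hLdef]; field_simp
  have hL : 1 ≤ L := by
    rw [hLdef, le_div_iff₀ (by positivity)]; linarith
  have hL0 : 0 < L := by linarith
  obtain ⟨I₀, hI₀def⟩ : ∃ I₀ : ℝ, I₀ = 1 / 4 * om m * (32 * ε) ^ m := ⟨_, rfl⟩
  have hI₀ : 0 < I₀ := by rw [hI₀def]; positivity
  have hA0 : 0 < A := by linarith
  refine ⟨min (min δu δA) (κ * I₀ / (4 * CA * L * A ^ 2)), min 1 (κ * I₀ / (4 * CA * A ^ 2)),
    ?_, ?_, ?_, ?_⟩
  · exact lt_min (lt_min hδu hδA) (by positivity)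
  · exact (min_le_left _ _).trans ((min_le_left _ _).trans hδud)
  · exact lt_min one_pos (by positivity)
  intro δ S α Λ U τ η V hKer hδ0 hδ1 hΛ hα hα1 hl hAE hU hm1 hm2
  have hδu' : δ ≤ δu := hδ1.trans ((min_le_left _ _).trans (min_le_left _ _))
  have hδA' : δ ≤ δA := hδ1.trans ((min_le_left _ _).trans (min_le_right _ _))
  have hδq : δ ≤ κ * I₀ / (4 * CA * L * A ^ 2) := hδ1.trans (min_le_right _ _)
  have hδd : δ ≤ d0 n := hδu'.trans hδud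
  have hl1 : lam α Λ ≤ 1 := hl.trans (min_le_left _ _)
  have hlq : lam α Λ ≤ κ * I₀ / (4 * CA * A ^ 2) := hl.trans (min_le_right _ _)
  obtain ⟨h1, h2, h3⟩ := hUD V hδ0 hδu' hΛ hα hα1 hl1 hU hm1
  have hr : (0 : ℝ) < 1 / 64 := by norm_num
  set V' := V.rs 0 (1 / 64) hr with hV'
  have hU' : closedBall (0 : E n) 32 ⊆ (fun w : E n => (0 : E n) + (1 / 64 : ℝ) • w) ⁻¹' U := by
    intro w hw
    rw [mem_closedBall, dist_zero_right] at hw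
    apply hU
    change (0 : E n) + (1 / 64 : ℝ) • w ∈ closedBall (0 : E n) 1
    rw [mem_closedBall, dist_zero_right, zero_add, norm_smul, Real.norm_eq_abs,
      abs_of_pos (by norm_num : (0 : ℝ) < 1 / 64)]
    linarith only [hw]
  obtain ⟨φ, hφdef⟩ : ∃ φ : E n → ℝ, φ = fun y => max 0 (1 - L * ‖y‖) := ⟨_, rfl⟩
  have hφy : ∀ y, φ y = max 0 (1 - L * ‖y‖) := fun y => by rw [hφdef]
  have hφc : Continuous φ := by
    rw [hφdef]
    exact continuous_const.max (continuous_const.sub (continuous_const.mul continuous_norm))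
  have hφm : Measurable φ := hφc.measurable
  have hφ0 : ∀ y, 0 ≤ φ y := fun y => by rw [hφy]; exact le_max_left _ _
  have hφ1 : ∀ y, φ y ≤ 1 := fun y => by
    rw [hφy]
    apply max_le zero_le_one
    have : 0 ≤ L * ‖y‖ := by positivity
    linarith only [this]
  have hφL : ∀ y z, |φ y - φ z| ≤ L * ‖y - z‖ := by
    intro y z
    rw [hφy, hφy, max_comm, max_comm (0 : ℝ) (1 - L * ‖z‖)]
    refine (abs_max_sub_max_le_abs _ _ _).trans ?_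
    have e1 : 1 - L * ‖y‖ - (1 - L * ‖z‖) = -(L * (‖y‖ - ‖z‖)) := by ring
    rw [e1, abs_neg, abs_mul, abs_of_pos hL0]
    exact mul_le_mul_of_nonneg_left (abs_norm_sub_norm_le y z) hL0.le
  have hφs : ∀ y, 1 < ‖y‖ → φ y = 0 := by
    intro y hy
    rw [hφy]
    apply max_eq_left
    nlinarith only [hL, hy]
  obtain ⟨c, hcdef⟩ : ∃ c : ℝ, c = (1 - δ) * ((1 - τ) / (1 + 3 * δ)) ^ m * om m := ⟨_, rfl⟩
  obtain ⟨K, hK⟩ := fatou_I V' hKer hδ0 hδd (rs_AE V 0 (1 / 64) hr hAE) hφm hφ0 hφ1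
    (c := c - κ / 2) (by rw [← hcdef]; linarith only [hκ])
  have hA := hAMF V' hKer hδ0 hδA' hU' A hA1 h1 h2 φ L hL hφ0 hφ1 hφL hφs K
  have hφint : Integrable φ V'.μ := V'.integrable_bdd hφm (c := 1) fun z => by
    rw [abs_of_nonneg (hφ0 z)]
    exact hφ1 z
  -- lower bound of the integral of `φ`
  have hlow : I₀ ≤ ∫ y, φ y ∂V'.μ := by
    have e1 : ∫ _y in ball (0 : E n) (32 * ε), (1 / 2 : ℝ) ∂V'.μ ≤
        ∫ y in ball (0 : E n) (32 * ε), φ y ∂V'.μ := by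
      apply setIntegral_mono_on (integrable_const _) hφint.integrableOn measurableSet_ball
      intro y hy
      rw [mem_ball, dist_zero_right] at hy
      rw [hφy]
      refine le_trans ?_ (le_max_right _ _)
      have : L * ‖y‖ ≤ L * (32 * ε) := mul_le_mul_of_nonneg_left hy.le hL0.le
      linarith only [hLε, this]
    have e2 : ∫ y in ball (0 : E n) (32 * ε), φ y ∂V'.μ ≤ ∫ y, φ y ∂V'.μ :=
      setIntegral_le_integral hφint (Filter.Eventually.of_forall hφ0)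
    rw [setIntegral_const, smul_eq_mul] at e1
    have e3 : V'.μ.real (ball 0 (32 * ε)) =
        ((1 / 64 : ℝ) ^ m)⁻¹ * V.μ.real (ball 0 (ε / 2)) := by
      rw [hV', rs_real_ball]
      congr 3
      · simp
      · ring
    have e4 : ((1 / 64 : ℝ) ^ m)⁻¹ * (1 / 2 * om m * (ε / 2) ^ m) =
        1 / 2 * om m * (32 * ε) ^ m := by
      have : (32 * ε) = (1 / 64 : ℝ)⁻¹ * (ε / 2) := by norm_num; ring
      rw [this, mul_pow, inv_pow]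
      ring
    have e5 : ((1 / 64 : ℝ) ^ m)⁻¹ * (1 / 2 * om m * (ε / 2) ^ m) ≤
        ((1 / 64 : ℝ) ^ m)⁻¹ * V.μ.real (ball 0 (ε / 2)) :=
      mul_le_mul_of_nonneg_left hm2 (by positivity)
    rw [hI₀def]
    rw [e4, ← e3] at e5
    linarith only [e1, e2, e5]
  -- smallness of the error
  have herr : CA * (δ ^ 2 * L * A ^ 2 + A * ∫ z in ball 0 32, ‖V'.H z‖ ∂V'.μ) ≤
      κ / 2 * I₀ := by
    have e1 : δ ^ 2 ≤ δ := by nlinarith only [hd1, hδ0, hδd]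
    have e2 : CA * (δ * L * A ^ 2) ≤ κ / 4 * I₀ := by
      rw [le_div_iff₀ (by positivity)] at hδq
      linarith only [hδq]
    have e3 : CA * (A * (A * lam α Λ)) ≤ κ / 4 * I₀ := by
      rw [le_div_iff₀ (by positivity)] at hlq
      linarith only [hlq]
    have e4 : A * ∫ z in ball 0 32, ‖V'.H z‖ ∂V'.μ ≤ A * (A * lam α Λ) :=
      mul_le_mul_of_nonneg_left h3 hA0.le
    have e5 : δ ^ 2 * L * A ^ 2 ≤ δ * L * A ^ 2 := by gcongr
    calc CA * (δ ^ 2 * L * A ^ 2 + A * ∫ z in ball 0 32, ‖V'.H z‖ ∂V'.μ)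
        ≤ CA * (δ * L * A ^ 2 + A * (A * lam α Λ)) :=
          mul_le_mul_of_nonneg_left (add_le_add e5 e4) hCA.le
      _ = CA * (δ * L * A ^ 2) + CA * (A * (A * lam α Λ)) := by ring
      _ ≤ κ / 2 * I₀ := by linarith only [e2, e3]
  have hmain : (c - κ) * ∫ y, φ y ∂V'.μ ≤ ∫ y, φ y * V'.I η (V'.P y) y 1 ∂V'.μ := by
    have e1 : κ / 2 * I₀ ≤ κ / 2 * ∫ y, φ y ∂V'.μ :=
      mul_le_mul_of_nonneg_left hlow (by positivity)
    linarith only [hK, hA, herr, e1]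
  by_contra hcon
  push Not at hcon
  rw [← hcdef] at hcon
  have hIm : Integrable (fun y => φ y * V'.I η (V'.P y) y 1) V'.μ :=
    l1_integrable V' hKer hδ0 hδd hφm hφ0 hφ1 one_pos
  have hlt : ∀ y, φ y ≠ 0 → V'.I η (V'.P y) y 1 < c - κ := by
    intro y hy
    have hy1 : L * ‖y‖ < 1 := by
      by_contra h4
      rw [not_lt] at h4
      apply hy
      rw [hφy]
      apply max_eq_left
      linarith only [h4]
    have hy2 : ‖y‖ ≤ 64 * ε := by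
      by_contra h4
      rw [not_le] at h4
      have := mul_lt_mul_of_pos_left h4 hL0
      linarith only [hLε, hy1, this]
    have hz := hcon (0 + (1 / 64 : ℝ) • y) (by
      rw [zero_add, norm_smul, Real.norm_eq_abs, abs_of_pos hr]
      linarith only [hy2])
    rw [hV', rs_I V 0 (1 / 64) hr η _ 1 one_pos y, rs_P, mul_one]
    exact hz
  have hg0 : ∀ y, 0 ≤ φ y * ((c - κ) - V'.I η (V'.P y) y 1) := by
    intro y
    by_cases hy : φ y = 0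
    · rw [hy, zero_mul]
    · exact mul_nonneg (hφ0 y) (by linarith only [hlt y hy])
  have hgint : Integrable (fun y => φ y * ((c - κ) - V'.I η (V'.P y) y 1)) V'.μ := by
    have : (fun y => φ y * ((c - κ) - V'.I η (V'.P y) y 1)) =
        fun y => (c - κ) * φ y - φ y * V'.I η (V'.P y) y 1 := by
      funext y; ring
    rw [this]
    exact (hφint.const_mul _).sub hIm
  have hgI : ∫ y, φ y * ((c - κ) - V'.I η (V'.P y) y 1) ∂V'.μ ≤ 0 := by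
    have e1 : ∫ y, φ y * ((c - κ) - V'.I η (V'.P y) y 1) ∂V'.μ =
        (c - κ) * ∫ y, φ y ∂V'.μ - ∫ y, φ y * V'.I η (V'.P y) y 1 ∂V'.μ := by
      rw [← integral_const_mul, ← integral_sub (hφint.const_mul _) hIm]
      congr 1
      funext y; ring
    rw [e1]; linarith only [hmain]
  have hgz : ∫ y, φ y * ((c - κ) - V'.I η (V'.P y) y 1) ∂V'.μ = 0 :=
    le_antisymm hgI (integral_nonneg hg0)
  rw [integral_eq_zero_iff_of_nonneg hg0 hgint] at hgz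
  have hφz : φ =ᵐ[V'.μ] 0 := by
    filter_upwards [hgz] with y hy
    by_contra h4
    have h5 := hlt y h4
    rcases mul_eq_zero.mp hy with h6 | h6
    · exact h4 h6
    · linarith only [h5, h6]
  have : ∫ y, φ y ∂V'.μ = 0 := by
    rw [integral_congr_ae hφz]; simp
  linarith only [hI₀, hlow, this]

end Allard
end
end

section

/-!
# L3: contradiction at the first bad scale (unit situation)

`Φ r := ∫ Kr m η r ‖z‖ dμ`.  Given `η₁ ∈ (0,1)`.  Choose `τ ≤ 1/2` with `(1-τ)^m ≥ 1 - η₁/16` and `η` with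
`Ker τ η`.  Choose `ε ≤ 1/64` with `(1-2ε)^{-m-3} (1-η₁/2) ≤ 1 - η₁/4`.
Suppose `Φ 1 ≤ (1-η₁/2) om` and `Φ r ≥ (1-η₁/2) om` for `0 < r < 1`.
`μ(ball 0 (1/2)) ≤ Φ 1 ≤ om` (`η = 1` on `[0,1/2]`); `μ(ball 0 (ε/2)) ≥ (ε/2)^m Φ(ε/2) ≥ om/2 (ε/2)^m`.
`good_centre` with `κ = η₁ om/64`: `z`, `‖z‖ ≤ ε`, `I_z(1/64) ≥ c₀ om - κ`.
`wm_iter` from `1/64` to `ρ = (1-3δ)(1-2ε)` (`k = 6`; `closedBall z (1-2ε) ⊆ closedBall 0 1 ⊆ U`):
`I_z(1/64) ≤ exp(small) (I_z ρ + small)`.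
`I_z ρ ≤ (1+δ) ∫ Kr ρ (gn (x-z)) ≤ (1+δ) ρ^{-m} ∫ η(‖x-z‖/(1-2ε)) ≤ (1+δ) ρ^{-m} (1-2ε)^{-3} Φ 1`
(`gn ≥ (1-3δ)‖·‖`, `η` antitone, `Ker.cmp_centre`)
`≤ (1+δ)(1-3δ)^{-m} (1-2ε)^{-m-3} (1-η₁/2) om ≤ (1+δ)(1-3δ)^{-m}(1-η₁/4) om`.
For `δ, lam` small this contradicts `c₀ ≥ (1-δ)(1+3δ)^{-m}(1-η₁/16)`.
-/

noncomputable section

open MeasureTheory Metric Set Filter Topology

namespace Allard

/-- The numerical choice. -/
theorem ld_num (m : ℕ) (η₁ c o : ℝ) (h0 : 0 < η₁) (ho : 0 < o) :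
    ∃ d : ℝ, 0 < d ∧ ∀ δ l : ℝ, 0 ≤ δ → δ ≤ d → 0 ≤ l → l ≤ d →
      Real.exp (c * (δ ^ 2 * 6 + l)) *
        ((1 + δ) * ((1 - 3 * δ) ^ m)⁻¹ * ((1 - η₁ / 4) * o) + c * l) <
      (1 - δ) * (((1 + 3 * δ) ^ m)⁻¹ * (1 - η₁ / 16)) * o - η₁ * o / 64 := by
  have c1 : ContinuousAt (fun x : ℝ × ℝ => Real.exp (c * (x.1 ^ 2 * 6 + x.2)) *
        ((1 + x.1) * ((1 - 3 * x.1) ^ m)⁻¹ * ((1 - η₁ / 4) * o) + c * x.2)) (0, 0) := by
    have h : ContinuousAt (fun x : ℝ × ℝ => ((1 - 3 * x.1) ^ m)⁻¹) (0, 0) := by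
      refine ContinuousAt.inv₀ (by fun_prop) ?_
      simp
    fun_prop
  have c2 : ContinuousAt (fun x : ℝ × ℝ =>
      (1 - x.1) * (((1 + 3 * x.1) ^ m)⁻¹ * (1 - η₁ / 16)) * o - η₁ * o / 64) (0, 0) := by
    have h : ContinuousAt (fun x : ℝ × ℝ => ((1 + 3 * x.1) ^ m)⁻¹) (0, 0) := by
      refine ContinuousAt.inv₀ (by fun_prop) ?_
      simp
    fun_prop
  have hlt := c1.eventually_lt c2 (by
    simp
    nlinarith [mul_pos h0 ho])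
  obtain ⟨e, he, hball⟩ := Metric.eventually_nhds_iff.1 hlt
  refine ⟨e / 2, by positivity, fun δ l hδ hδ' hl hl' => ?_⟩
  have : dist ((δ, l) : ℝ × ℝ) (0, 0) < e := by
    rw [Prod.dist_eq, max_lt_iff]
    constructor
    · rw [Real.dist_eq, sub_zero, abs_of_nonneg hδ]
      linarith
    · rw [Real.dist_eq, sub_zero, abs_of_nonneg hl]
      linarith
  exact hball this

theorem lam_nonneg {α Λ : ℝ} (hα : 0 < α) (hΛ : 0 ≤ Λ) : 0 ≤ lam α Λ := by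
  unfold lam
  refine div_nonneg hΛ ?_
  have : (2 : ℝ) ^ (-α) ≤ 1 := Real.rpow_le_one_of_one_le_of_nonpos (by norm_num) (by linarith)
  linarith

theorem ld_eps (m : ℕ) {η₁ ε : ℝ} (h0 : 0 < η₁) (h1 : η₁ < 1)
    (hε : ε = η₁ / (64 * (m + 3))) :
    0 < ε ∧ ε ≤ 1 / 64 ∧ 1 - η₁ / 2 ≤ (1 - η₁ / 4) * (1 - 2 * ε) ^ (m + 3) := by
  have hm0 : (0 : ℝ) ≤ m := Nat.cast_nonneg m
  have hpos : (0 : ℝ) < 64 * (m + 3) := by positivity
  have e0 : 0 < ε := by rw [hε]; positivity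
  have e1 : ε * (64 * (m + 3)) = η₁ := by rw [hε]; field_simp
  have e2 : ε ≤ 1 / 64 := by
    linarith only [h1, e1, mul_nonneg e0.le hm0]
  refine ⟨e0, e2, ?_⟩
  have hb : 1 + ((m + 3 : ℕ) : ℝ) * (-(2 * ε)) ≤ (1 + -(2 * ε)) ^ (m + 3) :=
    one_add_mul_le_pow (by linarith) (m + 3)
  have h3 : (1 : ℝ) - η₁ / 32 ≤ (1 - 2 * ε) ^ (m + 3) := by
    have : (1 : ℝ) + -(2 * ε) = 1 - 2 * ε := by ring
    rw [this] at hb
    push_cast at hb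
    linarith
  have h4 : (1 - η₁ / 4) * (1 - η₁ / 32) ≤ (1 - η₁ / 4) * (1 - 2 * ε) ^ (m + 3) :=
    mul_le_mul_of_nonneg_left h3 (by linarith)
  linarith only [h0, h4, sq_nonneg η₁]

theorem ld_tau (m : ℕ) (hm : 1 ≤ m) {η₁ τ : ℝ} (h0 : 0 < η₁) (h1 : η₁ < 1)
    (hτ : τ = η₁ / (16 * m)) : 0 < τ ∧ τ ≤ 1 / 2 ∧ 1 - η₁ / 16 ≤ (1 - τ) ^ m := by
  have hm0 : (1 : ℝ) ≤ m := by exact_mod_cast hm
  have e0 : 0 < τ := by rw [hτ]; positivity
  have e1 : τ * (16 * m) = η₁ := by rw [hτ]; field_simp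
  have e2 : τ ≤ 1 / 2 := by nlinarith only [h1, hm0, e1]
  refine ⟨e0, e2, ?_⟩
  have hb : 1 + ((m : ℕ) : ℝ) * (-τ) ≤ (1 + -τ) ^ m := one_add_mul_le_pow (by linarith only [e2]) m
  have : (1 : ℝ) + -τ = 1 - τ := by ring
  rw [this] at hb
  linarith

variable {n m : ℕ} {δ : ℝ} {S : Stress n m δ} {α Λ : ℝ} {U : Set (E n)} {τ : ℝ} {η : ℝ → ℝ}

theorem integrable_ker_norm (V : Sys S α Λ U) (h : Ker τ η) :
    Integrable (fun z => η ‖z‖) V.μ :=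
  V.integrable_bdd (h.cont.comp continuous_norm).measurable (c := 1) fun z => by
    rw [abs_of_nonneg (h.nonneg _)]
    exact h.le_one _

theorem Kr_one (h : Ker τ η) (t : ℝ) : Kr m η 1 t = η t := by
  unfold Kr
  simp

theorem real_ball_half_le (V : Sys S α Λ U) (h : Ker τ η) :
    V.μ.real (ball 0 (1 / 2)) ≤ ∫ z, Kr m η 1 ‖z‖ ∂V.μ := by
  rw [← integral_indicator_one measurableSet_ball]
  refine integral_mono_of_nonneg (Filter.Eventually.of_forall fun z => ?_) ?_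
    (Filter.Eventually.of_forall fun z => ?_)
  · exact indicator_nonneg (fun _ _ => zero_le_one) z
  · exact (integrable_ker_norm V h).congr (Filter.Eventually.of_forall fun z => by
      simp only [Kr_one h])
  · simp only [Kr_one h]
    by_cases hz : z ∈ ball (0 : E n) (1 / 2)
    · rw [indicator_of_mem hz, h.one_half (by rw [mem_ball_zero_iff] at hz; exact hz.le)]
      simp
    · rw [indicator_of_notMem hz]
      exact h.nonneg _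

theorem Kr_int_le_ball (V : Sys S α Λ U) (h : Ker τ η) {r : ℝ} (hr : 0 < r) :
    ∫ z, Kr m η r ‖z‖ ∂V.μ ≤ (r ^ m)⁻¹ * V.μ.real (ball 0 r) := by
  rw [← integral_indicator_one measurableSet_ball, ← integral_const_mul]
  refine integral_mono_of_nonneg (Filter.Eventually.of_forall fun z => Kr_nonneg h hr _) ?_
    (Filter.Eventually.of_forall fun z => ?_)
  · refine Integrable.const_mul ?_ _
    exact (integrable_const (1 : ℝ)).indicator measurableSet_ball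
  · simp only
    by_cases hz : z ∈ ball (0 : E n) r
    · rw [indicator_of_mem hz]
      simpa using Kr_le h hr ‖z‖
    · rw [indicator_of_notMem hz, Kr_eq_zero h hr (by
        rw [mem_ball_zero_iff, not_lt] at hz
        exact hz)]
      simp

/-- Comparison of the adapted mass at a nearby centre. -/
theorem I_centre_le (V : Sys S α Λ U) (h : Ker τ η) (hδ : 0 ≤ δ) (hδ' : δ ≤ d0 n)
    {Q : Op n} (hQ : Pr n m Q) (z : E n) {ε : ℝ} (hε : 0 < ε) (hε' : ε ≤ 1 / 64)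
    (hz : ‖z‖ ≤ ε) :
    V.I η Q z ((1 - 3 * δ) * (1 - 2 * ε)) ≤
      (1 + δ) * (((1 - 3 * δ) ^ m)⁻¹ * ((1 - 2 * ε) ^ (m + 3))⁻¹) * ∫ x, Kr m η 1 ‖x‖ ∂V.μ := by
  have hd : δ ≤ 1 / 100 := hδ'.trans d0_le
  have p1 : 0 < 1 - 3 * δ := by linarith
  have p2 : 0 < 1 - 2 * ε := by linarith
  have hρ : 0 < (1 - 3 * δ) * (1 - 2 * ε) := mul_pos p1 p2
  unfold Sys.I
  rw [← integral_const_mul]
  have hi : Integrable (fun x => (1 + δ) * (((1 - 3 * δ) ^ m)⁻¹ * ((1 - 2 * ε) ^ (m + 3))⁻¹) *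
      Kr m η 1 ‖x‖) V.μ := by
    refine Integrable.const_mul ?_ _
    exact (integrable_ker_norm V h).congr (Filter.Eventually.of_forall fun z => by
      simp only [Kr_one h])
  refine integral_mono_of_nonneg (Filter.Eventually.of_forall fun x => ?_) hi
    (Filter.Eventually.of_forall fun x => ?_)
  · have := abs_le.1 (S.bψ _ (V.hP x))
    exact mul_nonneg (Kr_nonneg h hρ _) (by linarith [this.1])
  · simp only [Kr_one h]
    have hψ := abs_le.1 (S.bψ _ (V.hP x))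
    have g1 := S.le_gn hδ hδ' hQ (x - z)
    have g2 : ‖x - z‖ / (1 - 2 * ε) ≤ gn (S.G Q) (x - z) / ((1 - 3 * δ) * (1 - 2 * ε)) := by
      rw [div_le_div_iff₀ p2 hρ]
      linarith only [mul_le_mul_of_nonneg_right g1 p2.le]
    have g3 := h.anti g2
    have g4 := h.cmp_centre x z hε.le (by linarith) hz
    have g5 : Kr m η ((1 - 3 * δ) * (1 - 2 * ε)) (gn (S.G Q) (x - z)) ≤
        ((1 - 3 * δ) ^ m)⁻¹ * ((1 - 2 * ε) ^ (m + 3))⁻¹ * η ‖x‖ := by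
      unfold Kr
      have g6 : η (gn (S.G Q) (x - z) / ((1 - 3 * δ) * (1 - 2 * ε))) ≤
          ((1 - 2 * ε) ^ 3)⁻¹ * η ‖x‖ := by
        rw [le_inv_mul_iff₀ (pow_pos p2 3)]
        exact (mul_le_mul_of_nonneg_left g3 (pow_pos p2 3).le).trans g4
      calc (((1 - 3 * δ) * (1 - 2 * ε)) ^ m)⁻¹ *
            η (gn (S.G Q) (x - z) / ((1 - 3 * δ) * (1 - 2 * ε)))
          ≤ (((1 - 3 * δ) * (1 - 2 * ε)) ^ m)⁻¹ * (((1 - 2 * ε) ^ 3)⁻¹ * η ‖x‖) :=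
            mul_le_mul_of_nonneg_left g6 (by positivity)
        _ = ((1 - 3 * δ) ^ m)⁻¹ * ((1 - 2 * ε) ^ (m + 3))⁻¹ * η ‖x‖ := by
            rw [mul_pow, mul_inv, pow_add, mul_inv]
            ring
    have g7 : 0 ≤ ((1 - 3 * δ) ^ m)⁻¹ * ((1 - 2 * ε) ^ (m + 3))⁻¹ * η ‖x‖ :=
      mul_nonneg (by positivity) (h.nonneg _)
    calc Kr m η ((1 - 3 * δ) * (1 - 2 * ε)) (gn (S.G Q) (x - z)) * S.ψ (V.P x)
        ≤ (((1 - 3 * δ) ^ m)⁻¹ * ((1 - 2 * ε) ^ (m + 3))⁻¹ * η ‖x‖) * (1 + δ) :=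
          mul_le_mul g5 (by linarith only [hψ.2]) (by linarith [hψ.1]) g7
      _ = _ := by ring

theorem ld_unit (n m : ℕ) (hm : 1 ≤ m) (η₁ : ℝ) (h0 : 0 < η₁) (h1 : η₁ < 1) :
    ∃ (τ : ℝ) (η : ℝ → ℝ) (δ₁ l₁ : ℝ), Ker τ η ∧ 1 - η₁ / 16 ≤ (1 - τ) ^ m ∧ 0 < δ₁ ∧
    δ₁ ≤ d0 n ∧ 0 < l₁ ∧
    ∀ {δ : ℝ} {S : Stress n m δ} {α Λ : ℝ} {U : Set (E n)} (V : Sys S α Λ U),
    0 ≤ δ → δ ≤ δ₁ → 0 ≤ Λ → 0 < α → α < 1 → lam α Λ ≤ l₁ →
    V.AE → closedBall 0 1 ⊆ U →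
    (∀ r : ℝ, 0 < r → r < 1 → (1 - η₁ / 2) * om m ≤ ∫ z, Kr m η r ‖z‖ ∂V.μ) →
    (1 - η₁ / 2) * om m < ∫ z, Kr m η 1 ‖z‖ ∂V.μ := by
  obtain ⟨t0, t1, t2⟩ := ld_tau m hm h0 h1 rfl
  obtain ⟨e0, e1, e2⟩ := ld_eps m h0 h1 rfl
  set τ := η₁ / (16 * m) with hτ
  set ε := η₁ / (64 * (m + 3)) with hε
  obtain ⟨η, hη⟩ := exists_ker τ t0 t1
  have ho : 0 < om m := om_pos
  obtain ⟨d1, l1, hd1, hd1', hl1, hgc⟩ :=
    good_centre n m hm ε (η₁ * om m / 64) e0 e1 (by positivity)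
  obtain ⟨c, hc, hwm⟩ := wm_iter m hm
  obtain ⟨d2, hd2, hnum⟩ := ld_num m η₁ c (om m) h0 ho
  refine ⟨τ, η, min d1 d2, min l1 d2, hη, t2, lt_min hd1 hd2, (min_le_left _ _).trans hd1',
    lt_min hl1 hd2, ?_⟩
  intro δ S α Λ U V hδ hδ1 hΛ hα hα1 hlam hAE hU hr
  by_contra hcon
  rw [not_lt] at hcon
  have hδ2 : δ ≤ d1 := hδ1.trans (min_le_left _ _)
  have hδ3 : δ ≤ d2 := hδ1.trans (min_le_right _ _)
  have hδ' : δ ≤ d0 n := hδ2.trans hd1'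
  have hd : δ ≤ 1 / 100 := hδ'.trans d0_le
  have hl0 : 0 ≤ lam α Λ := lam_nonneg hα hΛ
  have m1 : V.μ.real (ball 0 (1 / 2)) ≤ om m := by
    refine ((real_ball_half_le (m := m) V hη).trans hcon).trans ?_
    nlinarith only [h0, ho]
  have m2 : 1 / 2 * om m * (ε / 2) ^ m ≤ V.μ.real (ball 0 (ε / 2)) := by
    have h2 := (hr (ε / 2) (by positivity) (by linarith only [e1])).trans
      (Kr_int_le_ball (m := m) V hη (r := ε / 2) (by positivity))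
    have h3 : 1 / 2 * om m ≤ (1 - η₁ / 2) * om m := by nlinarith only [h1, ho]
    have h4 := h3.trans h2
    rw [le_inv_mul_iff₀ (by positivity)] at h4
    linarith only [h4]
  obtain ⟨z, hz, hI⟩ := hgc V hη hδ hδ2 hΛ hα hα1 (hlam.trans (min_le_left _ _)) hAE hU m1 m2
  have p1 : 0 < 1 - 3 * δ := by linarith only [hd]
  have p2 : 0 < 1 - 2 * ε := by linarith only [e1]
  set ρ := (1 - 3 * δ) * (1 - 2 * ε) with hρ
  have hρ0 : 0 < ρ := mul_pos p1 p2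
  have hρ1 : ρ ≤ 1 := by
    rw [hρ]
    exact mul_le_one₀ (by linarith only [hδ]) p2.le (by linarith only [e0])
  have hρ2 : 1 / 64 ≤ ρ := by
    rw [hρ]
    nlinarith only [e1, hd]
  have hdiv : ρ / (1 - 3 * δ) = 1 - 2 * ε := by
    rw [hρ]
    field_simp
  have hw := hwm V hη hδ hδ' hΛ hα hα1 (V.hP z) z 6 (s := 1 / 64) (r := ρ) (by norm_num) hρ2
    (by norm_num; exact hρ1) (by
      rw [hdiv]
      intro x hx
      refine hU ?_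
      rw [mem_closedBall_zero_iff]
      rw [mem_closedBall, dist_eq_norm] at hx
      calc ‖x‖ = ‖(x - z) + z‖ := by rw [sub_add_cancel]
        _ ≤ ‖x - z‖ + ‖z‖ := norm_add_le _ _
        _ ≤ 1 := by linarith only [e0, hz, hx])
  have hra : ρ ^ α ≤ 1 := Real.rpow_le_one hρ0.le hρ1 hα.le
  have hra0 : 0 ≤ ρ ^ α := Real.rpow_nonneg hρ0.le _
  have hlr : lam α Λ * ρ ^ α ≤ lam α Λ := mul_le_of_le_one_right hl0 hra
  have hIρ := I_centre_le V hη hδ hδ' (V.hP z) z e0 e1 hz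
  rw [← hρ] at hIρ
  have hI2 : V.I η (V.P z) z ρ ≤ (1 + δ) * ((1 - 3 * δ) ^ m)⁻¹ * ((1 - η₁ / 4) * om m) := by
    refine hIρ.trans ?_
    have h5 : ((1 - 2 * ε) ^ (m + 3))⁻¹ * ∫ x, Kr m η 1 ‖x‖ ∂V.μ ≤ (1 - η₁ / 4) * om m := by
      rw [inv_mul_le_iff₀ (pow_pos p2 _)]
      refine hcon.trans ?_
      calc (1 - η₁ / 2) * om m ≤ ((1 - η₁ / 4) * (1 - 2 * ε) ^ (m + 3)) * om m :=
            mul_le_mul_of_nonneg_right e2 ho.le
        _ = _ := by ring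
    calc (1 + δ) * (((1 - 3 * δ) ^ m)⁻¹ * ((1 - 2 * ε) ^ (m + 3))⁻¹) * ∫ x, Kr m η 1 ‖x‖ ∂V.μ
        = (1 + δ) * ((1 - 3 * δ) ^ m)⁻¹ *
          (((1 - 2 * ε) ^ (m + 3))⁻¹ * ∫ x, Kr m η 1 ‖x‖ ∂V.μ) := by ring
      _ ≤ _ := mul_le_mul_of_nonneg_left h5 (by positivity)
  have hI0 : 0 ≤ V.I η (V.P z) z ρ := V.I_nonneg hη hδ hδ' _ _ hρ0
  have hfin : V.I η (V.P z) z (1 / 64) ≤ Real.exp (c * (δ ^ 2 * 6 + lam α Λ)) *
      ((1 + δ) * ((1 - 3 * δ) ^ m)⁻¹ * ((1 - η₁ / 4) * om m) + c * lam α Λ) := by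
    refine hw.trans ?_
    push_cast
    refine mul_le_mul (Real.exp_le_exp.2 ?_) ?_ ?_ (Real.exp_pos _).le
    · exact mul_le_mul_of_nonneg_left (by linarith only [hlr]) hc.le
    · have := mul_le_mul_of_nonneg_left hlr hc.le
      linarith only [hI2, this]
    · have := mul_nonneg hc.le (mul_nonneg hl0 hra0)
      linarith only [hI0, this]
  have hn := hnum δ (lam α Λ) hδ hδ3 hl0 (hlam.trans (min_le_right _ _))
  have hc0 : (1 - δ) * (((1 + 3 * δ) ^ m)⁻¹ * (1 - η₁ / 16)) * om m ≤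
      (1 - δ) * ((1 - τ) / (1 + 3 * δ)) ^ m * om m := by
    refine mul_le_mul_of_nonneg_right ?_ ho.le
    refine mul_le_mul_of_nonneg_left ?_ (by linarith only [p1])
    rw [div_pow, div_eq_inv_mul ((1 - τ) ^ m)]
    exact mul_le_mul_of_nonneg_left t2 (by positivity)
  linarith only [hI, hfin, hn, hc0]

end Allard
end
end

section

/-!
# L4: the lower density theorem

Let `Φ y r := ∫ Kr m η r ‖z - y‖ dμ(z)`; `r ↦ Φ y r` is continuous on `(0,∞)` (dominated convergence);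
at an (AE) point, `Φ y r ≥ r^{-m} μ(ball y ((1-τ) r)) ≥ (1-τ)^m (1-ε) om > (1-η₁/2) om` for small `r`.
Claim: for (AE) points and `closedBall y r ⊆ U`, `r ≤ 1`: `Φ y r ≥ (1-η₁/2) om`.  Otherwise let
`r₁ = inf {ρ ∈ (0, r] : Φ y ρ ≤ (1-η₁/2) om} > 0`; then `Φ y r₁ ≤ (1-η₁/2) om` and `Φ y ρ > ...` for
`ρ < r₁`; `V.rs y r₁` contradicts `ld_unit` (`Λ' = Λ r₁^α`, `lam α Λ' ≤ lam α Λ`, `rs_AE`, `rs_integral`).
So `μ(ball y r) ≥ r^m Φ y r ≥ (1-η₁/2) om r^m`.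
For `y` in the support and `closedBall y r ⊆ U`: every neighbourhood of `y` has positive measure, so it
contains (AE) points `y'`; `ball y' (r - ‖y-y'‖) ⊆ ball y r`,
`closedBall y' (r-‖y-y'‖) ⊆ closedBall y r ⊆ U`, so
`μ(ball y r) ≥ (1-η₁/2) om (r-‖y-y'‖)^m`; let `y' → y`.
`U ⊆ ball 0 1` implies `r ≤ 1`.
-/

noncomputable section

open MeasureTheory Metric Set Filter Topology

namespace Allard

private theorem L4_int {n m : ℕ} {τ : ℝ} {η : ℝ → ℝ} (h : Ker τ η) {μ : Measure (E n)}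
    [IsFiniteMeasure μ] (y : E n) {r : ℝ} (hr : 0 < r) :
    Integrable (fun z => Kr m η r ‖z - y‖) μ := by
  refine Integrable.mono' (integrable_const ((r ^ m)⁻¹)) ?_ (Eventually.of_forall fun z => ?_)
  · exact ((continuous_Kr h r).comp (continuous_id.sub continuous_const).norm).aestronglyMeasurable
  · rw [Real.norm_eq_abs, abs_of_nonneg (Kr_nonneg h hr _)]
    exact Kr_le h hr _

private theorem L4_cont {n m : ℕ} {τ : ℝ} {η : ℝ → ℝ} (h : Ker τ η) {μ : Measure (E n)}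
    [IsFiniteMeasure μ] (y : E n) {r : ℝ} (hr : 0 < r) :
    ContinuousAt (fun s => ∫ z, Kr m η s ‖z - y‖ ∂μ) r := by
  have hev : ∀ᶠ s in 𝓝 r, r / 2 < s := lt_mem_nhds (by linarith)
  refine continuousAt_of_dominated (bound := fun _ => ((r / 2) ^ m)⁻¹) ?_ ?_
    (integrable_const _) (Eventually.of_forall fun z => ?_)
  · filter_upwards [hev] with s hs
    exact (L4_int h y (lt_trans (half_pos hr) hs)).aestronglyMeasurable
  · filter_upwards [hev] with s hs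
    refine Eventually.of_forall fun z => ?_
    have hs0 : 0 < s := lt_trans (half_pos hr) hs
    rw [Real.norm_eq_abs, abs_of_nonneg (Kr_nonneg h hs0 _)]
    refine (Kr_le h hs0 _).trans ?_
    exact inv_anti₀ (pow_pos (half_pos hr) m) (pow_le_pow_left₀ (half_pos hr).le hs.le m)
  · unfold Kr
    refine ContinuousAt.mul ?_ ?_
    · exact (continuousAt_id.pow m).inv₀ (pow_ne_zero m hr.ne')
    · exact ContinuousAt.comp (g := η) h.cont.continuousAt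
        (continuousAt_const.div continuousAt_id hr.ne')

private theorem L4_low {n m : ℕ} {τ : ℝ} {η : ℝ → ℝ} (h : Ker τ η) {μ : Measure (E n)}
    [IsFiniteMeasure μ] (y : E n) {r : ℝ} (hr : 0 < r) :
    (r ^ m)⁻¹ * μ.real (ball y ((1 - τ) * r)) ≤ ∫ z, Kr m η r ‖z - y‖ ∂μ := by
  have h1 : ∫ z, (ball y ((1 - τ) * r)).indicator (fun _ => (r ^ m)⁻¹) z ∂μ =
      (r ^ m)⁻¹ * μ.real (ball y ((1 - τ) * r)) := by
    rw [integral_indicator_const _ measurableSet_ball, smul_eq_mul, mul_comm]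
  rw [← h1]
  refine integral_mono ((integrable_const _).indicator measurableSet_ball) (L4_int h y hr) ?_
  intro z
  by_cases hz : z ∈ ball y ((1 - τ) * r)
  · rw [Set.indicator_of_mem hz]
    rw [mem_ball_iff_norm] at hz
    exact (Kr_eq h hr hz.le).ge
  · rw [Set.indicator_of_notMem hz]
    exact Kr_nonneg h hr _

private theorem L4_up {n m : ℕ} {τ : ℝ} {η : ℝ → ℝ} (h : Ker τ η) {μ : Measure (E n)}
    [IsFiniteMeasure μ] (y : E n) {r : ℝ} (hr : 0 < r) :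
    ∫ z, Kr m η r ‖z - y‖ ∂μ ≤ (r ^ m)⁻¹ * μ.real (ball y r) := by
  have h1 : ∫ z, (ball y r).indicator (fun _ => (r ^ m)⁻¹) z ∂μ =
      (r ^ m)⁻¹ * μ.real (ball y r) := by
    rw [integral_indicator_const _ measurableSet_ball, smul_eq_mul, mul_comm]
  rw [← h1]
  refine integral_mono (L4_int h y hr) ((integrable_const _).indicator measurableSet_ball) ?_
  intro z
  by_cases hz : z ∈ ball y r
  · rw [Set.indicator_of_mem hz]
    exact Kr_le h hr _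
  · rw [Set.indicator_of_notMem hz]
    rw [mem_ball_iff_norm, not_lt] at hz
    exact (Kr_eq_zero h hr hz).le

private theorem L4_rs {n m : ℕ} {δ : ℝ} {S : Stress n m δ} {α Λ : ℝ} {U : Set (E n)}
    (V : Sys S α Λ U) {η : ℝ → ℝ} (y : E n) {r : ℝ} (hr : 0 < r) {ρ : ℝ} (hρ : 0 < ρ) :
    ∫ w, Kr m η ρ ‖w‖ ∂(V.rs y r hr).μ = ∫ z, Kr m η (r * ρ) ‖z - y‖ ∂V.μ := by
  rw [rs_integral, ← integral_const_mul]
  congr 1
  funext z
  unfold Kr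
  rw [norm_smul, norm_inv, Real.norm_of_nonneg hr.le, mul_pow, mul_inv, ← mul_assoc]
  congr 2
  field_simp

theorem LD_thm (n m : ℕ) (hn : 1 ≤ n) (hm : 1 ≤ m) (η₁ : ℝ) (h0 : 0 < η₁) (h1 : η₁ < 1) :
    ∃ δ₁ l₁ : ℝ, 0 < δ₁ ∧ δ₁ ≤ d0 n ∧ 0 < l₁ ∧
    ∀ {δ : ℝ} {S : Stress n m δ} {α Λ : ℝ} {U : Set (E n)} (V : Sys S α Λ U),
    0 ≤ δ → δ ≤ δ₁ → 0 ≤ Λ → 0 < α → α < 1 → lam α Λ ≤ l₁ →
    V.AE → U ⊆ ball 0 1 → V.LD η₁ := by
  obtain ⟨τ, η, δ₁, l₁, hK, hτ, hδ₁, hδ₁', hl₁, H⟩ := ld_unit n m hm η₁ h0 h1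
  refine ⟨δ₁, l₁, hδ₁, hδ₁', hl₁, ?_⟩
  intro δ S α Λ U V hδ hδδ hΛ hα hα1 hlam hAE hU
  have hom : 0 < om m := om_pos
  have hτ0 := hK.tpos
  have hτ1 := hK.tle
  have hc : 0 < (1 - η₁ / 2) * om m := mul_pos (by linarith) hom
  have hlam0 : 0 ≤ lam α Λ := by
    unfold lam
    refine div_nonneg hΛ ?_
    have h2 : (2 : ℝ) ^ (-α) ≤ 1 := Real.rpow_le_one_of_one_le_of_nonpos (by norm_num) (by linarith)
    linarith
  -- the radii are at most one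
  have hrad : ∀ (y : E n) (r : ℝ), 0 < r → closedBall y r ⊆ U → r ≤ 1 := by
    intro y r hr hyr
    have hne : Nonempty (Fin n) := ⟨⟨0, hn⟩⟩
    have hnt : Nontrivial (E n) := inferInstance
    obtain ⟨u, hu⟩ := exists_norm_eq (E n) (zero_le_one)
    have h2 : y + r • u ∈ ball (0 : E n) 1 := hU (hyr (by
      rw [mem_closedBall_iff_norm, add_sub_cancel_left, norm_smul, hu, mul_one,
        Real.norm_of_nonneg hr.le]))
    have h3 : y - r • u ∈ ball (0 : E n) 1 := hU (hyr (by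
      rw [mem_closedBall_iff_norm, sub_sub_cancel_left, norm_neg, norm_smul, hu, mul_one,
        Real.norm_of_nonneg hr.le]))
    rw [mem_ball_zero_iff] at h2 h3
    have h4 : ‖(y + r • u) - (y - r • u)‖ = 2 * r := by
      rw [show (y + r • u) - (y - r • u) = (2 * r) • u by module, norm_smul, hu, mul_one,
        Real.norm_of_nonneg (by linarith)]
    have h5 := norm_sub_le (y + r • u) (y - r • u)
    linarith
  -- the claim at the good points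
  have key : ∀ y : E n, (∀ ε : ℝ, 0 < ε → ∀ᶠ r in 𝓝[>] (0 : ℝ),
      (1 - ε) * om m * r ^ m ≤ V.μ.real (ball y r)) → ∀ r : ℝ, 0 < r → closedBall y r ⊆ U →
      (1 - η₁ / 2) * om m ≤ ∫ z, Kr m η r ‖z - y‖ ∂V.μ := by
    intro y hy r hr hyr
    by_contra hcon
    push Not at hcon
    have hr1 := hrad y r hr hyr
    -- small radii are good
    obtain ⟨r₀, hr₀, hsm⟩ : ∃ r₀ : ℝ, 0 < r₀ ∧ ∀ ρ : ℝ, 0 < ρ → ρ < r₀ →
        (1 - η₁ / 2) * om m < ∫ z, Kr m η ρ ‖z - y‖ ∂V.μ := by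
      have h2 := hy (η₁ / 16) (by linarith)
      rw [eventually_nhdsWithin_iff, Metric.eventually_nhds_iff] at h2
      obtain ⟨ε, hε, h2⟩ := h2
      refine ⟨ε, hε, fun ρ hρ hρε => ?_⟩
      have hs0 : 0 < (1 - τ) * ρ := mul_pos (by linarith) hρ
      have h3 := h2 (y := (1 - τ) * ρ) (by
        rw [Real.dist_eq, sub_zero, abs_of_pos hs0]
        nlinarith) hs0
      have h4 := L4_low (m := m) hK (μ := V.μ) y hρ
      have h5 : (1 - η₁ / 16) * om m * (1 - τ) ^ m ≤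
          (ρ ^ m)⁻¹ * V.μ.real (ball y ((1 - τ) * ρ)) := by
        have h6 : (1 - η₁ / 16) * om m * (1 - τ) ^ m =
            (ρ ^ m)⁻¹ * ((1 - η₁ / 16) * om m * ((1 - τ) * ρ) ^ m) := by
          rw [mul_pow]
          field_simp
        rw [h6]
        exact mul_le_mul_of_nonneg_left h3 (by positivity)
      have h7 : (1 - η₁ / 16) * om m * (1 - η₁ / 16) ≤ (1 - η₁ / 16) * om m * (1 - τ) ^ m :=
        mul_le_mul_of_nonneg_left hτ (mul_nonneg (by linarith) hom.le)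
      have h8 : (1 - η₁ / 2) * om m < (1 - η₁ / 16) * om m * (1 - η₁ / 16) := by
        have h9 : (1 - η₁ / 2) < (1 - η₁ / 16) * (1 - η₁ / 16) := by nlinarith
        calc (1 - η₁ / 2) * om m < ((1 - η₁ / 16) * (1 - η₁ / 16)) * om m :=
              mul_lt_mul_of_pos_right h9 hom
          _ = _ := by ring
      linarith
    -- the first bad radius
    have hrr₀ : r₀ ≤ r := by
      by_contra hlt
      push Not at hlt
      exact absurd (hsm r hr hlt) (not_lt.mpr hcon.le)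
    have hcomp : IsCompact (Icc (r₀ / 2) r ∩
        {ρ | ∫ z, Kr m η ρ ‖z - y‖ ∂V.μ ≤ (1 - η₁ / 2) * om m}) := by
      have hcont : ContinuousOn (fun ρ => ∫ z, Kr m η ρ ‖z - y‖ ∂V.μ) (Icc (r₀ / 2) r) := by
        intro ρ hρ
        exact (L4_cont hK y (lt_of_lt_of_le (half_pos hr₀) hρ.1)).continuousWithinAt
      exact isCompact_Icc.of_isClosed_subset
        (hcont.preimage_isClosed_of_isClosed isClosed_Icc isClosed_Iic) inter_subset_left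
    obtain ⟨r₁, ⟨hr₁, hr₁c⟩, hmin⟩ := hcomp.exists_isLeast ⟨r, ⟨by linarith, le_rfl⟩, hcon.le⟩
    have hr₁0 : 0 < r₁ := lt_of_lt_of_le (half_pos hr₀) hr₁.1
    have hbel : ∀ ρ : ℝ, 0 < ρ → ρ < r₁ →
        (1 - η₁ / 2) * om m ≤ ∫ z, Kr m η ρ ‖z - y‖ ∂V.μ := by
      intro ρ hρ hρr
      by_cases h2 : ρ < r₀
      · exact (hsm ρ hρ h2).le
      · push Not at h2
        by_contra h3
        push Not at h3
        have h4 := hmin ⟨⟨by linarith, (hρr.trans_le hr₁.2).le⟩, h3.le⟩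
        linarith
    have h2 := H (V.rs y r₁ hr₁0) hδ hδδ (mul_nonneg hΛ (Real.rpow_nonneg hr₁0.le _)) hα hα1 (by
      rw [lam_mul]
      refine le_trans ?_ hlam
      exact mul_le_of_le_one_right hlam0 (Real.rpow_le_one hr₁0.le (hr₁.2.trans hr1) hα.le))
      (rs_AE V y r₁ hr₁0 hAE) (by
        intro w hw
        rw [mem_closedBall_zero_iff] at hw
        apply hyr
        rw [mem_closedBall_iff_norm, add_sub_cancel_left, norm_smul, Real.norm_of_nonneg hr₁0.le]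
        calc r₁ * ‖w‖ ≤ r₁ * 1 := mul_le_mul_of_nonneg_left hw hr₁0.le
          _ = r₁ := mul_one _
          _ ≤ r := hr₁.2) (by
        intro ρ hρ hρ1
        rw [L4_rs V y hr₁0 hρ]
        exact hbel _ (mul_pos hr₁0 hρ) (by nlinarith))
    rw [L4_rs V y hr₁0 one_pos, mul_one] at h2
    exact absurd h2 (not_lt.mpr hr₁c)
  -- passage to the support
  intro y hy r hr hyr
  have hlim : Tendsto (fun ε : ℝ => (1 - η₁ / 2) * om m * (r - ε) ^ m) (𝓝[>] 0)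
      (𝓝 ((1 - η₁ / 2) * om m * (r - 0) ^ m)) := by
    apply Tendsto.mono_left _ nhdsWithin_le_nhds
    exact (continuous_const.mul ((continuous_const.sub continuous_id).pow m)).tendsto 0
  have hev : ∀ᶠ ε in 𝓝[>] (0 : ℝ), (1 - η₁ / 2) * om m * (r - ε) ^ m ≤ V.μ.real (ball y r) := by
    filter_upwards [Ioo_mem_nhdsGT hr] with ε hε
    have h2 : 0 < V.μ (ball y ε) :=
      (Measure.mem_support_iff_forall y).1 hy _ (ball_mem_nhds y hε.1)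
    obtain ⟨y', hy', hy'AE⟩ : ∃ y' ∈ ball y ε, ∀ ε : ℝ, 0 < ε → ∀ᶠ r in 𝓝[>] (0 : ℝ),
        (1 - ε) * om m * r ^ m ≤ V.μ.real (ball y' r) := by
      by_contra hcon
      have h3 : V.μ (ball y ε) = 0 := by
        have h4 : V.μ {x | ¬ ∀ ε : ℝ, 0 < ε → ∀ᶠ r in 𝓝[>] (0 : ℝ),
            (1 - ε) * om m * r ^ m ≤ V.μ.real (ball x r)} = 0 := hAE
        exact measure_mono_null (fun x hx h5 => hcon ⟨x, hx, h5⟩) h4
      rw [h3] at h2
      exact absurd h2 (lt_irrefl _)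
    have hs0 : 0 < r - ε := sub_pos.mpr hε.2
    rw [mem_ball] at hy'
    have hsub : closedBall y' (r - ε) ⊆ closedBall y r :=
      closedBall_subset_closedBall' (by linarith)
    have hsub' : ball y' (r - ε) ⊆ ball y r := ball_subset_ball' (by linarith)
    have h3 := key y' hy'AE (r - ε) hs0 (hsub.trans hyr)
    have h4 := L4_up (m := m) hK (μ := V.μ) y' hs0
    have h5 : (1 - η₁ / 2) * om m * (r - ε) ^ m ≤ V.μ.real (ball y' (r - ε)) := by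
      have h6 := h3.trans h4
      rwa [inv_mul_eq_div, le_div_iff₀ (pow_pos hs0 m)] at h6
    exact h5.trans (measureReal_mono hsub')
  have h2 := le_of_tendsto hlim hev
  rw [sub_zero] at h2
  refine le_trans ?_ h2
  refine mul_le_mul_of_nonneg_right (mul_le_mul_of_nonneg_right (by linarith) hom.le) ?_
  positivity

end Allard
end
end

section

/-!
# J1: gains at one scale are small

Choose `κ' > 0` with `3 * 5^m * κ' * om ≤ ε₂/2`, `γ₁ ≤ 1/32` with `(1-γ₁)^{-m} ≤ 1 + κ'/8`.  Given `γ₀`: kernel with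
`(1-τ)^m ≥ 1-κ'/8`, `LD_thm` with `η₁ = κ'/8` (`≤ 1/2`), `δ, ε, lam` small (depending on `γ₀, s₀, τ`).
`Q := V.P y`, `s = s₀γ₀/2`, `r = 1/2`, `r* = (1-γ₀)(1-3δ)`.
`I r* ≤ (1+δ) r*^{-m} (1+ε) om` (`I_le`, `closedBall y (1-γ₀) ⊆ ball 0 1`), `I (1/2) ≤ exp(small)(I r* + small)`
(`wm_iter`, `k = 1`), `I s ≥ (1-δ)((1-τ)/(1+3δ))^m (1-κ'/8) om` (`le_I`, LD).  So `I(1/2) - I s ≤ κ' om`.
`MI_low`: `(1/3)∫ N ga ≤ κ' om + 240 δ² ∫ N + curvature`; `Nn_int_le`, `curv_le` (factors `(1/(s₀γ₀))^m`): small.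
For `s₀γ₀ ≤ ‖z-y‖ < 2γ₀`: `s ≤ t ≤ 1/4`, `N ≥ 2^{-m} t^{-m} ≥ (5γ₀)^{-m}`.
-/

noncomputable section

open MeasureTheory Metric Set Filter Topology

namespace Allard

private lemma J1_tau (m : ℕ) (hm : 1 ≤ m) {κ : ℝ} (hκ : 0 < κ) :
    ∃ τ : ℝ, 0 < τ ∧ τ ≤ 1 / 2 ∧ 1 - κ / 8 ≤ (1 - τ) ^ m := by
  have hm' : (0 : ℝ) < m := by exact_mod_cast hm
  refine ⟨min (1 / 2) (κ / (8 * m)), by positivity, min_le_left _ _, ?_⟩
  have h0 := min_le_left (1 / 2 : ℝ) (κ / (8 * m))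
  have h1 := min_le_right (1 / 2 : ℝ) (κ / (8 * m))
  have h2 : (m : ℝ) * min (1 / 2) (κ / (8 * m)) ≤ κ / 8 := by
    calc (m : ℝ) * min (1 / 2) (κ / (8 * m)) ≤ m * (κ / (8 * m)) := by gcongr
      _ = κ / 8 := by field_simp
  have h3 := one_add_mul_le_pow (a := -min (1 / 2 : ℝ) (κ / (8 * m))) (by linarith only [h0]) m
  rw [← sub_eq_add_neg] at h3
  linarith

private lemma J1_small (m : ℕ) {c κ ε₂ q₁ q₂ o τ : ℝ} (hκ : 0 < κ) (hκ1 : κ ≤ 1) (ho : 0 < o)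
    (hε₂ : 0 < ε₂) (hτ : 1 - κ / 8 ≤ (1 - τ) ^ m) :
    ∃ x : ℝ, 0 < x ∧ ∀ δ l ε : ℝ, |δ| < x → |l| < x → |ε| < x →
      Real.exp (c * (δ ^ 2 + l)) *
        ((1 + δ) * (((1 + κ / 8) * ((1 - 3 * δ) ^ m)⁻¹) * ((1 + ε) * o)) + c * l)
        ≤ (1 + κ / 2) * o ∧
      (1 - κ / 2) * o ≤ (1 - δ) * (((1 - τ) / (1 + 3 * δ)) ^ m * ((1 - κ / 8) * o)) ∧
      3 * 5 ^ m * (240 * δ ^ 2 * (2 * q₁ * (2 * o)) + 2 * q₂ * l * (1 + 2 * (2 * o))) ≤ ε₂ / 2 := by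
  have c1 : ContinuousAt (fun p : ℝ × ℝ × ℝ => Real.exp (c * (p.1 ^ 2 + p.2.1)) *
        ((1 + p.1) * (((1 + κ / 8) * ((1 - 3 * p.1) ^ m)⁻¹) * ((1 + p.2.2) * o)) + c * p.2.1))
        (0, 0, 0) := by
    have h1 : ContinuousAt (fun p : ℝ × ℝ × ℝ => ((1 - 3 * p.1) ^ m)⁻¹) (0, 0, 0) :=
      ContinuousAt.inv₀ (by fun_prop) (by simp)
    have h2 : ContinuousAt (fun p : ℝ × ℝ × ℝ => Real.exp (c * (p.1 ^ 2 + p.2.1))) (0, 0, 0) := by
      fun_prop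
    have h3 : ContinuousAt (fun p : ℝ × ℝ × ℝ => (1 + p.1)) (0, 0, 0) := by fun_prop
    have h4 : ContinuousAt (fun p : ℝ × ℝ × ℝ => (1 + p.2.2) * o) (0, 0, 0) := by fun_prop
    have h5 : ContinuousAt (fun p : ℝ × ℝ × ℝ => c * p.2.1) (0, 0, 0) := by fun_prop
    exact h2.mul ((h3.mul ((continuousAt_const.mul h1).mul h4)).add h5)
  have c2 : ContinuousAt (fun p : ℝ × ℝ × ℝ =>
      (1 - p.1) * (((1 - τ) / (1 + 3 * p.1)) ^ m * ((1 - κ / 8) * o))) (0, 0, 0) := by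
    have h1 : ContinuousAt (fun p : ℝ × ℝ × ℝ => (1 - τ) / (1 + 3 * p.1)) (0, 0, 0) :=
      ContinuousAt.div (by fun_prop) (by fun_prop) (by simp)
    have h3 : ContinuousAt (fun p : ℝ × ℝ × ℝ => (1 - p.1)) (0, 0, 0) := by fun_prop
    exact h3.mul ((h1.pow m).mul continuousAt_const)
  have c3 : ContinuousAt (fun p : ℝ × ℝ × ℝ =>
      3 * 5 ^ m * (240 * p.1 ^ 2 * (2 * q₁ * (2 * o)) + 2 * q₂ * p.2.1 * (1 + 2 * (2 * o))))
      (0, 0, 0) := by fun_prop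
  have e1 := c1.eventually_lt (continuousAt_const (y := (1 + κ / 2) * o)) (by
    simp only [mul_zero, sub_zero, one_pow, inv_one, add_zero, mul_one, one_mul]
    norm_num
    nlinarith only [hκ, ho])
  have e2 := (continuousAt_const (y := (1 - κ / 2) * o)).eventually_lt c2 (by
    simp only [mul_zero, sub_zero, add_zero, one_mul, div_one]
    have h1 : (1 - κ / 8) * ((1 - κ / 8) * o) ≤ (1 - τ) ^ m * ((1 - κ / 8) * o) :=
      mul_le_mul_of_nonneg_right hτ (by apply mul_nonneg <;> linarith)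
    refine lt_of_lt_of_le ?_ h1
    linarith only [mul_pos hκ ho, mul_pos (mul_pos hκ hκ) ho])
  have e3 := c3.eventually_lt (continuousAt_const (y := ε₂ / 2)) (by
    norm_num
    exact hε₂)
  obtain ⟨x, hx, hp⟩ := Metric.eventually_nhds_iff.1 (e1.and (e2.and e3))
  refine ⟨x, hx, fun δ l ε h1 h2 h3 => ?_⟩
  have h4 : dist (δ, l, ε) ((0, 0, 0) : ℝ × ℝ × ℝ) < x := by
    rw [Prod.dist_eq, Prod.dist_eq]
    simp only [Real.dist_eq, sub_zero]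
    exact max_lt h1 (max_lt h2 h3)
  obtain ⟨h5, h6, h7⟩ := hp h4
  exact ⟨h5.le, h6.le, h7.le⟩

private lemma J1_lam {α Λ : ℝ} (hα : 0 < α) (hΛ : 0 ≤ Λ) : 0 ≤ lam α Λ ∧ Λ ≤ lam α Λ := by
  have h1 : (2 : ℝ) ^ (-α) < 1 := Real.rpow_lt_one_of_one_lt_of_neg one_lt_two (by linarith)
  have h2 : (0 : ℝ) < (2 : ℝ) ^ (-α) := Real.rpow_pos_of_pos two_pos _
  have h3 : 0 < 1 - (2 : ℝ) ^ (-α) := by linarith
  unfold lam
  refine ⟨div_nonneg hΛ h3.le, ?_⟩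
  rw [le_div_iff₀ h3]
  nlinarith

private lemma J1_I {n m : ℕ} {δ : ℝ} {S : Stress n m δ} {α Λ : ℝ} {τ : ℝ} {η : ℝ → ℝ} {c κ : ℝ}
    (hc : 0 < c)
    (hwm : ∀ {n : ℕ} {δ : ℝ} {S : Stress n m δ} {α Λ : ℝ} {U : Set (E n)} {τ : ℝ} {η : ℝ → ℝ}
      (V : Sys S α Λ U), Ker τ η → 0 ≤ δ → δ ≤ d0 n → 0 ≤ Λ → 0 < α → α < 1 →
      ∀ {Q : Op n}, Pr n m Q → ∀ (y : E n) (k : ℕ) {s r : ℝ}, 0 < s → s ≤ r → r ≤ 2 ^ k * s →
      closedBall y (r / (1 - 3 * δ)) ⊆ U →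
      V.I η Q y s ≤ Real.exp (c * (δ ^ 2 * k + lam α Λ * r ^ α)) *
        (V.I η Q y r + c * (lam α Λ * r ^ α)))
    (V : Sys S α Λ (ball 0 1)) (hη : Ker τ η) (hδ : 0 ≤ δ) (hδ' : δ ≤ d0 n)
    (hΛ : 0 ≤ Λ) (hα : 0 < α) (hα' : α < 1) {γ₀ ε : ℝ} (hγ₀ : 0 < γ₀)
    (hγa : γ₀ ≤ 1 / 32) (hγb : 1 ≤ (1 + κ / 8) * (1 - γ₀) ^ m)
    (hmass : V.μ.real (ball 0 1) ≤ (1 + ε) * om m) {y : E n} (hy : ‖y‖ < γ₀) :
    V.I η (V.P y) y (1 / 2) ≤ Real.exp (c * (δ ^ 2 + lam α Λ)) *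
        ((1 + δ) * (((1 + κ / 8) * ((1 - 3 * δ) ^ m)⁻¹) * ((1 + ε) * om m)) + c * lam α Λ) := by
  have hd : δ ≤ 1 / 100 := hδ'.trans d0_le
  obtain ⟨hl0, -⟩ := J1_lam hα hΛ
  have h3δ : 0 < 1 - 3 * δ := by linarith only [hd]
  obtain ⟨r, hr⟩ : ∃ r : ℝ, r = (1 - γ₀) * (1 - 3 * δ) := ⟨_, rfl⟩
  have hr0 : 0 < r := by
    rw [hr]
    exact mul_pos (by linarith) h3δ
  have hrdiv : r / (1 - 3 * δ) = 1 - γ₀ := by
    rw [hr, mul_div_assoc, div_self h3δ.ne', mul_one]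
  have hsub : closedBall y (1 - γ₀) ⊆ ball (0 : E n) 1 := by
    intro w hw
    rw [mem_closedBall] at hw
    rw [mem_ball, dist_zero_right]
    have h1 : ‖w‖ ≤ dist w y + ‖y‖ := by
      rw [dist_eq_norm]
      calc ‖w‖ = ‖(w - y) + y‖ := by rw [sub_add_cancel]
        _ ≤ _ := norm_add_le _ _
    linarith only [hy, hw, h1]
  have h1 := V.I_le hη hδ hδ' (V.hP y) y hr0
  rw [hrdiv] at h1
  have h2 : V.μ.real (ball y (1 - γ₀)) ≤ (1 + ε) * om m :=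
    (measureReal_mono (ball_subset_closedBall.trans hsub)).trans hmass
  have h3 : (r ^ m)⁻¹ ≤ (1 + κ / 8) * ((1 - 3 * δ) ^ m)⁻¹ := by
    have h4 : 0 < (1 - γ₀) ^ m := pow_pos (by linarith) m
    have h5 : 0 < (1 - 3 * δ) ^ m := pow_pos h3δ m
    rw [hr, mul_pow, mul_inv]
    refine mul_le_mul_of_nonneg_right ?_ (inv_nonneg.2 h5.le)
    rw [inv_le_iff_one_le_mul₀ h4]
    exact hγb
  have h4 : 0 ≤ V.μ.real (ball y (1 - γ₀)) := measureReal_nonneg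
  have h5 : V.I η (V.P y) y r ≤
      (1 + δ) * (((1 + κ / 8) * ((1 - 3 * δ) ^ m)⁻¹) * ((1 + ε) * om m)) := by
    refine h1.trans (mul_le_mul_of_nonneg_left ?_ (by linarith only [hδ]))
    have h6 : 0 ≤ (r ^ m)⁻¹ := inv_nonneg.2 (pow_pos hr0 m).le
    exact mul_le_mul h3 h2 h4 (h6.trans h3)
  have hr12 : 1 / 2 ≤ r := by
    rw [hr]
    nlinarith only [hγa, hd]
  have hr1 : r ≤ 1 := by
    rw [hr]
    nlinarith only [hδ, hγ₀, hγa]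
  have h6 := hwm V hη hδ hδ' hΛ hα hα' (V.hP y) y 1 (s := 1 / 2) (r := r) (by norm_num) hr12
    (by rw [pow_one]; linarith only [hr1]) (by rw [hrdiv]; exact hsub)
  have h7 : r ^ α ≤ 1 := Real.rpow_le_one hr0.le hr1 hα.le
  have h8 : lam α Λ * r ^ α ≤ lam α Λ := mul_le_of_le_one_right hl0 h7
  have h9 : 0 ≤ r ^ α := Real.rpow_nonneg hr0.le _
  have hI0 : 0 ≤ V.I η (V.P y) y r := V.I_nonneg hη hδ hδ' _ _ hr0
  refine h6.trans ?_
  refine mul_le_mul ?_ ?_ ?_ (Real.exp_nonneg _)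
  · refine Real.exp_le_exp.2 (mul_le_mul_of_nonneg_left ?_ hc.le)
    rw [Nat.cast_one, mul_one]
    linarith only [h8]
  · refine add_le_add h5 (mul_le_mul_of_nonneg_left h8 hc.le)
  · exact add_nonneg hI0 (mul_nonneg hc.le (mul_nonneg hl0 h9))

private lemma J1_Is {n m : ℕ} {δ : ℝ} {S : Stress n m δ} {α Λ : ℝ} {τ : ℝ} {η : ℝ → ℝ} {κ : ℝ}
    (V : Sys S α Λ (ball 0 1)) (hη : Ker τ η) (hδ : 0 ≤ δ) (hδ' : δ ≤ d0 n)
    (hLD : V.LD (κ / 8)) {s : ℝ} (hs : 0 < s) (hs' : s ≤ 1 / 32)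
    {y : E n} (hys : y ∈ V.μ.support) (hy : ‖y‖ < 1 / 32) :
    (1 - δ) * (((1 - τ) / (1 + 3 * δ)) ^ m * ((1 - κ / 8) * om m)) ≤ V.I η (V.P y) y s := by
  have hd : δ ≤ 1 / 100 := hδ'.trans d0_le
  have h3δ : 0 < 1 + 3 * δ := by linarith
  have hτ := hη.tle
  have hτ0 := hη.tpos
  have h1 := V.le_I hη hδ hδ' (V.hP y) y hs
  refine le_trans (mul_le_mul_of_nonneg_left ?_ (by linarith)) h1
  have hρ : 0 < (1 - τ) * s / (1 + 3 * δ) := div_pos (mul_pos (by linarith only [hτ]) hs) h3δ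
  have hρ' : (1 - τ) * s / (1 + 3 * δ) ≤ s := by
    rw [div_le_iff₀ h3δ]
    nlinarith only [hδ, hs, hτ0]
  have h2 := hLD y hys _ hρ (by
    intro w hw
    rw [mem_closedBall] at hw
    rw [mem_ball, dist_zero_right]
    have h1 : ‖w‖ ≤ dist w y + ‖y‖ := by
      rw [dist_eq_norm]
      calc ‖w‖ = ‖(w - y) + y‖ := by rw [sub_add_cancel]
        _ ≤ _ := norm_add_le _ _
    linarith only [hs', hy, hρ', hw, h1])
  have h3 : ((1 - τ) / (1 + 3 * δ)) ^ m * ((1 - κ / 8) * om m) =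
      (s ^ m)⁻¹ * ((1 - κ / 8) * om m * ((1 - τ) * s / (1 + 3 * δ)) ^ m) := by
    have h4 : (1 - τ) * s / (1 + 3 * δ) = (1 - τ) / (1 + 3 * δ) * s := by ring
    rw [h4, mul_pow]
    have h5 : s ^ m ≠ 0 := (pow_pos hs m).ne'
    field_simp
  rw [h3]
  exact mul_le_mul_of_nonneg_left h2 (inv_nonneg.2 (pow_pos hs m).le)

private lemma J1_gain {n m : ℕ} {δ : ℝ} {S : Stress n m δ} {α Λ : ℝ} {τ : ℝ} {η : ℝ → ℝ}
    (hm : 1 ≤ m)
    (V : Sys S α Λ (ball 0 1)) (hη : Ker τ η) (hδ : 0 ≤ δ) (hδ' : δ ≤ d0 n)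
    (hΛ : 0 ≤ Λ) (hα : 0 < α) {γ₀ s₀ : ℝ} (hγ₀ : 0 < γ₀)
    (hγa : γ₀ ≤ 1 / 32) (hs₀ : 0 < s₀) (hs₁ : s₀ ≤ 1) {y : E n} (hy : ‖y‖ < γ₀) {X : ℝ}
    (hX : V.I η (V.P y) y (1 / 2) ≤ X) :
    ∫ z in {z | s₀ * γ₀ ≤ ‖z - y‖ ∧ ‖z - y‖ < 2 * γ₀}, ga (V.P z) (z - y) ∂V.μ ≤
      (5 * γ₀) ^ m * (3 * (V.I η (V.P y) y (1 / 2) - V.I η (V.P y) y (s₀ * γ₀ / 2) +
        (240 * δ ^ 2 * (2 * (2 * (1 / 2) / (s₀ * γ₀ / 2)) ^ m * X) +
          2 * ((1 / 2) / (s₀ * γ₀ / 2)) ^ m * lam α Λ * (1 + 2 * X)))) := by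
  have hd : δ ≤ 1 / 100 := hδ'.trans d0_le
  obtain ⟨hl0, hl1⟩ := J1_lam hα hΛ
  obtain ⟨s, hs⟩ : ∃ s : ℝ, s = s₀ * γ₀ / 2 := ⟨_, rfl⟩
  have hs0 : 0 < s := by
    rw [hs]
    positivity
  have hsγ : s₀ * γ₀ ≤ γ₀ := by nlinarith only [hγ₀, hs₁]
  have hs2 : s < 1 / 2 := by
    rw [hs]
    linarith only [hγa, hsγ]
  rw [← hs]
  have hX0 : 0 ≤ V.I η (V.P y) y (1 / 2) := V.I_nonneg hη hδ hδ' _ _ (by norm_num)
  obtain ⟨Q, hQdef⟩ : ∃ Q, Q = V.P y := ⟨_, rfl⟩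
  rw [← hQdef] at hX hX0 ⊢
  have hQ : Pr n m Q := by
    rw [hQdef]
    exact V.hP y
  obtain ⟨N, hN⟩ : ∃ N : E n → ℝ, N = fun z => Nn m η s (1 / 2) (gn (S.G Q) (z - y)) := ⟨_, rfl⟩
  have hNm : Measurable N := by
    rw [hN]
    exact ((continuous_Nn hη hm hs0 hs2).comp ((gn_continuous _).comp
      (continuous_id.sub continuous_const))).measurable
  have hN0 : ∀ z, 0 ≤ N z := fun z => by
    rw [hN]
    exact Nn_nonneg hη hm hs0 hs2 (gn_nonneg' _ _)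
  have hNb : ∀ z, N z ≤ (2 / s) ^ m := fun z => by
    rw [hN]
    refine (Nn_le' hη hm hs0 hs2 (gn_nonneg' _ _)).trans ?_
    exact mul_le_of_le_one_right (by positivity) (hη.le_one _)
  have hga0 : ∀ z, 0 ≤ ga (V.P z) (z - y) := fun z => ga_nonneg _
  have hga1 : ∀ z, ga (V.P z) (z - y) ≤ 1 := fun z => ga_le_one (V.hP z) _
  have hgam : Measurable (fun z => ga (V.P z) (z - y)) := V.measurable_ga y
  have hNi : Integrable N V.μ := by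
    refine Integrable.mono' (g := fun _ => (2 / s) ^ m) (integrable_const _)
      hNm.aestronglyMeasurable (Filter.Eventually.of_forall fun z => ?_)
    rw [Real.norm_eq_abs, abs_of_nonneg (hN0 z)]
    exact hNb z
  have hNgi : Integrable (fun z => N z * ga (V.P z) (z - y)) V.μ := by
    refine Integrable.mono' (g := N) hNi
      (hNm.mul hgam).aestronglyMeasurable (Filter.Eventually.of_forall fun z => ?_)
    rw [Real.norm_eq_abs, abs_of_nonneg (mul_nonneg (hN0 z) (hga0 z))]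
    exact mul_le_of_le_one_right (hN0 z) (hga1 z)
  have hPm : Measurable (fun z => ‖V.P z - Q‖ ^ 2) :=
    (V.mP.sub measurable_const).norm.pow_const 2
  have hP4 : ∀ z, ‖V.P z - Q‖ ^ 2 ≤ 4 := fun z => by
    have h1 := (V.hP z).norm_sub_le hQ
    nlinarith only [h1, norm_nonneg (V.P z - Q)]
  have hNPi : Integrable (fun z => N z * ‖V.P z - Q‖ ^ 2) V.μ := by
    refine Integrable.mono' (g := fun z => N z * 4) (hNi.mul_const 4)
      (hNm.mul hPm).aestronglyMeasurable (Filter.Eventually.of_forall fun z => ?_)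
    rw [Real.norm_eq_abs, abs_of_nonneg (mul_nonneg (hN0 z) (by positivity))]
    exact mul_le_mul_of_nonneg_left (hP4 z) (hN0 z)
  have hU : closedBall y ((1 / 2) / (1 - 3 * δ)) ⊆ ball (0 : E n) 1 := by
    intro w hw
    rw [mem_closedBall] at hw
    rw [mem_ball, dist_zero_right]
    have h1 : ‖w‖ ≤ dist w y + ‖y‖ := by
      rw [dist_eq_norm]
      calc ‖w‖ = ‖(w - y) + y‖ := by rw [sub_add_cancel]
        _ ≤ _ := norm_add_le _ _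
    have h2 : (1 / 2 : ℝ) / (1 - 3 * δ) ≤ 3 / 4 := by
      rw [div_le_iff₀ (by linarith only [hd])]
      linarith only [hd]
    linarith only [hγa, hy, hw, h1, h2]
  have hMI := V.MI_low hη hm hδ hδ' hQ y hs0 hs2 hU
  have hcurv := V.curv_le hη hm hδ hδ' hΛ hQ y hs0 hs2
  have hNn := V.Nn_int_le hη hm hδ hδ' hQ y hs0 hs2
  have e1 : ∫ z, Nn m η s (1 / 2) (gn (S.G Q) (z - y)) * ga (V.P z) (z - y) ∂V.μ =
      ∫ z, N z * ga (V.P z) (z - y) ∂V.μ := by rw [hN]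
  have e2 : ∫ z, Nn m η s (1 / 2) (gn (S.G Q) (z - y)) * ‖V.P z - Q‖ ^ 2 ∂V.μ =
      ∫ z, N z * ‖V.P z - Q‖ ^ 2 ∂V.μ := by rw [hN]
  have e3 : ∫ z, Nn m η s (1 / 2) (gn (S.G Q) (z - y)) ∂V.μ = ∫ z, N z ∂V.μ := by rw [hN]
  rw [e1, e2] at hMI
  rw [e3] at hNn
  -- the loss
  have h1 : ∫ z, N z * ‖V.P z - Q‖ ^ 2 ∂V.μ ≤ 4 * ∫ z, N z ∂V.μ := by
    rw [← integral_const_mul]
    refine integral_mono hNPi (hNi.const_mul 4) fun z => ?_
    have h2 := mul_le_mul_of_nonneg_left (hP4 z) (hN0 z)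
    show N z * ‖V.P z - Q‖ ^ 2 ≤ 4 * N z
    linarith only [h2]
  have hq1 : 0 ≤ 2 * (2 * (1 / 2) / s) ^ m := by positivity
  have h2 : ∫ z, N z ∂V.μ ≤ 2 * (2 * (1 / 2) / s) ^ m * X :=
    hNn.trans (mul_le_mul_of_nonneg_left hX hq1)
  -- the curvature
  have h3 : ∫ z, |Xi m η s (1 / 2) (gn (S.G Q) (z - y))| * ‖z - y‖ * ‖V.H z‖ ∂V.μ ≤
      2 * ((1 / 2) / s) ^ m * lam α Λ * (1 + 2 * X) := by
    refine hcurv.trans ?_
    have h4 : (1 / 2 : ℝ) ^ α ≤ 1 := Real.rpow_le_one (by norm_num) (by norm_num) hα.le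
    have h5 : Λ * (1 / 2 : ℝ) ^ α ≤ lam α Λ := (mul_le_of_le_one_right hΛ h4).trans hl1
    have h6 : 0 ≤ 2 * ((1 / 2) / s) ^ m := by positivity
    have h7 : 0 ≤ Λ * (1 / 2 : ℝ) ^ α := mul_nonneg hΛ (Real.rpow_nonneg (by norm_num) _)
    refine mul_le_mul (mul_le_mul_of_nonneg_left h5 h6) (by linarith only [hX]) (by linarith only [hX0])
      (mul_nonneg h6 hl0)
  -- the gain
  obtain ⟨D, hD⟩ : ∃ D : Set (E n), D = {z | s₀ * γ₀ ≤ ‖z - y‖ ∧ ‖z - y‖ < 2 * γ₀} := ⟨_, rfl⟩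
  have hDm : MeasurableSet D := by
    rw [hD]
    exact (measurableSet_le measurable_const (measurable_id.sub measurable_const).norm).inter
      (measurableSet_lt (measurable_id.sub measurable_const).norm measurable_const)
  have hND : ∀ z ∈ D, 1 ≤ (5 * γ₀) ^ m * N z := by
    intro z hz
    rw [hD] at hz
    obtain ⟨hz1, hz2⟩ := hz
    obtain ⟨t, ht⟩ : ∃ t, t = gn (S.G Q) (z - y) := ⟨_, rfl⟩
    have ht1 : (1 - 3 * δ) * ‖z - y‖ ≤ t := by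
      rw [ht]
      exact S.le_gn hδ hδ' hQ (z - y)
    have ht2 : t ≤ (1 + 3 * δ) * ‖z - y‖ := by
      rw [ht]
      exact S.gn_le hδ hδ' hQ (z - y)
    have hz0 : 0 < ‖z - y‖ := lt_of_lt_of_le (by positivity) hz1
    have hst : s ≤ t := by
      rw [hs]
      nlinarith only [hd, hz1, ht1, hz0]
    have ht0 : 0 < t := hs0.trans_le hst
    have ht5 : 2 * t ≤ 5 * γ₀ := by nlinarith only [hd, hz2, ht2, hz0]
    have ht4 : t ≤ (1 / 2) / 2 := by linarith only [hγa, ht5]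
    have h4 := le_Nn (m := m) hη hm hs0 hs2 hst ht4
    have h5 : N z = Nn m η s (1 / 2) t := by rw [hN, ht]
    rw [h5]
    have h6 : 0 < (5 * γ₀) ^ m := by positivity
    have h7 : (2 * t) ^ m ≤ (5 * γ₀) ^ m := pow_le_pow_left₀ (by positivity) ht5 m
    have h8 : 0 < (2 * t) ^ m := by positivity
    calc (1 : ℝ) = (5 * γ₀) ^ m * ((5 * γ₀) ^ m)⁻¹ := (mul_inv_cancel₀ h6.ne').symm
      _ ≤ (5 * γ₀) ^ m * ((2 * t) ^ m)⁻¹ :=
          mul_le_mul_of_nonneg_left (inv_anti₀ h8 h7) h6.le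
      _ = (5 * γ₀) ^ m * ((2 ^ m)⁻¹ * (t ^ m)⁻¹) := by rw [mul_pow 2 t, mul_inv]
      _ ≤ (5 * γ₀) ^ m * Nn m η s (1 / 2) t := mul_le_mul_of_nonneg_left h4 h6.le
  have h4 : ∫ z in D, ga (V.P z) (z - y) ∂V.μ ≤
      (5 * γ₀) ^ m * ∫ z, N z * ga (V.P z) (z - y) ∂V.μ := by
    rw [← integral_const_mul]
    have h5 : ∫ z in D, ga (V.P z) (z - y) ∂V.μ ≤
        ∫ z in D, (5 * γ₀) ^ m * (N z * ga (V.P z) (z - y)) ∂V.μ := by
      refine setIntegral_mono_on ?_ (hNgi.const_mul _).integrableOn hDm fun z hz => ?_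
      · refine Integrable.mono' (g := fun _ => (1 : ℝ)) (integrable_const _)
          hgam.aestronglyMeasurable (Filter.Eventually.of_forall fun z => ?_)
        rw [Real.norm_eq_abs, abs_of_nonneg (hga0 z)]
        exact hga1 z
      · have h6 := mul_le_mul_of_nonneg_right (hND z hz) (hga0 z)
        rw [one_mul, mul_assoc] at h6
        exact h6
    refine h5.trans (setIntegral_le_integral (hNgi.const_mul _) ?_)
    exact Filter.Eventually.of_forall fun z =>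
      mul_nonneg (by positivity) (mul_nonneg (hN0 z) (hga0 z))
  rw [← hD]
  refine h4.trans (mul_le_mul_of_nonneg_left ?_ (by positivity))
  have hδ2 : 0 ≤ δ ^ 2 := sq_nonneg δ
  have h5 : 60 * δ ^ 2 * ∫ z, N z * ‖V.P z - Q‖ ^ 2 ∂V.μ ≤
      240 * δ ^ 2 * (2 * (2 * (1 / 2) / s) ^ m * X) := by
    calc 60 * δ ^ 2 * ∫ z, N z * ‖V.P z - Q‖ ^ 2 ∂V.μ
        ≤ 60 * δ ^ 2 * (4 * (2 * (2 * (1 / 2) / s) ^ m * X)) :=
          mul_le_mul_of_nonneg_left (h1.trans (by linarith only [h2])) (by positivity)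
      _ = _ := by ring
  linarith only [hMI, h3, h5]

theorem init_gain (n m : ℕ) (hn : 1 ≤ n) (hm : 1 ≤ m) (ε₂ s₀ : ℝ) (hε₂ : 0 < ε₂) (hs₀ : 0 < s₀)
    (hs₁ : s₀ ≤ 1) : ∃ γ₁ : ℝ, 0 < γ₁ ∧ γ₁ ≤ 1 / 32 ∧ ∀ γ₀ : ℝ, 0 < γ₀ → γ₀ ≤ γ₁ →
    ∃ ε δ₁ l₁ : ℝ, 0 < ε ∧ 0 < δ₁ ∧ δ₁ ≤ d0 n ∧ 0 < l₁ ∧
    ∀ {δ : ℝ} {S : Stress n m δ} {α Λ : ℝ} (V : Sys S α Λ (ball 0 1)),
    0 ≤ δ → δ ≤ δ₁ → 0 < α → α < 1 → 0 ≤ Λ → lam α Λ ≤ l₁ → V.AE →
    V.μ.real (ball 0 1) ≤ (1 + ε) * om m → ∀ y ∈ V.μ.support, ‖y‖ < γ₀ →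
    ∫ z in {z | s₀ * γ₀ ≤ ‖z - y‖ ∧ ‖z - y‖ < 2 * γ₀}, ga (V.P z) (z - y) ∂V.μ ≤
      ε₂ * γ₀ ^ m := by
  have hom : 0 < om m := om_pos
  have hm' : (0 : ℝ) < m := by exact_mod_cast hm
  obtain ⟨κ, hκ, hκ1, hκ2⟩ : ∃ κ : ℝ, 0 < κ ∧ κ ≤ 1 ∧ 3 * 5 ^ m * (κ * om m) ≤ ε₂ / 2 := by
    refine ⟨min 1 (ε₂ / (2 * (3 * 5 ^ m * om m))), by positivity, min_le_left _ _, ?_⟩
    calc 3 * 5 ^ m * (min 1 (ε₂ / (2 * (3 * 5 ^ m * om m))) * om m)
        ≤ 3 * 5 ^ m * ((ε₂ / (2 * (3 * 5 ^ m * om m))) * om m) := by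
          gcongr
          exact min_le_right _ _
      _ = ε₂ / 2 := by field_simp
  refine ⟨min (1 / 32) (κ / (16 * m)), by positivity, min_le_left _ _, ?_⟩
  intro γ₀ hγ₀ hγ₁
  have hγa : γ₀ ≤ 1 / 32 := hγ₁.trans (min_le_left _ _)
  have hγb : 1 ≤ (1 + κ / 8) * (1 - γ₀) ^ m := by
    have h1 : γ₀ ≤ κ / (16 * m) := hγ₁.trans (min_le_right _ _)
    have h2 : (m : ℝ) * γ₀ ≤ κ / 16 := by
      calc (m : ℝ) * γ₀ ≤ m * (κ / (16 * m)) := by gcongr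
        _ = κ / 16 := by field_simp
    have h3 := one_add_mul_le_pow (a := -γ₀) (by linarith only [hγa]) m
    rw [← sub_eq_add_neg] at h3
    have h4 : 1 - κ / 16 ≤ (1 - γ₀) ^ m := by linarith only [h2, h3]
    have h5 : (1 + κ / 8) * (1 - κ / 16) ≤ (1 + κ / 8) * (1 - γ₀) ^ m :=
      mul_le_mul_of_nonneg_left h4 (by linarith only [hκ])
    nlinarith only [hκ, hκ1, h5]
  obtain ⟨τ, hτ0, hτ1, hτ⟩ := J1_tau m hm hκ
  obtain ⟨η, hη⟩ := exists_ker τ hτ0 hτ1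
  obtain ⟨δa, la, hδa, hδa', hla, hLD⟩ := LD_thm n m hn hm (κ / 8) (by linarith) (by linarith only [hκ1])
  obtain ⟨c, hc, hwm⟩ := wm_iter m hm
  obtain ⟨x, hx, hsm⟩ := J1_small m (c := c) (q₁ := (2 * (1 / 2) / (s₀ * γ₀ / 2)) ^ m)
    (q₂ := ((1 / 2) / (s₀ * γ₀ / 2)) ^ m) hκ hκ1 hom hε₂ hτ
  refine ⟨x / 2, min δa (x / 2), min la (x / 2), by positivity, by positivity,
    (min_le_left _ _).trans hδa', by positivity, ?_⟩
  intro δ S α Λ V hδ hδ1 hα hα' hΛ hl1 hAE hmass y hys hy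
  have hδA : δ ≤ δa := hδ1.trans (min_le_left _ _)
  have hδ' : δ ≤ d0 n := hδA.trans hδa'
  have hlA : lam α Λ ≤ la := hl1.trans (min_le_left _ _)
  obtain ⟨hl0, -⟩ := J1_lam hα hΛ
  have hx1 : |δ| < x := by
    rw [abs_of_nonneg hδ]
    have := hδ1.trans (min_le_right _ _)
    linarith only [hx, this]
  have hx2 : |lam α Λ| < x := by
    rw [abs_of_nonneg hl0]
    have := hl1.trans (min_le_right _ _)
    linarith only [hx, this]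
  have hx3 : |x / 2| < x := by
    rw [abs_of_pos (by positivity)]
    linarith only [hx]
  obtain ⟨k1, k2, k3⟩ := hsm δ (lam α Λ) (x / 2) hx1 hx2 hx3
  have hLD' : V.LD (κ / 8) := hLD V hδ hδA hΛ hα hα' hlA hAE subset_rfl
  have hI1 := (J1_I hc hwm V hη hδ hδ' hΛ hα hα' hγ₀ hγa hγb hmass hy).trans k1
  have hs0 : 0 < s₀ * γ₀ / 2 := by positivity
  have hs32 : s₀ * γ₀ / 2 ≤ 1 / 32 := by nlinarith only [hs₁, hγ₀, hγa]
  have hI2 := k2.trans (J1_Is V hη hδ hδ' hLD' hs0 hs32 hys (hy.trans_le hγa))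
  have hX : V.I η (V.P y) y (1 / 2) ≤ 2 * om m := hI1.trans (by nlinarith only [hom, hκ1])
  refine (J1_gain hm V hη hδ hδ' hΛ hα hγ₀ hγa hs₀ hs₁ hy hX).trans ?_
  have h5 : 0 < (5 : ℝ) ^ m := by positivity
  have hg : 0 < γ₀ ^ m := by positivity
  have hdiff : V.I η (V.P y) y (1 / 2) - V.I η (V.P y) y (s₀ * γ₀ / 2) ≤ κ * om m := by
    linarith only [hI1, hI2]
  rw [mul_pow]
  have h6 : 3 * 5 ^ m * (V.I η (V.P y) y (1 / 2) - V.I η (V.P y) y (s₀ * γ₀ / 2)) ≤ ε₂ / 2 :=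
    (mul_le_mul_of_nonneg_left hdiff (by positivity)).trans hκ2
  have h7 : 3 * 5 ^ m * (V.I η (V.P y) y (1 / 2) - V.I η (V.P y) y (s₀ * γ₀ / 2) +
        (240 * δ ^ 2 * (2 * (2 * (1 / 2) / (s₀ * γ₀ / 2)) ^ m * (2 * om m)) +
          2 * ((1 / 2) / (s₀ * γ₀ / 2)) ^ m * lam α Λ * (1 + 2 * (2 * om m)))) ≤ ε₂ := by
    rw [mul_add]
    linarith only [k3, h6]
  calc 5 ^ m * γ₀ ^ m * (3 * (V.I η (V.P y) y (1 / 2) - V.I η (V.P y) y (s₀ * γ₀ / 2) +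
        (240 * δ ^ 2 * (2 * (2 * (1 / 2) / (s₀ * γ₀ / 2)) ^ m * (2 * om m)) +
          2 * ((1 / 2) / (s₀ * γ₀ / 2)) ^ m * lam α Λ * (1 + 2 * (2 * om m)))))
      = (3 * 5 ^ m * (V.I η (V.P y) y (1 / 2) - V.I η (V.P y) y (s₀ * γ₀ / 2) +
        (240 * δ ^ 2 * (2 * (2 * (1 / 2) / (s₀ * γ₀ / 2)) ^ m * (2 * om m)) +
          2 * ((1 / 2) / (s₀ * γ₀ / 2)) ^ m * lam α Λ * (1 + 2 * (2 * om m))))) * γ₀ ^ m := by
        ring
    _ ≤ ε₂ * γ₀ ^ m := mul_le_mul_of_nonneg_right h7 hg.le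

end Allard
end
end

section

/-!
# J3: initial flatness

`flat_unit` constants `s₁, C`.  `s₀ ≤ s₁` with `C s₀² ≤ e₀²/2`, `g = ε₂` with `C ε₂ ≤ e₀²/2`.  `γ₀` = minimum of the
`γ₁` of `init_gain (ε₂, s₀)` and of `init_mass (min κ 1)`.  Apply `flat_unit` to `V.rs 0 γ₀`:
`closedBall 0 2 ⊆ U'` (`2γ₀ < 1`), LD from `LD_thm (1/32)` and `rs_LD`, mass of `ball 0 2` from `init_mass` with
`r = 2γ₀`, curvature: `∫_{ball 0 2}‖H'‖ = 2^{m-1} V'.hh 2 0 ≤ C lam ≤ (31/32) om`; gains: change of variables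
(`rs_setIntegral`, `ga_smul`) from `init_gain`.
-/

noncomputable section

open MeasureTheory Metric Set Filter Topology

namespace Allard

private theorem j3_flat {n m : ℕ} (hm : 1 ≤ m) {s₁ C₁ : ℝ} (hs₁ : 0 < s₁)
    (hC₁ : 0 < C₁)
    (H : ∀ {δ : ℝ} {S : Stress n m δ} {α Λ : ℝ} {U : Set (E n)} (V : Sys S α Λ U),
      0 ≤ δ → δ ≤ d0 n → closedBall 0 2 ⊆ U → V.LD (1 / 32) → (0 : E n) ∈ V.μ.support →
      V.μ.real (ball 0 2) ≤ 2 * om m * 2 ^ m →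
      ∫ z in ball 0 2, ‖V.H z‖ ∂V.μ ≤ V.μ.real (ball 0 1) →
      ∀ s₀ g : ℝ, 0 < s₀ → s₀ ≤ s₁ →
      (∀ y ∈ V.μ.support, ‖y‖ < 1 →
        ∫ z in {z | s₀ ≤ ‖z - y‖ ∧ ‖z - y‖ < 2}, ga (V.P z) (z - y) ∂V.μ ≤ g) →
      ∃ Q : Op n, Pr n m Q ∧ ∫ z in ball 0 1, ‖(1 - Q) z‖ ^ 2 ∂V.μ ≤ C₁ * (g + s₀ ^ 2))
    {δ : ℝ} {S : Stress n m δ} {α Λ : ℝ} (V : Sys S α Λ (ball 0 1)) (hδ : 0 ≤ δ) (hδ' : δ ≤ d0 n)
    (hα : 0 < α) (hΛ : 0 ≤ Λ) (hΛl : Λ * (2 ^ m * (1 + 2 * om m)) ≤ om m)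
    (hLD : V.LD (1 / 32)) (h0 : (0 : E n) ∈ V.μ.support) {γ₀ : ℝ} (hγ : 0 < γ₀) (hγ1 : γ₀ ≤ 1 / 32)
    (hmass : V.μ.real (ball 0 (2 * γ₀)) ≤ 2 * om m * (2 * γ₀) ^ m)
    {s₀ ε₂ : ℝ} (hs₀ : 0 < s₀) (hs₀' : s₀ ≤ s₁)
    (hgain : ∀ y ∈ V.μ.support, ‖y‖ < γ₀ →
      ∫ z in {z | s₀ * γ₀ ≤ ‖z - y‖ ∧ ‖z - y‖ < 2 * γ₀}, ga (V.P z) (z - y) ∂V.μ ≤
        ε₂ * γ₀ ^ m) :
    ∃ Q : Op n, Pr n m Q ∧
      ∫ z in ball 0 γ₀, ‖(1 - Q) z‖ ^ 2 ∂V.μ ≤ C₁ * (ε₂ + s₀ ^ 2) * γ₀ ^ (m + 2) := by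
  have hom : 0 < om m := om_pos
  have hγm : 0 < (γ₀ ^ m)⁻¹ := by positivity
  have hγi : 0 < γ₀⁻¹ := by positivity
  have hres : ∀ z : E n, (0 : E n) + γ₀ • (γ₀⁻¹ • (z - 0)) = z := by
    intro z
    rw [smul_smul, mul_inv_cancel₀ hγ.ne', one_smul, sub_zero, zero_add]
  have hball : ∀ c : ℝ, (fun z : E n => γ₀⁻¹ • (z - 0)) ⁻¹' ball 0 c = ball 0 (c * γ₀) := by
    intro c
    ext z
    rw [Set.mem_preimage, mem_ball_zero_iff, mem_ball_zero_iff, sub_zero, norm_smul,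
      Real.norm_of_nonneg hγi.le, inv_mul_lt_iff₀ hγ, mul_comm c γ₀]
  have e2 : (V.rs 0 γ₀ hγ).μ.real (ball 0 2) = (γ₀ ^ m)⁻¹ * V.μ.real (ball 0 (2 * γ₀)) := by
    rw [rs_real_ball, smul_zero, add_zero, mul_comm γ₀ 2]
  have hm2 : (V.rs 0 γ₀ hγ).μ.real (ball 0 2) ≤ 2 * om m * 2 ^ m := by
    rw [e2, inv_mul_le_iff₀ (by positivity)]
    refine hmass.trans (le_of_eq ?_)
    rw [mul_pow]; ring
  have hU : closedBall (0 : E n) 2 ⊆ (fun w => (0 : E n) + γ₀ • w) ⁻¹' ball 0 1 := by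
    intro w hw
    rw [mem_closedBall_zero_iff] at hw
    rw [Set.mem_preimage, mem_ball_zero_iff, zero_add, norm_smul, Real.norm_of_nonneg hγ.le]
    nlinarith only [hγ1, hw, norm_nonneg w]
  have hLD' : (V.rs 0 γ₀ hγ).LD (1 / 32) := rs_LD V 0 γ₀ hγ hLD
  have h0' : (0 : E n) ∈ (V.rs 0 γ₀ hγ).μ.support := by
    rw [rs_support, smul_zero, add_zero]
    exact h0
  have hlow : (1 - 1 / 32) * om m ≤ (V.rs 0 γ₀ hγ).μ.real (ball 0 1) := by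
    have h1 := hLD' 0 h0' 1 one_pos ((closedBall_subset_closedBall (by norm_num)).trans hU)
    rwa [one_pow, mul_one] at h1
  have hcurv : ∫ z in ball 0 2, ‖(V.rs 0 γ₀ hγ).H z‖ ∂(V.rs 0 γ₀ hγ).μ ≤
      (V.rs 0 γ₀ hγ).μ.real (ball 0 1) := by
    have h1 := (V.rs 0 γ₀ hγ).hh_le two_pos 0
    unfold Sys.hh at h1
    have h2 : Λ * γ₀ ^ α * 2 ^ α ≤ Λ := by
      have h3 : γ₀ ^ α * 2 ^ α ≤ 1 := by
        rw [← Real.mul_rpow hγ.le (by norm_num)]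
        exact Real.rpow_le_one (by positivity) (by linarith only [hγ1]) hα.le
      calc Λ * γ₀ ^ α * 2 ^ α = Λ * (γ₀ ^ α * 2 ^ α) := by ring
        _ ≤ Λ * 1 := mul_le_mul_of_nonneg_left h3 hΛ
        _ = Λ := mul_one Λ
    have h4 : (2 ^ m : ℝ)⁻¹ * (V.rs 0 γ₀ hγ).μ.real (ball 0 2) ≤ 2 * om m := by
      rw [inv_mul_le_iff₀ (by positivity)]
      refine hm2.trans (le_of_eq (by ring))
    have h5 : 0 ≤ (2 ^ m : ℝ)⁻¹ * (V.rs 0 γ₀ hγ).μ.real (ball 0 2) :=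
      mul_nonneg (by positivity) measureReal_nonneg
    have h6 : 2 * (2 ^ m : ℝ)⁻¹ * ∫ z in ball 0 2, ‖(V.rs 0 γ₀ hγ).H z‖ ∂(V.rs 0 γ₀ hγ).μ ≤
        Λ * (1 + 2 * om m) := by
      refine h1.trans ?_
      calc Λ * γ₀ ^ α * 2 ^ α * (1 + (2 ^ m : ℝ)⁻¹ * (V.rs 0 γ₀ hγ).μ.real (ball 0 2))
          ≤ Λ * (1 + (2 ^ m : ℝ)⁻¹ * (V.rs 0 γ₀ hγ).μ.real (ball 0 2)) :=
            mul_le_mul_of_nonneg_right h2 (by linarith only [h5])
        _ ≤ Λ * (1 + 2 * om m) := mul_le_mul_of_nonneg_left (by linarith only [h4]) hΛ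
    have h7 : 2 * ∫ z in ball 0 2, ‖(V.rs 0 γ₀ hγ).H z‖ ∂(V.rs 0 γ₀ hγ).μ ≤ om m := by
      have h8 : 2 * ∫ z in ball 0 2, ‖(V.rs 0 γ₀ hγ).H z‖ ∂(V.rs 0 γ₀ hγ).μ =
          2 ^ m * (2 * (2 ^ m : ℝ)⁻¹ *
            ∫ z in ball 0 2, ‖(V.rs 0 γ₀ hγ).H z‖ ∂(V.rs 0 γ₀ hγ).μ) := by
        have h9 : (2 ^ m : ℝ) ≠ 0 := by positivity
        rw [← mul_assoc, mul_comm 2 ((2 ^ m : ℝ)⁻¹), mul_inv_cancel_left₀ h9]
      rw [h8]
      refine (mul_le_mul_of_nonneg_left h6 (by positivity : (0 : ℝ) ≤ 2 ^ m)).trans ?_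
      refine le_trans (le_of_eq ?_) hΛl
      ring
    linarith
  have hg' : ∀ y ∈ (V.rs 0 γ₀ hγ).μ.support, ‖y‖ < 1 →
      ∫ z in {z | s₀ ≤ ‖z - y‖ ∧ ‖z - y‖ < 2}, ga ((V.rs 0 γ₀ hγ).P z) (z - y)
        ∂(V.rs 0 γ₀ hγ).μ ≤ ε₂ := by
    intro y hy hy1
    rw [rs_support, zero_add] at hy
    have hset : MeasurableSet {z : E n | s₀ ≤ ‖z - y‖ ∧ ‖z - y‖ < 2} := by
      have h2 : MeasurableSet {w : E n | s₀ ≤ ‖w - y‖} :=
        measurableSet_le measurable_const (by fun_prop)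
      have h3 : MeasurableSet {w : E n | ‖w - y‖ < 2} :=
        measurableSet_lt (by fun_prop) measurable_const
      exact h2.inter h3
    rw [rs_setIntegral V 0 γ₀ hγ _ hset]
    have hyn : ‖γ₀ • y‖ < γ₀ := by
      rw [norm_smul, Real.norm_of_nonneg hγ.le]
      nlinarith only [hγ, hy1]
    have h1 := hgain (γ₀ • y) hy hyn
    have hv : ∀ z : E n, γ₀⁻¹ • (z - 0) - y = γ₀⁻¹ • (z - γ₀ • y) := by
      intro z
      rw [sub_zero, smul_sub, smul_smul, inv_mul_cancel₀ hγ.ne', one_smul]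
    have hnv : ∀ z : E n, ‖γ₀⁻¹ • (z - 0) - y‖ = γ₀⁻¹ * ‖z - γ₀ • y‖ := by
      intro z
      rw [hv, norm_smul, Real.norm_of_nonneg hγi.le]
    have hpre : (fun z : E n => γ₀⁻¹ • (z - 0)) ⁻¹' {z : E n | s₀ ≤ ‖z - y‖ ∧ ‖z - y‖ < 2} =
        {z | s₀ * γ₀ ≤ ‖z - γ₀ • y‖ ∧ ‖z - γ₀ • y‖ < 2 * γ₀} := by
      ext z
      show (s₀ ≤ ‖γ₀⁻¹ • (z - 0) - y‖ ∧ ‖γ₀⁻¹ • (z - 0) - y‖ < 2) ↔ _
      rw [hnv, le_inv_mul_iff₀ hγ, inv_mul_lt_iff₀ hγ, mul_comm γ₀ s₀, mul_comm γ₀ 2]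
      rfl
    rw [hpre]
    have hint : ∫ z in {z | s₀ * γ₀ ≤ ‖z - γ₀ • y‖ ∧ ‖z - γ₀ • y‖ < 2 * γ₀},
        ga ((V.rs 0 γ₀ hγ).P (γ₀⁻¹ • (z - 0))) (γ₀⁻¹ • (z - 0) - y) ∂V.μ =
        ∫ z in {z | s₀ * γ₀ ≤ ‖z - γ₀ • y‖ ∧ ‖z - γ₀ • y‖ < 2 * γ₀},
          ga (V.P z) (z - γ₀ • y) ∂V.μ := by
      congr 1
      funext z
      rw [hv, ga_smul _ hγi.ne', rs_P, hres]
    rw [hint, inv_mul_le_iff₀ (by positivity), mul_comm (γ₀ ^ m) ε₂]
    exact h1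
  obtain ⟨Q, hQ, hI⟩ := H (V.rs 0 γ₀ hγ) hδ hδ' hU hLD' h0' hm2 hcurv s₀ ε₂ hs₀ hs₀' hg'
  refine ⟨Q, hQ, ?_⟩
  rw [rs_setIntegral V 0 γ₀ hγ _ measurableSet_ball, hball, one_mul] at hI
  have hsc : ∫ z in ball 0 γ₀, ‖(1 - Q) (γ₀⁻¹ • (z - 0))‖ ^ 2 ∂V.μ =
      (γ₀⁻¹) ^ 2 * ∫ z in ball 0 γ₀, ‖(1 - Q) z‖ ^ 2 ∂V.μ := by
    rw [← integral_const_mul]
    congr 1
    funext z
    rw [sub_zero, map_smul, norm_smul, Real.norm_of_nonneg hγi.le, mul_pow]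
  rw [hsc] at hI
  have h1 : ∫ z in ball 0 γ₀, ‖(1 - Q) z‖ ^ 2 ∂V.μ =
      γ₀ ^ (m + 2) * ((γ₀ ^ m)⁻¹ * ((γ₀⁻¹) ^ 2 * ∫ z in ball 0 γ₀, ‖(1 - Q) z‖ ^ 2 ∂V.μ)) := by
    have h2 : γ₀ ≠ 0 := hγ.ne'
    have h3 : γ₀ ^ (m + 2) * ((γ₀ ^ m)⁻¹ * ((γ₀⁻¹) ^ 2)) = 1 := by
      rw [pow_add, inv_pow]
      field_simp
    calc ∫ z in ball 0 γ₀, ‖(1 - Q) z‖ ^ 2 ∂V.μ
        = (γ₀ ^ (m + 2) * ((γ₀ ^ m)⁻¹ * ((γ₀⁻¹) ^ 2))) *
          ∫ z in ball 0 γ₀, ‖(1 - Q) z‖ ^ 2 ∂V.μ := by rw [h3, one_mul]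
      _ = _ := by ring
  rw [h1, mul_comm (C₁ * (ε₂ + s₀ ^ 2))]
  exact mul_le_mul_of_nonneg_left hI (by positivity)

theorem init_flat (n m : ℕ) (hn : 1 ≤ n) (hm : 1 ≤ m) (e₀ κ : ℝ) (he₀ : 0 < e₀) (hκ : 0 < κ) :
    ∃ γ₀ ε δ₁ l₁ : ℝ, 0 < γ₀ ∧ γ₀ ≤ 1 / 32 ∧ 0 < ε ∧ 0 < δ₁ ∧ δ₁ ≤ d0 n ∧ 0 < l₁ ∧
    ∀ {δ : ℝ} {S : Stress n m δ} {α Λ : ℝ} (V : Sys S α Λ (ball 0 1)),
    0 ≤ δ → δ ≤ δ₁ → 0 < α → α < 1 → 0 ≤ Λ → lam α Λ ≤ l₁ → V.AE →
    V.μ.real (ball 0 1) ≤ (1 + ε) * om m → (0 : E n) ∈ V.μ.support →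
    (∃ Q : Op n, Pr n m Q ∧
      ∫ z in ball 0 γ₀, ‖(1 - Q) z‖ ^ 2 ∂V.μ ≤ e₀ ^ 2 * γ₀ ^ (m + 2)) ∧
    ∀ y : E n, ‖y‖ < γ₀ → ∀ r : ℝ, γ₀ / 8 ≤ r → r ≤ 1 / 2 →
      V.μ.real (ball y r) ≤ (1 + κ) * om m * r ^ m := by
  have hom : 0 < om m := om_pos
  obtain ⟨s₁, C₁, hs₁, hs₁', hC₁, hflat⟩ := flat_unit n m hm
  have hεp : 0 < e₀ ^ 2 / (2 * C₁) := by positivity
  have hs₀ : 0 < min s₁ (e₀ ^ 2 / (2 * C₁)) := lt_min hs₁ hεp
  have hs₀1 : min s₁ (e₀ ^ 2 / (2 * C₁)) ≤ 1 := (min_le_left _ _).trans hs₁'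
  obtain ⟨γg, hγg, hγg', Hg⟩ := init_gain n m hn hm _ _ hεp hs₀ hs₀1
  obtain ⟨γm, hγm, hγm', Hm⟩ := init_mass n m hm (min κ 1) (lt_min hκ one_pos)
  have hγ : 0 < min γg γm := lt_min hγg hγm
  have hγ32 : min γg γm ≤ 1 / 32 := (min_le_left _ _).trans hγg'
  obtain ⟨εg, δg, lg, hεg, hδg, hδg', hlg, Hg⟩ := Hg _ hγ (min_le_left _ _)
  obtain ⟨εm, δm, lm, hεm, hδm, hδm', hlm, Hm⟩ := Hm _ hγ (min_le_right _ _)
  obtain ⟨δL, lL, hδL, hδL', hlL, HL⟩ := LD_thm n m hn hm (1 / 32) (by norm_num) (by norm_num)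
  have hlc : 0 < om m / (2 ^ m * (1 + 2 * om m)) := by positivity
  refine ⟨min γg γm, min εg εm, min δg (min δm δL),
    min (min lg lm) (min lL (om m / (2 ^ m * (1 + 2 * om m)))), hγ, hγ32, lt_min hεg hεm,
    lt_min hδg (lt_min hδm hδL), (min_le_left _ _).trans hδg',
    lt_min (lt_min hlg hlm) (lt_min hlL hlc), ?_⟩
  intro δ S α Λ V hδ hδ' hα hα1 hΛ hlam hAE hM h0
  have d1 : δ ≤ δg := hδ'.trans (min_le_left _ _)
  have d2 : δ ≤ δm := hδ'.trans ((min_le_right _ _).trans (min_le_left _ _))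
  have d3 : δ ≤ δL := hδ'.trans ((min_le_right _ _).trans (min_le_right _ _))
  have l1 : lam α Λ ≤ lg := hlam.trans ((min_le_left _ _).trans (min_le_left _ _))
  have l2 : lam α Λ ≤ lm := hlam.trans ((min_le_left _ _).trans (min_le_right _ _))
  have l3 : lam α Λ ≤ lL := hlam.trans ((min_le_right _ _).trans (min_le_left _ _))
  have l4 : lam α Λ ≤ om m / (2 ^ m * (1 + 2 * om m)) :=
    hlam.trans ((min_le_right _ _).trans (min_le_right _ _))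
  have m1 : V.μ.real (ball 0 1) ≤ (1 + εg) * om m :=
    hM.trans (mul_le_mul_of_nonneg_right (by linarith only [min_le_left εg εm]) hom.le)
  have m2 : V.μ.real (ball 0 1) ≤ (1 + εm) * om m :=
    hM.trans (mul_le_mul_of_nonneg_right (by linarith [min_le_right εg εm]) hom.le)
  have hLD : V.LD (1 / 32) := HL V hδ d3 hΛ hα hα1 l3 hAE (subset_refl _)
  have hmass := Hm V hδ d2 hα hα1 hΛ l2 m2
  have hΛl : Λ * (2 ^ m * (1 + 2 * om m)) ≤ om m := by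
    have h1 : Λ ≤ lam α Λ := by
      unfold lam
      have h2 : (2 : ℝ) ^ (-α) < 1 := Real.rpow_lt_one_of_one_lt_of_neg (by norm_num) (by linarith)
      have h3 : 0 < (2 : ℝ) ^ (-α) := Real.rpow_pos_of_pos (by norm_num) _
      rw [le_div_iff₀ (by linarith)]
      nlinarith only [hΛ, h3]
    have h4 : Λ ≤ om m / (2 ^ m * (1 + 2 * om m)) := h1.trans l4
    rwa [le_div_iff₀ (by positivity)] at h4
  constructor
  · obtain ⟨Q, hQ, hI⟩ := j3_flat hm hs₁ hC₁ hflat V hδ (d1.trans hδg') hα hΛ hΛl hLD h0 hγ hγ32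
      (by
        have h1 := hmass 0 (by rw [norm_zero]; exact hγ) (2 * min γg γm) (by linarith)
          (by linarith)
        refine h1.trans ?_
        apply mul_le_mul_of_nonneg_right _ (by positivity)
        have := min_le_right κ 1
        nlinarith only [hom, this])
      hs₀ (min_le_left _ _) (Hg V hδ d1 hα hα1 hΛ l1 hAE m1)
    refine ⟨Q, hQ, hI.trans ?_⟩
    apply mul_le_mul_of_nonneg_right _ (by positivity)
    have h5 : (min s₁ (e₀ ^ 2 / (2 * C₁))) ^ 2 ≤ e₀ ^ 2 / (2 * C₁) := by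
      have h6 : (min s₁ (e₀ ^ 2 / (2 * C₁))) ^ 2 ≤ min s₁ (e₀ ^ 2 / (2 * C₁)) := by nlinarith only [hs₀, hs₀1]
      exact h6.trans (min_le_right _ _)
    calc C₁ * (e₀ ^ 2 / (2 * C₁) + (min s₁ (e₀ ^ 2 / (2 * C₁))) ^ 2)
        ≤ C₁ * (e₀ ^ 2 / (2 * C₁) + e₀ ^ 2 / (2 * C₁)) :=
          mul_le_mul_of_nonneg_left (by linarith only [h5]) hC₁.le
      _ = e₀ ^ 2 := by field_simp; ring
  · intro y hy r hr hr'
    refine (hmass y hy r hr hr').trans ?_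
    have h1 : 0 < r := by linarith only [hγ, hr]
    apply mul_le_mul_of_nonneg_right _ (by positivity)
    apply mul_le_mul_of_nonneg_right _ hom.le
    linarith only [min_le_left κ 1]

end Allard
end
end
end
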