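import Pool.Agent.Lib.MP_5932b0_an.AR.A4
import Pool.Agent.Lib.MP_5932b0_an.AR.B4
import Pool.Agent.Lib.MP_5932b0_an.ST.Fin

section

/-!
# K1: Caccioppoli inequality

`g z = (ζ z)² • N (z - a)`, `N := (1 - (ψ Q)⁻¹ C Q)(1 - Q)`, so `B P * N = M Q P`.
`fderiv g = ζ² N + (2 ζ Dζ).smulRight (N (z-a))`, so
`tr (B fderiv g) = ζ² tr (M Q P) + 2 ζ Dζ (M Q P (z-a))`, and `M Q P (z-a) = M Q P ((1-Q)(z-a))`
(`(1-Q)² = 1-Q`).  `Stress.M_tr`, `Stress.M_norm_le`, `sq_norm_le_tilt`: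
`|2 ζ Dζ (M h)| ≤ 6 ζ ‖Dζ‖ ‖P-Q‖ ‖h‖ ≤ ζ² tilt/4 + 72 ‖Dζ‖² ‖h‖²`; `‖N‖ ≤ 2`.
So `(1/4) ∫ ζ² tilt ≤ 72 ∫ ‖Dζ‖²‖h‖² + 2 ∫ ζ² ‖H‖ ‖h‖`.

`cacc_ball`: `ζ` a fixed `ContDiffBump` (`1` on `closedBall 0 (ρ-1)`, support `ball 0 ρ`), `‖Dζ‖ ≤ c(n,ρ)`.
-/

noncomputable section

open MeasureTheory Metric Set Filter Topology

namespace Allard

/-- The tensor of the test field. -/
def NN {n m : ℕ} {δ : ℝ} (S : Stress n m δ) (Q : Op n) : Op n :=
  (1 - (S.ψ Q)⁻¹ • S.C Q) * (1 - Q)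

theorem NN_apply_perp {n m : ℕ} {δ : ℝ} (S : Stress n m δ) {Q : Op n} (hQ : Pr n m Q) (x : E n) :
    NN S Q x = (1 - (S.ψ Q)⁻¹ • S.C Q) ((1 - Q) x) := rfl

theorem NN_norm_le {n m : ℕ} {δ : ℝ} (S : Stress n m δ) (hδ : 0 ≤ δ) (hδ' : δ ≤ d0 n)
    {Q : Op n} (hQ : Pr n m Q) (x : E n) : ‖NN S Q x‖ ≤ 2 * ‖(1 - Q) x‖ := by
  rw [NN_apply_perp S hQ]
  have hd : δ ≤ 1 / 100 := hδ'.trans d0_le
  have h1 := abs_le.1 (S.bψ Q hQ)
  have hψ : 99 / 100 ≤ S.ψ Q := by linarith [h1.1]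
  have hC := S.bC Q hQ
  have hinv : (S.ψ Q)⁻¹ ≤ 2 := by
    rw [inv_le_comm₀ (by linarith) (by norm_num)]
    linarith
  have hinv0 : 0 ≤ (S.ψ Q)⁻¹ := inv_nonneg.2 (by linarith)
  have hk : ‖(1 : Op n) - (S.ψ Q)⁻¹ • S.C Q‖ ≤ 2 := by
    refine (norm_sub_le _ _).trans ?_
    have h2 : ‖(1 : Op n)‖ ≤ 1 := ContinuousLinearMap.norm_id_le
    have h3 : ‖(S.ψ Q)⁻¹ • S.C Q‖ ≤ 1 := by
      rw [norm_smul, Real.norm_eq_abs, abs_of_nonneg hinv0]
      calc (S.ψ Q)⁻¹ * ‖S.C Q‖ ≤ 2 * (1 / 100) :=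
            mul_le_mul hinv (hC.trans hd) (norm_nonneg _) (by norm_num)
        _ ≤ 1 := by norm_num
    linarith
  exact (ContinuousLinearMap.le_opNorm _ _).trans (mul_le_mul_of_nonneg_right hk (norm_nonneg _))

theorem M_eq_NN {n m : ℕ} {δ : ℝ} (S : Stress n m δ) (P Q : Op n) :
    S.B P * NN S Q = S.M Q P := by
  unfold NN Stress.M
  rw [mul_assoc]

theorem M_apply_perp {n m : ℕ} {δ : ℝ} (S : Stress n m δ) (P : Op n) {Q : Op n}
    (hQ : Pr n m Q) (x : E n) : S.M Q P x = S.M Q P ((1 - Q) x) := by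
  have h : S.M Q P * (1 - Q) = S.M Q P := by
    unfold Stress.M
    rw [mul_assoc, hQ.perp_idem]
  conv_lhs => rw [← h]
  rfl

/-- Pointwise bound. -/
theorem cacc_pt {n m : ℕ} {δ : ℝ} (S : Stress n m δ) (hδ : 0 ≤ δ) (hδ' : δ ≤ d0 n)
    {P Q : Op n} (hP : Pr n m P) (hQ : Pr n m Q) (s : ℝ) (φ : E n →L[ℝ] ℝ) (x : E n) :
    1 / 4 * (s ^ 2 * tilt P Q) - 72 * (‖φ‖ ^ 2 * ‖(1 - Q) x‖ ^ 2) ≤
      tr (S.B P * (s ^ 2 • NN S Q + ((2 * s) • φ).smulRight (NN S Q x))) := by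
  have h1 : tr (S.B P * (s ^ 2 • NN S Q + ((2 * s) • φ).smulRight (NN S Q x))) =
      s ^ 2 * tr (S.M Q P) + 2 * s * φ (S.M Q P ((1 - Q) x)) := by
    have h0 : S.B P * (s ^ 2 • NN S Q) = s ^ 2 • (S.B P * NN S Q) :=
      ContinuousLinearMap.ext fun y => map_smul (S.B P) _ _
    rw [mul_add, tr_add, tr_mul_smulRight, h0, tr_smul, M_eq_NN,
      ← M_apply_perp S P hQ, ← M_eq_NN]
    rfl
  rw [h1]
  have h2 := S.M_tr hδ hδ' hP hQ
  have h3 := S.M_norm_le hδ hδ' hP hQ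
  have h4 := sq_norm_le_tilt hP hQ
  have h5 : |φ (S.M Q P ((1 - Q) x))| ≤ ‖φ‖ * (3 * ‖P - Q‖ * ‖(1 - Q) x‖) := by
    refine (φ.le_opNorm _).trans ?_
    refine mul_le_mul_of_nonneg_left ?_ (norm_nonneg _)
    exact (ContinuousLinearMap.le_opNorm _ _).trans (mul_le_mul_of_nonneg_right h3 (norm_nonneg _))
  have h6 : |2 * s * φ (S.M Q P ((1 - Q) x))| ≤
      2 * |s| * (‖φ‖ * (3 * ‖P - Q‖ * ‖(1 - Q) x‖)) := by
    rw [abs_mul, abs_mul, abs_two]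
    exact mul_le_mul_of_nonneg_left h5 (by positivity)
  have h7 := (abs_le.1 h6).1
  have h8 : s ^ 2 * (1 / 2 * tilt P Q) ≤ s ^ 2 * tr (S.M Q P) :=
    mul_le_mul_of_nonneg_left h2 (sq_nonneg _)
  have h9 : s ^ 2 * ‖P - Q‖ ^ 2 ≤ s ^ 2 * (2 * tilt P Q) :=
    mul_le_mul_of_nonneg_left h4 (sq_nonneg _)
  have h10 : 0 ≤ (|s| * ‖P - Q‖ - 24 * (‖φ‖ * ‖(1 - Q) x‖)) ^ 2 := sq_nonneg _
  have h11 : (|s| * ‖P - Q‖) ^ 2 = s ^ 2 * ‖P - Q‖ ^ 2 := by rw [mul_pow, sq_abs]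
  linarith only [h7, h8, h9, h10, h11]

/-- The test field and its derivative. -/
theorem hasFDerivAt_test {n m : ℕ} {δ : ℝ} (S : Stress n m δ) (Q : Op n) (a : E n)
    {ζ : E n → ℝ} (hζ : ContDiff ℝ 1 ζ) (z : E n) :
    HasFDerivAt (fun z => (ζ z) ^ 2 • NN S Q (z - a))
      ((ζ z) ^ 2 • NN S Q + ((2 * ζ z) • fderiv ℝ ζ z).smulRight (NN S Q (z - a))) z := by
  have h1 : HasFDerivAt ζ (fderiv ℝ ζ z) z :=
    (hζ.differentiable (by norm_num)).differentiableAt.hasFDerivAt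
  have h2 : HasFDerivAt (fun z => (ζ z) ^ 2) ((2 * ζ z) • fderiv ℝ ζ z) z := by
    have := h1.pow 2
    simpa [smul_smul] using this
  have h3 : HasFDerivAt (fun z : E n => NN S Q (z - a)) (NN S Q) z :=
    (NN S Q).hasFDerivAt.comp z ((hasFDerivAt_id z).sub_const a)
  exact h2.smul h3

theorem bdd_of_cc {n : ℕ} {f : E n → ℝ} (hf : Continuous f) (hf' : HasCompactSupport f) :
    ∃ c, ∀ z, |f z| ≤ c :=
  hf.bounded_above_of_compact_support hf'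

theorem measurable_tr_B {n m : ℕ} {δ : ℝ} {S : Stress n m δ} {α Λ : ℝ} {U : Set (E n)}
    (V : Sys S α Λ U) {D : E n → Op n} (hD : Continuous D) :
    Measurable (fun z => tr (S.B (V.P z) * D z)) := by
  have hB : Measurable (fun z => S.B (V.P z)) := by
    unfold Stress.B
    exact ((S.cψ.measurable.comp V.mP).smul V.mP).add (S.cC.measurable.comp V.mP)
  have h2 : Measurable (fun z => S.B (V.P z) * D z) := hB.mul hD.measurable
  exact continuous_tr.measurable.comp h2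

theorem integrable_fv_left {n m : ℕ} {δ : ℝ} {S : Stress n m δ} {α Λ : ℝ} {U : Set (E n)}
    (V : Sys S α Λ U) (hδ : 0 ≤ δ) (hδ' : δ ≤ d0 n) {g : E n → E n} (hg1 : ContDiff ℝ 1 g)
    (hg2 : HasCompactSupport g) :
    Integrable (fun z => tr (S.B (V.P z) * fderiv ℝ g z)) V.μ := by
  have hgD : Continuous (fderiv ℝ g) := hg1.continuous_fderiv (by norm_num)
  obtain ⟨c, hc⟩ := bdd_of_cc hgD.norm
    ((hg2.fderiv ℝ).comp_left (g := fun L : E n →L[ℝ] E n => ‖L‖) (by simp))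
  refine V.integrable_bdd (c := n * (2 * c)) ?_ ?_
  · exact measurable_tr_B V hgD
  · intro z
    refine (abs_tr_le _).trans ?_
    refine mul_le_mul_of_nonneg_left ?_ (Nat.cast_nonneg _)
    refine (norm_mul_le _ _).trans ?_
    have h1 := S.B_norm_le hδ hδ' (V.hP z)
    have h2 : δ ≤ 1 / 100 := hδ'.trans d0_le
    have h3 := hc z
    rw [abs_of_nonneg (norm_nonneg _)] at h3
    exact mul_le_mul (by linarith) h3 (norm_nonneg _) (by norm_num)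

theorem integrable_fv_right {n m : ℕ} {δ : ℝ} {S : Stress n m δ} {α Λ : ℝ} {U : Set (E n)}
    (V : Sys S α Λ U) {g : E n → E n} (hg1 : Continuous g)
    (hg2 : HasCompactSupport g) :
    Integrable (fun z => inner ℝ (V.H z) (g z)) V.μ := by
  obtain ⟨c, hc⟩ := bdd_of_cc hg1.norm
    (hg2.comp_left (g := fun v : E n => ‖v‖) (by simp))
  refine Integrable.mono' (V.iH.norm.const_mul c)
    (V.iH.aestronglyMeasurable.inner hg1.aestronglyMeasurable)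
    (Filter.Eventually.of_forall fun z => ?_)
  rw [Real.norm_eq_abs]
  refine (abs_real_inner_le_norm _ _).trans ?_
  have h3 := hc z
  rw [abs_of_nonneg (norm_nonneg _)] at h3
  rw [mul_comm]
  exact mul_le_mul_of_nonneg_right h3 (norm_nonneg _)

theorem cacc {n m : ℕ} {δ : ℝ} {S : Stress n m δ} {α Λ : ℝ} {U : Set (E n)}
    (V : Sys S α Λ U) (hδ : 0 ≤ δ) (hδ' : δ ≤ d0 n) {Q : Op n} (hQ : Pr n m Q) (a : E n)
    (ζ : E n → ℝ) (hζ : ContDiff ℝ 1 ζ) (hζc : HasCompactSupport ζ) (hζU : tsupport ζ ⊆ U) :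
    ∫ z, (ζ z) ^ 2 * tilt (V.P z) Q ∂V.μ ≤
      300 * ∫ z, ‖fderiv ℝ ζ z‖ ^ 2 * ‖(1 - Q) (z - a)‖ ^ 2 ∂V.μ
      + 300 * ∫ z, (ζ z) ^ 2 * ‖V.H z‖ * ‖(1 - Q) (z - a)‖ ∂V.μ := by
  have hζcont : Continuous ζ := hζ.continuous
  have hDcont : Continuous (fderiv ℝ ζ) := hζ.continuous_fderiv (by norm_num)
  have hh : Continuous (fun z : E n => ‖(1 - Q) (z - a)‖) :=
    ((1 - Q).continuous.comp (continuous_id.sub continuous_const)).norm
  -- the test field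
  set g : E n → E n := fun z => (ζ z) ^ 2 • NN S Q (z - a) with hg
  have hg1 : ContDiff ℝ 1 g :=
    (hζ.pow 2).smul ((NN S Q).contDiff.comp (contDiff_id.sub contDiff_const))
  have hgs : tsupport g ⊆ tsupport ζ := by
    refine closure_mono fun z hz => ?_
    simp only [Function.mem_support, hg] at hz ⊢
    intro h0
    exact hz (by simp [h0])
  have hg2 : HasCompactSupport g := hζc.of_isClosed_subset (isClosed_tsupport g) hgs
  have hfv := V.fv g hg1 hg2 (hgs.trans hζU)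
  have hfd : ∀ z, fderiv ℝ g z =
      (ζ z) ^ 2 • NN S Q + ((2 * ζ z) • fderiv ℝ ζ z).smulRight (NN S Q (z - a)) :=
    fun z => (hasFDerivAt_test S Q a hζ z).fderiv
  -- bounds for continuous compactly supported functions
  have hcb : ∀ f : E n → ℝ, Continuous f → HasCompactSupport f → ∃ c, ∀ z, |f z| ≤ c := by
    intro f hf hf'
    exact hf.bounded_above_of_compact_support hf'
  have i1 : Integrable (fun z => (ζ z) ^ 2 * tilt (V.P z) Q) V.μ := by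
    obtain ⟨c, hc⟩ := hcb (fun z => ζ z) hζcont hζc
    have hc0 : 0 ≤ c := (abs_nonneg _).trans (hc 0)
    refine V.integrable_bdd (c := c ^ 2 * n) ?_ ?_
    · refine (hζcont.measurable.pow_const 2).mul ?_
      exact continuous_tr.measurable.comp
        ((continuous_id.mul continuous_const).measurable.comp V.mP)
    · intro z
      rw [abs_mul, abs_pow]
      refine mul_le_mul (pow_le_pow_left₀ (abs_nonneg _) (hc z) 2) ?_ (abs_nonneg _)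
        (sq_nonneg _)
      refine (abs_tr_le _).trans ?_
      have : ‖V.P z * (1 - Q)‖ ≤ 1 := by
        refine (norm_mul_le _ _).trans ?_
        exact mul_le_one₀ (V.hP z).norm_le (norm_nonneg _) hQ.perp_norm_le
      nlinarith only [this]
  have i2 : Integrable (fun z => ‖fderiv ℝ ζ z‖ ^ 2 * ‖(1 - Q) (z - a)‖ ^ 2) V.μ := by
    refine Continuous.integrable_of_hasCompactSupport ((hDcont.norm.pow 2).mul (hh.pow 2)) ?_
    refine HasCompactSupport.mul_right ?_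
    exact (hζc.fderiv ℝ).comp_left (g := fun L : E n →L[ℝ] ℝ => ‖L‖ ^ 2) (by simp)
  have i3 : Integrable (fun z => (ζ z) ^ 2 * ‖V.H z‖ * ‖(1 - Q) (z - a)‖) V.μ := by
    have hc : Continuous (fun z => (ζ z) ^ 2 * ‖(1 - Q) (z - a)‖) := (hζcont.pow 2).mul hh
    obtain ⟨c, hc'⟩ := hcb _ hc
      (HasCompactSupport.mul_right (hζc.comp_left (g := fun x : ℝ => x ^ 2) (by simp)))
    have := V.iH.norm.bdd_mul (c := c) hc.aestronglyMeasurable
      (Filter.Eventually.of_forall fun z => by simpa using hc' z)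
    refine this.congr (Filter.Eventually.of_forall fun z => ?_)
    simp only
    ring
  have i4 : Integrable (fun z => tr (S.B (V.P z) * fderiv ℝ g z)) V.μ :=
    integrable_fv_left V hδ hδ' hg1 hg2
  have i5 : Integrable (fun z => inner ℝ (V.H z) (g z)) V.μ :=
    integrable_fv_right V hg1.continuous hg2
  have e1 : ∫ z, (1 / 4 * ((ζ z) ^ 2 * tilt (V.P z) Q) -
      72 * (‖fderiv ℝ ζ z‖ ^ 2 * ‖(1 - Q) (z - a)‖ ^ 2)) ∂V.μ ≤
      ∫ z, tr (S.B (V.P z) * fderiv ℝ g z) ∂V.μ := by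
    refine integral_mono ((i1.const_mul _).sub (i2.const_mul _)) i4 fun z => ?_
    simp only
    rw [hfd z]
    exact cacc_pt S hδ hδ' (V.hP z) hQ (ζ z) (fderiv ℝ ζ z) (z - a)
  have e2 : ∫ z, inner ℝ (V.H z) (g z) ∂V.μ ≤
      ∫ z, 2 * ((ζ z) ^ 2 * ‖V.H z‖ * ‖(1 - Q) (z - a)‖) ∂V.μ := by
    refine integral_mono i5 (i3.const_mul _) fun z => ?_
    simp only
    refine (real_inner_le_norm _ _).trans ?_
    simp only [hg]
    rw [norm_smul, Real.norm_eq_abs, abs_of_nonneg (sq_nonneg (ζ z))]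
    have := NN_norm_le S hδ hδ' hQ (z - a)
    have h1 : ‖V.H z‖ * ((ζ z) ^ 2 * ‖NN S Q (z - a)‖) ≤
        ‖V.H z‖ * ((ζ z) ^ 2 * (2 * ‖(1 - Q) (z - a)‖)) :=
      mul_le_mul_of_nonneg_left (mul_le_mul_of_nonneg_left this (sq_nonneg _)) (norm_nonneg _)
    linarith only [h1]
  rw [integral_sub (i1.const_mul _) (i2.const_mul _), integral_const_mul,
    integral_const_mul] at e1
  rw [integral_const_mul] at e2
  have p2 : 0 ≤ ∫ z, ‖fderiv ℝ ζ z‖ ^ 2 * ‖(1 - Q) (z - a)‖ ^ 2 ∂V.μ :=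
    integral_nonneg fun z => by positivity
  have p3 : 0 ≤ ∫ z, (ζ z) ^ 2 * ‖V.H z‖ * ‖(1 - Q) (z - a)‖ ∂V.μ :=
    integral_nonneg fun z => by positivity
  linarith

theorem cacc_ball (n m : ℕ) (ρ : ℝ) (hρ : 2 ≤ ρ) : ∃ C : ℝ, 0 < C ∧
    ∀ {δ : ℝ} {S : Stress n m δ} {α Λ : ℝ} {U : Set (E n)} (V : Sys S α Λ U),
    0 ≤ δ → δ ≤ d0 n → closedBall 0 ρ ⊆ U → ∀ {Q : Op n}, Pr n m Q → ∀ a : E n,
    ∫ z in ball 0 (ρ - 1), ‖V.P z - Q‖ ^ 2 ∂V.μ ≤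
      C * (∫ z in ball 0 ρ, ‖(1 - Q) (z - a)‖ ^ 2 ∂V.μ +
        ∫ z in ball 0 ρ, ‖V.H z‖ * ‖(1 - Q) (z - a)‖ ∂V.μ) := by
  -- the cutoff
  let b : ContDiffBump (0 : E n) := ⟨ρ - 1, ρ - 1 / 2, by linarith, by linarith⟩
  have hb1 : ContDiff ℝ 1 (fun z => b z) := b.contDiff
  have hbc : HasCompactSupport (fun z => b z) := b.hasCompactSupport
  have hbt : tsupport (fun z => b z) ⊆ ball 0 ρ := by
    have : tsupport (fun z => b z) = closedBall 0 (ρ - 1 / 2) := b.tsupport_eq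
    rw [this]
    exact closedBall_subset_ball (by linarith)
  obtain ⟨c, hc⟩ : ∃ c, ∀ z, ‖fderiv ℝ (fun z => b z) z‖ ≤ c :=
    (hb1.continuous_fderiv (by norm_num)).bounded_above_of_compact_support (hbc.fderiv ℝ)
  have hc0 : 0 ≤ c := (norm_nonneg _).trans (hc 0)
  refine ⟨600 * c ^ 2 + 600, by positivity, ?_⟩
  intro δ S α Λ U V hδ hδ' hU Q hQ a
  have key := cacc V hδ hδ' hQ a (fun z => b z) hb1 hbc
    (hbt.trans (ball_subset_closedBall.trans hU))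
  have hh : Continuous (fun z : E n => ‖(1 - Q) (z - a)‖) :=
    ((1 - Q).continuous.comp (continuous_id.sub continuous_const)).norm
  obtain ⟨k, hk⟩ : ∃ k, ∀ z ∈ closedBall (0 : E n) ρ, ‖‖(1 - Q) (z - a)‖‖ ≤ k :=
    (isCompact_closedBall (0 : E n) ρ).exists_bound_of_continuousOn hh.continuousOn
  have j1 : IntegrableOn (fun z => ‖(1 - Q) (z - a)‖ ^ 2) (ball 0 ρ) V.μ :=
    ((hh.pow 2).continuousOn.integrableOn_compact
      (isCompact_closedBall (0 : E n) ρ)).mono_set ball_subset_closedBall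
  have j2 : IntegrableOn (fun z => ‖V.H z‖ * ‖(1 - Q) (z - a)‖) (ball 0 ρ) V.μ := by
    refine Integrable.mono' (V.iH.norm.const_mul k).integrableOn
      ((V.iH.norm.aestronglyMeasurable.mul hh.aestronglyMeasurable).restrict) ?_
    refine (ae_restrict_mem measurableSet_ball).mono fun z hz => ?_
    have := hk z (ball_subset_closedBall hz)
    rw [norm_norm] at this
    rw [norm_mul, norm_norm, norm_norm, mul_comm]
    exact mul_le_mul_of_nonneg_right this (norm_nonneg _)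
  have hz0 : ∀ z, z ∉ ball (0 : E n) ρ → fderiv ℝ (fun z => b z) z = 0 := by
    intro z hz
    by_contra hne
    exact hz (hbt (support_fderiv_subset ℝ hne))
  have hz1 : ∀ z, z ∉ ball (0 : E n) ρ → b z = 0 := by
    intro z hz
    by_contra hne
    exact hz (hbt (subset_tsupport _ hne))
  have f1 : ∫ z, ‖fderiv ℝ (fun z => b z) z‖ ^ 2 * ‖(1 - Q) (z - a)‖ ^ 2 ∂V.μ ≤
      c ^ 2 * ∫ z in ball 0 ρ, ‖(1 - Q) (z - a)‖ ^ 2 ∂V.μ := by
    rw [← integral_indicator measurableSet_ball, ← integral_const_mul]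
    refine integral_mono_of_nonneg (Filter.Eventually.of_forall fun z => by positivity)
      ((j1.integrable_indicator measurableSet_ball).const_mul _)
      (Filter.Eventually.of_forall fun z => ?_)
    simp only
    by_cases hz : z ∈ ball (0 : E n) ρ
    · rw [indicator_of_mem hz]
      exact mul_le_mul_of_nonneg_right (pow_le_pow_left₀ (norm_nonneg _) (hc z) 2)
        (sq_nonneg _)
    · rw [indicator_of_notMem hz, hz0 z hz]
      simp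
  have f2 : ∫ z, (b z) ^ 2 * ‖V.H z‖ * ‖(1 - Q) (z - a)‖ ∂V.μ ≤
      ∫ z in ball 0 ρ, ‖V.H z‖ * ‖(1 - Q) (z - a)‖ ∂V.μ := by
    rw [← integral_indicator measurableSet_ball]
    refine integral_mono_of_nonneg (Filter.Eventually.of_forall fun z => by positivity)
      (j2.integrable_indicator measurableSet_ball)
      (Filter.Eventually.of_forall fun z => ?_)
    simp only
    by_cases hz : z ∈ ball (0 : E n) ρ
    · rw [indicator_of_mem hz, mul_assoc]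
      have h1 : (b z) ^ 2 ≤ 1 := pow_le_one₀ b.nonneg b.le_one
      exact mul_le_of_le_one_left (by positivity) h1
    · rw [indicator_of_notMem hz, hz1 z hz]
      simp
  have i1 : Integrable (fun z => (b z) ^ 2 * tilt (V.P z) Q) V.μ := by
    refine V.integrable_bdd (c := 1 * n) ?_ ?_
    · refine (hb1.continuous.measurable.pow_const 2).mul ?_
      exact continuous_tr.measurable.comp
        ((continuous_id.mul continuous_const).measurable.comp V.mP)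
    · intro z
      rw [abs_mul, abs_pow, abs_of_nonneg b.nonneg]
      refine mul_le_mul (pow_le_one₀ b.nonneg b.le_one) ?_ (abs_nonneg _) zero_le_one
      refine (abs_tr_le _).trans ?_
      have : ‖V.P z * (1 - Q)‖ ≤ 1 := by
        refine (norm_mul_le _ _).trans ?_
        exact mul_le_one₀ (V.hP z).norm_le (norm_nonneg _) hQ.perp_norm_le
      nlinarith only [this]
  have f3 : ∫ z in ball 0 (ρ - 1), ‖V.P z - Q‖ ^ 2 ∂V.μ ≤
      2 * ∫ z, (b z) ^ 2 * tilt (V.P z) Q ∂V.μ := by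
    rw [← integral_indicator measurableSet_ball, ← integral_const_mul]
    refine integral_mono_of_nonneg (Filter.Eventually.of_forall fun z => ?_) (i1.const_mul _)
      (Filter.Eventually.of_forall fun z => ?_)
    · exact indicator_nonneg (fun _ _ => sq_nonneg _) z
    · simp only
      by_cases hz : z ∈ ball (0 : E n) (ρ - 1)
      · rw [indicator_of_mem hz]
        have h1 : b z = 1 := b.one_of_mem_closedBall (ball_subset_closedBall hz)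
        rw [h1]
        have := sq_norm_le_tilt (V.hP z) hQ
        linarith
      · rw [indicator_of_notMem hz]
        have := tilt_nonneg (V.hP z) hQ
        positivity
  have p1 : 0 ≤ ∫ z in ball 0 ρ, ‖(1 - Q) (z - a)‖ ^ 2 ∂V.μ :=
    integral_nonneg fun z => by positivity
  have p2 : 0 ≤ ∫ z in ball 0 ρ, ‖V.H z‖ * ‖(1 - Q) (z - a)‖ ∂V.μ :=
    integral_nonneg fun z => by positivity
  have hcc : 0 ≤ c ^ 2 := sq_nonneg c
  linarith only [key, f1, f2, f3, p1, mul_nonneg hcc p2]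

end Allard
end
end

section

section

/-!
# W1: sup bound, curvature bound and tilt bound

`sup_height`: `h z = (1-Q)(z-a)`, `t = ‖h z₁‖`, `z₁` in the support, `‖z₁‖ < D-1`.  If `t > 1` put `t' = 1`,
otherwise `t' = t`.  On `ball z₁ (t'/2)`, `‖h‖ ≥ t'/2`; it is contained in `ball 0 D`,
`closedBall z₁ (t'/2) ⊆ U`, mass `≥ (31/32) om (t'/2)^m`.  So `ε² ≥ (31/32) om (t'/2)^{m+2}`; for `ε ≤ ε₀`
this excludes `t > 1` and `t > 1/16`.

`curv_ball`: `hb` with `f` = indicator of `ball 0 D`, `r = D`, `D^α ≤ D`.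

`tilt_height`: `cacc_ball` with `ρ = D - 1`; `‖h‖ ≤ 1` on the support in `ball 0 (D-1)`
(`μ`-a.e. point is in the support), `∫_{ball 0 D} ‖H‖ ≤ C Λ ≤ C ε²`.
-/

noncomputable section

open MeasureTheory Metric Set Filter Topology

namespace Allard

theorem sup_height (n m : ℕ) (hm : 1 ≤ m) (D : ℝ) (hD : 2 ≤ D) : ∃ C ε₀ : ℝ, 0 < C ∧ 0 < ε₀ ∧
    ∀ {δ : ℝ} {S : Stress n m δ} {α Λ : ℝ} {U : Set (E n)} (V : Sys S α Λ U),
    closedBall 0 D ⊆ U → V.LD (1 / 32) → ∀ {Q : Op n}, Pr n m Q → ∀ (a : E n) (ε : ℝ),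
    0 ≤ ε → ε ≤ ε₀ → ∫ z in ball 0 D, ‖(1 - Q) (z - a)‖ ^ 2 ∂V.μ ≤ ε ^ 2 →
    ∀ z ∈ V.μ.support, ‖z‖ < D - 1 →
      ‖(1 - Q) (z - a)‖ ^ (m + 2) ≤ C * ε ^ 2 ∧ ‖(1 - Q) (z - a)‖ ≤ 1 / 16 := by
  have hom : 0 < om m := om_pos
  set c₁ : ℝ := 31 / 32 * om m * (1 / 2) ^ (m + 2) with hc₁
  have hc₁p : 0 < c₁ := by positivity
  refine ⟨1 / c₁, Real.sqrt (c₁ * (1 / 16) ^ (m + 2)), by positivity,
    Real.sqrt_pos.2 (by positivity), ?_⟩
  intro δ S α Λ U V hU hLD Q hQ a ε hε hε₀ hint z₁ hz₁ hz₁n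
  have hε2 : ε ^ 2 ≤ c₁ * (1 / 16) ^ (m + 2) := by
    have h1 := pow_le_pow_left₀ hε hε₀ 2
    rwa [Real.sq_sqrt (by positivity)] at h1
  set t : ℝ := ‖(1 - Q) (z₁ - a)‖ with ht
  have ht0 : 0 ≤ t := norm_nonneg _
  rcases eq_or_lt_of_le ht0 with h0 | htp
  · rw [← h0]
    refine ⟨?_, by norm_num⟩
    rw [zero_pow (by omega)]
    positivity
  set s : ℝ := min 1 t with hs
  have hsp : 0 < s := lt_min one_pos htp
  have hs1 : s ≤ 1 := min_le_left _ _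
  have hst : s ≤ t := min_le_right _ _
  have hsub : closedBall z₁ (s / 2) ⊆ ball (0 : E n) D := by
    intro z hz
    rw [mem_closedBall, dist_eq_norm] at hz
    rw [mem_ball, dist_zero_right]
    have h1 : ‖z‖ ≤ ‖z - z₁‖ + ‖z₁‖ := by
      have := norm_add_le (z - z₁) z₁
      simpa using this
    linarith
  have hmass := hLD z₁ hz₁ (s / 2) (by positivity)
    (hsub.trans (ball_subset_closedBall.trans hU))
  have hh : Continuous (fun z : E n => ‖(1 - Q) (z - a)‖) :=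
    ((1 - Q).continuous.comp (continuous_id.sub continuous_const)).norm
  have hI : IntegrableOn (fun z => ‖(1 - Q) (z - a)‖ ^ 2) (ball 0 D) V.μ :=
    ((hh.pow 2).continuousOn.integrableOn_compact
      (isCompact_closedBall (0 : E n) D)).mono_set ball_subset_closedBall
  have hbs : ball z₁ (s / 2) ⊆ ball (0 : E n) D := ball_subset_closedBall.trans hsub
  have hlow : ∀ z ∈ ball z₁ (s / 2), (s / 2) ^ 2 ≤ ‖(1 - Q) (z - a)‖ ^ 2 := by
    intro z hz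
    refine pow_le_pow_left₀ (by positivity) ?_ 2
    rw [mem_ball, dist_eq_norm] at hz
    have e1 : (1 - Q) (z₁ - a) = (1 - Q) (z - a) - (1 - Q) (z - z₁) := by
      rw [← map_sub]
      congr 1
      abel
    have h2 : t ≤ ‖(1 - Q) (z - a)‖ + ‖(1 - Q) (z - z₁)‖ := by
      rw [ht, e1]
      exact norm_sub_le _ _
    have h3 : ‖(1 - Q) (z - z₁)‖ ≤ ‖z - z₁‖ := by
      refine ((1 - Q).le_opNorm _).trans ?_
      exact mul_le_of_le_one_left (norm_nonneg _) hQ.perp_norm_le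
    linarith
  have h4 : (s / 2) ^ 2 * V.μ.real (ball z₁ (s / 2)) ≤ ε ^ 2 := by
    have e2 : (s / 2) ^ 2 * V.μ.real (ball z₁ (s / 2)) =
        ∫ z in ball z₁ (s / 2), (s / 2) ^ 2 ∂V.μ := by
      rw [setIntegral_const, smul_eq_mul, mul_comm]
    rw [e2]
    calc ∫ z in ball z₁ (s / 2), (s / 2) ^ 2 ∂V.μ
        ≤ ∫ z in ball z₁ (s / 2), ‖(1 - Q) (z - a)‖ ^ 2 ∂V.μ :=
          setIntegral_mono_on (integrable_const _).integrableOn (hI.mono_set hbs)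
            measurableSet_ball hlow
      _ ≤ ∫ z in ball 0 D, ‖(1 - Q) (z - a)‖ ^ 2 ∂V.μ :=
          setIntegral_mono_set hI (Eventually.of_forall fun z => sq_nonneg _)
            (HasSubset.Subset.eventuallyLE hbs)
      _ ≤ ε ^ 2 := hint
  have h5 : c₁ * s ^ (m + 2) ≤ ε ^ 2 := by
    refine le_trans ?_ h4
    have h6 : (s / 2) ^ 2 * ((1 - 1 / 32) * om m * (s / 2) ^ m) ≤
        (s / 2) ^ 2 * V.μ.real (ball z₁ (s / 2)) :=
      mul_le_mul_of_nonneg_left hmass (by positivity)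
    refine le_trans (le_of_eq ?_) h6
    rw [hc₁, div_pow, div_pow, div_pow, one_pow, pow_add, pow_add]
    ring
  have hs16 : s ≤ 1 / 16 := by
    have h6 : s ^ (m + 2) ≤ (1 / 16) ^ (m + 2) :=
      le_of_mul_le_mul_left (h5.trans hε2) hc₁p
    exact (pow_le_pow_iff_left₀ hsp.le (by norm_num) (by omega)).1 h6
  have hts : t = s := by
    rcases le_total 1 t with h | h
    · rw [hs, min_eq_left h] at hs16
      norm_num at hs16
    · rw [hs, min_eq_right h]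
  rw [hts]
  refine ⟨?_, hs16⟩
  rw [one_div, ← div_eq_inv_mul, le_div_iff₀ hc₁p, mul_comm]
  exact h5

theorem curv_ball {n m : ℕ} {δ : ℝ} {S : Stress n m δ} {α Λ : ℝ} {U : Set (E n)}
    (V : Sys S α Λ U) (hα : 0 < α) (hα' : α < 1) (hΛ : 0 ≤ Λ) (D : ℝ) (hD : 1 ≤ D)
    (hmass : V.μ.real (ball 0 D) ≤ 2 * om m * D ^ m) :
    ∫ z in ball 0 D, ‖V.H z‖ ∂V.μ ≤ (1 + 2 * om m) * D ^ m * Λ := by
  have hD0 : 0 < D := by linarith
  have hmB : MeasurableSet (ball (0 : E n) D) := measurableSet_ball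
  have key := V.hb ((ball (0 : E n) D).indicator fun _ => (1 : ℝ))
    (measurable_const.indicator hmB) (fun z => indicator_nonneg (fun _ _ => zero_le_one) z)
    (fun z => indicator_le_self' (fun _ _ => zero_le_one) z) D hD0
  have e1 : ∫ z, (ball (0 : E n) D).indicator (fun _ => (1 : ℝ)) z * ‖V.H z‖ ∂V.μ =
      ∫ z in ball 0 D, ‖V.H z‖ ∂V.μ := by
    rw [← integral_indicator hmB]
    refine integral_congr_ae (Eventually.of_forall fun z => ?_)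
    by_cases hz : z ∈ ball (0 : E n) D
    · simp [hz]
    · simp [hz]
  have e2 : ∫ z, (ball (0 : E n) D).indicator (fun _ => (1 : ℝ)) z ∂V.μ =
      V.μ.real (ball 0 D) := by
    rw [integral_indicator hmB, setIntegral_const, smul_eq_mul, mul_one]
  rw [e1, e2] at key
  have hDα : D ^ α ≤ D := by
    calc D ^ α ≤ D ^ (1 : ℝ) := Real.rpow_le_rpow_of_exponent_le hD hα'.le
      _ = D := Real.rpow_one D
  have hDα0 : 0 ≤ D ^ α := Real.rpow_nonneg hD0.le α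
  have hom : 0 < om m := om_pos
  have h1 : Λ * D ^ α * (D ^ m + V.μ.real (ball 0 D)) ≤ Λ * D * (D ^ m + 2 * om m * D ^ m) := by
    refine mul_le_mul (mul_le_mul_of_nonneg_left hDα hΛ) (by linarith) ?_ (by positivity)
    have : 0 ≤ V.μ.real (ball 0 D) := measureReal_nonneg
    positivity
  have h2 : D * ∫ z in ball 0 D, ‖V.H z‖ ∂V.μ ≤ D * ((1 + 2 * om m) * D ^ m * Λ) := by
    refine (key.trans h1).trans (le_of_eq ?_)
    ring
  exact le_of_mul_le_mul_left h2 hD0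

theorem tilt_height (n m : ℕ) (hm : 1 ≤ m) (D : ℝ) (hD : 4 ≤ D) : ∃ C ε₀ : ℝ, 0 < C ∧ 0 < ε₀ ∧
    ∀ {δ : ℝ} {S : Stress n m δ} {α Λ : ℝ} {U : Set (E n)} (V : Sys S α Λ U),
    0 ≤ δ → δ ≤ d0 n → 0 < α → α < 1 → 0 ≤ Λ →
    closedBall 0 D ⊆ U → V.LD (1 / 32) → ∀ {Q : Op n}, Pr n m Q → ∀ (a : E n) (ε : ℝ),
    0 ≤ ε → ε ≤ ε₀ → Λ ≤ ε ^ 2 → V.μ.real (ball 0 D) ≤ 2 * om m * D ^ m →
    ∫ z in ball 0 D, ‖(1 - Q) (z - a)‖ ^ 2 ∂V.μ ≤ ε ^ 2 →
    ∫ z in ball 0 (D - 2), ‖V.P z - Q‖ ^ 2 ∂V.μ ≤ C * ε ^ 2 := by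
  obtain ⟨C₁, hC₁, hcacc⟩ := cacc_ball n m (D - 1) (by linarith)
  obtain ⟨C₂, ε₀, hC₂, hε₀, hsup⟩ := sup_height n m hm D (by linarith)
  have hom : 0 < om m := om_pos
  have hD0 : 0 < D := by linarith
  refine ⟨C₁ * (1 + (1 + 2 * om m) * D ^ m), ε₀, by positivity, hε₀, ?_⟩
  intro δ S α Λ U V hδ hδ' hα hα' hΛ hU hLD Q hQ a ε hε hεε₀ hΛε hmass hint
  have hU' : closedBall (0 : E n) (D - 1) ⊆ U :=
    (closedBall_subset_closedBall (by linarith)).trans hU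
  have h1 := hcacc V hδ hδ' hU' hQ a
  have h2 := hsup V hU hLD hQ a ε hε hεε₀ hint
  have h3 := curv_ball V hα hα' hΛ D (by linarith) hmass
  have hh : Continuous (fun z : E n => ‖(1 - Q) (z - a)‖) :=
    ((1 - Q).continuous.comp (continuous_id.sub continuous_const)).norm
  have hI : IntegrableOn (fun z => ‖(1 - Q) (z - a)‖ ^ 2) (ball 0 D) V.μ :=
    ((hh.pow 2).continuousOn.integrableOn_compact
      (isCompact_closedBall (0 : E n) D)).mono_set ball_subset_closedBall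
  have hbs : ball (0 : E n) (D - 1) ⊆ ball (0 : E n) D := ball_subset_ball (by linarith)
  have h4 : ∫ z in ball 0 (D - 1), ‖(1 - Q) (z - a)‖ ^ 2 ∂V.μ ≤ ε ^ 2 :=
    (setIntegral_mono_set hI (Eventually.of_forall fun z => sq_nonneg _)
      (HasSubset.Subset.eventuallyLE hbs)).trans hint
  have h5 : ∫ z in ball 0 (D - 1), ‖V.H z‖ * ‖(1 - Q) (z - a)‖ ∂V.μ ≤
      ∫ z in ball 0 (D - 1), ‖V.H z‖ ∂V.μ := by
    refine integral_mono_of_nonneg (Eventually.of_forall fun z => by positivity)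
      V.iH.norm.integrableOn ?_
    have hs : ∀ᵐ y ∂V.μ, y ∈ V.μ.support := Measure.support_mem_ae
    filter_upwards [ae_restrict_of_ae hs, ae_restrict_mem measurableSet_ball] with z hz hzb
    rw [mem_ball, dist_zero_right] at hzb
    have h6 := (h2 z hz hzb).2
    exact mul_le_of_le_one_right (norm_nonneg _) (h6.trans (by norm_num))
  have h6 : ∫ z in ball 0 (D - 1), ‖V.H z‖ ∂V.μ ≤ ∫ z in ball 0 D, ‖V.H z‖ ∂V.μ :=
    setIntegral_mono_set V.iH.norm.integrableOn (Eventually.of_forall fun z => norm_nonneg _)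
      (HasSubset.Subset.eventuallyLE hbs)
  have h7 : (1 + 2 * om m) * D ^ m * Λ ≤ (1 + 2 * om m) * D ^ m * ε ^ 2 :=
    mul_le_mul_of_nonneg_left hΛε (by positivity)
  have e1 : D - 1 - 1 = D - 2 := by ring
  rw [e1] at h1
  refine h1.trans ?_
  rw [mul_assoc]
  refine mul_le_mul_of_nonneg_left ?_ hC₁.le
  have h8 : ∫ z in ball 0 (D - 1), ‖V.H z‖ * ‖(1 - Q) (z - a)‖ ∂V.μ ≤
      (1 + 2 * om m) * D ^ m * ε ^ 2 := h5.trans (h6.trans (h3.trans h7))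
  linarith

end Allard
end
end

section

/-!
# W3a: second order scaling estimate, mass

`hsl`: `‖(1-Q) z‖ ≤ 1/8` on the support in `ball 0 4`.  `χ` with `χ = 1` for `‖(1-Q)z‖ ≤ 1/4`, `0` for `≥ 1/2`.
`x z = Q (z - p)`, `t = ‖x‖`, `‖Q p‖ ≤ 2`, `Xi = Xi m η s r`, `r ≤ 1`; fields vanish outside
`{‖Q z‖ ≤ 3, ‖(1-Q) z‖ ≤ 1/2} ⊆ ball 0 4`.  For `μ`-a.e. `z` in `ball 0 4`: `χ = 1` and `fderiv χ = 0`.

(i) `g = χ • Xi(t) • x`:  a.e. `tr (B fderiv g) = Xi tr(BQ) + (N/t²)⟨x, B x⟩`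
`= ψ_Q (m Xi + N) + O(n (|Xi|+N) ‖QBQ - ψ_Q Q‖)`, and `‖QBQ-ψ_Q Q‖ ≤ 2(δ‖P-Q‖+‖P-Q‖²)` (`exp1`).

(ii) `ν' = (1-Q) ν`, `c' = (ψ Q)⁻¹ C Q ν'` (in the range of `Q`), `hν z = ⟨ν', z - a⟩`,
`g = χ • (hν Xi x - Z(t) ν' + Z(t) c')`.  With `pot_fderiv` (`D Z(t) v = Xi ⟨x, v⟩`):
`tr (B fderiv g) = Xi ⟨ν', B x⟩ + hν tr (B D(Xi x)) - Xi ⟨x, B ν'⟩ + Xi ⟨x, B c'⟩` a.e.
`⟨ν', B x⟩ - ⟨x, B ν'⟩ = ⟨ν', C P x⟩ - ⟨x, C P ν'⟩` (`P` symmetric),
`|⟨ν', C P x⟩| ≤ δ‖P-Q‖² ‖x‖` (`exp3`), `⟨x, C P ν'⟩ = ⟨x, C Q ν'⟩ + O(δ‖P-Q‖‖x‖)`,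
`⟨x, B c'⟩ = ψ_Q ⟨x, c'⟩ + O(‖QBQ-ψ_Q Q‖ ‖x‖ ‖c'‖)`, `ψ_Q ⟨x,c'⟩ = ⟨x, C Q ν'⟩`: these cancel.
`hν tr(B D(Xi x)) = hν ψ_Q (K_r-K_s) + O(...)` as in (i), `|hν| ≤ 1` (`hht`).
FV, `‖g‖ ≤ C` and `ψ_Q ≥ 1/2`.
-/

noncomputable section

open MeasureTheory Metric Set Filter Topology

namespace Allard

variable {n m : ℕ} {δ : ℝ} {S : Stress n m δ} {α Λ : ℝ} {U : Set (E n)}

theorem W3a_B_cont (S : Stress n m δ) : Continuous (fun P : Op n => S.B P) := by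
  unfold Stress.B
  exact (S.cψ.smul continuous_id).add S.cC

/-- `z ↦ tr (B (P z) A z)` is measurable for continuous `A`. -/
theorem W3a_meas (V : Sys S α Λ U) {A : E n → Op n} (hA : Continuous A) :
    Measurable (fun z => tr (S.B (V.P z) * A z)) := by
  have hmB : Measurable fun z => S.B (V.P z) := (W3a_B_cont S).measurable.comp V.mP
  have h1 : Continuous fun x : Op n × Op n => tr (x.1 * x.2) :=
    continuous_tr.comp (continuous_fst.mul continuous_snd)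
  exact h1.measurable.comp (hmB.prodMk hA.measurable)

/-- `tr (B A)` is bounded. -/
theorem W3a_tr_le (hδ : 0 ≤ δ) (hδ' : δ ≤ d0 n) {P : Op n} (hP : Pr n m P) (A : Op n) :
    |tr (S.B P * A)| ≤ n * (2 * ‖A‖) := by
  refine (abs_tr_le _).trans (mul_le_mul_of_nonneg_left ?_ (Nat.cast_nonneg n))
  refine (norm_mul_le _ _).trans (mul_le_mul_of_nonneg_right ?_ (norm_nonneg _))
  have h1 := S.B_norm_le hδ hδ' hP
  have h2 : d0 n ≤ 1 / 100 := d0_le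
  linarith

/-- integrability of `tr (B (P z) A z)` for continuous bounded `A`. -/
theorem W3a_int (V : Sys S α Λ U) (hδ : 0 ≤ δ) (hδ' : δ ≤ d0 n) {A : E n → Op n}
    (hA : Continuous A) {c : ℝ} (hc : ∀ z, ‖A z‖ ≤ c) :
    Integrable (fun z => tr (S.B (V.P z) * A z)) V.μ := by
  refine Integrable.of_bound (W3a_meas V hA).aestronglyMeasurable (n * (2 * c))
    (Eventually.of_forall fun z => ?_)
  rw [Real.norm_eq_abs]
  refine (W3a_tr_le hδ hδ' (V.hP z) (A z)).trans ?_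
  gcongr
  exact hc z

/-- points of the support or far away -/
theorem W3a_ae (V : Sys S α Λ U) : ∀ᵐ z ∂V.μ, z ∈ V.μ.support :=
  Measure.support_mem_ae

/-- the test fields vanish outside `closedBall 0 (7/2)` -/
theorem W3a_far {Q : Op n} (hQ : Pr n m Q) {χ : E n → ℝ}
    (hχ0 : ∀ z, 1 / 2 ≤ ‖(1 - Q) z‖ → χ z = 0) {p : E n} (hp : ‖Q p‖ ≤ 2) {r : ℝ} (hr1 : r ≤ 1)
    {z : E n} (hz : 7 / 2 ≤ ‖z‖) : χ z = 0 ∨ r ≤ ‖Q (z - p)‖ := by
  by_contra hcon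
  push Not at hcon
  obtain ⟨h1, h2⟩ := hcon
  have h3 : ‖(1 - Q) z‖ < 1 / 2 := by
    by_contra h
    exact h1 (hχ0 z (not_lt.1 h))
  have h4 : ‖Q z‖ ≤ 3 := by
    have h5 : Q z = Q (z - p) + Q p := by rw [map_sub, sub_add_cancel]
    rw [h5]
    refine (norm_add_le _ _).trans ?_
    linarith only [hp, hr1, h2]
  have h5 := hQ.pyth z
  have h6 : ‖Q z‖ ^ 2 ≤ 3 ^ 2 := pow_le_pow_left₀ (norm_nonneg _) h4 2
  have h7 : ‖(1 - Q) z‖ ^ 2 ≤ (1 / 2) ^ 2 := pow_le_pow_left₀ (norm_nonneg _) h3.le 2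
  have h8 : (7 / 2 : ℝ) ^ 2 ≤ ‖z‖ ^ 2 := pow_le_pow_left₀ (by norm_num) hz 2
  linarith only [h5, h6, h7, h8]

/-- First variation with a field supported in `closedBall 0 (7/2)`. -/
theorem W3a_fv (V : Sys S α Λ U) (hU : closedBall 0 4 ⊆ U) {g : E n → E n}
    (hg : ContDiff ℝ 1 g) (hg0 : ∀ z, 7 / 2 ≤ ‖z‖ → g z = 0) :
    HasCompactSupport g ∧ tsupport g ⊆ closedBall 0 (7 / 2) ∧
    ∫ z, tr (S.B (V.P z) * fderiv ℝ g z) ∂V.μ = ∫ z, inner ℝ (V.H z) (g z) ∂V.μ := by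
  have h1 : Function.support g ⊆ closedBall 0 (7 / 2) := by
    intro z hz
    rw [mem_closedBall, dist_zero_right]
    by_contra h
    exact hz (hg0 z (not_le.1 h).le)
  have h2 : tsupport g ⊆ closedBall 0 (7 / 2) := closure_minimal h1 isClosed_closedBall
  have h3 : HasCompactSupport g := (isCompact_closedBall (0 : E n) (7 / 2)).of_isClosed_subset
    (isClosed_tsupport g) h2
  refine ⟨h3, h2, V.fv g hg h3 (h2.trans ((closedBall_subset_closedBall (by norm_num)).trans hU))⟩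

/-- The mean curvature term. -/
theorem W3a_H (V : Sys S α Λ U) {g : E n → E n}
    (hg0 : ∀ z, 7 / 2 ≤ ‖z‖ → g z = 0) {c : ℝ} (hgc : ∀ z, ‖g z‖ ≤ c) :
    |∫ z, inner ℝ (V.H z) (g z) ∂V.μ| ≤ c * ∫ z in ball 0 4, ‖V.H z‖ ∂V.μ := by
  rw [← Real.norm_eq_abs, ← integral_const_mul, ← integral_indicator measurableSet_ball]
  refine norm_integral_le_of_norm_le ((V.iH.norm.const_mul c).indicator measurableSet_ball)
    (Eventually.of_forall fun z => ?_)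
  by_cases hz : z ∈ ball (0 : E n) 4
  · rw [indicator_of_mem hz]
    refine (norm_inner_le_norm _ _).trans ?_
    rw [mul_comm]
    exact mul_le_mul_of_nonneg_right (hgc z) (norm_nonneg _)
  · rw [indicator_of_notMem hz, hg0 z, inner_zero_right, norm_zero]
    rw [mem_ball, dist_zero_right, not_lt] at hz
    linarith

/-- Comparison of a bounded function with the trace term. -/
theorem W3a_core (V : Sys S α Λ U) (hδ : 0 ≤ δ) (hδ' : δ ≤ d0 n) {Q : Op n} (hQ : Pr n m Q)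
    (hU : closedBall 0 4 ⊆ U) {g : E n → E n} (hg : ContDiff ℝ 1 g)
    (hg0 : ∀ z, 7 / 2 ≤ ‖z‖ → g z = 0) {f : E n → ℝ} (hf : Continuous f) {b : ℝ}
    (hfb : ∀ z, |f z| ≤ b) {c₁ c₂ : ℝ} (hc₁ : 0 ≤ c₁) (hc₂ : 0 ≤ c₂) (hgc : ∀ z, ‖g z‖ ≤ c₁)
    (hfar : ∀ z, 4 ≤ ‖z‖ → f z = 0)
    (hnear : ∀ z ∈ V.μ.support, ‖z‖ < 4 →
      |tr (S.B (V.P z) * fderiv ℝ g z) - S.ψ Q * f z| ≤
        c₂ * (δ * ‖V.P z - Q‖ + ‖V.P z - Q‖ ^ 2)) :
    |∫ z, f z ∂V.μ| ≤ 2 * (c₁ + c₂) * (δ * ∫ z in ball 0 4, ‖V.P z - Q‖ ∂V.μ +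
      ∫ z in ball 0 4, ‖V.P z - Q‖ ^ 2 ∂V.μ + ∫ z in ball 0 4, ‖V.H z‖ ∂V.μ) := by
  obtain ⟨hcs, hts, hfv⟩ := W3a_fv V hU hg hg0
  have hcont : Continuous (fderiv ℝ g) := hg.continuous_fderiv (by norm_num)
  obtain ⟨c, hc⟩ := hcont.bounded_above_of_compact_support (hcs.fderiv ℝ)
  have hi1 : Integrable (fun z => tr (S.B (V.P z) * fderiv ℝ g z)) V.μ :=
    W3a_int V hδ hδ' hcont hc
  have hi2 : Integrable f V.μ :=
    Integrable.of_bound hf.aestronglyMeasurable b (Eventually.of_forall fun z => by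
      rw [Real.norm_eq_abs]
      exact hfb z)
  have hPm : Measurable (fun z => ‖V.P z - Q‖) := (V.mP.sub_const Q).norm
  have hP2 : ∀ z, ‖V.P z - Q‖ ≤ 2 := fun z => (V.hP z).norm_sub_le hQ
  have hi3 : Integrable (fun z => ‖V.P z - Q‖) V.μ :=
    Integrable.of_bound hPm.aestronglyMeasurable 2 (Eventually.of_forall fun z => by
      rw [norm_norm]
      exact hP2 z)
  have hi4 : Integrable (fun z => ‖V.P z - Q‖ ^ 2) V.μ :=
    Integrable.of_bound (hPm.pow_const 2).aestronglyMeasurable (2 ^ 2)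
      (Eventually.of_forall fun z => by
        rw [norm_pow, norm_norm]
        exact pow_le_pow_left₀ (norm_nonneg _) (hP2 z) 2)
  have hbd : |∫ z, (tr (S.B (V.P z) * fderiv ℝ g z) - S.ψ Q * f z) ∂V.μ| ≤
      c₂ * (δ * ∫ z in ball 0 4, ‖V.P z - Q‖ ∂V.μ + ∫ z in ball 0 4, ‖V.P z - Q‖ ^ 2 ∂V.μ) := by
    rw [← integral_const_mul, ← integral_add ((hi3.const_mul δ).integrableOn) hi4.integrableOn,
      ← integral_const_mul, ← integral_indicator measurableSet_ball, ← Real.norm_eq_abs]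
    refine norm_integral_le_of_norm_le ((((hi3.const_mul δ).add hi4).const_mul c₂).indicator
      measurableSet_ball) ?_
    filter_upwards [W3a_ae V] with z hz
    by_cases hz4 : z ∈ ball (0 : E n) 4
    · rw [indicator_of_mem hz4, Real.norm_eq_abs]
      exact hnear z hz (by rwa [mem_ball, dist_zero_right] at hz4)
    · rw [indicator_of_notMem hz4]
      rw [mem_ball, dist_zero_right, not_lt] at hz4
      have h1 : fderiv ℝ g z = 0 := by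
        have h2 : z ∉ tsupport g := by
          intro h
          have h3 := hts h
          rw [mem_closedBall, dist_zero_right] at h3
          linarith
        exact image_eq_zero_of_notMem_tsupport fun h => h2 (tsupport_fderiv_subset ℝ h)
      rw [h1, hfar z hz4, mul_zero, mul_zero, tr_zero', sub_zero, norm_zero]
  rw [integral_sub hi1 (hi2.const_mul _), integral_const_mul, hfv] at hbd
  have hH := W3a_H V hg0 hgc
  obtain ⟨p1, p2, -, -⟩ := S.psi_bd hδ hδ' hQ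
  set I1 := ∫ z in ball 0 4, ‖V.P z - Q‖ ∂V.μ with hI1
  set I2 := ∫ z in ball 0 4, ‖V.P z - Q‖ ^ 2 ∂V.μ with hI2
  set I3 := ∫ z in ball 0 4, ‖V.H z‖ ∂V.μ with hI3
  have hI10 : 0 ≤ I1 := integral_nonneg fun z => norm_nonneg _
  have hI20 : 0 ≤ I2 := integral_nonneg fun z => by positivity
  have hI30 : 0 ≤ I3 := integral_nonneg fun z => norm_nonneg _
  have h5 : S.ψ Q * |∫ z, f z ∂V.μ| ≤ c₁ * I3 + c₂ * (δ * I1 + I2) := by
    have h6 : |S.ψ Q * ∫ z, f z ∂V.μ| ≤ |∫ z, inner ℝ (V.H z) (g z) ∂V.μ| +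
        |∫ z, inner ℝ (V.H z) (g z) ∂V.μ - S.ψ Q * ∫ z, f z ∂V.μ| := by
      have h7 := abs_sub (∫ z, inner ℝ (V.H z) (g z) ∂V.μ)
        (∫ z, inner ℝ (V.H z) (g z) ∂V.μ - S.ψ Q * ∫ z, f z ∂V.μ)
      rw [sub_sub_cancel] at h7
      exact h7
    rw [abs_mul, abs_of_pos (by linarith)] at h6
    linarith
  have h8 : 1 / 2 * |∫ z, f z ∂V.μ| ≤ S.ψ Q * |∫ z, f z ∂V.μ| :=
    mul_le_mul_of_nonneg_right (by linarith) (abs_nonneg _)
  have h9 : 0 ≤ c₁ * (δ * I1 + I2) := by positivity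
  have h10 : 0 ≤ c₂ * I3 := by positivity
  linarith only [h5, h8, h9, h10]

/-- trace term of a radial field -/
theorem W3a_radial (hδ : 0 ≤ δ) (hδ' : δ ≤ d0 n) {P Q : Op n} (hP : Pr n m P) (hQ : Pr n m Q)
    {X N : ℝ} {v : E n} (hN : v = 0 → N = 0) (hQv : Q v = v) :
    |tr (S.B P * (X • Q + (N / ‖v‖ ^ 2) • rk v v)) - S.ψ Q * (m * X + N)| ≤
      (n * |X| + |N|) * (2 * (δ * ‖P - Q‖ + ‖P - Q‖ ^ 2)) := by
  set D : Op n := Q * S.B P * Q - S.ψ Q • Q with hD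
  have hDn : ‖D‖ ≤ 2 * (δ * ‖P - Q‖ + ‖P - Q‖ ^ 2) := S.exp1 hδ hδ' hP hQ
  have h1 : tr (S.B P * Q) = tr D + S.ψ Q * m := by
    have h2 : tr (S.B P * Q) = tr (Q * S.B P * Q) := by
      rw [mul_assoc, tr_mul_comm Q, mul_assoc, hQ.idem]
    rw [h2, hD, tr_sub, tr_smul, hQ.trp]
    ring
  have h2 : inner ℝ v (S.B P v) = inner ℝ v (D v) + S.ψ Q * ‖v‖ ^ 2 := by
    have h3 : D v = Q (S.B P v) - S.ψ Q • v := by
      rw [hD]
      show Q (S.B P (Q v)) - S.ψ Q • Q v = _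
      rw [hQv]
    rw [h3, inner_sub_right, inner_smul_right, real_inner_self_eq_norm_sq, ← hQ.inner_symm, hQv]
    ring
  have h3 : tr (S.B P * (X • Q + (N / ‖v‖ ^ 2) • rk v v)) =
      X * tr (S.B P * Q) + N / ‖v‖ ^ 2 * inner ℝ v (S.B P v) := by
    rw [mul_add, mulSmul, mulSmul, tr_add, tr_smul, tr_smul, tr_mul_rk]
  have hNv : N / ‖v‖ ^ 2 * ‖v‖ ^ 2 = N := by
    by_cases hv : v = 0
    · rw [hN hv, zero_div, zero_mul]
    · have : 0 < ‖v‖ := norm_pos_iff.2 hv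
      field_simp
  have h4 : tr (S.B P * (X • Q + (N / ‖v‖ ^ 2) • rk v v)) - S.ψ Q * (m * X + N) =
      X * tr D + N / ‖v‖ ^ 2 * inner ℝ v (D v) := by
    rw [h3, h1, h2]
    have : N / ‖v‖ ^ 2 * (inner ℝ v (D v) + S.ψ Q * ‖v‖ ^ 2) =
      N / ‖v‖ ^ 2 * inner ℝ v (D v) + S.ψ Q * (N / ‖v‖ ^ 2 * ‖v‖ ^ 2) := by ring
    rw [this, hNv]
    ring
  rw [h4]
  have h5 : |X * tr D| ≤ n * |X| * ‖D‖ := by
    rw [abs_mul]
    calc |X| * |tr D| ≤ |X| * (n * ‖D‖) := mul_le_mul_of_nonneg_left (abs_tr_le _) (abs_nonneg _)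
      _ = _ := by ring
  have h6 : |N / ‖v‖ ^ 2 * inner ℝ v (D v)| ≤ |N| * ‖D‖ := by
    rw [abs_mul, abs_div, abs_of_nonneg (by positivity : (0 : ℝ) ≤ ‖v‖ ^ 2)]
    have h7 : |inner ℝ v (D v)| ≤ ‖v‖ ^ 2 * ‖D‖ := by
      refine (abs_real_inner_le_norm _ _).trans ?_
      calc ‖v‖ * ‖D v‖ ≤ ‖v‖ * (‖D‖ * ‖v‖) :=
            mul_le_mul_of_nonneg_left (D.le_opNorm v) (norm_nonneg _)
        _ = _ := by ring
    by_cases hv : v = 0
    · rw [hN hv, abs_zero, zero_div, zero_mul, zero_mul]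
    · have h8 : 0 < ‖v‖ := norm_pos_iff.2 hv
      calc |N| / ‖v‖ ^ 2 * |inner ℝ v (D v)| ≤ |N| / ‖v‖ ^ 2 * (‖v‖ ^ 2 * ‖D‖) :=
            mul_le_mul_of_nonneg_left h7 (by positivity)
        _ = _ := by field_simp
  calc |X * tr D + N / ‖v‖ ^ 2 * inner ℝ v (D v)| ≤ n * |X| * ‖D‖ + |N| * ‖D‖ :=
        (abs_add_le _ _).trans (add_le_add h5 h6)
    _ = (n * |X| + |N|) * ‖D‖ := by ring
    _ ≤ _ := mul_le_mul_of_nonneg_left hDn (by positivity)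

theorem second_scale_mass (n m : ℕ) (hm : 1 ≤ m) {τ : ℝ} {η : ℝ → ℝ} (h : Ker τ η) (s r : ℝ)
    (hs : 0 < s) (hr : s < r) (hr1 : r ≤ 1) : ∃ C : ℝ, 0 < C ∧
    ∀ {δ : ℝ} {S : Stress n m δ} {α Λ : ℝ} {U : Set (E n)} (V : Sys S α Λ U),
    0 ≤ δ → δ ≤ d0 n → ∀ {Q : Op n}, Pr n m Q → closedBall 0 4 ⊆ U →
    (∀ z ∈ V.μ.support, ‖z‖ < 4 → ‖(1 - Q) z‖ ≤ 1 / 8) →
    ∀ χ : E n → ℝ, ContDiff ℝ 1 χ → (∀ z, 0 ≤ χ z) → (∀ z, χ z ≤ 1) →
    (∀ z, ‖(1 - Q) z‖ ≤ 1 / 4 → χ z = 1) → (∀ z, 1 / 2 ≤ ‖(1 - Q) z‖ → χ z = 0) →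
    ∀ (p : E n), ‖Q p‖ ≤ 2 →
    |∫ z, χ z * (Kr m η r ‖Q (z - p)‖ - Kr m η s ‖Q (z - p)‖) ∂V.μ| ≤
      C * (δ * ∫ z in ball 0 4, ‖V.P z - Q‖ ∂V.μ + ∫ z in ball 0 4, ‖V.P z - Q‖ ^ 2 ∂V.μ
        + ∫ z in ball 0 4, ‖V.H z‖ ∂V.μ) := by
  have hsm : 0 < (s ^ m)⁻¹ := by positivity
  have h2s : 0 < (2 / s) ^ m := by positivity
  refine ⟨2 * ((s ^ m)⁻¹ + (n * (s ^ m)⁻¹ + (2 / s) ^ m) * 2), by positivity, ?_⟩
  intro δ S α Λ U V hδ hδ' Q hQ hU hsl χ hχ hχ0 hχ1 hχ1' hχ0' p hp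
  have hη1 := h.le_one
  have hη0 := h.nonneg
  have hX : ∀ t, 0 ≤ t → |Xi m η s r t| ≤ (s ^ m)⁻¹ := fun t ht => by
    refine (abs_Xi_le h hm hs hr ht).trans ?_
    exact mul_le_of_le_one_right hsm.le (hη1 _)
  have hN : ∀ t, 0 ≤ t → |Nn m η s r t| ≤ (2 / s) ^ m := fun t ht => by
    rw [abs_of_nonneg (Nn_nonneg h hm hs hr ht)]
    refine (Nn_le' h hm hs hr ht).trans ?_
    exact mul_le_of_le_one_right h2s.le (hη1 _)
  have hform : ∀ z, 0 ≤ inner ℝ (Q z) z := fun z => by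
    rw [← hQ.norm_sq]
    positivity
  -- the radial field
  set X₀ : E n → E n := fun z => Xi m η s r (gn Q (z - p)) • Q (z - p) with hX₀
  have hX₀c : ContDiff ℝ 1 X₀ := radial_contDiff h hm hs hr hQ.symm hform Q p
  set g : E n → E n := fun z => χ z • X₀ z with hg
  have hgc : ContDiff ℝ 1 g := hχ.smul hX₀c
  have hfar : ∀ z, 7 / 2 ≤ ‖z‖ → χ z = 0 ∨ r ≤ ‖Q (z - p)‖ := fun z hz =>
    W3a_far hQ hχ0' hp hr1 hz
  have hg0 : ∀ z, 7 / 2 ≤ ‖z‖ → g z = 0 := by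
    intro z hz
    rw [hg]
    simp only
    rcases hfar z hz with h1 | h1
    · rw [h1, zero_smul]
    · rw [hX₀]
      simp only
      rw [gn_proj hQ, Xi_zero h hm hs hr h1, zero_smul, smul_zero]
  have hgb : ∀ z, ‖g z‖ ≤ (s ^ m)⁻¹ := by
    intro z
    rw [hg, hX₀]
    simp only
    rw [norm_smul, norm_smul, gn_proj hQ, Real.norm_eq_abs, Real.norm_eq_abs,
      abs_of_nonneg (hχ0 z)]
    have h1 : |Xi m η s r ‖Q (z - p)‖| * ‖Q (z - p)‖ ≤ (s ^ m)⁻¹ := by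
      rcases le_or_gt r ‖Q (z - p)‖ with h2 | h2
      · rw [Xi_zero h hm hs hr h2, abs_zero, zero_mul]
        exact hsm.le
      · calc |Xi m η s r ‖Q (z - p)‖| * ‖Q (z - p)‖ ≤ (s ^ m)⁻¹ * 1 :=
              mul_le_mul (hX _ (norm_nonneg _)) (by linarith) (norm_nonneg _) hsm.le
          _ = _ := mul_one _
    calc χ z * (|Xi m η s r ‖Q (z - p)‖| * ‖Q (z - p)‖) ≤ 1 * (s ^ m)⁻¹ :=
          mul_le_mul (hχ1 z) h1 (by positivity) zero_le_one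
      _ = _ := one_mul _
  -- the scalar function
  have hfc : Continuous fun z => χ z * (Kr m η r ‖Q (z - p)‖ - Kr m η s ‖Q (z - p)‖) := by
    have h1 : Continuous fun z : E n => ‖Q (z - p)‖ :=
      (Q.continuous.comp (continuous_id.sub continuous_const)).norm
    exact hχ.continuous.mul (((continuous_Kr h r).comp h1).sub ((continuous_Kr h s).comp h1))
  have hr0 : 0 < r := hs.trans hr
  have hfb : ∀ z, |χ z * (Kr m η r ‖Q (z - p)‖ - Kr m η s ‖Q (z - p)‖)| ≤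
      (r ^ m)⁻¹ + (s ^ m)⁻¹ := by
    intro z
    rw [abs_mul, abs_of_nonneg (hχ0 z)]
    have h1 : |Kr m η r ‖Q (z - p)‖ - Kr m η s ‖Q (z - p)‖| ≤ (r ^ m)⁻¹ + (s ^ m)⁻¹ := by
      refine (abs_sub _ _).trans (add_le_add ?_ ?_)
      · rw [abs_of_nonneg (Kr_nonneg h hr0 _)]
        exact Kr_le h hr0 _
      · rw [abs_of_nonneg (Kr_nonneg h hs _)]
        exact Kr_le h hs _
    calc χ z * |Kr m η r ‖Q (z - p)‖ - Kr m η s ‖Q (z - p)‖| ≤
        1 * ((r ^ m)⁻¹ + (s ^ m)⁻¹) := mul_le_mul (hχ1 z) h1 (abs_nonneg _) zero_le_one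
      _ = _ := one_mul _
  refine W3a_core V hδ hδ' hQ hU hgc hg0 hfc hfb hsm.le
    (c₂ := (n * (s ^ m)⁻¹ + (2 / s) ^ m) * 2) (by positivity) hgb ?_ ?_
  · intro z hz
    rcases hfar z (by linarith only [hz]) with h1 | h1
    · simp only [h1, zero_mul]
    · rw [Kr_eq_zero h hr0 h1, Kr_eq_zero h hs (hr.le.trans h1), sub_zero, mul_zero]
  · intro z hz hz4
    have hsl' := hsl z hz hz4
    have hχz : ∀ᶠ w in 𝓝 z, χ w = 1 := by
      have h1 : Continuous fun w : E n => ‖(1 - Q) w‖ := (1 - Q).continuous.norm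
      have h2 : ∀ᶠ w in 𝓝 z, ‖(1 - Q) w‖ < 1 / 4 :=
        h1.continuousAt.eventually (gt_mem_nhds (by linarith only [hsl']))
      exact h2.mono fun w hw => hχ1' w hw.le
    have hge : g =ᶠ[𝓝 z] X₀ := by
      refine hχz.mono fun w hw => ?_
      rw [hg]
      simp only
      rw [hw, one_smul]
    have hfd : fderiv ℝ g z = Xi m η s r ‖Q (z - p)‖ • Q +
        (Nn m η s r ‖Q (z - p)‖ / ‖Q (z - p)‖ ^ 2) • rk (Q (z - p)) (Q (z - p)) := by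
      rw [hge.fderiv_eq, hX₀, radial_fderiv h hm hs hr hQ.symm hform Q p z, gn_proj hQ]
    have hχz1 : χ z = 1 := hχz.self_of_nhds
    rw [hfd, hχz1, one_mul, ← Xi_rel h hm hs hr (norm_nonneg _)]
    have h3 := W3a_radial (S := S) hδ hδ' (V.hP z) hQ (X := Xi m η s r ‖Q (z - p)‖)
      (N := Nn m η s r ‖Q (z - p)‖) (v := Q (z - p))
      (fun hv => by
        rw [hv, norm_zero]
        exact Nn_small h hs hr (by positivity)) (hQ.apply_apply _)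
    refine h3.trans ?_
    have h4 : (n * |Xi m η s r ‖Q (z - p)‖| + |Nn m η s r ‖Q (z - p)‖|) ≤
        n * (s ^ m)⁻¹ + (2 / s) ^ m :=
      add_le_add (mul_le_mul_of_nonneg_left (hX _ (norm_nonneg _)) (Nat.cast_nonneg n))
        (hN _ (norm_nonneg _))
    calc _ ≤ (n * (s ^ m)⁻¹ + (2 / s) ^ m) * (2 * (δ * ‖V.P z - Q‖ + ‖V.P z - Q‖ ^ 2)) :=
          mul_le_mul_of_nonneg_right h4 (by positivity)
      _ = _ := by ring

end Allard
end
end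

section

/-!
# W3b: second order scaling estimate, height

`hsl`: `‖(1-Q) z‖ ≤ 1/8` on the support in `ball 0 4`.  `χ` with `χ = 1` for `‖(1-Q)z‖ ≤ 1/4`, `0` for `≥ 1/2`.
`x z = Q (z - p)`, `t = ‖x‖`, `‖Q p‖ ≤ 2`, `Xi = Xi m η s r`, `r ≤ 1`; fields vanish outside
`{‖Q z‖ ≤ 3, ‖(1-Q) z‖ ≤ 1/2} ⊆ ball 0 4`.  For `μ`-a.e. `z` in `ball 0 4`: `χ = 1` and `fderiv χ = 0`.

(i) `g = χ • Xi(t) • x`:  a.e. `tr (B fderiv g) = Xi tr(BQ) + (N/t²)⟨x, B x⟩`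
`= ψ_Q (m Xi + N) + O(n (|Xi|+N) ‖QBQ - ψ_Q Q‖)`, and `‖QBQ-ψ_Q Q‖ ≤ 2(δ‖P-Q‖+‖P-Q‖²)` (`exp1`).

(ii) `ν' = (1-Q) ν`, `c' = (ψ Q)⁻¹ C Q ν'` (in the range of `Q`), `hν z = ⟨ν', z - a⟩`,
`g = χ • (hν Xi x - Z(t) ν' + Z(t) c')`.  With `pot_fderiv` (`D Z(t) v = Xi ⟨x, v⟩`):
`tr (B fderiv g) = Xi ⟨ν', B x⟩ + hν tr (B D(Xi x)) - Xi ⟨x, B ν'⟩ + Xi ⟨x, B c'⟩` a.e.
`⟨ν', B x⟩ - ⟨x, B ν'⟩ = ⟨ν', C P x⟩ - ⟨x, C P ν'⟩` (`P` symmetric),
`|⟨ν', C P x⟩| ≤ δ‖P-Q‖² ‖x‖` (`exp3`), `⟨x, C P ν'⟩ = ⟨x, C Q ν'⟩ + O(δ‖P-Q‖‖x‖)`,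
`⟨x, B c'⟩ = ψ_Q ⟨x, c'⟩ + O(‖QBQ-ψ_Q Q‖ ‖x‖ ‖c'‖)`, `ψ_Q ⟨x,c'⟩ = ⟨x, C Q ν'⟩`: these cancel.
`hν tr(B D(Xi x)) = hν ψ_Q (K_r-K_s) + O(...)` as in (i), `|hν| ≤ 1` (`hht`).
FV, `‖g‖ ≤ C` and `ψ_Q ≥ 1/2`.
-/

noncomputable section

open MeasureTheory Metric Set Filter Topology

namespace Allard

section Alg

variable {n m : ℕ} {δ : ℝ} {S : Stress n m δ} {P Q : Op n}

private theorem w3b_perp_inner (hQ : Pr n m Q) (x y : E n) :
    inner ℝ ((1 - Q) x) y = inner ℝ x ((1 - Q) y) := by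
  conv_lhs => rw [← hQ.perp_symm]
  exact inner_tp (1 - Q) x y

/-- The form of `Q B Q - ψ_Q Q`. -/
private theorem w3b_form (hδ : 0 ≤ δ) (hδ' : δ ≤ d0 n) (hP : Pr n m P) (hQ : Pr n m Q)
    {u w : E n} (hu : Q u = u) (hw : Q w = w) :
    |inner ℝ u (S.B P w) - S.ψ Q * inner ℝ u w| ≤
      2 * (δ * ‖P - Q‖ + ‖P - Q‖ ^ 2) * ‖u‖ * ‖w‖ := by
  have h1 := S.exp1 hδ hδ' hP hQ
  have e : inner ℝ u (S.B P w) - S.ψ Q * inner ℝ u w =
      inner ℝ u ((Q * S.B P * Q - S.ψ Q • Q) w) := by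
    have e1 : (Q * S.B P * Q - S.ψ Q • Q) w = Q (S.B P w) - S.ψ Q • w := by
      have : (Q * S.B P * Q - S.ψ Q • Q) w = Q (S.B P (Q w)) - S.ψ Q • Q w := rfl
      rw [this, hw]
    rw [e1, inner_sub_right, ← hQ.inner_symm, hu, real_inner_smul_right]
  rw [e]
  calc |inner ℝ u ((Q * S.B P * Q - S.ψ Q • Q) w)|
      ≤ ‖u‖ * ‖(Q * S.B P * Q - S.ψ Q • Q) w‖ := abs_real_inner_le_norm _ _
    _ ≤ ‖u‖ * (2 * (δ * ‖P - Q‖ + ‖P - Q‖ ^ 2) * ‖w‖) := by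
        apply mul_le_mul_of_nonneg_left _ (norm_nonneg _)
        exact (ContinuousLinearMap.le_opNorm _ _).trans
          (mul_le_mul_of_nonneg_right h1 (norm_nonneg _))
    _ = _ := by ring

private theorem w3b_tr (hδ : 0 ≤ δ) (hδ' : δ ≤ d0 n) (hP : Pr n m P) (hQ : Pr n m Q) :
    |tr (S.B P * Q) - m * S.ψ Q| ≤ n * (2 * (δ * ‖P - Q‖ + ‖P - Q‖ ^ 2)) := by
  have h1 := S.exp1 hδ hδ' hP hQ
  have e : tr (S.B P * Q) - m * S.ψ Q = tr (Q * S.B P * Q - S.ψ Q • Q) := by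
    rw [tr_sub, tr_smul, hQ.trp, tr_mul_comm (Q * S.B P) Q, ← mul_assoc, hQ.idem,
      tr_mul_comm Q (S.B P)]
    ring
  rw [e]
  exact (abs_tr_le _).trans (mul_le_mul_of_nonneg_left h1 (Nat.cast_nonneg n))

/-- The vertical part. -/
private theorem w3b_vert (hδ : 0 ≤ δ) (hδ' : δ ≤ d0 n) (hP : Pr n m P) (hQ : Pr n m Q)
    {x ν : E n} (hx : Q x = x) (hν : ‖ν‖ ≤ 1) :
    |inner ℝ ((1 - Q) ν) (S.B P x) +
      inner ℝ x (S.B P ((S.ψ Q)⁻¹ • S.C Q ((1 - Q) ν) - (1 - Q) ν))| ≤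
      3 * (δ * ‖P - Q‖ + ‖P - Q‖ ^ 2) * ‖x‖ := by
  obtain ⟨q1, q2, q3, q4⟩ := S.psi_bd hδ hδ' hQ
  obtain ⟨i1, i2⟩ := S.psi_inv_bd hδ hδ' hQ
  set D : ℝ := ‖P - Q‖ with hD
  have hD0 : 0 ≤ D := norm_nonneg _
  set ν' : E n := (1 - Q) ν with hν'
  set c' : E n := (S.ψ Q)⁻¹ • S.C Q ν' with hc'
  have hν'1 : ‖ν'‖ ≤ 1 := (hQ.perp_norm_apply_le ν).trans hν
  have hCn : ‖S.C Q ν'‖ ≤ δ := by
    refine (ContinuousLinearMap.le_opNorm _ _).trans ?_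
    calc ‖S.C Q‖ * ‖ν'‖ ≤ δ * 1 := mul_le_mul (S.bC Q hQ) hν'1 (norm_nonneg _) hδ
      _ = δ := mul_one δ
  have hc'n : ‖c'‖ ≤ 1 / 2 := by
    rw [hc', norm_smul, Real.norm_of_nonneg i1.le]
    calc (S.ψ Q)⁻¹ * ‖S.C Q ν'‖ ≤ 100 / 99 * (1 / 100) :=
          mul_le_mul i2 (hCn.trans q4) (norm_nonneg _) (by norm_num)
      _ ≤ 1 / 2 := by norm_num
  have hQC : Q (S.C Q ν') = S.C Q ν' := by
    have := congrArg (fun A : Op n => A ν') (S.self_C hQ)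
    simpa using this
  have hQc : Q c' = c' := by
    rw [hc', map_smul, hQC]
  have hψc : S.ψ Q * inner ℝ x c' = inner ℝ x (S.C Q ν') := by
    rw [hc', real_inner_smul_right, ← mul_assoc, mul_inv_cancel₀ (by linarith only [q1]), one_mul]
  have hB : ∀ v : E n, S.B P v = S.ψ P • P v + S.C P v := fun v => rfl
  have e : inner ℝ ν' (S.B P x) + inner ℝ x (S.B P (c' - ν')) =
      inner ℝ ν (((1 - Q) * S.C P * Q) x) - inner ℝ x ((S.C P - S.C Q) ν') +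
        (inner ℝ x (S.B P c') - S.ψ Q * inner ℝ x c') := by
    have e1 : inner ℝ ν (((1 - Q) * S.C P * Q) x) = inner ℝ ν' (S.C P x) := by
      have : ((1 - Q) * S.C P * Q) x = (1 - Q) (S.C P (Q x)) := rfl
      rw [this, hx, hν', w3b_perp_inner hQ]
    have e2 : inner ℝ x ((S.C P - S.C Q) ν') = inner ℝ x (S.C P ν') - inner ℝ x (S.C Q ν') := by
      rw [sub_apply, inner_sub_right]
    have e3 : inner ℝ ν' (P x) = inner ℝ x (P ν') := by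
      rw [← hP.inner_symm, real_inner_comm]
    rw [e1, e2, hψc, map_sub, inner_sub_right, hB x, hB ν', inner_add_right, inner_add_right,
      real_inner_smul_right, real_inner_smul_right, e3]
    ring
  have b1 : |inner ℝ ν (((1 - Q) * S.C P * Q) x)| ≤ δ * D ^ 2 * ‖x‖ := by
    calc |inner ℝ ν (((1 - Q) * S.C P * Q) x)| ≤ ‖ν‖ * ‖((1 - Q) * S.C P * Q) x‖ :=
          abs_real_inner_le_norm _ _
      _ ≤ 1 * (δ * D ^ 2 * ‖x‖) := by
          apply mul_le_mul hν _ (norm_nonneg _) zero_le_one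
          exact (ContinuousLinearMap.le_opNorm _ _).trans
            (mul_le_mul_of_nonneg_right (S.exp3 hδ hδ' hP hQ) (norm_nonneg _))
      _ = _ := one_mul _
  have b2 : |inner ℝ x ((S.C P - S.C Q) ν')| ≤ δ * D * ‖x‖ := by
    calc |inner ℝ x ((S.C P - S.C Q) ν')| ≤ ‖x‖ * ‖(S.C P - S.C Q) ν'‖ :=
          abs_real_inner_le_norm _ _
      _ ≤ ‖x‖ * (δ * D * 1) := by
          apply mul_le_mul_of_nonneg_left _ (norm_nonneg _)
          refine (ContinuousLinearMap.le_opNorm _ _).trans ?_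
          exact mul_le_mul (S.lC P Q hP hQ) hν'1 (norm_nonneg _) (by positivity)
      _ = _ := by ring
  have b3 := w3b_form (S := S) hδ hδ' hP hQ hx hQc
  rw [← hD] at b3
  have hΔ : 0 ≤ δ * D + D ^ 2 := by positivity
  have b4 : 2 * (δ * D + D ^ 2) * ‖x‖ * ‖c'‖ ≤ (δ * D + D ^ 2) * ‖x‖ := by
    have : 2 * (δ * D + D ^ 2) * ‖x‖ * ‖c'‖ ≤ 2 * (δ * D + D ^ 2) * ‖x‖ * (1 / 2) :=
      mul_le_mul_of_nonneg_left hc'n (by positivity)
    linarith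
  have b5 : δ * D ^ 2 * ‖x‖ ≤ (δ * D + D ^ 2) * ‖x‖ := by
    apply mul_le_mul_of_nonneg_right _ (norm_nonneg _)
    have : δ * D ^ 2 ≤ 1 * D ^ 2 := mul_le_mul_of_nonneg_right (by linarith only [q4]) (sq_nonneg _)
    have : 0 ≤ δ * D := by positivity
    linarith
  have b6 : δ * D * ‖x‖ ≤ (δ * D + D ^ 2) * ‖x‖ := by
    apply mul_le_mul_of_nonneg_right _ (norm_nonneg _)
    have := sq_nonneg D
    linarith only [this]
  rw [e]
  have t1 := abs_add_le (inner ℝ ν (((1 - Q) * S.C P * Q) x) - inner ℝ x ((S.C P - S.C Q) ν'))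
    (inner ℝ x (S.B P c') - S.ψ Q * inner ℝ x c')
  have t2 := abs_sub (inner ℝ ν (((1 - Q) * S.C P * Q) x)) (inner ℝ x ((S.C P - S.C Q) ν'))
  have t3 : 3 * (δ * D + D ^ 2) * ‖x‖ = (δ * D + D ^ 2) * ‖x‖ + (δ * D + D ^ 2) * ‖x‖ +
    (δ * D + D ^ 2) * ‖x‖ := by ring
  rw [t3]
  linarith only [b1, b2, b3, b4, b5, b6, t1, t2]

private theorem w3b_alg (hδ : 0 ≤ δ) (hδ' : δ ≤ d0 n) (hP : Pr n m P) (hQ : Pr n m Q)
    {x ν : E n} (hx : Q x = x) (hν : ‖ν‖ ≤ 1) {X N b K₁ K₂ : ℝ} (hK₁ : 0 ≤ K₁)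
    (hX : |X| ≤ K₁) (hXt : |X| * ‖x‖ ≤ K₁) (hN : |N| ≤ K₂) (hN0 : ‖x‖ = 0 → N = 0)
    (hb : |b| ≤ 1) :
    |b * (X * tr (S.B P * Q) + N / ‖x‖ ^ 2 * inner ℝ x (S.B P x)) +
      X * inner ℝ ((1 - Q) ν) (S.B P x) +
      X * inner ℝ x (S.B P ((S.ψ Q)⁻¹ • S.C Q ((1 - Q) ν) - (1 - Q) ν)) -
      S.ψ Q * (b * (m * X + N))| ≤
      (2 * n * K₁ + 2 * K₂ + 3 * K₁) * (δ * ‖P - Q‖ + ‖P - Q‖ ^ 2) := by
  have h1 := w3b_tr (S := S) hδ hδ' hP hQ
  have h2 := w3b_form (S := S) hδ hδ' hP hQ hx hx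
  have h3 := w3b_vert (S := S) hδ hδ' hP hQ hx hν
  have hΔ : 0 ≤ δ * ‖P - Q‖ + ‖P - Q‖ ^ 2 := by positivity
  set Δ : ℝ := δ * ‖P - Q‖ + ‖P - Q‖ ^ 2 with hΔdef
  have hn : (0 : ℝ) ≤ n := Nat.cast_nonneg n
  rw [real_inner_self_eq_norm_sq] at h2
  have a1 : |b * X * (tr (S.B P * Q) - m * S.ψ Q)| ≤ 2 * n * K₁ * Δ := by
    rw [abs_mul, abs_mul]
    calc |b| * |X| * |tr (S.B P * Q) - m * S.ψ Q| ≤ 1 * K₁ * (n * (2 * Δ)) := by
          apply mul_le_mul (mul_le_mul hb hX (abs_nonneg _) zero_le_one) h1 (abs_nonneg _)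
          positivity
      _ = _ := by ring
  have a2 : |b * (N / ‖x‖ ^ 2 * inner ℝ x (S.B P x) - S.ψ Q * N)| ≤ 2 * K₂ * Δ := by
    rw [abs_mul]
    have a3 : |N / ‖x‖ ^ 2 * inner ℝ x (S.B P x) - S.ψ Q * N| ≤ 2 * K₂ * Δ := by
      rcases eq_or_ne ‖x‖ 0 with h0 | h0
      · rw [hN0 h0]
        simp only [zero_div, zero_mul, mul_zero, sub_zero, abs_zero]
        have : 0 ≤ K₂ := (abs_nonneg N).trans hN
        positivity
      · have h0' : 0 < ‖x‖ ^ 2 := by positivity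
        have e : N / ‖x‖ ^ 2 * inner ℝ x (S.B P x) - S.ψ Q * N =
            N / ‖x‖ ^ 2 * (inner ℝ x (S.B P x) - S.ψ Q * ‖x‖ ^ 2) := by
          field_simp
        rw [e, abs_mul, abs_div, abs_of_pos h0']
        calc |N| / ‖x‖ ^ 2 * |inner ℝ x (S.B P x) - S.ψ Q * ‖x‖ ^ 2|
            ≤ |N| / ‖x‖ ^ 2 * (2 * Δ * ‖x‖ * ‖x‖) :=
              mul_le_mul_of_nonneg_left h2 (by positivity)
          _ = 2 * |N| * Δ := by field_simp
          _ ≤ 2 * K₂ * Δ := by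
              apply mul_le_mul_of_nonneg_right _ hΔ
              linarith
    calc |b| * |N / ‖x‖ ^ 2 * inner ℝ x (S.B P x) - S.ψ Q * N| ≤
          1 * |N / ‖x‖ ^ 2 * inner ℝ x (S.B P x) - S.ψ Q * N| :=
          mul_le_mul_of_nonneg_right hb (abs_nonneg _)
      _ ≤ 2 * K₂ * Δ := by rw [one_mul]; exact a3
  have a4 : |X * (inner ℝ ((1 - Q) ν) (S.B P x) +
      inner ℝ x (S.B P ((S.ψ Q)⁻¹ • S.C Q ((1 - Q) ν) - (1 - Q) ν)))| ≤ 3 * K₁ * Δ := by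
    rw [abs_mul]
    calc |X| * |inner ℝ ((1 - Q) ν) (S.B P x) +
          inner ℝ x (S.B P ((S.ψ Q)⁻¹ • S.C Q ((1 - Q) ν) - (1 - Q) ν))|
        ≤ |X| * (3 * Δ * ‖x‖) := mul_le_mul_of_nonneg_left h3 (abs_nonneg _)
      _ = |X| * ‖x‖ * (3 * Δ) := by ring
      _ ≤ K₁ * (3 * Δ) := mul_le_mul_of_nonneg_right hXt (by positivity)
      _ = _ := by ring
  have e : b * (X * tr (S.B P * Q) + N / ‖x‖ ^ 2 * inner ℝ x (S.B P x)) +
      X * inner ℝ ((1 - Q) ν) (S.B P x) +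
      X * inner ℝ x (S.B P ((S.ψ Q)⁻¹ • S.C Q ((1 - Q) ν) - (1 - Q) ν)) -
      S.ψ Q * (b * (m * X + N)) =
      b * X * (tr (S.B P * Q) - m * S.ψ Q) +
      b * (N / ‖x‖ ^ 2 * inner ℝ x (S.B P x) - S.ψ Q * N) +
      X * (inner ℝ ((1 - Q) ν) (S.B P x) +
        inner ℝ x (S.B P ((S.ψ Q)⁻¹ • S.C Q ((1 - Q) ν) - (1 - Q) ν))) := by ring
  rw [e]
  have e2 : (2 * n * K₁ + 2 * K₂ + 3 * K₁) * Δ = 2 * n * K₁ * Δ + 2 * K₂ * Δ + 3 * K₁ * Δ := by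
    ring
  rw [e2]
  exact (abs_add_le _ _).trans (add_le_add ((abs_add_le _ _).trans (add_le_add a1 a2)) a4)

end Alg

/-- Comparison of an integral with the first variation. -/
private theorem w3b_fv {n m : ℕ} {δ : ℝ} {S : Stress n m δ} {α Λ : ℝ} {U : Set (E n)}
    (V : Sys S α Λ U) {g : E n → E n} (hg : ContDiff ℝ 1 g) (hcs : HasCompactSupport g)
    (hU : tsupport g ⊆ U) {f e k : E n → ℝ} (hf : Integrable f V.μ) (he : Integrable e V.μ)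
    (hk : Integrable k V.μ) (c : ℝ)
    (h1 : ∀ᵐ z ∂V.μ, |tr (S.B (V.P z) * fderiv ℝ g z) - c * f z| ≤ e z)
    (h2 : ∀ᵐ z ∂V.μ, |inner ℝ (V.H z) (g z)| ≤ k z) :
    |c * ∫ z, f z ∂V.μ| ≤ ∫ z, e z ∂V.μ + ∫ z, k z ∂V.μ := by
  have hfv := V.fv g hg hcs hU
  have hdc : Continuous (fun z => fderiv ℝ g z) := hg.continuous_fderiv (by norm_num)
  have hBc : Continuous (fun A : Op n => S.B A) := by
    unfold Stress.B
    exact (S.cψ.smul continuous_id).add S.cC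
  have hmB : Measurable fun z => S.B (V.P z) := hBc.measurable.comp V.mP
  have hmeas : Measurable (fun z => tr (S.B (V.P z) * fderiv ℝ g z)) := by
    have hT : Continuous (fun x : Op n × Op n => tr (x.1 * x.2)) :=
      continuous_tr.comp (continuous_fst.mul continuous_snd)
    exact hT.measurable.comp (hmB.prodMk hdc.measurable)
  obtain ⟨c₁, hc₁⟩ : ∃ c₁ : ℝ, ∀ z, ‖fderiv ℝ g z‖ ≤ c₁ :=
    (hcs.fderiv (𝕜 := ℝ)).exists_bound_of_continuous hdc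
  have hc₁0 : 0 ≤ c₁ := (norm_nonneg _).trans (hc₁ 0)
  have hI : Integrable (fun z => tr (S.B (V.P z) * fderiv ℝ g z)) V.μ := by
    apply V.integrable_bdd hmeas (c := n * ((1 + 2 * |δ|) * c₁))
    intro z
    refine (abs_tr_le _).trans ?_
    apply mul_le_mul_of_nonneg_left _ (Nat.cast_nonneg n)
    refine (norm_mul_le _ _).trans ?_
    apply mul_le_mul _ (hc₁ z) (norm_nonneg _) (by positivity)
    have hP := V.hP z
    have b1 := S.bψ _ hP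
    have b2 := S.bC _ hP
    have b3 := abs_le.1 b1
    have b4 : |S.ψ (V.P z)| ≤ 1 + |δ| := by
      have := le_abs_self δ
      rw [abs_le]
      constructor <;> linarith
    unfold Stress.B
    calc ‖S.ψ (V.P z) • V.P z + S.C (V.P z)‖ ≤ ‖S.ψ (V.P z) • V.P z‖ + ‖S.C (V.P z)‖ :=
          norm_add_le _ _
      _ ≤ (1 + |δ|) * 1 + |δ| := by
          apply add_le_add
          · rw [norm_smul, Real.norm_eq_abs]
            exact mul_le_mul b4 hP.norm_le (norm_nonneg _) (by positivity)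
          · exact b2.trans (le_abs_self δ)
      _ = 1 + 2 * |δ| := by ring
  have hcf : Integrable (fun z => c * f z) V.μ := hf.const_mul c
  have hsub : Integrable (fun z => tr (S.B (V.P z) * fderiv ℝ g z) - c * f z) V.μ := hI.sub hcf
  have e1 : c * ∫ z, f z ∂V.μ = ∫ z, inner ℝ (V.H z) (g z) ∂V.μ -
      ∫ z, (tr (S.B (V.P z) * fderiv ℝ g z) - c * f z) ∂V.μ := by
    rw [← hfv, integral_sub hI hcf, integral_const_mul]
    ring
  rw [e1]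
  have b1 : |∫ z, inner ℝ (V.H z) (g z) ∂V.μ| ≤ ∫ z, k z ∂V.μ := by
    rw [← Real.norm_eq_abs]
    refine norm_integral_le_of_norm_le hk ?_
    filter_upwards [h2] with z hz
    rw [Real.norm_eq_abs]
    exact hz
  have b2 : |∫ z, (tr (S.B (V.P z) * fderiv ℝ g z) - c * f z) ∂V.μ| ≤ ∫ z, e z ∂V.μ := by
    rw [← Real.norm_eq_abs]
    refine norm_integral_le_of_norm_le he ?_
    filter_upwards [h1] with z hz
    rw [Real.norm_eq_abs]
    exact hz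
  have := abs_sub (∫ z, inner ℝ (V.H z) (g z) ∂V.μ)
    (∫ z, (tr (S.B (V.P z) * fderiv ℝ g z) - c * f z) ∂V.μ)
  linarith

theorem second_scale_height (n m : ℕ) (hm : 1 ≤ m) {τ : ℝ} {η : ℝ → ℝ} (h : Ker τ η) (s r : ℝ)
    (hs : 0 < s) (hr : s < r) (hr1 : r ≤ 1) : ∃ C : ℝ, 0 < C ∧
    ∀ {δ : ℝ} {S : Stress n m δ} {α Λ : ℝ} {U : Set (E n)} (V : Sys S α Λ U),
    0 ≤ δ → δ ≤ d0 n → ∀ {Q : Op n}, Pr n m Q → closedBall 0 4 ⊆ U →
    (∀ z ∈ V.μ.support, ‖z‖ < 4 → ‖(1 - Q) z‖ ≤ 1 / 8) →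
    ∀ χ : E n → ℝ, ContDiff ℝ 1 χ → (∀ z, 0 ≤ χ z) → (∀ z, χ z ≤ 1) →
    (∀ z, ‖(1 - Q) z‖ ≤ 1 / 4 → χ z = 1) → (∀ z, 1 / 2 ≤ ‖(1 - Q) z‖ → χ z = 0) →
    ∀ (a : E n), (∀ z ∈ V.μ.support, ‖z‖ < 4 → ‖(1 - Q) (z - a)‖ ≤ 1) →
    ∀ (p : E n), ‖Q p‖ ≤ 2 → ∀ ν : E n, ‖ν‖ ≤ 1 →
    |∫ z, χ z * (Kr m η r ‖Q (z - p)‖ - Kr m η s ‖Q (z - p)‖) *
        inner ℝ ν ((1 - Q) (z - a)) ∂V.μ| ≤
      C * (δ * ∫ z in ball 0 4, ‖V.P z - Q‖ ∂V.μ + ∫ z in ball 0 4, ‖V.P z - Q‖ ^ 2 ∂V.μ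
        + ∫ z in ball 0 4, ‖V.H z‖ ∂V.μ) := by
  have hr0 : 0 < r := hs.trans hr
  obtain ⟨K₁, hK₁def⟩ : ∃ K₁ : ℝ, K₁ = (s ^ m)⁻¹ := ⟨_, rfl⟩
  obtain ⟨K₂, hK₂def⟩ : ∃ K₂ : ℝ, K₂ = (2 / s) ^ m := ⟨_, rfl⟩
  have hK₁ : 0 < K₁ := by rw [hK₁def]; positivity
  have hK₂ : 0 < K₂ := by rw [hK₂def]; positivity
  obtain ⟨C', hC'def⟩ : ∃ C' : ℝ, C' = 2 * n * K₁ + 2 * K₂ + 3 * K₁ := ⟨_, rfl⟩
  have hC' : 0 < C' := by rw [hC'def]; positivity
  refine ⟨2 * (C' + 3 * K₁), by positivity, ?_⟩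
  intro δ S α Λ U V hδ hδ' Q hQ hU hsl χ hχ hχ0 hχ1 hχin hχout a ha p hp ν hν
  obtain ⟨q1, q2, q3, q4⟩ := S.psi_bd hδ hδ' hQ
  obtain ⟨i1, i2⟩ := S.psi_inv_bd hδ hδ' hQ
  obtain ⟨ν', hν'⟩ : ∃ ν' : E n, ν' = (1 - Q) ν := ⟨_, rfl⟩
  obtain ⟨w, hw⟩ : ∃ w : E n, w = (S.ψ Q)⁻¹ • S.C Q ((1 - Q) ν) - (1 - Q) ν := ⟨_, rfl⟩
  have hν'1 : ‖ν'‖ ≤ 1 := by rw [hν']; exact (hQ.perp_norm_apply_le ν).trans hν
  have hw1 : ‖w‖ ≤ 2 := by
    rw [hw]
    refine (norm_sub_le _ _).trans ?_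
    rw [norm_smul, Real.norm_of_nonneg i1.le, ← hν']
    have h1 : ‖S.C Q ν'‖ ≤ 1 / 100 * 1 :=
      (ContinuousLinearMap.le_opNorm _ _).trans
        (mul_le_mul ((S.bC Q hQ).trans q4) hν'1 (norm_nonneg _) (by norm_num))
    have h2 : (S.ψ Q)⁻¹ * ‖S.C Q ν'‖ ≤ 100 / 99 * (1 / 100 * 1) :=
      mul_le_mul i2 h1 (norm_nonneg _) (by norm_num)
    linarith only [hν'1, h2]
  -- the field
  obtain ⟨R, hR⟩ : ∃ R : E n → E n, R = fun z => Xi m η s r (gn Q (z - p)) • Q (z - p) :=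
    ⟨_, rfl⟩
  obtain ⟨Zf, hZf⟩ : ∃ Zf : E n → ℝ, Zf = fun z => Zz m η s r ‖Q (z - p)‖ := ⟨_, rfl⟩
  obtain ⟨hv, hhv⟩ : ∃ hv : E n → ℝ, hv = fun z => inner ℝ ν' (z - a) := ⟨_, rfl⟩
  have hQnn : ∀ z : E n, 0 ≤ inner ℝ (Q z) z := fun z => by
    rw [← hQ.norm_sq]; positivity
  have hRc : ContDiff ℝ 1 R := by
    rw [hR]; exact radial_contDiff h hm hs hr hQ.symm hQnn Q p
  have hZc : ContDiff ℝ 1 Zf := by
    rw [hZf]; exact pot_contDiff h hm hs hr hQ p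
  have hhvc : ContDiff ℝ 1 hv := by
    rw [hhv]
    exact ContDiff.inner ℝ contDiff_const (contDiff_id.sub contDiff_const)
  obtain ⟨g0, hg0⟩ : ∃ g0 : E n → E n, g0 = fun z => hv z • R z + Zf z • w := ⟨_, rfl⟩
  have hg0c : ContDiff ℝ 1 g0 := by
    rw [hg0]
    exact (hhvc.smul hRc).add (hZc.smul contDiff_const)
  obtain ⟨g, hg⟩ : ∃ g : E n → E n, g = fun z => χ z • g0 z := ⟨_, rfl⟩
  have hgc : ContDiff ℝ 1 g := by
    rw [hg]; exact hχ.smul hg0c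
  -- the support
  have hbig : ∀ z : E n, 7 / 2 < ‖z‖ → χ z = 0 ∨ r ≤ ‖Q (z - p)‖ := by
    intro z hz
    by_contra hcon
    rw [not_or, not_le] at hcon
    obtain ⟨c1, c2⟩ := hcon
    have c3 : ‖(1 - Q) z‖ < 1 / 2 := by
      by_contra c4
      rw [not_lt] at c4
      exact c1 (hχout z c4)
    have c5 : ‖Q z‖ ≤ 3 := by
      have : Q z = Q (z - p) + Q p := by rw [← map_add, sub_add_cancel]
      rw [this]
      refine (norm_add_le _ _).trans ?_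
      linarith only [hr1, hp, c2]
    have c6 := hQ.pyth z
    have c7 : ‖Q z‖ ^ 2 ≤ 3 ^ 2 := pow_le_pow_left₀ (norm_nonneg _) c5 2
    have c8 : ‖(1 - Q) z‖ ^ 2 ≤ (1 / 2) ^ 2 := pow_le_pow_left₀ (norm_nonneg _) c3.le 2
    have c9 : (7 / 2 : ℝ) ^ 2 < ‖z‖ ^ 2 := pow_lt_pow_left₀ hz (by norm_num) two_ne_zero
    linarith only [c6, c7, c8, c9]
  have hR0 : ∀ z : E n, r ≤ ‖Q (z - p)‖ → R z = 0 := by
    intro z hz
    rw [hR]
    change Xi m η s r (gn Q (z - p)) • Q (z - p) = 0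
    rw [gn_proj hQ, Xi_zero h hm hs hr hz, zero_smul]
  have hZ0 : ∀ z : E n, r ≤ ‖Q (z - p)‖ → Zf z = 0 := by
    intro z hz
    rw [hZf]
    exact Zz_zero h hm hs hr hz
  have hg_big : ∀ z : E n, 7 / 2 < ‖z‖ → g z = 0 := by
    intro z hz
    rw [hg]
    change χ z • g0 z = 0
    rcases hbig z hz with h1 | h1
    · rw [h1, zero_smul]
    · rw [hg0]
      change χ z • (hv z • R z + Zf z • w) = 0
      rw [hR0 z h1, hZ0 z h1, smul_zero, zero_smul, add_zero, smul_zero]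
  have hgs : Function.support g ⊆ closedBall (0 : E n) (7 / 2) := by
    intro z hz
    rw [mem_closedBall, dist_zero_right]
    by_contra h1
    rw [not_le] at h1
    exact hz (hg_big z h1)
  have hcs : HasCompactSupport g :=
    HasCompactSupport.of_support_subset_isCompact (isCompact_closedBall 0 (7 / 2)) hgs
  have hts : tsupport g ⊆ closedBall (0 : E n) (7 / 2) :=
    closure_minimal hgs isClosed_closedBall
  have hb4 : closedBall (0 : E n) (7 / 2) ⊆ ball 0 4 := closedBall_subset_ball (by norm_num)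
  have htU : tsupport g ⊆ U := (hts.trans hb4).trans (ball_subset_closedBall.trans hU)
  -- outside the ball
  have hout_g : ∀ z : E n, z ∉ ball (0 : E n) 4 → g z = 0 := fun z hz =>
    image_eq_zero_of_notMem_tsupport fun h1 => hz (hb4 (hts h1))
  have hout_d : ∀ z : E n, z ∉ ball (0 : E n) 4 → fderiv ℝ g z = 0 := fun z hz => by
    exact fderiv_of_notMem_tsupport ℝ fun h1 => hz (hb4 (hts h1))
  -- the integrand
  obtain ⟨f, hf⟩ : ∃ f : E n → ℝ, f = fun z => χ z *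
      (Kr m η r ‖Q (z - p)‖ - Kr m η s ‖Q (z - p)‖) * inner ℝ ν ((1 - Q) (z - a)) := ⟨_, rfl⟩
  have hQc : Continuous (fun z : E n => ‖Q (z - p)‖) :=
    (Q.continuous.comp (continuous_id.sub continuous_const)).norm
  have hfc : Continuous f := by
    rw [hf]
    apply Continuous.mul
    · apply hχ.continuous.mul
      exact ((continuous_Kr h r).comp hQc).sub ((continuous_Kr h s).comp hQc)
    · exact continuous_const.inner ((1 - Q).continuous.comp (continuous_id.sub continuous_const))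
  have hf_big : ∀ z : E n, 7 / 2 < ‖z‖ → f z = 0 := by
    intro z hz
    rw [hf]
    change χ z * (Kr m η r ‖Q (z - p)‖ - Kr m η s ‖Q (z - p)‖) *
      inner ℝ ν ((1 - Q) (z - a)) = 0
    rcases hbig z hz with h1 | h1
    · rw [h1, zero_mul, zero_mul]
    · rw [Kr_eq_zero h hr0 h1, Kr_eq_zero h hs (hr.le.trans h1), sub_zero, mul_zero, zero_mul]
  have hfcs : HasCompactSupport f := by
    apply HasCompactSupport.of_support_subset_isCompact (isCompact_closedBall (0 : E n) (7 / 2))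
    intro z hz
    rw [mem_closedBall, dist_zero_right]
    by_contra h1
    rw [not_le] at h1
    exact hz (hf_big z h1)
  have hfI : Integrable f V.μ := hfc.integrable_of_hasCompactSupport hfcs
  have hf_out : ∀ z : E n, z ∉ ball (0 : E n) 4 → f z = 0 := fun z hz => by
    apply hf_big
    rw [mem_ball, dist_zero_right, not_lt] at hz
    linarith only [hz]
  -- pointwise bounds of the profile
  have hXb : ∀ z : E n, |Xi m η s r ‖Q (z - p)‖| ≤ K₁ := by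
    intro z
    have h1 := abs_Xi_le h hm hs hr (norm_nonneg (Q (z - p)))
    rw [← hK₁def] at h1
    refine h1.trans ?_
    calc K₁ * η (‖Q (z - p)‖ / r) ≤ K₁ * 1 := mul_le_mul_of_nonneg_left (h.le_one _) hK₁.le
      _ = K₁ := mul_one _
  have hXtb : ∀ z : E n, |Xi m η s r ‖Q (z - p)‖| * ‖Q (z - p)‖ ≤ K₁ := by
    intro z
    rcases le_or_gt r ‖Q (z - p)‖ with h1 | h1
    · rw [Xi_zero h hm hs hr h1, abs_zero, zero_mul]
      exact hK₁.le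
    · calc |Xi m η s r ‖Q (z - p)‖| * ‖Q (z - p)‖ ≤ K₁ * 1 :=
            mul_le_mul (hXb z) (by linarith only [hr1, h1]) (norm_nonneg _) hK₁.le
        _ = K₁ := mul_one _
  have hNb : ∀ z : E n, |Nn m η s r ‖Q (z - p)‖| ≤ K₂ := by
    intro z
    rw [abs_of_nonneg (Nn_nonneg h hm hs hr (norm_nonneg _))]
    refine (Nn_le' h hm hs hr (norm_nonneg _)).trans ?_
    rw [← hK₂def]
    calc K₂ * η (‖Q (z - p)‖ / r) ≤ K₂ * 1 := mul_le_mul_of_nonneg_left (h.le_one _) hK₂.le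
      _ = K₂ := mul_one _
  have hZb : ∀ z : E n, |Zf z| ≤ K₁ := by
    intro z
    rw [hZf]
    refine (abs_Zz_le h hm hs hr (norm_nonneg _)).trans ?_
    rw [← hK₁def]
    have : r ^ 2 ≤ 1 := pow_le_one₀ hr0.le hr1
    calc K₁ * r ^ 2 ≤ K₁ * 1 := mul_le_mul_of_nonneg_left this hK₁.le
      _ = K₁ := mul_one _
  have hRb : ∀ z : E n, ‖R z‖ ≤ K₁ := by
    intro z
    rw [hR]
    change ‖Xi m η s r (gn Q (z - p)) • Q (z - p)‖ ≤ K₁
    rw [gn_proj hQ, norm_smul, Real.norm_eq_abs]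
    exact hXtb z
  have hhve : ∀ z : E n, hv z = inner ℝ ν ((1 - Q) (z - a)) := by
    intro z
    rw [hhv]
    change inner ℝ ν' (z - a) = _
    rw [hν', w3b_perp_inner hQ]
  have hhvb : ∀ z ∈ V.μ.support, ‖z‖ < 4 → |hv z| ≤ 1 := by
    intro z hz hz4
    rw [hhve]
    refine (abs_real_inner_le_norm _ _).trans ?_
    calc ‖ν‖ * ‖(1 - Q) (z - a)‖ ≤ 1 * 1 :=
          mul_le_mul hν (ha z hz hz4) (norm_nonneg _) zero_le_one
      _ = 1 := mul_one 1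
  -- the derivative of the field
  have hder : ∀ z : E n, ∀ A : Op n, tr (A * fderiv ℝ g0 z) =
      hv z * (Xi m η s r ‖Q (z - p)‖ * tr (A * Q) + Nn m η s r ‖Q (z - p)‖ / ‖Q (z - p)‖ ^ 2 *
        inner ℝ (Q (z - p)) (A (Q (z - p)))) +
      Xi m η s r ‖Q (z - p)‖ * inner ℝ ν' (A (Q (z - p))) +
      Xi m η s r ‖Q (z - p)‖ * inner ℝ (Q (z - p)) (A w) := by
    intro z A
    have d1 : HasFDerivAt R (Xi m η s r ‖Q (z - p)‖ • Q +
        (Nn m η s r ‖Q (z - p)‖ / ‖Q (z - p)‖ ^ 2) • rk (Q (z - p)) (Q (z - p))) z := by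
      have e1 := radial_fderiv h hm hs hr hQ.symm hQnn Q p z
      rw [gn_proj hQ, ← hR] at e1
      rw [← e1]
      exact (hRc.differentiable (by norm_num) z).hasFDerivAt
    have d2 : HasFDerivAt hv (innerSL ℝ ν') z := by
      rw [hhv]
      exact (innerSL ℝ ν').hasFDerivAt.comp z ((hasFDerivAt_id z).sub_const a)
    have d3 : HasFDerivAt Zf (Xi m η s r ‖Q (z - p)‖ • innerSL ℝ (Q (z - p))) z := by
      have e1 : fderiv ℝ Zf z = Xi m η s r ‖Q (z - p)‖ • innerSL ℝ (Q (z - p)) := by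
        ext v
        rw [hZf, pot_fderiv h hm hs hr hQ p z v]
        rfl
      rw [← e1]
      exact (hZc.differentiable (by norm_num) z).hasFDerivAt
    have d4 : HasFDerivAt g0 (hv z • (Xi m η s r ‖Q (z - p)‖ • Q +
        (Nn m η s r ‖Q (z - p)‖ / ‖Q (z - p)‖ ^ 2) • rk (Q (z - p)) (Q (z - p))) +
        (innerSL ℝ ν').smulRight (R z) +
        (Xi m η s r ‖Q (z - p)‖ • innerSL ℝ (Q (z - p))).smulRight w) z := by
      rw [hg0]
      exact (d2.smul d1).add (d3.smul_const w)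
    rw [d4.fderiv, mul_add, mul_add, tr_add, tr_add, tr_mul_smulRight, tr_mul_smulRight,
      mulSmul, mul_add, mulSmul, mulSmul, tr_smul, tr_add, tr_smul, tr_smul, tr_mul_rk]
    have e2 : R z = Xi m η s r ‖Q (z - p)‖ • Q (z - p) := by
      rw [hR]
      change Xi m η s r (gn Q (z - p)) • Q (z - p) = _
      rw [gn_proj hQ]
    have e3 : (innerSL ℝ ν') (A (R z)) = Xi m η s r ‖Q (z - p)‖ * inner ℝ ν' (A (Q (z - p))) := by
      rw [e2, map_smul, map_smul]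
      rfl
    have e4 : (Xi m η s r ‖Q (z - p)‖ • innerSL ℝ (Q (z - p))) (A w) =
        Xi m η s r ‖Q (z - p)‖ * inner ℝ (Q (z - p)) (A w) := rfl
    rw [e3, e4]
  -- points of the support in the ball
  have hin : ∀ z ∈ V.μ.support, z ∈ ball (0 : E n) 4 →
      g z = g0 z ∧ fderiv ℝ g z = fderiv ℝ g0 z ∧ χ z = 1 := by
    intro z hz hz4
    rw [mem_ball, dist_zero_right] at hz4
    have h1 := hsl z hz hz4
    have h2 : ∀ᶠ y in 𝓝 z, ‖(1 - Q) y‖ < 1 / 4 :=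
      ((1 - Q).continuous.norm.continuousAt).eventually_lt_const (by linarith only [h1])
    have h3 : g =ᶠ[𝓝 z] g0 := by
      filter_upwards [h2] with y hy
      rw [hg]
      change χ y • g0 y = g0 y
      rw [hχin y hy.le, one_smul]
    exact ⟨h3.eq_of_nhds, h3.fderiv_eq, hχin z (by linarith only [h1])⟩
  have hsup : ∀ᵐ z ∂V.μ, z ∈ V.μ.support := Measure.support_mem_ae
  -- the two integrable bounds
  have hPQm : Measurable (fun z => ‖V.P z - Q‖) := (V.mP.sub_const Q).norm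
  have hPQb : ∀ z, ‖V.P z - Q‖ ≤ 2 := fun z => (V.hP z).norm_sub_le hQ
  have hI1 : Integrable (fun z => ‖V.P z - Q‖) V.μ := V.integrable_bdd hPQm (c := 2) fun z => by
    rw [abs_of_nonneg (norm_nonneg _)]
    exact hPQb z
  have hI2 : Integrable (fun z => ‖V.P z - Q‖ ^ 2) V.μ :=
    V.integrable_bdd (hPQm.pow_const 2) (c := 4) fun z => by
      rw [abs_of_nonneg (by positivity)]
      have := pow_le_pow_left₀ (norm_nonneg _) (hPQb z) 2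
      linarith
  have hI3 : Integrable (fun z => ‖V.H z‖) V.μ := V.iH.norm
  have hE : Integrable (fun z => C' * (δ * ‖V.P z - Q‖ + ‖V.P z - Q‖ ^ 2)) V.μ :=
    ((hI1.const_mul δ).add hI2).const_mul C'
  have hK : Integrable (fun z => 3 * K₁ * ‖V.H z‖) V.μ := hI3.const_mul _
  have key := w3b_fv V hgc hcs htU hfI (hE.indicator (measurableSet_ball (x := (0 : E n)) (ε := 4)))
    (hK.indicator (measurableSet_ball (x := (0 : E n)) (ε := 4))) (S.ψ Q) ?_ ?_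
  · rw [integral_indicator measurableSet_ball, integral_indicator measurableSet_ball,
      integral_const_mul, integral_const_mul,
      integral_add (hI1.const_mul δ).integrableOn hI2.integrableOn, integral_const_mul] at key
    rw [abs_mul, abs_of_pos (by linarith : 0 < S.ψ Q)] at key
    have e1 : ∫ z, χ z * (Kr m η r ‖Q (z - p)‖ - Kr m η s ‖Q (z - p)‖) *
        inner ℝ ν ((1 - Q) (z - a)) ∂V.μ = ∫ z, f z ∂V.μ := by rw [hf]
    rw [e1]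
    have j1 : 0 ≤ ∫ z in ball (0 : E n) 4, ‖V.P z - Q‖ ∂V.μ := integral_nonneg fun z => norm_nonneg _
    have j2 : 0 ≤ ∫ z in ball (0 : E n) 4, ‖V.P z - Q‖ ^ 2 ∂V.μ :=
      integral_nonneg fun z => by positivity
    have j3 : 0 ≤ ∫ z in ball (0 : E n) 4, ‖V.H z‖ ∂V.μ := integral_nonneg fun z => norm_nonneg _
    have j4 : 99 / 100 * |∫ z, f z ∂V.μ| ≤ S.ψ Q * |∫ z, f z ∂V.μ| :=
      mul_le_mul_of_nonneg_right q1 (abs_nonneg _)
    have j5 : 0 ≤ |∫ z, f z ∂V.μ| := abs_nonneg _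
    have j6 : 0 ≤ δ * ∫ z in ball (0 : E n) 4, ‖V.P z - Q‖ ∂V.μ := by positivity
    linarith only [key, j4, j5, mul_nonneg hC'.le j3, mul_nonneg hK₁.le (add_nonneg j6 j2)]
  · filter_upwards [hsup] with z hz
    by_cases hz4 : z ∈ ball (0 : E n) 4
    · rw [indicator_of_mem hz4]
      obtain ⟨g1, g2, g3⟩ := hin z hz hz4
      have hz4' : ‖z‖ < 4 := by rwa [mem_ball, dist_zero_right] at hz4
      have hQx : Q (Q (z - p)) = Q (z - p) := hQ.apply_apply _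
      have hrel := Xi_rel h hm hs hr (norm_nonneg (Q (z - p)))
      have e1 : f z = hv z * (m * Xi m η s r ‖Q (z - p)‖ + Nn m η s r ‖Q (z - p)‖) := by
        rw [hrel, hhve, hf]
        change χ z * (Kr m η r ‖Q (z - p)‖ - Kr m η s ‖Q (z - p)‖) *
          inner ℝ ν ((1 - Q) (z - a)) = _
        rw [g3]
        ring
      rw [g2, hder z, e1, hw, hν', hC'def]
      exact w3b_alg (S := S) hδ hδ' (V.hP z) hQ hQx hν hK₁.le (hXb z) (hXtb z) (hNb z)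
        (fun h0 => by rw [h0]; exact Nn_small h hs hr (by positivity)) (hhvb z hz hz4')
    · rw [indicator_of_notMem hz4, hout_d z hz4, hf_out z hz4, mul_zero, mul_zero, sub_zero,
        tr_zero', abs_zero]
  · filter_upwards [hsup] with z hz
    by_cases hz4 : z ∈ ball (0 : E n) 4
    · rw [indicator_of_mem hz4]
      obtain ⟨g1, g2, g3⟩ := hin z hz hz4
      have hz4' : ‖z‖ < 4 := by rwa [mem_ball, dist_zero_right] at hz4
      have e1 : ‖g z‖ ≤ 3 * K₁ := by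
        rw [g1, hg0]
        refine (norm_add_le _ _).trans ?_
        rw [norm_smul, norm_smul, Real.norm_eq_abs, Real.norm_eq_abs]
        have k1 : |hv z| * ‖R z‖ ≤ 1 * K₁ :=
          mul_le_mul (hhvb z hz hz4') (hRb z) (norm_nonneg _) zero_le_one
        have k2 : |Zf z| * ‖w‖ ≤ K₁ * 2 := mul_le_mul (hZb z) hw1 (norm_nonneg _) hK₁.le
        linarith only [k1, k2]
      calc |inner ℝ (V.H z) (g z)| ≤ ‖V.H z‖ * ‖g z‖ := abs_real_inner_le_norm _ _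
        _ ≤ ‖V.H z‖ * (3 * K₁) := mul_le_mul_of_nonneg_left e1 (norm_nonneg _)
        _ = _ := by ring
    · rw [indicator_of_notMem hz4, hout_g z hz4, inner_zero_right, abs_zero]

end Allard
end
end

section

/-!
# W11: comparison of the averages at scales `l` and `1`

`M_r y = ∫ χ Kr r ‖Q(z-y)‖`, `U_r y = ∫ (χ Kr r ‖Q(z-y)‖) • (1-Q)(z-a)`.  `second_scale_mass`, `second_scale_height` with `s = l`, `r = 1`,
`p = y`: `|M_1 - M_l| ≤ C w`, `‖U_1 - U_l‖ ≤ C w` (test with `ν` the direction of the vector, `integral_inner`),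
`w = δ ∫‖P-Q‖ + ∫‖P-Q‖² + ∫‖H‖` over `ball 0 4`.  `M_r ≥ r^{-m} μ(ball y (r/2)) ≥ (31/32) om 2^{-m}` (LD;
`χ = 1` and `Kr r = r^{-m}` on `ball y (r/2)` a.e.).  `‖U_1‖ ≤ M_1 ≤ A` (`‖(1-Q)(z-a)‖ ≤ 1`).
`U_l/M_l - U_1/M_1 = (U_l - U_1)/M_l + U_1 (M_1 - M_l)/(M_1 M_l)`.
-/

noncomputable section

open MeasureTheory Metric Set Filter Topology

namespace Allard

section

variable {n m : ℕ} {τ : ℝ} {η : ℝ → ℝ}

/-- The weight at scale `r`. -/
private def W11_w (m : ℕ) (η : ℝ → ℝ) (Q : Op n) (χ : E n → ℝ) (y : E n) (r : ℝ) (z : E n) : ℝ :=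
  χ z * Kr m η r ‖Q (z - y)‖

private theorem W11_nonneg (h : Ker τ η) {Q : Op n} {χ : E n → ℝ} (h0 : ∀ z, 0 ≤ χ z) (y : E n)
    {r : ℝ} (hr : 0 < r) (z : E n) : 0 ≤ W11_w m η Q χ y r z :=
  mul_nonneg (h0 z) (Kr_nonneg h hr _)

private theorem W11_le (h : Ker τ η) {Q : Op n} {χ : E n → ℝ} (h0 : ∀ z, 0 ≤ χ z)
    (h1 : ∀ z, χ z ≤ 1) (y : E n) {r : ℝ} (hr : 0 < r) (z : E n) :
    W11_w m η Q χ y r z ≤ (r ^ m)⁻¹ := by
  unfold W11_w
  calc χ z * Kr m η r ‖Q (z - y)‖ ≤ 1 * (r ^ m)⁻¹ :=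
        mul_le_mul (h1 z) (Kr_le h hr _) (Kr_nonneg h hr _) zero_le_one
    _ = (r ^ m)⁻¹ := one_mul _

private theorem W11_zero (h : Ker τ η) {Q : Op n} (hQ : Pr n m Q) {χ : E n → ℝ}
    (hb : ∀ z, 1 / 2 ≤ ‖(1 - Q) z‖ → χ z = 0) {y : E n} (hy : ‖y‖ < 1)
    {r : ℝ} (hr : 0 < r) (hr1 : r ≤ 1) {z : E n} (hz : 4 ≤ ‖z‖) : W11_w m η Q χ y r z = 0 := by
  unfold W11_w
  rcases le_or_gt (1 / 2) ‖(1 - Q) z‖ with h1 | h1
  · rw [hb z h1, zero_mul]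
  · rcases le_or_gt r ‖Q (z - y)‖ with h2 | h2
    · rw [Kr_eq_zero h hr h2, mul_zero]
    · exfalso
      have e1 : z = Q (z - y) + Q y + (1 - Q) z := by
        rw [map_sub, ContinuousLinearMap.sub_apply, ContinuousLinearMap.one_apply]
        abel
      have e2 : ‖z‖ ≤ ‖Q (z - y)‖ + ‖Q y‖ + ‖(1 - Q) z‖ := by
        calc ‖z‖ = ‖Q (z - y) + Q y + (1 - Q) z‖ := by rw [← e1]
          _ ≤ ‖Q (z - y) + Q y‖ + ‖(1 - Q) z‖ := norm_add_le _ _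
          _ ≤ ‖Q (z - y)‖ + ‖Q y‖ + ‖(1 - Q) z‖ := by
            have := norm_add_le (Q (z - y)) (Q y)
            linarith
      have e3 := hQ.norm_apply_le y
      linarith

private theorem W11_cont (h : Ker τ η) {Q : Op n} {χ : E n → ℝ} (hχ : Continuous χ) (y : E n)
    (r : ℝ) : Continuous (W11_w m η Q χ y r) := by
  unfold W11_w
  exact hχ.mul ((continuous_Kr h r).comp (Q.continuous.comp (continuous_id.sub continuous_const)).norm)

private theorem W11_int (h : Ker τ η) {Q : Op n} {χ : E n → ℝ} (hχ : Continuous χ)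
    (h0 : ∀ z, 0 ≤ χ z) (h1 : ∀ z, χ z ≤ 1) (y : E n) {r : ℝ} (hr : 0 < r) (μ : Measure (E n))
    [IsFiniteMeasure μ] : Integrable (W11_w m η Q χ y r) μ := by
  refine (integrable_const ((r ^ m)⁻¹)).mono' (W11_cont h hχ y r).aestronglyMeasurable ?_
  refine Filter.Eventually.of_forall fun z => ?_
  rw [Real.norm_of_nonneg (W11_nonneg h h0 y hr z)]
  exact W11_le h h0 h1 y hr z

private theorem W11_vint (h : Ker τ η) {Q : Op n} (hQ : Pr n m Q) {χ : E n → ℝ}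
    (hχ : Continuous χ) (h0 : ∀ z, 0 ≤ χ z) (h1 : ∀ z, χ z ≤ 1)
    (hb : ∀ z, 1 / 2 ≤ ‖(1 - Q) z‖ → χ z = 0) {y : E n} (hy : ‖y‖ < 1)
    {r : ℝ} (hr : 0 < r) (hr1 : r ≤ 1) (a : E n) (μ : Measure (E n)) [IsFiniteMeasure μ] :
    Integrable (fun z => (W11_w m η Q χ y r z) • (1 - Q) (z - a)) μ := by
  refine (integrable_const ((r ^ m)⁻¹ * (4 + ‖a‖))).mono' ?_ ?_
  · exact ((W11_cont h hχ y r).smul
      ((1 - Q).continuous.comp (continuous_id.sub continuous_const))).aestronglyMeasurable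
  · refine Filter.Eventually.of_forall fun z => ?_
    rw [norm_smul, Real.norm_of_nonneg (W11_nonneg h h0 y hr z)]
    rcases le_or_gt 4 ‖z‖ with hz | hz
    · rw [W11_zero h hQ hb hy hr hr1 hz, zero_mul]
      positivity
    · have e1 := hQ.perp_norm_apply_le (z - a)
      have e2 := norm_sub_le z a
      exact mul_le_mul (W11_le h h0 h1 y hr z) (by linarith) (norm_nonneg _) (by positivity)

private theorem W11_low (h : Ker τ η) {δ : ℝ} {S : Stress n m δ} {α Λ : ℝ} {U : Set (E n)}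
    (V : Sys S α Λ U) (hLD : V.LD (1 / 32)) {Q : Op n} (hQ : Pr n m Q)
    (hU : closedBall 0 4 ⊆ U) (hsl : ∀ z ∈ V.μ.support, ‖z‖ < 4 → ‖(1 - Q) z‖ ≤ 1 / 8)
    {χ : E n → ℝ} (hχ : Continuous χ) (h0 : ∀ z, 0 ≤ χ z) (h1 : ∀ z, χ z ≤ 1)
    (ha : ∀ z, ‖(1 - Q) z‖ ≤ 1 / 4 → χ z = 1) {y : E n} (hyS : y ∈ V.μ.support) (hy : ‖y‖ < 1)
    {r : ℝ} (hr : 0 < r) (hr1 : r ≤ 1) :
    31 / 32 * om m * (1 / 2) ^ m ≤ ∫ z, W11_w m η Q χ y r z ∂V.μ := by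
  have hsub : closedBall y (r / 2) ⊆ U := by
    refine subset_trans (fun z hz => ?_) hU
    rw [mem_closedBall, dist_eq_norm] at hz
    rw [mem_closedBall, dist_zero_right]
    have e := norm_add_le (z - y) y
    rw [sub_add_cancel] at e
    linarith
  have e1 := hLD y hyS (r / 2) (by linarith) hsub
  have e2 : ∫ z, (ball y (r / 2)).indicator (fun _ => (r ^ m)⁻¹) z ∂V.μ ≤
      ∫ z, W11_w m η Q χ y r z ∂V.μ := by
    refine integral_mono_ae ?_ (W11_int h hχ h0 h1 y hr V.μ) ?_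
    · exact (integrable_const _).indicator measurableSet_ball
    · have hae : ∀ᵐ z ∂V.μ, z ∈ V.μ.support := Measure.support_mem_ae
      filter_upwards [hae] with z hz
      by_cases hzb : z ∈ ball y (r / 2)
      · rw [Set.indicator_of_mem hzb]
        rw [mem_ball, dist_eq_norm] at hzb
        have hz4 : ‖z‖ < 4 := by
          have e := norm_add_le (z - y) y
          rw [sub_add_cancel] at e
          linarith
        have g1 := hsl z hz hz4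
        have g2 := hQ.norm_apply_le (z - y)
        have g3 : ‖Q (z - y)‖ ≤ (1 - τ) * r := by
          have := h.tle
          nlinarith
        unfold W11_w
        rw [ha z (by linarith), one_mul, Kr_eq h hr g3]
      · rw [Set.indicator_of_notMem hzb]
        exact W11_nonneg h h0 y hr z
  rw [integral_indicator measurableSet_ball, setIntegral_const, smul_eq_mul] at e2
  refine le_trans ?_ e2
  have hrm : 0 < r ^ m := pow_pos hr m
  rw [← div_eq_mul_inv, le_div_iff₀ hrm]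
  refine le_trans (le_of_eq ?_) e1
  rw [show r / 2 = (1 / 2) * r by ring, mul_pow]
  ring

private theorem W11_up (h : Ker τ η) {δ : ℝ} {S : Stress n m δ} {α Λ : ℝ} {U : Set (E n)}
    (V : Sys S α Λ U) {Q : Op n} (hQ : Pr n m Q) {χ : E n → ℝ} (hχ : Continuous χ)
    (h0 : ∀ z, 0 ≤ χ z) (h1 : ∀ z, χ z ≤ 1)
    (hb : ∀ z, 1 / 2 ≤ ‖(1 - Q) z‖ → χ z = 0) {a : E n}
    (ha : ∀ z ∈ V.μ.support, ‖z‖ < 4 → ‖(1 - Q) (z - a)‖ ≤ 1) {y : E n} (hy : ‖y‖ < 1)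
    {r : ℝ} (hr : 0 < r) (hr1 : r ≤ 1) :
    ‖∫ z, (W11_w m η Q χ y r z) • (1 - Q) (z - a) ∂V.μ‖ ≤ ∫ z, W11_w m η Q χ y r z ∂V.μ := by
  refine norm_integral_le_of_norm_le (W11_int h hχ h0 h1 y hr V.μ) ?_
  have hae : ∀ᵐ z ∂V.μ, z ∈ V.μ.support := Measure.support_mem_ae
  filter_upwards [hae] with z hz
  have g := W11_nonneg (m := m) h (Q := Q) h0 y hr z
  rw [norm_smul, Real.norm_of_nonneg g]
  rcases le_or_gt 4 ‖z‖ with h4 | h4
  · rw [W11_zero h hQ hb hy hr hr1 h4, zero_mul]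
  · have := ha z hz h4
    nlinarith

end

private theorem W11_alg {n : ℕ} {A B c C1 C2 w : ℝ} {u v : E n} (hc : 0 < c) (hA : c ≤ A)
    (hB : c ≤ B) (hu : ‖u‖ ≤ B) (h1 : |B - A| ≤ C1 * w) (h2 : ‖u - v‖ ≤ C2 * w) :
    ‖A⁻¹ • v - B⁻¹ • u‖ ≤ (C1 + C2) / c * w := by
  have hA0 : 0 < A := lt_of_lt_of_le hc hA
  have hB0 : 0 < B := lt_of_lt_of_le hc hB
  have e1 : A⁻¹ • v - B⁻¹ • u = A⁻¹ • (v - u) + (A⁻¹ - B⁻¹) • u := by
    rw [smul_sub, sub_smul]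
    abel
  have e2 : ‖A⁻¹ • (v - u)‖ ≤ C2 * w / c := by
    rw [norm_smul, Real.norm_of_nonneg (inv_pos.2 hA0).le, norm_sub_rev, ← div_eq_inv_mul]
    exact div_le_div₀ ((norm_nonneg _).trans h2) h2 hc hA
  have e3 : ‖(A⁻¹ - B⁻¹) • u‖ ≤ C1 * w / c := by
    rw [norm_smul, Real.norm_eq_abs]
    have g1 : A⁻¹ - B⁻¹ = (B - A) / (A * B) := by
      field_simp
    rw [g1, abs_div, abs_of_pos (mul_pos hA0 hB0)]
    calc |B - A| / (A * B) * ‖u‖ ≤ |B - A| / (A * B) * B :=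
          mul_le_mul_of_nonneg_left hu (by positivity)
      _ = |B - A| / A := by field_simp
      _ ≤ C1 * w / c := div_le_div₀ ((abs_nonneg _).trans h1) h1 hc hA
  rw [e1]
  calc ‖A⁻¹ • (v - u) + (A⁻¹ - B⁻¹) • u‖ ≤ ‖A⁻¹ • (v - u)‖ + ‖(A⁻¹ - B⁻¹) • u‖ := norm_add_le _ _
    _ ≤ C2 * w / c + C1 * w / c := add_le_add e2 e3
    _ = (C1 + C2) / c * w := by ring

theorem ratio_est (n m : ℕ) (hm : 1 ≤ m) {τ : ℝ} {η : ℝ → ℝ} (h : Ker τ η) (l A : ℝ)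
    (hl : 0 < l) (hl1 : l < 1) (hA : 0 < A) : ∃ C : ℝ, 0 < C ∧
    ∀ {δ : ℝ} {S : Stress n m δ} {α Λ : ℝ} {U : Set (E n)} (V : Sys S α Λ U),
    0 ≤ δ → δ ≤ d0 n → V.LD (1 / 32) → ∀ {Q : Op n}, Pr n m Q → closedBall 0 4 ⊆ U →
    V.μ.real (ball 0 4) ≤ A →
    (∀ z ∈ V.μ.support, ‖z‖ < 4 → ‖(1 - Q) z‖ ≤ 1 / 8) →
    ∀ χ : E n → ℝ, ContDiff ℝ 1 χ → (∀ z, 0 ≤ χ z) → (∀ z, χ z ≤ 1) →
    (∀ z, ‖(1 - Q) z‖ ≤ 1 / 4 → χ z = 1) → (∀ z, 1 / 2 ≤ ‖(1 - Q) z‖ → χ z = 0) →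
    ∀ (a : E n), (∀ z ∈ V.μ.support, ‖z‖ < 4 → ‖(1 - Q) (z - a)‖ ≤ 1) →
    ∀ y ∈ V.μ.support, ‖y‖ < 1 →
    ‖(∫ z, χ z * Kr m η l ‖Q (z - y)‖ ∂V.μ)⁻¹ •
        (∫ z, (χ z * Kr m η l ‖Q (z - y)‖) • (1 - Q) (z - a) ∂V.μ) -
      (∫ z, χ z * Kr m η 1 ‖Q (z - y)‖ ∂V.μ)⁻¹ •
        (∫ z, (χ z * Kr m η 1 ‖Q (z - y)‖) • (1 - Q) (z - a) ∂V.μ)‖ ≤
      C * (δ * ∫ z in ball 0 4, ‖V.P z - Q‖ ∂V.μ + ∫ z in ball 0 4, ‖V.P z - Q‖ ^ 2 ∂V.μ
        + ∫ z in ball 0 4, ‖V.H z‖ ∂V.μ) := by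
  obtain ⟨C1, hC1, h1⟩ := second_scale_mass n m hm h l 1 hl hl1 le_rfl
  obtain ⟨C2, hC2, h2⟩ := second_scale_height n m hm h l 1 hl hl1 le_rfl
  have hc0 : 0 < 31 / 32 * om m * (1 / 2) ^ m := by
    have := om_pos (m := m)
    positivity
  refine ⟨(C1 + C2) / (31 / 32 * om m * (1 / 2) ^ m), by positivity, ?_⟩
  intro δ S α Λ U V hδ hδ' hLD Q hQ hU hmass hsl χ hχ hχ0 hχ1 hχa hχb a ha y hy hy1
  have hQy : ‖Q y‖ ≤ 2 := (hQ.norm_apply_le y).trans (by linarith)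
  have e1 := h1 V hδ hδ' hQ hU hsl χ hχ hχ0 hχ1 hχa hχb y hQy
  have e2 := h2 V hδ hδ' hQ hU hsl χ hχ hχ0 hχ1 hχa hχb a ha y hQy
  have hc := hχ.continuous
  have i1 := W11_int (m := m) h (Q := Q) hc hχ0 hχ1 y one_pos V.μ
  have i2 := W11_int (m := m) h (Q := Q) hc hχ0 hχ1 y hl V.μ
  have v1 := W11_vint h hQ hc hχ0 hχ1 hχb hy1 one_pos le_rfl a V.μ
  have v2 := W11_vint h hQ hc hχ0 hχ1 hχb hy1 hl hl1.le a V.μ
  refine W11_alg (A := ∫ z, W11_w m η Q χ y l z ∂V.μ) (B := ∫ z, W11_w m η Q χ y 1 z ∂V.μ)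
    (v := ∫ z, (W11_w m η Q χ y l z) • (1 - Q) (z - a) ∂V.μ)
    (u := ∫ z, (W11_w m η Q χ y 1 z) • (1 - Q) (z - a) ∂V.μ) hc0
    (W11_low h V hLD hQ hU hsl hc hχ0 hχ1 hχa hy hy1 hl hl1.le)
    (W11_low h V hLD hQ hU hsl hc hχ0 hχ1 hχa hy hy1 one_pos le_rfl)
    (W11_up h V hQ hc hχ0 hχ1 hχb ha hy1 one_pos le_rfl) ?_ ?_
  · refine le_trans (le_of_eq ?_) e1
    rw [← integral_sub i1 i2]
    congr 1
    refine integral_congr_ae (Filter.Eventually.of_forall fun z => ?_)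
    simp only [W11_w]
    ring
  · set F := (∫ z, (W11_w m η Q χ y 1 z) • (1 - Q) (z - a) ∂V.μ) -
      ∫ z, (W11_w m η Q χ y l z) • (1 - Q) (z - a) ∂V.μ with hF
    rcases eq_or_ne F 0 with hF0 | hF0
    · rw [hF0, norm_zero]
      exact (abs_nonneg _).trans (e2 0 (by rw [norm_zero]; exact zero_le_one))
    · have hFn : 0 < ‖F‖ := norm_pos_iff.2 hF0
      have e3 := e2 (‖F‖⁻¹ • F) (by
        rw [norm_smul, norm_inv, norm_norm, inv_mul_cancel₀ hFn.ne'])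
      refine le_trans (le_trans (le_of_eq ?_) (le_abs_self _)) e3
      have g1 : inner ℝ (‖F‖⁻¹ • F) F = ‖F‖ := by
        rw [real_inner_smul_left, real_inner_self_eq_norm_sq]
        field_simp
      calc ‖F‖ = inner ℝ (‖F‖⁻¹ • F) F := g1.symm
        _ = inner ℝ (‖F‖⁻¹ • F) (∫ z, ((W11_w m η Q χ y 1 z) • (1 - Q) (z - a) -
              (W11_w m η Q χ y l z) • (1 - Q) (z - a)) ∂V.μ) := by
            rw [integral_sub v1 v2]
        _ = ∫ z, inner ℝ (‖F‖⁻¹ • F) ((W11_w m η Q χ y 1 z) • (1 - Q) (z - a) -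
              (W11_w m η Q χ y l z) • (1 - Q) (z - a)) ∂V.μ :=
            (integral_inner (v1.sub v2) _).symm
        _ = _ := by
            refine integral_congr_ae (Filter.Eventually.of_forall fun z => ?_)
            simp only [W11_w]
            rw [← sub_smul, real_inner_smul_right]
            ring

end Allard
end
end
end
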