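import Pool.Agent.Lib.MP_5932b0_an.AR.D2
import Pool.Agent.Lib.MP_5932b0_an.AR.B1
import Pool.Agent.Lib.MP_5932b0_an.AR.W7

section

/-!
# C6: weak monotonicity

One step: `MI_low` (drop the gain), `‖P-Q‖ ≤ 2`, `Nn_int_le`, `curv_le`:
`I s ≤ I r + 240 δ² 2 (2 r/s)^m I r + 2 (r/s)^m Λ r^α (1 + 2 I r)`; take `c = 1000 * 2^m`.

Iteration `wm_iter`: go from `s` up to `r` by factors `2` (last factor in `(1,2]`), at most `k`
steps; the radii used are `≤ r, r, r/2, r/4, ...`, so `∑ Λ r_i^α ≤ Λ r^α (1 + 1/(1-2^{-α})) ≤ 2 lam r^α`.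
`∏ (1+x_i) ≤ exp (∑ x_i)`.
-/

noncomputable section

open MeasureTheory Metric Set Filter Topology

namespace Allard

theorem wm_step (m : ℕ) (hm : 1 ≤ m) : ∃ c : ℝ, 0 < c ∧
    ∀ {n : ℕ} {δ : ℝ} {S : Stress n m δ} {α Λ : ℝ} {U : Set (E n)} {τ : ℝ} {η : ℝ → ℝ}
    (V : Sys S α Λ U), Ker τ η → 0 ≤ δ → δ ≤ d0 n → 0 ≤ Λ →
    ∀ {Q : Op n}, Pr n m Q → ∀ (y : E n) {s r : ℝ}, 0 < s → s < r → r ≤ 2 * s →
    closedBall y (r / (1 - 3 * δ)) ⊆ U →
    V.I η Q y s ≤ (1 + c * (δ ^ 2 + Λ * r ^ α)) * V.I η Q y r + c * (Λ * r ^ α) := by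
  refine ⟨1000 * 4 ^ m, by positivity, ?_⟩
  intro n δ S α Λ U τ η V h hδ hδ' hΛ Q hQ y s r hs hr hr2 hU
  have hr0 : 0 < r := hs.trans hr
  have h1 := V.MI_low h hm hδ hδ' hQ y hs hr hU
  have h2 := V.curv_le h hm hδ hδ' hΛ hQ y hs hr
  have h3 := V.Nn_int_le h hm hδ hδ' hQ y hs hr
  have hI := V.I_nonneg h hδ hδ' Q y hr0
  have hΛr : 0 ≤ Λ * r ^ α := mul_nonneg hΛ (Real.rpow_nonneg hr0.le _)
  have hN : ∀ z, 0 ≤ Nn m η s r (gn (S.G Q) (z - y)) := fun z =>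
    Nn_nonneg h hm hs hr (Real.sqrt_nonneg _)
  have hNm : Measurable fun z : E n => Nn m η s r (gn (S.G Q) (z - y)) :=
    (continuous_Nn h hm hs hr).measurable.comp
      ((gn_continuous _).comp (continuous_id.sub continuous_const)).measurable
  have hNb : ∀ z, |Nn m η s r (gn (S.G Q) (z - y))| ≤ (2 / s) ^ m := fun z => by
    rw [abs_of_nonneg (hN z)]
    refine (Nn_le' h hm hs hr (Real.sqrt_nonneg _)).trans ?_
    exact mul_le_of_le_one_right (by positivity) (h.le_one _)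
  have hPQ : ∀ z, ‖V.P z - Q‖ ^ 2 ≤ 4 := fun z => by
    have h1 := (V.hP z).norm_sub_le hQ
    have h2 := norm_nonneg (V.P z - Q)
    nlinarith
  have h4 : ∫ z, Nn m η s r (gn (S.G Q) (z - y)) * ‖V.P z - Q‖ ^ 2 ∂V.μ ≤
      4 * ∫ z, Nn m η s r (gn (S.G Q) (z - y)) ∂V.μ := by
    rw [← integral_const_mul]
    refine integral_mono ?_ ((V.integrable_bdd hNm hNb).const_mul _) fun z => ?_
    · refine V.integrable_bdd (hNm.mul ((V.mP.sub measurable_const).norm.pow_const 2))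
        (c := (2 / s) ^ m * 4) fun z => ?_
      rw [abs_mul]
      refine mul_le_mul (hNb z) ?_ (abs_nonneg _) (by positivity)
      rw [abs_of_nonneg (by positivity)]
      exact hPQ z
    · have := mul_le_mul_of_nonneg_left (hPQ z) (hN z)
      simp only
      linarith
  have h5 : 0 ≤ ∫ z, Nn m η s r (gn (S.G Q) (z - y)) * ga (V.P z) (z - y) ∂V.μ :=
    integral_nonneg fun z => mul_nonneg (hN z) (ga_nonneg _)
  have h6 : (2 * r / s) ^ m ≤ 4 ^ m := by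
    apply pow_le_pow_left₀ (by positivity)
    rw [div_le_iff₀ hs]
    linarith
  have h7 : (r / s) ^ m ≤ 4 ^ m := by
    apply pow_le_pow_left₀ (by positivity)
    rw [div_le_iff₀ hs]
    linarith
  have h4m : (0 : ℝ) < 4 ^ m := by positivity
  have h8 : 60 * δ ^ 2 * ∫ z, Nn m η s r (gn (S.G Q) (z - y)) * ‖V.P z - Q‖ ^ 2 ∂V.μ ≤
      480 * 4 ^ m * δ ^ 2 * V.I η Q y r := by
    have h9 : ∫ z, Nn m η s r (gn (S.G Q) (z - y)) ∂V.μ ≤ 2 * 4 ^ m * V.I η Q y r :=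
      h3.trans (by gcongr)
    calc 60 * δ ^ 2 * ∫ z, Nn m η s r (gn (S.G Q) (z - y)) * ‖V.P z - Q‖ ^ 2 ∂V.μ
        ≤ 60 * δ ^ 2 * (4 * (2 * 4 ^ m * V.I η Q y r)) := by
          apply mul_le_mul_of_nonneg_left _ (by positivity)
          linarith
      _ = 480 * 4 ^ m * δ ^ 2 * V.I η Q y r := by ring
  have h9 : ∫ z, |Xi m η s r (gn (S.G Q) (z - y))| * ‖z - y‖ * ‖V.H z‖ ∂V.μ ≤
      2 * 4 ^ m * (Λ * r ^ α) * (1 + 2 * V.I η Q y r) := h2.trans (by gcongr)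
  have h10 : 0 ≤ 4 ^ m * δ ^ 2 * V.I η Q y r := by positivity
  have h11 : 0 ≤ 4 ^ m * (Λ * r ^ α) := by positivity
  have h12 : 0 ≤ 4 ^ m * (Λ * r ^ α) * V.I η Q y r := by positivity
  nlinarith

theorem wm_iter (m : ℕ) (hm : 1 ≤ m) : ∃ c : ℝ, 0 < c ∧
    ∀ {n : ℕ} {δ : ℝ} {S : Stress n m δ} {α Λ : ℝ} {U : Set (E n)} {τ : ℝ} {η : ℝ → ℝ}
    (V : Sys S α Λ U), Ker τ η → 0 ≤ δ → δ ≤ d0 n → 0 ≤ Λ → 0 < α → α < 1 →
    ∀ {Q : Op n}, Pr n m Q → ∀ (y : E n) (k : ℕ) {s r : ℝ}, 0 < s → s ≤ r → r ≤ 2 ^ k * s →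
    closedBall y (r / (1 - 3 * δ)) ⊆ U →
    V.I η Q y s ≤ Real.exp (c * (δ ^ 2 * k + lam α Λ * r ^ α)) *
      (V.I η Q y r + c * (lam α Λ * r ^ α)) := by
  obtain ⟨c, hc, H⟩ := wm_step m hm
  refine ⟨c, hc, ?_⟩
  intro n δ S α Λ U τ η V h hδ hδ' hΛ hα hα1 Q hQ y k
  have h2a : (2 : ℝ) ^ (-α) < 1 := Real.rpow_lt_one_of_one_lt_of_neg (by norm_num) (by linarith)
  have h2a0 : (0 : ℝ) < 2 ^ (-α) := Real.rpow_pos_of_pos (by norm_num) _
  have hlamΛ : Λ ≤ lam α Λ := by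
    unfold lam
    rw [le_div_iff₀ (by linarith)]
    nlinarith
  have hlam0 : 0 ≤ lam α Λ := hΛ.trans hlamΛ
  have hlameq : lam α Λ * 2 ^ (-α) + Λ = lam α Λ := by
    have h1 : lam α Λ * (1 - 2 ^ (-α)) = Λ := by
      unfold lam
      exact div_mul_cancel₀ _ (by linarith)
    linarith
  have hd := d0_le (n := n)
  -- one step in exponential form
  have step : ∀ {s r : ℝ}, 0 < s → s < r → r ≤ 2 * s → closedBall y (r / (1 - 3 * δ)) ⊆ U →
      V.I η Q y s ≤ Real.exp (c * (δ ^ 2 + Λ * r ^ α)) * (V.I η Q y r + c * (Λ * r ^ α)) := by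
    intro s r hs hr hr2 hU
    have hr0 : 0 < r := hs.trans hr
    have hI := V.I_nonneg h hδ hδ' Q y hr0
    have hΛr : 0 ≤ Λ * r ^ α := mul_nonneg hΛ (Real.rpow_nonneg hr0.le _)
    have h1 := H V h hδ hδ' hΛ hQ y hs hr hr2 hU
    have hx : 0 ≤ c * (δ ^ 2 + Λ * r ^ α) := by positivity
    have h2 := Real.add_one_le_exp (c * (δ ^ 2 + Λ * r ^ α))
    have h3 : 1 ≤ Real.exp (c * (δ ^ 2 + Λ * r ^ α)) := Real.one_le_exp hx
    have h4 : 0 ≤ c * (Λ * r ^ α) := by positivity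
    have h5 := mul_le_mul_of_nonneg_right h2 hI
    have h6 := mul_le_mul_of_nonneg_right h3 h4
    linarith
  induction k with
  | zero =>
    intro s r hs hsr hr hU
    have hr' : r ≤ s := by simpa using hr
    have e : s = r := le_antisymm hsr hr'
    subst e
    have hI := V.I_nonneg h hδ hδ' Q y hs
    have h1 : 0 ≤ lam α Λ * s ^ α := mul_nonneg hlam0 (Real.rpow_nonneg hs.le _)
    have h3 : 1 ≤ Real.exp (c * (δ ^ 2 * ((0 : ℕ) : ℝ) + lam α Λ * s ^ α)) := by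
      apply Real.one_le_exp
      positivity
    have h4 : 0 ≤ c * (lam α Λ * s ^ α) := by positivity
    have h5 : V.I η Q y s ≤ V.I η Q y s + c * (lam α Λ * s ^ α) := by linarith
    refine h5.trans (le_mul_of_one_le_left (by linarith) h3)
  | succ k ih =>
    intro s r hs hsr hr hU
    have hr0 : 0 < r := hs.trans_le hsr
    have hI := V.I_nonneg h hδ hδ' Q y hr0
    have hra : 0 ≤ r ^ α := Real.rpow_nonneg hr0.le _
    have hΛr : 0 ≤ Λ * r ^ α := mul_nonneg hΛ hra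
    have hlr : 0 ≤ lam α Λ * r ^ α := mul_nonneg hlam0 hra
    have hΛl : Λ * r ^ α ≤ lam α Λ * r ^ α := mul_le_mul_of_nonneg_right hlamΛ hra
    have hk : (0 : ℝ) ≤ k := Nat.cast_nonneg k
    have hcast : ((k + 1 : ℕ) : ℝ) = k + 1 := by push_cast; ring
    rw [hcast]
    rcases hsr.lt_or_eq with hlt | heq
    · rcases le_or_gt r (2 * s) with hr2 | hr2
      · refine (step hs hlt hr2 hU).trans ?_
        apply mul_le_mul
        · apply Real.exp_le_exp.mpr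
          apply mul_le_mul_of_nonneg_left _ hc.le
          nlinarith [sq_nonneg δ, mul_nonneg (sq_nonneg δ) hk]
        · have := mul_le_mul_of_nonneg_left hΛl hc.le
          linarith
        · positivity
        · positivity
      · have hU' : closedBall y (r / 2 / (1 - 3 * δ)) ⊆ U := by
          refine (closedBall_subset_closedBall ?_).trans hU
          apply div_le_div_of_nonneg_right _ (by linarith)
          linarith
        have h1 := ih hs (show s ≤ r / 2 by linarith) (by rw [pow_succ] at hr; linarith) hU'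
        have h2 := step (s := r / 2) (r := r) (by linarith) (by linarith) (by linarith) hU
        have e1 : (r / 2) ^ α = 2 ^ (-α) * r ^ α := by
          rw [Real.div_rpow hr0.le (by norm_num), Real.rpow_neg (by norm_num)]
          field_simp
        have hX : 0 ≤ lam α Λ * (r / 2) ^ α := by
          apply mul_nonneg hlam0
          exact Real.rpow_nonneg (by linarith) _
        have e2 : lam α Λ * (r / 2) ^ α + Λ * r ^ α = lam α Λ * r ^ α := by
          rw [e1]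
          linear_combination (r ^ α) * hlameq
        have h3 : 1 ≤ Real.exp (c * (δ ^ 2 + Λ * r ^ α)) := by
          apply Real.one_le_exp
          positivity
        have h4 : 0 ≤ c * (lam α Λ * (r / 2) ^ α) := by positivity
        calc V.I η Q y s ≤ Real.exp (c * (δ ^ 2 * k + lam α Λ * (r / 2) ^ α)) *
              (V.I η Q y (r / 2) + c * (lam α Λ * (r / 2) ^ α)) := h1
          _ ≤ Real.exp (c * (δ ^ 2 * k + lam α Λ * (r / 2) ^ α)) *
              (Real.exp (c * (δ ^ 2 + Λ * r ^ α)) *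
                (V.I η Q y r + c * (Λ * r ^ α) + c * (lam α Λ * (r / 2) ^ α))) := by
              apply mul_le_mul_of_nonneg_left _ (Real.exp_pos _).le
              have h5 := mul_le_mul_of_nonneg_right h3 h4
              linarith
          _ = Real.exp (c * (δ ^ 2 * (k + 1) + (lam α Λ * (r / 2) ^ α + Λ * r ^ α))) *
              (V.I η Q y r + c * (lam α Λ * (r / 2) ^ α + Λ * r ^ α)) := by
              rw [← mul_assoc, ← Real.exp_add]
              congr 1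
              · congr 1
                ring
              · ring
          _ = _ := by rw [e2]
    · subst heq
      have h3 : 1 ≤ Real.exp (c * (δ ^ 2 * (k + 1) + lam α Λ * s ^ α)) := by
        apply Real.one_le_exp
        positivity
      have h4 : 0 ≤ c * (lam α Λ * s ^ α) := by positivity
      have h5 : V.I η Q y s ≤ V.I η Q y s + c * (lam α Λ * s ^ α) := by linarith
      exact h5.trans (le_mul_of_one_le_left (by linarith) h3)

end Allard
end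
end

section

section

/-!
# W6: a mass-bad scale costs tilt

Kernel `η` with `τ` so small that `(1-τ)^m ≥ 24/25`, `s' = b 2^{-(j+1)} (1+3δ)/(1-τ)`, `r' = 2b(1-3δ)` (`s' < r'`).
`le_I`: `I s' ≥ (1-δ)((1-τ)/(1+3δ))^m (3/2) om ≥ (7/5) om`; `I_le`: `I r' ≤ (1+δ)(1-3δ)^{-m} (5/4) om ≤ (13/10) om`
for `δ ≤ δ₁(m)`.
`MI_low` (drop the gain): `om/10 ≤ I s' - I r' ≤ 60 δ² ∫ N ‖P-Q‖² + ∫ |Xi| ‖z-y‖ ‖H‖`.
`N ≤ t^{-m}`, `N ≤ (2/s')^m`: for `‖z-y‖ ∈ [b2^{-i-1}, b2^{-i})`, `0 ≤ i ≤ j`: `N ≤ 3^m (b 2^{-i})^{-m}`, for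
`‖z - y‖ ∈ [b, 2b)`: `N ≤ 3^m b^{-m}`; for `‖z-y‖ < b 2^{-(j+1)}`: `N ≤ (2/s')^m ≤ 4^m (b 2^{-j})^{-m}`.
So `∫ N‖P-Q‖² ≤ 4^m * (2 lq(b2^{-j}) + ∑_{i ≤ j} lq (b 2^{-i}) + 2^m lq (2b))`.
Same decomposition for the curvature term: `|Xi|‖z-y‖ ≤ C (b2^{-i})^{-m} (b2^{-i})`, so it is
`≤ C (∑_{i≤j} hh (b2^{-i}) + hh (2b))`, and `hh_le` with the mass bounds gives
`hh (b 2^{-i}) ≤ Λ b^α 2^{-iα} (1 + (3/2) om) ` : sum `≤ C b lam ≤ om/20` for small `lam`.
-/

noncomputable section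

open MeasureTheory Metric Set Filter Topology

namespace Allard

private lemma w6_dy {B v : ℝ} (hv : v < B) (K : ℕ) :
    ∃ k ∈ Finset.range (K + 1), v < B * (1 / 2) ^ k ∧ (B * (1 / 2) ^ k / 2 ≤ v ∨ k = K) := by
  induction K with
  | zero => exact ⟨0, by simp, by simpa using hv, Or.inr rfl⟩
  | succ K ih =>
    obtain ⟨k, hk, h1, h2⟩ := ih
    rcases le_or_gt (B * (1 / 2) ^ k / 2) v with h3 | h3
    · refine ⟨k, ?_, h1, Or.inl h3⟩
      rw [Finset.mem_range] at hk ⊢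
      omega
    · rcases h2 with h2 | h2
      · exact absurd h2 (not_le.2 h3)
      · subst h2
        refine ⟨k + 1, by simp, ?_, Or.inr rfl⟩
        have e : B * (1 / 2) ^ (k + 1) = B * (1 / 2) ^ k / 2 := by
          rw [pow_succ]
          ring
        rw [e]
        exact h3

private lemma w6_sum {n : ℕ} {μ : Measure (E n)} {a w : E n → ℝ} (hw : ∀ z, 0 ≤ w z)
    (hiw : Integrable w μ) (hia : Integrable (fun z => a z * w z) μ) (y : E n) (K : ℕ)
    (c ρ : ℕ → ℝ)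
    (hpt : ∀ z, a z ≤ ∑ k ∈ Finset.range K, (ball y (ρ k)).indicator (fun _ => c k) z) :
    ∫ z, a z * w z ∂μ ≤ ∑ k ∈ Finset.range K, c k * ∫ z in ball y (ρ k), w z ∂μ := by
  have e1 : ∀ k, c k * ∫ z in ball y (ρ k), w z ∂μ =
      ∫ z, (ball y (ρ k)).indicator (fun _ => c k) z * w z ∂μ := by
    intro k
    rw [← integral_const_mul, ← integral_indicator measurableSet_ball]
    refine integral_congr_ae (Eventually.of_forall fun z => ?_)
    simp only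
    by_cases hz : z ∈ ball y (ρ k)
    · rw [indicator_of_mem hz, indicator_of_mem hz]
    · rw [indicator_of_notMem hz, indicator_of_notMem hz, zero_mul]
  have i1 : ∀ k, Integrable (fun z => (ball y (ρ k)).indicator (fun _ => c k) z * w z) μ := by
    intro k
    have e2 : (fun z => (ball y (ρ k)).indicator (fun _ => c k) z * w z) =
        (ball y (ρ k)).indicator (fun z => c k * w z) := by
      funext z
      by_cases hz : z ∈ ball y (ρ k)
      · rw [indicator_of_mem hz, indicator_of_mem hz]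
      · rw [indicator_of_notMem hz, indicator_of_notMem hz, zero_mul]
    rw [e2]
    exact (hiw.const_mul _).indicator measurableSet_ball
  simp only [e1]
  rw [← integral_finsetSum _ fun k _ => i1 k]
  refine integral_mono hia (integrable_finsetSum _ fun k _ => i1 k) fun z => ?_
  simp only
  rw [← Finset.sum_mul]
  exact mul_le_mul_of_nonneg_right (hpt z) (hw z)

private lemma w6_ind {n : ℕ} (y z : E n) (K k : ℕ) (c ρ : ℕ → ℝ) (hc : ∀ k, 0 ≤ c k)
    (hk : k ∈ Finset.range K) (hz : ‖z - y‖ < ρ k) :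
    c k ≤ ∑ k ∈ Finset.range K, (ball y (ρ k)).indicator (fun _ => c k) z := by
  have h1 : c k = (ball y (ρ k)).indicator (fun _ => c k) z := by
    rw [indicator_of_mem]
    rwa [mem_ball, dist_eq_norm]
  rw [h1]
  exact Finset.single_le_sum (f := fun k => (ball y (ρ k)).indicator (fun _ => c k) z)
    (fun i _ => indicator_nonneg (fun _ _ => hc i) z) hk

theorem pinch (n m : ℕ) (hm : 1 ≤ m) (b : ℝ) (hb : 1 ≤ b) : ∃ C δ₁ l₁ : ℝ, 0 < C ∧ 0 < δ₁ ∧
    δ₁ ≤ d0 n ∧ 0 < l₁ ∧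
    ∀ {δ : ℝ} {S : Stress n m δ} {α Λ : ℝ} {U : Set (E n)} (V : Sys S α Λ U),
    0 ≤ δ → δ ≤ δ₁ → 0 < α → α < 1 → 0 ≤ Λ → lam α Λ ≤ l₁ → ∀ {Q : Op n}, Pr n m Q →
    ∀ (y : E n) (j : ℕ), closedBall y (2 * b) ⊆ U →
    V.μ.real (ball y (2 * b)) ≤ 5 / 4 * om m * (2 * b) ^ m →
    (∀ i ≤ j, V.μ.real (ball y (b * (1 / 2) ^ i)) ≤ 3 / 2 * om m * (b * (1 / 2) ^ i) ^ m) →
    3 / 2 * om m * (b * (1 / 2) ^ (j + 1)) ^ m < V.μ.real (ball y (b * (1 / 2) ^ (j + 1))) →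
    1 ≤ C * δ ^ 2 * (V.lq Q (2 * b) y +
      ∑ i ∈ Finset.range (j + 1), V.lq Q (b * (1 / 2) ^ i) y) := by
  have hom : 0 < om m := om_pos
  have hb0 : 0 < b := by linarith
  have hm1 : (1 : ℝ) ≤ m := by exact_mod_cast hm
  have hm0 : (0 : ℝ) < m := by linarith
  set τ : ℝ := 1 / (100 * m) with hτ
  have hτ0 : 0 < τ := by positivity
  have hτm : m * τ = 1 / 100 := by
    rw [hτ]
    field_simp
  have hτ1 : τ ≤ 1 / 100 := by
    rw [← hτm]
    nlinarith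
  obtain ⟨η, h⟩ := exists_ker τ hτ0 (by linarith)
  refine ⟨1200 * 4 ^ m / om m, min (d0 n) (1 / (1000 * m)),
    om m / (20 * (4 ^ m * (3 * b * (1 + 3 / 2 * om m)))), by positivity,
    lt_min d0_pos (by positivity), min_le_left _ _, by positivity, ?_⟩
  intro δ S α Λ U V hδ hδ' hα hα' hΛ hlam Q hQ y j hU hM0 hM1 hM2
  have hδ0 : δ ≤ d0 n := hδ'.trans (min_le_left _ _)
  have hδm : m * δ ≤ 1 / 1000 := by
    have h1 : δ ≤ 1 / (1000 * m) := hδ'.trans (min_le_right _ _)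
    rw [le_div_iff₀ (by positivity)] at h1
    linarith
  have hδ1 : δ ≤ 1 / 1000 := by nlinarith only [hτ0, hτm, hτ1, hδm]
  set σ : ℝ := b * (1 / 2) ^ (j + 1) with hσ
  have hσ0 : 0 < σ := by positivity
  have hσb : σ ≤ b / 2 := by
    rw [hσ, pow_succ]
    have h1 : ((1 : ℝ) / 2) ^ j ≤ 1 := pow_le_one₀ (by norm_num) (by norm_num)
    nlinarith only [hb0, h1]
  have h1τ : 0 < 1 - τ := by linarith
  set s : ℝ := σ * (1 + 3 * δ) / (1 - τ) with hs
  set r : ℝ := 2 * b * (1 - 3 * δ) with hr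
  clear_value r s σ τ
  have hs0 : 0 < s := by
    rw [hs]
    positivity
  have h3δ : 0 < 1 - 3 * δ := by linarith
  have hr0 : 0 < r := by
    rw [hr]
    positivity
  have hσs : σ ≤ s := by
    rw [hs, le_div_iff₀ h1τ]
    nlinarith only [hτ0, hδ, hσ0]
  have hsr : s < r := by
    rw [hs, hr, div_lt_iff₀ h1τ]
    have h1 : σ * (1 + 3 * δ) ≤ b / 2 * (1 + 3 / 1000) :=
      mul_le_mul hσb (by linarith only [hδ1]) (by linarith only [hδ]) (by linarith only [hσ0, hσb])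
    have h2 : 2 * b * (997 / 1000) * (99 / 100) ≤ 2 * b * (1 - 3 * δ) * (1 - τ) := by
      gcongr
      · linarith only [hδ1]
      · linarith only [hτ1]
    linarith only [hσ0, hσb, h1, h2]
  -- the two masses
  have hIs : 7 / 5 * om m ≤ V.I η Q y s := by
    have h1 := V.le_I h hδ hδ0 hQ y hs0
    have e1 : (1 - τ) * s / (1 + 3 * δ) = σ := by
      rw [hs]
      field_simp
    rw [e1] at h1
    refine le_trans ?_ h1
    have h2 : (s ^ m)⁻¹ * (3 / 2 * om m * σ ^ m) ≤ (s ^ m)⁻¹ * V.μ.real (ball y σ) :=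
      mul_le_mul_of_nonneg_left hM2.le (by positivity)
    have e2 : (s ^ m)⁻¹ * (3 / 2 * om m * σ ^ m) = 3 / 2 * om m * (σ / s) ^ m := by
      rw [div_pow]
      ring
    have e3 : σ / s = (1 - τ) / (1 + 3 * δ) := by
      rw [hs]
      field_simp
    have h3 : (1 - τ) * (1 - 3 * δ) ≤ (1 - τ) / (1 + 3 * δ) := by
      rw [le_div_iff₀ (by linarith only [hδ])]
      linarith only [mul_nonneg h1τ.le (mul_nonneg hδ hδ)]
    have h4 : ((1 - τ) * (1 - 3 * δ)) ^ m ≤ (σ / s) ^ m := by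
      rw [e3]
      exact pow_le_pow_left₀ (by positivity) h3 m
    have h5 : 99 / 100 ≤ (1 - τ) ^ m := by
      have := one_add_mul_le_pow (a := -τ) (by linarith only [h1τ]) m
      have e : 1 + -τ = 1 - τ := by ring
      rw [e] at this
      linarith only [hτm, this]
    have h6 : 997 / 1000 ≤ (1 - 3 * δ) ^ m := by
      have := one_add_mul_le_pow (a := -(3 * δ)) (by linarith only [h3δ]) m
      have e : 1 + -(3 * δ) = 1 - 3 * δ := by ring
      rw [e] at this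
      linarith only [hδm, this]
    have h7 : 99 / 100 * (997 / 1000) ≤ (σ / s) ^ m := by
      refine le_trans ?_ h4
      rw [mul_pow]
      exact mul_le_mul h5 h6 (by norm_num) (by positivity)
    rw [e2] at h2
    have h8 : 3 / 2 * om m * (99 / 100 * (997 / 1000)) ≤ 3 / 2 * om m * (σ / s) ^ m :=
      mul_le_mul_of_nonneg_left h7 (by positivity)
    have h9 : (999 / 1000 : ℝ) * (3 / 2 * om m * (99 / 100 * (997 / 1000))) ≤
        (1 - δ) * ((s ^ m)⁻¹ * V.μ.real (ball y σ)) :=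
      mul_le_mul (by linarith only [hδ1]) (h8.trans h2) (by positivity) (by linarith only [h3δ])
    refine le_trans ?_ h9
    linarith only [hom]
  have hIr : V.I η Q y r ≤ 13 / 10 * om m := by
    have h1 := V.I_le h hδ hδ0 hQ y hr0
    have e1 : r / (1 - 3 * δ) = 2 * b := by
      rw [hr]
      field_simp
    rw [e1] at h1
    refine h1.trans ?_
    have h2 : (r ^ m)⁻¹ * V.μ.real (ball y (2 * b)) ≤ (r ^ m)⁻¹ * (5 / 4 * om m * (2 * b) ^ m) :=
      mul_le_mul_of_nonneg_left hM0 (by positivity)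
    have h6 : 997 / 1000 ≤ (1 - 3 * δ) ^ m := by
      have := one_add_mul_le_pow (a := -(3 * δ)) (by linarith only [h3δ]) m
      have e : 1 + -(3 * δ) = 1 - 3 * δ := by ring
      rw [e] at this
      linarith only [hδm, this]
    have h7 : (r ^ m)⁻¹ * (5 / 4 * om m * (2 * b) ^ m) ≤ 1255 / 1000 * om m := by
      rw [hr, mul_pow (2 * b), inv_mul_le_iff₀ (by positivity)]
      have h8 : (2 * b) ^ m * (997 / 1000) * (1255 / 1000 * om m) ≤
          (2 * b) ^ m * (1 - 3 * δ) ^ m * (1255 / 1000 * om m) := by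
        gcongr
      refine le_trans ?_ h8
      have h9 : 0 < (2 * b) ^ m * om m := by positivity
      linarith only [h9]
    calc (1 + δ) * ((r ^ m)⁻¹ * V.μ.real (ball y (2 * b)))
        ≤ (1001 / 1000) * (1255 / 1000 * om m) :=
          mul_le_mul (by linarith only [hδ1]) (h2.trans h7) (by positivity) (by norm_num)
      _ ≤ 13 / 10 * om m := by linarith only [hom]
  -- the scales
  set ρ : ℕ → ℝ := fun k => 2 * b * (1 / 2) ^ k with hρ
  have hρ0 : ∀ k, 0 < ρ k := fun k => by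
    rw [hρ]
    positivity
  have hρj : ρ (j + 1) = 2 * σ := by
    rw [hρ, hσ]
    simp only
    ring
  have hρs : ∀ i, ρ (i + 1) = b * (1 / 2) ^ i := by
    intro i
    rw [hρ]
    simp only
    rw [pow_succ]
    ring
  have hρz : ρ 0 = 2 * b := by
    rw [hρ]
    simp only
    rw [pow_zero, mul_one]
  have hcase : ∀ z, gn (S.G Q) (z - y) < r → ∃ k ∈ Finset.range (j + 1 + 1), ‖z - y‖ < ρ k ∧
      (ρ k / 2 ≤ ‖z - y‖ ∨ k = j + 1) := by
    intro z hz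
    have h1 := S.le_gn hδ hδ0 hQ (z - y)
    have h2 : ‖z - y‖ < 2 * b := by
      by_contra hc
      rw [not_lt] at hc
      have h3 : (1 - 3 * δ) * (2 * b) ≤ (1 - 3 * δ) * ‖z - y‖ :=
        mul_le_mul_of_nonneg_left hc h3δ.le
      rw [hr] at hz
      linarith only [hz, h1, h3]
    exact w6_dy h2 (j + 1)
  have hbig : ∀ (z : E n) (k : ℕ), ρ k / 2 ≤ ‖z - y‖ → 0 < gn (S.G Q) (z - y) ∧
      (gn (S.G Q) (z - y) ^ m)⁻¹ ≤ 4 ^ m * (ρ k ^ m)⁻¹ := by
    intro z k hk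
    have h1 := S.le_gn hδ hδ0 hQ (z - y)
    have h2 : ρ k / 4 ≤ gn (S.G Q) (z - y) := by
      have := hρ0 k
      nlinarith only [hδ1, hk, h1, this]
    have h3 : 0 < gn (S.G Q) (z - y) := by
      have := hρ0 k
      linarith only [h2, this]
    refine ⟨h3, ?_⟩
    have h4 : (ρ k / 4) ^ m ≤ gn (S.G Q) (z - y) ^ m :=
      pow_le_pow_left₀ (by have := hρ0 k; positivity) h2 m
    have h5 : 0 < (ρ k / 4) ^ m := by
      have := hρ0 k
      positivity
    calc (gn (S.G Q) (z - y) ^ m)⁻¹ ≤ ((ρ k / 4) ^ m)⁻¹ := inv_anti₀ h5 h4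
      _ = 4 ^ m * (ρ k ^ m)⁻¹ := by
        rw [div_pow, inv_div, div_eq_mul_inv]
  have hsm : (s ^ m)⁻¹ ≤ 2 ^ m * (ρ (j + 1) ^ m)⁻¹ := by
    rw [hρj, mul_pow, mul_inv, ← mul_assoc, mul_inv_cancel₀ (by positivity), one_mul]
    exact inv_anti₀ (by positivity) (pow_le_pow_left₀ hσ0.le hσs m)
  have hN : ∀ z, Nn m η s r (gn (S.G Q) (z - y)) ≤
      ∑ k ∈ Finset.range (j + 1 + 1), (ball y (ρ k)).indicator
        (fun _ => 4 ^ m * (ρ k ^ m)⁻¹) z := by
    intro z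
    have hc : ∀ k, 0 ≤ 4 ^ m * (ρ k ^ m)⁻¹ := fun k => by
      have := hρ0 k
      positivity
    rcases le_or_gt r (gn (S.G Q) (z - y)) with h1 | h1
    · rw [Nn_zero h hm hs0 hsr h1]
      exact Finset.sum_nonneg fun i _ => indicator_nonneg (fun _ _ => hc i) z
    · obtain ⟨k, hk, h2, h3⟩ := hcase z h1
      refine le_trans ?_ (w6_ind y z (j + 1 + 1) k (fun k => 4 ^ m * (ρ k ^ m)⁻¹) ρ hc hk h2)
      rcases h3 with h3 | h3
      · obtain ⟨h4, h5⟩ := hbig z k h3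
        refine (Nn_le h hm hs0 hsr h4).trans (le_trans ?_ h5)
        exact mul_le_of_le_one_right (by positivity) (h.le_one _)
      · refine (Nn_le' h hm hs0 hsr (gn_nonneg' _ _)).trans ?_
        refine (mul_le_of_le_one_right (by positivity) (h.le_one _)).trans ?_
        rw [div_pow, div_eq_mul_inv, h3]
        have e : (4 : ℝ) ^ m = 2 ^ m * 2 ^ m := by
          rw [← mul_pow]
          norm_num
        rw [e, mul_assoc]
        exact mul_le_mul_of_nonneg_left hsm (by positivity)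
  have hX : ∀ z, |Xi m η s r (gn (S.G Q) (z - y))| * ‖z - y‖ ≤
      ∑ k ∈ Finset.range (j + 1 + 1), (ball y (ρ k)).indicator
        (fun _ => 4 ^ m * (ρ k * (ρ k ^ m)⁻¹)) z := by
    intro z
    have hc : ∀ k, 0 ≤ 4 ^ m * (ρ k * (ρ k ^ m)⁻¹) := fun k => by
      have := hρ0 k
      positivity
    rcases le_or_gt r (gn (S.G Q) (z - y)) with h1 | h1
    · rw [Xi_zero h hm hs0 hsr h1, abs_zero, zero_mul]
      exact Finset.sum_nonneg fun i _ => indicator_nonneg (fun _ _ => hc i) z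
    · obtain ⟨k, hk, h2, h3⟩ := hcase z h1
      refine le_trans ?_ (w6_ind y z (j + 1 + 1) k (fun k => 4 ^ m * (ρ k * (ρ k ^ m)⁻¹)) ρ hc hk h2)
      have e1 : 4 ^ m * (ρ k * (ρ k ^ m)⁻¹) = 4 ^ m * (ρ k ^ m)⁻¹ * ρ k := by ring
      rw [e1]
      refine mul_le_mul ?_ h2.le (norm_nonneg _) (by have := hρ0 k; positivity)
      rcases h3 with h3 | h3
      · obtain ⟨h4, h5⟩ := hbig z k h3
        refine (abs_Xi_le' h hm hs0 hsr h4).trans (le_trans ?_ h5)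
        exact mul_le_of_le_one_right (by positivity) (h.le_one _)
      · refine (abs_Xi_le h hm hs0 hsr (gn_nonneg' _ _)).trans ?_
        refine (mul_le_of_le_one_right (by positivity) (h.le_one _)).trans ?_
        rw [h3]
        refine hsm.trans ?_
        refine mul_le_mul_of_nonneg_right ?_ (by have := hρ0 (j + 1); positivity)
        exact pow_le_pow_left₀ (by norm_num) (by norm_num) m
  have hgm : Measurable fun z : E n => gn (S.G Q) (z - y) :=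
    ((gn_continuous _).comp (continuous_id.sub continuous_const)).measurable
  have hNm : Measurable fun z : E n => Nn m η s r (gn (S.G Q) (z - y)) :=
    (continuous_Nn h hm hs0 hsr).measurable.comp hgm
  have hXm : Measurable fun z : E n => Xi m η s r (gn (S.G Q) (z - y)) :=
    (Xi_contDiff h hm hs0 hsr).continuous.measurable.comp hgm
  have hNb : ∀ z, |Nn m η s r (gn (S.G Q) (z - y))| ≤ (2 / s) ^ m := by
    intro z
    rw [abs_of_nonneg (Nn_nonneg h hm hs0 hsr (gn_nonneg' _ _))]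
    refine (Nn_le' h hm hs0 hsr (gn_nonneg' _ _)).trans ?_
    exact mul_le_of_le_one_right (by positivity) (h.le_one _)
  have hPQ : ∀ z, ‖V.P z - Q‖ ^ 2 ≤ 4 := by
    intro z
    have h1 := (V.hP z).norm_sub_le hQ
    have h2 := norm_nonneg (V.P z - Q)
    nlinarith only [h1, h2]
  have hPm : Measurable fun z => ‖V.P z - Q‖ ^ 2 :=
    ((V.mP.sub measurable_const).norm.pow_const 2)
  have iP : Integrable (fun z => ‖V.P z - Q‖ ^ 2) V.μ :=
    V.integrable_bdd hPm (c := 4) fun z => by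
      rw [abs_of_nonneg (by positivity)]
      exact hPQ z
  have iNP : Integrable (fun z => Nn m η s r (gn (S.G Q) (z - y)) * ‖V.P z - Q‖ ^ 2) V.μ := by
    refine V.integrable_bdd (hNm.mul hPm) (c := (2 / s) ^ m * 4) fun z => ?_
    rw [abs_mul]
    refine mul_le_mul (hNb z) ?_ (abs_nonneg _) (by positivity)
    rw [abs_of_nonneg (by positivity)]
    exact hPQ z
  -- the first integral
  have hJ1 : ∫ z, Nn m η s r (gn (S.G Q) (z - y)) * ‖V.P z - Q‖ ^ 2 ∂V.μ ≤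
      4 ^ m * (V.lq Q (2 * b) y + ∑ i ∈ Finset.range (j + 1), V.lq Q (b * (1 / 2) ^ i) y) := by
    refine (w6_sum (fun z => by positivity) iP iNP y (j + 1 + 1)
      (fun k => 4 ^ m * (ρ k ^ m)⁻¹) ρ hN).trans (le_of_eq ?_)
    rw [Finset.sum_range_succ', mul_add, add_comm, Finset.mul_sum]
    congr 1
    · rw [hρz]
      unfold Sys.lq
      ring
    · refine Finset.sum_congr rfl fun i _ => ?_
      rw [hρs]
      unfold Sys.lq
      ring
  -- the curvature term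
  have iX : Integrable (fun z => |Xi m η s r (gn (S.G Q) (z - y))| * ‖z - y‖ * ‖V.H z‖) V.μ := by
    set c := ∑ k ∈ Finset.range (j + 1 + 1), 4 ^ m * (ρ k * (ρ k ^ m)⁻¹) with hc
    refine (V.iH.norm.const_mul c).mono' ?_ ?_
    · exact ((hXm.abs.mul (measurable_id.sub measurable_const).norm).mul
        V.mH.norm).aestronglyMeasurable
    · filter_upwards with z
      rw [Real.norm_eq_abs, abs_of_nonneg (by positivity)]
      refine mul_le_mul_of_nonneg_right ((hX z).trans ?_) (norm_nonneg _)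
      refine Finset.sum_le_sum fun k _ => ?_
      exact indicator_le_self' (fun _ _ => by have := hρ0 k; positivity) z
  have hhb : ∀ k ∈ Finset.range (j + 1 + 1), V.hh (ρ k) y ≤
      Λ * (2 * b) * ((2 : ℝ) ^ (-α)) ^ k * (1 + 3 / 2 * om m) := by
    intro k hk
    have h1 := V.hh_le (hρ0 k) y
    refine h1.trans ?_
    have h2 : (ρ k ^ m)⁻¹ * V.μ.real (ball y (ρ k)) ≤ 3 / 2 * om m := by
      rw [inv_mul_le_iff₀ (by have := hρ0 k; positivity)]
      rcases k with _ | i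
      · rw [hρz]
        refine hM0.trans ?_
        have : 0 < om m * (2 * b) ^ m := by positivity
        linarith only [this]
      · rw [hρs]
        rw [Finset.mem_range] at hk
        refine (hM1 i (by omega)).trans (le_of_eq (by ring))
    have h3 : (ρ k) ^ α ≤ 2 * b * ((2 : ℝ) ^ (-α)) ^ k := by
      rw [hρ]
      simp only
      rw [Real.mul_rpow (by positivity) (by positivity)]
      refine mul_le_mul ?_ (le_of_eq ?_) (by positivity) (by positivity)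
      · calc (2 * b) ^ α ≤ (2 * b) ^ (1 : ℝ) :=
              Real.rpow_le_rpow_of_exponent_le (by linarith only [hb]) hα'.le
          _ = 2 * b := Real.rpow_one _
      · rw [← Real.rpow_natCast, ← Real.rpow_natCast, ← Real.rpow_mul (by norm_num),
          ← Real.rpow_mul (by norm_num), one_div, Real.inv_rpow (by norm_num),
          ← Real.rpow_neg (by norm_num)]
        congr 1
        ring
    calc Λ * ρ k ^ α * (1 + (ρ k ^ m)⁻¹ * V.μ.real (ball y (ρ k)))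
        ≤ Λ * (2 * b * ((2 : ℝ) ^ (-α)) ^ k) * (1 + 3 / 2 * om m) := by
          gcongr
      _ = _ := by ring
  have hq0 : 0 < (2 : ℝ) ^ (-α) := by positivity
  have hq1 : (2 : ℝ) ^ (-α) < 1 := Real.rpow_lt_one_of_one_lt_of_neg (by norm_num) (by linarith only [hα])
  have hgeo : ∑ k ∈ Finset.range (j + 1 + 1), ((2 : ℝ) ^ (-α)) ^ k ≤ (1 - (2 : ℝ) ^ (-α))⁻¹ := by
    rw [← tsum_geometric_of_lt_one hq0.le hq1]
    exact (summable_geometric_of_lt_one hq0.le hq1).sum_le_tsum _ fun i _ => by positivity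
  have hhsum : ∑ k ∈ Finset.range (j + 1 + 1), V.hh (ρ k) y ≤
      2 * b * (1 + 3 / 2 * om m) * lam α Λ := by
    calc ∑ k ∈ Finset.range (j + 1 + 1), V.hh (ρ k) y
        ≤ ∑ k ∈ Finset.range (j + 1 + 1),
          Λ * (2 * b) * ((2 : ℝ) ^ (-α)) ^ k * (1 + 3 / 2 * om m) := Finset.sum_le_sum hhb
      _ = Λ * (2 * b) * (1 + 3 / 2 * om m) *
          ∑ k ∈ Finset.range (j + 1 + 1), ((2 : ℝ) ^ (-α)) ^ k := by
          rw [Finset.mul_sum]
          refine Finset.sum_congr rfl fun k _ => ?_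
          ring
      _ ≤ Λ * (2 * b) * (1 + 3 / 2 * om m) * (1 - (2 : ℝ) ^ (-α))⁻¹ :=
          mul_le_mul_of_nonneg_left hgeo (by positivity)
      _ = 2 * b * (1 + 3 / 2 * om m) * lam α Λ := by
          unfold lam
          ring
  have hJ2 : ∫ z, |Xi m η s r (gn (S.G Q) (z - y))| * ‖z - y‖ * ‖V.H z‖ ∂V.μ ≤ om m / 20 := by
    have h1 := w6_sum (fun z => norm_nonneg _) V.iH.norm iX y (j + 1 + 1)
      (fun k => 4 ^ m * (ρ k * (ρ k ^ m)⁻¹)) ρ hX
    have e1 : ∑ k ∈ Finset.range (j + 1 + 1), 4 ^ m * (ρ k * (ρ k ^ m)⁻¹) *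
        ∫ z in ball y (ρ k), ‖V.H z‖ ∂V.μ =
        4 ^ m * ∑ k ∈ Finset.range (j + 1 + 1), V.hh (ρ k) y := by
      rw [Finset.mul_sum]
      refine Finset.sum_congr rfl fun k _ => ?_
      unfold Sys.hh
      ring
    have hl0 : 0 ≤ lam α Λ := by
      unfold lam
      have : 0 < 1 - (2 : ℝ) ^ (-α) := by linarith only [hq1]
      positivity
    rw [e1] at h1
    have hA : 0 < 4 ^ m * (3 * b * (1 + 3 / 2 * om m)) := by positivity
    calc ∫ z, |Xi m η s r (gn (S.G Q) (z - y))| * ‖z - y‖ * ‖V.H z‖ ∂V.μ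
        ≤ 4 ^ m * ∑ k ∈ Finset.range (j + 1 + 1), V.hh (ρ k) y := h1
      _ ≤ 4 ^ m * (2 * b * (1 + 3 / 2 * om m) * lam α Λ) :=
          mul_le_mul_of_nonneg_left hhsum (by positivity)
      _ ≤ (4 ^ m * (3 * b * (1 + 3 / 2 * om m))) * lam α Λ := by
          have h2 : 0 ≤ 4 ^ m * (b * (1 + 3 / 2 * om m)) * lam α Λ := by positivity
          linarith only [h2]
      _ ≤ (4 ^ m * (3 * b * (1 + 3 / 2 * om m))) *
          (om m / (20 * (4 ^ m * (3 * b * (1 + 3 / 2 * om m))))) :=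
          mul_le_mul_of_nonneg_left hlam hA.le
      _ = om m / 20 := by
          field_simp
  -- conclusion
  have hMI := V.MI_low h hm hδ hδ0 hQ y hs0 hsr (by
    have e1 : r / (1 - 3 * δ) = 2 * b := by
      rw [hr]
      field_simp
    rw [e1]
    exact hU)
  have hga : 0 ≤ ∫ z, Nn m η s r (gn (S.G Q) (z - y)) * ga (V.P z) (z - y) ∂V.μ :=
    integral_nonneg fun z => mul_nonneg (Nn_nonneg h hm hs0 hsr (gn_nonneg' _ _)) (ga_nonneg _)
  have hfin : om m / 20 ≤ 60 * δ ^ 2 * (4 ^ m * (V.lq Q (2 * b) y +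
      ∑ i ∈ Finset.range (j + 1), V.lq Q (b * (1 / 2) ^ i) y)) := by
    have h1 : 60 * δ ^ 2 * ∫ z, Nn m η s r (gn (S.G Q) (z - y)) * ‖V.P z - Q‖ ^ 2 ∂V.μ ≤
        60 * δ ^ 2 * (4 ^ m * (V.lq Q (2 * b) y +
          ∑ i ∈ Finset.range (j + 1), V.lq Q (b * (1 / 2) ^ i) y)) :=
      mul_le_mul_of_nonneg_left hJ1 (by positivity)
    linarith only [hIs, hIr, hJ2, hMI, hga, h1]
  have e2 : 1200 * 4 ^ m / om m * δ ^ 2 * (V.lq Q (2 * b) y +
      ∑ i ∈ Finset.range (j + 1), V.lq Q (b * (1 / 2) ^ i) y) =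
      (60 * δ ^ 2 * (4 ^ m * (V.lq Q (2 * b) y +
      ∑ i ∈ Finset.range (j + 1), V.lq Q (b * (1 / 2) ^ i) y))) / (om m / 20) := by
    field_simp
    ring
  rw [e2, one_le_div (by positivity)]
  exact hfin

end Allard
end
end

section

/-!
# W8a: the exceptional sets, integral of the tilt over good points

Hypotheses: `closedBall 0 (2b+2) ⊆ U`, total tilt `T := ∫_{ball 0 (2b+1)} ‖P-Q‖²`,
mass of `ball 0 (2b+2)` at most `A`.

`lq_int`: `∫_{ball 0 1 ∩ Gd j} lq(b2^{-j}) dμ ≤ C T`.  Tonelli: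
`= (b2^{-j})^{-m} ∫_{ball 0 (b+1)} ‖P(z)-Q‖² μ{y ∈ ball 0 1 ∩ Gd j : ‖y-z‖ < b2^{-j}} dμ(z)`.  If the set is nonempty
choose `y₀` in it; it is contained in `ball y₀ (2 b 2^{-j})`.  For `j ≥ 1` this is `ball y₀ (b 2^{-(j-1)})` of mass
`≤ (3/2) om (b2^{-(j-1)})^m = (3/2) om 2^m (b2^{-j})^m` (`y₀ ∈ Gd j ⊆ Gd (j-1)`).  For `j = 0`: mass `≤ A`,
`b ≥ 1`.

`bad_mass`: `y ∈ Gd j \ Gd (j+1)`: either `lq(b2^{-(j+1)}) > l₂`, then `lq (b2^{-j}) ≥ 2^{-m} l₂` (smaller ball),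
Markov and `lq_int`: measure `≤ 2^m/l₂ C T`; or the mass at scale `j+1` is bad, then by `pinch`
`1 ≤ C δ² (lq(2b) + ∑_{i≤j} lq(b2^{-i}))`, integrate over `ball 0 1 ∩ Gd j` (`⊆ Gd i` for `i ≤ j`), and
`lq (2b) y ≤ (2b)^{-m} T` (`ball y (2b) ⊆ ball 0 (2b+1)`): measure `≤ C δ² (j+2) T`.
-/

noncomputable section

open MeasureTheory Metric Set Filter Topology

namespace Allard

variable {n m : ℕ} {δ : ℝ} {S : Stress n m δ} {α Λ : ℝ} {U : Set (E n)}

/-- Swap of the integrals. -/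
private theorem w8a_swap (V : Sys S α Λ U) {Q : Op n} (hQ : Pr n m Q) {D : Set (E n)}
    (hD : MeasurableSet D) (ρ : ℝ) :
    ∫ y in D, (∫ z in ball y ρ, ‖V.P z - Q‖ ^ 2 ∂V.μ) ∂V.μ =
      ∫ z, ‖V.P z - Q‖ ^ 2 * V.μ.real (D ∩ ball z ρ) ∂V.μ := by
  have hms : MeasurableSet {x : E n × E n | x.1 ∈ D ∧ dist x.2 x.1 < ρ} :=
    (measurable_fst hD).inter
      (measurableSet_lt (measurable_snd.dist measurable_fst) measurable_const)
  have hgm : Measurable fun z => ‖V.P z - Q‖ ^ 2 := (V.mP.sub_const Q).norm.pow_const 2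
  obtain ⟨k, hk⟩ : ∃ k : E n × E n → ℝ, k = fun x =>
      {x : E n × E n | x.1 ∈ D ∧ dist x.2 x.1 < ρ}.indicator (fun x => ‖V.P x.2 - Q‖ ^ 2) x :=
    ⟨_, rfl⟩
  have hint : Integrable k (V.μ.prod V.μ) := by
    refine (integrable_const (4 : ℝ)).mono' ?_ ?_
    · rw [hk]
      exact ((hgm.comp measurable_snd).indicator hms).aestronglyMeasurable
    · refine Filter.Eventually.of_forall fun x => ?_
      rw [hk]
      simp only
      have h0 : 0 ≤ {x : E n × E n | x.1 ∈ D ∧ dist x.2 x.1 < ρ}.indicator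
          (fun x => ‖V.P x.2 - Q‖ ^ 2) x := Set.indicator_apply_nonneg fun _ => sq_nonneg _
      rw [Real.norm_of_nonneg h0]
      refine Set.indicator_apply_le' (fun _ => ?_) (fun _ => by norm_num)
      have h1 := (V.hP x.2).norm_sub_le hQ
      have h2 := norm_nonneg (V.P x.2 - Q)
      nlinarith
  have e1 : ∀ y, D.indicator (fun y => ∫ z in ball y ρ, ‖V.P z - Q‖ ^ 2 ∂V.μ) y =
      ∫ z, k (y, z) ∂V.μ := by
    intro y
    by_cases hy : y ∈ D
    · rw [Set.indicator_of_mem hy, ← integral_indicator measurableSet_ball]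
      apply integral_congr_ae
      refine Filter.Eventually.of_forall fun z => ?_
      rw [hk]
      simp only
      by_cases hz : dist z y < ρ
      · rw [Set.indicator_of_mem (mem_ball.2 hz),
          Set.indicator_of_mem (show (y, z) ∈ {x : E n × E n | x.1 ∈ D ∧ dist x.2 x.1 < ρ} from
            ⟨hy, hz⟩)]
      · rw [Set.indicator_of_notMem (fun h => hz (mem_ball.1 h)),
          Set.indicator_of_notMem
            (show (y, z) ∉ {x : E n × E n | x.1 ∈ D ∧ dist x.2 x.1 < ρ} from fun h => hz h.2)]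
    · rw [Set.indicator_of_notMem hy]
      symm
      rw [← integral_zero (E n) ℝ (μ := V.μ)]
      apply integral_congr_ae
      refine Filter.Eventually.of_forall fun z => ?_
      rw [hk]
      simp only
      rw [Set.indicator_of_notMem
        (show (y, z) ∉ {x : E n × E n | x.1 ∈ D ∧ dist x.2 x.1 < ρ} from fun h => hy h.1)]
  have e2 : ∀ z, ‖V.P z - Q‖ ^ 2 * V.μ.real (D ∩ ball z ρ) = ∫ y, k (y, z) ∂V.μ := by
    intro z
    have e3 : ∀ y, k (y, z) = (D ∩ ball z ρ).indicator (fun _ => ‖V.P z - Q‖ ^ 2) y := by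
      intro y
      rw [hk]
      simp only
      by_cases hz : y ∈ D ∧ dist z y < ρ
      · rw [Set.indicator_of_mem (show (y, z) ∈ {x : E n × E n | x.1 ∈ D ∧ dist x.2 x.1 < ρ} from
          hz), Set.indicator_of_mem
            (show y ∈ D ∩ ball z ρ from ⟨hz.1, mem_ball.2 (by rw [dist_comm]; exact hz.2)⟩)]
      · rw [Set.indicator_of_notMem
          (show (y, z) ∉ {x : E n × E n | x.1 ∈ D ∧ dist x.2 x.1 < ρ} from hz),
          Set.indicator_of_notMem (show y ∉ D ∩ ball z ρ from fun h =>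
            hz ⟨h.1, by rw [dist_comm]; exact mem_ball.1 h.2⟩)]
    simp only [e3]
    rw [integral_indicator (hD.inter measurableSet_ball), setIntegral_const, smul_eq_mul, mul_comm]
  rw [← integral_indicator hD]
  simp only [e1, e2]
  exact integral_integral_swap hint

theorem lq_int (n m : ℕ) (b l₂ A : ℝ) (hb : 1 ≤ b) (hA : 0 < A) : ∃ C : ℝ, 0 < C ∧
    ∀ {δ : ℝ} {S : Stress n m δ} {α Λ : ℝ} {U : Set (E n)} (V : Sys S α Λ U),
    ∀ {Q : Op n}, Pr n m Q → V.μ.real (ball 0 (2 * b + 2)) ≤ A → ∀ j : ℕ,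
    ∫ y in ball 0 1 ∩ V.Gd Q b l₂ j, V.lq Q (b * (1 / 2) ^ j) y ∂V.μ ≤
      C * ∫ z in ball 0 (2 * b + 1), ‖V.P z - Q‖ ^ 2 ∂V.μ := by
  have hom : 0 ≤ om m := by
    unfold om
    exact measureReal_nonneg
  refine ⟨3 / 2 * om m * 2 ^ m + A, by positivity, ?_⟩
  intro δ S α Λ U V Q hQ hmass j
  have hb0 : 0 < b := by linarith
  obtain ⟨ρ, hρ⟩ : ∃ ρ : ℝ, ρ = b * (1 / 2) ^ j := ⟨_, rfl⟩
  have hρ0 : 0 < ρ := by rw [hρ]; positivity
  have hρb : ρ ≤ b := by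
    rw [hρ]
    exact mul_le_of_le_one_right hb0.le (pow_le_one₀ (by norm_num) (by norm_num))
  have hρm : 0 < ρ ^ m := pow_pos hρ0 m
  have hD : MeasurableSet (ball (0 : E n) 1 ∩ V.Gd Q b l₂ j) :=
    measurableSet_ball.inter (V.measurableSet_Gd Q b l₂ j)
  rw [← hρ]
  unfold Sys.lq
  rw [integral_const_mul, w8a_swap V hQ hD ρ]
  have hpt : ∀ z, ‖V.P z - Q‖ ^ 2 * V.μ.real ((ball (0 : E n) 1 ∩ V.Gd Q b l₂ j) ∩ ball z ρ) ≤
      (ball (0 : E n) (2 * b + 1)).indicator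
        (fun z => ‖V.P z - Q‖ ^ 2 * ((3 / 2 * om m * 2 ^ m + A) * ρ ^ m)) z := by
    intro z
    rcases Set.eq_empty_or_nonempty ((ball (0 : E n) 1 ∩ V.Gd Q b l₂ j) ∩ ball z ρ) with he | ⟨y₀, hy₀⟩
    · rw [he, measureReal_empty, mul_zero]
      exact Set.indicator_apply_nonneg fun _ => by positivity
    · obtain ⟨⟨hy1, hy2⟩, hy3⟩ := hy₀
      have hz : z ∈ ball (0 : E n) (2 * b + 1) := by
        rw [mem_ball] at hy1 hy3 ⊢
        have := dist_triangle z y₀ 0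
        rw [dist_comm z y₀] at this
        linarith
      rw [Set.indicator_of_mem hz]
      refine mul_le_mul_of_nonneg_left ?_ (sq_nonneg _)
      cases j with
      | zero =>
        have h1 : (ball (0 : E n) 1 ∩ V.Gd Q b l₂ 0) ∩ ball z ρ ⊆ ball 0 (2 * b + 2) := by
          intro y hy
          have := mem_ball.1 hy.1.1
          rw [mem_ball]
          linarith
        have h2 : V.μ.real ((ball (0 : E n) 1 ∩ V.Gd Q b l₂ 0) ∩ ball z ρ) ≤ A :=
          (measureReal_mono h1).trans hmass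
        have h3 : (1 : ℝ) ≤ ρ ^ m := one_le_pow₀ (by rw [hρ, pow_zero, mul_one]; exact hb)
        have h4 : A * 1 ≤ A * ρ ^ m := mul_le_mul_of_nonneg_left h3 hA.le
        have h5 : 0 ≤ 3 / 2 * om m * 2 ^ m * ρ ^ m := by positivity
        linarith
      | succ i =>
        have e1 : 2 * ρ = b * (1 / 2) ^ i := by rw [hρ, pow_succ]; ring
        have h1 : (ball (0 : E n) 1 ∩ V.Gd Q b l₂ (i + 1)) ∩ ball z ρ ⊆ ball y₀ (2 * ρ) := by
          intro y hy
          have h2 := mem_ball.1 hy.2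
          have h3 := mem_ball.1 hy3
          rw [mem_ball]
          have := dist_triangle y z y₀
          rw [dist_comm z y₀] at this
          linarith
        have h2 := (hy2 i (Nat.le_succ i)).2
        rw [← e1] at h2
        have h3 : V.μ.real ((ball (0 : E n) 1 ∩ V.Gd Q b l₂ (i + 1)) ∩ ball z ρ) ≤
            3 / 2 * om m * (2 * ρ) ^ m := (measureReal_mono h1).trans h2
        rw [mul_pow] at h3
        have h4 : 0 ≤ A * ρ ^ m := by positivity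
        linarith
  have hgm : Measurable fun z => ‖V.P z - Q‖ ^ 2 := (V.mP.sub_const Q).norm.pow_const 2
  have hint : Integrable ((ball (0 : E n) (2 * b + 1)).indicator
        (fun z => ‖V.P z - Q‖ ^ 2 * ((3 / 2 * om m * 2 ^ m + A) * ρ ^ m))) V.μ := by
    refine Integrable.indicator ?_ measurableSet_ball
    refine Integrable.mul_const ?_ _
    refine V.integrable_bdd hgm (c := 4) fun z => ?_
    rw [abs_of_nonneg (sq_nonneg _)]
    have h1 := (V.hP z).norm_sub_le hQ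
    have h2 := norm_nonneg (V.P z - Q)
    nlinarith
  have h1 := integral_mono_of_nonneg (Filter.Eventually.of_forall fun z =>
    mul_nonneg (sq_nonneg ‖V.P z - Q‖) measureReal_nonneg) hint (Filter.Eventually.of_forall hpt)
  rw [integral_indicator measurableSet_ball, integral_mul_const] at h1
  have h2 := mul_le_mul_of_nonneg_left h1 (inv_pos.2 hρm).le
  refine h2.trans (le_of_eq ?_)
  field_simp

end Allard
end
end

section

/-!
# W8: the exceptional sets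

Hypotheses: `closedBall 0 (2b+2) ⊆ U`, total tilt `T := ∫_{ball 0 (2b+1)} ‖P-Q‖²`,
mass of `ball 0 (2b+2)` at most `A`.

`lq_int`: `∫_{ball 0 1 ∩ Gd j} lq(b2^{-j}) dμ ≤ C T`.  Tonelli:
`= (b2^{-j})^{-m} ∫_{ball 0 (b+1)} ‖P(z)-Q‖² μ{y ∈ ball 0 1 ∩ Gd j : ‖y-z‖ < b2^{-j}} dμ(z)`.  If the set is nonempty
choose `y₀` in it; it is contained in `ball y₀ (2 b 2^{-j})`.  For `j ≥ 1` this is `ball y₀ (b 2^{-(j-1)})` of mass
`≤ (3/2) om (b2^{-(j-1)})^m = (3/2) om 2^m (b2^{-j})^m` (`y₀ ∈ Gd j ⊆ Gd (j-1)`).  For `j = 0`: mass `≤ A`,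
`b ≥ 1`.

`bad_mass`: `y ∈ Gd j \ Gd (j+1)`: either `lq(b2^{-(j+1)}) > l₂`, then `lq (b2^{-j}) ≥ 2^{-m} l₂` (smaller ball),
Markov and `lq_int`: measure `≤ 2^m/l₂ C T`; or the mass at scale `j+1` is bad, then by `pinch`
`1 ≤ C δ² (lq(2b) + ∑_{i≤j} lq(b2^{-i}))`, integrate over `ball 0 1 ∩ Gd j` (`⊆ Gd i` for `i ≤ j`), and
`lq (2b) y ≤ (2b)^{-m} T` (`ball y (2b) ⊆ ball 0 (2b+1)`): measure `≤ C δ² (j+2) T`.
-/

noncomputable section

open MeasureTheory Metric Set Filter Topology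

namespace Allard

private theorem W8_meas {n m : ℕ} {δ : ℝ} {S : Stress n m δ} {α Λ : ℝ} {U : Set (E n)}
    (V : Sys S α Λ U) (Q : Op n) : Measurable (fun z => ‖V.P z - Q‖ ^ 2) :=
  ((V.mP.sub_const Q).norm).pow_const 2

private theorem W8_le {n m : ℕ} {δ : ℝ} {S : Stress n m δ} {α Λ : ℝ} {U : Set (E n)}
    (V : Sys S α Λ U) {Q : Op n} (hQ : Pr n m Q) (z : E n) : ‖V.P z - Q‖ ^ 2 ≤ 4 := by
  have h1 := (V.hP z).norm_sub_le hQ
  have h2 := norm_nonneg (V.P z - Q)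
  nlinarith

private theorem W8_int {n m : ℕ} {δ : ℝ} {S : Stress n m δ} {α Λ : ℝ} {U : Set (E n)}
    (V : Sys S α Λ U) {Q : Op n} (hQ : Pr n m Q) :
    Integrable (fun z => ‖V.P z - Q‖ ^ 2) V.μ :=
  V.integrable_bdd (W8_meas V Q) (c := 4) fun z => by
    rw [abs_of_nonneg (by positivity)]
    exact W8_le V hQ z

private theorem W8_lq_nonneg {n m : ℕ} {δ : ℝ} {S : Stress n m δ} {α Λ : ℝ} {U : Set (E n)}
    (V : Sys S α Λ U) (Q : Op n) {ρ : ℝ} (hρ : 0 ≤ ρ) (y : E n) : 0 ≤ V.lq Q ρ y := by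
  unfold Sys.lq
  exact mul_nonneg (by positivity) (integral_nonneg fun z => by positivity)

private theorem W8_lq_int {n m : ℕ} {δ : ℝ} {S : Stress n m δ} {α Λ : ℝ} {U : Set (E n)}
    (V : Sys S α Λ U) {Q : Op n} (hQ : Pr n m Q) {ρ : ℝ} (hρ : 0 ≤ ρ) :
    Integrable (fun y => V.lq Q ρ y) V.μ :=
  V.integrable_bdd (V.measurable_lq Q ρ)
    (c := (ρ ^ m)⁻¹ * ∫ z, ‖V.P z - Q‖ ^ 2 ∂V.μ) fun y => by
    rw [abs_of_nonneg (W8_lq_nonneg V Q hρ y)]
    unfold Sys.lq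
    refine mul_le_mul_of_nonneg_left ?_ (by positivity)
    exact setIntegral_le_integral (W8_int V hQ) (Eventually.of_forall fun z => by positivity)

private theorem W8_half {n m : ℕ} {δ : ℝ} {S : Stress n m δ} {α Λ : ℝ} {U : Set (E n)}
    (V : Sys S α Λ U) {Q : Op n} (hQ : Pr n m Q) {ρ : ℝ} (hρ : 0 < ρ) (y : E n) :
    V.lq Q (ρ * (1 / 2)) y ≤ 2 ^ m * V.lq Q ρ y := by
  unfold Sys.lq
  have h1 : ((ρ * (1 / 2)) ^ m)⁻¹ = 2 ^ m * (ρ ^ m)⁻¹ := by
    rw [mul_pow, mul_inv, one_div, inv_pow, inv_inv, mul_comm]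
  rw [h1, mul_assoc]
  refine mul_le_mul_of_nonneg_left ?_ (by positivity)
  refine mul_le_mul_of_nonneg_left ?_ (by positivity)
  refine setIntegral_mono_set (W8_int V hQ).integrableOn
    (Eventually.of_forall fun z => by positivity) ?_
  exact (ball_subset_ball (by linarith)).eventuallyLE

theorem bad_mass (n m : ℕ) (hm : 1 ≤ m) (b l₂ A : ℝ) (hb : 1 ≤ b) (hl₂ : 0 < l₂) (hA : 0 < A) :
    ∃ C δ₁ l₁ : ℝ, 0 < C ∧ 0 < δ₁ ∧ δ₁ ≤ d0 n ∧ 0 < l₁ ∧
    ∀ {δ : ℝ} {S : Stress n m δ} {α Λ : ℝ} {U : Set (E n)} (V : Sys S α Λ U),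
    0 ≤ δ → δ ≤ δ₁ → 0 < α → α < 1 → 0 ≤ Λ → lam α Λ ≤ l₁ → ∀ {Q : Op n}, Pr n m Q →
    closedBall 0 (2 * b + 2) ⊆ U → V.μ.real (ball 0 (2 * b + 2)) ≤ A →
    (∀ y, ‖y‖ < 1 → V.μ.real (ball y (2 * b)) ≤ 5 / 4 * om m * (2 * b) ^ m) → ∀ j : ℕ,
    V.μ.real (ball 0 1 ∩ (V.Gd Q b l₂ j \ V.Gd Q b l₂ (j + 1))) ≤
      C * (1 + δ ^ 2 * (j + 1)) * ∫ z in ball 0 (2 * b + 1), ‖V.P z - Q‖ ^ 2 ∂V.μ := by
  obtain ⟨C₁, hC₁, hlq⟩ := lq_int n m b l₂ A hb hA
  obtain ⟨C₂, δ₁, l₁, hC₂, hδ₁, hδ₁', hl₁, hpin⟩ := pinch n m hm b hb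
  refine ⟨2 ^ m * C₁ / l₂ + C₂ * (A + C₁), δ₁, l₁, by positivity, hδ₁, hδ₁', hl₁, ?_⟩
  intro δ S α Λ U V hδ hδ' hα hα1 hΛ hlam Q hQ hU hmass hball j
  set T : ℝ := ∫ z in ball 0 (2 * b + 1), ‖V.P z - Q‖ ^ 2 ∂V.μ with hT
  have hT0 : 0 ≤ T := integral_nonneg fun z => by positivity
  have hb0 : 0 < b := by linarith
  set B : Set (E n) := ball 0 1 ∩ V.Gd Q b l₂ j with hB
  have hBm : MeasurableSet B := measurableSet_ball.inter (V.measurableSet_Gd Q b l₂ j)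
  set E1 : Set (E n) := B ∩ {y | l₂ < V.lq Q (b * (1 / 2) ^ (j + 1)) y} with hE1
  set E2 : Set (E n) := B ∩ {y | 3 / 2 * om m * (b * (1 / 2) ^ (j + 1)) ^ m <
    V.μ.real (ball y (b * (1 / 2) ^ (j + 1)))} with hE2
  have hE1m : MeasurableSet E1 :=
    hBm.inter (measurableSet_lt measurable_const (V.measurable_lq Q _))
  have hE2m : MeasurableSet E2 :=
    hBm.inter (measurableSet_lt measurable_const (V.measurable_ball _))
  have hsub : ball 0 1 ∩ (V.Gd Q b l₂ j \ V.Gd Q b l₂ (j + 1)) ⊆ E1 ∪ E2 := by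
    rintro y ⟨hy, hy1, hy2⟩
    have hyB : y ∈ B := ⟨hy, hy1⟩
    by_contra hcon
    apply hy2
    intro i hi
    rcases Nat.lt_or_ge i (j + 1) with h | h
    · exact hy1 i (by omega)
    · have hij : i = j + 1 := le_antisymm hi h
      subst hij
      constructor
      · by_contra h2
        exact hcon (Or.inl ⟨hyB, not_le.mp h2⟩)
      · by_contra h2
        exact hcon (Or.inr ⟨hyB, not_le.mp h2⟩)
  have hscale : ∀ i : ℕ, 0 < b * (1 / 2 : ℝ) ^ i := fun i => by positivity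
  have hlqi : ∀ i : ℕ, Integrable (fun y => V.lq Q (b * (1 / 2) ^ i) y) V.μ :=
    fun i => W8_lq_int V hQ (hscale i).le
  -- the first set
  have h1 : V.μ.real E1 ≤ 2 ^ m * C₁ / l₂ * T := by
    have h2 : l₂ * V.μ.real E1 ≤ ∫ y in E1, 2 ^ m * V.lq Q (b * (1 / 2) ^ j) y ∂V.μ := by
      have h3 : ∫ _y in E1, l₂ ∂V.μ = l₂ * V.μ.real E1 := by
        rw [setIntegral_const, smul_eq_mul, mul_comm]
      rw [← h3]
      refine setIntegral_mono_on (integrable_const _).integrableOn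
        ((hlqi j).const_mul _).integrableOn hE1m fun y hy => ?_
      have h4 : l₂ < V.lq Q (b * (1 / 2) ^ (j + 1)) y := hy.2
      have h5 := W8_half V hQ (hscale j) y
      rw [mul_assoc, ← pow_succ] at h5
      linarith
    have h3 : ∫ y in E1, 2 ^ m * V.lq Q (b * (1 / 2) ^ j) y ∂V.μ ≤
        2 ^ m * ∫ y in B, V.lq Q (b * (1 / 2) ^ j) y ∂V.μ := by
      rw [integral_const_mul]
      refine mul_le_mul_of_nonneg_left ?_ (by positivity)
      refine setIntegral_mono_set (hlqi j).integrableOn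
        (Eventually.of_forall fun y => W8_lq_nonneg V Q (hscale j).le y) ?_
      exact inter_subset_left.eventuallyLE
    have h4 := hlq V hQ hmass j
    have h5 : l₂ * V.μ.real E1 ≤ 2 ^ m * (C₁ * T) :=
      h2.trans (h3.trans (mul_le_mul_of_nonneg_left h4 (by positivity)))
    rw [div_mul_eq_mul_div, le_div_iff₀ hl₂]
    linarith
  -- the second set
  have h2b : (1 : ℝ) ≤ (2 * b) ^ m := one_le_pow₀ (by linarith)
  have hlq2 : ∀ y : E n, ‖y‖ < 1 → V.lq Q (2 * b) y ≤ T := by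
    intro y hy
    unfold Sys.lq
    have h3 : ∫ z in ball y (2 * b), ‖V.P z - Q‖ ^ 2 ∂V.μ ≤ T := by
      refine setIntegral_mono_set (W8_int V hQ).integrableOn
        (Eventually.of_forall fun z => by positivity) ?_
      refine (ball_subset_ball' ?_).eventuallyLE
      rw [dist_zero_right]
      linarith
    have h4 : ((2 * b) ^ m)⁻¹ ≤ 1 := inv_le_one_of_one_le₀ h2b
    have h5 : 0 ≤ ∫ z in ball y (2 * b), ‖V.P z - Q‖ ^ 2 ∂V.μ :=
      integral_nonneg fun z => by positivity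
    calc ((2 * b) ^ m)⁻¹ * ∫ z in ball y (2 * b), ‖V.P z - Q‖ ^ 2 ∂V.μ
        ≤ 1 * ∫ z in ball y (2 * b), ‖V.P z - Q‖ ^ 2 ∂V.μ := mul_le_mul_of_nonneg_right h4 h5
      _ ≤ T := by rw [one_mul]; exact h3
  have h2 : V.μ.real E2 ≤ C₂ * (A + C₁) * (δ ^ 2 * (j + 1)) * T := by
    have hint : Integrable (fun y => V.lq Q (2 * b) y +
        ∑ i ∈ Finset.range (j + 1), V.lq Q (b * (1 / 2) ^ i) y) V.μ :=
      (W8_lq_int V hQ (by linarith)).add (integrable_finset_sum _ fun i _ => hlqi i)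
    have h3 : V.μ.real E2 ≤ ∫ y in E2, C₂ * δ ^ 2 * (V.lq Q (2 * b) y +
        ∑ i ∈ Finset.range (j + 1), V.lq Q (b * (1 / 2) ^ i) y) ∂V.μ := by
      have h4 : ∫ _y in E2, (1 : ℝ) ∂V.μ = V.μ.real E2 := by
        rw [setIntegral_const, smul_eq_mul, mul_one]
      rw [← h4]
      refine setIntegral_mono_on (integrable_const _).integrableOn
        (hint.const_mul _).integrableOn hE2m fun y hy => ?_
      have hy1 : ‖y‖ < 1 := mem_ball_zero_iff.mp hy.1.1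
      refine hpin V hδ hδ' hα hα1 hΛ hlam hQ y j ?_ (hball y hy1) (fun i hi => (hy.1.2 i hi).2) hy.2
      refine (closedBall_subset_closedBall' ?_).trans hU
      rw [dist_zero_right]
      linarith
    have h4 : ∫ y in E2, C₂ * δ ^ 2 * (V.lq Q (2 * b) y +
        ∑ i ∈ Finset.range (j + 1), V.lq Q (b * (1 / 2) ^ i) y) ∂V.μ ≤
        C₂ * δ ^ 2 * ∫ y in B, (V.lq Q (2 * b) y +
        ∑ i ∈ Finset.range (j + 1), V.lq Q (b * (1 / 2) ^ i) y) ∂V.μ := by
      rw [integral_const_mul]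
      refine mul_le_mul_of_nonneg_left ?_ (by positivity)
      refine setIntegral_mono_set hint.integrableOn (Eventually.of_forall fun y => ?_)
        inter_subset_left.eventuallyLE
      exact add_nonneg (W8_lq_nonneg V Q (by linarith) y)
        (Finset.sum_nonneg fun i _ => W8_lq_nonneg V Q (hscale i).le y)
    have h5 : ∫ y in B, (V.lq Q (2 * b) y +
        ∑ i ∈ Finset.range (j + 1), V.lq Q (b * (1 / 2) ^ i) y) ∂V.μ ≤
        T * A + (j + 1) * (C₁ * T) := by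
      rw [integral_add (W8_lq_int V hQ (by linarith)).integrableOn
        (integrable_finset_sum _ fun i _ => hlqi i).integrableOn,
        integral_finset_sum _ fun i _ => (hlqi i).integrableOn]
      refine add_le_add ?_ ?_
      · calc ∫ y in B, V.lq Q (2 * b) y ∂V.μ ≤ ∫ _y in B, T ∂V.μ := by
              refine setIntegral_mono_on (W8_lq_int V hQ (by linarith)).integrableOn
                (integrable_const _).integrableOn hBm fun y hy => ?_
              exact hlq2 y (mem_ball_zero_iff.mp hy.1)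
          _ = T * V.μ.real B := by rw [setIntegral_const, smul_eq_mul, mul_comm]
          _ ≤ T * A := by
              refine mul_le_mul_of_nonneg_left ?_ hT0
              refine le_trans (measureReal_mono ?_) hmass
              exact inter_subset_left.trans (ball_subset_ball (by linarith))
      · calc ∑ i ∈ Finset.range (j + 1), ∫ y in B, V.lq Q (b * (1 / 2) ^ i) y ∂V.μ
            ≤ ∑ i ∈ Finset.range (j + 1), C₁ * T := by
              refine Finset.sum_le_sum fun i hi => ?_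
              refine le_trans ?_ (hlq V hQ hmass i)
              refine setIntegral_mono_set (hlqi i).integrableOn
                (Eventually.of_forall fun y => W8_lq_nonneg V Q (hscale i).le y) ?_
              refine (inter_subset_inter_right _ (V.Gd_anti Q b l₂ ?_)).eventuallyLE
              exact Nat.lt_succ_iff.mp (Finset.mem_range.mp hi)
          _ = (j + 1) * (C₁ * T) := by
              rw [Finset.sum_const, Finset.card_range, nsmul_eq_mul]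
              push_cast
              ring
    have hj : (0 : ℝ) ≤ (j : ℝ) := Nat.cast_nonneg j
    calc V.μ.real E2 ≤ C₂ * δ ^ 2 * (T * A + (j + 1) * (C₁ * T)) :=
          h3.trans (h4.trans (mul_le_mul_of_nonneg_left h5 (by positivity)))
      _ ≤ C₂ * δ ^ 2 * ((j + 1) * (T * A) + (j + 1) * (C₁ * T)) := by
          refine mul_le_mul_of_nonneg_left ?_ (by positivity)
          have : 0 ≤ (j : ℝ) * (T * A) := by positivity
          linarith
      _ = C₂ * (A + C₁) * (δ ^ 2 * (j + 1)) * T := by ring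
  calc V.μ.real (ball 0 1 ∩ (V.Gd Q b l₂ j \ V.Gd Q b l₂ (j + 1)))
      ≤ V.μ.real (E1 ∪ E2) := measureReal_mono hsub
    _ ≤ V.μ.real E1 + V.μ.real E2 := measureReal_union_le _ _
    _ ≤ 2 ^ m * C₁ / l₂ * T + C₂ * (A + C₁) * (δ ^ 2 * (j + 1)) * T := add_le_add h1 h2
    _ ≤ (2 ^ m * C₁ / l₂ + C₂ * (A + C₁)) * (1 + δ ^ 2 * (j + 1)) * T := by
        have h3 : 0 ≤ 2 ^ m * C₁ / l₂ * (δ ^ 2 * ((j : ℝ) + 1)) * T := by positivity
        have h4 : 0 ≤ C₂ * (A + C₁) * T := by positivity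
        nlinarith

end Allard
end
end

section

/-!
# W9: integrated Poincare estimate

Let `x_j = V.xj Q b l₂ C j`, `T` the total tilt.  For `y ∈ ball 0 1 ∩ spt ∩ Gd k₀` (`av_le_sum`), any `N ≥ k₀`:
`‖av‖² ≤ 2·4^{-N} + 2 (∑_{k₀≤j<N} 2^{-j}) (∑ 2^{-j} x_j²) ≤ 2·4^{-N} + 4·2^{-k₀} ∑_{k₀≤j<N} 2^{-j} x_j²`.
`x_j² ≤ 2 · 1_{Gd j} C² (2 lq_j + 2 hh_j²) + 2 · 1_{Gd j \ Gd(j+1)}`; on `Gd j`, `hh_j ≤ Λ b (1 + (3/2) om) =: C' Λ ≤ l₂`
(`hh_le`, `(b2^{-j})^α ≤ b`).  With `lq_int`, `bad_mass`, `Λ² ≤ Λ ≤ e²`, `μ(ball 0 1) ≤ A`, `T ≤ C₁ e²`: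
`∫_{ball 0 1} x_j² ≤ C (1 + δ²(j+1)) e²`; `∑_{j≥k₀} 2^{-j}(1 + δ²(j+1)) ≤ 2·2^{-k₀}(1 + δ²(k₀+2)) ≤ 4·2^{-k₀}` for
`δ² (k₀+2) ≤ 1`.
Choose `N` with `2·4^{-N} A ≤ 4^{-k₀} e²` (`e > 0`).
The hypothesis `hG` (all points of `ball 0 1` are in `Gd k₀`) is an assumption here.
-/

noncomputable section

open MeasureTheory Metric Set Filter Topology

namespace Allard

private theorem w9_ab (a c : ℝ) : (a + c) ^ 2 ≤ 2 * a ^ 2 + 2 * c ^ 2 := by
  nlinarith [sq_nonneg (a - c)]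

private theorem w9_lam {α Λ : ℝ} (hα : 0 < α) (hΛ : 0 ≤ Λ) : Λ ≤ lam α Λ := by
  unfold lam
  have h1 : (2 : ℝ) ^ (-α) < 1 :=
    Real.rpow_lt_one_of_one_lt_of_neg one_lt_two (by linarith)
  have h2 : (0 : ℝ) < 2 ^ (-α) := Real.rpow_pos_of_pos two_pos _
  rw [le_div_iff₀ (by linarith)]
  nlinarith

private theorem w9_sq {a : ℝ} (h0 : 0 ≤ a) (h1 : a ≤ 1) : a ^ 2 ≤ a := by
  nlinarith

private theorem w9_fin1 (x q c e : ℝ) (hx : 0 ≤ x) (hq : 0 ≤ q) :
    x * e ^ 2 + 2 * (c * (1 + q) * e ^ 2) ≤ (x + 2 * c) * (1 + q) * e ^ 2 := by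
  have h5 : 0 ≤ x * q * e ^ 2 := by positivity
  linarith [h5, show (x + 2 * c) * (1 + q) * e ^ 2 - (x * e ^ 2 + 2 * (c * (1 + q) * e ^ 2)) =
    x * q * e ^ 2 by ring]

private theorem w9_fin2 (p q k : ℝ) (hp : 0 ≤ p) (hq : q * (k + 2) ≤ 1) :
    2 * p * (1 + q * (k + 2)) ≤ 4 * p := by
  have h1 := mul_le_mul_of_nonneg_left hq hp
  linarith [h1, show 2 * p * (1 + q * (k + 2)) = 2 * p + 2 * (p * (q * (k + 2))) by ring]

private theorem w9_sum (q : ℝ) (k₀ N : ℕ) (hN : k₀ ≤ N) :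
    ∑ j ∈ Finset.Ico k₀ N, (1 / 2 : ℝ) ^ j * (1 + q * (j + 1)) =
      2 * (1 / 2) ^ k₀ * (1 + q * (k₀ + 2)) - 2 * (1 / 2) ^ N * (1 + q * (N + 2)) := by
  induction N, hN using Nat.le_induction with
  | base => simp
  | succ N hN ih =>
    rw [Finset.sum_Ico_succ_top hN, ih]
    push_cast
    rw [pow_succ]
    ring

private theorem w9_cs (k₀ N : ℕ) (hN : k₀ ≤ N) (x : ℕ → ℝ) :
    (∑ j ∈ Finset.Ico k₀ N, (1 / 2 : ℝ) ^ j * x j) ^ 2 ≤
      2 * (1 / 2) ^ k₀ * ∑ j ∈ Finset.Ico k₀ N, (1 / 2 : ℝ) ^ j * x j ^ 2 := by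
  have h1 := Finset.sum_mul_sq_le_sq_mul_sq (Finset.Ico k₀ N)
    (fun j => Real.sqrt ((1 / 2 : ℝ) ^ j)) (fun j => Real.sqrt ((1 / 2 : ℝ) ^ j) * x j)
  have hs : ∀ j : ℕ, Real.sqrt ((1 / 2 : ℝ) ^ j) * Real.sqrt ((1 / 2 : ℝ) ^ j) = (1 / 2) ^ j :=
    fun j => Real.mul_self_sqrt (by positivity)
  have h2 : ∀ j : ℕ, Real.sqrt ((1 / 2 : ℝ) ^ j) * (Real.sqrt ((1 / 2 : ℝ) ^ j) * x j) =
      (1 / 2) ^ j * x j := fun j => by rw [← mul_assoc, hs]
  have h3 : ∀ j : ℕ, Real.sqrt ((1 / 2 : ℝ) ^ j) ^ 2 = (1 / 2) ^ j := fun j => by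
    rw [sq, hs]
  have h4 : ∀ j : ℕ, (Real.sqrt ((1 / 2 : ℝ) ^ j) * x j) ^ 2 = (1 / 2) ^ j * x j ^ 2 := fun j => by
    rw [mul_pow, h3]
  simp only [h2, h3, h4] at h1
  refine h1.trans ?_
  have h5 : ∑ j ∈ Finset.Ico k₀ N, (1 / 2 : ℝ) ^ j ≤ 2 * (1 / 2) ^ k₀ := by
    have h6 := w9_sum 0 k₀ N hN
    simp only [zero_mul, add_zero, mul_one] at h6
    rw [h6]
    have : (0 : ℝ) ≤ 2 * (1 / 2) ^ N := by positivity
    linarith
  refine mul_le_mul_of_nonneg_right h5 (Finset.sum_nonneg fun j _ => ?_)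
  positivity

theorem poincare (n m : ℕ) (hm : 1 ≤ m) {τ : ℝ} {η : ℝ → ℝ} (h : Ker τ η) (C₁ : ℝ)
    (hC₁ : 0 < C₁) :
    ∃ b₀ : ℝ, 20 ≤ b₀ ∧ ∀ b : ℝ, b₀ ≤ b → ∃ l₂ C : ℝ, 0 < l₂ ∧ 0 < C ∧
    ∀ k₀ : ℕ, ∃ δ₁ l₁ : ℝ, 0 < δ₁ ∧ δ₁ ≤ d0 n ∧ 0 < l₁ ∧
    ∀ {δ : ℝ} {S : Stress n m δ} {α Λ : ℝ} {U : Set (E n)} (V : Sys S α Λ U),
    0 ≤ δ → δ ≤ δ₁ → 0 < α → α < 1 → 0 ≤ Λ → lam α Λ ≤ l₁ → V.LD (1 / 32) →
    ∀ {Q : Op n}, Pr n m Q → closedBall 0 (2 * b + 2) ⊆ U →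
    V.μ.real (ball 0 (2 * b + 2)) ≤ 2 * om m * (2 * b + 2) ^ m →
    (∀ y, ‖y‖ < 1 → V.μ.real (ball y (2 * b)) ≤ 5 / 4 * om m * (2 * b) ^ m) →
    (∀ y, ‖y‖ < 1 → y ∈ V.Gd Q b l₂ k₀) → ∀ e : ℝ, 0 < e → Λ ≤ e ^ 2 → e ≤ 1 →
    ∫ z in ball 0 (2 * b + 1), ‖V.P z - Q‖ ^ 2 ∂V.μ ≤ C₁ * e ^ 2 →
    ∫ y in ball 0 1, ‖V.av η Q y ((1 / 2) ^ k₀)‖ ^ 2 ∂V.μ ≤ C * ((1 / 2) ^ k₀) ^ 2 * e ^ 2 := by
  obtain ⟨b₀, hb₀, hav⟩ := av_le_sum n m hm h
  refine ⟨b₀, hb₀, fun b hb => ?_⟩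
  obtain ⟨l₂, Ca, hl₂, hCa, hav⟩ := hav b hb
  have hb20 : (20 : ℝ) ≤ b := hb₀.trans hb
  have hb1 : (1 : ℝ) ≤ b := by linarith
  have hom : 0 < om m := om_pos
  set A : ℝ := 2 * om m * (2 * b + 2) ^ m with hAdef
  have hA : 0 < A := by positivity
  obtain ⟨Cq, hCq, hlq⟩ := lq_int n m b l₂ A hb1 hA
  obtain ⟨Cb, δ₁', l₁', hCb, hδ₁', hδ₁d, hl₁', hbad⟩ := bad_mass n m hm b l₂ A hb1 hl₂ hA
  set C' : ℝ := b * (1 + 3 / 2 * om m) with hC'def
  have hC' : 0 < C' := by positivity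
  set Cx : ℝ := 4 * Ca ^ 2 * (Cq * C₁ + C' ^ 2 * A) + 2 * (Cb * C₁) with hCxdef
  have hCx : 0 < Cx := by positivity
  refine ⟨l₂, 1 + 16 * Cx, hl₂, by positivity, fun k₀ => ?_⟩
  refine ⟨min δ₁' (1 / (k₀ + 2)), min l₁' (l₂ / C'), lt_min hδ₁' (by positivity),
    (min_le_left _ _).trans hδ₁d, lt_min hl₁' (by positivity), ?_⟩
  intro δ S α Λ U V hδ hδ₁ hα hα1 hΛ hlam hLD Q hQ hU hmass hmass2 hG e he hΛe he1 hT
  have hδa : δ ≤ δ₁' := hδ₁.trans (min_le_left _ _)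
  have hδb : δ ≤ 1 / (k₀ + 2) := hδ₁.trans (min_le_right _ _)
  have hδ2 : δ ^ 2 * (k₀ + 2) ≤ 1 := by
    have hk : (0 : ℝ) < (k₀ : ℝ) + 2 := by positivity
    have h1 : δ * (k₀ + 2) ≤ 1 := by
      rwa [le_div_iff₀ hk] at hδb
    have h2 : δ ≤ 1 := by
      refine hδb.trans ?_
      rw [div_le_one hk]
      have : (0 : ℝ) ≤ k₀ := Nat.cast_nonneg _
      linarith
    calc δ ^ 2 * (k₀ + 2) = δ * (δ * (k₀ + 2)) := by ring
      _ ≤ 1 * 1 := mul_le_mul h2 h1 (by positivity) (by norm_num)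
      _ = 1 := one_mul 1
  have hΛlam : Λ ≤ lam α Λ := w9_lam hα hΛ
  have hΛ2 : C' * Λ ≤ l₂ := by
    have h1 : Λ ≤ l₂ / C' := hΛlam.trans (hlam.trans (min_le_right _ _))
    rw [le_div_iff₀ hC'] at h1
    linarith
  have he2 : e ^ 2 ≤ 1 := pow_le_one₀ he.le he1
  have hΛsq : Λ ^ 2 ≤ e ^ 2 := (w9_sq hΛ (hΛe.trans he2)).trans hΛe
  set T : ℝ := ∫ z in ball 0 (2 * b + 1), ‖V.P z - Q‖ ^ 2 ∂V.μ with hTdef
  -- scales
  have hρ : ∀ j : ℕ, 0 < b * (1 / 2 : ℝ) ^ j := fun j => by positivity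
  have hρb : ∀ j : ℕ, b * (1 / 2 : ℝ) ^ j ≤ b := fun j =>
    mul_le_of_le_one_right (by linarith) (pow_le_one₀ (by norm_num) (by norm_num))
  have hrp : ∀ j : ℕ, (b * (1 / 2 : ℝ) ^ j) ^ α ≤ b := by
    intro j
    calc (b * (1 / 2 : ℝ) ^ j) ^ α ≤ b ^ α := Real.rpow_le_rpow (hρ j).le (hρb j) hα.le
      _ ≤ b ^ (1 : ℝ) := Real.rpow_le_rpow_of_exponent_le hb1 hα1.le
      _ = b := Real.rpow_one b
  have hhh : ∀ (j : ℕ) (y : E n), y ∈ V.Gd Q b l₂ j → V.hh (b * (1 / 2) ^ j) y ≤ C' * Λ := by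
    intro j y hy
    have h1 := (hy j le_rfl).2
    have h2 := V.hh_le (hρ j) y
    have h3 : ((b * (1 / 2 : ℝ) ^ j) ^ m)⁻¹ * V.μ.real (ball y (b * (1 / 2) ^ j)) ≤
        3 / 2 * om m := by
      have hp : 0 < (b * (1 / 2 : ℝ) ^ j) ^ m := pow_pos (hρ j) m
      rw [inv_mul_le_iff₀ hp]
      linarith
    calc V.hh (b * (1 / 2) ^ j) y ≤ _ := h2
      _ ≤ Λ * b * (1 + 3 / 2 * om m) := by
        refine mul_le_mul (mul_le_mul_of_nonneg_left (hrp j) hΛ) (by linarith) ?_ (by positivity)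
        have : 0 ≤ V.μ.real (ball y (b * (1 / 2) ^ j)) := measureReal_nonneg
        positivity
      _ = C' * Λ := by rw [hC'def]; ring
  have hball : ∀ y : E n, ‖y‖ < 1 → closedBall y b ⊆ U := by
    intro y hy
    refine Subset.trans ?_ hU
    refine closedBall_subset_closedBall' ?_
    rw [dist_zero_right]
    linarith
  -- the majorant
  set G : ℕ → E n → ℝ := fun j y =>
    (V.Gd Q b l₂ j).indicator (fun y => 4 * Ca ^ 2 * (V.lq Q (b * (1 / 2) ^ j) y + C' ^ 2 * e ^ 2)) y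
      + (V.Gd Q b l₂ j \ V.Gd Q b l₂ (j + 1)).indicator (fun _ => 2) y with hGdef
  have hmGd : ∀ j, MeasurableSet (V.Gd Q b l₂ j) := fun j => V.measurableSet_Gd Q b l₂ j
  have hG1 : ∀ j, Integrable ((V.Gd Q b l₂ j).indicator
      (fun y => 4 * Ca ^ 2 * (V.lq Q (b * (1 / 2) ^ j) y + C' ^ 2 * e ^ 2))) V.μ := by
    intro j
    refine V.integrable_bdd (c := 4 * Ca ^ 2 * (l₂ + C' ^ 2 * e ^ 2)) ?_ ?_
    · exact (((V.measurable_lq Q _).add_const _).const_mul _).indicator (hmGd j)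
    · intro z
      by_cases hz : z ∈ V.Gd Q b l₂ j
      · rw [indicator_of_mem hz]
        have h1 := (hz j le_rfl).1
        have h2 := V.lq_nonneg Q (hρ j) z
        rw [abs_of_nonneg (by positivity)]
        gcongr
      · rw [indicator_of_notMem hz, abs_zero]
        positivity
  have hG2 : ∀ j, Integrable ((V.Gd Q b l₂ j \ V.Gd Q b l₂ (j + 1)).indicator
      (fun _ => (2 : ℝ))) V.μ := by
    intro j
    exact (integrable_const _).indicator ((hmGd j).diff (hmGd (j + 1)))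
  have hGi : ∀ j, Integrable (G j) V.μ := fun j => (hG1 j).add (hG2 j)
  have hxj : ∀ (j : ℕ) (y : E n), V.xj Q b l₂ Ca j y ^ 2 ≤ G j y := by
    intro j y
    refine (w9_ab _ _).trans ?_
    refine add_le_add ?_ ?_
    · by_cases hy : y ∈ V.Gd Q b l₂ j
      · rw [indicator_of_mem hy, indicator_of_mem hy]
        have h1 := V.lq_nonneg Q (hρ j) y
        have h2 := V.hh_nonneg (hρ j) y
        have h3 := hhh j y hy
        have h4 : Real.sqrt (V.lq Q (b * (1 / 2) ^ j) y) ^ 2 = V.lq Q (b * (1 / 2) ^ j) y :=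
          Real.sq_sqrt h1
        have h5 : V.hh (b * (1 / 2) ^ j) y ^ 2 ≤ C' ^ 2 * e ^ 2 := by
          calc V.hh (b * (1 / 2) ^ j) y ^ 2 ≤ (C' * Λ) ^ 2 := pow_le_pow_left₀ h2 h3 2
            _ = C' ^ 2 * Λ ^ 2 := mul_pow _ _ _
            _ ≤ C' ^ 2 * e ^ 2 := mul_le_mul_of_nonneg_left hΛsq (sq_nonneg _)
        have h6 := w9_ab (Real.sqrt (V.lq Q (b * (1 / 2) ^ j) y)) (V.hh (b * (1 / 2) ^ j) y)
        rw [h4] at h6
        have hCa2 : 0 ≤ Ca ^ 2 := sq_nonneg _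
        calc 2 * (Ca * (Real.sqrt (V.lq Q (b * (1 / 2) ^ j) y) + V.hh (b * (1 / 2) ^ j) y)) ^ 2
            = 2 * Ca ^ 2 * (Real.sqrt (V.lq Q (b * (1 / 2) ^ j) y) +
                V.hh (b * (1 / 2) ^ j) y) ^ 2 := by ring
          _ ≤ 2 * Ca ^ 2 * (2 * V.lq Q (b * (1 / 2) ^ j) y + 2 * (C' ^ 2 * e ^ 2)) := by
              refine mul_le_mul_of_nonneg_left ?_ (by positivity)
              linarith
          _ = _ := by ring
      · rw [indicator_of_notMem hy, indicator_of_notMem hy]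
        norm_num
    · by_cases hy : y ∈ V.Gd Q b l₂ j \ V.Gd Q b l₂ (j + 1)
      · rw [indicator_of_mem hy, indicator_of_mem hy]
        norm_num
      · rw [indicator_of_notMem hy, indicator_of_notMem hy]
        norm_num
  have hmass1 : V.μ.real (ball 0 1) ≤ A := by
    refine le_trans (measureReal_mono (ball_subset_ball (by linarith)) ) hmass
  have hGint : ∀ j : ℕ, ∫ y in ball 0 1, G j y ∂V.μ ≤ Cx * (1 + δ ^ 2 * (j + 1)) * e ^ 2 := by
    intro j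
    have h1 : ∫ y in ball 0 1, G j y ∂V.μ =
        4 * Ca ^ 2 * (∫ y in ball 0 1 ∩ V.Gd Q b l₂ j, V.lq Q (b * (1 / 2) ^ j) y ∂V.μ) +
        4 * Ca ^ 2 * (V.μ.real (ball 0 1 ∩ V.Gd Q b l₂ j) * (C' ^ 2 * e ^ 2)) +
        2 * V.μ.real (ball 0 1 ∩ (V.Gd Q b l₂ j \ V.Gd Q b l₂ (j + 1))) := by
      have hi : IntegrableOn (fun y => V.lq Q (b * (1 / 2) ^ j) y)
          (ball 0 1 ∩ V.Gd Q b l₂ j) V.μ := by
        have h2 : Integrable ((V.Gd Q b l₂ j).indicator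
            (fun y => V.lq Q (b * (1 / 2) ^ j) y)) V.μ := by
          refine V.integrable_bdd (c := l₂) ((V.measurable_lq Q _).indicator (hmGd j)) ?_
          intro z
          by_cases hz : z ∈ V.Gd Q b l₂ j
          · rw [indicator_of_mem hz, abs_of_nonneg (V.lq_nonneg Q (hρ j) z)]
            exact (hz j le_rfl).1
          · rw [indicator_of_notMem hz, abs_zero]
            exact hl₂.le
        exact ((integrable_indicator_iff (hmGd j)).1 h2).mono_set inter_subset_right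
      simp only [hGdef]
      rw [integral_add (hG1 j).integrableOn (hG2 j).integrableOn,
        setIntegral_indicator (hmGd j), setIntegral_indicator ((hmGd j).diff (hmGd (j + 1))),
        integral_const_mul, integral_add hi (integrable_const _), setIntegral_const,
        setIntegral_const, smul_eq_mul, smul_eq_mul]
      ring
    have h2 := hlq V hQ hmass j
    have h3 := hbad V hδ hδa hα hα1 hΛ (hlam.trans (min_le_left _ _)) hQ hU hmass hmass2 j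
    have h4 : V.μ.real (ball 0 1 ∩ V.Gd Q b l₂ j) ≤ A :=
      (measureReal_mono inter_subset_left).trans hmass1
    rw [h1]
    have hq : (0 : ℝ) ≤ δ ^ 2 * ((j : ℝ) + 1) := by positivity
    have hT0 : 0 ≤ T := integral_nonneg fun _ => by positivity
    calc 4 * Ca ^ 2 * (∫ y in ball 0 1 ∩ V.Gd Q b l₂ j, V.lq Q (b * (1 / 2) ^ j) y ∂V.μ) +
        4 * Ca ^ 2 * (V.μ.real (ball 0 1 ∩ V.Gd Q b l₂ j) * (C' ^ 2 * e ^ 2)) +
        2 * V.μ.real (ball 0 1 ∩ (V.Gd Q b l₂ j \ V.Gd Q b l₂ (j + 1)))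
        ≤ 4 * Ca ^ 2 * (Cq * (C₁ * e ^ 2)) + 4 * Ca ^ 2 * (A * (C' ^ 2 * e ^ 2)) +
          2 * (Cb * (1 + δ ^ 2 * (j + 1)) * (C₁ * e ^ 2)) := by
          refine add_le_add (add_le_add ?_ ?_) ?_
          · exact mul_le_mul_of_nonneg_left (h2.trans (mul_le_mul_of_nonneg_left hT hCq.le))
              (by positivity)
          · refine mul_le_mul_of_nonneg_left ?_ (by positivity)
            exact mul_le_mul_of_nonneg_right h4 (by positivity)
          · refine mul_le_mul_of_nonneg_left (h3.trans ?_) (by norm_num)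
            exact mul_le_mul_of_nonneg_left hT (by positivity)
      _ = 4 * Ca ^ 2 * (Cq * C₁ + C' ^ 2 * A) * e ^ 2 +
          2 * (Cb * C₁ * (1 + δ ^ 2 * (j + 1)) * e ^ 2) := by ring
      _ ≤ Cx * (1 + δ ^ 2 * (j + 1)) * e ^ 2 :=
          w9_fin1 _ _ _ _ (by positivity) hq
  -- choice of N
  obtain ⟨N, hN, hNe⟩ : ∃ N : ℕ, k₀ ≤ N ∧ 2 * ((1 / 2 : ℝ) ^ N) ^ 2 * A ≤
      ((1 / 2) ^ k₀) ^ 2 * e ^ 2 := by
    have hpos : 0 < ((1 / 2 : ℝ) ^ k₀) ^ 2 * e ^ 2 / (2 * A) := by positivity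
    obtain ⟨N₀, hN₀⟩ := exists_pow_lt_of_lt_one hpos (by norm_num : (1 / 2 : ℝ) < 1)
    refine ⟨max k₀ N₀, le_max_left _ _, ?_⟩
    have h1 : (1 / 2 : ℝ) ^ (max k₀ N₀) ≤ (1 / 2) ^ N₀ :=
      pow_le_pow_of_le_one (by norm_num) (by norm_num) (le_max_right _ _)
    have h2 : ((1 / 2 : ℝ) ^ (max k₀ N₀)) ^ 2 ≤ (1 / 2) ^ (max k₀ N₀) :=
      w9_sq (by positivity) (pow_le_one₀ (by norm_num) (by norm_num))
    have h3 := h2.trans (h1.trans hN₀.le)
    rw [le_div_iff₀ (by positivity)] at h3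
    linarith
  -- pointwise bound
  have hpt : ∀ᵐ y ∂(V.μ.restrict (ball 0 1)), ‖V.av η Q y ((1 / 2) ^ k₀)‖ ^ 2 ≤
      2 * ((1 / 2 : ℝ) ^ N) ^ 2 +
        4 * (1 / 2) ^ k₀ * ∑ j ∈ Finset.Ico k₀ N, (1 / 2 : ℝ) ^ j * G j y := by
    have hsupp : ∀ᵐ y ∂V.μ, y ∈ V.μ.support := by
      rw [ae_iff]
      exact Measure.measure_compl_support
    rw [ae_restrict_iff' measurableSet_ball]
    filter_upwards [hsupp] with y hy hy1
    rw [mem_ball_zero_iff] at hy1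
    have h1 := hav V hδ (hδa.trans hδ₁d) hLD hQ y hy (hball y hy1) k₀ N hN (hG y hy1)
      (fun j hj => (hhh j y hj).trans hΛ2)
    have h2 : 0 ≤ ‖V.av η Q y ((1 / 2) ^ k₀)‖ := norm_nonneg _
    have h3 := (pow_le_pow_left₀ h2 h1 2).trans (w9_ab _ _)
    have h4 := w9_cs k₀ N hN (fun j => V.xj Q b l₂ Ca j y)
    have h5 : ∑ j ∈ Finset.Ico k₀ N, (1 / 2 : ℝ) ^ j * V.xj Q b l₂ Ca j y ^ 2 ≤
        ∑ j ∈ Finset.Ico k₀ N, (1 / 2 : ℝ) ^ j * G j y :=
      Finset.sum_le_sum fun j _ => mul_le_mul_of_nonneg_left (hxj j y) (by positivity)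
    have h6 : (0 : ℝ) ≤ 2 * (1 / 2) ^ k₀ := by positivity
    have h7 := h4.trans (mul_le_mul_of_nonneg_left h5 h6)
    linarith
  have hmaj : Integrable (fun y => 2 * ((1 / 2 : ℝ) ^ N) ^ 2 +
        4 * (1 / 2) ^ k₀ * ∑ j ∈ Finset.Ico k₀ N, (1 / 2 : ℝ) ^ j * G j y)
      (V.μ.restrict (ball 0 1)) := by
    refine (integrable_const _).add (Integrable.const_mul ?_ _)
    exact integrable_finsetSum _ fun j _ => ((hGi j).integrableOn).const_mul _
  have hfin := integral_mono_of_nonneg (μ := V.μ.restrict (ball 0 1))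
    (Eventually.of_forall fun y => by positivity) hmaj hpt
  refine hfin.trans ?_
  have hev : ∫ y in ball 0 1, (2 * ((1 / 2 : ℝ) ^ N) ^ 2 +
        4 * (1 / 2) ^ k₀ * ∑ j ∈ Finset.Ico k₀ N, (1 / 2 : ℝ) ^ j * G j y) ∂V.μ =
      V.μ.real (ball 0 1) * (2 * ((1 / 2 : ℝ) ^ N) ^ 2) +
        4 * (1 / 2) ^ k₀ * ∑ j ∈ Finset.Ico k₀ N, (1 / 2 : ℝ) ^ j * ∫ y in ball 0 1, G j y ∂V.μ := by
    rw [integral_add (integrable_const _) (Integrable.const_mul
      (integrable_finsetSum _ fun j _ => ((hGi j).integrableOn).const_mul _) _),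
      setIntegral_const, smul_eq_mul, integral_const_mul,
      integral_finsetSum _ fun j _ => ((hGi j).integrableOn).const_mul _]
    congr 2
    exact Finset.sum_congr rfl fun j _ => integral_const_mul _ _
  rw [hev]
  have hs1 : ∑ j ∈ Finset.Ico k₀ N, (1 / 2 : ℝ) ^ j * ∫ y in ball 0 1, G j y ∂V.μ ≤
      Cx * e ^ 2 * (4 * (1 / 2) ^ k₀) := by
    calc ∑ j ∈ Finset.Ico k₀ N, (1 / 2 : ℝ) ^ j * ∫ y in ball 0 1, G j y ∂V.μ
        ≤ ∑ j ∈ Finset.Ico k₀ N, (1 / 2 : ℝ) ^ j * (Cx * (1 + δ ^ 2 * (j + 1)) * e ^ 2) :=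
          Finset.sum_le_sum fun j _ => mul_le_mul_of_nonneg_left (hGint j) (by positivity)
      _ = Cx * e ^ 2 * ∑ j ∈ Finset.Ico k₀ N, (1 / 2 : ℝ) ^ j * (1 + δ ^ 2 * (j + 1)) := by
          rw [Finset.mul_sum]
          exact Finset.sum_congr rfl fun j _ => by ring
      _ ≤ Cx * e ^ 2 * (4 * (1 / 2) ^ k₀) := by
          refine mul_le_mul_of_nonneg_left ?_ (by positivity)
          rw [w9_sum _ _ _ hN]
          have h1 : (0 : ℝ) ≤ 2 * (1 / 2) ^ N * (1 + δ ^ 2 * (N + 2)) := by positivity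
          have h2 := w9_fin2 ((1 / 2) ^ k₀) (δ ^ 2) k₀ (by positivity) hδ2
          exact (sub_le_self _ h1).trans h2
  have hs2 : V.μ.real (ball 0 1) * (2 * ((1 / 2 : ℝ) ^ N) ^ 2) ≤
      ((1 / 2) ^ k₀) ^ 2 * e ^ 2 := by
    refine le_trans ?_ hNe
    have h1 : (0 : ℝ) ≤ 2 * ((1 / 2 : ℝ) ^ N) ^ 2 := by positivity
    have h2 := mul_le_mul_of_nonneg_left hmass1 h1
    linarith
  have hs3 : (0 : ℝ) ≤ 4 * (1 / 2) ^ k₀ := by positivity
  have hs4 := mul_le_mul_of_nonneg_left hs1 hs3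
  calc V.μ.real (ball 0 1) * (2 * ((1 / 2 : ℝ) ^ N) ^ 2) +
        4 * (1 / 2) ^ k₀ * ∑ j ∈ Finset.Ico k₀ N, (1 / 2 : ℝ) ^ j * ∫ y in ball 0 1, G j y ∂V.μ
      ≤ ((1 / 2) ^ k₀) ^ 2 * e ^ 2 + 4 * (1 / 2) ^ k₀ * (Cx * e ^ 2 * (4 * (1 / 2) ^ k₀)) :=
        add_le_add hs2 hs4
    _ = (1 + 16 * Cx) * ((1 / 2) ^ k₀) ^ 2 * e ^ 2 := by ring

end Allard
end
end
end
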