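import Pool.Agent.Lib.MP_5932b0_an.AR.W10
import Pool.Agent.Lib.MP_5932b0_an.AR.W11
import Pool.Agent.Lib.MP_5932b0_an.ST.Fin
import Pool.Agent.Lib.MP_5932b0_an.AR.W9
import Pool.Agent.Lib.MP_5932b0_an.AR.B4

section

/-!
# W10a: masses at unit scale

`all_good`: `D` with `(21/20) (D/(D-1))^m ≤ 11/10` and `D ≥ 2b+2`.  For `‖y‖ < 1`:
`ball y (D-1) ⊆ ball 0 D`, so the mass of `ball y (D-1)` is `≤ (11/10) om (D-1)^m`; `ball_mono` with
`κ = 1/20`, `r = D-1`, `s = ρ`, `k` with `2^k ≥ (D-1)/ρ₀`: mass of `ball y ρ` `≤ (23/20) om ρ^m` for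
`ρ₀ ≤ ρ ≤ D-1`.

`glob_avg`: for `μ`-a.e. `z` (in the support): `χ(z) Kr λ ‖Q(z-y)‖ = 1_{ball y 2λ}(z) Kr λ ‖Q(z-y)‖`.
Indeed if `Kr ≠ 0` and `χ ≠ 0`: `‖Q(z-y)‖ < λ`, `‖(1-Q)z‖ < 1/2`, `‖Q z‖ < 2`, so `‖z‖ < 4`, hence
`‖(1-Q)(z-a)‖ ≤ λ/16`, also for `y`, `‖(1-Q)(z-y)‖ ≤ λ/8`, `z ∈ ball y (2λ)`, and `χ z = 1` (`‖(1-Q)z‖ ≤ 1/8`).
Conversely `z ∈ ball y (2λ)` gives `‖z‖ < 3`, `χ z = 1`.
`(1-Q)(z-a) = (1-Q)(z-y) + (1-Q)(y-a)`; the mass `∫ χ Kr λ ≥ λ^{-m} μ(ball y (λ/2)) > 0` (LD).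
-/

noncomputable section

open MeasureTheory Metric Set Filter Topology

namespace Allard

theorem all_good (n m : ℕ) (hm : 1 ≤ m) (D ρ₀ : ℝ) (hD : 2 ≤ D)
    (hD' : 21 / 20 * (D / (D - 1)) ^ m ≤ 11 / 10) (hρ₀ : 0 < ρ₀) :
    ∃ δ₁ l₁ : ℝ, 0 < δ₁ ∧ δ₁ ≤ d0 n ∧ 0 < l₁ ∧
    ∀ {δ : ℝ} {S : Stress n m δ} {α Λ : ℝ} {U : Set (E n)} (V : Sys S α Λ U),
    0 ≤ δ → δ ≤ δ₁ → 0 < α → α < 1 → 0 ≤ Λ → lam α Λ ≤ l₁ → closedBall 0 D ⊆ U →
    V.μ.real (ball 0 D) ≤ 21 / 20 * om m * D ^ m → ∀ (y : E n), ‖y‖ < 1 → ∀ ρ : ℝ,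
    ρ₀ ≤ ρ → ρ ≤ D - 1 → V.μ.real (ball y ρ) ≤ 23 / 20 * om m * ρ ^ m := by
  obtain ⟨k, hk⟩ : ∃ k : ℕ, (D - 1) / ρ₀ < 2 ^ k := pow_unbounded_of_one_lt _ one_lt_two
  obtain ⟨δ₂, l₂, hδ₂, hl₂, hb⟩ := ball_mono n m hm (1 / 20) (by norm_num) k
  have hD0 : 0 < D := by linarith
  have hD1 : 0 < D - 1 := by linarith
  refine ⟨min δ₂ (d0 n), l₂ / D, lt_min hδ₂ d0_pos, min_le_right _ _, by positivity, ?_⟩
  intro δ S α Λ U V hδ hδ1 hα hα1 hΛ hlam hU hμ y hy ρ hρ hρD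
  have hρ0 : 0 < ρ := hρ₀.trans_le hρ
  have hsub : ball y (D - 1) ⊆ ball 0 D := by
    refine ball_subset_ball' ?_
    rw [dist_zero_right]
    linarith
  have hsubc : closedBall y (D - 1) ⊆ U := by
    refine Subset.trans (closedBall_subset_closedBall' ?_) hU
    rw [dist_zero_right]
    linarith
  have hΩ : 0 ≤ om m := measureReal_nonneg
  have hmass : V.μ.real (ball y (D - 1)) ≤ 11 / 10 * om m * (D - 1) ^ m := by
    have h1 : V.μ.real (ball y (D - 1)) ≤ V.μ.real (ball 0 D) := measureReal_mono hsub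
    have h2 : 21 / 20 * om m * D ^ m = 21 / 20 * (D / (D - 1)) ^ m * (om m * (D - 1) ^ m) := by
      rw [div_pow]
      field_simp
    have h3 : 21 / 20 * (D / (D - 1)) ^ m * (om m * (D - 1) ^ m) ≤
        11 / 10 * (om m * (D - 1) ^ m) :=
      mul_le_mul_of_nonneg_right hD' (by positivity)
    calc V.μ.real (ball y (D - 1)) ≤ 21 / 20 * om m * D ^ m := h1.trans hμ
      _ ≤ 11 / 10 * (om m * (D - 1) ^ m) := by rw [h2]; exact h3
      _ = 11 / 10 * om m * (D - 1) ^ m := by ring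
  have hkρ : D - 1 ≤ 2 ^ k * ρ := by
    have h1 : (D - 1) / ρ₀ * ρ₀ = D - 1 := div_mul_cancel₀ _ hρ₀.ne'
    calc D - 1 = (D - 1) / ρ₀ * ρ₀ := h1.symm
      _ ≤ 2 ^ k * ρ := mul_le_mul hk.le hρ hρ₀.le (by positivity)
  have hlr : lam α Λ * (D - 1) ^ α ≤ l₂ := by
    have h0 : 0 ≤ lam α Λ := by
      unfold lam
      refine div_nonneg hΛ ?_
      have h1 := Real.rpow_lt_one_of_one_lt_of_neg (x := 2) (z := -α) one_lt_two (by linarith)
      linarith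
    have h1 : (D - 1) ^ α ≤ D := by
      have h2 := Real.rpow_le_rpow_of_exponent_le (x := D - 1) (by linarith) hα1.le
      rw [Real.rpow_one] at h2
      linarith
    calc lam α Λ * (D - 1) ^ α ≤ l₂ / D * D := mul_le_mul hlam h1 (by positivity) (by positivity)
      _ = l₂ := div_mul_cancel₀ _ hD0.ne'
  have h := hb V hδ (hδ1.trans (min_le_left _ _)) hΛ hα hα1 y ρ (D - 1) (11 / 10) hρ0 hρD hkρ hlr
    hsubc (by norm_num) hmass
  refine h.trans (le_of_eq ?_)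
  ring

theorem exists_D (m : ℕ) (b : ℝ) : ∃ D : ℝ, 2 * b + 4 ≤ D ∧ 20 ≤ D ∧
    21 / 20 * (D / (D - 1)) ^ m ≤ 11 / 10 := by
  refine ⟨max (2 * b + 4) (max 20 (1 + 22 * m)), le_max_left _ _,
    (le_max_left _ _).trans (le_max_right _ _), ?_⟩
  have h1 : 1 + 22 * (m : ℝ) ≤ max (2 * b + 4) (max 20 (1 + 22 * (m : ℝ))) :=
    (le_max_right _ _).trans (le_max_right _ _)
  have h2 : (20 : ℝ) ≤ max (2 * b + 4) (max 20 (1 + 22 * (m : ℝ))) :=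
    (le_max_left _ _).trans (le_max_right _ _)
  set D := max (2 * b + 4) (max 20 (1 + 22 * (m : ℝ))) with hD
  have hD1 : 0 < D - 1 := by linarith
  have h3 : D / (D - 1) ≤ Real.exp (1 / (D - 1)) := by
    have h4 : D / (D - 1) = 1 / (D - 1) + 1 := by
      field_simp
      ring
    rw [h4]
    exact Real.add_one_le_exp _
  have h4 : (D / (D - 1)) ^ m ≤ Real.exp (1 / 22) := by
    calc (D / (D - 1)) ^ m ≤ Real.exp (1 / (D - 1)) ^ m :=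
          pow_le_pow_left₀ (by positivity) h3 m
      _ = Real.exp (m * (1 / (D - 1))) := by rw [← Real.exp_nat_mul]
      _ ≤ Real.exp (1 / 22) := by
          refine Real.exp_le_exp.2 ?_
          rw [mul_one_div, div_le_div_iff₀ hD1 (by norm_num)]
          linarith
  have h5 : Real.exp (1 / 22) ≤ 22 / 21 := by
    have h6 := Real.one_sub_le_exp_neg (1 / 22)
    rw [Real.exp_neg] at h6
    have h7 : (21 / 22 : ℝ) ≤ (Real.exp (1 / 22))⁻¹ := by linarith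
    have h8 := inv_anti₀ (by norm_num) h7
    rw [inv_inv] at h8
    linarith
  linarith

end Allard
end
end

section

/-!
# W12a: pointwise estimate of the height by an affine function

`χ` from `exists_cutoff (1/4) (1/2)`, `h z = (1-Q)(z-a)`.  For `y` in the support, `‖y‖ ≤ 1/4` (`Kr m η 1 t = η t`):
`glob_avg` with `l`: `h y = U_l/M_l - av y l`; `ratio_est`: `‖U_l/M_l - U_1/M_1‖ ≤ C_l w`,
`w = δ∫‖P-Q‖ + ∫‖P-Q‖² + ∫‖H‖ ≤ C (δ e + e²)` (`∫‖P-Q‖ ≤ √(A K) e`);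
`affine_avg` for the measure `V.μ.restrict (ball 0 4)`, `hgt = h`, `c₀ = (31/32) om 4^{-m}`
(for `‖Q p‖ ≤ 1/4`: on `ball 0 (1/4)`, `‖Q(z-p)‖ ≤ 1/2` and `χ = 1`; LD at `0`; the support of
`χ η(‖Q(z-p)‖)` is in `ball 0 4`), `∫‖h‖ ≤ √A e`:
`‖U_1/M_1 - (ℓ₀ + L y)‖ ≤ C e ‖Q y‖²`.
-/

noncomputable section

open MeasureTheory Metric Set Filter Topology

namespace Allard

theorem W12a_cs {n : ℕ} {ν : Measure (E n)} [IsFiniteMeasure ν] {f : E n → ℝ}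
    (hf : Integrable f ν) (hf2 : Integrable (fun z => f z ^ 2) ν) {A B : ℝ}
    (hA : ν.real univ ≤ A) (hA0 : 0 < A) (hB : ∫ z, f z ^ 2 ∂ν ≤ B) :
    ∫ z, f z ∂ν ≤ Real.sqrt (A * B) := by
  set I := ∫ z, f z ∂ν with hI
  have h1 : 0 ≤ ∫ z, (f z - I / A) ^ 2 ∂ν := integral_nonneg fun z => sq_nonneg _
  have h2 : ∫ z, (f z - I / A) ^ 2 ∂ν
      = ∫ z, f z ^ 2 ∂ν - 2 * (I / A) * I + (I / A) ^ 2 * ν.real univ := by
    have e : (fun z => (f z - I / A) ^ 2)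
        = fun z => f z ^ 2 - (2 * (I / A)) * f z + (I / A) ^ 2 := by
      funext z
      ring
    have i1 : ∫ z, (f z ^ 2 - (2 * (I / A)) * f z + (I / A) ^ 2) ∂ν
        = ∫ z, (f z ^ 2 - (2 * (I / A)) * f z) ∂ν + ∫ z, (I / A) ^ 2 ∂ν :=
      integral_add (hf2.sub (hf.const_mul _)) (integrable_const _)
    have i2 : ∫ z, (f z ^ 2 - (2 * (I / A)) * f z) ∂ν
        = ∫ z, f z ^ 2 ∂ν - ∫ z, (2 * (I / A)) * f z ∂ν :=
      integral_sub hf2 (hf.const_mul _)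
    rw [e, i1, i2, integral_const_mul, integral_const, smul_eq_mul, ← hI]
    ring
  apply Real.le_sqrt_of_sq_le
  have h3 : (I / A) ^ 2 * ν.real univ ≤ (I / A) ^ 2 * A :=
    mul_le_mul_of_nonneg_left hA (sq_nonneg _)
  have h4 : (I / A) ^ 2 * A = I ^ 2 / A := by
    field_simp
  have h5 : 2 * (I / A) * I = 2 * (I ^ 2 / A) := by ring
  have h6 : I ^ 2 / A ≤ B := by linarith
  rw [div_le_iff₀ hA0] at h6
  linarith

theorem W12a_Kr_one {m : ℕ} {η : ℝ → ℝ} (t : ℝ) : Kr m η 1 t = η t := by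
  simp [Kr]

/-- the support of the integrands is in `ball 0 4` -/
theorem W12a_out {n m : ℕ} {τ : ℝ} {η : ℝ → ℝ} (h : Ker τ η) {Q : Op n} (hQ : Pr n m Q)
    {χ : E n → ℝ} (χ7 : ∀ z, 1 / 2 ≤ ‖(1 - Q) z‖ → χ z = 0) {p : E n} (hp : ‖Q p‖ ≤ 1 / 4)
    {z : E n} (hz : z ∉ ball (0 : E n) 4) : χ z * η ‖Q (z - p)‖ = 0 := by
  rw [mem_ball_zero_iff, not_lt] at hz
  rcases le_or_gt (1 / 2) ‖(1 - Q) z‖ with h1 | h1
  · rw [χ7 z h1, zero_mul]
  · have h2 := hQ.pyth z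
    have h3 : 3 ≤ ‖Q z‖ := by
      by_contra hcon
      push Not at hcon
      have h4 : 0 ≤ ‖Q z‖ := norm_nonneg _
      have h5 : 0 ≤ ‖(1 - Q) z‖ := norm_nonneg _
      nlinarith
    have h4 : ‖Q z‖ ≤ ‖Q (z - p)‖ + ‖Q p‖ := by
      rw [map_sub]
      have := norm_add_le (Q z - Q p) (Q p)
      rwa [sub_add_cancel] at this
    rw [h.zero _ (by linarith), mul_zero]

theorem pointwise_affine (n m : ℕ) (hm : 1 ≤ m) {τ : ℝ} {η : ℝ → ℝ} (h : Ker τ η) (A K : ℝ)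
    (hA : 0 < A) (hK : 0 < K) : ∃ C : ℝ, 0 < C ∧ ∀ l : ℝ, 0 < l → l < 1 → ∃ C₂ : ℝ, 0 < C₂ ∧
    ∀ {δ : ℝ} {S : Stress n m δ} {α Λ : ℝ} {U : Set (E n)} (V : Sys S α Λ U),
    0 ≤ δ → δ ≤ d0 n → V.LD (1 / 32) → (0 : E n) ∈ V.μ.support → ∀ {Q : Op n}, Pr n m Q →
    closedBall 0 4 ⊆ U → V.μ.real (ball 0 4) ≤ A →
    (∀ z ∈ V.μ.support, ‖z‖ < 4 → ‖(1 - Q) z‖ ≤ 1 / 8) →
    ∀ (a : E n) (e : ℝ), 0 ≤ e →
    (∀ z ∈ V.μ.support, ‖z‖ < 4 → ‖(1 - Q) (z - a)‖ ≤ l / 16) →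
    ∫ z in ball 0 4, ‖(1 - Q) (z - a)‖ ^ 2 ∂V.μ ≤ e ^ 2 →
    ∫ z in ball 0 4, ‖V.P z - Q‖ ^ 2 ∂V.μ ≤ K * e ^ 2 →
    ∫ z in ball 0 4, ‖V.H z‖ ∂V.μ ≤ K * e ^ 2 →
    ∃ (ℓ₀ : E n) (L : Op n), Q ℓ₀ = 0 ∧ L = (1 - Q) * L * Q ∧ ‖L‖ ≤ C * e ∧
      ∀ y ∈ V.μ.support, ‖y‖ ≤ 1 / 4 → ‖(1 - Q) (y - a) - (ℓ₀ + L y)‖ ≤
        ‖V.av η Q y l‖ + C₂ * (δ * e + e ^ 2) + C * e * ‖y‖ ^ 2 := by
  have hom : 0 < om m := om_pos
  obtain ⟨Ca, hCa, haff⟩ := affine_avg n h A ((1 - 1 / 32) * om m * (1 / 4) ^ m) hA (by positivity)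
  obtain ⟨c₁, hc₁, hcut⟩ := exists_cutoff n (1 / 4) (1 / 2) (by norm_num) (by norm_num)
  refine ⟨Ca * Real.sqrt A, by positivity, fun l hl hl1 => ?_⟩
  obtain ⟨Cr, hCr, hrat⟩ := ratio_est n m hm h l A hl hl1 hA
  refine ⟨Cr * (Real.sqrt (A * K) + 2 * K), by positivity, ?_⟩
  intro δ S α Λ U V hδ hδ' hLD h0 Q hQ hU hmass hsl a e he ha hh hP hH
  obtain ⟨χ, χ1, χ2, χ3, χ4, χ5, χ6, χ7, χ8⟩ := hcut hQ
  set ν : Measure (E n) := V.μ.restrict (ball 0 4) with hνdef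
  have hν : ν.real univ ≤ A := by
    rw [hνdef, measureReal_restrict_apply_univ]
    exact hmass
  have hχm : Measurable χ := χ1.continuous.measurable
  set hgt : E n → E n := fun z => (1 - Q) (z - a) with hgtdef
  have hgtc : Continuous hgt := (1 - Q).continuous.comp (continuous_id.sub continuous_const)
  have hgtb : ∀ z ∈ ball (0 : E n) 4, ‖hgt z‖ ≤ 4 + ‖a‖ := by
    intro z hz
    rw [mem_ball_zero_iff] at hz
    calc ‖(1 - Q) (z - a)‖ ≤ ‖z - a‖ := hQ.perp_norm_apply_le _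
      _ ≤ ‖z‖ + ‖a‖ := norm_sub_le _ _
      _ ≤ _ := by linarith
  have hgti : Integrable hgt ν := by
    refine Measure.integrableOn_of_bounded (M := 4 + ‖a‖) (measure_ne_top _ _)
      hgtc.aestronglyMeasurable ?_
    exact (ae_restrict_iff' measurableSet_ball).2 (Filter.Eventually.of_forall hgtb)
  have hgti2 : Integrable (fun z => ‖hgt z‖ ^ 2) ν := by
    refine Measure.integrableOn_of_bounded (M := (4 + ‖a‖) ^ 2) (measure_ne_top _ _)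
      (hgtc.norm.pow 2).aestronglyMeasurable ?_
    refine (ae_restrict_iff' measurableSet_ball).2 (Filter.Eventually.of_forall fun z hz => ?_)
    rw [norm_pow, norm_norm]
    exact pow_le_pow_left₀ (norm_nonneg _) (hgtb z hz) 2
  have hI1 : ∫ z, ‖hgt z‖ ∂ν ≤ Real.sqrt A * e := by
    have := W12a_cs hgti.norm hgti2 hν hA hh
    rwa [Real.sqrt_mul hA.le, Real.sqrt_sq he] at this
  have hPm : Measurable (fun z => ‖V.P z - Q‖) := (V.mP.sub_const Q).norm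
  have hPb : ∀ z, ‖V.P z - Q‖ ≤ 2 := fun z => (V.hP z).norm_sub_le hQ
  have hPi : Integrable (fun z => ‖V.P z - Q‖) ν := by
    refine Integrable.restrict (V.integrable_bdd hPm (c := 2) fun z => ?_)
    rw [abs_of_nonneg (norm_nonneg _)]
    exact hPb z
  have hPi2 : Integrable (fun z => ‖V.P z - Q‖ ^ 2) ν := by
    refine Integrable.restrict (V.integrable_bdd (hPm.pow_const 2) (c := 2 ^ 2) fun z => ?_)
    rw [abs_of_nonneg (by positivity)]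
    exact pow_le_pow_left₀ (norm_nonneg _) (hPb z) 2
  have hI2 : ∫ z in ball 0 4, ‖V.P z - Q‖ ∂V.μ ≤ Real.sqrt (A * K) * e := by
    have := W12a_cs hPi hPi2 hν hA hP
    rwa [← mul_assoc, Real.sqrt_mul (by positivity), Real.sqrt_sq he] at this
  have hmassp : ∀ p, ‖Q p‖ ≤ 1 / 4 →
      ∫ z, χ z * η ‖Q (z - p)‖ ∂ν = ∫ z, χ z * Kr m η 1 ‖Q (z - p)‖ ∂V.μ := by
    intro p hp
    simp only [W12a_Kr_one]
    exact setIntegral_eq_integral_of_forall_compl_eq_zero fun z hz => W12a_out h hQ χ7 hp hz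
  have hheightp : ∀ p, ‖Q p‖ ≤ 1 / 4 →
      ∫ z, (χ z * η ‖Q (z - p)‖) • hgt z ∂ν
        = ∫ z, (χ z * Kr m η 1 ‖Q (z - p)‖) • (1 - Q) (z - a) ∂V.μ := by
    intro p hp
    simp only [W12a_Kr_one]
    exact setIntegral_eq_integral_of_forall_compl_eq_zero fun z hz => by
      rw [W12a_out h hQ χ7 hp hz, zero_smul]
  have hc0 : ∀ p, ‖Q p‖ ≤ 1 / 4 →
      (1 - 1 / 32) * om m * (1 / 4) ^ m ≤ ∫ z, χ z * η ‖Q (z - p)‖ ∂ν := by
    intro p hp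
    have h1 : closedBall (0 : E n) (1 / 4) ⊆ U :=
      (closedBall_subset_closedBall (by norm_num)).trans hU
    have h2 := hLD 0 h0 (1 / 4) (by norm_num) h1
    have hfm : Measurable (fun z => χ z * η ‖Q (z - p)‖) :=
      hχm.mul (h.cont.measurable.comp (Q.continuous.comp
        (continuous_id.sub continuous_const)).norm.measurable)
    have hf0 : ∀ z, 0 ≤ χ z * η ‖Q (z - p)‖ := fun z => mul_nonneg (χ2 z) (h.nonneg _)
    have hf1 : ∀ z, χ z * η ‖Q (z - p)‖ ≤ 1 := fun z =>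
      mul_le_one₀ (χ3 z) (h.nonneg _) (h.le_one _)
    have hfi : Integrable (fun z => χ z * η ‖Q (z - p)‖) V.μ := by
      refine V.integrable_bdd hfm (c := 1) fun z => ?_
      rw [abs_of_nonneg (hf0 z)]
      exact hf1 z
    calc _ ≤ V.μ.real (ball 0 (1 / 4)) := h2
      _ = ∫ z in ball 0 (1 / 4), (1 : ℝ) ∂V.μ := by
          rw [setIntegral_const, smul_eq_mul, mul_one]
      _ = ∫ z in ball 0 (1 / 4), χ z * η ‖Q (z - p)‖ ∂V.μ := by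
          refine setIntegral_congr_fun measurableSet_ball fun z hz => ?_
          rw [mem_ball_zero_iff] at hz
          have g1 : ‖(1 - Q) z‖ ≤ 1 / 4 := (hQ.perp_norm_apply_le z).trans hz.le
          have g2 : ‖Q (z - p)‖ ≤ 1 / 2 := by
            rw [map_sub]
            have g3 := norm_sub_le (Q z) (Q p)
            have g4 := hQ.norm_apply_le z
            linarith
          rw [χ6 z g1, h.one_half g2, mul_one]
      _ ≤ ∫ z in ball 0 4, χ z * η ‖Q (z - p)‖ ∂V.μ := by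
          refine setIntegral_mono_set hfi.integrableOn ?_ ?_
          · exact Filter.Eventually.of_forall hf0
          · exact (ball_subset_ball (by norm_num)).eventuallyLE
  obtain ⟨ℓ₀, L, b1, b2, b3, b4⟩ := haff ν hν hQ χ hχm χ2 χ3 hgt hgtc.measurable
    (fun z => hQ.perp_apply _) hgti hc0
  refine ⟨ℓ₀, L, b1, b2, ?_, ?_⟩
  · calc ‖L‖ ≤ Ca * ∫ z, ‖hgt z‖ ∂ν := b3
      _ ≤ Ca * (Real.sqrt A * e) := mul_le_mul_of_nonneg_left hI1 hCa.le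
      _ = _ := by ring
  intro y hy hy4
  have hQy : ‖Q y‖ ≤ 1 / 4 := (hQ.norm_apply_le y).trans hy4
  obtain ⟨g1, g2⟩ := glob_avg hm h V hLD hQ hU hsl hχm χ2 χ3 χ6 χ7 hl hl1.le ha hy
    (by linarith : ‖y‖ < 1)
  have g3 := hrat V hδ hδ' hLD hQ hU hmass hsl χ χ1 χ2 χ3 χ6 χ7 a
    (fun z hz hz4 => (ha z hz hz4).trans (by linarith)) y hy (by linarith)
  have g4 := b4 y hQy
  rw [hmassp y hQy, hheightp y hQy] at g4
  rw [g2] at g3
  generalize (∫ z, χ z * Kr m η 1 ‖Q (z - y)‖ ∂V.μ)⁻¹ •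
        (∫ z, (χ z * Kr m η 1 ‖Q (z - y)‖) • (1 - Q) (z - a) ∂V.μ) = W at g3 g4
  have g5 : ‖(1 - Q) (y - a) - (ℓ₀ + L y)‖ ≤ ‖V.av η Q y l‖
      + ‖(1 - Q) (y - a) + V.av η Q y l - W‖ + ‖W - (ℓ₀ + L y)‖ := by
    have : (1 - Q) (y - a) - (ℓ₀ + L y) = -V.av η Q y l
        + ((1 - Q) (y - a) + V.av η Q y l - W) + (W - (ℓ₀ + L y)) := by abel
    rw [this]
    refine (norm_add₃_le).trans ?_
    rw [norm_neg]
  have g6 : Ca * (∫ z, ‖hgt z‖ ∂ν) * ‖Q y‖ ^ 2 ≤ Ca * Real.sqrt A * e * ‖y‖ ^ 2 := by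
    have i1 : ‖Q y‖ ^ 2 ≤ ‖y‖ ^ 2 := pow_le_pow_left₀ (norm_nonneg _) (hQ.norm_apply_le y) 2
    calc Ca * (∫ z, ‖hgt z‖ ∂ν) * ‖Q y‖ ^ 2 ≤ Ca * (Real.sqrt A * e) * ‖y‖ ^ 2 := by
          apply mul_le_mul _ i1 (by positivity) (by positivity)
          exact mul_le_mul_of_nonneg_left hI1 hCa.le
      _ = _ := by ring
  have g7 : δ * ∫ z in ball 0 4, ‖V.P z - Q‖ ∂V.μ + ∫ z in ball 0 4, ‖V.P z - Q‖ ^ 2 ∂V.μ
        + ∫ z in ball 0 4, ‖V.H z‖ ∂V.μ ≤ (Real.sqrt (A * K) + 2 * K) * (δ * e + e ^ 2) := by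
    have j1 : δ * ∫ z in ball 0 4, ‖V.P z - Q‖ ∂V.μ ≤ δ * (Real.sqrt (A * K) * e) :=
      mul_le_mul_of_nonneg_left hI2 hδ
    have j2 : 0 ≤ Real.sqrt (A * K) * e ^ 2 := by positivity
    have j3 : 0 ≤ K * (δ * e) := by positivity
    nlinarith
  have g8 := mul_le_mul_of_nonneg_left g7 hCr.le
  calc _ ≤ _ := g5
    _ ≤ ‖V.av η Q y l‖ + Cr * ((Real.sqrt (A * K) + 2 * K) * (δ * e + e ^ 2))
        + Ca * Real.sqrt A * e * ‖y‖ ^ 2 :=
      add_le_add (add_le_add le_rfl (g3.trans g8)) (g4.trans g6)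
    _ = _ := by ring

end Allard
end
end

section

/-!
# W12: the decay lemma (unit scale)

Constants.  Kernel `η` (`exists_ker (1/2)`).  `C₁` from `tilt_height`... depends on `D`, and `D` on `b`, and
`poincare` needs `C₁` before `b`.  To avoid the circle use `poincare` with `C₁ = 1` applied to `e' := √(C_t) e`
(`C_t ≥ 1` the constant of `tilt_height` for this `D`): `∫‖P-Q‖² ≤ C_t e² = e'²`, `Λ ≤ e² ≤ e'²`.
Order: `b := b₀(poincare, C₁ = 1)`; `l₂, C_P`; `D` from `exists_D m b`; `C_s` from `sup_height`, `C_t` from `tilt_height`;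
`C` from `pointwise_affine` (`A := 2 om D^m`, `K`); then `θ`; then `k₀`; then `ε₀, δ₁, l₁`.

Proof.  Write `h z = (1-Q)(z-a)`, `l = 2^{-k₀}`, `χ` from `exists_cutoff (1/4) (1/2)`.
* `sup_height`: on the support in `ball 0 (D-1)`: `‖h‖^{m+2} ≤ C_s e² ≤ (l/16)^{m+2}`, so `‖h‖ ≤ l/16`;
  since `0` is in the support, `‖(1-Q) a‖ ≤ l/16` and `‖(1-Q) z‖ ≤ 1/8`.
* `tilt_height`: `T ≤ C_t e²` on `ball 0 (D-2) ⊇ ball 0 (2b+1)`, `ball 0 4`; `curv_ball`: `∫‖H‖ ≤ C Λ ≤ C e²`.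
* `all_good` (`ρ₀ = b l`): masses; `Gd k₀` holds on `ball 0 1` (`lq(b2^{-j}) ≤ l^{-m} T ≤ l₂`).
* `poincare`: `∫_{ball 0 1} ‖av y l‖² ≤ C_P l² C_t e²`.
* `pointwise_affine`: for `y` in the support, `‖y‖ ≤ 1/4`:
  `‖h y - (ℓ₀ + L y)‖ ≤ ‖av y l‖ + C_l (δ e + e²) + C e ‖y‖²`.
* So `∫_{ball 0 (θD)} ‖h - ℓ₀ - L‖² ≤ 3 C_P C_t l² e² + 3 C_l² (δ e + e²)² A + 3 C² e² (θD)⁴ (23/20) om (θD)^m`
  (`θ D ≤ 1/4`; mass of `ball 0 (θD)` by `all_good`).  Choose `θ` so that the last term is `≤ θ^{m+3} e²/3`, then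
  `k₀`, then `ε₀, δ₁`.
* `graph_plane` with this `L` gives `Q'`; `a' := ℓ₀ + (1-Q) a`:
  `‖(1-Q')(z-a')‖ ≤ ‖(1-Q)(z-a') - L(z-a')‖ = ‖h z - ℓ₀ - L z‖` (`L a' = L Q a' = 0`, `(1-Q)ℓ₀ = ℓ₀`).
-/

noncomputable section

open MeasureTheory Metric Set Filter Topology

namespace Allard

private theorem w12_om_pos (m : ℕ) : 0 < om m := by
  unfold om
  exact ENNReal.toReal_pos (measure_ball_pos volume _ one_pos).ne' measure_ball_lt_top.ne

private theorem w12_eta_nonneg {τ : ℝ} {η : ℝ → ℝ} (h : Ker τ η) (t : ℝ) : 0 ≤ η t := by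
  by_cases h1 : 1 ≤ t
  · rw [h.zero t h1]
  · have h2 := h.anti (le_of_lt (not_le.1 h1))
    rw [h.zero 1 le_rfl] at h2
    exact h2

private theorem w12_eta_le {τ : ℝ} {η : ℝ → ℝ} (h : Ker τ η) (t : ℝ) : η t ≤ 1 := by
  by_cases h1 : t ≤ 1 - τ
  · rw [h.one t h1]
  · have h2 := h.anti (le_of_lt (not_le.1 h1))
    rw [h.one (1 - τ) le_rfl] at h2
    exact h2

/-- measurability of the averages in the centre -/
private theorem w12_meas {n m : ℕ} {δ : ℝ} {S : Stress n m δ} {α Λ : ℝ} {U : Set (E n)}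
    (V : Sys S α Λ U) {τ : ℝ} {η : ℝ → ℝ} (h : Ker τ η) (Q : Op n) (r : ℝ) :
    StronglyMeasurable (fun y => V.av η Q y r) := by
  have hfin : IsFiniteMeasure V.μ := V.fin
  have hset : MeasurableSet {p : E n × E n | p.2 ∈ ball p.1 (2 * r)} := by
    have : IsOpen {p : E n × E n | p.2 ∈ ball p.1 (2 * r)} := by
      simp only [mem_ball]
      exact isOpen_lt (continuous_snd.dist continuous_fst) continuous_const
    exact this.measurableSet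
  have hK : Continuous (fun p : E n × E n => Kr m η r ‖Q (p.2 - p.1)‖) := by
    unfold Kr
    refine continuous_const.mul (h.smooth.continuous.comp ?_)
    exact ((Q.continuous.comp (continuous_snd.sub continuous_fst)).norm).div_const _
  have hF : StronglyMeasurable (fun p : E n × E n =>
      ({p : E n × E n | p.2 ∈ ball p.1 (2 * r)}).indicator
        (fun p => Kr m η r ‖Q (p.2 - p.1)‖) p) :=
    hK.stronglyMeasurable.indicator hset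
  have hG : StronglyMeasurable (fun p : E n × E n =>
      ({p : E n × E n | p.2 ∈ ball p.1 (2 * r)}).indicator
        (fun p => Kr m η r ‖Q (p.2 - p.1)‖ • (1 - Q) (p.2 - p.1)) p) :=
    (hK.smul ((1 - Q).continuous.comp (continuous_snd.sub continuous_fst))).stronglyMeasurable.indicator
      hset
  have h1 := hF.integral_prod_right' (ν := V.μ)
  have h2 := hG.integral_prod_right' (ν := V.μ)
  have e1 : (fun y => ∫ z, ({p : E n × E n | p.2 ∈ ball p.1 (2 * r)}).indicator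
      (fun p => Kr m η r ‖Q (p.2 - p.1)‖) (y, z) ∂V.μ) =
      fun y => ∫ z in ball y (2 * r), Kr m η r ‖Q (z - y)‖ ∂V.μ := by
    funext y
    rw [← integral_indicator measurableSet_ball]
    rfl
  have e2 : (fun y => ∫ z, ({p : E n × E n | p.2 ∈ ball p.1 (2 * r)}).indicator
      (fun p => Kr m η r ‖Q (p.2 - p.1)‖ • (1 - Q) (p.2 - p.1)) (y, z) ∂V.μ) =
      fun y => ∫ z in ball y (2 * r), Kr m η r ‖Q (z - y)‖ • (1 - Q) (z - y) ∂V.μ := by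
    funext y
    rw [← integral_indicator measurableSet_ball]
    rfl
  rw [e1] at h1
  rw [e2] at h2
  have h3 : StronglyMeasurable
      (fun y => (∫ z in ball y (2 * r), Kr m η r ‖Q (z - y)‖ ∂V.μ)⁻¹) :=
    h1.measurable.inv.stronglyMeasurable
  exact h3.smul h2

/-- bound of the averages -/
private theorem w12_bound {n m : ℕ} {δ : ℝ} {S : Stress n m δ} {α Λ : ℝ} {U : Set (E n)}
    (V : Sys S α Λ U) {τ : ℝ} {η : ℝ → ℝ} (h : Ker τ η) {Q : Op n} (hQ : Pr n m Q) {r : ℝ}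
    (hr : 0 < r) (y : E n) : ‖V.av η Q y r‖ ≤ 2 * r := by
  have hfin : IsFiniteMeasure V.μ := V.fin
  have hK0 : ∀ t, 0 ≤ Kr m η r t := fun t => by
    unfold Kr
    exact mul_nonneg (inv_nonneg.2 (pow_nonneg hr.le _)) (w12_eta_nonneg h _)
  have hK1 : ∀ t, Kr m η r t ≤ (r ^ m)⁻¹ := fun t => by
    unfold Kr
    calc (r ^ m)⁻¹ * η (t / r) ≤ (r ^ m)⁻¹ * 1 :=
          mul_le_mul_of_nonneg_left (w12_eta_le h _) (inv_nonneg.2 (pow_nonneg hr.le _))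
      _ = (r ^ m)⁻¹ := mul_one _
  have hKc : Continuous (fun z : E n => Kr m η r ‖Q (z - y)‖) := by
    unfold Kr
    refine continuous_const.mul (h.smooth.continuous.comp ?_)
    exact ((Q.continuous.comp (continuous_id.sub continuous_const)).norm).div_const _
  have hint : IntegrableOn (fun z => Kr m η r ‖Q (z - y)‖) (ball y (2 * r)) V.μ := by
    refine Integrable.of_bound hKc.aestronglyMeasurable (r ^ m)⁻¹ ?_
    exact Filter.Eventually.of_forall (fun z => by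
      rw [Real.norm_eq_abs, abs_of_nonneg (hK0 _)]; exact hK1 _)
  obtain ⟨M, hM⟩ : ∃ M, M = ∫ z in ball y (2 * r), Kr m η r ‖Q (z - y)‖ ∂V.μ := ⟨_, rfl⟩
  have hM0 : 0 ≤ M := by
    rw [hM]
    exact integral_nonneg fun z => hK0 _
  have hN : ‖∫ z in ball y (2 * r), Kr m η r ‖Q (z - y)‖ • (1 - Q) (z - y) ∂V.μ‖ ≤
      M * (2 * r) := by
    calc ‖∫ z in ball y (2 * r), Kr m η r ‖Q (z - y)‖ • (1 - Q) (z - y) ∂V.μ‖
        ≤ ∫ z in ball y (2 * r), Kr m η r ‖Q (z - y)‖ * (2 * r) ∂V.μ := by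
          refine norm_integral_le_of_norm_le (hint.mul_const _) ?_
          refine (ae_restrict_iff' measurableSet_ball).2 (Filter.Eventually.of_forall ?_)
          intro z hz
          rw [mem_ball, dist_eq_norm] at hz
          rw [norm_smul, Real.norm_eq_abs, abs_of_nonneg (hK0 _)]
          exact mul_le_mul_of_nonneg_left ((hQ.perp_norm_apply_le _).trans hz.le) (hK0 _)
      _ = M * (2 * r) := by rw [integral_mul_const, hM]
  unfold Sys.av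
  rw [← hM, norm_smul, norm_inv, Real.norm_eq_abs, abs_of_nonneg hM0]
  rcases hM0.eq_or_lt with h0 | h0
  · rw [← h0, inv_zero, zero_mul]
    positivity
  · rw [inv_mul_le_iff₀ h0]
    exact hN

/-- pointwise bound -/
private theorem w12_point {n m : ℕ} {Q Q' L : Op n} (hQ : Pr n m Q) {ℓ₀ a z av : E n}
    (hQℓ : Q ℓ₀ = 0) (hL : L = (1 - Q) * L * Q)
    (hQ'w : ∀ w, ‖(1 - Q') w‖ ≤ ‖(1 - Q) w - L w‖) {C₂ Ca δ e ρ : ℝ} (hC₂ : 0 < C₂) (hCa : 0 < Ca)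
    (hδ : 0 ≤ δ) (he : 0 < e) (hzρ : ‖z‖ < ρ)
    (hpt : ‖(1 - Q) (z - a) - (ℓ₀ + L z)‖ ≤ ‖av‖ + C₂ * (δ * e + e ^ 2) + Ca * e * ‖z‖ ^ 2) :
    ‖(1 - Q') (z - (ℓ₀ + (1 - Q) a))‖ ^ 2 ≤
      3 * ‖av‖ ^ 2 + (3 * C₂ ^ 2 * ((δ + e) ^ 2 * e ^ 2) + 3 * Ca ^ 2 * e ^ 2 * ρ ^ 4) := by
  have h2 := hQ'w (z - (ℓ₀ + (1 - Q) a))
  have hQa : Q (ℓ₀ + (1 - Q) a) = 0 := by rw [map_add, hQℓ, hQ.perp_apply, add_zero]
  have hLQ : ∀ x, L x = (1 - Q) (L (Q x)) := fun x => congrArg (fun A : Op n => A x) hL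
  have h3 : L (ℓ₀ + (1 - Q) a) = 0 := by rw [hLQ, hQa, map_zero, map_zero]
  have h4 : (1 - Q) (z - (ℓ₀ + (1 - Q) a)) - L (z - (ℓ₀ + (1 - Q) a)) =
      (1 - Q) (z - a) - (ℓ₀ + L z) := by
    have h5 : (1 - Q) ((1 - Q) a) = (1 - Q) a :=
      congrArg (fun A : Op n => A a) hQ.perp_idem
    have h6 : (1 - Q) ℓ₀ = ℓ₀ := by
      show ℓ₀ - Q ℓ₀ = ℓ₀
      rw [hQℓ, sub_zero]
    rw [map_sub, map_sub L, h3, map_add, h5, h6, map_sub]
    abel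
  rw [h4] at h2
  have h5 := h2.trans hpt
  have h6 : Ca * e * ‖z‖ ^ 2 ≤ Ca * e * ρ ^ 2 :=
    mul_le_mul_of_nonneg_left (pow_le_pow_left₀ (norm_nonneg _) hzρ.le 2) (by positivity)
  have h7 : ‖(1 - Q') (z - (ℓ₀ + (1 - Q) a))‖ ≤
      ‖av‖ + C₂ * ((δ + e) * e) + Ca * e * ρ ^ 2 := by
    have h8 : C₂ * (δ * e + e ^ 2) = C₂ * ((δ + e) * e) := by ring
    rw [h8] at h5
    linarith
  have h8 : ∀ x y w : ℝ, (x + y + w) ^ 2 ≤ 3 * x ^ 2 + 3 * y ^ 2 + 3 * w ^ 2 := by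
    intro x y w
    linarith only [sq_nonneg (x - y), sq_nonneg (y - w), sq_nonneg (x - w)]
  calc ‖(1 - Q') (z - (ℓ₀ + (1 - Q) a))‖ ^ 2
      ≤ (‖av‖ + C₂ * ((δ + e) * e) + Ca * e * ρ ^ 2) ^ 2 :=
        pow_le_pow_left₀ (norm_nonneg _) h7 2
    _ ≤ _ := h8 _ _ _
    _ = _ := by ring

/-- integration -/
private theorem w12_int {n m : ℕ} {δ : ℝ} {S : Stress n m δ} {α Λ : ℝ} {U : Set (E n)}
    (V : Sys S α Λ U) {τ : ℝ} {η : ℝ → ℝ} (hη : Ker τ η) {Q Q' : Op n} (hQ : Pr n m Q)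
    (hQ' : Pr n m Q') {l ρ R : ℝ} (hl0 : 0 < l) (hρ1 : ρ ≤ 1) {a' : E n}
    (hpoint : ∀ z ∈ V.μ.support, ‖z‖ < ρ → ‖(1 - Q') (z - a')‖ ^ 2 ≤
      3 * ‖V.av η Q z l‖ ^ 2 + R) :
    ∫ z in ball 0 ρ, ‖(1 - Q') (z - a')‖ ^ 2 ∂V.μ ≤
      3 * ∫ z in ball 0 1, ‖V.av η Q z l‖ ^ 2 ∂V.μ + V.μ.real (ball 0 ρ) * R := by
  have hfin : IsFiniteMeasure V.μ := V.fin
  have hav : Integrable (fun y => ‖V.av η Q y l‖ ^ 2) V.μ := by
    refine Integrable.of_bound (((w12_meas V hη Q l).norm.measurable.pow_const 2).aestronglyMeasurable)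
      ((2 * l) ^ 2) ?_
    exact Filter.Eventually.of_forall (fun z => by
      rw [Real.norm_eq_abs, abs_of_nonneg (by positivity)]
      exact pow_le_pow_left₀ (norm_nonneg _) (w12_bound V hη hQ hl0 z) 2)
  have h1 : ∫ z in ball 0 ρ, ‖V.av η Q z l‖ ^ 2 ∂V.μ ≤ ∫ z in ball 0 1, ‖V.av η Q z l‖ ^ 2 ∂V.μ :=
    setIntegral_mono_set hav.integrableOn
      (Filter.Eventually.of_forall fun z => by positivity)
      (HasSubset.Subset.eventuallyLE (ball_subset_ball hρ1))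
  calc ∫ z in ball 0 ρ, ‖(1 - Q') (z - a')‖ ^ 2 ∂V.μ
      ≤ ∫ z in ball 0 ρ, (3 * ‖V.av η Q z l‖ ^ 2 + R) ∂V.μ := by
        refine integral_mono_ae ?_ ((hav.integrableOn.const_mul 3).add (integrable_const _)) ?_
        · have hc : Continuous (fun z : E n => ‖(1 - Q') (z - a')‖ ^ 2) :=
            (((1 - Q').continuous.comp (continuous_id.sub continuous_const)).norm).pow 2
          refine Integrable.of_bound hc.aestronglyMeasurable ((1 + ‖a'‖) ^ 2) ?_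
          refine (ae_restrict_iff' measurableSet_ball).2 (Filter.Eventually.of_forall ?_)
          intro z hz
          rw [mem_ball_zero_iff] at hz
          rw [Real.norm_eq_abs, abs_of_nonneg (by positivity)]
          refine pow_le_pow_left₀ (norm_nonneg _) ?_ 2
          exact ((hQ'.perp_norm_apply_le _).trans (norm_sub_le _ _)).trans (by linarith)
        · have hae : ∀ᵐ z ∂V.μ, z ∈ V.μ.support := Measure.support_mem_ae
          filter_upwards [ae_restrict_of_ae hae, ae_restrict_mem measurableSet_ball] with z hz hz2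
          rw [mem_ball_zero_iff] at hz2
          exact hpoint z hz hz2
    _ = 3 * ∫ z in ball 0 ρ, ‖V.av η Q z l‖ ^ 2 ∂V.μ + V.μ.real (ball 0 ρ) * R := by
        rw [integral_add (hav.integrableOn.const_mul 3) (integrable_const _), integral_const_mul,
          integral_const]
        simp
    _ ≤ _ := by linarith

/-- numerical estimate -/
private theorem w12_num {m : ℕ} {I M A CP l Ct e C₂ Ca δ D θ B₃ ct κ om' : ℝ}
    (hI : I ≤ CP * l ^ 2 * (Ct * e ^ 2)) (hM0 : 0 ≤ M) (hMA : M ≤ A)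
    (hM : M ≤ 23 / 20 * om' * (θ * D) ^ m) (hA0 : 0 < A) (hC₂ : 0 < C₂) (hCa : 0 < Ca)
    (hlC : 3 * CP * Ct * l ^ 2 ≤ ct) (hκC : 3 * C₂ ^ 2 * A * κ ≤ ct) (hκ1 : κ ≤ 1)
    (hδe : δ + e ≤ κ) (hδe0 : 0 ≤ δ + e) (hθ0 : 0 < θ) (hθB : θ * B₃ ≤ 1 / 3)
    (hB₃ : B₃ = 3 * Ca ^ 2 * (23 / 20 * om') * D ^ (m + 4)) (hct : ct = θ ^ (m + 3) / 3) :
    3 * I + M * (3 * C₂ ^ 2 * ((δ + e) ^ 2 * e ^ 2) + 3 * Ca ^ 2 * e ^ 2 * (θ * D) ^ 4) ≤
      θ ^ (m + 3) * e ^ 2 := by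
  have he2 : 0 ≤ e ^ 2 := by positivity
  have t1 : 3 * I ≤ ct * e ^ 2 := by
    have h1 := mul_le_mul_of_nonneg_right hlC he2
    have h2 : 3 * CP * Ct * l ^ 2 * e ^ 2 = 3 * (CP * l ^ 2 * (Ct * e ^ 2)) := by ring
    rw [h2] at h1
    linarith only [hI, h1]
  have t2 : M * (3 * C₂ ^ 2 * ((δ + e) ^ 2 * e ^ 2)) ≤ ct * e ^ 2 := by
    calc M * (3 * C₂ ^ 2 * ((δ + e) ^ 2 * e ^ 2))
        ≤ A * (3 * C₂ ^ 2 * ((δ + e) ^ 2 * e ^ 2)) :=
          mul_le_mul_of_nonneg_right hMA (by positivity)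
      _ = 3 * C₂ ^ 2 * A * (δ + e) ^ 2 * e ^ 2 := by ring
      _ ≤ ct * e ^ 2 := by
          refine mul_le_mul_of_nonneg_right ?_ he2
          refine le_trans ?_ hκC
          refine mul_le_mul_of_nonneg_left ?_ (by positivity)
          nlinarith only [hκ1, hδe, hδe0]
  have t3 : M * (3 * Ca ^ 2 * e ^ 2 * (θ * D) ^ 4) ≤ ct * e ^ 2 := by
    calc M * (3 * Ca ^ 2 * e ^ 2 * (θ * D) ^ 4)
        ≤ 23 / 20 * om' * (θ * D) ^ m * (3 * Ca ^ 2 * e ^ 2 * (θ * D) ^ 4) :=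
          mul_le_mul_of_nonneg_right hM (by positivity)
      _ = θ * B₃ * θ ^ (m + 3) * e ^ 2 := by
          rw [hB₃]
          ring
      _ ≤ ct * e ^ 2 := by
          refine mul_le_mul_of_nonneg_right ?_ he2
          rw [hct]
          have := mul_le_mul_of_nonneg_right hθB (pow_nonneg hθ0.le (m + 3))
          linarith only [this]
  have h5 : θ ^ (m + 3) * e ^ 2 = ct * e ^ 2 + ct * e ^ 2 + ct * e ^ 2 := by
    rw [hct]
    ring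
  rw [h5, mul_add]
  linarith only [t1, t2, t3]

/-- sup bound -/
private theorem w12_sup {m : ℕ} {x Cs e l : ℝ} (hx : 0 ≤ x) (h1 : x ^ (m + 2) ≤ Cs * e ^ 2)
    (hCs : 0 < Cs) (hee : e ^ 2 ≤ e) (hl : 0 < l) (he : e ≤ (l / 16) ^ (m + 2) / Cs) :
    x ≤ l / 16 := by
  have h2 : Cs * e ^ 2 ≤ (l / 16) ^ (m + 2) := by
    rw [le_div_iff₀ hCs] at he
    calc Cs * e ^ 2 ≤ Cs * e := mul_le_mul_of_nonneg_left hee hCs.le
      _ = e * Cs := mul_comm _ _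
      _ ≤ (l / 16) ^ (m + 2) := he
  exact (pow_le_pow_iff_left₀ hx (by positivity) (by omega)).1 (h1.trans h2)

/-- slab -/
private theorem w12_slab {n m : ℕ} {δ : ℝ} {S : Stress n m δ} {α Λ : ℝ} {U : Set (E n)}
    (V : Sys S α Λ U) {Q : Op n} {a : E n} {l : ℝ} (hl1 : l < 1) (h0s : (0 : E n) ∈ V.μ.support)
    (hsup : ∀ z ∈ V.μ.support, ‖z‖ < 4 → ‖(1 - Q) (z - a)‖ ≤ l / 16) :
    ∀ z ∈ V.μ.support, ‖z‖ < 4 → ‖(1 - Q) z‖ ≤ 1 / 8 := by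
  intro z hz hz4
  have h1 := hsup z hz hz4
  have h2 := hsup 0 h0s (by simp)
  have h3 : (1 - Q) z = (1 - Q) (z - a) - (1 - Q) (0 - a) := by
    rw [← map_sub]
    congr 1
    abel
  rw [h3]
  have h4 := norm_sub_le ((1 - Q) (z - a)) ((1 - Q) (0 - a))
  linarith only [hl1, h1, h2, h4]

/-- restriction of integrals to smaller balls -/
private theorem w12_mono {n : ℕ} {μ : Measure (E n)} {f : E n → ℝ} (hf0 : ∀ z, 0 ≤ f z)
    {t : ℝ} (hf : IntegrableOn f (ball 0 t) μ) (y : E n) {s : ℝ} (hst : ‖y‖ + s ≤ t) :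
    ∫ z in ball y s, f z ∂μ ≤ ∫ z in ball 0 t, f z ∂μ := by
  refine setIntegral_mono_set hf (Filter.Eventually.of_forall fun z => hf0 z)
    (HasSubset.Subset.eventuallyLE ?_)
  refine ball_subset_ball' ?_
  rw [dist_zero_right]
  linarith

/-- integrability of the data -/
private theorem w12_integrable {n m : ℕ} {δ : ℝ} {S : Stress n m δ} {α Λ : ℝ} {U : Set (E n)}
    (V : Sys S α Λ U) {Q : Op n} (hQ : Pr n m Q) (a : E n) (D : ℝ) :
    IntegrableOn (fun z : E n => ‖(1 - Q) (z - a)‖ ^ 2) (ball 0 D) V.μ ∧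
      Integrable (fun z => ‖V.P z - Q‖ ^ 2) V.μ ∧ Integrable (fun z => ‖V.H z‖) V.μ := by
  have hfin : IsFiniteMeasure V.μ := V.fin
  refine ⟨?_, ?_, V.iH.norm⟩
  · have hmh : Continuous (fun z : E n => ‖(1 - Q) (z - a)‖ ^ 2) :=
      (((1 - Q).continuous.comp (continuous_id.sub continuous_const)).norm).pow 2
    refine Integrable.of_bound hmh.aestronglyMeasurable ((D + ‖a‖) ^ 2) ?_
    refine (ae_restrict_iff' measurableSet_ball).2 (Filter.Eventually.of_forall ?_)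
    intro z hz
    rw [mem_ball_zero_iff] at hz
    rw [Real.norm_eq_abs, abs_of_nonneg (by positivity)]
    refine pow_le_pow_left₀ (norm_nonneg _) ?_ 2
    exact ((hQ.perp_norm_apply_le _).trans (norm_sub_le _ _)).trans (by linarith)
  · have hmPQ : Measurable (fun z => ‖V.P z - Q‖) :=
      (continuous_id.sub continuous_const).norm.measurable.comp V.mP
    refine Integrable.of_bound (hmPQ.pow_const 2).aestronglyMeasurable (2 ^ 2) ?_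
    exact Filter.Eventually.of_forall (fun z => by
      rw [Real.norm_eq_abs, abs_of_nonneg (by positivity)]
      exact pow_le_pow_left₀ (norm_nonneg _) ((V.hP z).norm_sub_le hQ) 2)

/-- all scales are good -/
private theorem w12_good {n m : ℕ} {δ : ℝ} {S : Stress n m δ} {α Λ : ℝ} {U : Set (E n)}
    (V : Sys S α Λ U) {Q : Op n} {b l₂ l e Ct D ρ₀ : ℝ} {k₀ : ℕ} (hl : l = (1 / 2) ^ k₀)
    (hb0 : 0 < b) (hl₂ : 0 < l₂) (hCt0 : 0 < Ct) (hee : e ^ 2 ≤ e) (hbD : b + 3 ≤ D)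
    (he : e ≤ l₂ * (b * l) ^ m / Ct) (hρ₀ : ρ₀ ≤ b * l)
    (htilt' : ∀ (y : E n) (s : ℝ), ‖y‖ + s ≤ D - 2 →
      ∫ z in ball y s, ‖V.P z - Q‖ ^ 2 ∂V.μ ≤ Ct * e ^ 2)
    (hG' : ∀ (y : E n), ‖y‖ < 1 → ∀ ρ : ℝ, ρ₀ ≤ ρ → ρ ≤ D - 1 →
      V.μ.real (ball y ρ) ≤ 23 / 20 * om m * ρ ^ m) :
    ∀ y, ‖y‖ < 1 → y ∈ V.Gd Q b l₂ k₀ := by
  intro y hy j hj
  have hom := w12_om_pos m
  have hl0 : 0 < l := by rw [hl]; positivity
  have hlj : l ≤ (1 / 2 : ℝ) ^ j := by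
    rw [hl]
    exact pow_le_pow_of_le_one (by norm_num) (by norm_num) hj
  have hj1 : (1 / 2 : ℝ) ^ j ≤ 1 := pow_le_one₀ (by norm_num) (by norm_num)
  have hρ : b * l ≤ b * (1 / 2) ^ j := mul_le_mul_of_nonneg_left hlj hb0.le
  have hρ' : b * (1 / 2) ^ j ≤ b := by
    have := mul_le_mul_of_nonneg_left hj1 hb0.le
    rwa [mul_one] at this
  refine ⟨?_, ?_⟩
  · unfold Sys.lq
    have h1 := htilt' y (b * (1 / 2) ^ j) (by linarith)
    have h2 : (0 : ℝ) < (b * (1 / 2) ^ j) ^ m := by positivity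
    rw [inv_mul_le_iff₀ h2]
    rw [le_div_iff₀ hCt0] at he
    calc ∫ z in ball y (b * (1 / 2) ^ j), ‖V.P z - Q‖ ^ 2 ∂V.μ ≤ Ct * e ^ 2 := h1
      _ ≤ Ct * e := mul_le_mul_of_nonneg_left hee hCt0.le
      _ = e * Ct := mul_comm _ _
      _ ≤ l₂ * (b * l) ^ m := he
      _ ≤ l₂ * (b * (1 / 2) ^ j) ^ m :=
          mul_le_mul_of_nonneg_left (pow_le_pow_left₀ (by positivity) hρ m) hl₂.le
      _ = (b * (1 / 2) ^ j) ^ m * l₂ := mul_comm _ _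
  · have h1 := hG' y hy (b * (1 / 2) ^ j) (hρ₀.trans hρ) (by linarith)
    refine h1.trans ?_
    have h2 : 0 ≤ om m * (b * (1 / 2) ^ j) ^ m := by positivity
    have h3 : 23 / 20 * om m * (b * (1 / 2) ^ j) ^ m =
      23 / 20 * (om m * (b * (1 / 2) ^ j) ^ m) := by ring
    have h4 : 3 / 2 * om m * (b * (1 / 2) ^ j) ^ m =
      3 / 2 * (om m * (b * (1 / 2) ^ j) ^ m) := by ring
    rw [h3, h4]
    linarith only [h2]

/-- the new plane is close -/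
private theorem w12_plane {n m : ℕ} (hm1 : (1 : ℝ) ≤ m) {Q Q' L : Op n} {Ca e : ℝ}
    (hCa : 0 < Ca) (he : 0 < e) (hQ'n : ‖Q' - Q‖ ^ 2 ≤ 2 * m * ‖L‖ ^ 2) (hLn : ‖L‖ ≤ Ca * e) :
    ‖Q' - Q‖ ≤ 2 * m * Ca * e := by
  have h1 : ‖Q' - Q‖ ^ 2 ≤ (2 * m * Ca * e) ^ 2 := by
    have h2 : ‖L‖ ^ 2 ≤ (Ca * e) ^ 2 := pow_le_pow_left₀ (norm_nonneg _) hLn 2
    calc ‖Q' - Q‖ ^ 2 ≤ 2 * m * ‖L‖ ^ 2 := hQ'n
      _ ≤ 2 * m * (Ca * e) ^ 2 := mul_le_mul_of_nonneg_left h2 (by positivity)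
      _ ≤ (2 * m) ^ 2 * (Ca * e) ^ 2 := by
          refine mul_le_mul_of_nonneg_right ?_ (by positivity)
          nlinarith only [hm1]
      _ = (2 * m * Ca * e) ^ 2 := by ring
  exact (pow_le_pow_iff_left₀ (norm_nonneg _) (by positivity) two_ne_zero).1 h1

private theorem w12_mass {c c' o x M : ℝ} (ho : 0 < o) (hx : 0 ≤ x) (hc : c ≤ c')
    (h : M ≤ c * o * x) : M ≤ c' * o * x := by
  refine h.trans ?_
  exact mul_le_mul_of_nonneg_right (mul_le_mul_of_nonneg_right hc ho.le) hx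

theorem decay_unit (n m : ℕ) (hm : 1 ≤ m) : ∃ D θ C ε₀ δ₁ l₁ : ℝ, 20 ≤ D ∧ 0 < θ ∧
    θ ≤ 1 / 8 ∧ 0 < C ∧ 0 < ε₀ ∧ ε₀ ≤ 1 ∧ 0 < δ₁ ∧ δ₁ ≤ d0 n ∧ 0 < l₁ ∧
    ∀ {δ : ℝ} {S : Stress n m δ} {α Λ : ℝ} {U : Set (E n)} (V : Sys S α Λ U),
    0 ≤ δ → δ ≤ δ₁ → 0 < α → α < 1 → 0 ≤ Λ → lam α Λ ≤ l₁ → V.LD (1 / 32) →
    (0 : E n) ∈ V.μ.support → closedBall 0 D ⊆ U →
    V.μ.real (ball 0 D) ≤ 21 / 20 * om m * D ^ m → ∀ {Q : Op n}, Pr n m Q →
    ∀ (a : E n) (e : ℝ), 0 < e → e ≤ ε₀ → Λ ≤ e ^ 2 →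
    ∫ z in ball 0 D, ‖(1 - Q) (z - a)‖ ^ 2 ∂V.μ ≤ e ^ 2 →
    ∃ (Q' : Op n) (a' : E n), Pr n m Q' ∧ ‖Q' - Q‖ ≤ C * e ∧
      ∫ z in ball 0 (θ * D), ‖(1 - Q') (z - a')‖ ^ 2 ∂V.μ ≤ θ ^ (m + 3) * e ^ 2 := by
  have hom := w12_om_pos m
  have hm1 : (1 : ℝ) ≤ m := by exact_mod_cast hm
  obtain ⟨η, hη⟩ := exists_ker (1 / 2) (by norm_num) le_rfl
  obtain ⟨b, hb20, hb⟩ := poincare n m hm hη 1 one_pos
  obtain ⟨l₂, CP, hl₂, hCP, hP⟩ := hb b le_rfl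
  clear hb
  obtain ⟨D, hDb, hD20, hDm⟩ := exists_D m b
  have hb0 : 0 < b := lt_of_lt_of_le (by norm_num) hb20
  have hD0 : 0 < D := lt_of_lt_of_le (by norm_num) hD20
  have hD1 : (1 : ℝ) ≤ D := le_trans (by norm_num) hD20
  obtain ⟨Cs, εs, hCs, hεs, hS⟩ := sup_height n m hm D (le_trans (by norm_num) hD20)
  obtain ⟨Ct', εt, hCt', hεt, hT⟩ := tilt_height n m hm D (le_trans (by norm_num) hD20)
  obtain ⟨Ct, hCt⟩ : ∃ Ct, Ct = max 1 Ct' := ⟨_, rfl⟩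
  have hCt1 : 1 ≤ Ct := by rw [hCt]; exact le_max_left _ _
  have hCt0 : 0 < Ct := lt_of_lt_of_le one_pos hCt1
  have hCtt : Ct' ≤ Ct := by rw [hCt]; exact le_max_right _ _
  clear hCt hCt'
  obtain ⟨Ch, hCh⟩ : ∃ Ch, Ch = (1 + 2 * om m) * D ^ m := ⟨_, rfl⟩
  have hCh0 : 0 < Ch := by rw [hCh]; positivity
  obtain ⟨A, hA⟩ : ∃ A, A = 2 * om m * D ^ m := ⟨_, rfl⟩
  have hA0 : 0 < A := by rw [hA]; positivity
  obtain ⟨Ca, hCa, hPA⟩ := pointwise_affine n m hm hη A (Ct + Ch) hA0 (add_pos hCt0 hCh0)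
  -- choice of `θ`
  obtain ⟨B₃, hB₃⟩ : ∃ B₃, B₃ = 3 * Ca ^ 2 * (23 / 20 * om m) * D ^ (m + 4) := ⟨_, rfl⟩
  have hB₃0 : 0 < B₃ := by rw [hB₃]; positivity
  obtain ⟨θ, hθ⟩ : ∃ θ, θ = min (1 / (4 * D)) (1 / (3 * B₃)) := ⟨_, rfl⟩
  have hθ0 : 0 < θ := by rw [hθ]; exact lt_min (by positivity) (by positivity)
  have hθD : θ * D ≤ 1 / 4 := by
    have h1 : θ ≤ 1 / (4 * D) := by rw [hθ]; exact min_le_left _ _
    calc θ * D ≤ 1 / (4 * D) * D := mul_le_mul_of_nonneg_right h1 hD0.le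
      _ = 1 / 4 := by field_simp
  have hθB : θ * B₃ ≤ 1 / 3 := by
    have h1 : θ ≤ 1 / (3 * B₃) := by rw [hθ]; exact min_le_right _ _
    calc θ * B₃ ≤ 1 / (3 * B₃) * B₃ := mul_le_mul_of_nonneg_right h1 hB₃0.le
      _ = 1 / 3 := by field_simp
  clear hθ
  have hθ8 : θ ≤ 1 / 8 := by
    have h1 : θ * 20 ≤ θ * D := mul_le_mul_of_nonneg_left hD20 hθ0.le
    clear hP hS hT hPA
    linarith only [hθD, h1]
  have hθD0 : 0 < θ * D := mul_pos hθ0 hD0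
  obtain ⟨ct, hct⟩ : ∃ ct, ct = θ ^ (m + 3) / 3 := ⟨_, rfl⟩
  have hct0 : 0 < ct := by rw [hct]; positivity
  -- choice of `k₀`
  obtain ⟨k₀, hk₀⟩ := exists_pow_lt_of_lt_one (y := (1 / 2 : ℝ))
    (show (0 : ℝ) < min 1 (ct / (3 * CP * Ct)) from lt_min one_pos (by positivity))
    (by norm_num)
  obtain ⟨l, hl⟩ : ∃ l : ℝ, l = (1 / 2) ^ k₀ := ⟨_, rfl⟩
  rw [← hl] at hk₀
  have hl0 : 0 < l := by rw [hl]; positivity
  have hl1 : l < 1 := lt_of_lt_of_le hk₀ (min_le_left _ _)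
  have hlC : 3 * CP * Ct * l ^ 2 ≤ ct := by
    have h1 : l ≤ ct / (3 * CP * Ct) := (lt_of_lt_of_le hk₀ (min_le_right _ _)).le
    rw [le_div_iff₀ (by positivity)] at h1
    have h2 : l ^ 2 ≤ l := by
      have := mul_le_mul_of_nonneg_left hl1.le hl0.le
      rwa [mul_one, ← pow_two] at this
    calc 3 * CP * Ct * l ^ 2 ≤ 3 * CP * Ct * l := mul_le_mul_of_nonneg_left h2 (by positivity)
      _ = l * (3 * CP * Ct) := mul_comm _ _
      _ ≤ ct := h1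
  clear hk₀
  obtain ⟨C₂, hC₂, hPA⟩ := hPA l hl0 hl1
  obtain ⟨δp, lp, hδp, hδp', hlp, hP⟩ := hP k₀
  obtain ⟨δg, lg, hδg, hδg', hlg, hG⟩ := all_good n m hm D (min (b * l) (θ * D))
    (le_trans (by norm_num) hD20) hDm (lt_min (mul_pos hb0 hl0) hθD0)
  obtain ⟨κ, hκ⟩ : ∃ κ, κ = min 1 (ct / (3 * C₂ ^ 2 * A)) := ⟨_, rfl⟩
  have hκ0 : 0 < κ := by rw [hκ]; exact lt_min one_pos (by positivity)
  have hκ1 : κ ≤ 1 := by rw [hκ]; exact min_le_left _ _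
  have hκC : 3 * C₂ ^ 2 * A * κ ≤ ct := by
    have h1 : κ ≤ ct / (3 * C₂ ^ 2 * A) := by rw [hκ]; exact min_le_right _ _
    rw [le_div_iff₀ (by positivity)] at h1
    rwa [mul_comm] at h1
  clear hκ
  have hκh : 0 < κ / 2 := half_pos hκ0
  have hκ₂0 : 0 < l₂ * (b * l) ^ m / Ct := by positivity
  have hκ₃0 : 0 < (l / 16) ^ (m + 2) / Cs := by positivity
  obtain ⟨ε₀, hε₀⟩ : ∃ ε₀, ε₀ = min (min (κ / 2) (min εs εt))
      (min (min (l₂ * (b * l) ^ m / Ct) ((l / 16) ^ (m + 2) / Cs)) (1 / Ct)) := ⟨_, rfl⟩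
  have hε₀0 : 0 < ε₀ := by
    rw [hε₀]
    exact lt_min (lt_min hκh (lt_min hεs hεt))
      (lt_min (lt_min hκ₂0 hκ₃0) (one_div_pos.2 hCt0))
  have e1 : ε₀ ≤ κ / 2 := by rw [hε₀]; exact (min_le_left _ _).trans (min_le_left _ _)
  have e2 : ε₀ ≤ εs := by
    rw [hε₀]; exact (min_le_left _ _).trans ((min_le_right _ _).trans (min_le_left _ _))
  have e3 : ε₀ ≤ εt := by
    rw [hε₀]; exact (min_le_left _ _).trans ((min_le_right _ _).trans (min_le_right _ _))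
  have e4 : ε₀ ≤ l₂ * (b * l) ^ m / Ct := by
    rw [hε₀]; exact (min_le_right _ _).trans ((min_le_left _ _).trans (min_le_left _ _))
  have e5 : ε₀ ≤ (l / 16) ^ (m + 2) / Cs := by
    rw [hε₀]; exact (min_le_right _ _).trans ((min_le_left _ _).trans (min_le_right _ _))
  have e6 : ε₀ ≤ 1 / Ct := by rw [hε₀]; exact (min_le_right _ _).trans (min_le_right _ _)
  clear hε₀
  have hκ21 : κ / 2 ≤ 1 := (half_le_self hκ0.le).trans hκ1
  refine ⟨D, θ, 2 * m * Ca, ε₀, min (min δp δg) (κ / 2), min lp lg, hD20, hθ0, hθ8,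
    by positivity, hε₀0, e1.trans hκ21, lt_min (lt_min hδp hδg) hκh,
    (min_le_left _ _).trans ((min_le_left _ _).trans hδp'), lt_min hlp hlg, ?_⟩
  intro δ S α Λ U V hδ hδ1 hα hα' hΛ hlam hLD h0s hU hmass Q hQ a e he0 he hΛe hheight
  have hfin : IsFiniteMeasure V.μ := V.fin
  have hδp1 : δ ≤ δp := hδ1.trans ((min_le_left _ _).trans (min_le_left _ _))
  have hδg1 : δ ≤ δg := hδ1.trans ((min_le_left _ _).trans (min_le_right _ _))
  have hδκ : δ ≤ κ / 2 := hδ1.trans (min_le_right _ _)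
  have hδd : δ ≤ d0 n := hδp1.trans hδp'
  have he1 : e ≤ 1 := he.trans (e1.trans hκ21)
  have hee : e ^ 2 ≤ e := by
    have := mul_le_mul_of_nonneg_left he1 he0.le
    rwa [mul_one, ← pow_two] at this
  have he20 : 0 ≤ e ^ 2 := sq_nonneg e
  -- numerical facts on `D`, `b`
  have n1 : b + 3 ≤ D := by clear hP hS hT hPA hG; linarith only [hDb, hD20]
  have n2 : ‖(0 : E n)‖ + (2 * b + 1) ≤ D - 2 := by
    rw [norm_zero]; clear hP hS hT hPA hG; linarith only [hDb]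
  have n3 : 2 * b + 2 ≤ D - 1 := by clear hP hS hT hPA hG; linarith only [hDb]
  have n4 : 2 * b ≤ D - 1 := by clear hP hS hT hPA hG; linarith only [n3]
  have n5 : 2 * b + 2 ≤ D := by clear hP hS hT hPA hG; linarith only [n3]
  have n6 : (4 : ℝ) < D - 1 := by clear hP hS hT hPA hG; linarith only [hD20]
  have n7 : ‖(0 : E n)‖ + 4 ≤ D - 2 := by
    rw [norm_zero]; clear hP hS hT hPA hG; linarith only [hD20]
  have n8 : ‖(0 : E n)‖ + 4 ≤ D := by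
    rw [norm_zero]; clear hP hS hT hPA hG; linarith only [n6]
  have n9 : (4 : ℝ) ≤ D := by clear hP hS hT hPA hG; linarith only [n6]
  have n10 : b * l ≤ 2 * b := by
    have := mul_le_mul_of_nonneg_left hl1.le hb0.le
    rw [mul_one] at this
    clear hP hS hT hPA hG
    linarith only [hb0, this]
  have n11 : (1 / 4 : ℝ) ≤ D := by clear hP hS hT hPA hG; linarith only [n9]
  have n12 : (1 / 4 : ℝ) ≤ D - 1 := by clear hP hS hT hPA hG; linarith only [n9]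
  -- the masses
  have hmD : V.μ.real (ball 0 D) ≤ A := by
    rw [hA]
    exact w12_mass hom (by positivity) (by norm_num) hmass
  have hmD' : V.μ.real (ball 0 D) ≤ 2 * om m * D ^ m := by rw [← hA]; exact hmD
  have hG' := hG V hδ hδg1 hα hα' hΛ (hlam.trans (min_le_right _ _)) hU hmass
  -- integrability
  obtain ⟨hih, hiPQ, hiH⟩ := w12_integrable V hQ a D
  -- tilt
  have htilt : ∫ z in ball 0 (D - 2), ‖V.P z - Q‖ ^ 2 ∂V.μ ≤ Ct * e ^ 2 :=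
    (hT V hδ hδd hα hα' hΛ hU hLD hQ a e he0.le (he.trans e3) hΛe hmD' hheight).trans
      (mul_le_mul_of_nonneg_right hCtt he20)
  have htilt' : ∀ (y : E n) (s : ℝ), ‖y‖ + s ≤ D - 2 →
      ∫ z in ball y s, ‖V.P z - Q‖ ^ 2 ∂V.μ ≤ Ct * e ^ 2 := fun y s hys =>
    (w12_mono (fun z => sq_nonneg _) hiPQ.integrableOn y hys).trans htilt
  -- curvature
  have hcurv : ∫ z in ball 0 4, ‖V.H z‖ ∂V.μ ≤ Ch * e ^ 2 := by
    have h1 := curv_ball V hα hα' hΛ D hD1 hmD'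
    rw [← hCh] at h1
    exact (w12_mono (fun z => norm_nonneg _) hiH.integrableOn 0 n8).trans
      (h1.trans (mul_le_mul_of_nonneg_left hΛe hCh0.le))
  -- sup bound
  have hsup : ∀ z ∈ V.μ.support, ‖z‖ < 4 → ‖(1 - Q) (z - a)‖ ≤ l / 16 := fun z hz hz4 =>
    w12_sup (norm_nonneg _) (hS V hU hLD hQ a e he0.le (he.trans e2) hheight z hz
      (hz4.trans n6)).1 hCs hee hl0 (he.trans e5)
  have hslab := w12_slab V hl1 h0s hsup
  -- all scales are good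
  have hgood := w12_good V hl hb0 hl₂ hCt0 hee n1 (he.trans e4) (min_le_left _ _) htilt' hG'
  -- Poincare
  have hsq : Real.sqrt Ct ^ 2 = Ct := Real.sq_sqrt hCt0.le
  have hsq1 : 1 ≤ Real.sqrt Ct := Real.one_le_sqrt.2 hCt1
  have hsqe : (Real.sqrt Ct * e) ^ 2 = Ct * e ^ 2 := by rw [mul_pow, hsq]
  have hpoin : ∫ y in ball 0 1, ‖V.av η Q y l‖ ^ 2 ∂V.μ ≤ CP * l ^ 2 * (Ct * e ^ 2) := by
    have h1 := hP V hδ hδp1 hα hα' hΛ (hlam.trans (min_le_left _ _)) hLD hQ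
      ((closedBall_subset_closedBall n5).trans hU)
      (w12_mass hom (by positivity) (by norm_num) (hG' 0 (by simp) (2 * b + 2)
        ((min_le_left _ _).trans (n10.trans (by norm_num))) n3))
      (fun y hy => w12_mass hom (by positivity) (by norm_num) (hG' y hy (2 * b)
        ((min_le_left _ _).trans n10) n4))
      hgood (Real.sqrt Ct * e) (mul_pos (lt_of_lt_of_le one_pos hsq1) he0)
      (by
        rw [hsqe]
        refine hΛe.trans ?_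
        have := mul_le_mul_of_nonneg_right hCt1 he20
        rwa [one_mul] at this)
      (by
        have h2 : e * Ct ≤ 1 := by
          have := he.trans e6
          rwa [le_div_iff₀ hCt0] at this
        have h3 : Real.sqrt Ct ≤ Ct := by
          have := mul_le_mul_of_nonneg_left hsq1 (Real.sqrt_nonneg Ct)
          rwa [mul_one, ← pow_two, hsq] at this
        calc Real.sqrt Ct * e ≤ Ct * e := mul_le_mul_of_nonneg_right h3 he0.le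
          _ = e * Ct := mul_comm _ _
          _ ≤ 1 := h2)
      (by
        rw [one_mul, hsqe]
        exact htilt' 0 (2 * b + 1) n2)
    rw [← hl, hsqe] at h1
    exact h1
  -- the affine function
  obtain ⟨ℓ₀, L, hQℓ, hL, hLn, hpt⟩ := hPA V hδ hδd hLD h0s hQ
    ((closedBall_subset_closedBall n9).trans hU)
    ((measureReal_mono (ball_subset_ball n9) (measure_ne_top _ _)).trans hmD)
    hslab a e he0.le hsup
    ((w12_mono (fun z => sq_nonneg _) hih 0 n8).trans hheight)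
    ((htilt' 0 4 n7).trans (mul_le_mul_of_nonneg_right (le_add_of_nonneg_right hCh0.le) he20))
    (hcurv.trans (mul_le_mul_of_nonneg_right (le_add_of_nonneg_left hCt0.le) he20))
  obtain ⟨Q', hQ', hQ'n, _, hQ'w⟩ := graph_plane hQ hL
  refine ⟨Q', ℓ₀ + (1 - Q) a, hQ', w12_plane hm1 hCa he0 hQ'n hLn, ?_⟩
  -- integration
  have hfinal := w12_int V hη hQ hQ' hl0 (hθD.trans (by norm_num)) (a' := ℓ₀ + (1 - Q) a)
    (fun z hz hzθ => w12_point hQ hQℓ hL hQ'w hC₂ hCa hδ he0 hzθ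
      (hpt z hz (hzθ.le.trans hθD)))
  refine hfinal.trans ?_
  have hδe : δ + e ≤ κ := (add_le_add hδκ (he.trans e1)).trans (le_of_eq (add_halves κ))
  exact w12_num hpoin measureReal_nonneg
    ((measureReal_mono (ball_subset_ball (hθD.trans n11)) (measure_ne_top _ _)).trans hmD)
    (hG' 0 (by simp) (θ * D) (min_le_right _ _) (hθD.trans n12)) hA0 hC₂ hCa hlC hκC hκ1
    hδe (add_nonneg hδ he0.le) hθ0 hθB hB₃ hct

end Allard
end
end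

section

/-!
# W13: scaled versions of the decay lemma, sup bound and tilt bound

Apply the unit statements to `V.rs y (r/D)` (`Λ' = Λ (r/D)^α ≤ Λ r^α` since `D ≥ 1`,
`lam α Λ' ≤ lam α Λ r^α`).
`∫_{ball 0 D} ‖(1-Q)(w-a')‖² dμ' = (r/D)^{-m} (r/D)^{-2} ∫_{ball y r} ‖(1-Q)(z-a)‖² dμ` with `a = y + (r/D) a'`;
so `e'² := D^{m+2} e²`.  (For `Λ' ≤ e'²`: `Λ r^α ≤ e²`.)
Tilt bound on `ball y (r/2)`: `tilt_height` on `ball 0 (D-2) ⊇ ball 0 (D/2)`.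
-/

noncomputable section

open MeasureTheory Metric Set Filter Topology

namespace Allard

private theorem W13_dist {n : ℕ} (y : E n) {ρ : ℝ} (hρ : 0 < ρ) (z w : E n) :
    ρ⁻¹ • (z - y) - w = ρ⁻¹ • (z - (y + ρ • w)) := by
  rw [← sub_sub, smul_sub ρ⁻¹ (z - y), smul_smul, inv_mul_cancel₀ hρ.ne', one_smul]

private theorem W13_ball {n : ℕ} (y : E n) {ρ : ℝ} (hρ : 0 < ρ) (s : ℝ) :
    (fun z : E n => ρ⁻¹ • (z - y)) ⁻¹' ball 0 s = ball y (ρ * s) := by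
  ext z
  rw [mem_preimage, mem_ball_zero_iff, mem_ball, dist_eq_norm, norm_smul,
    Real.norm_of_nonneg (inv_nonneg.2 hρ.le), inv_mul_lt_iff₀ hρ]

private theorem W13_int {n m : ℕ} {δ : ℝ} {S : Stress n m δ} {α Λ : ℝ} {U : Set (E n)}
    (V : Sys S α Λ U) (y : E n) {ρ : ℝ} (hρ : 0 < ρ) (Q : Op n) (w : E n) (s : ℝ) :
    ∫ z in ball y (ρ * s), ‖(1 - Q) (z - (y + ρ • w))‖ ^ 2 ∂V.μ =
      ρ ^ (m + 2) * ∫ z in ball 0 s, ‖(1 - Q) (z - w)‖ ^ 2 ∂(V.rs y ρ hρ).μ := by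
  rw [rs_setIntegral V y ρ hρ _ measurableSet_ball, W13_ball y hρ]
  have e1 : ∀ z : E n, ‖(1 - Q) (ρ⁻¹ • (z - y) - w)‖ ^ 2 =
      (ρ⁻¹) ^ 2 * ‖(1 - Q) (z - (y + ρ • w))‖ ^ 2 := by
    intro z
    rw [W13_dist y hρ, map_smul, norm_smul, Real.norm_of_nonneg (inv_nonneg.2 hρ.le), mul_pow]
  simp only [e1]
  rw [integral_const_mul]
  have h1 : ρ ≠ 0 := hρ.ne'
  field_simp
  ring

private theorem W13_tilt {n m : ℕ} {δ : ℝ} {S : Stress n m δ} {α Λ : ℝ} {U : Set (E n)}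
    (V : Sys S α Λ U) (y : E n) {ρ : ℝ} (hρ : 0 < ρ) (Q : Op n) (s : ℝ) :
    ∫ z in ball y (ρ * s), ‖V.P z - Q‖ ^ 2 ∂V.μ =
      ρ ^ m * ∫ z in ball 0 s, ‖(V.rs y ρ hρ).P z - Q‖ ^ 2 ∂(V.rs y ρ hρ).μ := by
  rw [rs_setIntegral V y ρ hρ _ measurableSet_ball, W13_ball y hρ]
  have e1 : ∀ z : E n, ‖(V.rs y ρ hρ).P (ρ⁻¹ • (z - y)) - Q‖ ^ 2 = ‖V.P z - Q‖ ^ 2 := by
    intro z
    rw [rs_P, rsT_back y ρ hρ]
  simp only [e1]
  have h1 : ρ ^ m ≠ 0 := pow_ne_zero _ hρ.ne'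
  rw [mul_inv_cancel_left₀ h1]

private theorem W13_ii {n m : ℕ} {δ : ℝ} {S : Stress n m δ} {α Λ : ℝ} {U : Set (E n)}
    (V : Sys S α Λ U) {Q : Op n} (hQ : Pr n m Q) :
    Integrable (fun z => ‖V.P z - Q‖ ^ 2) V.μ := by
  have h1 : Measurable fun z => ‖V.P z - Q‖ ^ 2 := (V.mP.sub_const Q).norm.pow_const 2
  refine Integrable.of_bound h1.aestronglyMeasurable 4 (Eventually.of_forall fun z => ?_)
  have h2 := (V.hP z).norm_sub_le hQ
  rw [Real.norm_of_nonneg (by positivity)]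
  nlinarith only [h2, norm_nonneg (V.P z - Q)]

theorem decay (n m : ℕ) (hm : 1 ≤ m) : ∃ θ C ε₀ δ₁ l₁ : ℝ, 0 < θ ∧
    θ ≤ 1 / 8 ∧ 0 < C ∧ 0 < ε₀ ∧ ε₀ ≤ 1 ∧ 0 < δ₁ ∧ δ₁ ≤ d0 n ∧ 0 < l₁ ∧
    ∀ {δ : ℝ} {S : Stress n m δ} {α Λ : ℝ} {U : Set (E n)} (V : Sys S α Λ U),
    0 ≤ δ → δ ≤ δ₁ → 0 < α → α < 1 → 0 ≤ Λ → V.LD (1 / 32) → ∀ y ∈ V.μ.support,
    ∀ r : ℝ, 0 < r → lam α Λ * r ^ α ≤ l₁ → closedBall y r ⊆ U →
    V.μ.real (ball y r) ≤ 21 / 20 * om m * r ^ m → ∀ {Q : Op n}, Pr n m Q →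
    ∀ (a : E n) (e : ℝ), 0 < e → e ≤ ε₀ → Λ * r ^ α ≤ e ^ 2 →
    ∫ z in ball y r, ‖(1 - Q) (z - a)‖ ^ 2 ∂V.μ ≤ e ^ 2 * r ^ (m + 2) →
    (∃ (Q' : Op n) (a' : E n), Pr n m Q' ∧ ‖Q' - Q‖ ≤ C * e ∧
      ∫ z in ball y (θ * r), ‖(1 - Q') (z - a')‖ ^ 2 ∂V.μ ≤ θ * e ^ 2 * (θ * r) ^ (m + 2)) ∧
    ∫ z in ball y (3 / 4 * r), ‖V.P z - Q‖ ^ 2 ∂V.μ ≤ C * e ^ 2 * r ^ m ∧
    ∀ z ∈ V.μ.support, ‖z - y‖ < r / 2 →
      ‖(1 - Q) (z - a)‖ ^ (m + 2) ≤ C * e ^ 2 * r ^ (m + 2) := by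
  obtain ⟨D, θ, Cd, εd, δ₁, l₁, hD, hθ, hθ', hCd, hεd, hεd', hδ₁, hδ₁', hl₁, hdec⟩ :=
    decay_unit n m hm
  obtain ⟨Cs, εs, hCs, hεs, hsup⟩ := sup_height n m hm D (by linarith)
  obtain ⟨Ct, εt, hCt, hεt, htil⟩ := tilt_height n m hm D (by linarith)
  have hD0 : 0 < D := by linarith
  set K : ℝ := Real.sqrt (D ^ (m + 2)) with hK
  have hK2 : K ^ 2 = D ^ (m + 2) := Real.sq_sqrt (by positivity)
  have hK0 : 0 < K := Real.sqrt_pos.2 (by positivity)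
  have hK1 : 1 ≤ K := by
    rw [hK, Real.one_le_sqrt]
    exact one_le_pow₀ (by linarith)
  set ε₁ : ℝ := min εd (min εs εt) with hε₁
  have hε₁0 : 0 < ε₁ := lt_min hεd (lt_min hεs hεt)
  have hε₁d : ε₁ ≤ εd := min_le_left _ _
  have hε₁s : ε₁ ≤ εs := (min_le_right _ _).trans (min_le_left _ _)
  have hε₁t : ε₁ ≤ εt := (min_le_right _ _).trans (min_le_right _ _)
  refine ⟨θ, Cd * K + Ct * D ^ 2 + Cs, ε₁ / K, δ₁, l₁, hθ, hθ', by positivity, by positivity,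
    ?_, hδ₁, hδ₁', hl₁, ?_⟩
  · rw [div_le_one hK0]
    linarith
  intro δ S α Λ U V hδ0 hδ hα hα' hΛ hLD y hy r hr hlam hU hmass Q hQ a e he heε hΛe hint
  set ρ : ℝ := r / D with hρdef
  have hρ : 0 < ρ := by positivity
  have hρD : ρ * D = r := by
    rw [hρdef]
    field_simp
  have hρr : ρ ≤ r := by
    rw [hρdef, div_le_iff₀ hD0]
    nlinarith only [hD, hr]
  have hρα : ρ ^ α ≤ r ^ α := Real.rpow_le_rpow hρ.le hρr hα.le
  have hlam0 : 0 ≤ lam α Λ := by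
    unfold lam
    refine div_nonneg hΛ ?_
    have h1 : (2 : ℝ) ^ (-α) ≤ 1 := Real.rpow_le_one_of_one_le_of_nonpos (by norm_num) (by linarith)
    linarith
  set V' := V.rs y ρ hρ with hV'
  set w : E n := ρ⁻¹ • (a - y) with hw
  have hwa : y + ρ • w = a := by
    rw [hw]
    exact rsT_back y ρ hρ a
  have hK' : (K * e) ^ 2 = D ^ (m + 2) * e ^ 2 := by rw [mul_pow, hK2]
  have hU' : closedBall 0 D ⊆ (fun w => y + ρ • w) ⁻¹' U := by
    intro z hz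
    refine hU ?_
    rw [mem_closedBall_zero_iff] at hz
    rw [mem_closedBall, dist_eq_norm, add_sub_cancel_left, norm_smul, Real.norm_of_nonneg hρ.le,
      ← hρD]
    exact mul_le_mul_of_nonneg_left hz hρ.le
  have hLD' : V'.LD (1 / 32) := rs_LD V y ρ hρ hLD
  have h0 : (0 : E n) ∈ V'.μ.support := by
    rw [hV', rs_support, smul_zero, add_zero]
    exact hy
  have hΛ' : 0 ≤ Λ * ρ ^ α := by positivity
  have hl' : lam α (Λ * ρ ^ α) ≤ l₁ := by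
    rw [lam_mul]
    exact (mul_le_mul_of_nonneg_left hρα hlam0).trans hlam
  have hΛe' : Λ * ρ ^ α ≤ (K * e) ^ 2 := by
    have h1 : Λ * ρ ^ α ≤ e ^ 2 := (mul_le_mul_of_nonneg_left hρα hΛ).trans hΛe
    have h2 : e ^ 2 ≤ (K * e) ^ 2 := by
      rw [mul_pow]
      have : 1 ≤ K ^ 2 := one_le_pow₀ hK1
      nlinarith only [this]
    linarith
  have hKe : K * e ≤ ε₁ := by
    rw [le_div_iff₀ hK0] at heε
    linarith
  have hKe0 : 0 < K * e := by positivity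
  have hom : 0 ≤ om m := by
    unfold om
    exact measureReal_nonneg
  have hmass' : V'.μ.real (ball 0 D) ≤ 21 / 20 * om m * D ^ m := by
    rw [hV', rs_real_ball, smul_zero, add_zero, hρD, inv_mul_le_iff₀ (by positivity)]
    refine hmass.trans (le_of_eq ?_)
    rw [← hρD, mul_pow]
    ring
  have hmass2 : V'.μ.real (ball 0 D) ≤ 2 * om m * D ^ m := by
    refine hmass'.trans ?_
    have h1 : 0 ≤ om m * D ^ m := by positivity
    linarith only [h1]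
  have hint' : ∫ z in ball 0 D, ‖(1 - Q) (z - w)‖ ^ 2 ∂V'.μ ≤ (K * e) ^ 2 := by
    have h1 := W13_int V y hρ Q w D
    rw [hwa, hρD] at h1
    rw [h1, ← hρD, mul_pow] at hint
    have h2 : 0 < ρ ^ (m + 2) := by positivity
    rw [hK']
    refine le_of_mul_le_mul_left (hint.trans (le_of_eq ?_)) h2
    ring
  have hCle1 : Cd * K ≤ Cd * K + Ct * D ^ 2 + Cs := by
    have : 0 ≤ Ct * D ^ 2 := by positivity
    linarith only [hCs, this]
  have hCle2 : Ct * D ^ 2 ≤ Cd * K + Ct * D ^ 2 + Cs := by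
    have : 0 ≤ Cd * K := by positivity
    linarith only [hCs, this]
  have hCle3 : Cs ≤ Cd * K + Ct * D ^ 2 + Cs := by
    have : 0 ≤ Cd * K := by positivity
    have : 0 ≤ Ct * D ^ 2 := by positivity
    linarith
  refine ⟨?_, ?_, ?_⟩
  · obtain ⟨Q', a'', hQ', hQQ, hI⟩ := hdec V' hδ0 hδ hα hα' hΛ' hl' hLD' h0 hU' hmass' hQ w (K * e)
      hKe0 (hKe.trans hε₁d) hΛe' hint'
    refine ⟨Q', y + ρ • a'', hQ', ?_, ?_⟩
    · refine hQQ.trans ?_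
      have h1 : Cd * (K * e) = Cd * K * e := by ring
      rw [h1]
      exact mul_le_mul_of_nonneg_right hCle1 he.le
    · have h1 := W13_int V y hρ Q' a'' (θ * D)
      have h2 : ρ * (θ * D) = θ * r := by
        rw [← hρD]
        ring
      rw [h2] at h1
      rw [h1]
      refine (mul_le_mul_of_nonneg_left hI (by positivity)).trans (le_of_eq ?_)
      rw [hK', ← hρD]
      ring
  · have h1 := htil V' hδ0 (hδ.trans hδ₁') hα hα' hΛ' hU' hLD' hQ w (K * e) hKe0.le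
      (hKe.trans hε₁t) hΛe' hmass2 hint'
    have h2 := W13_tilt V y hρ Q (3 / 4 * D)
    have h3 : ρ * (3 / 4 * D) = 3 / 4 * r := by
      rw [← hρD]
      ring
    rw [h3] at h2
    rw [h2]
    have h4 : ∫ z in ball 0 (3 / 4 * D), ‖V'.P z - Q‖ ^ 2 ∂V'.μ ≤
        ∫ z in ball 0 (D - 2), ‖V'.P z - Q‖ ^ 2 ∂V'.μ := by
      refine setIntegral_mono_set ?_ ?_ ?_
      · exact (W13_ii V' hQ).integrableOn
      · exact Eventually.of_forall fun z => by positivity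
      · exact (ball_subset_ball (by linarith only [hD])).eventuallyLE
    have h5 := h4.trans h1
    refine (mul_le_mul_of_nonneg_left h5 (by positivity)).trans ?_
    have h6 : ρ ^ m * (Ct * (K * e) ^ 2) = Ct * D ^ 2 * (e ^ 2 * r ^ m) := by
      rw [hK', ← hρD]
      ring
    rw [h6]
    have h7 : (Cd * K + Ct * D ^ 2 + Cs) * e ^ 2 * r ^ m =
      (Cd * K + Ct * D ^ 2 + Cs) * (e ^ 2 * r ^ m) := by ring
    rw [h7]
    exact mul_le_mul_of_nonneg_right hCle2 (by positivity)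
  · intro z hz hzy
    have hz' : ρ⁻¹ • (z - y) ∈ V'.μ.support := by
      rw [hV', rs_support, rsT_back y ρ hρ]
      exact hz
    have hzn : ‖ρ⁻¹ • (z - y)‖ < D - 1 := by
      rw [norm_smul, Real.norm_of_nonneg (inv_nonneg.2 hρ.le), inv_mul_lt_iff₀ hρ]
      have h1 : r / 2 ≤ ρ * (D - 1) := by
        rw [← hρD]
        nlinarith only [hD, hρD, hρr]
      linarith only [hzy, h1]
    have h1 := (hsup V' hU' hLD' hQ w (K * e) hKe0.le (hKe.trans hε₁s) hint' _ hz' hzn).1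
    rw [W13_dist y hρ, hwa, map_smul, norm_smul, Real.norm_of_nonneg (inv_nonneg.2 hρ.le),
      mul_pow, inv_pow, inv_mul_le_iff₀ (by positivity)] at h1
    refine h1.trans ?_
    have h6 : ρ ^ (m + 2) * (Cs * (K * e) ^ 2) = Cs * (e ^ 2 * r ^ (m + 2)) := by
      rw [hK', ← hρD]
      ring
    rw [h6]
    have h7 : (Cd * K + Ct * D ^ 2 + Cs) * e ^ 2 * r ^ (m + 2) =
      (Cd * K + Ct * D ^ 2 + Cs) * (e ^ 2 * r ^ (m + 2)) := by ring
    rw [h7]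
    exact mul_le_mul_of_nonneg_right hCle3 (by positivity)

end Allard
end
end

section

/-!
# T2a: one step of the iteration

`θ, C_d, ε₀, δ₁, l₁` from `decay`; `η` from `mass_of_I θ`; `C_p` from `pinch_step η θ`.
`ee A B α θ i = √(A² θ^i + B θ^{α i})`.

Induction hypothesis at `i` (`r_i = θ^i r₀`): `Pr (Q i)`, `∫_{ball y r_i}‖(1-Q i)(z - a i)‖² ≤ e_i² r_i^{m+2}`,
mass of `ball y r_i` `≤ (21/20) om r_i^m`, and
`I η (Q i) y (r_i/2) ≤ (101/100) om + K ∑_{j<i} (e_j + e_j² + Λ r_j^α)`.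
Step: `decay` (with `e = e_i`, `Λ r_i^α ≤ B θ^{αi} ≤ e_i²`, `r₀ ≤ 1`) gives `Q (i+1)`, `a (i+1)` with
`∫ ≤ θ e_i² r_{i+1}^{m+2} ≤ e_{i+1}² r_{i+1}^{m+2}` (`θ ≤ θ^α`), `‖Q(i+1) - Q i‖ ≤ C_d e_i`, tilt and sup bounds;
`pinch_step`; `mass_of_I` at `r = r_i` gives the mass bound at `r_{i+1}`, because the sum stays below `om/100`:
`∑ e_j ≤ A/(1-√θ) + √B/(1-θ^{α/2})`, `∑ Λ r_j^α ≤ B/(1-θ^α)`: `A ≤ A₀(n,m)`, then `B ≤ B₀(n,m,α)`.
Start: `I η Q₀ y (r₀/2) ≤ (1+δ)(1-3δ)^{-m}(1 + 1/200) om ≤ (101/100) om` (`I_le`, mass hypothesis for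
`r₀/4 ≤ r ≤ r₀`; `δ` small).
(`K` = a multiple of the constant of `pinch_step`; the sum in `pin` stays below `om/(100 K)` by the choice of `A₀, B₀`.)
-/

noncomputable section

open MeasureTheory Metric Set Filter Topology

namespace Allard

/-- Excess bound at step `i`. -/
def ee (A B α θ : ℝ) (i : ℕ) : ℝ := Real.sqrt (A ^ 2 * θ ^ i + B * (θ ^ i) ^ α)

/-- State of the iteration at step `i`. -/
structure ItSt {n m : ℕ} {δ : ℝ} {S : Stress n m δ} {α Λ : ℝ} {U : Set (E n)}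
    (V : Sys S α Λ U) (η : ℝ → ℝ) (y : E n) (r₀ A B θ K : ℝ) (i : ℕ) (Q : Op n) (a : E n) :
    Prop where
  pr : Pr n m Q
  exc : ∫ z in ball y (θ ^ i * r₀), ‖(1 - Q) (z - a)‖ ^ 2 ∂V.μ ≤
    (ee A B α θ i) ^ 2 * (θ ^ i * r₀) ^ (m + 2)
  mass : V.μ.real (ball y (θ ^ i * r₀)) ≤ 21 / 20 * om m * (θ ^ i * r₀) ^ m
  pin : V.I η Q y (θ ^ i * r₀ / 2) ≤ 101 / 100 * om m +
    K * ∑ j ∈ Finset.range i, (ee A B α θ j + (ee A B α θ j) ^ 2 + B * (θ ^ j) ^ α)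

private theorem t2a_geom {q : ℝ} (h0 : 0 ≤ q) (h1 : q < 1) (k : ℕ) :
    ∑ j ∈ Finset.range k, q ^ j ≤ 1 / (1 - q) := by
  rw [geom_sum_eq h1.ne]
  have h2 : 0 ≤ q ^ k := pow_nonneg h0 k
  have h3 : (q ^ k - 1) / (q - 1) = (1 - q ^ k) / (1 - q) := by
    rw [← neg_div_neg_eq, neg_sub, neg_sub]
  rw [h3]
  exact div_le_div_of_nonneg_right (by linarith) (by linarith)

private theorem t2a_sq {A B α θ : ℝ} (hB : 0 ≤ B) (hθ : 0 ≤ θ) (i : ℕ) :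
    (ee A B α θ i) ^ 2 = A ^ 2 * θ ^ i + B * (θ ^ i) ^ α := by
  unfold ee
  apply Real.sq_sqrt
  have h1 : 0 ≤ θ ^ i := pow_nonneg hθ i
  have h2 : 0 ≤ (θ ^ i) ^ α := Real.rpow_nonneg h1 _
  positivity

private theorem t2a_pos {A B α θ : ℝ} (hA : 0 < A) (hB : 0 ≤ B) (hθ : 0 < θ) (i : ℕ) :
    0 < ee A B α θ i := by
  unfold ee
  apply Real.sqrt_pos.2
  have h1 : 0 < θ ^ i := pow_pos hθ i
  have h2 : 0 ≤ (θ ^ i) ^ α := Real.rpow_nonneg h1.le _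
  positivity

private theorem t2a_rpow {α θ : ℝ} (hθ : 0 ≤ θ) (j : ℕ) : (θ ^ j) ^ α = (θ ^ α) ^ j := by
  rw [← Real.rpow_natCast, ← Real.rpow_mul hθ, mul_comm, Real.rpow_mul hθ, Real.rpow_natCast]

private theorem t2a_sqrt_add {a b : ℝ} (ha : 0 ≤ a) (hb : 0 ≤ b) : √(a + b) ≤ √a + √b := by
  rw [Real.sqrt_le_iff]
  refine ⟨by positivity, ?_⟩
  have h1 := Real.sq_sqrt ha
  have h2 := Real.sq_sqrt hb
  have h3 : 0 ≤ √a * √b := by positivity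
  linarith only [h1, h2, h3]

/-- the sum of the errors -/
private theorem t2a_sum {A B α θ : ℝ} (hA : 0 ≤ A) (hA1 : A ≤ 1) (hB : 0 ≤ B) (hB1 : B ≤ 1)
    (hθ : 0 < θ) (hθ' : θ ≤ 1 / 8) (hα : 0 < α) (k : ℕ) :
    ∑ j ∈ Finset.range k, (ee A B α θ j + (ee A B α θ j) ^ 2 + B * (θ ^ j) ^ α) ≤
      4 * A + 3 * √B / (1 - √(θ ^ α)) := by
  set q : ℝ := θ ^ α with hq
  have hq0 : 0 < q := Real.rpow_pos_of_pos hθ _
  have hq1 : q < 1 := Real.rpow_lt_one hθ.le (by linarith) hα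
  have hsq0 : 0 < √q := Real.sqrt_pos.2 hq0
  have hsq1 : √q < 1 := by
    rw [Real.sqrt_lt' one_pos]; linarith
  have hqs : q ≤ √q := by
    have : √q * √q = q := Real.mul_self_sqrt hq0.le
    nlinarith only [hsq0, hsq1, this]
  have hsθ : √θ ≤ 1 / 2 := by
    rw [Real.sqrt_le_left (by norm_num)]; linarith
  have hsθ0 : 0 ≤ √θ := Real.sqrt_nonneg _
  have hBs : B ≤ √B := by
    have h1 : √B * √B = B := Real.mul_self_sqrt hB
    have h2 : √B ≤ 1 := by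
      rw [Real.sqrt_le_iff]; exact ⟨zero_le_one, by linarith⟩
    nlinarith only [h1, h2, Real.sqrt_nonneg B]
  have hterm : ∀ j, ee A B α θ j + (ee A B α θ j) ^ 2 + B * (θ ^ j) ^ α ≤
      2 * A * (1 / 2) ^ j + 3 * √B * (√q) ^ j := by
    intro j
    have hθj : 0 ≤ θ ^ j := pow_nonneg hθ.le j
    have hqj : 0 ≤ q ^ j := pow_nonneg hq0.le j
    have e1 : (θ ^ j) ^ α = q ^ j := t2a_rpow hθ.le j
    have h1 : ee A B α θ j ≤ A * (1 / 2) ^ j + √B * (√q) ^ j := by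
      unfold ee
      rw [e1]
      refine (t2a_sqrt_add (by positivity) (by positivity)).trans (add_le_add ?_ ?_)
      · rw [Real.sqrt_mul (by positivity), Real.sqrt_sq hA]
        refine mul_le_mul_of_nonneg_left ?_ hA
        have : √(θ ^ j) = (√θ) ^ j := by
          rw [Real.sqrt_eq_iff_mul_self_eq (by positivity) (by positivity), ← mul_pow,
            Real.mul_self_sqrt hθ.le]
        rw [this]
        exact pow_le_pow_left₀ hsθ0 hsθ j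
      · rw [Real.sqrt_mul hB]
        have : √(q ^ j) = (√q) ^ j := by
          rw [Real.sqrt_eq_iff_mul_self_eq (by positivity) (by positivity), ← mul_pow,
            Real.mul_self_sqrt hq0.le]
        rw [this]
    have h2 : q ^ j ≤ (√q) ^ j := pow_le_pow_left₀ hq0.le hqs j
    have h3 : θ ^ j ≤ (1 / 2) ^ j := pow_le_pow_left₀ hθ.le (by linarith) j
    have h4 : (ee A B α θ j) ^ 2 ≤ A * (1 / 2) ^ j + √B * (√q) ^ j := by
      rw [t2a_sq hB hθ.le, e1]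
      refine add_le_add ?_ ?_
      · exact mul_le_mul (by nlinarith only [hA, hA1]) h3 hθj hA
      · exact mul_le_mul hBs h2 hqj (Real.sqrt_nonneg _)
    have h5 : B * (θ ^ j) ^ α ≤ √B * (√q) ^ j := by
      rw [e1]
      exact mul_le_mul hBs h2 hqj (Real.sqrt_nonneg _)
    linarith
  calc ∑ j ∈ Finset.range k, (ee A B α θ j + (ee A B α θ j) ^ 2 + B * (θ ^ j) ^ α)
      ≤ ∑ j ∈ Finset.range k, (2 * A * (1 / 2) ^ j + 3 * √B * (√q) ^ j) :=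
        Finset.sum_le_sum fun j _ => hterm j
    _ = 2 * A * ∑ j ∈ Finset.range k, (1 / 2 : ℝ) ^ j +
        3 * √B * ∑ j ∈ Finset.range k, (√q) ^ j := by
        rw [Finset.sum_add_distrib, ← Finset.mul_sum, ← Finset.mul_sum]
    _ ≤ 2 * A * (1 / (1 - 1 / 2)) + 3 * √B * (1 / (1 - √q)) := by
        refine add_le_add ?_ ?_
        · exact mul_le_mul_of_nonneg_left (t2a_geom (by norm_num) (by norm_num) k) (by positivity)
        · exact mul_le_mul_of_nonneg_left (t2a_geom hsq0.le hsq1 k) (by positivity)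
    _ = 4 * A + 3 * √B / (1 - √q) := by ring

/-- One step. -/
theorem it_step (n m : ℕ) (hm : 1 ≤ m) : ∃ (η : ℝ → ℝ) (τ θ C K A₀ δ₁ : ℝ), Ker τ η ∧ 0 < θ ∧
    θ ≤ 1 / 8 ∧ 0 < C ∧ 0 < K ∧ 0 < A₀ ∧ A₀ ≤ 1 ∧ 0 < δ₁ ∧ δ₁ ≤ d0 n ∧
    ∀ A : ℝ, 0 < A → A ≤ A₀ →
    ∀ α : ℝ, 0 < α → α < 1 → ∃ B₀ : ℝ, 0 < B₀ ∧ B₀ ≤ 1 ∧ ∀ B : ℝ, 0 < B → B ≤ B₀ →
    ∀ {δ : ℝ} {S : Stress n m δ} {Λ : ℝ} {U : Set (E n)} (V : Sys S α Λ U),
    0 ≤ δ → δ ≤ δ₁ → 0 ≤ Λ → Λ ≤ B → V.LD (1 / 32) → ∀ y ∈ V.μ.support,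
    ∀ r₀ : ℝ, 0 < r₀ → r₀ ≤ 1 → closedBall y r₀ ⊆ U → ∀ (i : ℕ) (Q : Op n) (a : E n),
    ItSt V η y r₀ A B θ K i Q a →
    (∃ (Q' : Op n) (a' : E n), ItSt V η y r₀ A B θ K (i + 1) Q' a' ∧
      ‖Q' - Q‖ ≤ C * ee A B α θ i) ∧
      ∫ z in ball y (3 / 4 * (θ ^ i * r₀)), ‖V.P z - Q‖ ^ 2 ∂V.μ ≤
        C * (ee A B α θ i) ^ 2 * (θ ^ i * r₀) ^ m ∧
      ∀ z ∈ V.μ.support, ‖z - y‖ < θ ^ i * r₀ / 2 →
        ‖(1 - Q) (z - a)‖ ^ (m + 2) ≤ C * (ee A B α θ i) ^ 2 * (θ ^ i * r₀) ^ (m + 2) := by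
  obtain ⟨θ, Cd, ε₀, δd, ld, hθ, hθ', hCd, hε₀, hε₀1, hδd, hδd', hld, Hd⟩ := decay n m hm
  obtain ⟨τ, η, δm, lm, hK, hδm, hδm', hlm, Hm⟩ := mass_of_I n m hm θ hθ hθ'
  obtain ⟨Cp, hCp, Hp⟩ := pinch_step n m hm hK θ hθ hθ'
  have hom : 0 < om m := om_pos
  set K : ℝ := Cp * (Cd + 1) with hKdef
  have hK0 : 0 < K := by positivity
  refine ⟨η, τ, θ, Cd, K, min 1 (min (ε₀ / 2) (om m / (800 * K))), min δd δm, hK, hθ, hθ', hCd,
    hK0, by positivity, min_le_left _ _, lt_min hδd hδm, (min_le_left _ _).trans hδd', ?_⟩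
  intro A hA hA0 α hα hα1
  have hA1 : A ≤ 1 := hA0.trans (min_le_left _ _)
  have hA2 : A ≤ ε₀ / 2 := hA0.trans ((min_le_right _ _).trans (min_le_left _ _))
  have hA3 : A ≤ om m / (800 * K) := hA0.trans ((min_le_right _ _).trans (min_le_right _ _))
  have h2a : (2 : ℝ) ^ (-α) < 1 := Real.rpow_lt_one_of_one_lt_of_neg (by norm_num) (by linarith)
  have h2a' : 0 < 1 - (2 : ℝ) ^ (-α) := by linarith
  have hq0 : 0 < θ ^ α := Real.rpow_pos_of_pos hθ _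
  have hq1 : θ ^ α < 1 := Real.rpow_lt_one hθ.le (by linarith) hα
  have hsq1 : √(θ ^ α) < 1 := by
    rw [Real.sqrt_lt' one_pos]; linarith
  have hsq1' : 0 < 1 - √(θ ^ α) := by linarith
  set b : ℝ := om m * (1 - √(θ ^ α)) / (600 * K) with hb
  have hb0 : 0 < b := by positivity
  refine ⟨min 1 (min (ε₀ ^ 2 / 4) (min (ld * (1 - 2 ^ (-α))) (min (lm * (1 - 2 ^ (-α))) (b ^ 2)))),
    by positivity, min_le_left _ _, ?_⟩
  intro B hB hBle δ S Λ U V hδ0 hδ1 hΛ0 hΛB hLD y hy r₀ hr₀ hr₀1 hU i Q a hI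
  have hB1 : B ≤ 1 := hBle.trans (min_le_left _ _)
  have hBle2 := hBle.trans (min_le_right _ _)
  have hB2 : B ≤ ε₀ ^ 2 / 4 := hBle2.trans (min_le_left _ _)
  have hBle3 := hBle2.trans (min_le_right _ _)
  have hB3 : B ≤ ld * (1 - 2 ^ (-α)) := hBle3.trans (min_le_left _ _)
  have hBle4 := hBle3.trans (min_le_right _ _)
  have hB4 : B ≤ lm * (1 - 2 ^ (-α)) := hBle4.trans (min_le_left _ _)
  have hB5 : B ≤ b ^ 2 := hBle4.trans (min_le_right _ _)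
  have hδdd : δ ≤ δd := hδ1.trans (min_le_left _ _)
  have hδmm : δ ≤ δm := hδ1.trans (min_le_right _ _)
  have hδd0 : δ ≤ d0 n := hδdd.trans hδd'
  have hd0 : d0 n ≤ 1 / 100 := d0_le
  set e : ℝ := ee A B α θ i with he
  have he0 : 0 < e := t2a_pos hA hB.le hθ i
  have hθi0 : 0 < θ ^ i := pow_pos hθ i
  have hθi1 : θ ^ i ≤ 1 := pow_le_one₀ hθ.le (by linarith)
  have hqi0 : 0 < (θ ^ i) ^ α := Real.rpow_pos_of_pos hθi0 _
  have hqi1 : (θ ^ i) ^ α ≤ 1 := Real.rpow_le_one hθi0.le hθi1 hα.le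
  have he2 : e ^ 2 = A ^ 2 * θ ^ i + B * (θ ^ i) ^ α := t2a_sq hB.le hθ.le i
  have he1 : e ≤ ε₀ := by
    refine le_of_sq_le_sq ?_ hε₀.le
    rw [he2]
    have h1 : A ^ 2 * θ ^ i ≤ A ^ 2 := mul_le_of_le_one_right (by positivity) hθi1
    have h2 : B * (θ ^ i) ^ α ≤ B := mul_le_of_le_one_right hB.le hqi1
    have h3 : A ^ 2 ≤ (ε₀ / 2) ^ 2 := pow_le_pow_left₀ hA.le hA2 2
    linarith only [hΛ0, hΛB, hB2, h1, h2, h3]
  set r : ℝ := θ ^ i * r₀ with hr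
  have hr0 : 0 < r := by positivity
  have hr1 : r ≤ r₀ := mul_le_of_le_one_left hr₀.le hθi1
  have hrU : closedBall y r ⊆ U := (closedBall_subset_closedBall hr1).trans hU
  have hrα1 : r ^ α ≤ 1 := Real.rpow_le_one hr0.le (hr1.trans hr₀1) hα.le
  have hrα0 : 0 ≤ r ^ α := Real.rpow_nonneg hr0.le _
  have hrα : r ^ α ≤ (θ ^ i) ^ α := by
    apply Real.rpow_le_rpow hr0.le _ hα.le
    rw [hr]
    exact mul_le_of_le_one_right hθi0.le hr₀1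
  have hlam : ∀ l : ℝ, B ≤ l * (1 - 2 ^ (-α)) → lam α Λ * r ^ α ≤ l := by
    intro l hl
    have h1 : 0 ≤ lam α Λ := by
      unfold lam
      positivity
    have h2 : lam α Λ ≤ l := by
      unfold lam
      rw [div_le_iff₀ h2a']
      exact hΛB.trans hl
    exact (mul_le_of_le_one_right h1 hrα1).trans h2
  have hΛr : Λ * r ^ α ≤ B * (θ ^ i) ^ α := mul_le_mul hΛB hrα hrα0 hB.le
  have hΛe : Λ * r ^ α ≤ e ^ 2 := by
    rw [he2]
    have : 0 ≤ A ^ 2 * θ ^ i := by positivity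
    linarith
  obtain ⟨⟨Q', a', hQ', hQQ, hexc⟩, htilt, hsup⟩ := Hd V hδ0 hδdd hα hα1 hΛ0 hLD y hy r hr0
    (hlam ld hB3) hrU hI.mass hI.pr a e he0 he1 hΛe hI.exc
  have hrr : θ * r = θ ^ (i + 1) * r₀ := by rw [hr, pow_succ]; ring
  refine ⟨⟨Q', a', ⟨hQ', ?_, ?_, ?_⟩, hQQ⟩, htilt, hsup⟩
  · -- excess
    rw [← hrr]
    refine hexc.trans ?_
    apply mul_le_mul_of_nonneg_right _ (by positivity)
    rw [he2, t2a_sq hB.le hθ.le, t2a_rpow hθ.le, t2a_rpow hθ.le, pow_succ θ i,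
      pow_succ (θ ^ α) i]
    have h1 : θ ≤ θ ^ α := by
      calc θ = θ ^ (1 : ℝ) := (Real.rpow_one θ).symm
        _ ≤ θ ^ α := Real.rpow_le_rpow_of_exponent_ge hθ (by linarith only [hθ']) hα1.le
    have h2 : 0 ≤ B * (θ ^ α) ^ i := by positivity
    linarith only [mul_le_mul_of_nonneg_left h1 h2]
  · -- mass
    rw [← hrr]
    refine Hm V hδ0 hδmm hα hα1 hΛ0 hI.pr y r hr0 (hlam lm hB4) hrU ?_
    refine hI.pin.trans ?_
    have h1 := t2a_sum (α := α) hA.le hA1 hB.le hB1 hθ hθ' hα i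
    have h2 : K * (4 * A) ≤ om m / 200 := by
      calc K * (4 * A) ≤ K * (4 * (om m / (800 * K))) := by gcongr
        _ = om m / 200 := by field_simp; norm_num
    have h3 : √B ≤ b := by
      rw [Real.sqrt_le_left hb0.le]; exact hB5
    have h4 : K * (3 * √B / (1 - √(θ ^ α))) ≤ om m / 200 := by
      calc K * (3 * √B / (1 - √(θ ^ α))) ≤ K * (3 * b / (1 - √(θ ^ α))) := by gcongr
        _ = om m / 200 := by
          rw [hb]
          have := hsq1'.ne'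
          field_simp
          norm_num
    have h5 := mul_le_mul_of_nonneg_left h1 hK0.le
    rw [mul_add] at h5
    linarith only [h2, h4, h5]
  · -- pinching
    rw [← hrr, Finset.sum_range_succ, mul_add]
    have h1 := Hp V hδ0 hδd0 hΛ0 hI.pr hQ' y r (√Cd * e) hr0 hrU (by
      refine hI.mass.trans ?_
      have : 0 ≤ om m * r ^ m := by positivity
      linarith only [this]) (by
      rw [mul_pow, Real.sq_sqrt hCd.le]
      exact htilt)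
    refine h1.trans ?_
    have h2 := hI.pin
    have h3 : Cp * (δ ^ 2 * (√Cd * e) ^ 2 + Λ * r ^ α + δ * ‖Q' - Q‖) ≤
        K * (e + e ^ 2 + B * (θ ^ i) ^ α) := by
      rw [mul_pow, Real.sq_sqrt hCd.le, hKdef, mul_assoc]
      apply mul_le_mul_of_nonneg_left _ hCp.le
      have g1 : δ ^ 2 * (Cd * e ^ 2) ≤ Cd * e ^ 2 := by
        apply mul_le_of_le_one_left (by positivity)
        have : δ ≤ 1 := by linarith only [hδd0, hd0]
        nlinarith only [hδ0, this]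
      have g2 : δ * ‖Q' - Q‖ ≤ Cd * e := by
        calc δ * ‖Q' - Q‖ ≤ 1 * (Cd * e) := by
              apply mul_le_mul _ hQQ (norm_nonneg _) zero_le_one
              linarith only [hδd0, hd0]
          _ = Cd * e := one_mul _
      have g3 : 0 ≤ B * (θ ^ i) ^ α := by positivity
      have g4 : 0 ≤ e ^ 2 := by positivity
      nlinarith only [hCp, hK0, he0, hΛe, g1, g2, g3]
    linarith only [h2, h3]

end Allard
end
end
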