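import Pool.Agent.Lib.MP_5932b0_an.ST.H1
import Pool.Agent.Lib.MP_5932b0_an.AR.T2a
import Pool.Agent.Lib.MP_5932b0_an.AR.B4
import Pool.Agent.Lib.MP_5932b0_an.AR.W7
import Pool.Agent.Lib.MP_5932b0_an.ST.Fin
import Pool.Agent.Lib.MP_5932b0_an.AR.B1
import Pool.Agent.Lib.MP_5932b0_an.AR.J3

section

section

/-!
# R3: slope of a plane close to `Q₀`

`M Q := Q₀ Q + (1-Q₀)(1-Q) = 1 + (2Q₀-1)(Q-Q₀)`, `‖2Q₀-1‖ ≤ 1`, so `‖M Q - 1‖ ≤ ‖Q-Q₀‖ ≤ 1/4` and `M Q` is invertible,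
`‖(M Q)⁻¹‖ ≤ 4/3`.  `f Q := (1-Q₀) Q (M Q)⁻¹ Q₀`.  For `w₁` in the range of `Q`: `M Q w₁ = Q₀ w₁`, so
`f Q (Q₀ w₁) = (1-Q₀) Q (M Q)⁻¹ (M Q w₁) = (1-Q₀) w₁`.  For `w = Q w + (1-Q) w`:
`(1-Q₀) w - f Q (Q₀ w) = ((1-Q₀) - f Q Q₀)((1-Q) w)`, norm `≤ (1 + 4/3)‖(1-Q) w‖`.
Lipschitz: `‖(M Q)⁻¹ - (M Q')⁻¹‖ = ‖(M Q)⁻¹ (M Q' - M Q)(M Q')⁻¹‖ ≤ (16/9)‖Q-Q'‖`.
-/

noncomputable section

open MeasureTheory Metric Set Filter Topology

namespace Allard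

section ring

variable {R : Type*} [Ring R]

private lemma r3_eA (a b : R) :
    (a - (1 - a)) * (b - a) = a * b + a * b - b + a - (a * a + a * a) := by noncomm_ring

private lemma r3_eB (a b : R) : a * b + (1 - a) * (1 - b) - 1 = a * b + a * b - b - a := by
  noncomm_ring

private lemma r3_eC (a b b' : R) : (a * b' + (1 - a) * (1 - b')) - (a * b + (1 - a) * (1 - b))
    = (a - (1 - a)) * (b' - b) := by noncomm_ring

private lemma r3_eD (a b : R) :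
    (a * b + (1 - a) * (1 - b)) * b = a * (b * b) + (1 - a) * (b - b * b) := by noncomm_ring

private lemma r3_eE (a b f : R) :
    ((1 - a) - f) * (1 - b) = (1 - a) - f - ((1 - a) * b - f * b) := by noncomm_ring

private lemma r3_eF (a q q' k k' : R) :
    (1 - a) * (q * (k * a)) - (1 - a) * (q' * (k' * a))
      = (1 - a) * ((q - q') * (k * a)) + (1 - a) * (q' * ((k - k') * a)) := by noncomm_ring

end ring

variable {n m : ℕ}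

private lemma r3_refl {Q₀ : Op n} (h : Pr n m Q₀) : ‖Q₀ - (1 - Q₀)‖ ≤ 1 := by
  refine ContinuousLinearMap.opNorm_le_bound _ zero_le_one fun x => ?_
  have h1 := h.pyth x
  have h2 : inner ℝ (Q₀ x) ((1 - Q₀) x) = 0 := by
    rw [h.inner_symm, h.perp_apply, inner_zero_right]
  have h3 : (Q₀ - (1 - Q₀)) x = Q₀ x - (1 - Q₀) x := rfl
  have h4 : ‖(Q₀ - (1 - Q₀)) x‖ ^ 2 = ‖x‖ ^ 2 := by
    rw [h3, norm_sub_sq_real, h2, ← h1]
    ring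
  rw [one_mul]
  exact ((sq_eq_sq₀ (norm_nonneg _) (norm_nonneg _)).1 h4).le

private def r3_M (Q₀ Q : Op n) : Op n := Q₀ * Q + (1 - Q₀) * (1 - Q)

private lemma r3_M_sub_one {Q₀ Q : Op n} (h₀ : Q₀ * Q₀ = Q₀) :
    r3_M Q₀ Q - 1 = (Q₀ - (1 - Q₀)) * (Q - Q₀) := by
  unfold r3_M
  rw [r3_eA, r3_eB, h₀]
  abel

private lemma r3_M_sub {Q₀ Q Q' : Op n} :
    r3_M Q₀ Q' - r3_M Q₀ Q = (Q₀ - (1 - Q₀)) * (Q' - Q) :=
  r3_eC _ _ _

private lemma r3_M_mul {Q₀ Q : Op n} (h : Q * Q = Q) : r3_M Q₀ Q * Q = Q₀ * Q := by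
  unfold r3_M
  rw [r3_eD, h, sub_self, mul_zero, add_zero]

private lemma r3_inv {Q₀ Q : Op n} (hQ₀ : Pr n m Q₀) (h : ‖Q - Q₀‖ ≤ 1 / 4) :
    Ring.inverse (r3_M Q₀ Q) * r3_M Q₀ Q = 1 ∧ r3_M Q₀ Q * Ring.inverse (r3_M Q₀ Q) = 1 ∧
      ‖Ring.inverse (r3_M Q₀ Q)‖ ≤ 4 / 3 := by
  have h1 : ‖1 - r3_M Q₀ Q‖ ≤ 1 / 4 := by
    rw [norm_sub_rev, r3_M_sub_one hQ₀.idem]
    refine (norm_mul_le _ _).trans ?_
    have h2 := r3_refl hQ₀
    have h3 := norm_nonneg (Q - Q₀)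
    nlinarith
  have hu : IsUnit (r3_M Q₀ Q) := by
    have h2 : ‖1 - r3_M Q₀ Q‖ < 1 := by linarith
    have h3 := (Units.oneSub (1 - r3_M Q₀ Q) h2).isUnit
    rwa [Units.val_oneSub, sub_sub_cancel] at h3
  have hl := Ring.inverse_mul_cancel _ hu
  have hr := Ring.mul_inverse_cancel _ hu
  refine ⟨hl, hr, ?_⟩
  set N := Ring.inverse (r3_M Q₀ Q) with hN
  have h4 : N = 1 + (1 - r3_M Q₀ Q) * N := by
    rw [sub_mul, hr, one_mul]
    abel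
  have h5 : ‖N‖ ≤ 1 + 1 / 4 * ‖N‖ := by
    have h6 : ‖(1 : Op n)‖ ≤ 1 := ContinuousLinearMap.norm_id_le
    have h7 : ‖(1 - r3_M Q₀ Q) * N‖ ≤ 1 / 4 * ‖N‖ :=
      (norm_mul_le _ _).trans (mul_le_mul_of_nonneg_right h1 (norm_nonneg _))
    calc ‖N‖ = ‖1 + (1 - r3_M Q₀ Q) * N‖ := by rw [← h4]
      _ ≤ ‖(1 : Op n)‖ + ‖(1 - r3_M Q₀ Q) * N‖ := norm_add_le _ _
      _ ≤ 1 + 1 / 4 * ‖N‖ := by linarith
  linarith

private def r3_f (Q₀ Q : Op n) : Op n := (1 - Q₀) * (Q * (Ring.inverse (r3_M Q₀ Q) * Q₀))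

private lemma r3_norm4 {A B C D : Op n} {a b c d : ℝ} (hA : ‖A‖ ≤ a) (hB : ‖B‖ ≤ b)
    (hC : ‖C‖ ≤ c) (hD : ‖D‖ ≤ d) : ‖A * (B * (C * D))‖ ≤ a * (b * (c * d)) := by
  have hA0 := (norm_nonneg A).trans hA
  have hB0 := (norm_nonneg B).trans hB
  have hC0 := (norm_nonneg C).trans hC
  have h1 : ‖C * D‖ ≤ c * d :=
    (norm_mul_le _ _).trans (mul_le_mul hC hD (norm_nonneg _) hC0)
  have h2 : ‖B * (C * D)‖ ≤ b * (c * d) :=
    (norm_mul_le _ _).trans (mul_le_mul hB h1 (norm_nonneg _) hB0)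
  exact (norm_mul_le _ _).trans (mul_le_mul hA h2 (norm_nonneg _) hA0)

theorem slope {n m : ℕ} {Q₀ : Op n} (hQ₀ : Pr n m Q₀) : ∃ f : Op n → Op n,
    (∀ Q, Pr n m Q → ‖Q - Q₀‖ ≤ 1 / 4 → ∀ w, ‖(1 - Q₀) w - f Q (Q₀ w)‖ ≤ 4 * ‖(1 - Q) w‖) ∧
    ∀ Q Q', Pr n m Q → Pr n m Q' → ‖Q - Q₀‖ ≤ 1 / 4 → ‖Q' - Q₀‖ ≤ 1 / 4 →
      ‖f Q - f Q'‖ ≤ 8 * ‖Q - Q'‖ := by
  have hp0 := hQ₀.perp_norm_le
  have hn0 := hQ₀.norm_le
  refine ⟨r3_f Q₀, ?_, ?_⟩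
  · intro Q hQ hd w
    obtain ⟨hl, hr, hN⟩ := r3_inv hQ₀ hd
    have hQn := hQ.norm_le
    have hf : ‖r3_f Q₀ Q‖ ≤ 4 / 3 := by
      have h := r3_norm4 hp0 hQn hN hn0
      unfold r3_f
      linarith
    have hfQ : r3_f Q₀ Q * Q = (1 - Q₀) * Q := by
      unfold r3_f
      have e1 : (1 - Q₀) * (Q * (Ring.inverse (r3_M Q₀ Q) * Q₀)) * Q
          = (1 - Q₀) * (Q * (Ring.inverse (r3_M Q₀ Q) * (Q₀ * Q))) := by
        simp only [mul_assoc]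
      rw [e1, ← r3_M_mul hQ.idem, ← mul_assoc (Ring.inverse _), hl, one_mul, hQ.idem]
    have hfQ₀ : r3_f Q₀ Q * Q₀ = r3_f Q₀ Q := by
      unfold r3_f
      simp only [mul_assoc]
      rw [hQ₀.idem]
    have hkey : (1 - Q₀) - r3_f Q₀ Q * Q₀ = ((1 - Q₀) - r3_f Q₀ Q) * (1 - Q) := by
      rw [r3_eE, hfQ, hfQ₀, sub_self, sub_zero]
    have hw : (1 - Q₀) w - r3_f Q₀ Q (Q₀ w) = ((1 - Q₀) - r3_f Q₀ Q) ((1 - Q) w) := by
      have e3 := congrArg (fun A : Op n => A w) hkey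
      exact e3
    rw [hw]
    have h5 : ‖(1 - Q₀) - r3_f Q₀ Q‖ ≤ 4 := by
      refine (norm_sub_le _ _).trans ?_
      linarith
    exact (ContinuousLinearMap.le_opNorm _ _).trans
      (mul_le_mul_of_nonneg_right h5 (norm_nonneg _))
  · intro Q Q' hQ hQ' hd hd'
    obtain ⟨hl, hr, hN⟩ := r3_inv hQ₀ hd
    obtain ⟨hl', hr', hN'⟩ := r3_inv hQ₀ hd'
    have hQn' := hQ'.norm_le
    have hdiff : ‖Ring.inverse (r3_M Q₀ Q) - Ring.inverse (r3_M Q₀ Q')‖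
        ≤ 4 / 3 * (1 * (‖Q' - Q‖ * (4 / 3))) := by
      have e1 : Ring.inverse (r3_M Q₀ Q) - Ring.inverse (r3_M Q₀ Q')
          = Ring.inverse (r3_M Q₀ Q) * ((Q₀ - (1 - Q₀)) * ((Q' - Q) *
            Ring.inverse (r3_M Q₀ Q'))) := by
        rw [← mul_assoc (Q₀ - (1 - Q₀)), ← r3_M_sub, sub_mul, hr', mul_sub, mul_one,
          ← mul_assoc, hl, one_mul]
      rw [e1]
      exact r3_norm4 hN (r3_refl hQ₀) le_rfl hN'
    have e2 : r3_f Q₀ Q - r3_f Q₀ Q' =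
        (1 - Q₀) * ((Q - Q') * (Ring.inverse (r3_M Q₀ Q) * Q₀)) +
        (1 - Q₀) * (Q' * ((Ring.inverse (r3_M Q₀ Q) - Ring.inverse (r3_M Q₀ Q')) * Q₀)) :=
      r3_eF _ _ _ _ _
    rw [e2]
    have h1 := r3_norm4 hp0 (le_refl ‖Q - Q'‖) hN hn0
    have h2 := r3_norm4 hp0 hQn' hdiff hn0
    rw [norm_sub_rev Q' Q] at h2
    refine (norm_add_le _ _).trans ?_
    have h3 := norm_nonneg (Q - Q')
    linarith

end Allard
end
end

section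

/-!
# T2: iteration

Start: `ItSt` at `i = 0`: `θ^0 = 1`, `ee 0 ^2 = A² + B ≥ A²`, mass from the hypothesis (`r = r₀`),
`I η Q₀ y (r₀/2) ≤ (1+δ) (r₀/2)^{-m} μ(ball y ((r₀/2)/(1-3δ))) ≤ (1+δ)(1-3δ)^{-m}(1+1/200) om ≤ (101/100) om` (`I_le`;
`r₀/4 ≤ (r₀/2)/(1-3δ) ≤ r₀`; `δ` small depending on `m`; shrink `δ₁`).
Recursion: by `it_step` and choice there is a sequence of pairs `(Q i, a i)` with `ItSt` at every `i`
(for instance a function `step : {p : Op n × E n // ItSt ... i p.1 p.2} → {p // ItSt ... (i+1) p.1 p.2}` with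
`‖Q' - Q‖ ≤ C ee i`, and `Nat.rec`; or `exists_seq`-style lemma).
-/

noncomputable section

open MeasureTheory Metric Set Filter Topology

namespace Allard

theorem iterate (n m : ℕ) (hm : 1 ≤ m) : ∃ θ C A₀ δ₁ : ℝ, 0 < θ ∧ θ ≤ 1 / 8 ∧ 0 < C ∧
    0 < A₀ ∧ A₀ ≤ 1 ∧ 0 < δ₁ ∧ δ₁ ≤ d0 n ∧ ∀ A : ℝ, 0 < A → A ≤ A₀ →
    ∀ α : ℝ, 0 < α → α < 1 → ∃ B₀ : ℝ, 0 < B₀ ∧ B₀ ≤ 1 ∧ ∀ B : ℝ, 0 < B → B ≤ B₀ →
    ∀ {δ : ℝ} {S : Stress n m δ} {Λ : ℝ} {U : Set (E n)} (V : Sys S α Λ U),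
    0 ≤ δ → δ ≤ δ₁ → 0 ≤ Λ → Λ ≤ B → V.LD (1 / 32) → ∀ y ∈ V.μ.support,
    ∀ r₀ : ℝ, 0 < r₀ → r₀ ≤ 1 → closedBall y r₀ ⊆ U →
    (∀ r, r₀ / 4 ≤ r → r ≤ r₀ → V.μ.real (ball y r) ≤ (1 + 1 / 200) * om m * r ^ m) →
    ∀ {Q₀ : Op n}, Pr n m Q₀ → ∀ a₀ : E n,
    ∫ z in ball y r₀, ‖(1 - Q₀) (z - a₀)‖ ^ 2 ∂V.μ ≤ A ^ 2 * r₀ ^ (m + 2) →
    ∃ (Q : ℕ → Op n) (a : ℕ → E n), Q 0 = Q₀ ∧ ∀ i : ℕ, Pr n m (Q i) ∧
      ‖Q (i + 1) - Q i‖ ≤ C * ee A B α θ i ∧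
      V.μ.real (ball y (θ ^ i * r₀)) ≤ 21 / 20 * om m * (θ ^ i * r₀) ^ m ∧
      ∫ z in ball y (3 / 4 * (θ ^ i * r₀)), ‖V.P z - Q i‖ ^ 2 ∂V.μ ≤
        C * (ee A B α θ i) ^ 2 * (θ ^ i * r₀) ^ m ∧
      ∀ z ∈ V.μ.support, ‖z - y‖ < θ ^ i * r₀ / 2 →
        ‖(1 - Q i) (z - a i)‖ ^ (m + 2) ≤ C * (ee A B α θ i) ^ 2 * (θ ^ i * r₀) ^ (m + 2) := by
  obtain ⟨η, τ, θ, C, K, A₀, δ₁, hK, hθ, hθ', hC, hK0, hA₀, hA₀1, hδ₁, hδ₁', H⟩ := it_step n m hm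
  have hom : 0 < om m := om_pos
  have hm0 : (0 : ℝ) ≤ m := Nat.cast_nonneg m
  refine ⟨θ, C, A₀, min δ₁ (1 / (201 * (1 + 4 * m))), hθ, hθ', hC, hA₀, hA₀1, ?_,
    (min_le_left _ _).trans hδ₁', ?_⟩
  · apply lt_min hδ₁
    positivity
  intro A hA hAA α hα hα1
  obtain ⟨B₀, hB₀, hB₀1, H⟩ := H A hA hAA α hα hα1
  refine ⟨B₀, hB₀, hB₀1, ?_⟩
  intro B hB hBB δ S Λ U V hδ0 hδ1 hΛ0 hΛB hLD y hy r₀ hr₀ hr₀1 hU hmass Q₀ hQ₀ a₀ hexc
  have hδ1a : δ ≤ δ₁ := hδ1.trans (min_le_left _ _)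
  have hδ1b : δ ≤ 1 / (201 * (1 + 4 * m)) := hδ1.trans (min_le_right _ _)
  have hδd0 : δ ≤ d0 n := hδ1a.trans hδ₁'
  have hd0 : d0 n ≤ 1 / 100 := d0_le
  have hδ100 : δ ≤ 1 / 100 := hδd0.trans hd0
  have H := fun i => H B hB hBB V hδ0 hδ1a hΛ0 hΛB hLD y hy r₀ hr₀ hr₀1 hU i
  have hee0 : (ee A B α θ 0) ^ 2 = A ^ 2 + B := by
    unfold ee
    rw [pow_zero, Real.one_rpow, mul_one, mul_one, Real.sq_sqrt (by positivity)]
  -- the start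
  have hstart : ItSt V η y r₀ A B θ K 0 Q₀ a₀ := by
    refine ⟨hQ₀, ?_, ?_, ?_⟩
    · rw [pow_zero, one_mul, hee0]
      refine hexc.trans ?_
      apply mul_le_mul_of_nonneg_right _ (by positivity)
      linarith
    · rw [pow_zero, one_mul]
      refine (hmass r₀ (by linarith) le_rfl).trans ?_
      have : 0 ≤ om m * r₀ ^ m := by positivity
      nlinarith
    · rw [pow_zero, one_mul, Finset.range_zero, Finset.sum_empty, mul_zero, add_zero]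
      have hx0 : 0 < 1 - 3 * δ := by linarith
      have hR1 : r₀ / 4 ≤ r₀ / 2 / (1 - 3 * δ) := by
        rw [le_div_iff₀ hx0]
        nlinarith
      have hR2 : r₀ / 2 / (1 - 3 * δ) ≤ r₀ := by
        rw [div_le_iff₀ hx0]
        nlinarith
      have h1 := V.I_le hK hδ0 hδd0 hQ₀ y (r := r₀ / 2) (by linarith)
      have h2 := hmass _ hR1 hR2
      have h3 : (1 + δ) * (((r₀ / 2) ^ m)⁻¹ * V.μ.real (ball y (r₀ / 2 / (1 - 3 * δ)))) ≤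
          (1 + δ) * (1 + 1 / 200) * om m / (1 - 3 * δ) ^ m := by
        have h4 : ((r₀ / 2) ^ m)⁻¹ * V.μ.real (ball y (r₀ / 2 / (1 - 3 * δ))) ≤
            ((r₀ / 2) ^ m)⁻¹ * ((1 + 1 / 200) * om m * (r₀ / 2 / (1 - 3 * δ)) ^ m) :=
          mul_le_mul_of_nonneg_left h2 (by positivity)
        calc (1 + δ) * (((r₀ / 2) ^ m)⁻¹ * V.μ.real (ball y (r₀ / 2 / (1 - 3 * δ))))
            ≤ (1 + δ) * (((r₀ / 2) ^ m)⁻¹ *
              ((1 + 1 / 200) * om m * (r₀ / 2 / (1 - 3 * δ)) ^ m)) :=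
              mul_le_mul_of_nonneg_left h4 (by linarith)
          _ = _ := by
            rw [div_pow (r₀ / 2)]
            have : (r₀ / 2) ^ m ≠ 0 := by positivity
            have : (1 - 3 * δ) ^ m ≠ 0 := by positivity
            field_simp
      have hbern : 1 - 3 * δ * m ≤ (1 - 3 * δ) ^ m := by
        have := one_add_mul_le_pow (a := -(3 * δ)) (by linarith) m
        have e1 : 1 + (m : ℝ) * -(3 * δ) = 1 - 3 * δ * m := by ring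
        have e2 : 1 + -(3 * δ) = 1 - 3 * δ := by ring
        rwa [e1, e2] at this
      have hδm : δ * (201 * (1 + 4 * m)) ≤ 1 := by
        rwa [le_div_iff₀ (by positivity)] at hδ1b
      refine h1.trans (h3.trans ?_)
      rw [div_le_iff₀ (by positivity)]
      have h5 : (1 + δ) * (1 + 1 / 200) ≤ 101 / 100 * (1 - 3 * δ) ^ m := by
        have hδm0 : 0 ≤ δ * m := by positivity
        nlinarith
      nlinarith
  -- the recursion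
  let σ : ℕ → Type := fun i => {p : Op n × E n // ItSt V η y r₀ A B θ K i p.1 p.2}
  have hstep : ∀ i (s : σ i), ∃ s' : σ (i + 1), ‖s'.1.1 - s.1.1‖ ≤ C * ee A B α θ i := by
    intro i s
    obtain ⟨⟨Q', a', hI, hQ⟩, -, -⟩ := H i s.1.1 s.1.2 s.2
    exact ⟨⟨(Q', a'), hI⟩, hQ⟩
  choose f hf using hstep
  let seq : ∀ i, σ i := fun i => Nat.rec (motive := σ) ⟨(Q₀, a₀), hstart⟩ (fun i s => f i s) i
  refine ⟨fun i => (seq i).1.1, fun i => (seq i).1.2, rfl, fun i => ?_⟩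
  obtain ⟨-, h2, h3⟩ := H i (seq i).1.1 (seq i).1.2 (seq i).2
  exact ⟨(seq i).2.pr, hf i (seq i), (seq i).2.mass, h2, h3⟩

end Allard
end
end
end

section

section

/-!
# T3a: limit planes

Sequence `Q i` from `iterate`; `e_i ≤ A θ^{i/2} + √B θ^{αi/2} ≤ (A + √B) θ^{αi/2}`, `∑_{j≥i} C e_j ≤ C (A+√B) θ^{αi/2}/(1-θ^{α/2})`
and also `∑_{j ≥ 0} C e_j ≤ C A/(1-√θ) + C √B/(1-θ^{α/2}) ≤ 1/100` for `A`, then `B`, small.  So `Q i` is Cauchy,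
`Qy = lim` (in `Pr`, closed), `‖Qy - Q₀‖ ≤ 1/100`, `‖Qy - Q i‖ ≤ C' θ^{αi/2}`.

Let `z` be in the support, `0 < ‖z-y‖ < r₀/2`; choose `i` with `θ^{i+1} r₀/2 ≤ ‖z-y‖ < θ^i r₀/2`.
`‖(1-Q i)(z-y)‖ ≤ ‖(1-Q i)(z-a i)‖ + ‖(1-Q i)(y-a i)‖ ≤ 2 (C e_i²)^{1/(m+2)} r_i`, `r_i ≤ (2/θ)‖z-y‖`,
`‖(1-Qy)(z-y)‖ ≤ that + ‖Qy-Q i‖ ‖z-y‖`.  With `e_i² ≤ (A+√B)² θ^{αi}` and `θ^i ≤ (2/(θ r₀))‖z-y‖`:
`(C e_i²)^{1/(m+2)} ≤ C'' ‖z-y‖^{α/(m+2)}`, `‖Qy-Q i‖ ≤ C''‖z-y‖^{α/2} ≤ C''‖z-y‖^{α/(m+2)}`.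
Also `(C e_i²)^{1/(m+2)} 4/θ + ∑_{j≥i} C e_j ≤ 1/20` for `A, B` small.
Tilt: `r ≤ (3/4) r₀`, `i` with `(3/4)θ^{i+1} r₀ < r ≤ (3/4) θ^i r₀`:
`∫_{ball y r}‖P-Qy‖² ≤ 2∫‖P-Q i‖² + 2‖Qy-Q i‖² μ(ball y r_i) ≤ C'' θ^{αi} r_i^m ≤ C''' r^{m+α}`.
Mass: `ball y r ⊆ ball y r_i`, `μ ≤ (21/20) om r_i^m ≤ C r^m`.
-/

noncomputable section

open MeasureTheory Metric Set Filter Topology

namespace Allard

private theorem T3a_q1 {θ : ℝ} (hθ : 0 < θ) (hθ' : θ ≤ 1 / 8) :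
    0 < Real.sqrt θ ∧ Real.sqrt θ ≤ 1 / 2 ∧ Real.sqrt θ ^ 2 = θ := by
  refine ⟨Real.sqrt_pos.mpr hθ, ?_, Real.sq_sqrt hθ.le⟩
  exact Real.sqrt_le_iff.mpr ⟨by norm_num, by norm_num; linarith⟩

/-- Limit plane of a sequence with summable increments. -/
theorem limit_plane (n m : ℕ) (C θ : ℝ) (hC : 0 < C) (hθ : 0 < θ) (hθ' : θ ≤ 1 / 8) (κ : ℝ)
    (hκ : 0 < κ) : ∃ A₀ : ℝ, 0 < A₀ ∧ A₀ ≤ 1 ∧ ∀ A : ℝ, 0 < A → A ≤ A₀ → ∀ α : ℝ, 0 < α → α < 1 →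
    ∃ B₀ C' : ℝ, 0 < B₀ ∧ B₀ ≤ 1 ∧ 0 < C' ∧ ∀ B : ℝ, 0 < B → B ≤ B₀ →
    ∀ Q : ℕ → Op n, (∀ i, Pr n m (Q i)) → (∀ i, ‖Q (i + 1) - Q i‖ ≤ C * ee A B α θ i) →
    ∃ Qy : Op n, Pr n m Qy ∧ (∀ i, ‖Qy - Q i‖ ≤ κ) ∧
      ∀ i, ‖Qy - Q i‖ ≤ C' * (θ ^ i) ^ (α / 2) := by
  refine ⟨min 1 (κ / (4 * C)), lt_min one_pos (by positivity), min_le_left _ _, ?_⟩
  intro A hA hAA α hα hα1
  have hA1 : A ≤ 1 := hAA.trans (min_le_left _ _)
  have hA2 : A ≤ κ / (4 * C) := hAA.trans (min_le_right _ _)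
  obtain ⟨hq10, hq11, hq1s⟩ := T3a_q1 hθ hθ'
  set q1 : ℝ := Real.sqrt θ with hq1
  set q2 : ℝ := θ ^ (α / 2) with hq2
  have hθ1 : θ < 1 := by linarith
  have hq20 : 0 < q2 := Real.rpow_pos_of_pos hθ _
  have hq21 : q2 < 1 := Real.rpow_lt_one hθ.le hθ1 (by linarith)
  have hq12 : q1 ≤ q2 := by
    rw [hq1, hq2, Real.sqrt_eq_rpow]
    exact Real.rpow_le_rpow_of_exponent_ge hθ hθ1.le (by linarith)
  have h1q2 : 0 < 1 - q2 := by linarith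
  have h1q1 : 0 < 1 - q1 := by linarith
  have hpow : ∀ i : ℕ, (θ ^ i) ^ (α / 2) = q2 ^ i := fun i => by
    rw [hq2, ← Real.rpow_natCast, ← Real.rpow_mul hθ.le, ← Real.rpow_natCast,
      ← Real.rpow_mul hθ.le, mul_comm]
  refine ⟨min 1 ((κ * (1 - q2) / (2 * C)) ^ 2), 2 * C / (1 - q2), lt_min one_pos (by positivity),
    min_le_left _ _, by positivity, ?_⟩
  intro B hB hBB Q hQ hinc
  have hB1 : B ≤ 1 := hBB.trans (min_le_left _ _)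
  have hB2 : B ≤ (κ * (1 - q2) / (2 * C)) ^ 2 := hBB.trans (min_le_right _ _)
  set b : ℝ := Real.sqrt B with hb
  have hb0 : 0 ≤ b := Real.sqrt_nonneg _
  have hb1 : b ≤ 1 := Real.sqrt_le_one.mpr hB1
  have hb2 : b ≤ κ * (1 - q2) / (2 * C) := by
    rw [hb]
    exact Real.sqrt_le_iff.mpr ⟨by positivity, hB2⟩
  have hee : ∀ i, ee A B α θ i ≤ A * q1 ^ i + b * q2 ^ i := fun i => by
    rw [ee]
    refine Real.sqrt_le_iff.mpr ⟨by positivity, ?_⟩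
    have e1 : θ ^ i = (q1 ^ i) ^ 2 := by
      rw [← pow_mul, mul_comm, pow_mul, hq1s]
    have e2 : (θ ^ i) ^ α = (q2 ^ i) ^ 2 := by
      rw [← hpow i, ← Real.rpow_mul_natCast (pow_nonneg hθ.le i)]
      congr 1
      push_cast
      ring
    have e3 : B = b ^ 2 := (Real.sq_sqrt hB.le).symm
    rw [e2, e1, e3]
    have : 0 ≤ A * q1 ^ i * (b * q2 ^ i) := by positivity
    nlinarith
  have hd1 : ∀ i, dist (Q i) (Q (i + 1)) ≤ C * (A * q1 ^ i + b * q2 ^ i) := fun i => by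
    rw [dist_comm, dist_eq_norm]
    exact (hinc i).trans (mul_le_mul_of_nonneg_left (hee i) hC.le)
  have hd2 : ∀ i, dist (Q i) (Q (i + 1)) ≤ (2 * C) * q2 ^ i := fun i => by
    refine (hd1 i).trans ?_
    have h1 : q1 ^ i ≤ q2 ^ i := pow_le_pow_left₀ hq10.le hq12 i
    have h2 : 0 < q2 ^ i := by positivity
    have h3 : A * q1 ^ i ≤ 1 * q2 ^ i := mul_le_mul hA1 h1 (by positivity) (by norm_num)
    have h4 : b * q2 ^ i ≤ 1 * q2 ^ i := mul_le_mul_of_nonneg_right hb1 h2.le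
    nlinarith
  have hcau := cauchySeq_of_le_geometric q2 (2 * C) hq21 hd2
  obtain ⟨Qy, hlim⟩ := cauchySeq_tendsto_of_complete hcau
  refine ⟨Qy, isClosed_Pr.mem_of_tendsto hlim (Eventually.of_forall hQ), ?_, ?_⟩
  · -- potential
    intro i
    have hg : ∀ k, dist (Q i) (Q (i + k)) ≤
        (C * (A * q1 ^ i / (1 - q1)) + C * (b * q2 ^ i / (1 - q2))) -
        (C * (A * q1 ^ (i + k) / (1 - q1)) + C * (b * q2 ^ (i + k) / (1 - q2))) := by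
      intro k
      induction k with
      | zero => simp
      | succ k ih =>
        have h1 := dist_triangle (Q i) (Q (i + k)) (Q (i + k + 1))
        have h2 := hd1 (i + k)
        have e1 : q1 ^ (i + k + 1) / (1 - q1) = q1 ^ (i + k) / (1 - q1) - q1 ^ (i + k) := by
          field_simp
          ring
        have e2 : q2 ^ (i + k + 1) / (1 - q2) = q2 ^ (i + k) / (1 - q2) - q2 ^ (i + k) := by
          field_simp
          ring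
        rw [← add_assoc, mul_div_assoc A (q1 ^ (i + k + 1)), mul_div_assoc b (q2 ^ (i + k + 1)),
          e1, e2]
        rw [mul_div_assoc A (q1 ^ (i + k)), mul_div_assoc b (q2 ^ (i + k))] at ih
        nlinarith
    have hg2 : ∀ k, dist (Q i) (Q (i + k)) ≤ κ := by
      intro k
      refine (hg k).trans ?_
      have h1 : 0 ≤ C * (A * q1 ^ (i + k) / (1 - q1)) + C * (b * q2 ^ (i + k) / (1 - q2)) := by
        positivity
      have h2 : C * (A * q1 ^ i / (1 - q1)) ≤ κ / 2 := by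
        have h3 : A * q1 ^ i / (1 - q1) ≤ κ / (4 * C) * 1 / (1 / 2) := by
          have h4 : q1 ^ i ≤ 1 := pow_le_one₀ hq10.le (by linarith)
          refine div_le_div₀ (by positivity) (mul_le_mul hA2 h4 (by positivity) (by positivity))
            (by norm_num) (by linarith)
        calc C * (A * q1 ^ i / (1 - q1)) ≤ C * (κ / (4 * C) * 1 / (1 / 2)) :=
              mul_le_mul_of_nonneg_left h3 hC.le
          _ = κ / 2 := by field_simp; norm_num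
      have h5 : C * (b * q2 ^ i / (1 - q2)) ≤ κ / 2 := by
        have h3 : b * q2 ^ i / (1 - q2) ≤ κ * (1 - q2) / (2 * C) * 1 / (1 - q2) := by
          have h4 : q2 ^ i ≤ 1 := pow_le_one₀ hq20.le hq21.le
          refine div_le_div_of_nonneg_right (mul_le_mul hb2 h4 (by positivity) (by positivity))
            h1q2.le
        calc C * (b * q2 ^ i / (1 - q2)) ≤ C * (κ * (1 - q2) / (2 * C) * 1 / (1 - q2)) :=
              mul_le_mul_of_nonneg_left h3 hC.le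
          _ = κ / 2 := by field_simp
      linarith
    have hlim2 : Tendsto (fun k => dist (Q i) (Q (i + k))) atTop (𝓝 (dist (Q i) Qy)) := by
      have h1 : Tendsto (fun k => Q (i + k)) atTop (𝓝 Qy) := by
        have := (tendsto_add_atTop_iff_nat i).mpr hlim
        refine this.congr fun k => ?_
        rw [add_comm]
      exact tendsto_const_nhds.dist h1
    have h3 := le_of_tendsto' hlim2 hg2
    rwa [dist_comm, dist_eq_norm] at h3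
  · intro i
    have h1 := dist_le_of_le_geometric_of_tendsto q2 (2 * C) hq21 hd2 hlim i
    rw [dist_comm, dist_eq_norm] at h1
    rw [hpow i]
    calc ‖Qy - Q i‖ ≤ 2 * C * q2 ^ i / (1 - q2) := h1
      _ = 2 * C / (1 - q2) * q2 ^ i := by ring

theorem ee_sq_le (A B α θ : ℝ) (hA : 0 ≤ A) (hA1 : A ≤ 1) (hB : 0 ≤ B) (hB1 : B ≤ 1)
    (hθ : 0 < θ) (hθ1 : θ ≤ 1) (hα : 0 < α) (hα1 : α < 1) (i : ℕ) :
    (ee A B α θ i) ^ 2 ≤ (A + B) * (θ ^ i) ^ α := by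
  have h0 : 0 < θ ^ i := by positivity
  have h1 : θ ^ i ≤ 1 := pow_le_one₀ hθ.le hθ1
  have h2 : θ ^ i ≤ (θ ^ i) ^ α := by
    have := Real.rpow_le_rpow_of_exponent_ge h0 h1 hα1.le
    rwa [Real.rpow_one] at this
  have h3 : 0 ≤ (θ ^ i) ^ α := by positivity
  rw [ee, Real.sq_sqrt (by positivity)]
  have h4 : A ^ 2 ≤ A := by nlinarith
  have h5 : A ^ 2 * θ ^ i ≤ A * (θ ^ i) ^ α := mul_le_mul h4 h2 h0.le hA
  have h6 : 0 < α := hα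
  have h7 : B ≤ 1 := hB1
  nlinarith

end Allard
end
end

section

/-!
# T3: the tangent plane at a point

Sequence `Q i` from `iterate`; `e_i ≤ A θ^{i/2} + √B θ^{αi/2} ≤ (A + √B) θ^{αi/2}`, `∑_{j≥i} C e_j ≤ C (A+√B) θ^{αi/2}/(1-θ^{α/2})`
and also `∑_{j ≥ 0} C e_j ≤ C A/(1-√θ) + C √B/(1-θ^{α/2}) ≤ 1/100` for `A`, then `B`, small.  So `Q i` is Cauchy,
`Qy = lim` (in `Pr`, closed), `‖Qy - Q₀‖ ≤ 1/100`, `‖Qy - Q i‖ ≤ C' θ^{αi/2}`.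

(This is `limit_plane`.)

Let `z` be in the support, `0 < ‖z-y‖ < r₀/2`; choose `i` with `θ^{i+1} r₀/2 ≤ ‖z-y‖ < θ^i r₀/2`.
`‖(1-Q i)(z-y)‖ ≤ ‖(1-Q i)(z-a i)‖ + ‖(1-Q i)(y-a i)‖ ≤ 2 (C e_i²)^{1/(m+2)} r_i`, `r_i ≤ (2/θ)‖z-y‖`,
`‖(1-Qy)(z-y)‖ ≤ that + ‖Qy-Q i‖ ‖z-y‖`.  With `e_i² ≤ (A+√B)² θ^{αi}` and `θ^i ≤ (2/(θ r₀))‖z-y‖`:
`(C e_i²)^{1/(m+2)} ≤ C'' ‖z-y‖^{α/(m+2)}`, `‖Qy-Q i‖ ≤ C''‖z-y‖^{α/2} ≤ C''‖z-y‖^{α/(m+2)}`.
Also `(C e_i²)^{1/(m+2)} 4/θ + ∑_{j≥i} C e_j ≤ 1/20` for `A, B` small.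
Tilt: `r ≤ (3/4) r₀`, `i` with `(3/4)θ^{i+1} r₀ < r ≤ (3/4) θ^i r₀`:
`∫_{ball y r}‖P-Qy‖² ≤ 2∫‖P-Q i‖² + 2‖Qy-Q i‖² μ(ball y r_i) ≤ C'' θ^{αi} r_i^m ≤ C''' r^{m+α}`.
Mass: `ball y r ⊆ ball y r_i`, `μ ≤ (21/20) om r_i^m ≤ C r^m`.
-/

noncomputable section

open MeasureTheory Metric Set Filter Topology

namespace Allard

private theorem t3_pick {θ x : ℝ} (h0 : 0 < θ) (h1 : θ ≤ 1 / 8) (hx : 0 < x) (hx1 : x < 1) :
    ∃ i : ℕ, θ ^ (i + 1) ≤ x ∧ x < θ ^ i := by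
  have hex : ∃ i : ℕ, θ ^ (i + 1) ≤ x := by
    obtain ⟨i, hi⟩ := exists_pow_lt_of_lt_one hx (by linarith : θ < 1)
    exact ⟨i, (pow_le_pow_of_le_one h0.le (by linarith) (Nat.le_succ i)).trans hi.le⟩
  classical
  refine ⟨Nat.find hex, Nat.find_spec hex, ?_⟩
  cases h : Nat.find hex with
  | zero => simpa using hx1
  | succ j =>
    have h2 := Nat.find_min hex (m := j) (by omega)
    rw [not_le] at h2
    exact h2

private theorem t3_om (m : ℕ) : 0 < om m := by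
  unfold om
  exact ENNReal.toReal_pos (measure_ball_pos volume 0 one_pos).ne' measure_ball_lt_top.ne

private theorem t3_le_pow {K : ℝ} (hK : 1 ≤ K) (m : ℕ) : K ≤ K ^ (m + 2) :=
  le_self_pow₀ hK (by omega)

/-- Regularity data of the point `y` with plane `Qy`. -/
structure RegAt {n m : ℕ} {δ : ℝ} {S : Stress n m δ} {α Λ : ℝ} {U : Set (E n)}
    (V : Sys S α Λ U) (β C r₀ : ℝ) (y : E n) (Qy : Op n) : Prop where
  pr : Pr n m Qy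
  flat : ∀ z ∈ V.μ.support, ‖z - y‖ < r₀ / 2 → ‖(1 - Qy) (z - y)‖ ≤ C * ‖z - y‖ ^ (1 + β)
  flat' : ∀ z ∈ V.μ.support, ‖z - y‖ < r₀ / 2 → ‖(1 - Qy) (z - y)‖ ≤ 1 / 20 * ‖z - y‖
  tilt : ∀ r : ℝ, 0 < r → r ≤ r₀ / 2 →
    ∫ z in ball y r, ‖V.P z - Qy‖ ^ 2 ∂V.μ ≤ C * r ^ m * r ^ (2 * β)
  mass : ∀ r : ℝ, 0 < r → r ≤ r₀ → V.μ.real (ball y r) ≤ C * r ^ m

theorem tangent (n m : ℕ) (hm : 1 ≤ m) : ∃ A δ₁ : ℝ, 0 < A ∧ 0 < δ₁ ∧ δ₁ ≤ d0 n ∧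
    ∀ α : ℝ, 0 < α → α < 1 → ∃ B : ℝ, 0 < B ∧ ∀ r₀ : ℝ, 0 < r₀ → r₀ ≤ 1 → ∃ C : ℝ, 0 < C ∧
    ∀ {δ : ℝ} {S : Stress n m δ} {Λ : ℝ} {U : Set (E n)} (V : Sys S α Λ U),
    0 ≤ δ → δ ≤ δ₁ → 0 ≤ Λ → Λ ≤ B → V.LD (1 / 32) → ∀ y ∈ V.μ.support,
    closedBall y r₀ ⊆ U →
    (∀ r, r₀ / 4 ≤ r → r ≤ r₀ → V.μ.real (ball y r) ≤ (1 + 1 / 200) * om m * r ^ m) →
    ∀ {Q₀ : Op n}, Pr n m Q₀ → ∀ a₀ : E n,
    ∫ z in ball y r₀, ‖(1 - Q₀) (z - a₀)‖ ^ 2 ∂V.μ ≤ A ^ 2 * r₀ ^ (m + 2) →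
    ∃ Qy : Op n, RegAt V (α / (m + 2)) C r₀ y Qy ∧ ‖Qy - Q₀‖ ≤ 1 / 100 := by
  obtain ⟨θ, C₁, A₁, δ₁, hθ, hθ', hC₁, hA₁, hA₁', hδ₁, hδ₁', H1⟩ := iterate n m hm
  obtain ⟨A₂, hA₂, hA₂', H2⟩ := limit_plane n m C₁ θ hC₁ hθ hθ' (1 / 100) (by norm_num)
  obtain ⟨ω, hω⟩ : ∃ ω : ℝ, ω = (θ / 160) ^ (m + 2) / (2 * C₁) := ⟨_, rfl⟩
  have hω0 : 0 < ω := by rw [hω]; positivity
  have hω1 : C₁ * (2 * ω) = (θ / 160) ^ (m + 2) := by
    rw [hω]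
    field_simp
  obtain ⟨A, hA⟩ : ∃ A : ℝ, A = min (min A₁ A₂) ω := ⟨_, rfl⟩
  have hA0 : 0 < A := by
    rw [hA]
    exact lt_min (lt_min hA₁ hA₂) hω0
  have hAA₁ : A ≤ A₁ := by
    rw [hA]
    exact (min_le_left _ _).trans (min_le_left _ _)
  have hAA₂ : A ≤ A₂ := by
    rw [hA]
    exact (min_le_left _ _).trans (min_le_right _ _)
  have hAω : A ≤ ω := by
    rw [hA]
    exact min_le_right _ _
  have hA1 : A ≤ 1 := hAA₁.trans hA₁'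
  refine ⟨A, δ₁, hA0, hδ₁, hδ₁', ?_⟩
  intro α hα hα1
  obtain ⟨B₁, hB₁, hB₁', H1⟩ := H1 A hA0 hAA₁ α hα hα1
  obtain ⟨B₂, C', hB₂, hB₂', hC', H2⟩ := H2 A hA0 hAA₂ α hα hα1
  obtain ⟨B, hB⟩ : ∃ B : ℝ, B = min (min B₁ B₂) ω := ⟨_, rfl⟩
  have hB0 : 0 < B := by
    rw [hB]
    exact lt_min (lt_min hB₁ hB₂) hω0
  have hBB₁ : B ≤ B₁ := by
    rw [hB]
    exact (min_le_left _ _).trans (min_le_left _ _)
  have hBB₂ : B ≤ B₂ := by
    rw [hB]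
    exact (min_le_left _ _).trans (min_le_right _ _)
  have hBω : B ≤ ω := by
    rw [hB]
    exact min_le_right _ _
  have hB1 : B ≤ 1 := hBB₁.trans hB₁'
  refine ⟨B, hB0, ?_⟩
  intro r₀ hr₀ hr₀1
  have hΩ : 0 < om m := t3_om m
  have hm0 : (0 : ℝ) < (m : ℝ) + 2 := by positivity
  have hm1 : (1 : ℝ) ≤ m := by exact_mod_cast hm
  obtain ⟨β, hβ⟩ : ∃ β : ℝ, β = α / (m + 2) := ⟨_, rfl⟩
  have hβ0 : 0 < β := by rw [hβ]; positivity
  have hβm : β * (m + 2) = α := by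
    rw [hβ]
    exact div_mul_cancel₀ _ hm0.ne'
  have hβα : 2 * β ≤ α := by
    have h1 := mul_le_mul_of_nonneg_left (by linarith : (2 : ℝ) ≤ (m : ℝ) + 2) hβ0.le
    linarith
  obtain ⟨M, hM⟩ : ∃ M : ℝ, M = 2 / (θ * r₀) := ⟨_, rfl⟩
  have hM0 : 0 < M := by rw [hM]; positivity
  obtain ⟨K, hK⟩ : ∃ K : ℝ, K = max 1 (2 * C₁ * M ^ α * (2 / θ) ^ (m + 2)) := ⟨_, rfl⟩
  have hK1 : 1 ≤ K := by rw [hK]; exact le_max_left _ _
  have hK2 : 2 * C₁ * M ^ α * (2 / θ) ^ (m + 2) ≤ K := by rw [hK]; exact le_max_right _ _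
  have hK0 : 0 < K := by linarith
  obtain ⟨Cf, hCf⟩ : ∃ Cf : ℝ, Cf = 2 * K + C' * M ^ (α / 2) := ⟨_, rfl⟩
  have hMα : 0 < M ^ α := Real.rpow_pos_of_pos hM0 _
  have hMα2 : 0 < M ^ (α / 2) := Real.rpow_pos_of_pos hM0 _
  have hCf0 : 0 < Cf := by rw [hCf]; positivity
  obtain ⟨Ct, hCt⟩ : ∃ Ct : ℝ, Ct = (4 * C₁ + 3 * C' ^ 2 * om m) * M ^ α * (2 / θ) ^ m :=
    ⟨_, rfl⟩
  have hCt0 : 0 < Ct := by rw [hCt]; positivity
  obtain ⟨Cm, hCm⟩ : ∃ Cm : ℝ, Cm = 21 / 20 * om m * (2 / θ) ^ m := ⟨_, rfl⟩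
  have hCm0 : 0 < Cm := by rw [hCm]; positivity
  refine ⟨Cf + Ct + Cm, by positivity, ?_⟩
  intro δ S Λ U V hδ hδδ hΛ hΛB hLD y hy hU hmass Q₀ hQ₀ a₀ hexc
  obtain ⟨Q, a, hQ0, hQ⟩ := H1 B hB0 hBB₁ V hδ hδδ hΛ hΛB hLD y hy r₀ hr₀ hr₀1 hU hmass hQ₀ a₀ hexc
  obtain ⟨Qy, hQy, hQκ, hQC⟩ := H2 B hB0 hBB₂ Q (fun i => (hQ i).1) (fun i => (hQ i).2.1)
  have hθi : ∀ i : ℕ, 0 < θ ^ i := fun i => pow_pos hθ i
  have hθi1 : ∀ i : ℕ, θ ^ i ≤ 1 := fun i => pow_le_one₀ hθ.le (by linarith only [hθ'])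
  have hee : ∀ i : ℕ, (ee A B α θ i) ^ 2 ≤ (A + B) * (θ ^ i) ^ α := fun i =>
    ee_sq_le A B α θ hA0.le hA1 hB0.le hB1 hθ (by linarith only [hθ']) hα hα1 i
  have hee2 : ∀ i : ℕ, (ee A B α θ i) ^ 2 ≤ 2 * (θ ^ i) ^ α := fun i => by
    refine (hee i).trans (mul_le_mul_of_nonneg_right (by linarith only [hA1, hB₁', hBB₁]) ?_)
    exact Real.rpow_nonneg (hθi i).le _
  have hee3 : ∀ i : ℕ, (ee A B α θ i) ^ 2 ≤ 2 * ω := fun i => by
    have h1 : (θ ^ i) ^ α ≤ 1 := Real.rpow_le_one (hθi i).le (hθi1 i) hα.le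
    have h2 : 0 ≤ (θ ^ i) ^ α := Real.rpow_nonneg (hθi i).le _
    calc (ee A B α θ i) ^ 2 ≤ (A + B) * (θ ^ i) ^ α := hee i
      _ ≤ (A + B) * 1 := mul_le_mul_of_nonneg_left h1 (by linarith only [hA0, hB0])
      _ ≤ 2 * ω := by linarith only [hAω, hBω]
  have hθ2 : 0 < 2 / θ := by positivity
  -- the selection of the scale
  have sel : ∀ (x c : ℝ), 0 < x → 1 / 2 ≤ c → x < c * r₀ → ∃ i : ℕ, x < c * (θ ^ i * r₀) ∧
      θ ^ i * r₀ ≤ 2 / θ * x ∧ θ ^ i ≤ M * x := by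
    intro x c hx hc hxc
    have hc0 : 0 < c := by linarith only [hc]
    have hcr : 0 < c * r₀ := mul_pos hc0 hr₀
    obtain ⟨i, hi1, hi2⟩ := t3_pick hθ hθ' (x := x / (c * r₀)) (by positivity)
      ((div_lt_one hcr).2 hxc)
    rw [div_lt_iff₀ hcr] at hi2
    rw [le_div_iff₀ hcr, pow_succ] at hi1
    have h1 : θ * (θ ^ i * r₀) ≤ 2 * x := by
      have h3 : 0 < θ ^ i * θ * r₀ := mul_pos (mul_pos (hθi i) hθ) hr₀
      have h4 := mul_le_mul_of_nonneg_left hc h3.le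
      linarith only [hi1, h4]
    have h2 : θ ^ i * r₀ ≤ 2 / θ * x := by
      rw [div_mul_eq_mul_div, le_div_iff₀ hθ]
      linarith only [h1]
    refine ⟨i, by linarith only [hi2], h2, ?_⟩
    rw [hM, div_mul_eq_mul_div, le_div_iff₀ (by positivity)]
    linarith only [h1]
  -- flatness
  have key : ∀ z ∈ V.μ.support, z ≠ y → ‖z - y‖ < r₀ / 2 →
      ‖(1 - Qy) (z - y)‖ ≤ Cf * ‖z - y‖ ^ (1 + β) ∧
      ‖(1 - Qy) (z - y)‖ ≤ 1 / 20 * ‖z - y‖ := by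
    intro z hz hzy hzr
    obtain ⟨w, hw⟩ : ∃ w : ℝ, w = ‖z - y‖ := ⟨_, rfl⟩
    have hw0 : 0 < w := by
      rw [hw]
      exact norm_pos_iff.2 (sub_ne_zero.2 hzy)
    rw [← hw] at hzr
    have hw1 : w ≤ 1 := by linarith only [hr₀1, hzr]
    obtain ⟨i, hi1, hi2, hi3⟩ := sel w (1 / 2) hw0 le_rfl (by linarith only [hzr])
    have hρ : 0 < θ ^ i * r₀ := mul_pos (hθi i) hr₀
    obtain ⟨-, -, -, -, hsup⟩ := hQ i
    have hX1 := hsup z hz (by rw [← hw]; linarith only [hi1])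
    have hX2 := hsup y hy (by rw [sub_self, norm_zero]; linarith only [hρ])
    have hρm : (θ ^ i * r₀) ^ (m + 2) ≤ (2 / θ * w) ^ (m + 2) := pow_le_pow_left₀ hρ.le hi2 _
    -- small constant
    have hb1 : C₁ * (ee A B α θ i) ^ 2 * (θ ^ i * r₀) ^ (m + 2) ≤ (1 / 80 * w) ^ (m + 2) := by
      calc C₁ * (ee A B α θ i) ^ 2 * (θ ^ i * r₀) ^ (m + 2)
          ≤ C₁ * (2 * ω) * (2 / θ * w) ^ (m + 2) :=
            mul_le_mul (mul_le_mul_of_nonneg_left (hee3 i) hC₁.le) hρm (by positivity)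
              (by positivity)
        _ = (θ / 160 * (2 / θ * w)) ^ (m + 2) := by rw [hω1, ← mul_pow]
        _ = (1 / 80 * w) ^ (m + 2) := by
            congr 1
            field_simp
            norm_num
    -- power
    have hwβ : (w * w ^ β) ^ (m + 2) = w ^ α * w ^ (m + 2) := by
      rw [mul_pow, ← Real.rpow_natCast (w ^ β) (m + 2), ← Real.rpow_mul hw0.le]
      push_cast
      rw [hβm]
      ring
    have hwα : 0 < w ^ α := Real.rpow_pos_of_pos hw0 _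
    have hb2 : C₁ * (ee A B α θ i) ^ 2 * (θ ^ i * r₀) ^ (m + 2) ≤
        (K * (w * w ^ β)) ^ (m + 2) := by
      have h1 : (θ ^ i) ^ α ≤ M ^ α * w ^ α := by
        rw [← Real.mul_rpow hM0.le hw0.le]
        exact Real.rpow_le_rpow (hθi i).le hi3 hα.le
      calc C₁ * (ee A B α θ i) ^ 2 * (θ ^ i * r₀) ^ (m + 2)
          ≤ C₁ * (2 * (M ^ α * w ^ α)) * (2 / θ * w) ^ (m + 2) := by
            refine mul_le_mul (mul_le_mul_of_nonneg_left ?_ hC₁.le) hρm (by positivity)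
              (by positivity)
            exact (hee2 i).trans (mul_le_mul_of_nonneg_left h1 (by norm_num))
        _ = (2 * C₁ * M ^ α * (2 / θ) ^ (m + 2)) * (w ^ α * w ^ (m + 2)) := by
            rw [mul_pow]
            ring
        _ ≤ K ^ (m + 2) * (w ^ α * w ^ (m + 2)) :=
            mul_le_mul_of_nonneg_right (hK2.trans (t3_le_pow hK1 m)) (by positivity)
        _ = (K * (w * w ^ β)) ^ (m + 2) := by
            rw [mul_pow, hwβ]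
    have hwβ0 : 0 < w ^ β := Real.rpow_pos_of_pos hw0 _
    have root : ∀ X Y : ℝ, 0 ≤ Y → X ^ (m + 2) ≤ Y ^ (m + 2) → X ≤ Y := fun X Y hY h =>
      le_of_pow_le_pow_left₀ (by omega) hY h
    have hzy2 : (1 - Q i) (z - y) = (1 - Q i) (z - a i) - (1 - Q i) (y - a i) := by
      rw [← map_sub]
      congr 1
      abel
    have hsplit : ‖(1 - Qy) (z - y)‖ ≤ ‖(1 - Q i) (z - a i)‖ + ‖(1 - Q i) (y - a i)‖ +
        ‖Qy - Q i‖ * w := by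
      have h1 : (1 - Qy) (z - y) = (1 - Q i) (z - y) - (Qy - Q i) (z - y) := by
        simp only [sub_apply, one_apply_eq_self]
        abel
      rw [h1]
      refine (norm_sub_le _ _).trans (add_le_add ?_ ?_)
      · rw [hzy2]
        exact norm_sub_le _ _
      · rw [hw]
        exact ContinuousLinearMap.le_opNorm _ _
    rw [← hw]
    constructor
    · have a1 := root _ _ (by positivity) (hX1.trans hb2)
      have a2 := root _ _ (by positivity) (hX2.trans hb2)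
      have a3 : ‖Qy - Q i‖ * w ≤ C' * M ^ (α / 2) * (w * w ^ β) := by
        have b1 : (θ ^ i) ^ (α / 2) ≤ M ^ (α / 2) * w ^ β := by
          calc (θ ^ i) ^ (α / 2) ≤ (M * w) ^ (α / 2) :=
                Real.rpow_le_rpow (hθi i).le hi3 (by linarith only [hβ0, hβα])
            _ = M ^ (α / 2) * w ^ (α / 2) := Real.mul_rpow hM0.le hw0.le
            _ ≤ M ^ (α / 2) * w ^ β := by
                refine mul_le_mul_of_nonneg_left ?_ hMα2.le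
                exact Real.rpow_le_rpow_of_exponent_ge hw0 hw1 (by linarith only [hβα])
        calc ‖Qy - Q i‖ * w ≤ C' * (θ ^ i) ^ (α / 2) * w :=
              mul_le_mul_of_nonneg_right (hQC i) hw0.le
          _ ≤ C' * (M ^ (α / 2) * w ^ β) * w :=
              mul_le_mul_of_nonneg_right (mul_le_mul_of_nonneg_left b1 hC'.le) hw0.le
          _ = C' * M ^ (α / 2) * (w * w ^ β) := by ring
      have a4 : w ^ (1 + β) = w * w ^ β := by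
        rw [Real.rpow_add hw0, Real.rpow_one]
      rw [a4, hCf]
      linarith only [hsplit, a1, a2, a3]
    · have a1 := root _ _ (by positivity) (hX1.trans hb1)
      have a2 := root _ _ (by positivity) (hX2.trans hb1)
      have a3 : ‖Qy - Q i‖ * w ≤ 1 / 100 * w := mul_le_mul_of_nonneg_right (hQκ i) hw0.le
      linarith only [hw0, hsplit, a1, a2, a3]
  refine ⟨Qy, ⟨hQy, ?_, ?_, ?_, ?_⟩, ?_⟩
  · intro z hz hzr
    rw [← hβ]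
    rcases eq_or_ne z y with h | h
    · subst h
      rw [sub_self, map_zero, norm_zero]
      have : (0 : ℝ) ≤ 0 ^ (1 + β) := Real.rpow_nonneg le_rfl _
      positivity
    · refine (key z hz h hzr).1.trans (mul_le_mul_of_nonneg_right (by linarith only [hCt0, hCm0]) ?_)
      exact Real.rpow_nonneg (norm_nonneg _) _
  · intro z hz hzr
    rcases eq_or_ne z y with h | h
    · subst h
      rw [sub_self, map_zero, norm_zero, mul_zero]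
    · exact (key z hz h hzr).2
  · intro r hr hrr
    rw [← hβ]
    have hr1 : r ≤ 1 := by linarith only [hr₀1, hrr]
    obtain ⟨i, hi1, hi2, hi3⟩ := sel r (3 / 4) hr (by norm_num) (by linarith only [hr, hrr])
    have hρ : 0 < θ ^ i * r₀ := mul_pos (hθi i) hr₀
    obtain ⟨-, -, hms, htilt, -⟩ := hQ i
    have hρm : (θ ^ i * r₀) ^ m ≤ (2 / θ) ^ m * r ^ m := by
      rw [← mul_pow]
      exact pow_le_pow_left₀ hρ.le hi2 _
    have hq0 : 0 ≤ (θ ^ i) ^ α := Real.rpow_nonneg (hθi i).le _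
    have hint : ∀ R : Op n, Integrable (fun z => ‖V.P z - R‖ ^ 2) V.μ := by
      intro R
      have hmR : Measurable fun z => ‖V.P z - R‖ ^ 2 :=
        (V.mP.sub measurable_const).norm.pow_const 2
      refine Integrable.mono' (integrable_const ((1 + ‖R‖) ^ 2)) hmR.aestronglyMeasurable
        (Eventually.of_forall fun z => ?_)
      rw [Real.norm_eq_abs, abs_of_nonneg (by positivity)]
      have h1 := norm_sub_le (V.P z) R
      have h2 := (V.hP z).norm_le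
      exact pow_le_pow_left₀ (norm_nonneg _) (by linarith only [h1, h2]) 2
    have h1 : ∫ z in ball y r, ‖V.P z - Qy‖ ^ 2 ∂V.μ ≤
        2 * ∫ z in ball y r, ‖V.P z - Q i‖ ^ 2 ∂V.μ +
          2 * ‖Qy - Q i‖ ^ 2 * V.μ.real (ball y r) := by
      have e1 : 2 * ∫ z in ball y r, ‖V.P z - Q i‖ ^ 2 ∂V.μ +
          2 * ‖Qy - Q i‖ ^ 2 * V.μ.real (ball y r) =
          ∫ z in ball y r, (2 * ‖V.P z - Q i‖ ^ 2 + 2 * ‖Qy - Q i‖ ^ 2) ∂V.μ := by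
        rw [integral_add ((hint (Q i)).integrableOn.const_mul 2) (integrable_const _),
          integral_const_mul, setIntegral_const, smul_eq_mul]
        ring
      rw [e1]
      refine integral_mono (hint Qy).integrableOn
        (((hint (Q i)).integrableOn.const_mul 2).add (integrable_const _)) fun z => ?_
      simp only
      have h2 : ‖V.P z - Qy‖ ≤ ‖V.P z - Q i‖ + ‖Qy - Q i‖ := by
        have h3 : V.P z - Qy = (V.P z - Q i) - (Qy - Q i) := by abel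
        rw [h3]
        exact norm_sub_le _ _
      have h3 := norm_nonneg (V.P z - Qy)
      have h4 : ‖V.P z - Qy‖ ^ 2 ≤ (‖V.P z - Q i‖ + ‖Qy - Q i‖) ^ 2 :=
        pow_le_pow_left₀ h3 h2 2
      have h5 := sq_nonneg (‖V.P z - Q i‖ - ‖Qy - Q i‖)
      linarith only [h4, h5]
    have h2 : ∫ z in ball y r, ‖V.P z - Q i‖ ^ 2 ∂V.μ ≤
        C₁ * (2 * (θ ^ i) ^ α) * ((2 / θ) ^ m * r ^ m) := by
      have h3 : ∫ z in ball y r, ‖V.P z - Q i‖ ^ 2 ∂V.μ ≤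
          ∫ z in ball y (3 / 4 * (θ ^ i * r₀)), ‖V.P z - Q i‖ ^ 2 ∂V.μ := by
        refine setIntegral_mono_set (hint (Q i)).integrableOn
          (Eventually.of_forall fun z => by positivity) ?_
        exact (ball_subset_ball hi1.le).eventuallyLE
      refine h3.trans (htilt.trans ?_)
      exact mul_le_mul (mul_le_mul_of_nonneg_left (hee2 i) hC₁.le) hρm (by positivity)
        (by positivity)
    have h3 : 2 * ‖Qy - Q i‖ ^ 2 * V.μ.real (ball y r) ≤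
        2 * (C' ^ 2 * (θ ^ i) ^ α) * (21 / 20 * om m * ((2 / θ) ^ m * r ^ m)) := by
      have h4 : ‖Qy - Q i‖ ^ 2 ≤ C' ^ 2 * (θ ^ i) ^ α := by
        calc ‖Qy - Q i‖ ^ 2 ≤ (C' * (θ ^ i) ^ (α / 2)) ^ 2 :=
              pow_le_pow_left₀ (norm_nonneg _) (hQC i) 2
          _ = C' ^ 2 * (θ ^ i) ^ α := by
              rw [mul_pow, ← Real.rpow_natCast ((θ ^ i) ^ (α / 2)) 2,
                ← Real.rpow_mul (hθi i).le]
              congr 2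
              push_cast
              ring
      have h5 : V.μ.real (ball y r) ≤ 21 / 20 * om m * ((2 / θ) ^ m * r ^ m) := by
        have h6 : V.μ.real (ball y r) ≤ V.μ.real (ball y (θ ^ i * r₀)) :=
          measureReal_mono (ball_subset_ball (by linarith only [hr, hi1]))
        exact (h6.trans hms).trans (mul_le_mul_of_nonneg_left hρm (by positivity))
      exact mul_le_mul (mul_le_mul_of_nonneg_left h4 (by norm_num)) h5 measureReal_nonneg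
        (by positivity)
    have h4 : (θ ^ i) ^ α ≤ M ^ α * r ^ (2 * β) := by
      calc (θ ^ i) ^ α ≤ (M * r) ^ α := Real.rpow_le_rpow (hθi i).le hi3 hα.le
        _ = M ^ α * r ^ α := Real.mul_rpow hM0.le hr.le
        _ ≤ M ^ α * r ^ (2 * β) := by
            refine mul_le_mul_of_nonneg_left ?_ hMα.le
            exact Real.rpow_le_rpow_of_exponent_ge hr hr1 hβα
    have hrm : 0 < r ^ m := pow_pos hr m
    have hr2β : 0 < r ^ (2 * β) := Real.rpow_pos_of_pos hr _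
    calc ∫ z in ball y r, ‖V.P z - Qy‖ ^ 2 ∂V.μ ≤
          2 * (C₁ * (2 * (θ ^ i) ^ α) * ((2 / θ) ^ m * r ^ m)) +
          2 * (C' ^ 2 * (θ ^ i) ^ α) * (21 / 20 * om m * ((2 / θ) ^ m * r ^ m)) := by
          linarith only [h1, h2, h3]
      _ = (4 * C₁ + 21 / 10 * C' ^ 2 * om m) * (θ ^ i) ^ α * ((2 / θ) ^ m * r ^ m) := by ring
      _ ≤ (4 * C₁ + 3 * C' ^ 2 * om m) * (M ^ α * r ^ (2 * β)) * ((2 / θ) ^ m * r ^ m) := by
          refine mul_le_mul_of_nonneg_right (mul_le_mul ?_ h4 hq0 (by positivity)) (by positivity)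
          have h5 : 0 ≤ C' ^ 2 * om m := by positivity
          linarith only [h5]
      _ = Ct * r ^ m * r ^ (2 * β) := by
          rw [hCt]
          ring
      _ ≤ (Cf + Ct + Cm) * r ^ m * r ^ (2 * β) :=
          mul_le_mul_of_nonneg_right (mul_le_mul_of_nonneg_right (by linarith only [hCf0, hCm0]) hrm.le) hr2β.le
  · intro r hr hrr
    have hrm : 0 < r ^ m := pow_pos hr m
    rcases eq_or_lt_of_le hrr with h | h
    · subst h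
      obtain ⟨-, -, hms, -, -⟩ := hQ 0
      rw [pow_zero, one_mul] at hms
      have h1 : (1 : ℝ) ≤ (2 / θ) ^ m := by
        refine one_le_pow₀ ?_
        rw [le_div_iff₀ hθ]
        linarith only [hθ']
      calc V.μ.real (ball y r) ≤ 21 / 20 * om m * r ^ m := hms
        _ ≤ 21 / 20 * om m * (2 / θ) ^ m * r ^ m := by
            refine mul_le_mul_of_nonneg_right ?_ hrm.le
            exact le_mul_of_one_le_right (by positivity) h1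
        _ ≤ (Cf + Ct + Cm) * r ^ m := by
            rw [← hCm]
            exact mul_le_mul_of_nonneg_right (by linarith only [hCf0, hCt0]) hrm.le
    · obtain ⟨i, hi1, hi2, hi3⟩ := sel r 1 hr (by norm_num) (by linarith only [h])
      have hρ : 0 < θ ^ i * r₀ := mul_pos (hθi i) hr₀
      obtain ⟨-, -, hms, -, -⟩ := hQ i
      have hρm : (θ ^ i * r₀) ^ m ≤ (2 / θ) ^ m * r ^ m := by
        rw [← mul_pow]
        exact pow_le_pow_left₀ hρ.le hi2 _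
      have h6 : V.μ.real (ball y r) ≤ V.μ.real (ball y (θ ^ i * r₀)) :=
        measureReal_mono (ball_subset_ball (by linarith only [hi1]))
      calc V.μ.real (ball y r) ≤ 21 / 20 * om m * (θ ^ i * r₀) ^ m := h6.trans hms
        _ ≤ 21 / 20 * om m * ((2 / θ) ^ m * r ^ m) :=
            mul_le_mul_of_nonneg_left hρm (by positivity)
        _ = Cm * r ^ m := by
            rw [hCm]
            ring
        _ ≤ (Cf + Ct + Cm) * r ^ m := mul_le_mul_of_nonneg_right (by linarith only [hCf0, hCt0]) hrm.le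
  · rw [← hQ0]
    exact hQκ 0

end Allard
end
end

section

/-!
# R1: no holes

`nh := d⁻¹ (x' - Q₀ y₁)` unit vector in the range of `Q₀`, `w := Qy nh`, `‖w - nh‖ = ‖(Qy - Q₀) nh‖ ≤ 1/20`, `‖w‖ ≤ 1`.
For small `r > 0` (`r < r₀/4`, `r < 8 d`, `r < rs`), `p := y₁ + (r/8) w`.
(1) no point of the support is in `ball p (r/32)`: for such `z`,
`Q₀ z - x' = Q₀(z - y₁) - d nh = (r/8 - d) nh + u`, `‖u‖ ≤ (r/8)‖Q₀ (w - nh)‖ + r/32 ≤ r/160 + r/32 < r/8`, so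
`‖Q₀ z - x'‖ < d` and `‖z-y₁‖ < rs`, contradiction with `hhole`.
(2) `cyl_scale` for the rescaled system `V.rs y₁ r` (plane `Qy`, centre `p' = w/8`, `s = 1/64`, `r = 1/2`, vertical
cutoff `χ` from `exists_cutoff (1/8) (1/4)`, ball of radius `1`: `‖Qy(z-p')‖ ≤ 1/2`, `‖(1-Qy)z‖ ≤ 1/4` give `‖z‖ < 1`;
`closedBall 0 1 ⊆ U'`):
`∫ χ Kr(1/2) ≤ ∫ χ Kr(1/64) + C₁ (∫_{ball 0 1}‖P'-Qy‖ + ∫_{ball 0 1}‖H'‖)`.
The last bracket tends to `0` as `r → 0`: `(∫‖P'-Qy‖)² ≤ μ'(ball 0 1) ∫‖P'-Qy‖² ≤ C · C r^{2β}` (`RegAt.mass`,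
`RegAt.tilt`), `∫_{ball 0 1}‖H'‖ = hh(r) y₁ ≤ Λ r^α (1 + C)`.
`∫ χ Kr(1/64)(‖Qy(z-p')‖) = 0` for small `r`: `z` in the support with `χ ≠ 0` and `‖Qy(z-p')‖ < 1/64` has `‖z‖ < 1/2`, so
by `RegAt.flat` `‖(1-Qy)z‖ ≤ C r^β ≤ 1/64` and (as `(1-Qy)p' = 0`) `‖z-p'‖ < 1/32`, excluded by (1).
`∫ χ Kr(1/2)(‖Qy(z-p')‖) ≥ 2^m μ'(ball 0 (1/8)) ≥ (31/32) om 4^{-m}` (on `ball 0 (1/8)`: `‖Qy(z-p')‖ ≤ 1/4`, `χ = 1`).
Contradiction for small `r`.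
-/

noncomputable section

open MeasureTheory Metric Set Filter Topology

namespace Allard

/-- the direction and the empty balls -/
private theorem R1_geo {n m : ℕ} {Qy Q₀ : Op n} (hQy : Pr n m Qy) (hQ₀ : Pr n m Q₀)
    (hQQ : ‖Qy - Q₀‖ ≤ 1 / 20) {y₁ x' : E n} (hx' : Q₀ x' = x') {d : ℝ}
    (hd : d = ‖x' - Q₀ y₁‖) (hd0 : 0 < d) :
    ∃ w : E n, Qy w = w ∧ ‖w‖ ≤ 1 ∧ ∀ r : ℝ, 0 < r → r < 8 * d → ∀ z : E n,
      ‖z - (y₁ + (r / 8) • w)‖ < r / 32 → ‖z - y₁‖ < r ∧ ‖Q₀ z - x'‖ < d := by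
  obtain ⟨v, hv⟩ : ∃ v : E n, v = d⁻¹ • (x' - Q₀ y₁) := ⟨_, rfl⟩
  have hv1 : ‖v‖ = 1 := by
    rw [hv, norm_smul, Real.norm_eq_abs, abs_of_pos (inv_pos.2 hd0), ← hd, inv_mul_cancel₀ hd0.ne']
  have hQv : Q₀ v = v := by
    rw [hv, map_smul, map_sub, hx', hQ₀.apply_apply]
  have hdv : x' - Q₀ y₁ = d • v := by
    rw [hv, smul_smul, mul_inv_cancel₀ hd0.ne', one_smul]
  have hwv : ‖Qy v - v‖ ≤ 1 / 20 := by
    have h1 : Qy v - v = (Qy - Q₀) v := by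
      rw [sub_apply, hQv]
    rw [h1]
    calc ‖(Qy - Q₀) v‖ ≤ ‖Qy - Q₀‖ * ‖v‖ := (Qy - Q₀).le_opNorm v
      _ ≤ 1 / 20 * 1 := mul_le_mul hQQ hv1.le (norm_nonneg _) (by norm_num)
      _ = 1 / 20 := by norm_num
  have hw1 : ‖Qy v‖ ≤ 1 := (hQy.norm_apply_le v).trans hv1.le
  refine ⟨Qy v, hQy.apply_apply v, hw1, fun r hr hrd z hz => ⟨?_, ?_⟩⟩
  · have h1 : z - y₁ = (z - (y₁ + (r / 8) • Qy v)) + (r / 8) • Qy v := by abel
    have h2 : ‖(r / 8) • Qy v‖ ≤ r / 8 := by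
      rw [norm_smul, Real.norm_eq_abs, abs_of_pos (by positivity)]
      exact mul_le_of_le_one_right (by positivity) hw1
    rw [h1]
    have h3 := norm_add_le (z - (y₁ + (r / 8) • Qy v)) ((r / 8) • Qy v)
    linarith only [hr, hz, h2, h3]
  · have h1 : Q₀ z - x' = (r / 8 - d) • v + ((r / 8) • Q₀ (Qy v - v) +
        Q₀ (z - (y₁ + (r / 8) • Qy v))) := by
      have h2 : x' = Q₀ y₁ + d • v := by rw [← hdv]; abel
      simp only [map_sub, map_add, map_smul, hQv]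
      conv_lhs => rw [h2]
      module
    have h2 : ‖(r / 8 - d) • v‖ = d - r / 8 := by
      rw [norm_smul, hv1, mul_one, Real.norm_eq_abs, abs_of_neg (by linarith)]
      ring
    have h3 : ‖(r / 8) • Q₀ (Qy v - v)‖ ≤ r / 8 * (1 / 20) := by
      rw [norm_smul, Real.norm_eq_abs, abs_of_pos (by positivity)]
      exact mul_le_mul_of_nonneg_left ((hQ₀.norm_apply_le _).trans hwv) (by positivity)
    have h4 : ‖Q₀ (z - (y₁ + (r / 8) • Qy v))‖ ≤ ‖z - (y₁ + (r / 8) • Qy v)‖ :=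
      hQ₀.norm_apply_le _
    rw [h1]
    have h5 := norm_add_le ((r / 8 - d) • v) ((r / 8) • Q₀ (Qy v - v) +
        Q₀ (z - (y₁ + (r / 8) • Qy v)))
    have h6 := norm_add_le ((r / 8) • Q₀ (Qy v - v)) (Q₀ (z - (y₁ + (r / 8) • Qy v)))
    linarith only [hr, hz, h2, h3, h4, h5, h6]

/-- choice of the radius -/
private theorem R1_r {α β C C₁ Λ d rs r₀ e : ℝ} (hα : 0 < α) (hβ : 0 < β) (hd : 0 < d)
    (hrs : 0 < rs) (hr₀ : 0 < r₀) (he : 0 < e) :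
    ∃ r : ℝ, 0 < r ∧ r ≤ r₀ / 2 ∧ r < 8 * d ∧ r ≤ rs ∧ C * r ^ β < 1 / 64 ∧
      C₁ * (C * r ^ β + Λ * r ^ α * (1 + C)) < e := by
  have hp : ∀ γ : ℝ, 0 < γ → Tendsto (fun r : ℝ => r ^ γ) (𝓝[>] 0) (𝓝 0) := by
    intro γ hγ
    have h1 := (Real.continuous_rpow_const hγ.le).tendsto 0
    rw [Real.zero_rpow hγ.ne'] at h1
    exact h1.mono_left nhdsWithin_le_nhds
  have h1 : Tendsto (fun r : ℝ => C * r ^ β) (𝓝[>] 0) (𝓝 0) := by
    simpa using (hp β hβ).const_mul C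
  have h2 : Tendsto (fun r : ℝ => C₁ * (C * r ^ β + Λ * r ^ α * (1 + C))) (𝓝[>] 0) (𝓝 0) := by
    have h3 := (h1.add (((hp α hα).const_mul Λ).mul_const (1 + C))).const_mul C₁
    simpa using h3
  have e1 := h1.eventually (gt_mem_nhds (by norm_num : (0 : ℝ) < 1 / 64))
  have e2 := h2.eventually (gt_mem_nhds he)
  have e3 : ∀ᶠ r : ℝ in 𝓝[>] 0, r < min (r₀ / 2) (min (8 * d) rs) := by
    refine mem_nhdsWithin_of_mem_nhds (gt_mem_nhds ?_)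
    exact lt_min (by positivity) (lt_min (by positivity) hrs)
  obtain ⟨r, h4, h5, h6, h7⟩ := (e1.and (e2.and (e3.and self_mem_nhdsWithin))).exists
  have h8 := h6.trans_le (min_le_right _ _)
  exact ⟨r, h7, (h6.trans_le (min_le_left _ _)).le, h8.trans_le (min_le_left _ _),
    (h8.trans_le (min_le_right _ _)).le, h4, h5⟩

theorem no_hole {n m : ℕ} (hm : 1 ≤ m) {δ : ℝ} {S : Stress n m δ} {α Λ : ℝ}
    {U : Set (E n)} (V : Sys S α Λ U) (hδ : 0 ≤ δ) (hδ' : δ ≤ d0 n) (hα : 0 < α) (hα' : α < 1)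
    (hΛ : 0 ≤ Λ) (hLD : V.LD (1 / 32)) {β C r₀ : ℝ} (hβ : 0 < β)
    (hC : 0 < C) (hr₀ : 0 < r₀) {y₁ : E n} (hy : y₁ ∈ V.μ.support) {Qy Q₀ : Op n}
    (h : RegAt V β C r₀ y₁ Qy) (hQ₀ : Pr n m Q₀) (hQQ : ‖Qy - Q₀‖ ≤ 1 / 20)
    (hU : closedBall y₁ r₀ ⊆ U) {x' : E n} (hx' : Q₀ x' = x') {d rs : ℝ} (hrs : 0 < rs)
    (hd : d = ‖x' - Q₀ y₁‖) (hd0 : 0 < d)
    (hhole : ∀ z ∈ V.μ.support, ‖z - y₁‖ < rs → d ≤ ‖Q₀ z - x'‖) : False := by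
  obtain ⟨w, hw1, hw2, hw3⟩ := R1_geo h.pr hQ₀ hQQ hx' hd hd0
  obtain ⟨η, hη⟩ := exists_ker (1 / 2) (by norm_num) le_rfl
  obtain ⟨c₁, hc₁, hcut⟩ := exists_cutoff n (1 / 8) (1 / 4) (by norm_num) (by norm_num)
  obtain ⟨C₁, hC₁, hcyl⟩ := cyl_scale n m hm hη (1 / 64) (1 / 2) c₁ (by norm_num) (by norm_num)
    hc₁.le
  obtain ⟨χ, hχ1, hχ0, hχle, hχd, hχQ, hχone, hχzero, -⟩ := hcut h.pr
  have hom : 0 < om m := om_pos
  obtain ⟨r, hr, hr1, hr2, hr3, hr4, hr5⟩ := R1_r (α := α) (β := β) (C := C) (C₁ := C₁) (Λ := Λ)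
    (d := d) (rs := rs) (r₀ := r₀) (e := 31 / 32 * om m * (1 / 8) ^ m) hα hβ hd0 hrs hr₀
    (by positivity)
  have hQw : ∀ z, ‖z‖ ≤ ‖Qy z‖ + ‖(1 - Qy) z‖ := by
    intro z
    have h1 : z = Qy z + (1 - Qy) z := by
      change z = Qy z + (z - Qy z)
      abel
    calc ‖z‖ = ‖Qy z + (1 - Qy) z‖ := by rw [← h1]
      _ ≤ _ := norm_add_le _ _
  obtain ⟨p, hp⟩ : ∃ p : E n, p = (1 / 8 : ℝ) • w := ⟨_, rfl⟩
  have hQp : Qy p = p := by rw [hp, map_smul, hw1]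
  have hpn : ‖p‖ ≤ 1 / 8 := by
    rw [hp, norm_smul, Real.norm_eq_abs, abs_of_pos (by norm_num)]
    linarith only [hw2]
  have hpQ : (1 - Qy) p = 0 := by
    change p - Qy p = 0
    rw [hQp, sub_self]
  -- the rescaled system
  have hemp : ∀ z ∈ (V.rs y₁ r hr).μ.support, 1 / 32 ≤ ‖z - p‖ := by
    intro z hz
    rw [rs_support] at hz
    by_contra hcon
    rw [not_le] at hcon
    have h1 : ‖(y₁ + r • z) - (y₁ + (r / 8) • w)‖ < r / 32 := by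
      have h2 : (y₁ + r • z) - (y₁ + (r / 8) • w) = r • (z - p) := by
        rw [hp]; module
      rw [h2, norm_smul, Real.norm_eq_abs, abs_of_pos hr]
      calc r * ‖z - p‖ < r * (1 / 32) := mul_lt_mul_of_pos_left hcon hr
        _ = r / 32 := by ring
    obtain ⟨h3, h4⟩ := hw3 r hr hr2 _ h1
    exact absurd (hhole _ hz (h3.trans_le hr3)) (not_le.2 h4)
  have hflat : ∀ z ∈ (V.rs y₁ r hr).μ.support, ‖z‖ < 1 / 2 → ‖(1 - Qy) z‖ < 1 / 64 := by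
    intro z hz hz2
    rw [rs_support] at hz
    have h1 := h.flat _ hz
    have h2 : y₁ + r • z - y₁ = r • z := by abel
    rw [h2, norm_smul, Real.norm_eq_abs, abs_of_pos hr, map_smul, norm_smul, Real.norm_eq_abs,
      abs_of_pos hr] at h1
    have h3 := h1 (by nlinarith only [hr, hr1, hz2])
    have h4 : (r * ‖z‖) ^ (1 + β) ≤ r * r ^ β := by
      rw [Real.mul_rpow hr.le (norm_nonneg _), Real.rpow_add hr, Real.rpow_one]
      refine mul_le_of_le_one_right (by positivity) ?_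
      exact Real.rpow_le_one (norm_nonneg _) (by linarith only [hz2]) (by linarith only [hβ])
    have h5 : r * ‖(1 - Qy) z‖ ≤ r * (C * r ^ β) := by
      refine h3.trans ?_
      calc C * (r * ‖z‖) ^ (1 + β) ≤ C * (r * r ^ β) := mul_le_mul_of_nonneg_left h4 hC.le
        _ = r * (C * r ^ β) := by ring
    exact (le_of_mul_le_mul_left h5 hr).trans_lt hr4
  have hcont : ∀ s : ℝ, Continuous fun z => χ z * Kr m η s ‖Qy (z - p)‖ := fun s =>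
    hχ1.continuous.mul ((continuous_Kr hη s).comp
      (Qy.continuous.comp (continuous_id.sub continuous_const)).norm)
  have hint : ∀ s : ℝ, 0 < s → Integrable (fun z => χ z * Kr m η s ‖Qy (z - p)‖)
      (V.rs y₁ r hr).μ := by
    intro s hs
    refine (V.rs y₁ r hr).integrable_bdd (hcont s).measurable (c := (s ^ m)⁻¹) fun z => ?_
    rw [abs_of_nonneg (mul_nonneg (hχ0 z) (Kr_nonneg hη hs _))]
    calc χ z * Kr m η s ‖Qy (z - p)‖ ≤ 1 * (s ^ m)⁻¹ :=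
          mul_le_mul (hχle z) (Kr_le hη hs _) (Kr_nonneg hη hs _) zero_le_one
      _ = _ := one_mul _
  -- the small kernel does not see the measure
  have hzero : ∫ z, χ z * Kr m η (1 / 64) ‖Qy (z - p)‖ ∂(V.rs y₁ r hr).μ = 0 := by
    refine integral_eq_zero_of_ae ?_
    filter_upwards [(Measure.support_mem_ae : (V.rs y₁ r hr).μ.support ∈ _)] with z hz
    simp only [Pi.zero_apply]
    by_contra hcon
    have h1 : χ z ≠ 0 := fun h0 => hcon (by rw [h0, zero_mul])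
    have h2 : ‖(1 - Qy) z‖ < 1 / 4 := by
      by_contra h3
      exact h1 (hχzero z (not_lt.1 h3))
    have h3 : ‖Qy (z - p)‖ < 1 / 64 := by
      by_contra h4
      exact hcon (by rw [Kr_eq_zero hη (by norm_num) (not_lt.1 h4), mul_zero])
    have h4 : ‖Qy z‖ ≤ ‖Qy (z - p)‖ + ‖p‖ := by
      have h5 : Qy z = Qy (z - p) + p := by rw [map_sub, hQp]; abel
      calc ‖Qy z‖ = ‖Qy (z - p) + p‖ := by rw [← h5]
        _ ≤ _ := norm_add_le _ _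
    have h5 := hQw z
    have h6 := hflat z hz (by linarith only [hpn, h2, h3, h4, h5])
    have h7 := hQw (z - p)
    have h8 : (1 - Qy) (z - p) = (1 - Qy) z := by rw [map_sub, hpQ, sub_zero]
    rw [h8] at h7
    have h9 := hemp z hz
    linarith only [h3, h6, h7, h9]
  -- the large kernel sees the centre
  have hcb1 : closedBall y₁ (r / 8) ⊆ U :=
    (closedBall_subset_closedBall (by linarith only [hr, hr1])).trans hU
  have hmass8 : 31 / 32 * om m * (1 / 8) ^ m ≤ (V.rs y₁ r hr).μ.real (ball 0 (1 / 8)) := by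
    rw [rs_real_ball, smul_zero, add_zero]
    have h1 := hLD y₁ hy (r / 8) (by positivity) hcb1
    have h2 : r * (1 / 8) = r / 8 := by ring
    rw [h2, ← div_eq_inv_mul, le_div_iff₀ (by positivity)]
    have h3 : (r / 8) ^ m = (1 / 8) ^ m * r ^ m := by rw [← mul_pow]; congr 1; ring
    rw [h3] at h1
    linarith only [h1]
  have hlarge : 31 / 32 * om m * (1 / 8) ^ m ≤
      ∫ z, χ z * Kr m η (1 / 2) ‖Qy (z - p)‖ ∂(V.rs y₁ r hr).μ := by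
    refine hmass8.trans ?_
    have h1 : (V.rs y₁ r hr).μ.real (ball 0 (1 / 8)) =
        ∫ z, (ball (0 : E n) (1 / 8)).indicator (fun _ => (1 : ℝ)) z ∂(V.rs y₁ r hr).μ := by
      rw [integral_indicator_const _ measurableSet_ball, smul_eq_mul, mul_one]
    rw [h1]
    refine integral_mono ((integrable_const _).indicator measurableSet_ball)
      (hint _ (by norm_num)) fun z => ?_
    by_cases hz : z ∈ ball (0 : E n) (1 / 8)
    · rw [Set.indicator_of_mem hz]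
      rw [mem_ball, dist_zero_right] at hz
      have h2 : χ z = 1 := hχone z ((h.pr.perp_norm_apply_le z).trans hz.le)
      have h3 : ‖Qy (z - p)‖ ≤ 1 / 4 := by
        refine (h.pr.norm_apply_le _).trans ((norm_sub_le _ _).trans ?_)
        linarith only [hpn, hz]
      have h4 : Kr m η (1 / 2) ‖Qy (z - p)‖ = ((1 / 2 : ℝ) ^ m)⁻¹ :=
        Kr_eq hη (by norm_num) (by linarith only [h3])
      simp only
      rw [h2, h4, one_mul]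
      refine (one_le_inv₀ (by positivity)).2 ?_
      exact pow_le_one₀ (by norm_num) (by norm_num)
    · rw [Set.indicator_of_notMem hz]
      exact mul_nonneg (hχ0 z) (Kr_nonneg hη (by norm_num) _)
  -- the scaling estimate
  have hU' : closedBall (0 : E n) 1 ⊆ (fun w => y₁ + r • w) ⁻¹' U := by
    intro z hz
    rw [mem_closedBall, dist_zero_right] at hz
    refine hU ?_
    rw [mem_closedBall, dist_eq_norm]
    have h2 : y₁ + r • z - y₁ = r • z := by abel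
    rw [h2, norm_smul, Real.norm_eq_abs, abs_of_pos hr]
    nlinarith only [hr, hr1, hz]
  have hscale := hcyl (V.rs y₁ r hr) hδ hδ' h.pr p 1 hU' χ hχ1
    (fun z => by rw [abs_of_nonneg (hχ0 z)]; exact hχle z) hχd hχQ (by
      intro z h1 h2
      have h3 : ‖(1 - Qy) z‖ < 1 / 4 := by
        by_contra h3
        exact h1 (hχzero z (not_lt.1 h3))
      have h4 : ‖Qy z‖ ≤ ‖Qy (z - p)‖ + ‖p‖ := by
        have h5 : Qy z = Qy (z - p) + p := by rw [map_sub, hQp]; abel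
        calc ‖Qy z‖ = ‖Qy (z - p) + p‖ := by rw [← h5]
          _ ≤ _ := norm_add_le _ _
      have h5 := hQw z
      rw [mem_ball, dist_zero_right]
      linarith only [hpn, h2, h3, h4, h5])
  have hmassr : (r ^ m)⁻¹ * V.μ.real (ball y₁ r) ≤ C := by
    rw [← div_eq_inv_mul, div_le_iff₀ (by positivity)]
    exact h.mass r hr (by linarith only [hr, hr1])
  have hmassr' : (V.rs y₁ r hr).μ.real (ball 0 1) ≤ C := by
    rw [rs_real_ball, smul_zero, add_zero, mul_one]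
    exact hmassr
  have htilt : ∫ z in ball 0 1, ‖(V.rs y₁ r hr).P z - Qy‖ ^ 2 ∂(V.rs y₁ r hr).μ ≤
      C * r ^ (2 * β) := by
    have h1 := rs_lq V y₁ r hr Qy 1 one_pos 0
    unfold Sys.lq at h1
    rw [one_pow, inv_one, one_mul, mul_one, smul_zero, add_zero] at h1
    rw [h1, ← div_eq_inv_mul, div_le_iff₀ (by positivity)]
    refine (h.tilt r hr hr1).trans (le_of_eq ?_)
    ring
  have hmP : Measurable fun z => (V.rs y₁ r hr).P z - Qy :=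
    (V.rs y₁ r hr).mP.sub_const Qy
  have hPb : ∀ z, ‖(V.rs y₁ r hr).P z - Qy‖ ≤ 2 := fun z =>
    ((V.rs y₁ r hr).hP z).norm_sub_le h.pr
  have htilt1 : ∫ z in ball 0 1, ‖(V.rs y₁ r hr).P z - Qy‖ ∂(V.rs y₁ r hr).μ ≤ C * r ^ β := by
    have hrβ : 0 < r ^ β := by positivity
    have i1 : Integrable (fun z => ‖(V.rs y₁ r hr).P z - Qy‖) (V.rs y₁ r hr).μ :=
      (V.rs y₁ r hr).integrable_bdd hmP.norm (c := 2) fun z => by
        rw [abs_of_nonneg (norm_nonneg _)]; exact hPb z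
    have i2 : Integrable (fun z => ‖(V.rs y₁ r hr).P z - Qy‖ ^ 2) (V.rs y₁ r hr).μ :=
      (V.rs y₁ r hr).integrable_bdd (hmP.norm.pow_const 2) (c := 4) fun z => by
        rw [abs_of_nonneg (by positivity)]
        nlinarith only [hPb z, norm_nonneg ((V.rs y₁ r hr).P z - Qy)]
    have h1 : ∫ z in ball 0 1, ‖(V.rs y₁ r hr).P z - Qy‖ ∂(V.rs y₁ r hr).μ ≤
        ∫ z in ball 0 1, (r ^ β / 2 + (2 * r ^ β)⁻¹ * ‖(V.rs y₁ r hr).P z - Qy‖ ^ 2)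
          ∂(V.rs y₁ r hr).μ := by
      refine integral_mono i1.integrableOn
        ((integrable_const _).integrableOn.add (i2.const_mul _).integrableOn) fun z => ?_
      simp only
      generalize ‖(V.rs y₁ r hr).P z - Qy‖ = t
      generalize r ^ β = e at hrβ
      have h2 : e / 2 + (2 * e)⁻¹ * t ^ 2 - t = (2 * e)⁻¹ * (e - t) ^ 2 := by
        field_simp
        ring
      have h3 : 0 ≤ (2 * e)⁻¹ * (e - t) ^ 2 := by positivity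
      linarith only [h2, h3]
    have h2 : ∫ z in ball 0 1, (r ^ β / 2 + (2 * r ^ β)⁻¹ * ‖(V.rs y₁ r hr).P z - Qy‖ ^ 2)
          ∂(V.rs y₁ r hr).μ = (V.rs y₁ r hr).μ.real (ball 0 1) * (r ^ β / 2) +
          (2 * r ^ β)⁻¹ * ∫ z in ball 0 1, ‖(V.rs y₁ r hr).P z - Qy‖ ^ 2 ∂(V.rs y₁ r hr).μ := by
      rw [integral_add (integrable_const _).integrableOn (i2.const_mul _).integrableOn,
        integral_const_mul, setIntegral_const, smul_eq_mul]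
    rw [h2] at h1
    refine h1.trans ?_
    have h3 : (V.rs y₁ r hr).μ.real (ball 0 1) * (r ^ β / 2) ≤ C * (r ^ β / 2) :=
      mul_le_mul_of_nonneg_right hmassr' (by positivity)
    have h4 : (2 * r ^ β)⁻¹ * ∫ z in ball 0 1, ‖(V.rs y₁ r hr).P z - Qy‖ ^ 2
        ∂(V.rs y₁ r hr).μ ≤ (2 * r ^ β)⁻¹ * (C * r ^ (2 * β)) :=
      mul_le_mul_of_nonneg_left htilt (by positivity)
    have h5 : r ^ (2 * β) = r ^ β * r ^ β := by rw [← Real.rpow_add hr]; congr 1; ring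
    rw [h5] at h4
    have h6 : (2 * r ^ β)⁻¹ * (C * (r ^ β * r ^ β)) = C * (r ^ β / 2) := by
      field_simp
    linarith only [h3, h4, h6]
  have hH : ∫ z in ball 0 1, ‖(V.rs y₁ r hr).H z‖ ∂(V.rs y₁ r hr).μ ≤ Λ * r ^ α * (1 + C) := by
    have h1 := rs_hh V y₁ r hr 1 one_pos 0
    rw [smul_zero, add_zero, mul_one] at h1
    have h2 : ∫ z in ball 0 1, ‖(V.rs y₁ r hr).H z‖ ∂(V.rs y₁ r hr).μ =
        (V.rs y₁ r hr).hh 1 0 := by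
      unfold Sys.hh
      rw [one_pow, inv_one, one_mul, one_mul]
    rw [h2, h1]
    refine (V.hh_le hr y₁).trans ?_
    exact mul_le_mul_of_nonneg_left (by linarith only [hmassr]) (by positivity)
  have hdiff : ∫ z, χ z * (Kr m η (1 / 2) ‖Qy (z - p)‖ - Kr m η (1 / 64) ‖Qy (z - p)‖)
      ∂(V.rs y₁ r hr).μ = ∫ z, χ z * Kr m η (1 / 2) ‖Qy (z - p)‖ ∂(V.rs y₁ r hr).μ := by
    have h1 : (fun z => χ z * (Kr m η (1 / 2) ‖Qy (z - p)‖ - Kr m η (1 / 64) ‖Qy (z - p)‖)) =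
        fun z => χ z * Kr m η (1 / 2) ‖Qy (z - p)‖ - χ z * Kr m η (1 / 64) ‖Qy (z - p)‖ := by
      funext z; ring
    rw [h1, integral_sub (hint _ (by norm_num)) (hint _ (by norm_num)), hzero, sub_zero]
  rw [hdiff] at hscale
  have h1 := (le_abs_self _).trans hscale
  have h2 : C₁ * (∫ z in ball 0 1, ‖(V.rs y₁ r hr).P z - Qy‖ ∂(V.rs y₁ r hr).μ +
      ∫ z in ball 0 1, ‖(V.rs y₁ r hr).H z‖ ∂(V.rs y₁ r hr).μ) ≤
      C₁ * (C * r ^ β + Λ * r ^ α * (1 + C)) :=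
    mul_le_mul_of_nonneg_left (add_le_add htilt1 hH) hC₁.le
  linarith

end Allard
end
end

section

/-!
# T4: Hoelder continuity of the tangent planes

`y ≠ y'` in the support, `d = ‖y-y'‖`, `4 d ≤ r₀`: on `ball y d ⊆ ball y' (2d)`,
`‖Qy-Qy'‖² ≤ 2‖P-Qy‖² + 2‖P-Qy'‖²`; integrate, `μ(ball y d) ≥ (31/32) om d^m` (LD, `closedBall y d ⊆ U`).
-/

noncomputable section

open MeasureTheory Metric Set Filter Topology

namespace Allard

private theorem T4_om_pos (m : ℕ) : 0 < om m := by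
  unfold om
  exact ENNReal.toReal_pos (measure_ball_pos volume (0 : E m) one_pos).ne'
    measure_ball_lt_top.ne

private theorem T4_int {n m : ℕ} {δ : ℝ} {S : Stress n m δ} {α Λ : ℝ} {U : Set (E n)}
    (V : Sys S α Λ U) {Q : Op n} (hQ : Pr n m Q) :
    Integrable (fun z => ‖V.P z - Q‖ ^ 2) V.μ := by
  have hc : Continuous fun A : Op n => ‖A - Q‖ ^ 2 :=
    ((continuous_id.sub continuous_const).norm).pow 2
  refine Integrable.of_bound (hc.measurable.comp V.mP).aestronglyMeasurable 4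
    (Eventually.of_forall fun z => ?_)
  rw [Real.norm_of_nonneg (by positivity)]
  have h1 := (V.hP z).norm_sub_le hQ
  have h2 := norm_nonneg (V.P z - Q)
  nlinarith

theorem planes_holder {n m : ℕ} (hm : 1 ≤ m) {δ : ℝ} {S : Stress n m δ} {α Λ : ℝ}
    {U : Set (E n)} (V : Sys S α Λ U) (hLD : V.LD (1 / 32)) {β C r₀ : ℝ} (hβ : 0 < β)
    (hC : 0 < C) {y y' : E n} (hy : y ∈ V.μ.support) (hy' : y' ∈ V.μ.support)
    {Qy Qy' : Op n} (h : RegAt V β C r₀ y Qy) (h' : RegAt V β C r₀ y' Qy')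
    (hU : closedBall y r₀ ⊆ U) (hd : 4 * ‖y - y'‖ ≤ r₀) (hne : y ≠ y') :
    ‖Qy - Qy'‖ ^ 2 ≤ (32 / 31) * (om m)⁻¹ * (2 * C + 2 * C * 2 ^ m * 2 ^ (2 * β)) *
      ‖y - y'‖ ^ (2 * β) := by
  set d : ℝ := ‖y - y'‖ with hdd
  have hd0 : 0 < d := norm_pos_iff.mpr (sub_ne_zero.mpr hne)
  have hsub : ball y d ⊆ ball y' (2 * d) := by
    intro z hz
    rw [mem_ball, dist_eq_norm] at hz ⊢
    calc ‖z - y'‖ = ‖(z - y) + (y - y')‖ := by congr 1; abel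
      _ ≤ ‖z - y‖ + ‖y - y'‖ := norm_add_le _ _
      _ < 2 * d := by rw [← hdd]; linarith
  have i1 := T4_int V h.pr
  have i2 := T4_int V h'.pr
  have t1 := h.tilt d hd0 (by linarith)
  have t2 := h'.tilt (2 * d) (by positivity) (by linarith)
  have hLDy := hLD y hy d hd0 ((closedBall_subset_closedBall (by linarith)).trans hU)
  have hom := T4_om_pos m
  have key : ‖Qy - Qy'‖ ^ 2 * V.μ.real (ball y d) ≤
      2 * (C * d ^ m * d ^ (2 * β)) + 2 * (C * (2 * d) ^ m * (2 * d) ^ (2 * β)) := by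
    calc ‖Qy - Qy'‖ ^ 2 * V.μ.real (ball y d)
        = ∫ z in ball y d, ‖Qy - Qy'‖ ^ 2 ∂V.μ := by
          rw [setIntegral_const, smul_eq_mul, mul_comm]
      _ ≤ ∫ z in ball y d, (2 * ‖V.P z - Qy‖ ^ 2 + 2 * ‖V.P z - Qy'‖ ^ 2) ∂V.μ := by
          refine integral_mono (integrable_const _)
            ((i1.integrableOn.const_mul 2).add (i2.integrableOn.const_mul 2)) fun z => ?_
          have h1 : Qy - Qy' = (V.P z - Qy') - (V.P z - Qy) := by abel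
          have h2 : ‖Qy - Qy'‖ ≤ ‖V.P z - Qy'‖ + ‖V.P z - Qy‖ := by
            rw [h1]
            exact norm_sub_le _ _
          have h3 := norm_nonneg (Qy - Qy')
          have h4 : ‖Qy - Qy'‖ ^ 2 ≤ (‖V.P z - Qy'‖ + ‖V.P z - Qy‖) ^ 2 :=
            pow_le_pow_left₀ h3 h2 2
          change ‖Qy - Qy'‖ ^ 2 ≤ 2 * ‖V.P z - Qy‖ ^ 2 + 2 * ‖V.P z - Qy'‖ ^ 2
          nlinarith [sq_nonneg (‖V.P z - Qy'‖ - ‖V.P z - Qy‖)]
      _ = 2 * ∫ z in ball y d, ‖V.P z - Qy‖ ^ 2 ∂V.μ +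
          2 * ∫ z in ball y d, ‖V.P z - Qy'‖ ^ 2 ∂V.μ := by
          rw [integral_add (i1.integrableOn.const_mul 2) (i2.integrableOn.const_mul 2),
            integral_const_mul, integral_const_mul]
      _ ≤ _ := by
          refine add_le_add (mul_le_mul_of_nonneg_left t1 (by norm_num))
            (mul_le_mul_of_nonneg_left (le_trans ?_ t2) (by norm_num))
          exact setIntegral_mono_set i2.integrableOn (Eventually.of_forall fun z => by positivity)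
            (LE.le.eventuallyLE hsub)
  have e2 : (2 * d) ^ (2 * β) = 2 ^ (2 * β) * d ^ (2 * β) :=
    Real.mul_rpow (by norm_num) hd0.le
  rw [e2, mul_pow] at key
  have hdm : 0 < d ^ m := by positivity
  have h1 : ‖Qy - Qy'‖ ^ 2 * ((1 - 1 / 32) * om m * d ^ m) ≤
      ‖Qy - Qy'‖ ^ 2 * V.μ.real (ball y d) := mul_le_mul_of_nonneg_left hLDy (by positivity)
  have h2 : ‖Qy - Qy'‖ ^ 2 * ((31 / 32) * om m) ≤
      (2 * C + 2 * C * 2 ^ m * 2 ^ (2 * β)) * d ^ (2 * β) := by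
    have h3 : (‖Qy - Qy'‖ ^ 2 * ((31 / 32) * om m)) * d ^ m ≤
        ((2 * C + 2 * C * 2 ^ m * 2 ^ (2 * β)) * d ^ (2 * β)) * d ^ m := by
      calc (‖Qy - Qy'‖ ^ 2 * ((31 / 32) * om m)) * d ^ m =
            ‖Qy - Qy'‖ ^ 2 * ((1 - 1 / 32) * om m * d ^ m) := by ring
        _ ≤ _ := h1.trans key
        _ = _ := by ring
    exact le_of_mul_le_mul_right h3 hdm
  have h4 : ‖Qy - Qy'‖ ^ 2 = (‖Qy - Qy'‖ ^ 2 * ((31 / 32) * om m)) * ((32 / 31) * (om m)⁻¹) := by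
    field_simp
  rw [h4]
  calc (‖Qy - Qy'‖ ^ 2 * ((31 / 32) * om m)) * ((32 / 31) * (om m)⁻¹)
      ≤ ((2 * C + 2 * C * 2 ^ m * 2 ^ (2 * β)) * d ^ (2 * β)) * ((32 / 31) * (om m)⁻¹) :=
        mul_le_mul_of_nonneg_right h2 (by positivity)
    _ = _ := by ring

end Allard
end
end

section

/-!
# R2: the projection of the support is open

`r₁` with `closedBall y r₁ ⊆ ball 0 γ`, `ρ := r₁/8`.  `K := support ∩ closedBall y r₁` compact, `Q₀ '' K` compact.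
Given `x = Q₀ x`, `‖x - Q₀ y‖ < ρ`, suppose `x ∉ Q₀ '' K`; nearest point `Q₀ y₁`, `y₁ ∈ K`,
`d = ‖x - Q₀ y₁‖ > 0`, `d ≤ ‖x-Q₀y‖ < ρ`; `‖Q₀(y₁-y)‖ ≤ 2ρ`, so `‖y₁-y‖ ≤ ‖Q₀(y₁-y)‖ + ‖(1-Q₀)(y₁-y)‖ ≤ 4ρ = r₁/2`
(`hbl`).  For `z` in the support with `‖z-y₁‖ < r₁/2`: `z ∈ K`, so `d ≤ ‖Q₀z-x‖`.  `no_hole`.
-/

noncomputable section

open MeasureTheory Metric Set Filter Topology

namespace Allard

theorem proj_open {n m : ℕ} (hm : 1 ≤ m) {δ : ℝ} {S : Stress n m δ} {α Λ : ℝ}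
    {U : Set (E n)} (V : Sys S α Λ U) (hδ : 0 ≤ δ) (hδ' : δ ≤ d0 n) (hα : 0 < α) (hα' : α < 1)
    (hΛ : 0 ≤ Λ) (hLD : V.LD (1 / 32)) {β C r₀ γ : ℝ} (hβ : 0 < β)
    (hC : 0 < C) (hr₀ : 0 < r₀) {Q₀ : Op n} (hQ₀ : Pr n m Q₀) (Qf : E n → Op n)
    (hreg : ∀ y ∈ V.μ.support, ‖y‖ < γ → RegAt V β C r₀ y (Qf y) ∧ ‖Qf y - Q₀‖ ≤ 1 / 20 ∧
      closedBall y r₀ ⊆ U)
    (hbl : ∀ y ∈ V.μ.support, ‖y‖ < γ → ∀ z ∈ V.μ.support, ‖z‖ < γ →
      ‖(1 - Q₀) (z - y)‖ ≤ ‖Q₀ (z - y)‖)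
    {y : E n} (hy : y ∈ V.μ.support) (hyγ : ‖y‖ < γ) :
    ∃ ρ : ℝ, 0 < ρ ∧ ∀ x : E n, Q₀ x = x → ‖x - Q₀ y‖ < ρ →
      ∃ z ∈ V.μ.support, ‖z‖ < γ ∧ Q₀ z = x := by
  obtain ⟨r₁, hr₁⟩ : ∃ r₁ : ℝ, r₁ = (γ - ‖y‖) / 2 := ⟨_, rfl⟩
  have hr₁0 : 0 < r₁ := by rw [hr₁]; linarith
  have hball : ∀ z : E n, ‖z - y‖ ≤ r₁ → ‖z‖ < γ := by
    intro z hz
    have h1 : ‖z‖ ≤ ‖z - y‖ + ‖y‖ := by
      have := norm_add_le (z - y) y
      rwa [sub_add_cancel] at this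
    linarith
  refine ⟨r₁ / 8, by positivity, ?_⟩
  intro x hx hxy
  by_contra hcon
  push Not at hcon
  have hK : IsCompact (V.μ.support ∩ closedBall y r₁) :=
    (isCompact_closedBall y r₁).inter_left Measure.isClosed_support
  have hyK : y ∈ V.μ.support ∩ closedBall y r₁ := ⟨hy, mem_closedBall_self hr₁0.le⟩
  have hcont : Continuous (fun z : E n => ‖Q₀ z - x‖) := (Q₀.continuous.sub continuous_const).norm
  obtain ⟨y₁, hy₁K, hmin⟩ := hK.exists_isMinOn ⟨y, hyK⟩ hcont.continuousOn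
  have hmin' : ∀ z ∈ V.μ.support, ‖z - y‖ ≤ r₁ → ‖Q₀ y₁ - x‖ ≤ ‖Q₀ z - x‖ := by
    intro z hz hzy
    have h1 : z ∈ V.μ.support ∩ closedBall y r₁ := ⟨hz, by rwa [mem_closedBall, dist_eq_norm]⟩
    exact isMinOn_iff.mp hmin z h1
  have hy₁γ : ‖y₁‖ < γ := hball y₁ (by
    have := hy₁K.2
    rwa [mem_closedBall, dist_eq_norm] at this)
  have hd1 : ‖Q₀ y₁ - x‖ ≤ ‖Q₀ y - x‖ := hmin' y hy (by rw [sub_self, norm_zero]; exact hr₁0.le)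
  have hd2 : ‖Q₀ y - x‖ < r₁ / 8 := by rwa [norm_sub_rev]
  have hd0 : 0 < ‖x - Q₀ y₁‖ := by
    rw [norm_pos_iff, sub_ne_zero]
    exact fun h => hcon y₁ hy₁K.1 hy₁γ h.symm
  have h3 : ‖Q₀ (y₁ - y)‖ < r₁ / 4 := by
    have h4 : Q₀ (y₁ - y) = (Q₀ y₁ - x) - (Q₀ y - x) := by
      rw [map_sub]; abel
    rw [h4]
    have := norm_sub_le (Q₀ y₁ - x) (Q₀ y - x)
    linarith
  have h5 : ‖y₁ - y‖ < r₁ / 2 := by
    have h6 : y₁ - y = Q₀ (y₁ - y) + (1 - Q₀) (y₁ - y) := by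
      rw [sub_apply, one_apply_eq_self]
      abel
    have h7 := norm_add_le (Q₀ (y₁ - y)) ((1 - Q₀) (y₁ - y))
    rw [← h6] at h7
    have h8 := hbl y hy hyγ y₁ hy₁K.1 hy₁γ
    linarith
  obtain ⟨h9, h10, h11⟩ := hreg y₁ hy₁K.1 hy₁γ
  refine no_hole hm V hδ hδ' hα hα' hΛ hLD hβ hC hr₀ hy₁K.1 h9 hQ₀ h10 h11 hx
    (rs := r₁ / 2) (by positivity) rfl hd0 ?_
  intro z hz hzy₁
  rw [norm_sub_rev]
  refine hmin' z hz ?_
  have h12 : z - y = (z - y₁) + (y₁ - y) := by abel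
  rw [h12]
  have := norm_add_le (z - y₁) (y₁ - y)
  linarith

end Allard
end
end

section

/-!
# Main: the regularity theorem for systems

`A, δ_T` from `tangent`.  `init_flat` with `e₀ = A/2^{m+2}`, `κ = 1/200`: `γ₀, ε₁, δ_I, l_I`; `LD_thm (1/32)`: `δ_L, l_L`.
`δ₀` = minimum.  Given `α`: `B` from `tangent`, `r₀ := γ₀/2`, `C`.  `γ := γ₀/8`, `β := α/(m+2)`,
`ε := min (ε₁, B, (1-2^{-α}) min(l_I, l_L), 1/2)` (`lam α Λ = Λ/(1-2^{-α})`).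
For `y ∈ support`, `‖y‖ < γ`: `ball y r₀ ⊆ ball 0 γ₀`, so
`∫_{ball y r₀} ‖(1-Q)z‖² ≤ e₀² γ₀^{m+2} = e₀² 2^{m+2} r₀^{m+2} ≤ A² r₀^{m+2}` (`a₀ = 0`); masses from `init_flat`
(`γ₀/8 ≤ r ≤ γ₀/2 ≤ 1/2`).  `tangent` gives `Qf y`, `‖Qf y - Q₀‖ ≤ 1/100`.
For `y, z ∈ S`: `‖z-y‖ < 2γ = γ₀/4 = r₀/2`; `‖(1-Q₀)(z-y)‖ ≤ ‖(1-Qf y)(z-y)‖ + ‖Qf y - Q₀‖‖z-y‖ ≤ (3/50)‖z-y‖`, so
`‖(1-Q₀)(z-y)‖ ≤ (1/2) ‖Q₀(z-y)‖`.  Openness: `proj_open`.  `Ay := f (Qf y)` (`slope`).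
Hoelder: `planes_holder` if `4‖y-y'‖ ≤ r₀`, i.e. always (`‖y-y'‖ < γ₀/4 = r₀/2`): only if `‖y - y'‖ ≤ r₀/4`; otherwise
`‖f Q - f Q'‖ ≤ 8·2 ≤ 16 (4/r₀)^β ‖y-y'‖^β`.
-/

noncomputable section

open MeasureTheory Metric Set Filter Topology

namespace Allard

theorem main_sys (n m : ℕ) (hn : 1 ≤ n) (hm : 1 ≤ m) : ∃ δ₀ : ℝ, 0 < δ₀ ∧
    ∀ α : ℝ, 0 < α → α < 1 → ∃ ε γ β : ℝ, 0 < ε ∧ ε < 1 ∧ 0 < γ ∧ γ < 1 ∧ 0 < β ∧ β < 1 ∧
    ∀ {δ : ℝ} {S : Stress n m δ} {Λ : ℝ} (V : Sys S α Λ (ball 0 1)),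
    0 ≤ δ → δ ≤ δ₀ → 0 ≤ Λ → Λ ≤ ε → V.AE → V.μ.real (ball 0 1) ≤ (1 + ε) * om m →
    (0 : E n) ∈ V.μ.support →
    ∃ (Q₀ : Op n) (C : ℝ) (A : E n → Op n), Pr n m Q₀ ∧ 0 < C ∧
      (∀ y ∈ V.μ.support, ‖y‖ < γ → ∃ ρ : ℝ, 0 < ρ ∧ ∀ x : E n, Q₀ x = x → ‖x - Q₀ y‖ < ρ →
        ∃ z ∈ V.μ.support, ‖z‖ < γ ∧ Q₀ z = x) ∧
      (∀ y ∈ V.μ.support, ‖y‖ < γ → ∀ z ∈ V.μ.support, ‖z‖ < γ →
        ‖(1 - Q₀) (z - y)‖ ≤ 1 / 2 * ‖Q₀ (z - y)‖ ∧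
        ‖(1 - Q₀) (z - y) - A y (Q₀ (z - y))‖ ≤ C * ‖z - y‖ ^ (1 + β) ∧
        ‖A y - A z‖ ≤ C * ‖y - z‖ ^ β) := by
  obtain ⟨A, δT, hA, hδT, hδTd, hT⟩ := tangent n m hm
  have he : (0 : ℝ) < A / 2 ^ (m + 2) := by positivity
  obtain ⟨γ₀, ε₁, δI, lI, hγ₀, hγ₀', hε₁, hδI, -, hlI, hI⟩ :=
    init_flat n m hn hm (A / 2 ^ (m + 2)) (1 / 200) he (by norm_num)
  obtain ⟨δL, lL, hδL, -, hlL, hL⟩ := LD_thm n m hn hm (1 / 32) (by norm_num) (by norm_num)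
  refine ⟨min δT (min δI δL), lt_min hδT (lt_min hδI hδL), ?_⟩
  intro α hα hα1
  obtain ⟨B, hB, hT1⟩ := hT α hα hα1
  have h2α : (2 : ℝ) ^ (-α) < 1 :=
    Real.rpow_lt_one_of_one_lt_of_neg (by norm_num) (by linarith)
  have hq : 0 < 1 - (2 : ℝ) ^ (-α) := by linarith
  have hm2 : (0 : ℝ) < (m : ℝ) + 2 := by positivity
  have hr₀ : 0 < γ₀ / 2 := by linarith
  obtain ⟨C, hC, hT2⟩ := hT1 (γ₀ / 2) hr₀ (by linarith)
  have hβ : 0 < α / ((m : ℝ) + 2) := div_pos hα hm2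
  have hβ1 : α / ((m : ℝ) + 2) < 1 := by
    rw [div_lt_one hm2]
    have : (0 : ℝ) ≤ m := Nat.cast_nonneg m
    linarith
  have hεp : 0 < min (min ε₁ B) (min ((1 - (2 : ℝ) ^ (-α)) * min lI lL) (1 / 2)) :=
    lt_min (lt_min hε₁ hB) (lt_min (mul_pos hq (lt_min hlI hlL)) (by norm_num))
  refine ⟨min (min ε₁ B) (min ((1 - (2 : ℝ) ^ (-α)) * min lI lL) (1 / 2)), γ₀ / 8,
    α / ((m : ℝ) + 2), hεp, ?_, by linarith, by linarith, hβ, hβ1, ?_⟩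
  · exact lt_of_le_of_lt ((min_le_right _ _).trans (min_le_right _ _)) (by norm_num)
  intro δ S Λ V hδ hδ' hΛ hΛε hAE hmass h0
  set β : ℝ := α / ((m : ℝ) + 2) with hβdef
  set r₀ : ℝ := γ₀ / 2 with hr₀def
  have hom : 0 < om m := om_pos
  have hΛε1 : Λ ≤ B := hΛε.trans ((min_le_left _ _).trans (min_le_right _ _))
  have hΛq : Λ ≤ (1 - (2 : ℝ) ^ (-α)) * min lI lL :=
    hΛε.trans ((min_le_right _ _).trans (min_le_left _ _))
  have hlam : lam α Λ ≤ min lI lL := by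
    unfold lam
    rw [div_le_iff₀ hq, mul_comm]
    exact hΛq
  have hδT' : δ ≤ δT := hδ'.trans (min_le_left _ _)
  have hδI' : δ ≤ δI := hδ'.trans ((min_le_right _ _).trans (min_le_left _ _))
  have hδL' : δ ≤ δL := hδ'.trans ((min_le_right _ _).trans (min_le_right _ _))
  have hLD : V.LD (1 / 32) :=
    hL V hδ hδL' hΛ hα hα1 (hlam.trans (min_le_right _ _)) hAE Subset.rfl
  have hmass1 : V.μ.real (ball 0 1) ≤ (1 + ε₁) * om m := by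
    refine hmass.trans (mul_le_mul_of_nonneg_right ?_ hom.le)
    have := (min_le_left (min ε₁ B)
      (min ((1 - (2 : ℝ) ^ (-α)) * min lI lL) (1 / 2))).trans (min_le_left _ _)
    linarith only [this]
  obtain ⟨⟨Q₀, hQ₀, hflat⟩, hmI⟩ :=
    hI V hδ hδI' hα hα1 hΛ (hlam.trans (min_le_left _ _)) hAE hmass1 h0
  have hsub : ∀ y : E n, ‖y‖ < γ₀ / 8 → closedBall y r₀ ⊆ ball (0 : E n) 1 := by
    intro y hy x hx
    rw [mem_closedBall_iff_norm] at hx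
    rw [mem_ball_zero_iff]
    have h1 : ‖x‖ ≤ ‖x - y‖ + ‖y‖ := by
      have := norm_add_le (x - y) y
      rwa [sub_add_cancel] at this
    linarith only [hγ₀', hr₀def, hy, hx, h1]
  have hcont : Continuous fun z : E n => ‖(1 - Q₀) z‖ ^ 2 := by fun_prop
  have htan : ∀ y ∈ V.μ.support, ‖y‖ < γ₀ / 8 →
      ∃ Qy : Op n, RegAt V β C r₀ y Qy ∧ ‖Qy - Q₀‖ ≤ 1 / 100 := by
    intro y hy hyγ
    refine hT2 V hδ hδT' hΛ hΛε1 hLD y hy (hsub y hyγ) (fun r hr1 hr2 => ?_) hQ₀ 0 ?_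
    · exact hmI y (by linarith only [hr₀, hr₀def, hyγ]) r (by linarith only [hr₀def, hr1]) (by linarith only [hγ₀', hr₀def, hr2])
    · have hb : ball y r₀ ⊆ ball (0 : E n) γ₀ := by
        intro x hx
        rw [mem_ball_iff_norm] at hx
        rw [mem_ball_zero_iff]
        have h1 : ‖x‖ ≤ ‖x - y‖ + ‖y‖ := by
          have := norm_add_le (x - y) y
          rwa [sub_add_cancel] at this
        linarith only [hr₀, hr₀def, hyγ, hx, h1]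
      have hint : IntegrableOn (fun z : E n => ‖(1 - Q₀) z‖ ^ 2) (ball (0 : E n) γ₀) V.μ := by
        have h1 : IntegrableOn (fun z : E n => ‖(1 - Q₀) z‖ ^ 2) (closedBall (0 : E n) γ₀) V.μ :=
          hcont.continuousOn.integrableOn_compact (isCompact_closedBall _ _)
        exact h1.mono_set ball_subset_closedBall
      simp only [sub_zero]
      have h1 : ∫ z in ball y r₀, ‖(1 - Q₀) z‖ ^ 2 ∂V.μ ≤
          ∫ z in ball (0 : E n) γ₀, ‖(1 - Q₀) z‖ ^ 2 ∂V.μ :=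
        setIntegral_mono_set hint (Eventually.of_forall fun z => by positivity)
          (HasSubset.Subset.eventuallyLE hb)
      refine h1.trans (hflat.trans ?_)
      have e1 : γ₀ = 2 * r₀ := by rw [hr₀def]; ring
      rw [e1, mul_pow, div_pow]
      have h2 : (1 : ℝ) ≤ 2 ^ (m + 2) := one_le_pow₀ (by norm_num)
      have h3 : (0 : ℝ) < 2 ^ (m + 2) := by positivity
      have h4 : 0 ≤ A ^ 2 * r₀ ^ (m + 2) := by positivity
      have h5 : A ^ 2 / (2 ^ (m + 2)) ^ 2 * (2 ^ (m + 2) * r₀ ^ (m + 2)) =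
          (A ^ 2 * r₀ ^ (m + 2)) / 2 ^ (m + 2) := by
        field_simp
      rw [h5]
      exact div_le_self h4 h2
  classical
  set Qf : E n → Op n := fun y =>
    if h : y ∈ V.μ.support ∧ ‖y‖ < γ₀ / 8 then (htan y h.1 h.2).choose else Q₀ with hQf
  have hreg : ∀ y ∈ V.μ.support, ‖y‖ < γ₀ / 8 →
      RegAt V β C r₀ y (Qf y) ∧ ‖Qf y - Q₀‖ ≤ 1 / 100 := by
    intro y hy hyγ
    have h1 : Qf y = (htan y hy hyγ).choose := by
      rw [hQf]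
      exact dif_pos ⟨hy, hyγ⟩
    rw [h1]
    exact (htan y hy hyγ).choose_spec
  obtain ⟨f, hf1, hf2⟩ := slope hQ₀
  have hclose : ∀ y z : E n, ‖y‖ < γ₀ / 8 → ‖z‖ < γ₀ / 8 → ‖z - y‖ < r₀ / 2 := by
    intro y z hy hz
    have := norm_sub_le z y
    linarith only [hr₀def, hy, hz, this]
  have hbl' : ∀ y ∈ V.μ.support, ‖y‖ < γ₀ / 8 → ∀ z ∈ V.μ.support, ‖z‖ < γ₀ / 8 →
      ‖(1 - Q₀) (z - y)‖ ≤ 1 / 2 * ‖Q₀ (z - y)‖ := by
    intro y hy hyγ z hz hzγ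
    obtain ⟨hR, hQ⟩ := hreg y hy hyγ
    have h1 := hR.flat' z hz (hclose y z hyγ hzγ)
    have h2 : ‖(Qf y - Q₀) (z - y)‖ ≤ 1 / 100 * ‖z - y‖ :=
      ((Qf y - Q₀).le_opNorm _).trans (mul_le_mul_of_nonneg_right hQ (norm_nonneg _))
    have e1 : (1 - Q₀) (z - y) = (1 - Qf y) (z - y) + (Qf y - Q₀) (z - y) := by
      rw [← ContinuousLinearMap.add_apply]
      congr 1
      abel
    have h3 : ‖(1 - Q₀) (z - y)‖ ≤ ‖(1 - Qf y) (z - y)‖ + ‖(Qf y - Q₀) (z - y)‖ := by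
      rw [e1]
      exact norm_add_le _ _
    have e2 : z - y = Q₀ (z - y) + (1 - Q₀) (z - y) := by
      rw [← ContinuousLinearMap.add_apply]
      simp
    have h4 : ‖z - y‖ ≤ ‖Q₀ (z - y)‖ + ‖(1 - Q₀) (z - y)‖ := by
      conv_lhs => rw [e2]
      exact norm_add_le _ _
    have h5 : 0 ≤ ‖z - y‖ := norm_nonneg _
    linarith only [h1, h2, h3, h4, h5]
  have hbl : ∀ y ∈ V.μ.support, ‖y‖ < γ₀ / 8 → ∀ z ∈ V.μ.support, ‖z‖ < γ₀ / 8 →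
      ‖(1 - Q₀) (z - y)‖ ≤ ‖Q₀ (z - y)‖ := by
    intro y hy hyγ z hz hzγ
    have h1 := hbl' y hy hyγ z hz hzγ
    have h2 : 0 ≤ ‖Q₀ (z - y)‖ := norm_nonneg _
    linarith only [h1, h2]
  set K : ℝ := (32 / 31) * (om m)⁻¹ * (2 * C + 2 * C * 2 ^ m * 2 ^ (2 * β)) with hK
  have hK0 : 0 ≤ K := by positivity
  set D : ℝ := 4 * C + 8 * √K + 8 * (4 / r₀) ^ β with hD
  have h4r : 0 < 4 / r₀ := by positivity
  have hD1 : 4 * C ≤ D := by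
    have : 0 ≤ 8 * √K := by positivity
    have : 0 ≤ 8 * (4 / r₀) ^ β := by positivity
    linarith
  have hD2 : 8 * √K ≤ D := by
    have : 0 ≤ 8 * (4 / r₀) ^ β := by positivity
    linarith only [hC, this]
  have hD3 : 8 * (4 / r₀) ^ β ≤ D := by
    have : 0 ≤ 8 * √K := by positivity
    linarith only [hC, this]
  have hD0 : 0 < D := by linarith only [hC, hD1]
  refine ⟨Q₀, D, fun y => f (Qf y), hQ₀, hD0, ?_, ?_⟩
  · intro y hy hyγ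
    refine proj_open hm V hδ (hδT'.trans hδTd) hα hα1 hΛ hLD hβ hC hr₀ hQ₀ Qf
      (fun y hy hyγ => ?_) hbl hy hyγ
    obtain ⟨hR, hQ⟩ := hreg y hy hyγ
    exact ⟨hR, hQ.trans (by norm_num), hsub y hyγ⟩
  · intro y hy hyγ z hz hzγ
    refine ⟨hbl' y hy hyγ z hz hzγ, ?_, ?_⟩
    · obtain ⟨hR, hQ⟩ := hreg y hy hyγ
      refine (hf1 (Qf y) hR.pr (hQ.trans (by norm_num)) (z - y)).trans ?_
      have h1 := hR.flat z hz (hclose y z hyγ hzγ)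
      have h2 : 0 ≤ ‖z - y‖ ^ (1 + β) := by positivity
      nlinarith only [hD1, h1, h2]
    · obtain ⟨hR, hQ⟩ := hreg y hy hyγ
      obtain ⟨hR', hQ'⟩ := hreg z hz hzγ
      have h1 : ‖f (Qf y) - f (Qf z)‖ ≤ 8 * ‖Qf y - Qf z‖ :=
        hf2 _ _ hR.pr hR'.pr (hQ.trans (by norm_num)) (hQ'.trans (by norm_num))
      rcases eq_or_ne y z with rfl | hne
      · show ‖f (Qf y) - f (Qf y)‖ ≤ _
        rw [sub_self, norm_zero]
        positivity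
      have hnp : 0 < ‖y - z‖ := norm_pos_iff.2 (sub_ne_zero.2 hne)
      have hp : 0 ≤ ‖y - z‖ ^ β := by positivity
      refine h1.trans ?_
      by_cases hd : 4 * ‖y - z‖ ≤ r₀
      · have h2 := planes_holder hm V hLD hβ hC hy hz hR hR' (hsub y hyγ) hd hne
        have h3 : ‖Qf y - Qf z‖ ^ 2 ≤ (√K * ‖y - z‖ ^ β) ^ 2 := by
          rw [mul_pow, Real.sq_sqrt hK0]
          have e1 : (‖y - z‖ ^ β) ^ 2 = ‖y - z‖ ^ (2 * β) := by
            rw [← Real.rpow_natCast, ← Real.rpow_mul hnp.le]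
            congr 1
            push_cast
            ring
          rw [e1]
          exact h2
        have h4 : ‖Qf y - Qf z‖ ≤ √K * ‖y - z‖ ^ β :=
          le_of_sq_le_sq h3 (by positivity)
        have h5 : 8 * √K * ‖y - z‖ ^ β ≤ D * ‖y - z‖ ^ β :=
          mul_le_mul_of_nonneg_right hD2 hp
        linarith only [h4, h5]
      · push Not at hd
        have h2 : ‖Qf y - Qf z‖ ≤ 1 := by
          have e1 : Qf y - Qf z = (Qf y - Q₀) - (Qf z - Q₀) := by abel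
          rw [e1]
          have := norm_sub_le (Qf y - Q₀) (Qf z - Q₀)
          linarith only [hQ, hQ', this]
        have h3 : 1 ≤ (4 / r₀ * ‖y - z‖) ^ β := by
          refine Real.one_le_rpow ?_ hβ.le
          rw [div_mul_eq_mul_div, one_le_div hr₀]
          exact hd.le
        rw [Real.mul_rpow h4r.le hnp.le] at h3
        have h5 : 8 * (4 / r₀) ^ β * ‖y - z‖ ^ β ≤ D * ‖y - z‖ ^ β :=
          mul_le_mul_of_nonneg_right hD3 hp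
        linarith only [h2, h3, h5]

end Allard
end
end

section

/-!
# Main theorem in the form used for the graph
-/

noncomputable section

open MeasureTheory Metric Set Filter Topology

namespace Allard

theorem main_sys2 (n m : ℕ) (hn : 1 ≤ n) (hm : 1 ≤ m) : ∃ δ₀ : ℝ, 0 < δ₀ ∧
    ∀ α : ℝ, 0 < α → α < 1 → ∃ ε γ β : ℝ, 0 < ε ∧ ε < 1 ∧ 0 < γ ∧ γ < 1 ∧ 0 < β ∧ β < 1 ∧
    ∀ {δ : ℝ} {S : Stress n m δ} {Λ : ℝ} (V : Sys S α Λ (ball 0 1)),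
    0 ≤ δ → δ ≤ δ₀ → 0 ≤ Λ → Λ ≤ ε → V.AE → V.μ.real (ball 0 1) ≤ (1 + ε) * om m →
    (0 : E n) ∈ V.μ.support →
    ∃ (Q₀ : Op n) (c : ℝ) (D : E n → Op n), Pr n m Q₀ ∧ 0 < c ∧
      (∀ y ∈ V.μ.support ∩ ball 0 γ, ∀ z ∈ V.μ.support ∩ ball 0 γ,
        ‖(1 - Q₀) (z - y)‖ ≤ 1 / 2 * ‖Q₀ (z - y)‖) ∧
      (∀ y ∈ V.μ.support ∩ ball 0 γ, ∃ ρ : ℝ, 0 < ρ ∧ ∀ x : E n, Q₀ x = x →
        ‖x - Q₀ y‖ < ρ → ∃ z ∈ V.μ.support ∩ ball 0 γ, Q₀ z = x) ∧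
      (∀ y ∈ V.μ.support ∩ ball 0 γ, ∀ z ∈ V.μ.support ∩ ball 0 γ,
        ‖(1 - Q₀) (z - y) - D y (Q₀ (z - y))‖ ≤ c * ‖Q₀ (z - y)‖ ^ (1 + β)) ∧
      (∀ y ∈ V.μ.support ∩ ball 0 γ, ∀ z ∈ V.μ.support ∩ ball 0 γ,
        ‖D y - D z‖ ≤ c * ‖y - z‖ ^ β) := by
  obtain ⟨δ₀, hδ₀, H⟩ := main_sys n m hn hm
  refine ⟨δ₀, hδ₀, ?_⟩
  intro α hα hα1
  obtain ⟨ε, γ, β, he, he1, hg, hg1, hb, hb1, K⟩ := H α hα hα1
  refine ⟨ε, γ, β, he, he1, hg, hg1, hb, hb1, ?_⟩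
  intro δ S Λ V hδ hδδ hΛ hΛε hAE hmass h0
  obtain ⟨Q₀, C, A, hQ, hC, hopen, hmain⟩ := K V hδ hδδ hΛ hΛε hAE hmass h0
  refine ⟨Q₀, 4 * C, A, hQ, by positivity, ?_, ?_, ?_, ?_⟩
  · rintro y ⟨hy, hyb⟩ z ⟨hz, hzb⟩
    rw [mem_ball_zero_iff] at hyb hzb
    exact (hmain y hy hyb z hz hzb).1
  · rintro y ⟨hy, hyb⟩
    rw [mem_ball_zero_iff] at hyb
    obtain ⟨ρ, hρ, h⟩ := hopen y hy hyb
    refine ⟨ρ, hρ, fun x hx hxy => ?_⟩
    obtain ⟨z, hz, hzg, hzx⟩ := h x hx hxy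
    exact ⟨z, ⟨hz, by rwa [mem_ball_zero_iff]⟩, hzx⟩
  · rintro y ⟨hy, hyb⟩ z ⟨hz, hzb⟩
    rw [mem_ball_zero_iff] at hyb hzb
    obtain ⟨h1, h2, h3⟩ := hmain y hy hyb z hz hzb
    refine h2.trans ?_
    have e : z - y = Q₀ (z - y) + (1 - Q₀) (z - y) := by simp
    have hle : ‖z - y‖ ≤ 3 / 2 * ‖Q₀ (z - y)‖ := by
      calc ‖z - y‖ = ‖Q₀ (z - y) + (1 - Q₀) (z - y)‖ := by rw [← e]
        _ ≤ ‖Q₀ (z - y)‖ + ‖(1 - Q₀) (z - y)‖ := norm_add_le _ _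
        _ ≤ 3 / 2 * ‖Q₀ (z - y)‖ := by linarith
    have hpow : ‖z - y‖ ^ (1 + β) ≤ (3 / 2 * ‖Q₀ (z - y)‖) ^ (1 + β) :=
      Real.rpow_le_rpow (norm_nonneg _) hle (by linarith)
    rw [Real.mul_rpow (by norm_num) (norm_nonneg _)] at hpow
    have h32 : (3 / 2 : ℝ) ^ (1 + β) ≤ 4 := by
      calc (3 / 2 : ℝ) ^ (1 + β) ≤ (3 / 2 : ℝ) ^ (2 : ℝ) :=
            Real.rpow_le_rpow_of_exponent_le (by norm_num) (by linarith)
        _ ≤ 4 := by norm_num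
    have hn0 : 0 ≤ ‖Q₀ (z - y)‖ ^ (1 + β) := Real.rpow_nonneg (norm_nonneg _) _
    calc C * ‖z - y‖ ^ (1 + β) ≤ C * ((3 / 2 : ℝ) ^ (1 + β) * ‖Q₀ (z - y)‖ ^ (1 + β)) :=
          mul_le_mul_of_nonneg_left hpow hC.le
      _ ≤ C * (4 * ‖Q₀ (z - y)‖ ^ (1 + β)) := by
          apply mul_le_mul_of_nonneg_left _ hC.le
          exact mul_le_mul_of_nonneg_right h32 hn0
      _ = 4 * C * ‖Q₀ (z - y)‖ ^ (1 + β) := by ring
  · rintro y ⟨hy, hyb⟩ z ⟨hz, hzb⟩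
    rw [mem_ball_zero_iff] at hyb hzb
    obtain ⟨h1, h2, h3⟩ := hmain y hy hyb z hz hzb
    refine h3.trans ?_
    have hn0 : 0 ≤ ‖y - z‖ ^ β := Real.rpow_nonneg (norm_nonneg _) _
    nlinarith

end Allard
end
end
end
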